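import Pool.Agent.MP_154433_an.p5.T1

/-! One map, part 7 (packed). -/

section PkSec4A

/-! Section 4: the rows of the specification follow from the sub-rows. -/

set_option autoImplicit false
set_option linter.unusedVariables false
set_option warn.classDefReducibility false

open MeasureTheory ProbabilityTheory Filter Topology Function Finset ComplexConjugate
open scoped BigOperators
open Fib27 (BM sup pr Oc Orow F23 LInd Mem)
open Pool.Agent.MP_154433_an.SG (Uni ufn)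

noncomputable section

namespace T3x

namespace Sec4A

theorem gc (h1 : CtxR) (h2 : PscR) (h3 : FfR) (fd : Fd) (rc : Rc) : GC where
  ctx := h1 fd
  ps := h2 fd rc
  ff := fun c V _ _ sg ψ h => h3 fd rc c V sg ψ (h1 fd c) (h2 fd rc _ _ V sg ψ c.kc.1 h) h

theorem zc (h1 : ZvR) (h2 : HtR) (fd : Fd) (rc : Rc) (sa : SatA) (g : GC) : ZC where
  zv := h1 fd rc g
  ht := h2 fd sa g

theorem hat (hA : HatA) (hB : HatB) (fd : Fd) (g : GC) (c : Ctx) (gi : c.GI) :
    Nonempty c.Hat := by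
  obtain ⟨i0, -⟩ := (g.ctx c).two
  obtain ⟨Xh, e, Bh, rp, adm, hle⟩ := hA fd g c i0 gi
  obtain ⟨X1, p1, p2, B1, e2, com, ind, adm1, le2⟩ := hB fd Xh Bh adm.nice adm.kc
  have adm2 := fd.h.trans X1 Xh c.X B1 Bh c.B p1 _ c.kc.1 adm1 adm
  obtain ⟨L1⟩ := fd.line c.ν c.U X1 adm1.nice
  obtain ⟨Lp, hLp⟩ := fd.la.ex L1 c.L _ adm2.emb
  refine ⟨⟨Xh, e, i0, rp, X1, p1, p2, adm1.emb, e2, com, ind, B1, adm2, fun a => ?_, le2, L1, Lp,
    hLp⟩⟩
  refine le_trans ?_ adm1.le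
  refine sup_le_sup_right ?_ _
  rw [← MeasurableSpace.comap_comp]
  exact MeasurableSpace.comap_mono (le_trans le_sup_left (hle a))

theorem ty (hA : TyA) (hB : TyB) (fd : Fd) (g : GC) (z : ZC) (c : Ctx) (H : c.Hat)
    (𝒱 : Subgroup (Uni c.X.X)) (s : 𝒱 ≃* 𝒱) (cl : c.CL) (ex : c.Exh 𝒱 s) : H.Ty 𝒱 := by
  have hm : ∀ q u, MeasurableSet (c.ZV 𝒱 q u) := fun q u =>
    (g.ctx c).kc2.1.le _ ((z.zv c 𝒱 s ex).meas q u)
  refine ⟨hA fd g z c H 𝒱 s cl ex, fun q u _ u' _ => ?_, fun q u _ => hB fd g z c H q _ (hm q u)⟩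
  filter_upwards [hB fd g z c H q _ ((hm q u').diff (hm q u))] with w hw h1 h2
  by_contra h3
  obtain ⟨i, hi⟩ := hw ⟨h2, h3⟩
  exact hi.2 (h1 i hi.1)

theorem psi (hA : PsiA) (hB : PsiB) (fd : Fd) (rc : Rc) (g : GC) (z : ZC) (c : Ctx) (H : c.Hat)
    (𝒱 : Subgroup (Uni c.X.X)) (s : 𝒱 ≃* 𝒱) (g0 : Uni c.X.X) (gi : c.GI) (ex : c.Exh 𝒱 s) :
    ∃ (HH : 𝒱 → Set H.X1.X) (sg : AddAut (𝒱 →₀ ℤ)) (ψ : (𝒱 →₀ ℤ) → H.X1.X → ℂ),
    (∀ g x, x ∈ HH g ↔ (∃ a, H.τ 𝒱 g0 (H.p2 x) a) ∧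
      ∀ a, H.τ 𝒱 g0 (H.p2 x) a → H.τ 𝒱 g.1 (H.p1 x) a) ∧
    (∀ g, MeasurableSet[H.B1] (HH g)) ∧ Psi H.X1 H.B1 sg ψ ∧
    (∀ g x, x ∈ HH g → ψ (Finsupp.single g 1) x = ufn g.1 (H.p x)) ∧
    ∀ g x, x ∉ HH g → ψ (Finsupp.single g 1) x = 1 := by
  obtain ⟨h1, h2, h3, h4⟩ := hA fd g z c H 𝒱 s g0 ex
  refine ⟨H.HH 𝒱 g0, Finsupp.domCongr s.toEquiv, H.psi 𝒱 g0, fun _ _ => Iff.rfl, h1,
    ⟨h2, fun v v' => Eventually.of_forall (h3 v v'), h4, hB fd rc g z hA c H 𝒱 s g0 gi ex⟩,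
    fun u x hx => ?_, fun u x hx => ?_⟩
  · unfold Ctx.Hat.psi
    rw [Finsupp.prod_single_index (by simp), if_pos hx, zpow_one]
  · unfold Ctx.Hat.psi
    rw [Finsupp.prod_single_index (by simp), if_neg hx, zpow_one]

theorem stp (hA : StpA) (hF : FlatR) (hB : StpB) (fd : Fd) (rc : Rc) (g : GC) (c : Ctx) (V : Type)
    [AddCommGroup V] [Countable V] (sg : AddAut V) (ψ : V → c.X.X → ℂ) (i1 i2 : c.ι)
    (h12 : i1 ≠ i2) (gi : c.GI) (h : Psi c.X c.B sg ψ) : c.Stp sg ψ i1 i2 := by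
  obtain ⟨h1, h2, h3, h4, h5⟩ := hA fd rc g c V sg ψ i1 i2 h12 gi h
  exact ⟨h1, h2, h3, h4, h5, hB fd g c V sg ψ i1 i2 h12 h (hF fd rc g c V sg ψ gi h)⟩

theorem rel (hA : RelA) (hC : RelC) (g : Fd → Rc → GC) : RelR := by
  intro fd rc c V _ _ sg ψ h
  have p := (g fd rc).ps c.X c.B V sg ψ c.kc.1 h
  exact ⟨fun v => (hA fd rc (g fd rc) c V sg ψ h v).1, p.n0, p.nsub, p.nsh,
    hC fd rc (g fd rc) c V sg ψ h⟩

/-- all sub-rows -/
structure Rows : Prop where
  ctx : CtxR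
  psc : PscR
  ff : FfR
  zv : ZvR
  ht : HtR
  exh : ExhR
  hatA : HatA
  hatB : HatB
  tyA : TyA
  tyB : TyB
  mixL : MixL
  dom : DomS
  posB : PosB
  psiA : PsiA
  psiB : PsiB
  bunB : BunB
  onhK : OnhK
  onhC : OnhC
  dec : DecS
  relA : RelA
  relC : RelC
  onhB : OnhB
  stpA : StpA
  flat : FlatR
  stpB : StpB
  algA : AlgA
  algT : AlgT
  algB : AlgB
  algC : AlgC

/-- the rows of section 4 in the specification -/
structure Out : Prop where
  exh : ExhR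
  hat : HatR
  ty : TyR
  pos : PosR
  psi : PsiR
  bun : BunR
  onh : OnhR
  stp : StpR
  rel : RelR
  algI : AlgIR

theorem out (r : Rows) (hRc : RcR) (hSat : SatAR) : Out := by
  have G : Fd → Rc → GC := gc r.ctx r.psc r.ff
  have Z : Fd → Rc → ZC := fun fd rc => zc r.zv r.ht fd rc (hSat fd) (G fd rc)
  exact
    { exh := r.exh
      hat := fun fd c gi => hat r.hatA r.hatB fd (G fd (hRc ⟨fd.a, fd.t, fd.d, fd.c⟩)) c gi
      ty := fun fd rc c H 𝒱 s cl ex => ty r.tyA r.tyB fd (G fd rc) (Z fd rc) c H 𝒱 s cl ex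
      pos := fun fd rc => r.posB fd (G fd rc) (Z fd rc) r.mixL r.dom
      psi := fun fd rc c H 𝒱 s g0 gi ex _ =>
        psi r.psiA r.psiB fd rc (G fd rc) (Z fd rc) c H 𝒱 s g0 gi ex
      bun := fun fd rc => r.bunB (G fd rc) (Z fd rc) fd rc
      onh := fun fd rc => r.onhB (G fd rc) r.onhK r.onhC r.dec r.relA fd rc
      stp := fun fd rc c V _ _ sg ψ i1 i2 h12 gi h =>
        stp r.stpA r.flat r.stpB fd rc (G fd rc) c V sg ψ i1 i2 h12 gi h
      rel := rel r.relA r.relC G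
      algI := fun fd rc => r.algC (G fd rc) r.algA r.algT r.algB fd rc }

/-- section 4 in one statement: a context with a nontrivial tuple and coherent labels is
impossible -/
theorem step (o : Out) (fd : Fd) (rc : Rc) (sa : SatA) (hgi : GIR) (alg : AlgS) (c : Ctx)
    (cl : c.CL) (g : c.ι → Uni c.X.X) (t5 : c.T5 g) : False := by
  have gi := hgi fd c
  obtain ⟨𝒱, s, ex, hg⟩ := o.exh fd rc c g
  obtain ⟨H⟩ := o.hat fd c gi
  have ty := o.ty fd rc c H 𝒱 s cl ex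
  obtain ⟨j, k, pos⟩ := o.pos fd rc c H 𝒱 s g gi ex ty hg t5
  obtain ⟨c1, V, i1, i2, sg, ψ, hψ, bun⟩ :=
    o.bun fd rc sa o.psi hgi c H 𝒱 s g j k gi ex ty hg pos
  obtain ⟨h1, h2⟩ := o.onh fd rc o.rel c1 V sg ψ hψ
  exact o.algI fd rc o.stp o.rel alg c1 V sg ψ (hgi fd c1) hψ h1 h2 bun

end Sec4A

end T3x

end

end PkSec4A

section PkGFf

/-! Tuples of the functions `ψ` in the line. -/

set_option autoImplicit false
set_option linter.unusedVariables false
set_option warn.classDefReducibility false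

open MeasureTheory ProbabilityTheory Filter Topology Function Finset ComplexConjugate
open scoped BigOperators
open Fib27 (BM sup pr Oc Orow F23 LInd Mem)
open Pool.Agent.MP_154433_an.SG (Uni ufn)

noncomputable section

namespace T3x

namespace GFf

lemma th_congr {Ω : Type} (β : MeasurableSpace Ω) {m0 : MeasurableSpace Ω} {μ : Measure Ω}
    {F F' : Ω → ℂ} (h : F =ᵐ[μ] F') : ∀ᵐ w ∂μ, w ∈ Th β μ F ↔ w ∈ Th β μ F' := by
  filter_upwards [condExp_congr_ae (m := β) h] with w e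
  simp only [Th, Set.mem_setOf_eq, e]

end GFf

open GFf

theorem xFf : FfR := by
  intro fd rc c V _ _ sg ψ C P Ψ
  have q := fun k => (C.embπ k).mp.quasiMeasurePreserving
  have le2 : c.B2 ≤ c.W.ms := C.kc2.1.le
  have um1 : ∀ k a, Um (c.P k) c.W.μ fun w => ψ a (c.π k w) := fun k a =>
    ⟨(fd.a.bm_comp c.X.ms c.W.μ c.X.μ (c.π k) (ψ a) (C.embπ k).mp (P.bm a)).1,
      (q k).ae (Ψ.um a).2⟩
  have um3 : ∀ k a, Um c.W.ms c.W.μ fun w => ψ a (c.π k w) := fun k a =>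
    ⟨(um1 k a).1.mono (C.facP k).le, (um1 k a).2⟩
  have um : ∀ v, Um c.W.ms c.W.μ (c.FF ψ v) := fun v =>
    ⟨Finset.aestronglyMeasurable_fun_prod _ fun k _ => (um3 k (v k)).1, by
      filter_upwards [ae_all_iff.2 fun k => (um3 k (v k)).2] with w h
      simp only [Ctx.FF, norm_prod, h, Finset.prod_const_one]⟩
  have z := ae_all_iff.2 fun k => (q k).ae P.zero
  have zero : c.FF ψ 0 =ᵐ[c.W.μ] fun _ => 1 := by
    filter_upwards [z] with w h
    exact Finset.prod_eq_one fun k _ => h k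
  have add : ∀ v v', c.FF ψ (v + v') =ᵐ[c.W.μ] fun w => c.FF ψ v w * c.FF ψ v' w := fun v v' => by
    filter_upwards [ae_all_iff.2 fun k => (q k).ae (Ψ.add (v k) (v' k))] with w h
    simp only [Ctx.FF, ← Finset.prod_mul_distrib]
    exact Finset.prod_congr rfl fun k _ => h k
  have sub : ∀ v v', c.FF ψ (v - v') =ᵐ[c.W.μ] fun w => c.FF ψ v w * conj (c.FF ψ v' w) :=
    fun v v' => by
    filter_upwards [ae_all_iff.2 fun k => (q k).ae (P.sub (v k) (v' k))] with w h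
    simp only [Ctx.FF, map_prod, ← Finset.prod_mul_distrib]
    exact Finset.prod_congr rfl fun k _ => h k
  have single : ∀ k a, c.FF ψ (Pi.single k a) =ᵐ[c.W.μ] fun w => ψ a (c.π k w) := fun k a => by
    filter_upwards [z] with w h
    rw [Ctx.FF, Finset.prod_eq_single k (fun j _ hj => by rw [Pi.single_eq_of_ne hj]; exact h j)
      (by simp), Pi.single_eq_same]
  have shz : ∀ (n : ℤ) v, c.FF ψ (fun k => (n • sg) (v k)) =ᵐ[c.W.μ]
      fun w => c.FF ψ v (c.W.Tz n w) := fun n v => by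
    filter_upwards [ae_all_iff.2 fun k => (q k).ae (P.shz n (v k)), ae_all_iff.2 fun k =>
      fd.a.keq_fun c.X.ms c.W.μ c.X.μ _ _ (ψ (v k)) ((C.embπ k).mp.comp (fd.t.mp c.W n))
        ((fd.t.mp c.X n).comp (C.embπ k).mp) (fd.t.emb_z _ _ _ n (C.embπ k)) (Ψ.um _).1]
      with w h h'
    exact Finset.prod_congr rfl fun k _ => (h k).trans (h' k).symm
  have tm : ∀ v, MeasurableSet[c.B2] (c.ΘV ψ v) := fun v => rc.meas _ _ _
  have tsh : ∀ n : ℤ, ∀ᵐ w ∂c.W.μ, ∀ v,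
      w ∈ c.ΘV ψ (fun k => (n • sg) (v k)) ↔ c.W.Tz n w ∈ c.ΘV ψ v := fun n =>
    ae_all_iff.2 fun v => by
      filter_upwards [th_congr c.B2 (shz n v), fd.t.ce c.W c.B2 n (c.FF ψ v) C.kc2.1
        (Integrable.of_bound (um v).1 1 ((um v).2.mono fun w h => h.le))] with w h h'
      refine h.trans ?_
      simp only [Ctx.ΘV, Th, Set.mem_setOf_eq, h']
  refine ⟨um1, fun k a => ⟨(um1 k a).1.mono le_sup_left, (um1 k a).2⟩, um3, um, zero, add, sub,
    single, shz, tm, ?_, ae_all_iff.2 fun v => ae_all_iff.2 fun v' => ?_,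
    ae_all_iff.2 fun v => ae_all_iff.2 fun v' => ?_, tsh, ?_, fun n => ?_,
    fun gi => ae_all_iff.2 fun k => ae_all_iff.2 fun a => ?_⟩
  · filter_upwards [th_congr c.B2 zero] with w h
    refine h.2 ?_
    simp only [Th, Set.mem_setOf_eq, condExp_const le2, norm_one]
  · filter_upwards [th_congr c.B2 (add v v'), rc.mul c.B2 c.W.μ _ _ le2 (um v) (um v')]
      with w h h' a b
    exact h.2 (h' ⟨a, b⟩)
  · have u : Um c.W.ms c.W.μ fun w => conj (c.FF ψ v' w) :=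
      ⟨Complex.continuous_conj.comp_aestronglyMeasurable (um v').1,
        (um v').2.mono fun w h => by simpa using h⟩
    filter_upwards [th_congr c.B2 (sub v v'), rc.mul c.B2 c.W.μ _ _ le2 (um v) u,
      rc.cj c.B2 c.W.μ _ le2 (um v')] with w h h' h'' a b
    exact h.2 (h' ⟨a, (iff_of_eq h'').2 b⟩)
  · exact MeasurableSet.iInter fun q => MeasurableSet.iInter fun x =>
      MeasurableSet.biUnion (Set.to_countable _) fun v _ => tm v
  · filter_upwards [tsh n] with w h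
    simp only [Ctx.UU, Set.mem_iInter, Set.mem_iUnion, Set.mem_setOf_eq, exists_prop]
    refine ⟨fun H q x => ?_, fun H q x => ?_⟩
    · obtain ⟨v, e, hv⟩ := H q ((n • sg) x)
      refine ⟨fun k => (n • sg).symm (v k), by simp [e], (h _).1 ?_⟩
      simpa only [AddEquiv.apply_symm_apply] using hv
    · obtain ⟨v, e, hv⟩ := H q ((n • sg).symm x)
      exact ⟨_, by simp [e], (h v).2 hv⟩
  · filter_upwards [th_congr c.B2 (single k a), C.ce gi k (ψ a) (P.bm a)] with w h h'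
    refine h.trans ?_
    simp only [Th, Ctx.Nt, Set.mem_setOf_eq, h', not_not]

end T3x

end

end PkGFf

section PkGHatB

/-! The extension with a frozen second copy. -/

set_option autoImplicit false
set_option linter.unusedVariables false
set_option warn.classDefReducibility false

open MeasureTheory ProbabilityTheory Filter Topology Function Finset ComplexConjugate
open scoped BigOperators
open Fib27 (BM sup pr)

noncomputable section

namespace T3x

namespace GHatB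

/-- the system itself and its frozen copy -/
def two (Y : Sys) (i : Bool) : Sys :=
  { X := Y.X, μ := Y.μ, T := cond i (MeasurableEquiv.refl _) Y.T
    mp := by
      cases i
      · exact Y.mp
      · exact MeasurePreserving.id _ }

theorem pull_mono {Ω Ω' : Type} {B B' : MeasurableSpace Ω'} {m0 : MeasurableSpace Ω}
    (μ : Measure Ω) (p : Ω → Ω') (h : B ≤ B') : pull μ p B ≤ pull μ p B' :=
  sup_le_sup_right (MeasurableSpace.comap_mono h) _

theorem fact_bm (b : BasA) {Ω Ω' : Type} {m0 : MeasurableSpace Ω} {m0' : MeasurableSpace Ω'}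
    {μ : Measure Ω} {μ' : Measure Ω'} {p : Ω → Ω'} (hp : MeasurePreserving p μ μ') {f : Ω → ℂ}
    (hf : BM μ (pull μ p m0') f) : ∃ f' : Ω' → ℂ, BM μ' m0' f' ∧ f =ᵐ[μ] fun x => f' (p x) := by
  obtain ⟨h1, C, hC⟩ := hf
  obtain ⟨f', a1, a2, a3⟩ := b.fact m0' μ p f (max C 0) hp.measurable.comap_le
    (le_max_right _ _) h1 (hC.mono fun x hx => hx.trans (le_max_left _ _))
  exact ⟨f', ⟨a1.stronglyMeasurable.aestronglyMeasurable, _, Eventually.of_forall a2⟩, a3⟩

theorem inv_ae (b : BasA) (Y : Sys) (A : Set Y.X) (hA : MeasurableSet[Inv Y] A) :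
    Y.T ⁻¹' A =ᵐ[Y.μ] A := by
  obtain ⟨-, A', h1, h2⟩ := (b.mem _ Y.μ (MeasurableSpace.invariants_le _) A).1 hA
  have h3 := Y.mp.quasiMeasurePreserving.preimage_ae_eq h2
  rw [(MeasurableSpace.measurableSet_invariants.1 h1).2] at h3
  exact h3.trans h2.symm

theorem core (F : Fd) (Y Z : Sys) (p1 p2 : Z.X → Y.X) (hN : Nice Y) (hZ : Nice Z)
    (e1 : Emb Z Y p1) (e2 : Emb Z Y.frz p2) (com : KEq Z.μ (Inv Y) p1 p2)
    (ind : ∀ f g, BM Y.μ Y.ms f → BM Y.μ Y.ms g →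
      Z.μ[fun z => f (p1 z) * g (p2 z) | pull Z.μ p1 (Inv Y)] =ᵐ[Z.μ]
        fun z => (Y.μ[f | Inv Y]) (p1 z) * (Y.μ[g | Inv Y]) (p2 z)) :
    (∀ f g, BM Y.μ Y.ms f → BM Y.μ Y.ms g →
      ∫ x, f (p1 x) * g (p2 x) ∂Z.μ = ∫ y, (Y.μ[f | Inv Y]) y * (Y.μ[g | Inv Y]) y ∂Y.μ) ∧
    CP (pull Z.μ p1 Y.ms) (pull Z.μ p1 (Inv Y)) (pull Z.μ p2 Y.ms) Z.μ := by
  have hD := F.t.finv Y
  have m1 : MeasurePreserving p1 Z.μ Y.μ := e1.mp
  have m2 : MeasurePreserving p2 Z.μ Y.μ := e2.mp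
  have l0 : pull Z.μ p1 (Inv Y) ≤ Z.ms := F.a.pull_le _ _ _ _ m1 hD.le
  have l0' : pull Z.μ p2 (Inv Y) ≤ Z.ms := F.a.pull_le _ _ _ _ m2 hD.le
  have l1 : pull Z.μ p1 Y.ms ≤ Z.ms := F.a.pull_le _ _ _ _ m1 le_rfl
  have l2 : pull Z.μ p2 Y.ms ≤ Z.ms := F.a.pull_le _ _ _ _ m2 le_rfl
  have e : pull Z.μ p1 (Inv Y) = pull Z.μ p2 (Inv Y) :=
    F.a.keq_pull _ _ _ _ (le_sup_left.trans l0) (le_sup_left.trans l0') com
  constructor
  · intro f g hf hg
    have h1 := F.a.keq_fun _ _ _ p1 p2 _ m1 m2 com (hg.ce (Inv Y)).1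
    have h2 := ((hf.ce (Inv Y)).mul (hg.ce (Inv Y))).mono hD.le
    rw [← integral_condExp l0, integral_congr_ae (ind f g hf hg), ← m1.map_eq,
      integral_map m1.measurable.aemeasurable (by rw [m1.map_eq]; exact h2.1), m1.map_eq]
    refine integral_congr_ae ?_
    filter_upwards [h1] with z hz
    rw [hz]
  · refine (F.c.cp_iff _ _ _ Z.μ l1 l2 (e.le.trans (pull_mono _ _ hD.le))).2 fun f g hf hg => ?_
    obtain ⟨f0, a1, a2⟩ := fact_bm F.a m1 hf
    obtain ⟨g0, b1, b2⟩ := fact_bm F.a m2 hg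
    have h1 := (condExp_congr_ae (m := pull Z.μ p1 (Inv Y)) a2).trans
      (F.a.ce_comp _ _ _ p1 f0 m1 hD.le a1.integrable)
    have h2 := (condExp_congr_ae (m := pull Z.μ p2 (Inv Y)) b2).trans
      (F.a.ce_comp _ _ _ p2 g0 m2 hD.le b1.integrable)
    rw [← e] at h2
    have h3 : (fun z => f z * g z) =ᵐ[Z.μ] fun z => f0 (p1 z) * g0 (p2 z) := by
      filter_upwards [a2, b2] with z c1 c2
      rw [c1, c2]
    filter_upwards [h1, h2, (condExp_congr_ae h3).trans (ind f0 g0 a1 b1)] with z c1 c2 c3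
    rw [c1, c2, c3]

end GHatB

open GHatB

theorem xHatB : HatB := by
  intro F Xh Bh hN hK
  have hD := F.t.finv Xh
  obtain ⟨Z, p, rp⟩ := F.rp Bool (two Xh) Xh (Inv Xh) (fun _ => id) false (fun _ => hN) hD
    (fun _ => MeasurePreserving.id _) (fun i A hA => by
      cases i
      · exact EventuallyEq.rfl
      · have e1 : (id ∘ (two Xh true).Tz 1) ⁻¹' A = A := by
          ext x
          exact iff_of_eq (congrArg (· ∈ A) (F.t.one (two Xh true) x))
        have e2 : (Xh.Tz 1 ∘ id) ⁻¹' A = Xh.T ⁻¹' A := by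
          ext x
          exact iff_of_eq (congrArg (· ∈ A) (F.t.one Xh x))
        exact (EventuallyEq.of_eq e1).trans
          ((inv_ae F.a Xh A hA).symm.trans (EventuallyEq.of_eq e2.symm)))
  have e1 : Emb Z Xh (p false) := rp.emb false
  have e2 : Emb Z Xh.frz (p true) := rp.emb true
  have com : KEq Z.μ (Inv Xh) (p false) (p true) := fun A hA => (rp.com true A hA).symm
  have eD : pull Xh.μ id (Inv Xh) = Inv Xh := by
    rw [pull, MeasurableSpace.comap_id]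
    exact sup_eq_left.2 hD.nl
  obtain ⟨h1, h2⟩ := core F Xh Z (p false) (p true) hN rp.nice e1 e2 com fun f g hf hg => by
    have h := rp.ind univ (fun i => cond i g f) fun i _ => by
      cases i
      · exact hf
      · exact hg
    simp only [Fintype.prod_bool, mul_comm] at h
    rw [← eD]
    nth_rewrite 1 [eD]
    exact h
  have l1 := F.a.pull_le Xh.ms Z.μ Xh.μ (p false) e1.mp le_rfl
  have l2 := F.a.pull_le Xh.ms Z.μ Xh.μ (p true) e2.mp le_rfl
  have hIB : Inv Xh ≤ Bh := (F.kb.inv Xh Bh hN hK.1).trans hK.2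
  have e : pull Z.μ (p false) (Inv Xh) = pull Z.μ (p true) (Inv Xh) :=
    F.a.keq_pull _ _ _ _ (le_sup_left.trans ((pull_mono _ _ hD.le).trans l1))
      (le_sup_left.trans ((pull_mono _ _ hD.le).trans l2)) com
  have h3 := F.c.drop _ _ _ (pull Z.μ (p false) Bh) Z.μ l1 l2 (e.le.trans (pull_mono _ _ hD.le))
    (pull_mono _ _ hD.le) (pull_mono _ _ hK.1.le) h2
  have h4 : pull Z.μ (p false) Bh ⊔ pull Z.μ (p false) (Inv Xh) = pull Z.μ (p false) Bh :=
    sup_eq_left.2 (pull_mono _ _ hIB)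
  have h5 := (congrArg (fun D => CP (pull Z.μ (p false) Xh.ms) D
    (pull Z.μ (p false) Bh ⊔ pull Z.μ (p true) Xh.ms) Z.μ) h4).mp h3
  have hC : Fac Z (pull Z.μ (p false) Bh ⊔ pull Z.μ (p true) Xh.ms) :=
    F.t.fsup Z _ _ (F.t.fpull Z Xh _ Bh e1 hK.1) (F.t.fpull Z Xh.frz _ _ e2 (F.t.top _))
  exact ⟨Z, p false, p true, _, e2, com, h1,
    F.h.adm Z Xh _ Bh _ rp.nice hN e1 hK hC le_sup_left h5, le_sup_right.trans (F.h.le Z _)⟩

end T3x

end

end PkGHatB

section PkGHt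

/-! Factors of a context and the maps of the extension. -/

set_option autoImplicit false
set_option linter.unusedVariables false
set_option warn.classDefReducibility false

open MeasureTheory ProbabilityTheory Filter Topology Function Finset ComplexConjugate
open scoped BigOperators
open Fib27 (BM sup pr Oc Orow F23 LInd Mem)
open Pool.Agent.MP_154433_an.SG (Uni ufn)

noncomputable section

namespace T3x

namespace GHt

theorem pre_slot (F : Fd) (c : Ctx) (k : c.ι) (A : Set c.X.X) (hA : MeasurableSet[c.B] A) :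
    MeasurableSet[c.L.shp c.B] (c.π k ⁻¹' A) :=
  (le_sup_left.trans (F.lb.slot c.L c.B (c.sl k) c.kc.1) : c.B.comap (c.π k) ≤ c.L.shp c.B) _
    ⟨A, hA, rfl⟩

theorem meas_nt {Ω : Type} (B : MeasurableSpace Ω) {m0 : MeasurableSpace Ω} (μ : Measure Ω)
    (g : Ω → ℂ) : MeasurableSet[B] {x | ‖(μ[g | B]) x‖ ≠ 1} :=
  (stronglyMeasurable_condExp (m := B) (μ := μ) (f := g)).norm.measurable
    (measurableSet_singleton (1 : ℝ)).compl

/-- almost invariant sets have the same preimage in all slots -/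
theorem slot_inv (F : Fd) {ν : Wt} {U : Ultrafilter ℕ} {X : Sys} (L : Ln ν U X) (s s' : Slot)
    (D : Set X.X) (hD : MeasurableSet D) (h : X.T ⁻¹' D =ᵐ[X.μ] D) :
    L.π s ⁻¹' D =ᵐ[L.W.μ] L.π s' ⁻¹' D := by
  have h1 : AEStronglyMeasurable[Inv X] (D.indicator fun _ => (1 : ℂ)) X.μ := by
    refine (F.t.inv_iff X _ (aestronglyMeasurable_const.indicator hD)).2 ?_
    filter_upwards [h] with x hx
    have e : X.T x ∈ D ↔ x ∈ D := Iff.of_eq hx
    by_cases c : x ∈ D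
    · rw [Set.indicator_of_mem c, Set.indicator_of_mem (e.2 c)]
    · rw [Set.indicator_of_notMem c, Set.indicator_of_notMem fun c' => c (e.1 c')]
  filter_upwards [F.a.keq_fun (Inv X) L.W.μ X.μ (L.π s) (L.π s') _ (L.emb s).mp (L.emb s').mp
    (F.lb.inv L s s') h1] with w hw
  change (L.π s w ∈ D) = (L.π s' w ∈ D)
  by_cases a : L.π s w ∈ D <;> by_cases b : L.π s' w ∈ D <;> simp_all

end GHt

open GHt in
theorem xCtx : CtxR := by
  intro F c
  have facS : Fac c.W (c.L.shp c.B) := F.lb.fac c.L c.B c.kc.1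
  have kc2 : KC c.W c.B2 := F.h.kc c.W _ c.L.nice facS
  refine ⟨c.kc.1, facS, kc2, F.h.le _ _, F.h.kc c.W2 _ c.L2.nice (F.lb.fac c.L2 c.B2 kc2.1),
    fun k => c.L.emb _, fun k => c.L2.emb _, fun k => (c.lift k).emb,
    fun k => F.t.fpull _ _ _ _ (c.L.emb _) (F.t.top _), fun k => F.lb.slot c.L c.B _ c.kc.1,
    pre_slot F c, fun k g => pre_slot F c k _ (meas_nt c.B c.X.μ g), ?_, fun gi k f hf => ?_⟩
  · exact Fintype.exists_ne_map_eq_of_card_lt (fun i => (c.sl i).2) (by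
      have := c.three
      rw [Fintype.card_bool]
      omega)
  · have ne : ({k} : Finset c.ι) ≠ univ := fun e => by
      have h1 := congrArg Finset.card e
      have := c.three
      rw [card_singleton, card_univ] at h1
      omega
    have := gi.line {k} ne (fun _ => f) fun _ _ => hf
    simp only [prod_singleton] at this
    exact this

open GHt in
theorem xHt : HtR := by
  intro F S G c H
  have embp : Emb H.X1 c.X H.p := H.adm.emb
  have frzT : KEq H.X1.μ H.Xh.ms (H.p2 ∘ H.X1.T) H.p2 := H.emb2.eqv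
  refine ⟨embp, fun a => F.t.emb_comp _ _ _ _ _ H.emb1 (H.rp.emb a), fun a A hA => ?_, H.lift.emb,
    fun k => H.L1.emb _, fun k => F.la.slot H.L1 c.L _ H.Lp (c.sl k) embp H.lift, H.adm.kc.1,
    (S.ob H.L1 c.L H.B1 c.B H.p H.Lp c.sl H.i0 c.kc.1 H.adm.kc.1 embp H.adm.le H.lift).2,
    fun f hf => ?_, fun j k A hA => ?_, frzT⟩
  · exact H.emb1.mp.quasiMeasurePreserving.preimage_ae_eq (H.rp.com a A hA)
  · exact (H.adm.cp _ (F.a.bm_comp c.X.ms H.X1.μ c.X.μ H.p f embp.mp hf)).trans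
      (F.a.ce_comp c.B H.X1.μ c.X.μ H.p f embp.mp c.kc.1.le hf.integrable)
  · exact slot_inv F H.L1 (c.sl j) (c.sl k) (H.p2 ⁻¹' A) (H.emb2.mp.measurable hA) (frzT A hA)

end T3x

end

end PkGHt

section PkGLn

/-! Families of sets that describe an event of the line. -/

set_option autoImplicit false
set_option linter.unusedVariables false
set_option warn.classDefReducibility false

open MeasureTheory ProbabilityTheory Filter Topology Function Finset ComplexConjugate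
open scoped BigOperators
open Fib27 (BM sup pr Oc Orow F23 LInd Mem)
open Pool.Agent.MP_154433_an.SG (Uni ufn)

noncomputable section

namespace T3x

namespace GLn

variable {ν : Wt} {U : Ultrafilter ℕ} {X : Sys}

/-- the family `A` describes the event `E` -/
def Rp (L : Ln ν U X) (A : Lab → Set X.X) (E : Set L.W.X) : Prop :=
  (∀ l, MeasurableSet (A l)) ∧ ∀ᵐ w ∂L.W.μ, w ∈ L.hs A ↔ w ∈ E

theorem hs_meas (fd : Fd) (L : Ln ν U X) {A : Lab → Set X.X} (h : ∀ l, MeasurableSet (A l)) :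
    MeasurableSet (L.hs A) := by
  have := fd.lc.hs_meas L X.ms A (fd.t.top X) h
  rwa [fd.lb.top L] at this

theorem Rp.self (L : Ln ν U X) {A : Lab → Set X.X} (h : ∀ l, MeasurableSet (A l)) :
    Rp L A (L.hs A) := ⟨h, Eventually.of_forall fun _ => Iff.rfl⟩

theorem Rp.of_ae {L : Ln ν U X} {A : Lab → Set X.X} {E : Set L.W.X}
    (h : ∀ l, MeasurableSet (A l)) (e : E =ᵐ[L.W.μ] L.hs A) : Rp L A E :=
  ⟨h, (eventuallyEq_set.1 e).mono fun _ h => h.symm⟩

theorem Rp.ae {L : Ln ν U X} {A : Lab → Set X.X} {E : Set L.W.X} (h : Rp L A E) :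
    L.hs A =ᵐ[L.W.μ] E := eventuallyEq_set.2 h.2

theorem Rp.congr {L : Ln ν U X} {A A' : Lab → Set X.X} {E E' : Set L.W.X} (h : Rp L A E)
    (e : ∀ l, A' l = A l) (e' : ∀ᵐ w ∂L.W.μ, w ∈ E ↔ w ∈ E') : Rp L A' E' := by
  obtain rfl : A' = A := funext e
  refine ⟨h.1, ?_⟩
  filter_upwards [h.2, e'] with w h1 h2 using h1.trans h2

theorem Rp.inter (fd : Fd) {L : Ln ν U X} {A A' : Lab → Set X.X} {E E' : Set L.W.X}
    (h : Rp L A E) (h' : Rp L A' E') : Rp L (fun l => A l ∩ A' l) (E ∩ E') := by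
  refine ⟨fun l => (h.1 l).inter (h'.1 l), ?_⟩
  rw [fd.lc.hs_inter L A A' h.1 h'.1]
  filter_upwards [h.2, h'.2] with w h1 h2 using and_congr h1 h2

theorem Rp.compl (fd : Fd) {L : Ln ν U X} {A : Lab → Set X.X} {E : Set L.W.X} (h : Rp L A E) :
    Rp L (fun l => (A l)ᶜ) Eᶜ := by
  refine ⟨fun l => (h.1 l).compl, ?_⟩
  rw [fd.lc.hs_compl L A h.1]
  filter_upwards [h.2] with w h1 using not_congr h1

theorem Rp.diff (fd : Fd) {L : Ln ν U X} {A A' : Lab → Set X.X} {E E' : Set L.W.X}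
    (h : Rp L A E) (h' : Rp L A' E') : Rp L (fun l => A l \ A' l) (E \ E') :=
  h.inter fd (h'.compl fd)

theorem Rp.union (fd : Fd) {L : Ln ν U X} {A A' : Lab → Set X.X} {E E' : Set L.W.X}
    (h : Rp L A E) (h' : Rp L A' E') : Rp L (fun l => A l ∪ A' l) (E ∪ E') :=
  (((h.compl fd).inter fd (h'.compl fd)).compl fd).congr
    (fun l => by rw [Set.compl_inter, compl_compl, compl_compl])
    (Eventually.of_forall fun w => by rw [Set.compl_inter, compl_compl, compl_compl])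

theorem Rp.niff (fd : Fd) {L : Ln ν U X} {A A' : Lab → Set X.X} {E E' : Set L.W.X}
    (h : Rp L A E) (h' : Rp L A' E') :
    Rp L (fun l => {x | ¬ (x ∈ A l ↔ x ∈ A' l)}) {w | ¬ (w ∈ E ↔ w ∈ E')} :=
  ((h.diff fd h').union fd (h'.diff fd h)).congr
    (fun l => Set.ext fun x => by
      simp only [Set.mem_ofPred_eq, Set.mem_union, Set.mem_sdiff]; tauto)
    (Eventually.of_forall fun w => by
      simp only [Set.mem_ofPred_eq, Set.mem_union, Set.mem_sdiff]; tauto)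

theorem Rp.slot (fd : Fd) (L : Ln ν U X) (s : Slot) {A : Set X.X} (h : MeasurableSet A) :
    Rp L (fun l => X.Tz (rho s l) ⁻¹' A) (L.π s ⁻¹' A) :=
  Rp.of_ae (fun l => (fd.t.mp X _).measurable h) (fd.lc.hs_slot L s A h).symm

theorem Rp.empty (fd : Fd) (L : Ln ν U X) : Rp L (fun _ => ∅) ∅ :=
  (Rp.slot fd L (0, true) MeasurableSet.empty).congr (fun _ => rfl)
    (Eventually.of_forall fun _ => Iff.rfl)

theorem Rp.biUnion (fd : Fd) {L : Ln ν U X} {κ : Type} (F : Finset κ) {A : κ → Lab → Set X.X}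
    {E : κ → Set L.W.X} (h : ∀ k, Rp L (A k) (E k)) :
    Rp L (fun l => ⋃ k ∈ F, A k l) (⋃ k ∈ F, E k) := by
  classical
  induction F using Finset.induction_on with
  | empty => exact (Rp.empty fd L).congr (fun l => by simp) (Eventually.of_forall fun w => by simp)
  | insert a F ha ih =>
    exact ((h a).union fd ih).congr (fun l => Finset.set_biUnion_insert a F _)
      (Eventually.of_forall fun w => by rw [Finset.set_biUnion_insert])

theorem Rp.shift (fd : Fd) {L : Ln ν U X} (n : ℤ) {A : Lab → Set X.X} {E : Set L.W.X}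
    (h : Rp L A E) : Rp L (fun l => X.Tz n ⁻¹' A l) (L.W.Tz n ⁻¹' E) := by
  refine ⟨fun l => (fd.t.mp X n).measurable (h.1 l), ?_⟩
  rw [fd.lc.hs_T L n A h.1]
  exact (fd.t.mp L.W n).quasiMeasurePreserving.ae h.2

theorem Rp.lift (fd : Fd) {X' : Sys} {L' : Ln ν U X'} {L : Ln ν U X} {p : X'.X → X.X}
    {Lp : L'.W.X → L.W.X} (hp : Emb X' X p) (hL : IsLift L' L p Lp) {A : Lab → Set X.X}
    {E : Set L.W.X} (h : Rp L A E) : Rp L' (fun l => p ⁻¹' A l) (Lp ⁻¹' E) := by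
  refine ⟨fun l => hp.mp.measurable (h.1 l), ?_⟩
  filter_upwards [eventuallyEq_set.1 (fd.lc.hs_lift L' L p Lp A hp hL h.1),
    hL.emb.mp.quasiMeasurePreserving.ae h.2] with w h1 h2 using h1.trans h2

theorem Rp.lim (fd : Fd) {L : Ln ν U X} {A : Lab → Set X.X} {E : Set L.W.X} (h : Rp L A E) :
    Tendsto (fun M => ν.av2 M fun l => X.μ.real (A l)) U (𝓝 (L.W.μ.real E)) := by
  rw [← measureReal_congr h.ae]
  exact fd.lc.hs_lim L A h.1

theorem real_Tz (fd : Fd) (n : ℤ) {A : Set X.X} (h : MeasurableSet A) :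
    X.μ.real (X.Tz n ⁻¹' A) = X.μ.real A :=
  (fd.t.mp X n).measureReal_preimage h.nullMeasurableSet

theorem Tz_neg (fd : Fd) (n : ℤ) (x : X.X) : X.Tz (-n) (X.Tz n x) = x := by
  rw [← fd.t.add, neg_add_cancel, fd.t.zero]

theorem Tz_neg' (fd : Fd) (n : ℤ) (x : X.X) : X.Tz n (X.Tz (-n) x) = x := by
  rw [← fd.t.add, add_neg_cancel, fd.t.zero]

/-- the limit of a recentred family -/
theorem Rp.lim' (fd : Fd) {L : Ln ν U X} {A B : Lab → Set X.X} {E : Set L.W.X} (h : Rp L A E)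
    (m : Lab → ℤ) (e : ∀ l x, X.Tz (m l) x ∈ B l ↔ x ∈ A l) :
    Tendsto (fun M => ν.av2 M fun l => X.μ.real (B l)) U (𝓝 (L.W.μ.real E)) := by
  have : ∀ l, X.μ.real (B l) = X.μ.real (A l) := fun l => by
    rw [← real_Tz fd (-m l) (h.1 l)]
    congr 1
    ext y
    rw [Set.mem_preimage, ← e l, Tz_neg' fd]
  simp only [this]
  exact h.lim fd

theorem Rp.nl (fd : Fd) {L : Ln ν U X} {A B : Lab → Set X.X} {E : Set L.W.X} (h : Rp L A E)
    (m : Lab → ℤ) (e : ∀ l x, X.Tz (m l) x ∈ B l ↔ x ∈ A l) (h0 : ∀ᵐ w ∂L.W.μ, w ∉ E) :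
    Nl ν U X B := by
  have := h.lim' fd m e
  rwa [show L.W.μ.real E = 0 by
    rw [Measure.real, measure_eq_zero_iff_ae_notMem.2 h0]; rfl] at this

theorem Rp.of_nl (fd : Fd) {L : Ln ν U X} {A B : Lab → Set X.X} {E : Set L.W.X} (h : Rp L A E)
    (m : Lab → ℤ) (e : ∀ l x, X.Tz (m l) x ∈ B l ↔ x ∈ A l) (h0 : Nl ν U X B) : L.W.μ E = 0 := by
  have := tendsto_nhds_unique (h.lim' fd m e) h0
  exact (measureReal_eq_zero_iff (measure_ne_top _ _)).1 this

theorem rec1_mem (fd : Fd) (c : Ctx) {V : Type} (A : V → V → Lab → Set c.X.X) (i1 : c.ι)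
    (l : Lab) (a a' : V) (x : c.X.X) :
    c.X.Tz (rho (c.sl i1) l) x ∈ rec1 c A i1 l a a' ↔ x ∈ A a a' l := by
  unfold rec1
  rw [Set.mem_preimage, Tz_neg fd]

theorem stp_Tz (fd : Fd) (c : Ctx) (i1 i2 : c.ι) (l : Lab) (x : c.X.X) :
    c.X.Tz (stp c i1 i2 l) (c.X.Tz (rho (c.sl i1) l) x) = c.X.Tz (rho (c.sl i2) l) x := by
  rw [← fd.t.add, stp, sub_add_cancel]

theorem rec1_meas (fd : Fd) (c : Ctx) {V : Type} {ψ : V → c.X.X → ℂ} {i1 i2 : c.ι}
    {A : V → V → Lab → Set c.X.X} (h : Desc c ψ i1 i2 A) (l : Lab) (a a' : V) :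
    MeasurableSet (rec1 c A i1 l a a') := (fd.t.mp c.X _).measurable (h.1 a a' l)

theorem desc_rp {c : Ctx} {V : Type} {ψ : V → c.X.X → ℂ} {i1 i2 : c.ι}
    {A : V → V → Lab → Set c.X.X} (h : Desc c ψ i1 i2 A) (a a' : V) :
    Rp c.L (A a a') (c.SV ψ i1 i2 a a') := Rp.of_ae (h.1 a a') (h.2 a a')

theorem th_meas (rc : Rc) (c : Ctx) (g : c.X.X → ℂ) : MeasurableSet (Th c.B c.X.μ g) :=
  c.kc.1.le _ (rc.meas c.B c.X.μ g)

theorem nt_iff (c : Ctx) (k : c.ι) (g : c.X.X → ℂ) (w : c.W.X) :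
    w ∈ c.Nt k g ↔ w ∉ c.L.π (c.sl k) ⁻¹' Th c.B c.X.μ g := Iff.rfl

end GLn

end T3x

end

end PkGLn

section PkGMix

/-! Row GMix: domination of two slots with the same label, and of coincidences of types. -/

set_option autoImplicit false
set_option linter.unusedVariables false
set_option warn.classDefReducibility false

open MeasureTheory ProbabilityTheory Filter Topology Function Finset ComplexConjugate
open scoped BigOperators
open Fib27 (BM sup pr Oc Orow F23 LInd Mem)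

noncomputable section

namespace T3x

namespace GMixx

theorem av_const (ν : Wt) (M : ℕ) (a : ℝ) : ν.av M (fun _ => a) = a := by
  rw [Wt.av, ← Finset.sum_smul, ν.one, one_smul]

theorem av2_one (ν : Wt) (M : ℕ) (b : Bool) (φ : ℤ → ℝ) :
    ν.av2 M (fun l => φ (if b then l.2.1 else l.2.2)) = ν.av M φ := by
  cases b <;> simp [Wt.av2, av_const]

theorem ce_ind (X : Sys) (D : MeasurableSpace X.X) {A : Set X.X} (hA : MeasurableSet[X.ms] A) :
    X.μ[A.indicator fun _ => (1 : ℂ) | D] =ᵐ[X.μ]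
      fun x => (((X.μ[A.indicator fun _ => (1 : ℝ) | D]) x : ℝ) : ℂ) := by
  have hi : Integrable (A.indicator fun _ => (1 : ℝ)) X.μ := (integrable_const _).indicator hA
  have h := Complex.ofRealCLM.comp_condExp_comm (m := D) hi
  have e : (Complex.ofRealCLM ∘ A.indicator fun _ => (1 : ℝ)) = A.indicator fun _ => (1 : ℂ) := by
    funext x
    by_cases hx : x ∈ A <;> simp [hx]
  rw [e] at h
  exact h.symm

/-- coincidence of types on a finite set of indices -/
def Dk {Ω Y κ : Type} (a1 a2 : Ω → Y) (t t' : Y → κ → Prop) (A A' : Set Y) (K : Finset κ) :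
    Set Ω := {x | a1 x ∈ A ∧ a2 x ∈ A' ∧ ∀ i ∈ K, (t (a1 x) i ↔ t' (a2 x) i)}

theorem dk_meas {Ω Y κ : Type} [MeasurableSpace Ω] [MeasurableSpace Y] {a1 a2 : Ω → Y}
    {t t' : Y → κ → Prop} {A A' : Set Y} (K : Finset κ) (h1 : Measurable a1) (h2 : Measurable a2)
    (ht : ∀ i, MeasurableSet {y | t y i}) (ht' : ∀ i, MeasurableSet {y | t' y i})
    (hA : MeasurableSet A) (hA' : MeasurableSet A') : MeasurableSet (Dk a1 a2 t t' A A' K) := by
  have e : Dk a1 a2 t t' A A' K = a1 ⁻¹' A ∩ (a2 ⁻¹' A' ∩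
      ⋂ i ∈ (K : Set κ), {x | a1 x ∈ {y | t y i} ↔ a2 x ∈ {y | t' y i}}) := by
    ext x
    simp [Dk]
  rw [e]
  exact (h1 hA).inter ((h2 hA').inter (MeasurableSet.biInter K.countable_toSet fun i _ =>
    MeasurableSet.iff (h1 (ht i)) (h2 (ht' i))))

theorem dk_insert {Ω Y κ : Type} [MeasurableSpace Ω] [MeasurableSpace Y] [DecidableEq κ]
    (μ : Measure Ω) [IsProbabilityMeasure μ] {a1 a2 : Ω → Y}
    {t t' : Y → κ → Prop} {A A' : Set Y} (K : Finset κ) (i : κ) (h1 : Measurable a1)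
    (h2 : Measurable a2) (ht : ∀ i, MeasurableSet {y | t y i})
    (ht' : ∀ i, MeasurableSet {y | t' y i}) (hA : MeasurableSet A) (hA' : MeasurableSet A') :
    μ.real (Dk a1 a2 t t' A A' (insert i K)) =
      μ.real (Dk a1 a2 t t' (A ∩ {y | t y i}) (A' ∩ {y | t' y i}) K) +
        μ.real (Dk a1 a2 t t' (A ∩ {y | t y i}ᶜ) (A' ∩ {y | t' y i}ᶜ) K) := by
  rw [← measureReal_union _ (dk_meas K h1 h2 ht ht' (hA.inter (ht i).compl)
    (hA'.inter (ht' i).compl))]
  · refine congrArg _ (Set.ext fun x => ?_)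
    simp only [Dk, Set.mem_union, Set.mem_ofPred_eq, Set.mem_inter_iff, Set.mem_compl_iff,
      Finset.forall_mem_insert]
    tauto
  · exact Set.disjoint_left.2 fun x hx hx' => hx'.1.2 hx.1.2

end GMixx

open GMixx in
theorem xMixL : MixL := by
  intro f ν U X L s s' hU erg hne hs A A' hA hA'
  have hr : s'.1 - s.1 ≠ 0 := fun h => hne (Prod.ext (sub_eq_zero.1 h).symm hs)
  obtain ⟨a, ha, hle⟩ := (f.mix ν erg).dom X (s'.1 - s.1) A A' hr hA hA'
  have m1 : ∀ l, MeasurableSet (X.Tz (rho s l) ⁻¹' A) := fun l => (f.t.mp X _).measurable hA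
  have m2 : ∀ l, MeasurableSet (X.Tz (rho s' l) ⁻¹' A') := fun l => (f.t.mp X _).measurable hA'
  have hl := f.lc.hs_lim L _ fun l => (m1 l).inter (m2 l)
  rw [f.lc.hs_inter L _ _ m1 m2,
    measureReal_congr ((f.lc.hs_slot L s A hA).inter (f.lc.hs_slot L s' A' hA'))] at hl
  have e : ∀ l : Lab, X.μ.real (X.Tz (rho s l) ⁻¹' A ∩ X.Tz (rho s' l) ⁻¹' A') =
      X.μ.real (A ∩ X.Tz ((s'.1 - s.1) * (if s.2 then l.2.1 else l.2.2)) ⁻¹' A') := fun l => by
    rw [← (f.t.mp X (rho s l)).measureReal_preimage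
      (hA.inter ((f.t.mp X _).measurable hA')).nullMeasurableSet]
    refine congrArg _ (Set.ext fun x => ?_)
    have e1 : rho s' l = (s'.1 - s.1) * (if s.2 then l.2.1 else l.2.2) + rho s l := by
      rw [rho, rho, ← hs]
      ring
    simp only [Set.mem_inter_iff, Set.mem_preimage]
    rw [e1, f.t.add]
  simp only [e] at hl
  simp only [av2_one ν _ s.2 fun d => X.μ.real (A ∩ X.Tz ((s'.1 - s.1) * d) ⁻¹' A')] at hl
  rw [tendsto_nhds_unique hl (ha.mono_left hU)]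
  refine hle.trans (le_of_eq (congrArg _ ?_))
  rw [integral_congr_ae (g := fun x => (((X.μ[A.indicator fun _ => (1 : ℝ) | Inv X]) x *
    (X.μ[A'.indicator fun _ => (1 : ℝ) | Inv X]) x : ℝ) : ℂ)), integral_complex_ofReal,
    Complex.ofReal_re]
  filter_upwards [ce_ind X (Inv X) hA, ce_ind X (Inv X) hA'] with x e1 e2
  rw [e1, e2, Complex.ofReal_mul]

open GMixx in
theorem xDom : DomS := by
  intro Ω Ω' Y κ _ _ _ _ μ μ' _ _ a1 a2 b1 b2 r t t' S h1 h2 h3 h4 ht ht' hS hd h0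
  classical
  have key : ∀ (K : Finset κ) (A A' : Set Y), MeasurableSet A → MeasurableSet A' →
      μ.real (Dk a1 a2 t t' A A' K) ≤ r * μ'.real (Dk b1 b2 t t' A A' K) := by
    intro K
    induction K using Finset.induction_on with
    | empty =>
      intro A A' hA hA'
      simpa [Dk, Set.inter_def] using hd A A' hA hA'
    | insert i K hi ih =>
      intro A A' hA hA'
      rw [dk_insert μ K i h1 h2 ht ht' hA hA', dk_insert μ' K i h3 h4 ht ht' hA hA', mul_add]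
      exact add_le_add (ih _ _ (hA.inter (ht i)) (hA'.inter (ht' i)))
        (ih _ _ (hA.inter (ht i).compl) (hA'.inter (ht' i).compl))
  have hl := tendsto_measure_iInter_atTop (μ := μ') (s := Dk b1 b2 t t' S Set.univ)
    (fun K => (dk_meas K h3 h4 ht ht' hS MeasurableSet.univ).nullMeasurableSet)
    (fun K K' h x hx => ⟨hx.1, hx.2.1, fun i hi => hx.2.2 i (h hi)⟩) ⟨∅, measure_ne_top _ _⟩
  have e : (⋂ K, Dk b1 b2 t t' S Set.univ K) = {x | b1 x ∈ S ∧ t (b1 x) = t' (b2 x)} := by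
    ext x
    simp only [Set.mem_iInter]
    refine ⟨fun h => ⟨(h ∅).1, funext fun i => propext ((h {i}).2.2 i (mem_singleton_self i))⟩,
      fun h K => ⟨h.1, trivial, fun i _ => by rw [h.2]⟩⟩
  rw [e, h0] at hl
  have hl' := ((ENNReal.tendsto_toReal ENNReal.zero_ne_top).comp hl).const_mul r
  rw [ENNReal.toReal_zero, mul_zero] at hl'
  refine (measureReal_eq_zero_iff (measure_ne_top _ _)).1
    (le_antisymm (ge_of_tendsto' hl' fun K => ?_) measureReal_nonneg)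
  refine le_trans (measureReal_mono fun x hx => ?_) (key K S Set.univ hS MeasurableSet.univ)
  exact ⟨hx.1, trivial, fun i _ => by rw [hx.2]⟩

end T3x

end

end PkGMix

section PkGPsc

/-! Calculus for the functions `ψ`. -/

set_option autoImplicit false

open MeasureTheory Filter ComplexConjugate
open Fib27 (BM)

noncomputable section

namespace T3x

namespace GPsc

theorem th_congr {Ω : Type} (β : MeasurableSpace Ω) {m0 : MeasurableSpace Ω} {μ : Measure Ω}
    {F F' : Ω → ℂ} (h : F =ᵐ[μ] F') : ∀ᵐ x ∂μ, x ∈ Th β μ F ↔ x ∈ Th β μ F' := by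
  filter_upwards [condExp_congr_ae (m := β) h] with x e
  simp only [Th, Set.mem_ofPred_eq, e]

theorem ae_tz (ht : BasT) {X : Sys} (m : ℤ) {p : X.X → Prop} (h : ∀ᵐ x ∂X.μ, p x) :
    ∀ᵐ x ∂X.μ, p (X.Tz m x) := (ht.mp X m).quasiMeasurePreserving.ae h

variable {X : Sys} {B : MeasurableSpace X.X} {V : Type} [AddCommGroup V] {sg : AddAut V}
  {ψ : V → X.X → ℂ}

theorem zero (h : Psi X B sg ψ) : ψ 0 =ᵐ[X.μ] fun _ => 1 := by
  have h1 := h.add 0 0
  rw [add_zero] at h1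
  filter_upwards [h1, (h.um 0).2] with x e1 e2
  have : ψ 0 x ≠ 0 := fun e => by simp [e] at e2
  exact (mul_eq_left₀ this).1 e1.symm

theorem neg (h : Psi X B sg ψ) (v : V) : ψ (-v) =ᵐ[X.μ] fun x => conj (ψ v x) := by
  have h1 := h.add v (-v)
  rw [add_neg_cancel] at h1
  filter_upwards [h1, zero h, (h.um v).2] with x e1 e2 e3
  rw [← Complex.inv_eq_conj e3]
  exact eq_inv_of_mul_eq_one_right (e1.symm.trans e2)

theorem sub (h : Psi X B sg ψ) (v v' : V) :
    ψ (v - v') =ᵐ[X.μ] fun x => ψ v x * conj (ψ v' x) := by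
  rw [sub_eq_add_neg]
  filter_upwards [h.add v (-v'), neg h v'] with x e1 e2
  rw [e1, e2]

theorem shz (ht : BasT) (h : Psi X B sg ψ) (n : ℤ) (v : V) :
    ψ ((n • sg) v) =ᵐ[X.μ] fun x => ψ v (X.Tz n x) := by
  have e : ∀ (m : ℤ) v, ((m + 1) • sg) v = (m • sg) (sg v) := fun m v => by
    rw [add_zsmul, one_zsmul]
    rfl
  have s : ∀ (m : ℤ) v, (fun x => ψ (sg v) (X.Tz m x)) =ᵐ[X.μ] fun x => ψ v (X.Tz (m + 1) x) :=
    fun m v => by
      filter_upwards [ae_tz ht m (h.sh v)] with x e1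
      rw [e1, add_comm, ht.add, ht.one]
  induction n using Int.induction_on generalizing v with
  | zero =>
    rw [zero_zsmul]
    exact Eventually.of_forall fun x => by simp only [ht.zero]; rfl
  | succ n ih =>
    rw [e]
    exact (ih _).trans (s _ v)
  | pred n ih =>
    obtain ⟨v, rfl⟩ := sg.surjective v
    have h1 := s (-n - 1) v
    rw [← e]
    rw [sub_add_cancel] at h1 ⊢
    exact (ih v).trans h1.symm

end GPsc

open GPsc in
theorem xPsc : PscR := by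
  intro hF hR X B V _ sg ψ hB h
  have bm : ∀ v, BM X.μ X.ms (ψ v) := fun v => BM.of_uni (h.um v).1 (h.um v).2
  refine ⟨bm, zero h, neg h, sub h, fun κ S v => ?_, shz hF.t h, ?_, fun v v' => ?_,
    fun n v => ?_, fun v => ?_⟩
  · classical
    induction S using Finset.induction_on with
    | empty => simpa using zero h
    | insert k S hk ih =>
      rw [Finset.sum_insert hk]
      filter_upwards [h.add (v k) (∑ k ∈ S, v k), ih] with x e1 e2
      rw [e1, e2, Finset.prod_insert hk]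
  · filter_upwards [th_congr B (zero h)] with x e
    rw [e, Th, condExp_const hB.le]
    exact norm_one
  · have u : Um X.ms X.μ fun x => conj (ψ v' x) := ⟨(bm v').conj.1, by simpa using (h.um v').2⟩
    filter_upwards [th_congr B (sub h v v'), hR.mul B X.μ _ _ hB.le (h.um v) u,
      hR.cj B X.μ _ hB.le (h.um v')] with x e1 e2 e3 a1 a2
    exact e1.2 (e2 ⟨a1, e3.mpr a2⟩)
  · filter_upwards [th_congr B (shz hF.t h n v), hF.t.ce X B n _ hB (bm v).integrable]
      with x e1 e2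
    rw [e1, Th, Th, Set.mem_ofPred_eq, Set.mem_ofPred_eq, e2]
  · filter_upwards [condExp_indicator (bm v).integrable (hR.meas B X.μ (ψ v)).compl, h.onn v]
      with x e1 e2
    rw [e1]
    by_cases hx : x ∈ (Th B X.μ (ψ v))ᶜ
    · rw [Set.indicator_of_mem hx]
      exact norm_eq_zero.1 (e2.resolve_right hx)
    · exact Set.indicator_of_notMem hx _

end T3x

end

end PkGPsc

section PkGRelC

/-! Decay of the approximate relations (row GRelC). -/

set_option autoImplicit false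
set_option linter.unusedVariables false
set_option warn.classDefReducibility false

open MeasureTheory ProbabilityTheory Filter Topology Function Finset ComplexConjugate
open scoped BigOperators
open Fib27 (BM sup pr)

noncomputable section

namespace T3x

namespace GRelC

theorem mae {Ω Ω' : Type} {m0 : MeasurableSpace Ω} {m0' : MeasurableSpace Ω'}
    {μ : Measure Ω} {μ' : Measure Ω'} {p : Ω → Ω'} (h : MeasurePreserving p μ μ') {P : Ω' → Prop}
    (hP : ∀ᵐ x ∂μ', P x) : ∀ᵐ x ∂μ, P (p x) := h.quasiMeasurePreserving.ae hP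

theorem mint {Ω Ω' : Type} {m0 : MeasurableSpace Ω} {m0' : MeasurableSpace Ω'}
    {μ : Measure Ω} {μ' : Measure Ω'} {p : Ω → Ω'} (h : MeasurePreserving p μ μ') {g : Ω' → ℂ}
    (hg : BM μ' m0' g) : ∫ x, ‖g (p x)‖ ∂μ = ∫ y, ‖g y‖ ∂μ' := by
  have m1 : AEStronglyMeasurable (fun y => ‖g y‖) (μ.map p) := by
    rw [h.map_eq]
    exact hg.1.norm
  have m2 := integral_map h.measurable.aemeasurable m1
  rw [h.map_eq] at m2
  exact m2.symm

theorem mmeas {Ω Ω' : Type} {m0 : MeasurableSpace Ω} {m0' : MeasurableSpace Ω'}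
    {μ : Measure Ω} {μ' : Measure Ω'} {p : Ω → Ω'} (h : MeasurePreserving p μ μ') {g : Ω' → ℂ}
    (hg : Measurable g) : Measurable fun x => g (p x) := hg.comp h.measurable

theorem real_le {Ω : Type} {m0 : MeasurableSpace Ω} (μ : Measure Ω) [IsProbabilityMeasure μ]
    (A : Set Ω) (hA : MeasurableSet A) (g : Ω → ℂ) (hg : BM μ m0 g)
    (h : ∀ᵐ x ∂μ, x ∈ A → ‖g x‖ = 1) : μ.real A ≤ ∫ x, ‖g x‖ ∂μ := by
  rw [← integral_indicator_one hA]
  refine integral_mono_ae ((integrable_const (1 : ℝ)).indicator hA) hg.integrable.norm ?_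
  filter_upwards [h] with x hx
  by_cases hxA : x ∈ A
  · rw [Set.indicator_of_mem hxA, hx hxA]; rfl
  · rw [Set.indicator_of_notMem hxA]; exact norm_nonneg _

variable {X : Sys} {B : MeasurableSpace X.X} {V : Type} [AddCommGroup V] {sg : AddAut V}
  {ψ : V → X.X → ℂ}

/-- the part of `ψ a` off the trivial set -/
def off (B : MeasurableSpace X.X) (ψ : V → X.X → ℂ) (a : V) : X.X → ℂ :=
  (Th B X.μ (ψ a))ᶜ.indicator (ψ a)

omit [AddCommGroup V] in
theorem off_eq (a : V) : off B ψ a =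
    fun x => (Th B X.μ (ψ a))ᶜ.indicator (fun _ => (1 : ℂ)) x * ψ a x := by
  funext x
  unfold off
  by_cases h : x ∈ (Th B X.μ (ψ a))ᶜ
  · rw [Set.indicator_of_mem h, Set.indicator_of_mem h, one_mul]
  · rw [Set.indicator_of_notMem h, Set.indicator_of_notMem h, zero_mul]

omit [AddCommGroup V] in
theorem ind_bm (R : Rc) (a : V) :
    BM X.μ B ((Th B X.μ (ψ a))ᶜ.indicator fun _ => (1 : ℂ)) :=
  Fib27.BM.indicator (R.meas B X.μ (ψ a)).compl

theorem off_bm (R : Rc) (hB : Fac X B) (P : PsC X B sg ψ) (a : V) : BM X.μ X.ms (off B ψ a) := by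
  rw [off_eq]
  exact ((ind_bm R a).mono hB.le).mul (P.bm a)

theorem off_sh (P : PsC X B sg ψ) (n : ℤ) (a : V) :
    (fun y => off B ψ a (X.Tz n y)) =ᵐ[X.μ] off B ψ ((n • sg) a) := by
  filter_upwards [P.shz n a, P.nsh n a] with y h1 h2
  unfold off
  by_cases h : y ∈ Th B X.μ (ψ ((n • sg) a))
  · rw [Set.indicator_of_notMem (show X.Tz n y ∉ (Th B X.μ (ψ a))ᶜ from fun h' => h' (h2.1 h)),
      Set.indicator_of_notMem (show y ∉ (Th B X.μ (ψ ((n • sg) a)))ᶜ from fun h' => h' h)]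
  · rw [Set.indicator_of_mem (show X.Tz n y ∈ (Th B X.μ (ψ a))ᶜ from fun h' => h (h2.2 h')),
      Set.indicator_of_mem (show y ∈ (Th B X.μ (ψ ((n • sg) a)))ᶜ from h), h1]

theorem one (R : Rc) (hB : Fac X B) (P : PsC X B sg ψ) (b a' : V) :
    X.μ.real (Th B X.μ (ψ (b - a')) \ Th B X.μ (ψ a')) ≤
      ∫ x, ‖(X.μ[fun y => off B ψ b y * conj (ψ a' y) | B]) x‖ ∂X.μ := by
  have b1 := (off_bm R hB P b).mul (P.bm a').conj
  refine real_le X.μ _ (hB.le _ ((R.meas B X.μ _).diff (R.meas B X.μ _))) _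
    ((b1.ce B).mono hB.le) ?_
  have e1 : (fun y => off B ψ b y * conj (ψ a' y)) =ᵐ[X.μ]
      fun y => (Th B X.μ (ψ b))ᶜ.indicator (fun _ => (1 : ℂ)) y * ψ (b - a') y := by
    filter_upwards [P.sub b a'] with y hy
    rw [off_eq, hy, mul_assoc]
  filter_upwards [condExp_congr_ae (m := B) e1, Fib27.ce_mul hB.le (ind_bm R b) (P.bm (b - a')),
    P.nsub b (b - a')] with x h1 h2 h3 hx
  have hb : x ∈ (Th B X.μ (ψ b))ᶜ := fun h => hx.2 (by
    have := h3 h hx.1
    rwa [sub_sub_cancel] at this)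
  rw [h1, h2, Set.indicator_of_mem hb, one_mul]
  exact hx.1

theorem two (R : Rc) (hB : Fac X B) (P : PsC X B sg ψ) (n : ℤ) (a a' : V) :
    X.μ.real (Th B X.μ (ψ ((n • sg) a - a')) \ Th B X.μ (ψ a')) ≤
      ∫ x, ‖(X.μ[fun y => off B ψ a (X.Tz n y) * conj (ψ a' y) | B]) x‖ ∂X.μ := by
  refine (one R hB P _ a').trans (le_of_eq (integral_congr_ae ?_))
  have e1 : (fun y => off B ψ a (X.Tz n y) * conj (ψ a' y)) =ᵐ[X.μ]
      fun y => off B ψ ((n • sg) a) y * conj (ψ a' y) := by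
    filter_upwards [off_sh P n a] with y hy
    rw [hy]
  filter_upwards [condExp_congr_ae (m := B) e1] with x hx
  rw [hx]

theorem av2_mono (ν : Wt) (M : ℕ) {φ φ' : Lab → ℝ} (h : ∀ l, φ l ≤ φ' l) :
    ν.av2 M φ ≤ ν.av2 M φ' :=
  sum_le_sum fun d _ => smul_le_smul_of_nonneg_left
    (sum_le_sum fun d' _ => smul_le_smul_of_nonneg_left (h _) (ν.nn M d')) (ν.nn M d)

theorem av2_nonneg (ν : Wt) (M : ℕ) {φ : Lab → ℝ} (h : ∀ l, 0 ≤ φ l) : 0 ≤ ν.av2 M φ :=
  sum_nonneg fun d _ => smul_nonneg (ν.nn M d)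
    (sum_nonneg fun d' _ => smul_nonneg (ν.nn M d') (h _))

theorem av2_re (ν : Wt) (M : ℕ) (φ : Lab → ℝ) :
    (ν.av2 M fun l => (φ l : ℂ)).re = ν.av2 M φ := by
  simp [Wt.av2, Wt.av]

theorem rep (F : Fd) (X : Sys) {f : X.X → ℂ} (hf : BM X.μ X.ms f) :
    ∃ g ∈ Bdd X.X, f =ᵐ[X.μ] g := by
  obtain ⟨m, C, hb⟩ := hf
  obtain ⟨g, g1, g2, g3⟩ := F.a.rep X.ms X.μ f (max C 0) (le_max_right _ _) m
    (hb.mono fun x hx => hx.trans (le_max_left _ _))
  exact ⟨g, ⟨g1, _, g2⟩, g3⟩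

theorem bdd_bm (X : Sys) {g : X.X → ℂ} (hg : g ∈ Bdd X.X) : BM X.μ X.ms g := by
  obtain ⟨g1, C, g2⟩ := hg
  exact ⟨g1.aestronglyMeasurable, C, Eventually.of_forall g2⟩

theorem fam (F : Fd) (X : Sys) {g : X.X → ℂ} (hg : g ∈ Bdd X.X) (r : Lab → ℤ) :
    (fun z : Lab × X.X => g (X.Tz (r z.1) z.2)) ∈ FamS X.ms := by
  obtain ⟨g1, C, g2⟩ := hg
  exact ⟨fun l => mmeas (F.t.mp X (r l)) g1, C, fun z => g2 _⟩

theorem fam_mul {Ω : Type} {m : MeasurableSpace Ω} {G H : Lab × Ω → ℂ} (hG : G ∈ FamS m)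
    (hH : H ∈ FamS m) : (fun z => G z * H z) ∈ FamS m := by
  obtain ⟨g1, C, g2⟩ := hG
  obtain ⟨h1, D, h2⟩ := hH
  refine ⟨fun l => (g1 l).mul (h1 l), C * D, fun z => ?_⟩
  rw [norm_mul]
  exact mul_le_mul (g2 z) (h2 z) (norm_nonneg _) ((norm_nonneg _).trans (g2 z))

theorem fam_nrm {Ω : Type} {m : MeasurableSpace Ω} {G : Lab × Ω → ℂ} (hG : G ∈ FamS m) :
    (fun z => (‖G z‖ : ℂ)) ∈ FamS m := by
  obtain ⟨g1, C, g2⟩ := hG
  refine ⟨fun l => Complex.measurable_ofReal.comp (g1 l).norm, C, fun z => ?_⟩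
  rw [Complex.norm_real, norm_norm]
  exact g2 z

/-- decay of the conditional correlations along two independent labels -/
theorem decay (F : Fd) (c : Ctx) (f g : c.X.X → ℂ) (hf : f ∈ Bdd c.X.X) (hg : g ∈ Bdd c.X.X)
    (h0 : c.X.μ[f | c.B] =ᵐ[c.X.μ] 0) :
    Tendsto (fun M => c.ν.av2 M fun l => ∫ x,
      ‖(c.X.μ[fun y => f (c.X.Tz (l.2.1 - l.2.2) y) * g y | c.B]) x‖ ∂c.X.μ) c.U (𝓝 0) := by
  have hB := c.kc.1
  have i1 := c.ind c.X c.B c.L Bool (fun b => ((1 : ℤ), b)) univ c.nice c.kc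
    (fun b _ b' _ h => (Prod.ext_iff.1 h).2) (fun b _ => one_ne_zero)
    (by have := c.three; simp only [Finset.card_univ, Fintype.card_bool]; omega)
    (fun b => cond b f g) (fun b _ => by cases b; exacts [bdd_bm _ hg, bdd_bm _ hf])
  simp only [Fintype.prod_bool, cond_true, cond_false] at i1
  have F1 := fam F c.X hf (rho (1, true))
  have F2 := fam F c.X hg (rho (1, false))
  have F3 := fam_mul F1 F2
  obtain ⟨G, hG, hG'⟩ := F.lb.cex c.X c.B hB _ F3
  have hG2 : G ∈ FamS c.X.ms := ⟨fun l => (hG.1 l).mono hB.le le_rfl, hG.2⟩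
  have e1 := F.lb.ce c.L c.B hB _ F3 G hG hG'
  have e2 : (fun w => f (c.L.π (1, true) w) * g (c.L.π (1, false) w)) =ᵐ[c.L.W.μ]
      c.L.hat fun z => f (c.X.Tz (rho (1, true) z.1) z.2) * g (c.X.Tz (rho (1, false) z.1) z.2) := by
    filter_upwards [c.L.slot (1, true) f hf, c.L.slot (1, false) g hg] with w h1 h2
    rw [h1, h2]
    exact ((c.L.ch w).mul _ F1 _ F2).symm
  have e3 : ∀ᵐ w ∂c.L.W.μ, c.L.hat G w = 0 := by
    filter_upwards [e1, condExp_congr_ae (m := c.L.shp c.B) e2, i1,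
      mae (c.L.emb (1, true)).mp h0] with w h1 h2 h3 h4
    rw [← h1, ← h2, h3, h4]
    simp
  have e4 : ∫ w, c.L.hat (fun z => (‖G z‖ : ℂ)) w ∂c.L.W.μ = 0 := by
    refine integral_eq_zero_of_ae ?_
    filter_upwards [e3] with w hw
    rw [F.lb.nrm c.L G hG2 w, hw]
    simp
  have l1 := c.L.lim _ (fam_nrm hG2)
  rw [e4] at l1
  have l2 := (Complex.continuous_re.tendsto 0).comp l1
  simp only [Complex.zero_re] at l2
  refine l2.congr fun M => ?_
  rw [← av2_re, Function.comp_apply]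
  congr 2
  funext l
  rw [integral_complex_ofReal]
  congr 1
  have b1 : BM c.X.μ c.X.ms fun y => f (c.X.Tz (l.2.1 - l.2.2) y) * g y :=
    (F.t.bm c.X c.X.ms _ f (F.t.top c.X) (bdd_bm _ hf)).mul (bdd_bm _ hg)
  rw [← mint (F.t.mp c.X l.2.2) ((b1.ce c.B).mono hB.le)]
  refine integral_congr_ae ?_
  filter_upwards [hG' l, F.t.ce c.X c.B l.2.2 _ hB b1.integrable] with x h1 h2
  rw [h1, ← h2]
  simp only [rho, one_mul, if_true, Bool.false_eq_true, if_false, ← F.t.add, sub_add_cancel]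

end GRelC

open GRelC

theorem xDec : DecS := by
  intro F R G X B V _ sg ψ hX hB hψ a
  have P := G.ps X B V sg ψ hB.1 hψ
  have e : KK X B = B := le_antisymm hB.2 (F.kb.le X B hX hB.1)
  have b := off_bm R hB.1 P a
  have w : WM X B (off B ψ a) := (F.kb.wm X B hX hB.1 _ (b.memLp 2)).2 (by rw [e]; exact P.off a)
  refine squeeze_zero (fun N => ?_) (fun N => ?_) (w.2 _ (P.bm a).conj)
  · exact mul_nonneg (inv_nonneg.2 (Nat.cast_nonneg N)) (sum_nonneg fun n _ => measureReal_nonneg)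
  · exact mul_le_mul_of_nonneg_left (sum_le_sum fun n _ => two R hB.1 P n a a)
      (inv_nonneg.2 (Nat.cast_nonneg N))

theorem xRelC : RelC := by
  intro F R G c V _ _ sg ψ hψ a a'
  have hB := c.kc.1
  have P := G.ps c.X c.B V sg ψ hB hψ
  obtain ⟨f, f1, f2⟩ := rep F c.X (off_bm R hB P a)
  obtain ⟨g, g1, g2⟩ := rep F c.X (P.bm a').conj
  refine squeeze_zero (fun M => av2_nonneg _ _ fun l => measureReal_nonneg)
    (fun M => av2_mono _ _ fun l => ?_)
    (decay F c f g f1 g1 ((condExp_congr_ae f2).symm.trans (P.off a)))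
  refine (two R hB P _ a a').trans (le_of_eq (integral_congr_ae ?_))
  have e1 : (fun y => off c.B ψ a (c.X.Tz (l.2.1 - l.2.2) y) * conj (ψ a' y)) =ᵐ[c.X.μ]
      fun y => f (c.X.Tz (l.2.1 - l.2.2) y) * g y := by
    filter_upwards [mae (F.t.mp c.X (l.2.1 - l.2.2)) f2, g2] with y h1 h2
    rw [h1, h2]
  filter_upwards [condExp_congr_ae (m := c.B) e1] with x hx
  rw [hx]

end T3x

end

end PkGRelC
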