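import Pool.Agent.MP_154433_an.t3.Spec

/-! One map, part 2 (packed). -/

section PkLim

/-! Rows `Nice0` and `Lim`: nice models and inverse limits. -/

set_option autoImplicit false
set_option linter.unusedVariables false
set_option warn.classDefReducibility false

open MeasureTheory ProbabilityTheory Filter Topology Function Finset ComplexConjugate
open scoped BigOperators

noncomputable section

namespace T3x

namespace LimRow

theorem int_bdd {Ω : Type} [MeasurableSpace Ω] (μ : Measure Ω) [IsFiniteMeasure μ] {f : Ω → ℂ}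
    (hf : Measurable f) {C : ℝ} (hC : ∀ x, ‖f x‖ ≤ C) : Integrable f μ :=
  Integrable.of_bound hf.aestronglyMeasurable C (Eventually.of_forall hC)

theorem int_pos {Ω : Type} [MeasurableSpace Ω] (μ : Measure Ω) {f : Ω → ℂ}
    (hf : Integrable f μ) (h : ∀ x, 0 ≤ (f x).re ∧ (f x).im = 0) :
    0 ≤ (∫ x, f x ∂μ).re ∧ (∫ x, f x ∂μ).im = 0 := by
  have h1 := integral_re hf
  have h2 := integral_im hf
  simp only [RCLike.re_to_complex, RCLike.im_to_complex] at h1 h2
  refine ⟨?_, ?_⟩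
  · rw [← h1]; exact integral_nonneg fun x => (h x).1
  · rw [← h2]; simp [fun x => (h x).2]

theorem salg_bdd (Ω : Type) [MeasurableSpace Ω] : SAlg (Bdd Ω) where
  const c := ⟨measurable_const, ‖c‖, fun _ => le_rfl⟩
  add := by
    rintro F ⟨hF, C, hC⟩ G ⟨hG, D, hD⟩
    exact ⟨hF.add hG, C + D, fun x => (norm_add_le _ _).trans (add_le_add (hC x) (hD x))⟩
  mul := by
    rintro F ⟨hF, C, hC⟩ G ⟨hG, D, hD⟩
    refine ⟨hF.mul hG, C * D, fun x => ?_⟩
    rw [norm_mul]
    exact mul_le_mul (hC x) (hD x) (norm_nonneg _) ((norm_nonneg _).trans (hC x))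
  cj := by
    rintro F ⟨hF, C, hC⟩
    exact ⟨Complex.continuous_conj.measurable.comp hF, C, fun x => by simpa using hC x⟩
  bdd F hF := hF.2

theorem hat_meas {S : Type} {A : Set (S → ℂ)} {Λ : (S → ℂ) → ℂ} {t : S → S} {W : Sys}
    {hat : (S → ℂ) → W.X → ℂ} (R : Realz A Λ t W hat) {F : S → ℂ} (hF : F ∈ A) :
    Measurable (hat F) := by
  have h : MeasurableSpace.comap (hat F) inferInstance ≤ W.ms := by
    rw [R.gn]
    exact le_iSup₂_of_le (f := fun F (_ : F ∈ A) =>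
      MeasurableSpace.comap (hat F) (inferInstance : MeasurableSpace ℂ)) F hF le_rfl
  exact Measurable.of_comap_le h

/-- functions at distance zero have the same transform -/
theorem hat_congr {S : Type} {A : Set (S → ℂ)} {Λ : (S → ℂ) → ℂ} {t : S → S} {W : Sys}
    {hat : (S → ℂ) → W.X → ℂ} (hA : SAlg A) (R : Realz A Λ t W hat) {F G : S → ℂ} (hF : F ∈ A)
    (hG : G ∈ A)
    (h0 : Λ (fun s => (F s + (-1) * G s) * conj (F s + (-1) * G s)) = 0) :
    hat F =ᵐ[W.μ] hat G := by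
  have hm : (fun s => (-1) * G s) ∈ A := hA.mul _ (hA.const (-1)) _ hG
  have hd : (fun s => F s + (-1) * G s) ∈ A := hA.add _ hF _ hm
  have hc := hA.cj _ hd
  have hH := hA.mul _ hd _ hc
  have e1 : ∀ w, hat (fun s => F s + (-1) * G s) w = hat F w - hat G w := by
    intro w
    have a1 := (R.ch w).add _ hF _ hm
    have a2 := (R.ch w).mul _ (hA.const (-1)) _ hG
    have a3 := (R.ch w).const (-1)
    rw [a1, a2, a3]; ring
  have e2 : ∀ w, hat (fun s => (F s + (-1) * G s) * conj (F s + (-1) * G s)) w =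
      ((‖hat F w - hat G w‖ ^ 2 : ℝ) : ℂ) := by
    intro w
    have a1 := (R.ch w).mul _ hd _ hc
    have a2 := (R.ch w).cj _ hd
    rw [a1, a2, e1, Complex.mul_conj, Complex.normSq_eq_norm_sq]
  have hI := R.int _ hH
  rw [h0] at hI
  simp only [e2] at hI
  rw [integral_complex_ofReal] at hI
  have hI' : ∫ w, ‖hat F w - hat G w‖ ^ 2 ∂W.μ = 0 := by exact_mod_cast hI
  obtain ⟨C, hC⟩ := hA.bdd _ hd
  have hb : ∀ w, ‖hat F w - hat G w‖ ≤ C := fun w => by
    rw [← e1]; exact (R.ch w).bdd _ hd C hC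
  have hmeas : Measurable fun w => ‖hat F w - hat G w‖ ^ 2 :=
    (((hat_meas R hF).sub (hat_meas R hG)).norm).pow_const 2
  have hint : Integrable (fun w => ‖hat F w - hat G w‖ ^ 2) W.μ :=
    Integrable.of_bound hmeas.aestronglyMeasurable (C ^ 2) (Eventually.of_forall fun w => by
      rw [Real.norm_eq_abs, abs_of_nonneg (by positivity)]
      exact pow_le_pow_left₀ (norm_nonneg _) (hb w) 2)
  have := (integral_eq_zero_iff_of_nonneg (fun w => by positivity) hint).1 hI'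
  filter_upwards [this] with w hw
  have : ‖hat F w - hat G w‖ = 0 := by simpa using hw
  exact sub_eq_zero.1 (norm_eq_zero.1 this)

/-- two probability measures that agree on a generating algebra are equal -/
theorem meas_ext (b : Bas) {Ω : Type} {m0 : MeasurableSpace Ω} (ν1 ν2 : Measure Ω)
    [IsProbabilityMeasure ν1] [IsProbabilityMeasure ν2] (T : Set (Ω → ℂ))
    (hb : ∀ φ ∈ T, φ ∈ Bdd Ω) (h1 : (fun _ => 1) ∈ T)
    (hm : ∀ φ ∈ T, ∀ φ' ∈ T, (fun x => φ x * φ' x) ∈ T)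
    (hc : ∀ φ ∈ T, (fun x => conj (φ x)) ∈ T) (hg : m0 ≤ gen T id)
    (h : ∀ φ ∈ T, ∫ x, φ x ∂ν1 = ∫ x, φ x ∂ν2) : ν1 = ν2 := by
  set κ : Measure Ω := (2⁻¹ : ENNReal) • (ν1 + ν2) with hκ
  have : IsProbabilityMeasure κ := ⟨by
    simp only [hκ, Measure.smul_apply, Measure.add_apply, measure_univ, smul_eq_mul]
    rw [one_add_one_eq_two, ENNReal.inv_mul_cancel (by simp) (by simp)]⟩
  have hs : ν1 + ν2 ≪ κ := Measure.absolutelyContinuous_smul (by simp)
  have a1 : ν1 ≪ κ := (Measure.absolutelyContinuous_of_le (Measure.le_add_right le_rfl)).trans hs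
  have a2 : ν2 ≪ κ := (Measure.absolutelyContinuous_of_le (Measure.le_add_left le_rfl)).trans hs
  have i1 : Integrable (fun x => (((ν1.rnDeriv κ x).toReal : ℝ) : ℂ)) κ :=
    (Measure.integrable_toReal_rnDeriv (μ := ν1) (ν := κ)).ofReal
  have i2 : Integrable (fun x => (((ν2.rnDeriv κ x).toReal : ℝ) : ℂ)) κ :=
    (Measure.integrable_toReal_rnDeriv (μ := ν2) (ν := κ)).ofReal
  have hz := b.d.perp κ T hb ⟨_, h1, EventuallyEq.rfl⟩
    (fun φ hφ φ' hφ' => ⟨_, hm φ hφ φ' hφ', EventuallyEq.rfl⟩)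
    (fun φ hφ => ⟨_, hc φ hφ, EventuallyEq.rfl⟩)
    (fun x => (((ν1.rnDeriv κ x).toReal : ℝ) : ℂ) - (((ν2.rnDeriv κ x).toReal : ℝ) : ℂ))
    (i1.sub i2) (by
      intro φ hφ
      obtain ⟨hφm, C, hC⟩ := hb φ hφ
      have j1 := i1.mul_bdd hφm.aestronglyMeasurable (Eventually.of_forall hC)
      have j2 := i2.mul_bdd hφm.aestronglyMeasurable (Eventually.of_forall hC)
      simp only [sub_mul]
      rw [integral_sub j1 j2]
      have k1 := integral_rnDeriv_smul (f := φ) a1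
      have k2 := integral_rnDeriv_smul (f := φ) a2
      simp only [Complex.real_smul] at k1 k2
      rw [k1, k2, h φ hφ, sub_self])
  have hle : gen T id ⊔ nul κ = m0 := by
    refine le_antisymm (sup_le ?_ (b.a.nul_le κ)) (hg.trans le_sup_left)
    refine iSup₂_le fun φ hφ => ?_
    exact (hb φ hφ).1.comap_le
  rw [hle] at hz
  have hself := condExp_of_aestronglyMeasurable' (m := m0) (μ := κ) le_rfl
    (i1.sub i2).aestronglyMeasurable (i1.sub i2)
  have hd : ν1.rnDeriv κ =ᵐ[κ] ν2.rnDeriv κ := by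
    filter_upwards [hz, hself, Measure.rnDeriv_lt_top ν1 κ, Measure.rnDeriv_lt_top ν2 κ] with
      x h1 h2 h3 h4
    have h5 : (((ν1.rnDeriv κ x).toReal : ℝ) : ℂ) - (((ν2.rnDeriv κ x).toReal : ℝ) : ℂ) = 0 :=
      h2.symm.trans h1
    have h6 : (ν1.rnDeriv κ x).toReal = (ν2.rnDeriv κ x).toReal := by
      exact_mod_cast sub_eq_zero.1 h5
    exact (ENNReal.toReal_eq_toReal_iff' h3.ne h4.ne).1 h6
  rw [← Measure.withDensity_rnDeriv_eq _ _ a1, ← Measure.withDensity_rnDeriv_eq _ _ a2,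
    withDensity_congr_ae hd]

/-- maps that agree on the generating functions pull back the same sets -/
theorem keq_gen {S Ω Ω' : Type} {m0 : MeasurableSpace Ω} (μ : Measure Ω) (A : Set (S → ℂ))
    (hat : (S → ℂ) → Ω' → ℂ) (p p' : Ω → Ω') (h : ∀ F ∈ A, ∀ x, hat F (p x) = hat F (p' x)) :
    KEq μ (gen A hat) p p' := by
  let M : MeasurableSpace Ω' :=
    { MeasurableSet' := fun B => p ⁻¹' B = p' ⁻¹' B
      measurableSet_empty := rfl
      measurableSet_compl := fun B hB => by simp only [Set.preimage_compl, hB]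
      measurableSet_iUnion := fun f hf => by simp only [Set.preimage_iUnion, hf] }
  have hle : gen A hat ≤ M := by
    refine iSup₂_le fun F hF => ?_
    rintro B ⟨s, -, rfl⟩
    show p ⁻¹' (hat F ⁻¹' s) = p' ⁻¹' (hat F ⁻¹' s)
    ext x
    simp only [Set.mem_preimage, h F hF x]
  intro B hB
  have : p ⁻¹' B = p' ⁻¹' B := hle B hB
  rw [this]

end LimRow

open LimRow in
theorem nice0 : Nice0R := by
  intro b hR X
  obtain ⟨W, hat, R⟩ := hR X.X (Bdd X.X) (fun F => ∫ x, F x ∂X.μ) X.T.toEquiv (salg_bdd _)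
    (by
      rintro F ⟨hF, C, hC⟩ G ⟨hG, D, hD⟩
      exact integral_add (int_bdd _ hF hC) (int_bdd _ hG hD))
    (fun c F _ => integral_const_mul c F) (by simp)
    (by
      rintro F ⟨hF, C, hC⟩ h
      exact int_pos _ (int_bdd _ hF hC) h)
    (by
      rintro F ⟨hF, C, hC⟩
      exact ⟨hF.comp X.T.measurable, C, fun x => hC _⟩)
    (by
      rintro F ⟨hF, C, hC⟩
      exact ⟨hF.comp X.T.symm.measurable, C, fun x => hC _⟩)
    (fun F _ => X.mp.integral_comp' F)
  have hx : ∀ x : X.X, ∃ w, ∀ F ∈ Bdd X.X, hat F w = F x := fun x =>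
    R.all (fun F => F x) ⟨fun _ => rfl, fun _ _ _ _ => rfl, fun _ _ _ _ => rfl, fun _ _ => rfl,
      fun _ _ C hC => hC x⟩
  choose e he using hx
  have hem : Measurable e := by
    refine Measurable.of_comap_le ?_
    rw [R.gn]
    unfold gen
    simp only [MeasurableSpace.comap_iSup, MeasurableSpace.comap_comp]
    refine iSup₂_le fun F hF => ?_
    have : hat F ∘ e = F := funext fun x => he x F hF
    rw [this]
    exact hF.1.comap_le
  have hbd : ∀ F ∈ Bdd X.X, hat F ∈ Bdd W.X := fun F hF => by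
    obtain ⟨C, hC⟩ := hF.2
    exact ⟨hat_meas R hF, C, fun w => (R.ch w).bdd F hF C hC⟩
  have sa := salg_bdd X.X
  refine ⟨W, e, R.nice, ⟨⟨hem, ?_⟩, ?_⟩, fun f hf => ⟨hat f, hbd f hf, fun x => he x f hf⟩⟩
  · have := Measure.isProbabilityMeasure_map (μ := X.μ) hem.aemeasurable
    refine meas_ext b _ _ (hat '' Bdd X.X) ?_ ?_ ?_ ?_ ?_ ?_
    · rintro _ ⟨F, hF, rfl⟩
      exact hbd F hF
    · exact ⟨fun _ => 1, sa.const 1, funext fun w => (R.ch w).const 1⟩
    · rintro _ ⟨F, hF, rfl⟩ _ ⟨G, hG, rfl⟩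
      exact ⟨_, sa.mul F hF G hG, funext fun w => (R.ch w).mul F hF G hG⟩
    · rintro _ ⟨F, hF, rfl⟩
      exact ⟨_, sa.cj F hF, funext fun w => (R.ch w).cj F hF⟩
    · refine R.gn.le.trans (iSup₂_le fun F hF => ?_)
      exact le_iSup₂_of_le (f := fun φ (_ : φ ∈ hat '' Bdd X.X) =>
        MeasurableSpace.comap (id φ) (inferInstance : MeasurableSpace ℂ)) (hat F) ⟨F, hF, rfl⟩
        le_rfl
    · rintro _ ⟨F, hF, rfl⟩
      rw [integral_map hem.aemeasurable (hat_meas R hF).aestronglyMeasurable, R.int F hF]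
      simp only [he _ F hF]
  · intro B hB
    refine keq_gen X.μ (Bdd X.X) hat (e ∘ X.T) (W.T ∘ e) (fun F hF x => ?_) B (R.gn.le B hB)
    have hT : (fun s => F (X.T.toEquiv s)) ∈ Bdd X.X := by
      obtain ⟨hF, C, hC⟩ := hF
      exact ⟨hF.comp X.T.measurable, C, fun x => hC _⟩
    show hat F (e (X.T x)) = hat F (W.T (e x))
    rw [← R.eqv F hF, he _ F hF, he _ _ hT]
    rfl

namespace LimRow

variable {X : ℕ → Sys} (p : ∀ k, (X (k + 1)).X → (X k).X)

/-- bounded measurable families that are compatible from level `k0` on -/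
structure Cp (k0 : ℕ) (F : (Σ k, (X k).X) → ℂ) : Prop where
  ms : ∀ k, Measurable fun x : (X k).X => F ⟨k, x⟩
  bd : ∃ C : ℝ, ∀ s, ‖F s‖ ≤ C
  cp : ∀ k, k0 ≤ k → (fun x => F ⟨k + 1, x⟩) =ᵐ[(X (k + 1)).μ] fun x => F ⟨k, p k x⟩

def Al : Set ((Σ k, (X k).X) → ℂ) := {F | ∃ k0, Cp p k0 F}

def Lam (F : (Σ k, (X k).X) → ℂ) : ℂ := limUnder atTop fun k => ∫ x, F ⟨k, x⟩ ∂(X k).μ

def tt (X : ℕ → Sys) : (Σ k, (X k).X) ≃ (Σ k, (X k).X) :=
  Equiv.sigmaCongrRight fun k => (X k).T.toEquiv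

variable {p}

theorem Cp.mono {k0 k1 : ℕ} {F : (Σ k, (X k).X) → ℂ} (h : Cp p k0 F) (hk : k0 ≤ k1) :
    Cp p k1 F := ⟨h.ms, h.bd, fun k hk' => h.cp k (hk.trans hk')⟩

theorem Cp.int {k0 : ℕ} {F : (Σ k, (X k).X) → ℂ} (h : Cp p k0 F) (k : ℕ) :
    Integrable (fun x : (X k).X => F ⟨k, x⟩) (X k).μ := by
  obtain ⟨C, hC⟩ := h.bd
  exact int_bdd _ (h.ms k) fun x => hC _

theorem Cp.const (k0 : ℕ) (c : ℂ) : Cp p k0 fun _ => c :=
  ⟨fun _ => measurable_const, ⟨‖c‖, fun _ => le_rfl⟩, fun _ _ => EventuallyEq.rfl⟩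

theorem Cp.add {k0 : ℕ} {F G : (Σ k, (X k).X) → ℂ} (hF : Cp p k0 F) (hG : Cp p k0 G) :
    Cp p k0 fun s => F s + G s := by
  obtain ⟨C, hC⟩ := hF.bd
  obtain ⟨D, hD⟩ := hG.bd
  refine ⟨fun k => (hF.ms k).add (hG.ms k),
    ⟨C + D, fun x => (norm_add_le _ _).trans (add_le_add (hC x) (hD x))⟩, fun k hk => ?_⟩
  filter_upwards [hF.cp k hk, hG.cp k hk] with x h1 h2
  rw [h1, h2]

theorem Cp.mul {k0 : ℕ} {F G : (Σ k, (X k).X) → ℂ} (hF : Cp p k0 F) (hG : Cp p k0 G) :
    Cp p k0 fun s => F s * G s := by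
  obtain ⟨C, hC⟩ := hF.bd
  obtain ⟨D, hD⟩ := hG.bd
  refine ⟨fun k => (hF.ms k).mul (hG.ms k), ⟨C * D, fun x => ?_⟩, fun k hk => ?_⟩
  · rw [norm_mul]
    exact mul_le_mul (hC x) (hD x) (norm_nonneg _) ((norm_nonneg _).trans (hC x))
  · filter_upwards [hF.cp k hk, hG.cp k hk] with x h1 h2
    rw [h1, h2]

theorem Cp.cj {k0 : ℕ} {F : (Σ k, (X k).X) → ℂ} (hF : Cp p k0 F) :
    Cp p k0 fun s => conj (F s) := by
  obtain ⟨C, hC⟩ := hF.bd
  refine ⟨fun k => Complex.continuous_conj.measurable.comp (hF.ms k),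
    ⟨C, fun x => by simpa using hC x⟩, fun k hk => ?_⟩
  filter_upwards [hF.cp k hk] with x h1
  rw [h1]

theorem salg_al : SAlg (Al p) where
  const c := ⟨0, Cp.const 0 c⟩
  add := by
    rintro F ⟨k, hF⟩ G ⟨l, hG⟩
    exact ⟨max k l, (hF.mono (le_max_left _ _)).add (hG.mono (le_max_right _ _))⟩
  mul := by
    rintro F ⟨k, hF⟩ G ⟨l, hG⟩
    exact ⟨max k l, (hF.mono (le_max_left _ _)).mul (hG.mono (le_max_right _ _))⟩
  cj := by
    rintro F ⟨k, hF⟩
    exact ⟨k, hF.cj⟩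
  bdd := by
    rintro F ⟨k, hF⟩
    exact hF.bd

theorem Cp.lam (hp : ∀ k, Emb (X (k + 1)) (X k) (p k)) {k0 : ℕ} {F : (Σ k, (X k).X) → ℂ}
    (hF : Cp p k0 F) : Lam F = ∫ x, F ⟨k0, x⟩ ∂(X k0).μ := by
  have h : ∀ k, k0 ≤ k → ∫ x, F ⟨k, x⟩ ∂(X k).μ = ∫ x, F ⟨k0, x⟩ ∂(X k0).μ := by
    intro k hk
    induction k, hk using Nat.le_induction with
    | base => rfl
    | succ k hk ih =>
      rw [integral_congr_ae (hF.cp k hk), ← ih, ← (hp k).mp.map_eq,
        integral_map (hp k).mp.measurable.aemeasurable (hF.ms k).aestronglyMeasurable]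
  refine Tendsto.limUnder_eq ?_
  exact tendsto_const_nhds.congr' ((eventually_ge_atTop k0).mono fun k hk => (h k hk).symm)

theorem comm_T (b : Bas) {Y Z : Sys} {q : Y.X → Z.X} (hq : Emb Y Z q) {f : Z.X → ℂ}
    (hf : Measurable f) : (fun y => f (q (Y.T y))) =ᵐ[Y.μ] fun y => f (Z.T (q y)) :=
  b.a.keq_fun Z.ms Y.μ Z.μ (q ∘ Y.T) (Z.T ∘ q) f (hq.mp.comp Y.mp) (Z.mp.comp hq.mp) hq.eqv
    hf.aestronglyMeasurable

theorem Cp.fwd (b : Bas) (hp : ∀ k, Emb (X (k + 1)) (X k) (p k)) {k0 : ℕ}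
    {F : (Σ k, (X k).X) → ℂ} (hF : Cp p k0 F) : Cp p k0 fun s => F (tt X s) := by
  obtain ⟨C, hC⟩ := hF.bd
  refine ⟨fun k => (hF.ms k).comp (X k).T.measurable, ⟨C, fun s => hC _⟩, fun k hk => ?_⟩
  have h1 := (X (k + 1)).mp.quasiMeasurePreserving.ae_eq_comp (hF.cp k hk)
  exact h1.trans (comm_T b (hp k) (hF.ms k))

theorem Cp.bwd (b : Bas) (hp : ∀ k, Emb (X (k + 1)) (X k) (p k)) {k0 : ℕ}
    {F : (Σ k, (X k).X) → ℂ} (hF : Cp p k0 F) : Cp p k0 fun s => F ((tt X).symm s) := by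
  obtain ⟨C, hC⟩ := hF.bd
  refine ⟨fun k => (hF.ms k).comp (X k).T.symm.measurable, ⟨C, fun s => hC _⟩, fun k hk => ?_⟩
  have hq := ((X (k + 1)).mp.symm (X (k + 1)).T).quasiMeasurePreserving
  have h1 := hq.ae_eq_comp (hF.cp k hk)
  have h2 := hq.ae_eq_comp (comm_T b (hp k) ((hF.ms k).comp (X k).T.symm.measurable))
  filter_upwards [h1, h2] with x e1 e2
  simp only [comp_apply, MeasurableEquiv.apply_symm_apply, MeasurableEquiv.symm_apply_apply]
    at e1 e2
  exact e1.trans e2.symm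

variable (p)

/-- the projection to level `k`, with a fixed point below -/
def rr (k : ℕ) (x0 : (X k).X) : ∀ j, (X j).X → (X k).X
  | 0 => if h : 0 = k then fun x => h ▸ x else fun _ => x0
  | j + 1 => if h : j + 1 = k then fun x => h ▸ x else fun x => rr k x0 j (p j x)

theorem rr_self (k : ℕ) (x0 x : (X k).X) : rr p k x0 k x = x := by
  cases k with
  | zero => simp [rr]
  | succ k => simp [rr]

theorem rr_succ (k : ℕ) (x0 : (X k).X) (j : ℕ) (h : k ≤ j) (x : (X (j + 1)).X) :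
    rr p k x0 (j + 1) x = rr p k x0 j (p j x) := by
  rw [rr, dif_neg (by omega)]

theorem rr_meas (hp : ∀ k, Measurable (p k)) (k : ℕ) (x0 : (X k).X) (j : ℕ) :
    Measurable (rr p k x0 j) := by
  induction j with
  | zero =>
    rw [rr]
    split_ifs with h
    · subst h; exact measurable_id
    · exact measurable_const
  | succ j ih =>
    rw [rr]
    split_ifs with h
    · subst h; exact measurable_id
    · exact ih.comp (hp j)

variable {p}

theorem cp_up (hp : ∀ k, Emb (X (k + 1)) (X k) (p k)) (k : ℕ) (x0 : (X k).X) {f : (X k).X → ℂ}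
    (hf : f ∈ Bdd (X k).X) : Cp p k fun s => f (rr p k x0 s.1 s.2) := by
  obtain ⟨hf, C, hC⟩ := hf
  refine ⟨fun j => hf.comp (rr_meas p (fun k => (hp k).mp.measurable) k x0 j),
    ⟨C, fun s => hC _⟩, fun j hj => Eventually.of_forall fun x => ?_⟩
  simp only [rr_succ p k x0 j hj]

theorem cp_congr (hp : ∀ k, Emb (X (k + 1)) (X k) (p k)) {W : Sys}
    {hat : ((Σ k, (X k).X) → ℂ) → W.X → ℂ} (R : Realz (Al p) Lam (tt X) W hat) {k : ℕ}
    {F G : (Σ k, (X k).X) → ℂ} (hF : Cp p k F) (hG : Cp p k G)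
    (h : ∀ x, F ⟨k, x⟩ = G ⟨k, x⟩) : hat F =ᵐ[W.μ] hat G := by
  refine hat_congr salg_al R ⟨k, hF⟩ ⟨k, hG⟩ ?_
  have hd := hF.add ((Cp.const k (-1)).mul hG)
  rw [(hd.mul hd.cj).lam hp]
  simp [h]

end LimRow

open LimRow in
theorem limS : LimR := by
  intro b hR X p hN hp
  obtain ⟨W, hat, R⟩ := hR (Σ k, (X k).X) (Al p) Lam (tt X) salg_al
    (by
      rintro F ⟨k, hF⟩ G ⟨l, hG⟩
      have hF' := hF.mono (le_max_left k l)
      have hG' := hG.mono (le_max_right k l)
      rw [(hF'.add hG').lam hp, hF'.lam hp, hG'.lam hp]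
      exact integral_add (hF'.int _) (hG'.int _))
    (by
      rintro c F ⟨k, hF⟩
      rw [((Cp.const k c).mul hF).lam hp, hF.lam hp]
      exact integral_const_mul c _)
    (by rw [(Cp.const (p := p) 0 1).lam hp]; simp)
    (by
      rintro F ⟨k, hF⟩ h
      rw [hF.lam hp]
      exact int_pos _ (hF.int k) fun x => h _)
    (by
      rintro F ⟨k, hF⟩
      exact ⟨k, hF.fwd b hp⟩)
    (by
      rintro F ⟨k, hF⟩
      exact ⟨k, hF.bwd b hp⟩)
    (by
      rintro F ⟨k, hF⟩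
      rw [(hF.fwd b hp).lam hp, hF.lam hp]
      exact (X k).mp.integral_comp' fun x => F ⟨k, x⟩)
  have x0 : ∀ k, (X k).X := fun k => Classical.choice (nonempty_of_isProbabilityMeasure (X k).μ)
  have hu : ∀ k, ∀ f ∈ Bdd (X k).X, (fun s : Σ k, (X k).X => f (rr p k (x0 k) s.1 s.2)) ∈ Al p :=
    fun k f hf => ⟨k, cp_up hp k (x0 k) hf⟩
  have he : ∀ k, ∃ e : W.X → (X k).X, MeasurePreserving e W.μ (X k).μ ∧ ∀ f ∈ Bdd (X k).X,
      (fun w => f (e w)) =ᵐ[W.μ] hat fun s => f (rr p k (x0 k) s.1 s.2) := by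
    intro k
    refine hN k W.X W.μ (fun f => hat fun s => f (rr p k (x0 k) s.1 s.2)) (fun w => ?_)
      (fun f hf => hat_meas R (hu k f hf)) (fun f hf => ?_)
    · exact ⟨fun c => (R.ch w).const c,
        fun f hf g hg => (R.ch w).add _ (hu k f hf) _ (hu k g hg),
        fun f hf g hg => (R.ch w).mul _ (hu k f hf) _ (hu k g hg),
        fun f hf => (R.ch w).cj _ (hu k f hf),
        fun f hf C hC => (R.ch w).bdd _ (hu k f hf) C fun s => hC _⟩
    · rw [R.int _ (hu k f hf), (cp_up hp k (x0 k) hf).lam hp]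
      simp only [rr_self]
  choose e hmp he using he
  refine ⟨W, e, R.nice, fun k => ⟨hmp k, ?_⟩, fun k => ?_, ?_⟩
  · refine b.a.keq_of _ _ _ _ fun f hf h1 => ?_
    have hf1 : f ∈ Bdd (X k).X := ⟨hf, 1, h1⟩
    have hf2 : (fun x => f ((X k).T x)) ∈ Bdd (X k).X :=
      ⟨hf.comp (X k).T.measurable, 1, fun x => h1 _⟩
    have e1 := W.mp.quasiMeasurePreserving.ae_eq_comp (he k f hf1)
    have e2 := he k _ hf2
    have e3 := cp_congr hp R ((cp_up hp k (x0 k) hf1).fwd b hp) (cp_up hp k (x0 k) hf2)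
      (fun x => by
        show f (rr p k (x0 k) k ((X k).T x)) = f ((X k).T (rr p k (x0 k) k x))
        simp only [rr_self])
    filter_upwards [e1, e2, e3] with w a1 a2 a3
    simp only [comp_apply] at a1 a2 a3 ⊢
    rw [a1, a2, ← a3, ← R.eqv _ (hu k f hf1)]
  · refine b.a.keq_of _ _ _ _ fun f hf h1 => ?_
    have hf1 : f ∈ Bdd (X k).X := ⟨hf, 1, h1⟩
    have hf2 : (fun x => f (p k x)) ∈ Bdd (X (k + 1)).X :=
      ⟨hf.comp (hp k).mp.measurable, 1, fun x => h1 _⟩
    have e3 := cp_congr hp R (cp_up hp (k + 1) (x0 (k + 1)) hf2)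
      ((cp_up hp k (x0 k) hf1).mono (Nat.le_succ k))
      (fun x => by
        show f (p k (rr p (k + 1) (x0 (k + 1)) (k + 1) x)) = f (rr p k (x0 k) (k + 1) x)
        rw [rr_succ p k (x0 k) k le_rfl, rr_self, rr_self])
    exact ((he (k + 1) _ hf2).trans e3).trans (he k f hf1).symm
  · refine R.gn.le.trans (iSup₂_le ?_)
    rintro F ⟨k, hF⟩
    refine le_iSup_of_le k ?_
    have hf1 : (fun x => F ⟨k, x⟩) ∈ Bdd (X k).X := by
      obtain ⟨C, hC⟩ := hF.bd
      exact ⟨hF.ms k, C, fun x => hC _⟩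
    have e3 := cp_congr hp R (cp_up hp k (x0 k) hf1) hF (fun x => by simp only [rr_self])
    have e4 := (he k _ hf1).trans e3
    rintro _ ⟨s, hs, rfl⟩
    refine (b.a.mem _ W.μ (hmp k).measurable.comap_le _).2
      ⟨hat_meas R ⟨k, hF⟩ hs, e k ⁻¹' ((fun x => F ⟨k, x⟩) ⁻¹' s), ⟨_, hF.ms k hs, rfl⟩, ?_⟩
    filter_upwards [e4] with w hw
    show (hat F w ∈ s) = (F ⟨k, e k w⟩ ∈ s)
    rw [← hw]

end T3x

end

end PkLim

section PkLine

/-! Existence of the limit system of the labelled families. -/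

set_option autoImplicit false
set_option linter.unusedVariables false

open MeasureTheory ProbabilityTheory Filter Topology Function Finset ComplexConjugate
open scoped BigOperators

noncomputable section

namespace T3x

namespace Line

variable (ν : Wt) (M : ℕ)

lemma av_const (c : ℂ) : ν.av M (fun _ => c) = c := by
  rw [Wt.av, ← Finset.sum_smul, ν.one, one_smul]

lemma av_add (φ ψ : ℤ → ℂ) : ν.av M (fun d => φ d + ψ d) = ν.av M φ + ν.av M ψ := by
  simp only [Wt.av, smul_add, Finset.sum_add_distrib]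

lemma av_mul (c : ℂ) (φ : ℤ → ℂ) : ν.av M (fun d => c * φ d) = c * ν.av M φ := by
  simp only [Wt.av, Finset.mul_sum, mul_smul_comm]

lemma av_mem {K : Set ℂ} (hK : Convex ℝ K) {φ : ℤ → ℂ} (h : ∀ d, φ d ∈ K) : ν.av M φ ∈ K :=
  hK.sum_mem (fun d _ => ν.nn M d) (ν.one M) fun d _ => h d

lemma av2_mem {K : Set ℂ} (hK : Convex ℝ K) {φ : Lab → ℂ} (h : ∀ d, φ d ∈ K) : ν.av2 M φ ∈ K :=
  av_mem ν M hK fun _ => av_mem ν M hK fun _ => h _

variable {X : Sys}

lemma intg {F : Lab × X.X → ℂ} (hF : F ∈ FamS X.ms) (l : Lab) :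
    Integrable (fun x => F (l, x)) X.μ := by
  obtain ⟨h, C, hC⟩ := hF
  exact Integrable.of_bound (h l).aestronglyMeasurable C (Eventually.of_forall fun x => hC _)

lemma salg : SAlg (FamS X.ms) where
  const c := ⟨fun _ => measurable_const, ‖c‖, fun _ => le_rfl⟩
  add := by
    rintro F ⟨h, C, hC⟩ G ⟨h', C', hC'⟩
    exact ⟨fun l => (h l).add (h' l), C + C', fun s =>
      (norm_add_le _ _).trans (add_le_add (hC s) (hC' s))⟩
  mul := by
    rintro F ⟨h, C, hC⟩ G ⟨h', C', hC'⟩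
    exact ⟨fun l => (h l).mul (h' l), C * C', fun s => (norm_mul_le _ _).trans
      (mul_le_mul (hC s) (hC' s) (norm_nonneg _) ((norm_nonneg _).trans (hC s)))⟩
  cj := by
    rintro F ⟨h, C, hC⟩
    exact ⟨fun l => Complex.continuous_conj.measurable.comp (h l), C, fun s => by simpa using hC s⟩
  bdd F hF := hF.2

lemma ex_lim (U : Ultrafilter ℕ) (F : Lab × X.X → ℂ) : ∃ a : ℂ, F ∈ FamS X.ms →
    Tendsto (fun M => ν.av2 M fun l => ∫ x, F (l, x) ∂X.μ) U (𝓝 a) := by
  by_cases hF : F ∈ FamS X.ms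
  · obtain ⟨C, hC⟩ := hF.2
    obtain ⟨a, -, ha⟩ := (isCompact_closedBall (0 : ℂ) C).ultrafilter_le_nhds
      (U.map fun M => ν.av2 M fun l => ∫ x, F (l, x) ∂X.μ) (by
        rw [Ultrafilter.coe_map, le_principal_iff, Filter.mem_map]
        refine Eventually.of_forall fun M => av2_mem ν M (convex_closedBall _ _) fun l => ?_
        rw [mem_closedBall_zero_iff]
        simpa using norm_integral_le_of_norm_le_const (μ := X.μ)
          (Eventually.of_forall fun x => hC (l, x)))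
    exact ⟨a, fun _ => ha⟩
  · exact ⟨0, fun h => (hF h).elim⟩

end Line

open Line

theorem line : LineR := by
  intro bas real ν U X nice
  choose Λ hΛ using ex_lim ν (X := X) U
  have A := salg (X := X)
  have uq : ∀ F ∈ FamS X.ms, ∀ a, Tendsto (fun M => ν.av2 M fun l => ∫ x, F (l, x) ∂X.μ) U (𝓝 a) →
      Λ F = a := fun F hF a h => tendsto_nhds_unique (hΛ F hF) h
  have cs : ∀ F ∈ FamS X.ms, ∀ a, (∀ l, ∫ x, F (l, x) ∂X.μ = a) → Λ F = a := fun F hF a h =>
    uq F hF a (by simp only [h, Wt.av2, av_const]; exact tendsto_const_nhds)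
  let t : Lab × X.X ≃ Lab × X.X :=
    ⟨fun s => (s.1, X.T s.2), fun s => (s.1, X.T.symm s.2), fun s => by simp, fun s => by simp⟩
  have ht : ∀ F ∈ FamS X.ms, (fun s => F (t s)) ∈ FamS X.ms := fun F hF =>
    ⟨fun l => (hF.1 l).comp X.T.measurable, hF.2.imp fun C h s => h _⟩
  obtain ⟨W, hat, R⟩ := real (Lab × X.X) (FamS X.ms) Λ t A
    (fun F hF G hG => uq _ (A.add F hF G hG) _ (by
      simp only [fun l => integral_add (intg hF l) (intg hG l), Wt.av2, av_add]
      exact (hΛ F hF).add (hΛ G hG)))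
    (fun c F hF => uq _ (A.mul _ (A.const c) F hF) _ (by
      simp only [integral_const_mul, Wt.av2, av_mul]
      exact (hΛ F hF).const_mul c))
    (cs _ (A.const 1) 1 fun l => by simp)
    (fun F hF h => by
      have hK : Convex ℝ {z : ℂ | 0 ≤ z.re ∧ z.im = 0} :=
        (convex_halfSpace_re_ge 0).inter (convex_hyperplane (IsLinearMap.mk Complex.add_im
          Complex.smul_im) 0)
      have hc : IsClosed {z : ℂ | 0 ≤ z.re ∧ z.im = 0} :=
        (isClosed_le continuous_const Complex.continuous_re).inter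
          (isClosed_eq Complex.continuous_im continuous_const)
      refine hc.mem_of_tendsto (hΛ F hF) (Eventually.of_forall fun M => av2_mem ν M hK fun l => ?_)
      have h1 := integral_re (intg hF l)
      have h2 := integral_im (intg hF l)
      simp only [RCLike.re_to_complex, RCLike.im_to_complex] at h1 h2
      refine ⟨h1 ▸ integral_nonneg fun x => (h _).1, h2 ▸ ?_⟩
      simp only [(h _).2, integral_zero])
    ht (fun F hF => ⟨fun l => (hF.1 l).comp X.T.symm.measurable, hF.2.imp fun C h s => h _⟩)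
    (fun F hF => uq _ (ht F hF) _ (by
      have : ∀ l, ∫ x, F (t (l, x)) ∂X.μ = ∫ x, F (l, x) ∂X.μ := fun l =>
        X.mp.integral_comp' fun x => F (l, x)
      simp only [this]
      exact hΛ F hF))
  have up : ∀ (s : Slot), ∀ f ∈ Bdd X.X,
      (fun z : Lab × X.X => f (X.Tz (rho s z.1) z.2)) ∈ FamS X.ms := fun s f hf =>
    ⟨fun l => hf.1.comp (bas.t.mp X (rho s l)).measurable, hf.2.imp fun C h z => h _⟩
  have ms : ∀ F ∈ FamS X.ms, Measurable (hat F) := fun F hF =>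
    measurable_iff_comap_le.2 (le_of_le_of_eq (le_iSup₂ (f := fun F (_ : F ∈ FamS X.ms) =>
      MeasurableSpace.comap (hat F) inferInstance) F hF) R.gn.symm)
  have sl : ∀ s : Slot, ∃ p : W.X → X.X, MeasurePreserving p W.μ X.μ ∧ ∀ f ∈ Bdd X.X,
      (fun w => f (p w)) =ᵐ[W.μ] hat fun z => f (X.Tz (rho s z.1) z.2) := fun s =>
    nice W.X W.μ (fun f => hat fun z => f (X.Tz (rho s z.1) z.2))
      (fun w => ⟨(R.ch w).const, fun F hF G hG => (R.ch w).add _ (up s F hF) _ (up s G hG),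
        fun F hF G hG => (R.ch w).mul _ (up s F hF) _ (up s G hG),
        fun F hF => (R.ch w).cj _ (up s F hF),
        fun F hF C h => (R.ch w).bdd _ (up s F hF) C fun z => h _⟩)
      (fun f hf => ms _ (up s f hf)) fun f hf => by
        rw [R.int _ (up s f hf)]
        refine cs _ (up s f hf) _ fun l => ?_
        have h := bas.t.mp X (rho s l)
        rw [← integral_map h.measurable.aemeasurable hf.1.aestronglyMeasurable, h.map_eq]
  choose π hπ hs using sl
  refine ⟨⟨W, hat, π, R.nice, R.ch, R.all, R.gn, fun F hF => R.int F hF ▸ hΛ F hF, R.eqv,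
    fun s => ⟨hπ s, bas.a.keq_of _ _ _ _ fun f hf hb => ?_⟩, hs⟩⟩
  have h1 : f ∈ Bdd X.X := ⟨hf, 1, hb⟩
  have h2 : (fun x => f (X.T x)) ∈ Bdd X.X := ⟨hf.comp X.T.measurable, 1, fun x => hb _⟩
  filter_upwards [W.mp.quasiMeasurePreserving.ae_eq_comp (hs s f h1), hs s _ h2] with w e1 e2
  refine e1.trans (Eq.trans ?_ e2.symm)
  refine (R.eqv _ (up s f h1) w).symm.trans ?_
  congr 1
  funext z
  change f (X.Tz (rho s z.1) (X.T z.2)) = _
  rw [← bas.t.one, ← bas.t.one, ← bas.t.add, ← bas.t.add, add_comm]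

end T3x

end

end PkLine

section PkLfA

/-! Lifts of embeddings to the lines. -/

set_option autoImplicit false
set_option linter.unusedVariables false
set_option warn.classDefReducibility false

open MeasureTheory ProbabilityTheory Filter Topology Function Finset ComplexConjugate
open scoped BigOperators ENNReal NNReal

noncomputable section

namespace T3x

namespace LfAx

/-- the sets whose two preimages agree up to null sets -/
def ks {Ω Ω' : Type} {m0 : MeasurableSpace Ω} (μ : Measure Ω) (a a' : Ω → Ω') :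
    MeasurableSpace Ω' where
  MeasurableSet' A := a ⁻¹' A =ᵐ[μ] a' ⁻¹' A
  measurableSet_empty := by simp
  measurableSet_compl A h := by simpa using h.compl
  measurableSet_iUnion f h := by
    simp only [Set.preimage_iUnion]
    exact Filter.EventuallyEq.countable_iUnion h

lemma keq_gen {Ω W S : Type} {m0 : MeasurableSpace Ω} (μ : Measure Ω) (A : Set (S → ℂ))
    (hat : (S → ℂ) → W → ℂ) (a a' : Ω → W)
    (h : ∀ F ∈ A, (fun x => hat F (a x)) =ᵐ[μ] fun x => hat F (a' x)) :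
    KEq μ (gen A hat) a a' := by
  have h1 : gen A hat ≤ ks μ a a' := by
    refine iSup₂_le fun F hF => ?_
    rintro _ ⟨E, hE, rfl⟩
    change a ⁻¹' (hat F ⁻¹' E) =ᵐ[μ] a' ⁻¹' (hat F ⁻¹' E)
    refine eventuallyEq_set.2 ((h F hF).mono fun x hx => ?_)
    simp only [Set.mem_preimage] at hx ⊢
    rw [hx]
  exact fun E hE => h1 E hE

lemma meas_gen {W S : Type} (A : Set (S → ℂ)) (hat : (S → ℂ) → W → ℂ) {F : S → ℂ} (hF : F ∈ A) :
    Measurable[gen A hat] (hat F) :=
  measurable_iff_comap_le.2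
    (le_iSup₂ (f := fun F (_ : F ∈ A) => MeasurableSpace.comap (hat F) inferInstance) F hF)

/-- two probability measures that agree on a generating algebra are equal -/
lemma ext_gen (hb : Bas) {W S : Type} [m : MeasurableSpace W] (A : Set (S → ℂ)) (hA : SAlg A)
    (hat : (S → ℂ) → W → ℂ) (ch : ∀ w, IsChar A fun F => hat F w) (gn : m = gen A hat)
    (μ1 μ2 : Measure W) [IsProbabilityMeasure μ1] [IsProbabilityMeasure μ2]
    (h : ∀ F ∈ A, ∫ w, hat F w ∂μ1 = ∫ w, hat F w ∂μ2) : μ1 = μ2 := by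
  have hm : ∀ F ∈ A, Measurable (hat F) := fun F hF => by
    have := meas_gen A hat hF
    rwa [← gn] at this
  have hbd : ∀ F ∈ A, ∃ C : ℝ, ∀ w, ‖hat F w‖ ≤ C := fun F hF => by
    obtain ⟨C, hC⟩ := hA.bdd F hF
    exact ⟨C, fun w => (ch w).bdd F hF C hC⟩
  set κ : Measure W := (2⁻¹ : ℝ≥0∞) • (μ1 + μ2) with hκ
  have : IsProbabilityMeasure κ := ⟨by
    simp only [hκ, Measure.smul_apply, Measure.add_apply, measure_univ, smul_eq_mul]
    rw [one_add_one_eq_two]
    exact ENNReal.inv_mul_cancel (by norm_num) (by norm_num)⟩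
  have a0 : μ1 + μ2 ≪ κ := Measure.absolutelyContinuous_smul (by norm_num)
  have a1 : μ1 ≪ κ := (Measure.absolutelyContinuous_of_le (Measure.le_add_right le_rfl)).trans a0
  have a2 : μ2 ≪ κ := (Measure.absolutelyContinuous_of_le (Measure.le_add_left le_rfl)).trans a0
  set g : W → ℂ := fun w => (((μ1.rnDeriv κ w).toReal : ℝ) : ℂ) - (((μ2.rnDeriv κ w).toReal : ℝ) : ℂ)
    with hg
  have i1 : Integrable (fun w => (((μ1.rnDeriv κ w).toReal : ℝ) : ℂ)) κ :=
    (Measure.integrable_toReal_rnDeriv (μ := μ1) (ν := κ)).ofReal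
  have i2 : Integrable (fun w => (((μ2.rnDeriv κ w).toReal : ℝ) : ℂ)) κ :=
    (Measure.integrable_toReal_rnDeriv (μ := μ2) (ν := κ)).ofReal
  have gi : Integrable g κ := i1.sub i2
  have e : gen (hat '' A) id ⊔ nul κ = m := by
    refine le_antisymm (sup_le ?_ (hb.a.nul_le κ)) (le_sup_of_le_left ?_)
    · refine iSup₂_le ?_
      rintro _ ⟨F, hF, rfl⟩
      exact measurable_iff_comap_le.1 (hm F hF)
    · rw [gn]
      refine iSup₂_le fun F hF => ?_
      exact measurable_iff_comap_le.1 (meas_gen (hat '' A) id ⟨F, hF, rfl⟩)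
  have key := hb.d.perp κ (hat '' A) ?_ ?_ ?_ ?_ g gi ?_
  · rw [e] at key
    have k2 : g =ᵐ[κ] 0 :=
      (condExp_of_aestronglyMeasurable' le_rfl gi.aestronglyMeasurable gi).symm.trans key
    have k3 : μ1.rnDeriv κ =ᵐ[κ] μ2.rnDeriv κ := by
      filter_upwards [k2, Measure.rnDeriv_lt_top μ1 κ, Measure.rnDeriv_lt_top μ2 κ] with w h0 h1 h2
      have h3 : (μ1.rnDeriv κ w).toReal = (μ2.rnDeriv κ w).toReal := by
        have h4 : g w = 0 := h0
        rw [hg] at h4
        exact_mod_cast sub_eq_zero.1 h4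
      exact (ENNReal.toReal_eq_toReal_iff' h1.ne h2.ne).1 h3
    rw [← Measure.withDensity_rnDeriv_eq μ1 κ a1, ← Measure.withDensity_rnDeriv_eq μ2 κ a2]
    exact withDensity_congr_ae k3
  · rintro _ ⟨F, hF, rfl⟩
    exact ⟨hm F hF, hbd F hF⟩
  · exact ⟨_, ⟨_, hA.const 1, rfl⟩, Eventually.of_forall fun w => (ch w).const 1⟩
  · rintro _ ⟨F, hF, rfl⟩ _ ⟨G, hG, rfl⟩
    exact ⟨_, ⟨_, hA.mul F hF G hG, rfl⟩, Eventually.of_forall fun w => (ch w).mul F hF G hG⟩
  · rintro _ ⟨F, hF, rfl⟩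
    exact ⟨_, ⟨_, hA.cj F hF, rfl⟩, Eventually.of_forall fun w => (ch w).cj F hF⟩
  · rintro _ ⟨F, hF, rfl⟩
    obtain ⟨C, hC⟩ := hbd F hF
    have j1 := i1.mul_bdd (hm F hF).aestronglyMeasurable (Eventually.of_forall hC)
    have j2 := i2.mul_bdd (hm F hF).aestronglyMeasurable (Eventually.of_forall hC)
    have r1 := integral_rnDeriv_smul (f := hat F) a1
    have r2 := integral_rnDeriv_smul (f := hat F) a2
    simp only [Complex.real_smul] at r1 r2
    simp only [hg, sub_mul]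
    rw [integral_sub j1 j2, r1, r2, h F hF, sub_self]

lemma salg {Ω : Type} (B : MeasurableSpace Ω) : SAlg (FamS B) where
  const c := ⟨fun l => measurable_const, ‖c‖, fun _ => le_rfl⟩
  add := by
    rintro F ⟨h1, C, hC⟩ G ⟨h2, D, hD⟩
    exact ⟨fun l => (h1 l).add (h2 l), C + D, fun s => (norm_add_le _ _).trans
      (add_le_add (hC s) (hD s))⟩
  mul := by
    rintro F ⟨h1, C, hC⟩ G ⟨h2, D, hD⟩
    refine ⟨fun l => (h1 l).mul (h2 l), C * D, fun s => ?_⟩
    rw [norm_mul]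
    exact mul_le_mul (hC s) (hD s) (norm_nonneg _) ((norm_nonneg _).trans (hC s))
  cj := by
    rintro F ⟨h1, C, hC⟩
    exact ⟨fun l => Complex.continuous_conj.measurable.comp (h1 l), C, fun s => by
      simpa using hC s⟩
  bdd F hF := hF.2

lemma fam_comp {Ω Ω' : Type} {B : MeasurableSpace Ω} {B' : MeasurableSpace Ω'} {p : Ω' → Ω}
    (hp : Measurable[B', B] p) {F : Lab × Ω → ℂ} (hF : F ∈ FamS B) :
    (fun z : Lab × Ω' => F (z.1, p z.2)) ∈ FamS B' := by
  obtain ⟨h1, C, hC⟩ := hF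
  exact ⟨fun l => (h1 l).comp hp, C, fun s => hC _⟩

lemma fam_mono {Ω : Type} {B B' : MeasurableSpace Ω} (h : B ≤ B') {F : Lab × Ω → ℂ}
    (hF : F ∈ FamS B) : F ∈ FamS B' :=
  ⟨fun l => (hF.1 l).mono h le_rfl, hF.2⟩

lemma hat_meas {ν : Wt} {U : Ultrafilter ℕ} {X : Sys} (L : Ln ν U X) {F : Lab × X.X → ℂ}
    (hF : F ∈ FamS X.ms) : Measurable (L.hat F) := by
  have := meas_gen (FamS X.ms) L.hat hF
  rwa [← L.gn] at this

/-- families pulled back along equivalent maps have the same internal function -/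
lemma hat_keq (hb : Bas) (hl : LfB) {ν : Wt} {U : Ultrafilter ℕ} {X' : Sys} (L' : Ln ν U X')
    {Ω : Type} {m : MeasurableSpace Ω} (μ : Measure Ω) (a a' : Lab → X'.X → Ω)
    (ha : ∀ l, MeasurePreserving (a l) X'.μ μ) (ha' : ∀ l, MeasurePreserving (a' l) X'.μ μ)
    (hk : ∀ l, KEq X'.μ m (a l) (a' l)) {F : Lab × Ω → ℂ} (hF : F ∈ FamS m) :
    L'.hat (fun z => F (z.1, a z.1 z.2)) =ᵐ[L'.W.μ] L'.hat (fun z => F (z.1, a' z.1 z.2)) := by
  obtain ⟨h1, C, hC⟩ := hF
  refine hl.congr L' _ ⟨fun l => (h1 l).comp (ha l).measurable, C, fun s => hC _⟩ _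
    ⟨fun l => (h1 l).comp (ha' l).measurable, C, fun s => hC _⟩ fun l => ?_
  exact hb.a.keq_fun m X'.μ μ (a l) (a' l) (fun x => F (l, x)) (ha l) (ha' l) (hk l)
    (h1 l).aestronglyMeasurable

lemma ex (hb : Bas) (hl : LfB) {ν : Wt} {U : Ultrafilter ℕ} {X' X : Sys} (L' : Ln ν U X')
    (L : Ln ν U X) (p : X'.X → X.X) (hp : Emb X' X p) : ∃ Lp, IsLift L' L p Lp := by
  have hc : ∀ F ∈ FamS X.ms, (fun z : Lab × X'.X => F (z.1, p z.2)) ∈ FamS X'.ms :=
    fun F hF => fam_comp hp.mp.measurable hF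
  have hch : ∀ w', IsChar (FamS X.ms) fun F => L'.hat (fun z => F (z.1, p z.2)) w' := fun w' =>
    { const := fun c => (L'.ch w').const c
      add := fun F hF G hG => (L'.ch w').add _ (hc F hF) _ (hc G hG)
      mul := fun F hF G hG => (L'.ch w').mul _ (hc F hF) _ (hc G hG)
      cj := fun F hF => (L'.ch w').cj _ (hc F hF)
      bdd := fun F hF C hC => (L'.ch w').bdd _ (hc F hF) C fun s => hC _ }
  choose Lp hLp using fun w' => L.all _ (hch w')
  have hm : Measurable Lp := by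
    refine measurable_iff_comap_le.2 ?_
    have e : MeasurableSpace.comap Lp L.W.ms = MeasurableSpace.comap Lp (gen (FamS X.ms) L.hat) :=
      congrArg _ L.gn
    refine e.trans_le ?_
    simp only [gen, MeasurableSpace.comap_iSup, MeasurableSpace.comap_comp]
    refine iSup₂_le fun F hF => ?_
    have e2 : L.hat F ∘ Lp = L'.hat fun z => F (z.1, p z.2) := funext fun w => hLp w F hF
    rw [e2]
    exact measurable_iff_comap_le.1 (hat_meas L' (hc F hF))
  have hmp : MeasurePreserving Lp L'.W.μ L.W.μ := by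
    refine ⟨hm, ?_⟩
    have : IsProbabilityMeasure (L'.W.μ.map Lp) := Measure.isProbabilityMeasure_map hm.aemeasurable
    refine ext_gen hb (FamS X.ms) (salg _) L.hat L.ch L.gn _ _ fun F hF => ?_
    rw [integral_map hm.aemeasurable (hat_meas L hF).aestronglyMeasurable]
    have e2 : (fun w => L.hat F (Lp w)) = L'.hat fun z => F (z.1, p z.2) :=
      funext fun w => hLp w F hF
    rw [e2]
    have t1 := L'.lim _ (hc F hF)
    have t2 := L.lim F hF
    have e3 : (fun M => ν.av2 M fun l => ∫ x, F (l, p x) ∂X'.μ) =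
        fun M => ν.av2 M fun l => ∫ x, F (l, x) ∂X.μ := by
      funext M
      congr 1
      funext l
      rw [← hp.mp.map_eq, integral_map hp.mp.measurable.aemeasurable
        (hF.1 l).aestronglyMeasurable]
    exact tendsto_nhds_unique (e3 ▸ t1) t2
  refine ⟨Lp, ⟨hmp, ?_⟩, fun F hF => Eventually.of_forall fun w => hLp w F hF⟩
  have k := keq_gen L'.W.μ (FamS X.ms) L.hat (Lp ∘ L'.W.T) (L.W.T ∘ Lp) fun F hF => ?_
  · rwa [← L.gn] at k
  have hT : (fun s : Lab × X.X => F (s.1, X.T s.2)) ∈ FamS X.ms := fam_comp X.T.measurable hF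
  have k2 := hat_keq hb hl L' X.μ (fun _ => p ∘ X'.T) (fun _ => X.T ∘ p)
    (fun _ => hp.mp.comp X'.mp) (fun _ => X.mp.comp hp.mp) (fun _ => hp.eqv) hF
  refine k2.mono fun w hw => ?_
  simp only [Function.comp_apply] at hw ⊢
  rw [hLp _ F hF, ← L'.eqv _ (hc F hF), ← L.eqv F hF, hLp _ _ hT]
  exact hw

lemma slot (hb : Bas) (hl : LfB) {ν : Wt} {U : Ultrafilter ℕ} {X' X : Sys} (L' : Ln ν U X')
    (L : Ln ν U X) (p : X'.X → X.X) (Lp : L'.W.X → L.W.X) (s : Slot) (hp : Emb X' X p)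
    (h : IsLift L' L p Lp) : KEq L'.W.μ X.ms (L.π s ∘ Lp) (p ∘ L'.π s) := by
  refine hb.a.keq_of X.ms L'.W.μ _ _ fun f hf hf1 => ?_
  have f1 : f ∈ Bdd X.X := ⟨hf, 1, hf1⟩
  have f2 : (fun x => f (p x)) ∈ Bdd X'.X := ⟨hf.comp hp.mp.measurable, 1, fun x => hf1 _⟩
  have f3 : (fun z : Lab × X.X => f (X.Tz (rho s z.1) z.2)) ∈ FamS X.ms :=
    ⟨fun l => hf.comp (hb.t.mp X (rho s l)).measurable, 1, fun z => hf1 _⟩
  have f4 : (fun z : Lab × X.X => f z.2) ∈ FamS X.ms := ⟨fun l => hf, 1, fun z => hf1 _⟩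
  have k1 := h.emb.mp.quasiMeasurePreserving.ae_eq_comp (L.slot s f f1)
  have k2 := h.hat _ f3
  have k3 := hat_keq hb hl L' X.μ (fun l => p ∘ X'.Tz (rho s l)) (fun l => X.Tz (rho s l) ∘ p)
    (fun l => hp.mp.comp (hb.t.mp X' _)) (fun l => (hb.t.mp X _).comp hp.mp)
    (fun l => hb.t.emb_z X' X p _ hp) f4
  have k4 := L'.slot s _ f2
  filter_upwards [k1, k2, k3, k4] with w h1 h2 h3 h4
  simp only [Function.comp_apply] at h1 h2 h3 h4 ⊢
  rw [h1, h2, h4]
  exact h3.symm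

lemma shp (hb : Bas) {ν : Wt} {U : Ultrafilter ℕ} {X' X : Sys} (L' : Ln ν U X')
    (L : Ln ν U X) (p : X'.X → X.X) (Lp : L'.W.X → L.W.X) (B : MeasurableSpace X.X)
    (B' : MeasurableSpace X'.X) (h : IsLift L' L p Lp) (hB : Fac X B) (hB' : Fac X' B')
    (hle : pull X'.μ p B ≤ B') : pull L'.W.μ Lp (L.shp B) ≤ L'.shp B' := by
  have g1 : gen (FamS B') L'.hat ≤ L'.W.ms := iSup₂_le fun F hF =>
    measurable_iff_comap_le.1 (hat_meas L' (fam_mono hB'.le hF))
  have hp : Measurable[B', B] p := measurable_iff_comap_le.2 (le_sup_left.trans hle)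
  refine sup_le ?_ le_sup_right
  rw [Ln.shp, MeasurableSpace.comap_sup]
  refine sup_le ?_ (le_sup_of_le_right ?_)
  · simp only [gen, MeasurableSpace.comap_iSup, MeasurableSpace.comap_comp]
    refine iSup₂_le fun F hF => ?_
    rintro _ ⟨E, hE, rfl⟩
    have F0 := fam_mono hB.le hF
    refine (hb.a.mem _ L'.W.μ g1 _).2 ⟨((hat_meas L F0).comp h.emb.mp.measurable) hE,
      _, meas_gen (FamS B') L'.hat (fam_comp hp hF) hE, ?_⟩
    refine eventuallyEq_set.2 ((h.hat F F0).mono fun w hw => ?_)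
    simp only [Set.mem_preimage, Function.comp_apply] at hw ⊢
    rw [hw]
  · rw [nul, MeasurableSpace.comap_generateFrom]
    refine MeasurableSpace.generateFrom_mono ?_
    rintro _ ⟨A, ⟨h1, h2⟩, rfl⟩
    exact ⟨h.emb.mp.measurable h1, by rw [h.emb.mp.measure_preimage h1.nullMeasurableSet, h2]⟩

end LfAx

theorem lfA : LfAR := fun hb hl =>
  { ex := fun L' L p hp => LfAx.ex hb hl L' L p hp
    slot := fun L' L p Lp s hp h => LfAx.slot hb hl L' L p Lp s hp h
    shp := fun L' L p Lp B B' _ h hB hB' hle => LfAx.shp hb L' L p Lp B B' h hB hB' hle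
    uniq := by
      intro ν U X' X L' L p p' Lp Lp' hp hp' hk h h'
      have k := LfAx.keq_gen L'.W.μ (FamS X.ms) L.hat Lp Lp' fun F hF =>
        (h.hat F hF).trans ((LfAx.hat_keq hb hl L' X.μ (fun _ => p) (fun _ => p')
          (fun _ => hp.mp) (fun _ => hp'.mp) (fun _ => hk) hF).trans (h'.hat F hF).symm)
      rwa [← L.gn] at k
    comp := by
      intro ν U X'' X' X L'' L' L q p Lq Lp hq hp h1 h2
      refine ⟨hb.t.emb_comp _ _ _ _ _ h1.emb h2.emb, fun F hF => ?_⟩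
      have k1 := h1.emb.mp.quasiMeasurePreserving.ae_eq_comp (h2.hat F hF)
      have k2 := h1.hat _ (LfAx.fam_comp hp.mp.measurable hF)
      exact k1.trans k2 }

end T3x

end

end PkLfA

section PkLfC

/-! Internal sets of a line. -/

set_option autoImplicit false
set_option linter.unusedVariables false
set_option warn.classDefReducibility false

open MeasureTheory Filter Topology Function

noncomputable section

namespace T3x

namespace LfC

variable {ν : Wt} {U : Ultrafilter ℕ} {X : Sys} (L : Ln ν U X)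

/-- the indicator of a family of sets -/
def ind {Ω : Type} (A : Lab → Set Ω) : Lab × Ω → ℂ :=
  fun z => (A z.1).indicator (fun _ => (1 : ℂ)) z.2

theorem ind_mem {Ω : Type} {B : MeasurableSpace Ω} {A : Lab → Set Ω}
    (h : ∀ l, MeasurableSet[B] (A l)) : ind A ∈ FamS B :=
  ⟨fun l => measurable_const.indicator (h l), 1, fun s => by
    unfold ind
    by_cases e : s.2 ∈ A s.1 <;> simp [e]⟩

theorem fam_mono {Ω : Type} {B C : MeasurableSpace Ω} (h : B ≤ C) {F : Lab × Ω → ℂ}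
    (hF : F ∈ FamS B) : F ∈ FamS C := ⟨fun l => (hF.1 l).mono h le_rfl, hF.2⟩

variable {A A' : Lab → Set X.X}

theorem hsInd (h : ∀ l, MeasurableSet (A l)) (w : L.W.X) :
    L.hat (ind A) w = (L.hs A).indicator (fun _ => (1 : ℂ)) w := by
  by_cases e : w ∈ L.hs A
  · rw [Set.indicator_of_mem e]
    exact e
  rw [Set.indicator_of_notMem e]
  have h1 := (L.ch w).mul _ (ind_mem h) _ (ind_mem h)
  rw [show (fun s => ind A s * ind A s) = ind A from funext fun s => by
    unfold ind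
    by_cases e : s.2 ∈ A s.1 <;> simp [e]] at h1
  exact by_contra fun h0 => e (mul_left_cancel₀ h0 ((mul_one _).trans h1)).symm

theorem hsMeas (B : MeasurableSpace X.X) (h : ∀ l, MeasurableSet[B] (A l)) :
    MeasurableSet[gen (FamS B) L.hat] (L.hs A) :=
  (le_iSup₂ (f := fun F (_ : F ∈ FamS B) => MeasurableSpace.comap (L.hat F) inferInstance)
    (ind A) (ind_mem h)) _ ⟨{1}, measurableSet_singleton _, rfl⟩

theorem hsMeas' (h : ∀ l, MeasurableSet (A l)) : MeasurableSet (L.hs A) :=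
  L.gn.ge _ (hsMeas L X.ms h)

theorem hsLim (h : ∀ l, MeasurableSet (A l)) :
    Tendsto (fun M => ν.av2 M fun l => X.μ.real (A l)) U (𝓝 (L.W.μ.real (L.hs A))) := by
  have h1 := (Complex.continuous_re.tendsto _).comp (L.lim _ (ind_mem h))
  rw [show L.hat (ind A) = _ from funext (hsInd L h), integral_indicator_const _ (hsMeas' L h)] at h1
  have h2 : ∀ l, ∫ x, ind A (l, x) ∂X.μ = (X.μ.real (A l) : ℂ) := fun l =>
    (integral_indicator_const _ (h l)).trans (by simp)
  simpa [h2, Wt.av2, Wt.av, Function.comp_def, Finset.mul_sum] using h1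

theorem hsInter (h : ∀ l, MeasurableSet (A l)) (h' : ∀ l, MeasurableSet (A' l)) :
    L.hs (fun l => A l ∩ A' l) = L.hs A ∩ L.hs A' := by
  ext w
  have h1 := (L.ch w).mul _ (ind_mem h) _ (ind_mem h')
  rw [show (fun s => ind A s * ind A' s) = ind fun l => A l ∩ A' l from funext fun s => by
    unfold ind
    by_cases e : s.2 ∈ A s.1 <;> by_cases e' : s.2 ∈ A' s.1 <;> simp [e, e']] at h1
  change L.hat (ind fun l => A l ∩ A' l) w = 1 ↔ _
  rw [h1, hsInd L h, hsInd L h']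
  by_cases e : w ∈ L.hs A <;> by_cases e' : w ∈ L.hs A' <;> simp [e, e']

theorem hsCompl (h : ∀ l, MeasurableSet (A l)) : L.hs (fun l => (A l)ᶜ) = (L.hs A)ᶜ := by
  ext w
  have h1 := (L.ch w).add _ (ind_mem fun l => (h l).compl) _ (ind_mem h)
  rw [show (fun s => ind (fun l => (A l)ᶜ) s + ind A s) = fun _ => 1 from funext fun s => by
    unfold ind
    by_cases e : s.2 ∈ A s.1 <;> simp [e], (L.ch w).const, hsInd L h] at h1
  change L.hat (ind fun l => (A l)ᶜ) w = 1 ↔ _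
  rw [← sub_eq_iff_eq_add.2 h1]
  by_cases e : w ∈ L.hs A <;> simp [e]

theorem hsSd (h : ∀ l, MeasurableSet (A l)) (h' : ∀ l, MeasurableSet (A' l)) :
    L.hs (fun l => symmDiff (A l) (A' l)) = symmDiff (L.hs A) (L.hs A') := by
  have e : ∀ {α : Type} (s t : Set α), symmDiff s t = ((s ∩ tᶜ)ᶜ ∩ (t ∩ sᶜ)ᶜ)ᶜ := fun s t => by
    ext x
    simp only [Set.mem_symmDiff, Set.mem_compl_iff, Set.mem_inter_iff]
    tauto
  have a := fun l => (h l).inter (h' l).compl
  have a' := fun l => (h' l).inter (h l).compl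
  simp only [e]
  rw [hsCompl L fun l => (a l).compl.inter (a' l).compl,
    hsInter L (fun l => (a l).compl) fun l => (a' l).compl, hsCompl L a, hsCompl L a',
    hsInter L h fun l => (h' l).compl, hsInter L h' fun l => (h l).compl, hsCompl L h, hsCompl L h']

theorem hatT (t : BasT) {F : Lab × X.X → ℂ} (hF : F ∈ FamS X.ms) (n : ℤ) :
    ∀ w, L.hat (fun s => F (s.1, X.Tz n s.2)) w = L.hat F (L.W.Tz n w) := by
  have key : ∀ (n : ℤ) w, L.hat (fun s => F (s.1, X.Tz (n + 1) s.2)) w =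
      L.hat (fun s => F (s.1, X.Tz n s.2)) (L.W.T w) := fun n w => by
    rw [← L.eqv (fun s => F (s.1, X.Tz n s.2)) ⟨fun l => (hF.1 l).comp (t.mp X n).measurable,
      hF.2.imp fun C hC s => hC _⟩]
    simp only [t.add, t.one]
  induction n using Int.induction_on with
  | zero => simp only [t.zero, implies_true]
  | succ n ih => exact fun w => by rw [key, ih, t.add, t.one]
  | pred n ih =>
    intro w
    have h1 := key (-n - 1) (L.W.Tz (-1) w)
    rw [sub_add_cancel, ih, ← t.one, ← t.add, ← t.add, add_neg_cancel, t.zero] at h1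
    exact h1.symm

/-- a bound on the members of a family is a bound on the internal set -/
theorem loc (h : ∀ l, MeasurableSet (A l)) {F : Lab × X.X → ℂ} (hF : F ∈ FamS X.ms) {C : ℝ}
    (h0 : 0 ≤ C) (hC : ∀ z : Lab × X.X, z.2 ∈ A z.1 → ‖F z‖ ≤ C) {w : L.W.X} (hw : w ∈ L.hs A) :
    ‖L.hat F w‖ ≤ C := by
  have b : ∀ s, ‖F s * ind A s‖ ≤ C := fun s => by
    unfold ind
    by_cases e : s.2 ∈ A s.1 <;> simp [e, h0, hC]
  have h1 := (L.ch w).bdd (fun s => F s * ind A s)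
    ⟨fun l => (hF.1 l).mul ((ind_mem h).1 l), C, b⟩ C b
  rwa [(L.ch w).mul _ hF _ (ind_mem h), show L.hat (ind A) w = 1 from hw, mul_one] at h1

theorem apx (h : LfB) (B : MeasurableSpace X.X) (hB : Fac X B) {E : Set L.W.X}
    (hE : MeasurableSet[L.shp B] E) {ε : ℝ} (hε : 0 < ε) : ∃ A : Lab → Set X.X,
      (∀ l, MeasurableSet[B] (A l)) ∧ L.W.μ.real (symmDiff E (L.hs A)) ≤ ε := by
  have b1 : ∀ w, ‖E.indicator (fun _ => (1 : ℂ)) w‖ ≤ 1 := fun w => by
    by_cases e : w ∈ E <;> simp [e]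
  obtain ⟨F, hF, h1, h2⟩ := h.apx L B hB (E.indicator fun _ => 1) 1 (1 / 4 * ε) zero_le_one
    (by positivity) (stronglyMeasurable_const.indicator hE).aestronglyMeasurable
    (Eventually.of_forall b1)
  have hF' := fam_mono hB.le hF
  have m : ∀ l, MeasurableSet[B] {x | 1 / 2 < ‖F (l, x)‖} := fun l =>
    measurableSet_lt measurable_const (hF.1 l).norm
  have m' := fun l => hB.le _ (m l)
  refine ⟨_, m, ?_⟩
  have mF : Measurable (L.hat F) := fun s hs => L.gn.ge _
    ((le_iSup₂ (f := fun F (_ : F ∈ FamS X.ms) => MeasurableSpace.comap (L.hat F) inferInstance)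
      F hF') _ ⟨s, hs, rfl⟩)
  have hi : Integrable (fun w => ‖E.indicator (fun _ => (1 : ℂ)) w - L.hat F w‖ ^ 2) L.W.μ := by
    refine Integrable.of_bound (((measurable_const.indicator ((h.fac L B hB).le _ hE)).sub
      mF).norm.pow_const 2).aestronglyMeasurable (2 ^ 2) (Eventually.of_forall fun w => ?_)
    rw [norm_pow, norm_norm]
    gcongr
    linarith [norm_sub_le (E.indicator (fun _ => (1 : ℂ)) w) (L.hat F w), b1 w,
      (L.ch w).bdd F hF' 1 h1]
  have h3 := (mul_meas_ge_le_integral_of_nonneg (Eventually.of_forall fun w => sq_nonneg _) hi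
    (1 / 4)).trans h2
  refine (measureReal_mono fun w hw => ?_).trans (le_of_mul_le_mul_left h3 (by norm_num))
  change 1 / 4 ≤ ‖_‖ ^ 2
  rw [show (1 / 4 : ℝ) = (1 / 2) ^ 2 by norm_num]
  gcongr
  rcases hw with ⟨e, e'⟩ | ⟨e', e⟩
  · have := loc L (fun l => (m' l).compl) hF' (C := 1 / 2) (by norm_num) (fun z hz => not_lt.1 hz)
      (w := w) (hsCompl L m' ▸ e')
    have h4 := norm_sub_norm_le (1 : ℂ) (L.hat F w)
    rw [Set.indicator_of_mem e]
    rw [norm_one] at h4
    linarith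
  · have hG : (fun z => (‖F z‖ : ℂ)) ∈ FamS X.ms :=
      fam_mono hB.le ⟨fun l => Complex.measurable_ofReal.comp (hF.1 l).norm, 1, fun s => by
        simpa using h1 s⟩
    have hc : (fun _ => (-1 : ℂ)) ∈ FamS X.ms := ⟨fun l => measurable_const, 1, fun s => by simp⟩
    have := loc L m' (F := fun z => (‖F z‖ : ℂ) + -1) ⟨fun l => (hG.1 l).add (hc.1 l), 2, fun s =>
      (norm_add_le _ _).trans (by simp; linarith [h1 s])⟩ (C := 1 / 2) (by norm_num) (fun z hz => by
        have h5 : 1 / 2 < ‖F z‖ := hz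
        rw [← Complex.ofReal_one, ← Complex.ofReal_neg, ← Complex.ofReal_add, Complex.norm_real,
          Real.norm_eq_abs, abs_le]
        constructor <;> linarith [h1 z]) e'
    rw [(L.ch w).add _ hG _ hc, (L.ch w).const, h.nrm L F hF', ← Complex.ofReal_one,
      ← Complex.ofReal_neg, ← Complex.ofReal_add, Complex.norm_real, Real.norm_eq_abs,
      abs_le] at this
    rw [Set.indicator_of_notMem e, zero_sub, norm_neg]
    linarith [this.1]

theorem sat (h : LfB) (B : MeasurableSpace X.X) (hU : (U : Filter ℕ) ≤ atTop) (hB : Fac X B)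
    (E : Set L.W.X) (hE : MeasurableSet[L.shp B] E) :
    ∃ A : Lab → Set X.X, (∀ l, MeasurableSet[B] (A l)) ∧ E =ᵐ[L.W.μ] L.hs A := by
  classical
  have pos : ∀ k : ℕ, 0 < 1 / ((k : ℝ) + 1) := fun k => by positivity
  choose A m hA using fun k : ℕ => apx L h B hB hE (pos k)
  have m' := fun k l => hB.le _ (m k l)
  let P : ℕ → ℕ → Prop := fun M n => ∀ j ≤ n,
    (ν.av2 M fun l => X.μ.real (symmDiff (A j l) (A n l))) < 3 * (1 / ((j : ℝ) + 1))
  have hP : ∀ n, ∀ᶠ M in (U : Filter ℕ), P M n := fun n => by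
    refine (eventually_all_finite (Set.finite_Iic n)).2 fun j hj => ?_
    refine (hsLim L fun l => (m' j l).symmDiff (m' n l)).eventually (gt_mem_nhds ?_)
    rw [hsSd L (m' j) (m' n)]
    have h1 := measureReal_symmDiff_le (μ := L.W.μ) (s := L.hs (A j)) (t := E) (L.hs (A n))
      (measure_ne_top _ _) (measure_ne_top _ _)
    rw [symmDiff_comm (L.hs (A j)) E] at h1
    have h2 : 1 / ((n : ℝ) + 1) ≤ 1 / ((j : ℝ) + 1) := Nat.one_div_le_one_div hj
    linarith [hA j, hA n, pos j]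
  obtain ⟨N, hN⟩ : ∃ N : ℕ → ℕ, ∀ j, ∀ᶠ M in (U : Filter ℕ), j ≤ N M ∧ P M (N M) :=
    ⟨fun M => Nat.findGreatest (P M) M, fun j =>
      ((hP j).and (hU (eventually_ge_atTop j))).mono fun M hM =>
        ⟨Nat.le_findGreatest hM.2 hM.1, Nat.findGreatest_spec hM.2 hM.1⟩⟩
  refine ⟨fun l => A (N l.1) l, fun l => m _ l, ?_⟩
  rw [← measure_symmDiff_eq_zero_iff, ← measureReal_eq_zero_iff]
  refine le_antisymm (ge_of_tendsto' (x := atTop) (tendsto_one_div_add_atTop_nhds_zero_nat.const_mul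
    (4 : ℝ)) (fun j => ?_) |>.trans_eq (mul_zero _)) measureReal_nonneg
  have h1 := le_of_tendsto (b := 3 * (1 / ((j : ℝ) + 1)))
    (hsLim L fun l => (m' j l).symmDiff (m' (N l.1) l)) ((hN j).mono fun M hM => by
      have := (hM.2 j hM.1).le
      simp only [Wt.av2] at this ⊢
      exact this)
  rw [hsSd L (m' j) fun l => m' _ l] at h1
  have h2 := measureReal_symmDiff_le (μ := L.W.μ) (s := E) (t := L.hs (A j))
    (L.hs fun l => A (N l.1) l) (measure_ne_top _ _) (measure_ne_top _ _)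
  linarith [hA j]

end LfC

open LfC in
theorem lfC : LfCR := fun b h =>
  { hs_ind := fun L A m => hsInd L m
    hs_meas := fun L B A _ m => (le_sup_left : _ ≤ L.shp B) _ (hsMeas L B m)
    hs_lim := fun L A m => hsLim L m
    hs_inter := fun L A A' m m' => hsInter L m m'
    hs_compl := fun L A m => hsCompl L m
    hs_slot := fun L s A m => by
      refine eventuallyEq_set.2 ((L.slot s (A.indicator fun _ => 1)
        ⟨measurable_const.indicator m, 1, fun x => ?_⟩).mono fun w hw => ?_)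
      · by_cases e : x ∈ A <;> simp [e]
      · refine (iff_of_eq (congrArg (· = (1 : ℂ)) hw.symm)).trans ?_
        by_cases e : L.π s w ∈ A <;> simp [e]
    hs_T := fun L n A m => Set.ext fun w =>
      iff_of_eq (congrArg (· = (1 : ℂ)) (hatT L b.t (ind_mem m) n w))
    hs_lift := fun L' L p Lp A _ l m => eventuallyEq_set.2 ((l.hat _ (ind_mem m)).mono fun w hw =>
      iff_of_eq (congrArg (· = (1 : ℂ)) hw.symm))
    satu := fun L B => sat L h B }

end T3x

end

end PkLfC
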