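import Pool.Agent.MP_154433_an.t3.Spec

/-! One map, part 3 (packed). -/

section PkAsm

/-! Assembly of the rows. -/

set_option autoImplicit false
set_option linter.unusedVariables false

open MeasureTheory ProbabilityTheory Filter Topology Function Finset
open Pool.Agent.MP_154433_an.SG (Uni ufn)

noncomputable section

namespace T3x

theorem bas_of (a : BasAS) (t : BasTS) (d : BasDS) (c : BasCS) : Bas :=
  ⟨a, t a, d a, c a (d a)⟩

theorem fd_of (b : Bas) (met : MetR) (mix : MixR) (real : RealR) (n0 : Nice0R) (lim : LimR)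
    (rp : RPR) (line : LineR) (lb : LfBR) (la : LfAR) (lc : LfCR) (ld : LfDR) (ka : KfAR)
    (kb : KfBR) (hf : HfR) (pd : ProdR) : Fd :=
  have hm := met b
  have hr := real b
  have hrp := rp b hr
  have hlb := lb b
  have hla := la b hlb
  have hka := ka b hm hrp
  have hkb := kb b hm hrp hka
  have hh := hf b hka hkb
  { a := b.a, t := b.t, d := b.d, c := b.c, met := hm, mix := mix b hm, nice0 := n0 b hr,
    lim := lim b hr, rp := hrp, line := line b hr, la := hla, lb := hlb, lc := lc b hlb,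
    ld := ld b hla hlb, ka := hka, kb := hkb, h := hh, prod := pd b hka hkb hh }

theorem tupU_tup1 (c : Ctx) (φ : c.ι → c.W.X → ℂ) (h : c.TupU φ) : c.Tup1 φ := by
  obtain ⟨g, rfl⟩ := h
  intro k
  refine ⟨?_, Eventually.of_forall fun x => Circle.norm_coe _⟩
  have h1 : Measurable[MeasurableSpace.comap (c.π k) c.X.ms] (c.up g k) :=
    Measurable.comp (g := fun ω => ((g k).1 ω : ℂ)) (g k).2 (comap_measurable _)
  have h2 : MeasurableSpace.comap (c.π k) c.X.ms ≤ c.P k ⊔ c.B2 :=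
    le_trans (le_sup_left (b := nul c.W.μ)) le_sup_left
  exact (h1.mono h2 le_rfl).stronglyMeasurable.aestronglyMeasurable

theorem step_of (fd : Fd) (rc : Rc) (sel : SelS) (apx : ApxS) (hgx : HGXS) (gg : GGS)
    (sa : SatA) (alg : AlgS) (gi : GIR) (f3 : F3R) (r2p : R2PR) (f2 : F2R) (hg : HGR)
    (gsp1 : GSp1R) (full : FullR) (rep : RepR) (gspU : GSpUR) (t5 : T5R) (exh : ExhR)
    (hat : HatR) (ty : TyR) (pos : PosR) (psi : PsiR) (bun : BunR) (stp : StpR) (rel : RelR)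
    (onh : OnhR) (algI : AlgIR) : StepS := by
  intro c hs hf
  have hgi := gi fd c
  have h2 := f2 fd c hgi hs (r2p fd c hgi)
  obtain ⟨hH, hh⟩ := hg fd hgx c hgi h2 (f3 fd c hgi hs)
  have g1 := gsp1 fd rc sel gg c hgi hH
  have fu1 := full fd rc hgx c c.Tup1 hgi hH (fun _ h => h) g1
  have gU := gspU fd rc c hgi hH g1 fu1 (rep fd rc sel apx c hgi fu1)
  have fuU := full fd rc hgx c c.TupU hgi hH (tupU_tup1 c) gU
  obtain ⟨hcl, h5⟩ := t5 fd rc c hgi gU fuU
  obtain ⟨g, hg5⟩ := h5 (hh hf)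
  obtain ⟨𝒱, s, hx, hg𝒱⟩ := exh fd rc c g
  obtain ⟨H⟩ := hat fd c hgi
  have hty := ty fd rc c H 𝒱 s hcl hx
  obtain ⟨j, k, hp⟩ := pos fd rc c H 𝒱 s g hgi hx hty hg𝒱 hg5
  obtain ⟨c1, V, _, _, sg, ψ, hψ, hb⟩ := bun fd rc sa psi gi c H 𝒱 s g j k hgi hx hty hg𝒱 hp
  obtain ⟨ho, hi⟩ := onh fd rc rel c1 V sg ψ hψ
  exact algI fd rc stp rel alg c1 V sg ψ (gi fd c1) hψ ho hi hb

theorem det_of (b : Bas) (fd : Fd) (step : StepS) (sa : SatA) (ind2 : Ind2R) (sat : SatR)
    (ind : IndR) (gf : GfR) (cptA : CptAR) (cpt : CptR) (top : TopR) (det : DetR) :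
    DET ∧ DETW :=
  det fd (gf b) (cpt fd (gf b) (cptA fd)) (top fd (gf b) (ind fd ind2 sa (sat fd sa) step))

end T3x

end

end PkAsm

section PkLfD

/-! Commuting squares for lifts of embeddings to the lines. -/

set_option autoImplicit false
set_option linter.unusedVariables false
set_option warn.classDefReducibility false

open MeasureTheory ProbabilityTheory Filter Topology Function Finset ComplexConjugate
open scoped BigOperators
open Fib27 (BM sup pr Perp)

noncomputable section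

namespace T3x

namespace LfDAux

variable {ν : Wt} {U : Ultrafilter ℕ}

theorem mp_meas {Ω Ω' : Type} {m0 : MeasurableSpace Ω} {m0' : MeasurableSpace Ω'}
    {μ : Measure Ω} {μ' : Measure Ω'} {p : Ω → Ω'} (hp : MeasurePreserving p μ μ') :
    Measurable p := hp.measurable

theorem mp_ae {Ω Ω' : Type} {m0 : MeasurableSpace Ω} {m0' : MeasurableSpace Ω'}
    {μ : Measure Ω} {μ' : Measure Ω'} {p : Ω → Ω'} (hp : MeasurePreserving p μ μ')
    {f g : Ω' → ℂ} (h : f =ᵐ[μ'] g) : (fun x => f (p x)) =ᵐ[μ] fun x => g (p x) :=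
  hp.quasiMeasurePreserving.ae_eq_comp h

theorem fam_mono {Ω : Type} {B B' : MeasurableSpace Ω} (h : B ≤ B') {F : Lab × Ω → ℂ}
    (hF : F ∈ FamS B) : F ∈ FamS B' :=
  ⟨fun l => (hF.1 l).mono h le_rfl, hF.2⟩

theorem fam_one {Ω : Type} (B : MeasurableSpace Ω) : (fun _ => (1 : ℂ)) ∈ FamS B :=
  ⟨fun _ => measurable_const, 1, fun _ => by simp⟩

theorem fam_mul {Ω : Type} {B : MeasurableSpace Ω} {F G : Lab × Ω → ℂ} (hF : F ∈ FamS B)
    (hG : G ∈ FamS B) : (fun s => F s * G s) ∈ FamS B := by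
  obtain ⟨h1, C, hC⟩ := hF
  obtain ⟨h2, D, hD⟩ := hG
  refine ⟨fun l => (h1 l).mul (h2 l), C * D, fun s => ?_⟩
  rw [norm_mul]
  exact mul_le_mul (hC s) (hD s) (norm_nonneg _) ((norm_nonneg _).trans (hC s))

theorem fam_cj {Ω : Type} {B : MeasurableSpace Ω} {F : Lab × Ω → ℂ} (hF : F ∈ FamS B) :
    (fun s => conj (F s)) ∈ FamS B := by
  obtain ⟨h1, C, hC⟩ := hF
  refine ⟨fun l => Complex.continuous_conj.measurable.comp (h1 l), C, fun s => ?_⟩
  rw [RCLike.norm_conj]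
  exact hC s

theorem fam_prod {Ω ι : Type} {B : MeasurableSpace Ω} {F : ι → Lab × Ω → ℂ} (S : Finset ι)
    (hF : ∀ k ∈ S, F k ∈ FamS B) : (fun s => ∏ k ∈ S, F k s) ∈ FamS B := by
  classical
  induction S using Finset.induction_on with
  | empty => simpa using fam_one B
  | insert j S hj ih =>
    simp only [Finset.prod_insert hj]
    exact fam_mul (hF j (mem_insert_self _ _)) (ih fun k hk => hF k (mem_insert_of_mem hk))

theorem fam_bm {Ω : Type} {B m0 : MeasurableSpace Ω} (μ : Measure Ω) {F : Lab × Ω → ℂ}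
    (hF : F ∈ FamS B) (l : Lab) : BM μ B fun x => F (l, x) := by
  obtain ⟨h1, C, hC⟩ := hF
  exact ⟨(h1 l).stronglyMeasurable.aestronglyMeasurable, C, Eventually.of_forall fun x => hC _⟩

theorem hat_prod {X : Sys} (L : Ln ν U X) {ι : Type} {F : ι → Lab × X.X → ℂ} (S : Finset ι)
    (hF : ∀ k ∈ S, F k ∈ FamS X.ms) (w : L.W.X) :
    L.hat (fun s => ∏ k ∈ S, F k s) w = ∏ k ∈ S, L.hat (F k) w := by
  classical
  induction S using Finset.induction_on with
  | empty => simpa using (L.ch w).const 1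
  | insert j S hj ih =>
    simp only [Finset.prod_insert hj]
    have h2 := fun k hk => hF k (mem_insert_of_mem (b := j) hk)
    rw [← ih h2]
    exact (L.ch w).mul _ (hF j (mem_insert_self _ _)) _ (fam_prod S h2)

theorem hat_meas {X : Sys} (L : Ln ν U X) {B : MeasurableSpace X.X} {F : Lab × X.X → ℂ}
    (hF : F ∈ FamS B) : Measurable[L.shp B] (L.hat F) := by
  refine measurable_iff_comap_le.2 (le_trans ?_ le_sup_left)
  exact le_iSup₂_of_le (f := fun G (_ : G ∈ FamS B) =>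
    MeasurableSpace.comap (L.hat G) inferInstance) F hF le_rfl

theorem hat_meas0 {X : Sys} (L : Ln ν U X) {F : Lab × X.X → ℂ}
    (hF : F ∈ FamS X.ms) : Measurable[L.W.ms] (L.hat F) := by
  refine measurable_iff_comap_le.2 ?_
  rw [L.gn]
  exact le_iSup₂_of_le (f := fun G (_ : G ∈ FamS X.ms) =>
    MeasurableSpace.comap (L.hat G) inferInstance) F hF le_rfl

theorem hat_bd {X : Sys} (L : Ln ν U X) {F : Lab × X.X → ℂ} (hF : F ∈ FamS X.ms) :
    ∃ C : ℝ, ∀ w, ‖L.hat F w‖ ≤ C := by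
  obtain ⟨C, hC⟩ := hF.2
  exact ⟨C, fun w => (L.ch w).bdd F hF C hC⟩

theorem hat_bm {X : Sys} (L : Ln ν U X) {B : MeasurableSpace X.X} (hB : B ≤ X.ms)
    {F : Lab × X.X → ℂ} (hF : F ∈ FamS B) : BM L.W.μ (L.shp B) (L.hat F) := by
  obtain ⟨C, hC⟩ := hat_bd L (fam_mono hB hF)
  exact ⟨(hat_meas L hF).stronglyMeasurable.aestronglyMeasurable, C, Eventually.of_forall hC⟩

/-- tests against internal functions are enough -/
theorem perp_hat (b : Bas) (lb : LfB) {X : Sys} (L : Ln ν U X) {B : MeasurableSpace X.X}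
    (hB : Fac X B) {g : L.W.X → ℂ} (hg : BM L.W.μ L.W.ms g)
    (h : ∀ F ∈ FamS B, ∫ w, g w * L.hat F w ∂L.W.μ = 0) : Perp L.W.μ (L.shp B) g := by
  have h1 := b.d.perp L.W.μ (L.hat '' FamS B) ?_ ?_ ?_ ?_ g hg.integrable ?_
  · have e : gen (L.hat '' FamS B) id = gen (FamS B) L.hat := by
      simp only [gen, iSup_image, id]
    rw [e] at h1
    exact Fib27.perp_of_ce (lb.fac L B hB).le hg h1
  · rintro _ ⟨F, hF, rfl⟩
    exact ⟨hat_meas0 L (fam_mono hB.le hF), hat_bd L (fam_mono hB.le hF)⟩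
  · exact ⟨_, ⟨_, fam_one B, rfl⟩, Eventually.of_forall fun w => (L.ch w).const 1⟩
  · rintro _ ⟨F, hF, rfl⟩ _ ⟨G, hG, rfl⟩
    exact ⟨_, ⟨_, fam_mul hF hG, rfl⟩, Eventually.of_forall fun w =>
      (L.ch w).mul F (fam_mono hB.le hF) G (fam_mono hB.le hG)⟩
  · rintro _ ⟨F, hF, rfl⟩
    exact ⟨_, ⟨_, fam_cj hF, rfl⟩, Eventually.of_forall fun w =>
      (L.ch w).cj F (fam_mono hB.le hF)⟩
  · rintro _ ⟨F, hF, rfl⟩
    exact h F hF

/-- the pull-back of an internal base along a lift -/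
theorem pull_shp (b : Bas) (la : LfA) (lb : LfB) {X' X : Sys} (L' : Ln ν U X') (L : Ln ν U X)
    {p : X'.X → X.X} {Lp : L'.W.X → L.W.X} (hp : Emb X' X p) (hL : IsLift L' L p Lp)
    {B : MeasurableSpace X.X} (hB : Fac X B) :
    pull L'.W.μ Lp (L.shp B) = L'.shp (pull X'.μ p B) := by
  have hY := b.t.fpull X' X p B hp hB
  refine le_antisymm (la.shp L' L p Lp B _ hp hL hB hY le_rfl) (sup_le ?_ le_sup_right)
  refine iSup₂_le fun F' hF' => ?_
  obtain ⟨h1, C, hC⟩ := hF'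
  have hC0 : ∀ s, ‖F' s‖ ≤ max C 0 := fun s => (hC s).trans (le_max_left _ _)
  have h2 : ∀ l : Lab, ∃ f' : X.X → ℂ, Measurable[B] f' ∧ (∀ x, ‖f' x‖ ≤ max C 0) ∧
      (fun x => F' (l, x)) =ᵐ[X'.μ] fun x => f' (p x) := fun l =>
    b.a.fact B X'.μ p _ _ (le_sup_left.trans hY.le) (le_max_right _ _)
      (h1 l).stronglyMeasurable.aestronglyMeasurable (Eventually.of_forall fun x => hC0 _)
  choose f hf1 hf2 hf3 using h2
  have hF : (fun z : Lab × X.X => f z.1 z.2) ∈ FamS B := ⟨hf1, _, fun s => hf2 _ _⟩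
  have hF0 := fam_mono hB.le hF
  have hF1 : F' ∈ FamS X'.ms := fam_mono hY.le ⟨h1, C, hC⟩
  have hG : (fun z : Lab × X'.X => f z.1 (p z.2)) ∈ FamS X'.ms :=
    ⟨fun l => ((hf1 l).mono hB.le le_rfl).comp (mp_meas hp.mp), _, fun s => hf2 _ _⟩
  have e : L'.hat F' =ᵐ[L'.W.μ] fun w => L.hat (fun z : Lab × X.X => f z.1 z.2) (Lp w) :=
    (lb.congr L' F' hF1 _ hG hf3).trans (hL.hat _ hF0).symm
  have hle : (L.shp B).comap Lp ≤ L'.W.ms :=
    le_sup_left.trans (b.a.pull_le _ L'.W.μ L.W.μ Lp hL.emb.mp (lb.fac L B hB).le)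
  rintro A ⟨s, hs, rfl⟩
  refine (b.a.mem _ L'.W.μ hle _).2 ⟨hat_meas0 L' hF1 hs, _, ⟨_, hat_meas L hF hs, rfl⟩, ?_⟩
  filter_upwards [e] with w hw
  exact congrArg (· ∈ s) hw

theorem pull_top (b : Bas) (la : LfA) (lb : LfB) {X' X : Sys} (L' : Ln ν U X') (L : Ln ν U X)
    {p : X'.X → X.X} {Lp : L'.W.X → L.W.X} (hp : Emb X' X p) (hL : IsLift L' L p Lp) :
    pull L'.W.μ Lp L.W.ms = L'.shp (pull X'.μ p X.ms) := by
  rw [← pull_shp b la lb L' L hp hL (b.t.top X), lb.top]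

theorem cp_shp (b : Bas) (lb : LfB) {X : Sys} (L : Ln ν U X) {Y D C : MeasurableSpace X.X}
    (hY : Fac X Y) (hD : Fac X D) (hC : Fac X C) (hDC : D ≤ C) (h : CP Y D C X.μ) :
    CP (L.shp Y) (L.shp D) (L.shp C) L.W.μ := by
  have hY' := (lb.fac L Y hY).le
  have hD' := (lb.fac L D hD).le
  have hC' := (lb.fac L C hC).le
  intro f hf
  have hf0 := hf.mono hY'
  refine Fib27.ce_eq_of_tests hC' hf0 ((hf.ce _).mono (lb.mono L D C hDC)) fun c hc => ?_
  have hc0 := hc.mono hC'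
  have hc1 := (hc.ce (L.shp D)).mono hD'
  have h1 : Perp L.W.μ (L.shp Y) fun w => c w - (L.W.μ[c | L.shp D]) w := by
    refine perp_hat b lb L hY (hc0.sub hc1) fun F hF => ?_
    have hF0 := fam_mono hY.le hF
    have hFb := (hat_bm L hY.le hF).mono hY'
    obtain ⟨F', hF', e⟩ := lb.cex X D hD F hF0
    have e1 := lb.ce L D hD F hF0 F' hF' e
    have e2 := lb.ce L C hC F hF0 F' (fam_mono hDC hF') fun l =>
      (e l).trans (h _ (fam_bm X.μ hF l)).symm
    rw [Fib27.int_sub_mul hc0 hc1 hFb, Fib27.int_ce_symm hD' hc0 hFb,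
      ← Fib27.int_mul_ce hC' hc hFb, sub_eq_zero]
    refine integral_congr_ae ?_
    filter_upwards [e1, e2] with w a a'
    rw [a, a']
  have h2 := h1 f hf
  rw [Fib27.int_sub_mul hc0 hc1 hf0, sub_eq_zero, Fib27.int_ce_symm hD' hc0 hf0] at h2
  simpa only [mul_comm] using h2

theorem cind_shp (b : Bas) (lb : LfB) {X : Sys} (L : Ln ν U X) {ι : Type}
    {B : MeasurableSpace X.X} {Y : ι → MeasurableSpace X.X} {S : Finset ι} (hB : Fac X B)
    (hY : ∀ i, Fac X (Y i)) (h : CInd B Y S X.μ) :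
    CInd (L.shp B) (fun i => L.shp (Y i)) S L.W.μ := by
  classical
  have hB' := (lb.fac L B hB).le
  have hY' := fun i => (lb.fac L (Y i) (hY i)).le
  have key : ∀ (T : Finset ι) (f : ι → L.W.X → ℂ), (∀ k ∈ S, BM L.W.μ (L.shp (Y k)) (f k)) →
      (∀ k ∈ S, k ∉ T → ∃ F ∈ FamS (Y k), f k = L.hat F) →
      L.W.μ[pr f S | L.shp B] =ᵐ[L.W.μ] fun x => ∏ k ∈ S, (L.W.μ[f k | L.shp B]) x := by
    intro T
    induction T using Finset.induction_on with
    | empty =>
      intro f _ hf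
      choose! F hF eF using fun k hk => hf k hk (notMem_empty k)
      have hF0 := fun k hk => fam_mono (hY k).le (hF k hk)
      choose! F' hF' eF' using fun k (hk : k ∈ S) => lb.cex X B hB (F k) (hF0 k hk)
      have e1 : pr f S = L.hat fun s => ∏ k ∈ S, F k s := by
        funext w
        rw [hat_prod L S hF0]
        exact Finset.prod_congr rfl fun k hk => by rw [eF k hk]
      have e2 := lb.ce L B hB _ (fam_prod S hF0) _ (fam_prod S hF') fun l => by
        have a := h (fun k x => F k (l, x)) fun k hk => fam_bm X.μ (hF k hk) l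
        refine EventuallyEq.trans ?_ a.symm
        filter_upwards [(Finset.eventually_all S).2 fun k hk => eF' k hk l] with x hx
        exact Finset.prod_congr rfl hx
      rw [e1]
      filter_upwards [e2, (Finset.eventually_all S).2 fun k hk =>
        lb.ce L B hB _ (hF0 k hk) _ (hF' k hk) (eF' k hk)] with w a a'
      rw [a, hat_prod L S fun k hk => fam_mono hB.le (hF' k hk)]
      exact Finset.prod_congr rfl fun k hk => by rw [eF k hk, a' k hk]
    | insert j T hj ih =>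
      intro f hf hf'
      by_cases hjS : j ∈ S
      swap
      · refine ih f hf fun k hk hkT => hf' k hk ?_
        simp only [mem_insert, not_or]
        exact ⟨by rintro rfl; exact hjS hk, hkT⟩
      have hf0 := fun k hk => (hf k hk).mono (hY' k)
      have hE : ∀ (g : ι → L.W.X → ℂ) (R : Finset ι),
          (∀ k ∈ R, BM L.W.μ L.W.ms (g k)) →
          BM L.W.μ (L.shp B) (pr (fun k => L.W.μ[g k | L.shp B]) R) :=
        fun g R hg => BM.pr fun k hk => (hg k hk).ce _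
      refine Fib27.ce_eq_of_tests hB' (BM.pr hf0) (hE f S hf0) fun c hc => ?_
      have hc0 := hc.mono hB'
      have hr0 : ∀ k ∈ S.erase j, BM L.W.μ L.W.ms (f k) := fun k hk => hf0 k (mem_of_mem_erase hk)
      have hA : BM L.W.μ L.W.ms fun w => pr f (S.erase j) w * c w := (BM.pr hr0).mul hc0
      have hBm : BM L.W.μ (L.shp B) fun w =>
          pr (fun k => L.W.μ[f k | L.shp B]) (S.erase j) w * c w := (hE f _ hr0).mul hc
      -- the two sides for an arbitrary function in slot `j`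
      have s1 : ∀ u : L.W.X → ℂ, ∫ w, pr (update f j u) S w * c w ∂L.W.μ =
          ∫ w, (pr f (S.erase j) w * c w) * u w ∂L.W.μ := fun u => by
        refine integral_congr_ae (Eventually.of_forall fun w => ?_)
        simp only [Fib27.pr_erase _ hjS w, Fib27.pr_update f (notMem_erase j S), update_self]
        ring
      have s2 : ∀ u : L.W.X → ℂ, BM L.W.μ L.W.ms u →
          ∫ w, (∏ k ∈ S, (L.W.μ[update f j u k | L.shp B]) w) * c w ∂L.W.μ =
          ∫ w, (pr (fun k => L.W.μ[f k | L.shp B]) (S.erase j) w * c w) * u w ∂L.W.μ :=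
        fun u hu => by
          rw [← Fib27.int_mul_ce hB' hBm hu]
          refine integral_congr_ae (Eventually.of_forall fun w => ?_)
          simp only [← Finset.mul_prod_erase S _ hjS, update_self, pr]
          rw [Finset.prod_congr rfl fun k hk => by rw [update_of_ne (ne_of_mem_erase hk)]]
          ring
      have h1 : Perp L.W.μ (L.shp (Y j)) fun w => pr f (S.erase j) w * c w -
          pr (fun k => L.W.μ[f k | L.shp B]) (S.erase j) w * c w := by
        refine perp_hat b lb L (hY j) (hA.sub (hBm.mono hB')) fun F hF => ?_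
        have hFb := hat_bm L (hY j).le hF
        have hu : ∀ k ∈ S, BM L.W.μ (L.shp (Y k)) (update f j (L.hat F) k) := fun k hk => by
          by_cases e : k = j
          · subst e
            rw [update_self]
            exact hFb
          · rw [update_of_ne e]
            exact hf k hk
        have h2 := ih (update f j (L.hat F)) hu fun k hk hkT => by
          by_cases e : k = j
          · subst e
            exact ⟨F, hF, update_self _ _ _⟩
          · rw [update_of_ne e]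
            exact hf' k hk (by simp [e, hkT])
        rw [Fib27.int_sub_mul hA (hBm.mono hB') (hFb.mono (hY' j)), ← s1,
          ← s2 _ (hFb.mono (hY' j)), sub_eq_zero,
          ← Fib27.int_ce_mul hB' (BM.pr fun k hk => (hu k hk).mono (hY' k)) hc]
        refine integral_congr_ae ?_
        filter_upwards [h2] with w hw
        rw [hw]
      have h3 := h1 (f j) (hf j hjS)
      rw [Fib27.int_sub_mul hA (hBm.mono hB') (hf0 j hjS), ← s1, ← s2 _ (hf0 j hjS), sub_eq_zero,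
        update_eq_self] at h3
      exact h3
  exact fun f hf => key S f hf fun k hk hk' => absurd hk hk'

theorem rep_bm (b : Bas) {Ω : Type} {B m0 : MeasurableSpace Ω} {μ : Measure Ω} {f : Ω → ℂ}
    (hf : BM μ B f) : ∃ f' : Ω → ℂ, Measurable[B] f' ∧ (∃ C : ℝ, ∀ x, ‖f' x‖ ≤ C) ∧ f =ᵐ[μ] f' := by
  obtain ⟨h1, C, hC⟩ := hf
  obtain ⟨f', a1, a2, a3⟩ := b.a.rep B μ f (max C 0) (le_max_right _ _) h1
    (hC.mono fun x hx => hx.trans (le_max_left _ _))
  exact ⟨f', a1, ⟨_, a2⟩, a3⟩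

/-- conditional expectation of a slot function over the internal base -/
theorem ce_slot (b : Bas) (lb : LfB) {X : Sys} (L : Ln ν U X) {Y : MeasurableSpace X.X}
    (hY : Fac X Y) (s : Slot) {g : X.X → ℂ} (hg : BM X.μ X.ms g) :
    L.W.μ[fun w => g (L.π s w) | L.shp Y] =ᵐ[L.W.μ] fun w => (X.μ[g | Y]) (L.π s w) := by
  obtain ⟨g1, a1, ⟨C, a2⟩, a3⟩ := rep_bm b hg
  obtain ⟨g2, c1, ⟨D, c2⟩, c3⟩ := rep_bm b (hg.ce Y)
  have q := (L.emb s).mp
  have hF : (fun z : Lab × X.X => g1 (X.Tz (rho s z.1) z.2)) ∈ FamS X.ms :=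
    ⟨fun l => a1.comp (mp_meas (b.t.mp X (rho s l))), C, fun z => a2 _⟩
  have hF' : (fun z : Lab × X.X => g2 (X.Tz (rho s z.1) z.2)) ∈ FamS Y :=
    ⟨fun l => c1.comp (measurable_iff_comap_le.2 (b.t.inv X Y (rho s l) hY).le), D,
      fun z => c2 _⟩
  have e := lb.ce L Y hY _ hF _ hF' fun l => by
    have q' := b.t.mp X (rho s l)
    have e1 := b.t.ce X Y (rho s l) g hY hg.integrable
    exact (mp_ae q' c3).symm.trans (e1.symm.trans (condExp_congr_ae (mp_ae q' a3)))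
  have e1 := L.slot s g1 ⟨a1, C, a2⟩
  have e2 := L.slot s g2 ⟨c1.mono hY.le le_rfl, D, c2⟩
  exact (condExp_congr_ae ((mp_ae q a3).trans e1)).trans
    (e.trans (e2.symm.trans (mp_ae q c3).symm))

theorem int_comp {Ω Ω' : Type} {m0 : MeasurableSpace Ω} {m0' : MeasurableSpace Ω'}
    {μ : Measure Ω} {μ' : Measure Ω'} {p : Ω → Ω'} (hp : MeasurePreserving p μ μ') {f : Ω' → ℂ}
    (hf : BM μ' m0' f) : ∫ x, f (p x) ∂μ = ∫ y, f y ∂μ' := by
  rw [← hp.map_eq, integral_map hp.measurable.aemeasurable (by rw [hp.map_eq]; exact hf.1)]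

theorem fact_bm (b : Bas) {Ω Ω' : Type} {m0 : MeasurableSpace Ω} {m0' : MeasurableSpace Ω'}
    {μ : Measure Ω} {μ' : Measure Ω'} {p : Ω → Ω'} (hp : MeasurePreserving p μ μ') {f : Ω → ℂ}
    (hf : BM μ (pull μ p m0') f) : ∃ f' : Ω' → ℂ, BM μ' m0' f' ∧ f =ᵐ[μ] fun x => f' (p x) := by
  obtain ⟨h1, C, hC⟩ := hf
  obtain ⟨f', a1, a2, a3⟩ := b.a.fact m0' μ p f (max C 0) hp.measurable.comap_le
    (le_max_right _ _) h1 (hC.mono fun x hx => hx.trans (le_max_left _ _))
  exact ⟨f', ⟨a1.stronglyMeasurable.aestronglyMeasurable, _, Eventually.of_forall a2⟩, a3⟩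

theorem cs1 (b : Bas) (la : LfA) (lb : LfB) {X' X : Sys} (L' : Ln ν U X') (L : Ln ν U X)
    {p : X'.X → X.X} {Lp : L'.W.X → L.W.X} (s : Slot) (hp : Emb X' X p) (hL : IsLift L' L p Lp)
    {g : X'.X → ℂ} {g0 : X.X → ℂ} (hg : BM X'.μ X'.ms g)
    (e : (fun x => g0 (p x)) =ᵐ[X'.μ] X'.μ[g | pull X'.μ p X.ms]) :
    L'.W.μ[fun w => g (L'.π s w) | pull L'.W.μ Lp L.W.ms] =ᵐ[L'.W.μ]
      fun w => g0 (p (L'.π s w)) := by
  rw [pull_top b la lb L' L hp hL]
  exact (ce_slot b lb L' (b.t.fpull X' X p _ hp (b.t.top X)) s hg).trans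
    ((L'.emb s).mp.quasiMeasurePreserving.ae_eq_comp e).symm

theorem cs2 (b : Bas) (la : LfA) (lb : LfB) {X' X : Sys} (L' : Ln ν U X') (L : Ln ν U X)
    {p : X'.X → X.X} {Lp : L'.W.X → L.W.X} (s : Slot) (hp : Emb X' X p) (hL : IsLift L' L p Lp)
    {g : L.W.X → ℂ} {g0 : X.X → ℂ} (hg : BM L.W.μ L.W.ms g) (hg0 : BM X.μ X.ms g0)
    (e : (fun w => g0 (L.π s w)) =ᵐ[L.W.μ] L.W.μ[g | L.P s]) :
    L'.W.μ[fun w => g (Lp w) | L'.P s] =ᵐ[L'.W.μ] fun w => g0 (p (L'.π s w)) := by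
  have m1 := (L'.emb s).mp
  have m2 := (L.emb s).mp
  have m3 := hL.emb.mp
  have m4 := hp.mp
  have l1 : L'.P s ≤ L'.W.ms := b.a.pull_le _ _ _ _ m1 le_rfl
  have l2 : L.P s ≤ L.W.ms := b.a.pull_le _ _ _ _ m2 le_rfl
  have l3 : pull L'.W.μ Lp L.W.ms ≤ L'.W.ms := b.a.pull_le _ _ _ _ m3 le_rfl
  have l4 : pull X'.μ p X.ms ≤ X'.ms := b.a.pull_le _ _ _ _ m4 le_rfl
  have g1 := b.a.bm_comp _ _ _ Lp g m3 hg
  have g2 := b.a.bm_comp _ _ _ p g0 m4 hg0
  have g3 := b.a.bm_comp _ _ _ (L'.π s) _ m1 (g2.mono l4)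
  refine Fib27.ce_eq_of_tests l1 (g1.mono l3) g3 fun c hc => ?_
  obtain ⟨c', hc', e1⟩ := fact_bm b m1 hc
  obtain ⟨c0, hc0, e2⟩ := fact_bm b m4 (hc'.ce (pull X'.μ p X.ms))
  have e3 := cs1 b la lb L' L s hp hL hc' e2.symm
  have e4 := b.a.keq_fun X.ms L'.W.μ X.μ _ _ c0 (m2.comp m3) (m4.comp m1)
    (la.slot L' L p Lp s hp hL) hc0.1
  have g4 := b.a.bm_comp _ _ _ (L.π s) c0 m2 hc0
  have g5 := b.a.bm_comp _ _ _ (L'.π s) c' m1 hc'
  calc ∫ w, g (Lp w) * c w ∂L'.W.μ = ∫ w, g (Lp w) * c' (L'.π s w) ∂L'.W.μ :=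
        integral_congr_ae (by filter_upwards [e1] with w hw; rw [hw])
    _ = ∫ w, g (Lp w) * c0 (L.π s (Lp w)) ∂L'.W.μ := by
        rw [← Fib27.int_mul_ce l3 g1 (g5.mono l1)]
        refine integral_congr_ae ?_
        filter_upwards [e3, e4] with w a a'
        rw [a]
        exact congrArg _ a'.symm
    _ = ∫ w, g w * c0 (L.π s w) ∂L.W.μ := int_comp m3 (hg.mul (g4.mono l2))
    _ = ∫ w, g0 (L.π s w) * c0 (L.π s w) ∂L.W.μ := by
        rw [← Fib27.int_ce_mul l2 hg g4]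
        refine integral_congr_ae ?_
        filter_upwards [e] with w a
        rw [← a]
    _ = ∫ x, g0 x * c0 x ∂X.μ := int_comp m2 (hg0.mul hc0)
    _ = ∫ x, g0 (p x) * c0 (p x) ∂X'.μ := (int_comp m4 (hg0.mul hc0)).symm
    _ = ∫ x, g0 (p x) * c' x ∂X'.μ := by
        rw [← Fib27.int_mul_ce l4 g2 hc']
        refine integral_congr_ae ?_
        filter_upwards [e2] with x a
        rw [a]
    _ = ∫ w, g0 (p (L'.π s w)) * c' (L'.π s w) ∂L'.W.μ :=
        (int_comp m1 ((g2.mono l4).mul hc')).symm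
    _ = _ := integral_congr_ae (by filter_upwards [e1] with w hw; rw [hw])

end LfDAux

open LfDAux

theorem lfD : LfDR := fun b la lb =>
  { cs := fun L' L p Lp s hp hL g g0 hg _ e => cs1 b la lb L' L s hp hL hg e
    cs' := fun L' L p Lp s hp hL g g0 hg hg0 e => cs2 b la lb L' L s hp hL hg hg0 e
    base := fun L' L p Lp B B' hp hL hB hB' hle h => by
      rw [pull_top b la lb L' L hp hL, pull_shp b la lb L' L hp hL hB]
      exact cp_shp b lb L' (b.t.fpull _ _ p _ hp (b.t.top _)) (b.t.fpull _ _ p _ hp hB) hB' hle h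
    cind := fun L' L ι p Lp S B' hp hL hB' h => by
      simp only [fun i => pull_top b la lb L' L (hp i) (hL i)]
      exact cind_shp b lb L' hB' (fun i => b.t.fpull _ _ (p i) _ (hp i) (b.t.top _)) h }

end T3x

end

end PkLfD

section PkHf

/-! Row Hf: facts on the hull. -/

set_option autoImplicit false
set_option linter.unusedVariables false
set_option warn.classDefReducibility false

open MeasureTheory ProbabilityTheory Filter Topology Function Finset ComplexConjugate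
open scoped BigOperators
open Fib27 (BM sup pr Oc Orow F23 LInd Mem)

noncomputable section

namespace T3x

namespace HfP

theorem pull_mono {Ω Ω' : Type} {B C : MeasurableSpace Ω'} {m0 : MeasurableSpace Ω}
    (μ : Measure Ω) (p : Ω → Ω') (h : B ≤ C) : pull μ p B ≤ pull μ p C :=
  sup_le_sup_right (MeasurableSpace.comap_mono h) _

theorem le_hull (X : Sys) (B : MeasurableSpace X.X) : B ≤ hull X B :=
  le_sInf fun _ hC => hC.1

theorem hull_min (X : Sys) (B C : MeasurableSpace X.X) (h : B ≤ C) (hC : KC X C) :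
    hull X B ≤ C := sInf_le ⟨h, hC⟩

theorem hull_mono (X : Sys) (B C : MeasurableSpace X.X) (h : B ≤ C) : hull X B ≤ hull X C :=
  sInf_le_sInf fun _ hD => ⟨h.trans hD.1, hD.2⟩

theorem kc (b : Bas) (kb : KfB) (X : Sys) (B : MeasurableSpace X.X) (hX : Nice X)
    (hB : Fac X B) : KC X (hull X B) := by
  have ht : KC X X.ms := ⟨b.t.top X, (kb.fac X X.ms hX (b.t.top X)).le⟩
  have hF : Fac X (hull X B) :=
    ⟨hull_min X B X.ms hB.le ht, le_sInf fun C hC => hC.2.1.nl,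
      le_sInf fun C hC => (MeasurableSpace.comap_mono (hull_min X B C hC.1 hC.2)).trans hC.2.1.inv,
      le_sInf fun C hC =>
        (MeasurableSpace.comap_mono (hull_min X B C hC.1 hC.2)).trans hC.2.1.inv'⟩
  exact ⟨hF, le_sInf fun C hC =>
    (kb.mono X _ C hX hF hC.2.1 (hull_min X B C hC.1 hC.2)).trans hC.2.2⟩

theorem ind (b : Bas) (kb : KfB) (X : Sys) (B : MeasurableSpace X.X)
    (Q : MeasurableSpace X.X → Prop) (hX : Nice X) (hB : Fac X B) (h0 : Q B)
    (h1 : ∀ C, Fac X C → B ≤ C → Q C → Q (KK X C))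
    (h2 : ∀ 𝒞 : Set (MeasurableSpace X.X), 𝒞.Nonempty → IsChain (· ≤ ·) 𝒞 →
      (∀ C ∈ 𝒞, Fac X C ∧ B ≤ C ∧ Q C) → Q (sSup 𝒞)) : Q (hull X B) := by
  have hk := kc b kb X B hX hB
  obtain ⟨M, -, hM⟩ := zorn_le_nonempty₀
    {C : MeasurableSpace X.X | Fac X C ∧ B ≤ C ∧ C ≤ hull X B ∧ Q C}
    (fun c hc hch y hy => ⟨sSup c, ⟨b.t.fsSup X c ⟨y, hy⟩ fun C hC => (hc hC).1,
      (hc hy).2.1.trans (le_sSup hy), sSup_le fun C hC => (hc hC).2.2.1,
      h2 c ⟨y, hy⟩ hch fun C hC => ⟨(hc hC).1, (hc hC).2.1, (hc hC).2.2.2⟩⟩,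
      fun z hz => le_sSup hz⟩) B ⟨hB, le_rfl, le_hull X B, h0⟩
  obtain ⟨hF, hBM, hMh, hQ⟩ := hM.1
  have hle : M ≤ KK X M := kb.le X M hX hF
  have hK : KK X M ≤ M := hM.2 ⟨kb.fac X M hX hF, hBM.trans hle,
    (kb.mono X M _ hX hF hk.1 hMh).trans hk.2, h1 M hF hBM hQ⟩ hle
  have : hull X B = M := le_antisymm (hull_min X B M hBM ⟨hF, hK⟩) hMh
  rwa [this]

/-- a function whose square norm is below every positive number vanishes -/
theorem ae_eq_of_sq {Ω : Type} {m0 : MeasurableSpace Ω} (μ : Measure Ω) [IsProbabilityMeasure μ]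
    (f g : Ω → ℂ) (hf : BM μ m0 f) (hg : BM μ m0 g)
    (h : ∀ ε : ℝ, 0 < ε → ∫ x, ‖f x - g x‖ ^ 2 ∂μ ≤ ε) : f =ᵐ[μ] g := by
  have hi : Integrable (fun x => ‖f x - g x‖ ^ 2) μ :=
    ((hf.sub hg).memLp 2).integrable_norm_pow two_ne_zero
  have h0 : ∫ x, ‖f x - g x‖ ^ 2 ∂μ = 0 :=
    le_antisymm (le_of_forall_pos_le_add fun ε hε => by simpa using h ε hε)
      (integral_nonneg fun x => by positivity)
  rw [integral_eq_zero_iff_of_nonneg (fun x => by positivity) hi] at h0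
  filter_upwards [h0] with x hx
  simpa [sub_eq_zero] using hx

theorem freq_of_tendsto {u : ℕ → ℝ} (h : Tendsto u atTop (𝓝 0)) (ε : ℝ) (hε : 0 < ε) :
    ∃ᶠ N : ℕ in atTop, u N ≤ ε :=
  ((h.eventually (gt_mem_nhds hε)).mono fun _ hN => hN.le).frequently

theorem disj (b : Bas) (ka : KfA) (kb : KfB) (X : Sys) (Y D C : MeasurableSpace X.X)
    (hX : Nice X) (hY : Fac X Y) (hD : Fac X D) (hC : Fac X C) (hDY : D ≤ Y) (hDC : D ≤ C)
    (hr : RWM X Y D) (hcp : CP Y D C X.μ) : CP Y D (hull X C) X.μ := by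
  refine ind b kb X C (fun C' => CP Y D C' X.μ) hX hC hcp ?_ ?_
  · intro C' hC' hle hq f hf
    have hK := kb.fac X C' hX hC'
    have hDK : D ≤ KK X C' := hDC.trans (hle.trans (kb.le X C' hX hC'))
    have hE : BM X.μ D (X.μ[f | D]) := hf.ce D
    have hf0 : BM X.μ Y fun x => f x - (X.μ[f | D]) x := hf.sub (hE.mono hDY)
    have hz : X.μ[fun x => f x - (X.μ[f | D]) x | D] =ᵐ[X.μ] 0 := by
      filter_upwards [Fib27.ce_sub (hf.mono hY.le) (hE.mono hD.le) D, hE.ce_self hD.le]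
        with x h1 h2
      rw [h1, h2]; simp
    have hw := hr _ hf0 hz
    have hw' : WM X C' fun x => f x - (X.μ[f | D]) x := by
      refine ka.weak X C' hX hC' _ (hf0.mono hY.le) fun ε hε => ?_
      refine (freq_of_tendsto (hw.2 _ (hf0.mono hY.le).conj) ε hε).mono fun N hN => ?_
      refine le_of_eq_of_le ?_ hN
      congr 1
      refine sum_congr rfl fun n _ => integral_congr_ae ?_
      filter_upwards [hq _ ((b.t.bm X Y n _ hY hf0).mul hf0.conj)] with x hx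
      exact congrArg _ hx
    have hz' := (kb.wm X C' hX hC' _ hw'.1).1 hw'
    filter_upwards [Fib27.ce_sub (hf.mono hY.le) (hE.mono hD.le) (KK X C'),
      (hE.mono hDK).ce_self hK.le, hz'] with x h1 h2 h3
    rw [h1, h2] at h3
    exact sub_eq_zero.1 h3
  · intro 𝒞 hne hch h𝒞 f hf
    have hs : sSup 𝒞 ≤ X.ms := sSup_le fun C' hC' => (h𝒞 C' hC').1.le
    refine ae_eq_of_sq X.μ _ _ ((hf.ce _).mono hs) ((hf.ce _).mono hD.le) fun ε hε => ?_
    obtain ⟨C', hC', h⟩ := b.d.chain 𝒞 X.μ hne hch.directedOn (fun C' hC' => (h𝒞 C' hC').1.le) f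
      ((hf.mono hY.le).memLp 2) ε hε
    refine le_of_eq_of_le (integral_congr_ae ?_) (h C' hC' le_rfl)
    filter_upwards [(h𝒞 C' hC').2.2 f hf] with x hx
    rw [hx]

/-- bounded functions of the pull-back factor through the embedding -/
theorem fact (b : Bas) {X' X : Sys} {p : X'.X → X.X} (hp : Emb X' X p) {f : X'.X → ℂ}
    (hf : BM X'.μ (pull X'.μ p X.ms) f) :
    ∃ f0 : X.X → ℂ, BM X.μ X.ms f0 ∧ f =ᵐ[X'.μ] fun x => f0 (p x) := by
  obtain ⟨h1, C, hC⟩ := hf
  obtain ⟨f0, hm, hb, he⟩ := b.a.fact X.ms X'.μ p f (max C 0) hp.mp.measurable.comap_le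
    (le_max_right _ _) h1 (hC.mono fun x hx => hx.trans (le_max_left _ _))
  exact ⟨f0, ⟨hm.aestronglyMeasurable, max C 0, Eventually.of_forall hb⟩, he⟩

theorem bm_up (b : Bas) {X' X : Sys} {p : X'.X → X.X} (hp : Emb X' X p) {f : X.X → ℂ}
    (hf : BM X.μ X.ms f) : BM X'.μ X'.ms fun x => f (p x) :=
  (b.a.bm_comp X.ms X'.μ X.μ p f hp.mp hf).mono (b.a.pull_le X.ms X'.μ X.μ p hp.mp le_rfl)

theorem shift (b : Bas) {X' X : Sys} {p : X'.X → X.X} (hp : Emb X' X p) {f : X.X → ℂ}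
    (hf : BM X.μ X.ms f) (n : ℤ) :
    (fun x => f (p (X'.Tz n x))) =ᵐ[X'.μ] fun x => f (X.Tz n (p x)) :=
  b.a.keq_fun X.ms X'.μ X.μ (p ∘ X'.Tz n) (X.Tz n ∘ p) f (hp.mp.comp (b.t.mp X' n))
    ((b.t.mp X n).comp hp.mp) (b.t.emb_z X' X p n hp) hf.1

theorem int_up {E : Type} [NormedAddCommGroup E] [NormedSpace ℝ E] {X' X : Sys}
    {p : X'.X → X.X} (hp : Emb X' X p) {φ : X.X → E} (h : AEStronglyMeasurable φ X.μ) :
    ∫ x, φ (p x) ∂X'.μ = ∫ x, φ x ∂X.μ := by
  rw [← hp.mp.map_eq] at h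
  rw [← integral_map hp.mp.measurable.aemeasurable h, hp.mp.map_eq]

theorem ae_up {X' X : Sys} {p : X'.X → X.X} (hp : Emb X' X p) {P : X.X → Prop}
    (h : ∀ᵐ x ∂X.μ, P x) : ∀ᵐ x ∂X'.μ, P (p x) := hp.mp.quasiMeasurePreserving.ae h

theorem meas_up {X' X : Sys} {p : X'.X → X.X} (hp : Emb X' X p) {s : Set X.X}
    (h : MeasurableSet s) : MeasurableSet (p ⁻¹' s) := hp.mp.measurable h

/-- the correlation integrals agree upstairs and downstairs -/
theorem corr (b : Bas) {X' X : Sys} {p : X'.X → X.X} (hp : Emb X' X p)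
    {C : MeasurableSpace X.X} (hC : Fac X C) {f g : X.X → ℂ} (hf : BM X.μ X.ms f)
    (hg : BM X.μ X.ms g) (n : ℤ) :
    ∫ x, ‖(X'.μ[fun y => f (p (X'.Tz n y)) * g (p y) | pull X'.μ p C]) x‖ ∂X'.μ =
      ∫ x, ‖(X.μ[fun y => f (X.Tz n y) * g y | C]) x‖ ∂X.μ := by
  have hb : BM X.μ X.ms fun y => f (X.Tz n y) * g y := (b.t.bm X X.ms n f (b.t.top X) hf).mul hg
  have h1 := b.a.ce_comp C X'.μ X.μ p _ hp.mp hC.le hb.integrable
  have h2 : X'.μ[fun y => f (p (X'.Tz n y)) * g (p y) | pull X'.μ p C] =ᵐ[X'.μ]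
      X'.μ[fun y => f (X.Tz n (p y)) * g (p y) | pull X'.μ p C] := by
    refine condExp_congr_ae ?_
    filter_upwards [shift b hp hf n] with y hy
    rw [hy]
  rw [← int_up hp ((hb.ce C).mono hC.le).1.norm]
  refine integral_congr_ae ?_
  filter_upwards [h1, h2] with x h1 h2
  rw [h2, h1]

theorem ae_down {X' X : Sys} {p : X'.X → X.X} (hp : Emb X' X p) {g : X.X → ℂ}
    (hg : StronglyMeasurable g) (h : (fun x => g (p x)) =ᵐ[X'.μ] 0) : g =ᵐ[X.μ] 0 := by
  rw [← hp.mp.map_eq]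
  refine (ae_map_iff hp.mp.measurable.aemeasurable ?_).2 h
  exact hg.measurable (measurableSet_singleton (0 : ℂ))

theorem rwm (b : Bas) (ka : KfA) (kb : KfB) (X' X : Sys) (p : X'.X → X.X)
    (B : MeasurableSpace X.X) (hX' : Nice X') (hX : Nice X) (hp : Emb X' X p) (hB : KC X B) :
    RWM X' (pull X'.μ p X.ms) (pull X'.μ p B) := by
  intro f hf hz
  obtain ⟨f0, h0, he⟩ := fact b hp hf
  have hK : KK X B = B := le_antisymm hB.2 (kb.le X B hX hB.1)
  have h1 := b.a.ce_comp B X'.μ X.μ p f0 hp.mp hB.1.le h0.integrable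
  have h2 : X.μ[f0 | B] =ᵐ[X.μ] 0 :=
    ae_down hp (stronglyMeasurable_condExp.mono hB.1.le)
      (h1.symm.trans ((condExp_congr_ae he).symm.trans hz))
  have hw : WM X B f0 := (kb.wm X B hX hB.1 f0 (h0.memLp 2)).2 (by rwa [hK])
  have hfm : BM X'.μ X'.ms f := hf.mono (b.a.pull_le X.ms X'.μ X.μ p hp.mp le_rfl)
  refine ka.weak X' _ hX' (b.t.fpull X' X p B hp hB.1) f hfm fun ε hε => ?_
  refine (freq_of_tendsto (hw.2 _ h0.conj) ε hε).mono fun N hN => ?_
  refine le_of_eq_of_le ?_ hN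
  congr 1
  refine sum_congr rfl fun n _ => ?_
  rw [← corr b hp hB.1 h0 h0.conj n]
  refine integral_congr_ae ?_
  have h3 : (fun y => f (X'.Tz n y) * conj (f y)) =ᵐ[X'.μ]
      fun y => f0 (p (X'.Tz n y)) * conj (f0 (p y)) := by
    filter_upwards [he, (b.t.mp X' n).quasiMeasurePreserving.ae he] with y h1 h2
    rw [h1, h2]
  filter_upwards [condExp_congr_ae (m := pull X'.μ p B) h3] with x hx
  rw [hx]

/-- the projection of a weakly mixing function is weakly mixing -/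
theorem wm_down (b : Bas) {X' X : Sys} {p : X'.X → X.X} (hp : Emb X' X p)
    {C : MeasurableSpace X.X} (hC : Fac X C) {f : X'.X → ℂ} (hf : BM X'.μ X'.ms f)
    (hw : WM X' (pull X'.μ p C) f) {f0 : X.X → ℂ} (h0 : BM X.μ X.ms f0)
    (he : X'.μ[f | pull X'.μ p X.ms] =ᵐ[X'.μ] fun x => f0 (p x)) : WM X C f0 := by
  refine ⟨h0.memLp 2, fun g hg => ?_⟩
  have hP : Fac X' (pull X'.μ p X.ms) := b.t.fpull X' X p X.ms hp (b.t.top X)
  have hgp : BM X'.μ (pull X'.μ p X.ms) fun x => g (p x) := b.a.bm_comp X.ms X'.μ X.μ p g hp.mp hg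
  refine (hw.2 _ (hgp.mono hP.le)).congr fun N => ?_
  congr 1
  refine sum_congr rfl fun n _ => ?_
  rw [← corr b hp hC h0 hg n]
  refine integral_congr_ae ?_
  have hfn : BM X'.μ X'.ms fun y => f (X'.Tz n y) := b.t.bm X' X'.ms n f (b.t.top X') hf
  have h1 : X'.μ[fun y => f (X'.Tz n y) * g (p y) | pull X'.μ p X.ms] =ᵐ[X'.μ]
      fun y => f0 (p (X'.Tz n y)) * g (p y) := by
    filter_upwards [Fib27.ce_mul' hP.le hfn hgp, b.t.ce X' _ n f hP hf.integrable,
      (b.t.mp X' n).quasiMeasurePreserving.ae he] with y h1 h2 h3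
    rw [h1, h2, h3]
  have h2 := condExp_condExp_of_le (μ := X'.μ) (f := fun y => f (X'.Tz n y) * g (p y))
    (pull_mono X'.μ p hC.le) hP.le
  filter_upwards [h2, condExp_congr_ae (m := pull X'.μ p C) h1] with x h2 h3
  rw [← h2, h3]

theorem kk_pull (b : Bas) (kb : KfB) {X' X : Sys} {p : X'.X → X.X} (hX' : Nice X') (hX : Nice X)
    (hp : Emb X' X p) {C : MeasurableSpace X.X} (hC : Fac X C) :
    pull X'.μ p (KK X C) ≤ KK X' (pull X'.μ p C) := by
  have hC' : Fac X' (pull X'.μ p C) := b.t.fpull X' X p C hp hC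
  have hK' := kb.fac X' _ hX' hC'
  have hK := kb.fac X C hX hC
  have hP : Fac X' (pull X'.μ p X.ms) := b.t.fpull X' X p X.ms hp (b.t.top X)
  refine sup_le ?_ hK'.nl
  rintro _ ⟨s, hs, rfl⟩
  have hg : BM X.μ (KK X C) (s.indicator fun _ => (1 : ℂ)) := Fib27.BM.indicator hs
  have hG : BM X'.μ (pull X'.μ p X.ms) fun x => s.indicator (fun _ => (1 : ℂ)) (p x) :=
    b.a.bm_comp X.ms X'.μ X.μ p _ hp.mp (hg.mono hK.le)
  set G : X'.X → ℂ := fun x => s.indicator (fun _ => (1 : ℂ)) (p x) with hGd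
  have hGm := hG.mono hP.le
  have hE : BM X'.μ (KK X' (pull X'.μ p C)) (X'.μ[G | KK X' (pull X'.μ p C)]) := hG.ce _
  have hh : BM X'.μ X'.ms fun x => G x - (X'.μ[G | KK X' (pull X'.μ p C)]) x :=
    hGm.sub (hE.mono hK'.le)
  set h : X'.X → ℂ := fun x => G x - (X'.μ[G | KK X' (pull X'.μ p C)]) x with hhd
  have hz : X'.μ[h | KK X' (pull X'.μ p C)] =ᵐ[X'.μ] 0 := by
    filter_upwards [Fib27.ce_sub hGm (hE.mono hK'.le) (KK X' (pull X'.μ p C)),
      hE.ce_self hK'.le] with x h1 h2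
    rw [hhd, h1, h2]; simp
  have hzc : X'.μ[fun x => conj (h x) | KK X' (pull X'.μ p C)] =ᵐ[X'.μ] 0 := by
    filter_upwards [Fib27.ce_conj hK'.le hh, hz] with x h1 h2
    rw [h1, h2]; simp
  have hw : WM X' (pull X'.μ p C) fun x => conj (h x) :=
    (kb.wm X' _ hX' hC' _ (hh.conj.memLp 2)).2 hzc
  obtain ⟨f0, h0, he⟩ := fact b hp (hh.conj.ce (pull X'.μ p X.ms))
  have hw0 := wm_down b hp hC hh.conj hw h0 he
  have hz0 := (kb.wm X C hX hC f0 hw0.1).1 hw0
  have i1 : ∫ x, f0 x * s.indicator (fun _ => (1 : ℂ)) x ∂X.μ = 0 :=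
    Fib27.perp_of_ce hK.le h0 hz0 _ hg
  have i2 : ∫ x, conj (h x) * G x ∂X'.μ = 0 := by
    rw [← Fib27.int_ce_mul hP.le hh.conj hG, ← i1, ← int_up hp (h0.mul (hg.mono hK.le)).1]
    refine integral_congr_ae ?_
    filter_upwards [he] with x hx
    rw [hx]
  have i3 : ∫ x, conj (h x) * (X'.μ[G | KK X' (pull X'.μ p C)]) x ∂X'.μ = 0 :=
    Fib27.perp_of_ce hK'.le hh.conj hzc _ hE
  have i4 : ∫ x, h x * conj (h x) ∂X'.μ = 0 := by
    have := Fib27.int_sub_mul hGm (hE.mono hK'.le) hh.conj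
    rw [hhd] at this ⊢
    rw [this]
    simp only [mul_comm (G _), mul_comm ((X'.μ[G | KK X' (pull X'.μ p C)]) _)]
    rw [hhd] at i2 i3
    rw [i2, i3, sub_zero]
  have h5 := Fib27.eq_zero_of_int_conj hh i4
  have h6 : MeasurableSet[KK X' (pull X'.μ p C) ⊔ nul X'.μ] (p ⁻¹' s) := by
    refine (b.a.mem _ X'.μ hK'.le _).2 ⟨meas_up hp (hK.le s hs),
      X'.μ[G | KK X' (pull X'.μ p C)] ⁻¹' {1},
      stronglyMeasurable_condExp.measurable (measurableSet_singleton _), ?_⟩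
    filter_upwards [h5] with x hx
    have hx' : (X'.μ[G | KK X' (pull X'.μ p C)]) x = G x := (sub_eq_zero.1 hx).symm
    refine propext ?_
    change p x ∈ s ↔ (X'.μ[G | KK X' (pull X'.μ p C)]) x = 1
    rw [hx', hGd]
    by_cases hxs : p x ∈ s <;> simp [hxs]
  rwa [sup_eq_left.2 hK'.nl] at h6

theorem fn (b : Bas) (kb : KfB) (X' X : Sys) (p : X'.X → X.X) (B : MeasurableSpace X.X)
    (hX' : Nice X') (hX : Nice X) (hp : Emb X' X p) (hB : Fac X B) :
    pull X'.μ p (hull X B) ≤ hull X' (pull X'.μ p B) := by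
  have hH := kc b kb X' _ hX' (b.t.fpull X' X p B hp hB)
  refine ind b kb X B (fun C => pull X'.μ p C ≤ hull X' (pull X'.μ p B)) hX hB (le_hull _ _) ?_ ?_
  · intro C hC _ hq
    exact (kk_pull b kb hX' hX hp hC).trans
      ((kb.mono X' _ _ hX' (b.t.fpull X' X p C hp hC) hH.1 hq).trans hH.2)
  · intro 𝒞 _ _ h𝒞
    refine sup_le (MeasurableSpace.comap_le_iff_le_map.2 (sSup_le fun C hC => ?_)) hH.1.nl
    exact MeasurableSpace.comap_le_iff_le_map.1 (le_sup_left.trans (h𝒞 C hC).2.2)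

theorem trans (b : Bas) (X'' X' X : Sys) (B'' : MeasurableSpace X''.X)
    (B' : MeasurableSpace X'.X) (B : MeasurableSpace X.X) (q : X''.X → X'.X) (p : X'.X → X.X)
    (hB : Fac X B) (h2 : Adm X'' B'' X' B' q) (hB' : B' ≤ X'.ms) (h1 : Adm X' B' X B p) :
    Adm X'' B'' X B (p ∘ q) := by
  have he := b.t.emb_comp X'' X' X q p h2.emb h1.emb
  have e1 : ∀ D : MeasurableSpace X.X, pull X''.μ q (pull X'.μ p D) = pull X''.μ (p ∘ q) D :=
    fun D => b.a.pull_comp D X''.μ X'.μ q p h2.emb.mp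
  refine ⟨h2.nice, he, h2.kc, ?_, fun f hf => ?_⟩
  · rw [← e1]
    exact (pull_mono X''.μ q h1.le).trans h2.le
  · obtain ⟨f0, h0, hf0⟩ := fact b he hf
    have hP : pull X'.μ p X.ms ≤ X'.ms := b.a.pull_le X.ms X'.μ X.μ p h1.emb.mp le_rfl
    have hPB : pull X'.μ p B ≤ X'.ms := b.a.pull_le B X'.μ X.μ p h1.emb.mp hB.le
    have hf' : BM X''.μ (pull X''.μ q X'.ms) f := by
      refine hf.mono ?_
      rw [← e1]
      exact pull_mono X''.μ q hP
    have hg : BM X'.μ (pull X'.μ p X.ms) fun x => f0 (p x) :=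
      b.a.bm_comp X.ms X'.μ X.μ p f0 h1.emb.mp h0
    have a1 := h2.cp f hf'
    have a2 := b.a.ce_comp B' X''.μ X'.μ q _ h2.emb.mp hB' (hg.mono hP).integrable
    have a3 := ae_up h2.emb (h1.cp _ hg)
    have a4 := b.a.ce_comp (pull X'.μ p B) X''.μ X'.μ q _ h2.emb.mp hPB (hg.mono hP).integrable
    rw [e1] at a4
    filter_upwards [a1, a2, a3, a4, condExp_congr_ae (m := pull X''.μ q B') hf0,
      condExp_congr_ae (m := pull X''.μ (p ∘ q) B) hf0] with x a1 a2 a3 a4 a5 a6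
    rw [a1, a5, a6]
    exact a2.trans (a3.trans a4.symm)

end HfP

theorem hf : HfR := fun b ka kb =>
  { kc := HfP.kc b kb
    le := HfP.le_hull
    min := HfP.hull_min
    mono := HfP.hull_mono
    ind := HfP.ind b kb
    disj := HfP.disj b ka kb
    rwm := HfP.rwm b ka kb
    fn := HfP.fn b kb
    adm := fun X' X p B C hX' hX hp hB hC hle hcp =>
      ⟨hX', hp, HfP.kc b kb X' C hX' hC, hle.trans (HfP.le_hull X' C),
        HfP.disj b ka kb X' _ _ C hX' (b.t.fpull X' X p X.ms hp (b.t.top X))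
          (b.t.fpull X' X p B hp hB.1) hC (HfP.pull_mono X'.μ p hB.1.le) hle
          (HfP.rwm b ka kb X' X p B hX' hX hp hB) hcp⟩
    trans := fun X'' X' X B'' B' B q p hB h2 h1 =>
      HfP.trans b X'' X' X B'' B' B q p hB h2 h1.kc.1.le h1 }

end T3x

end

end PkHf

section PkProd

/-! Independent relatively weakly mixing extensions stay independent over the hull. -/

set_option autoImplicit false
set_option linter.unusedVariables false

open MeasureTheory ProbabilityTheory Filter Topology Function Finset ComplexConjugate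
open scoped BigOperators
open Fib27 (BM sup pr Perp)

noncomputable section

namespace T3x

namespace Prod

/-- a weakly mixing factor makes an independent product weakly mixing -/
theorem wm (b : Bas) (ka : KfA) (Z : Sys) (Y D R C : MeasurableSpace Z.X) (hZ : Nice Z)
    (hC : Fac Z C) (hY : Fac Z Y) (hR : Fac Z R) (cp : CP Y D C Z.μ)
    (ind : ∀ f g : Z.X → ℂ, BM Z.μ Y f → BM Z.μ R g →
      Z.μ[fun x => f x * g x | C] =ᵐ[Z.μ] fun x => (Z.μ[f | C]) x * (Z.μ[g | C]) x)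
    {u v : Z.X → ℂ} (hu : BM Z.μ Y u) (hw : WM Z D u) (hv : BM Z.μ R v) :
    WM Z C fun x => u x * v x := by
  obtain ⟨B, hB⟩ := hv.2
  have l := (hw.2 _ (hu.conj.mono hY.le)).const_mul (B * B)
  rw [mul_zero] at l
  refine ka.weak Z C hZ hC _ ((hu.mono hY.le).mul (hv.mono hR.le)) fun ε hε =>
    ((l.eventually (gt_mem_nhds hε)).mono fun N hN => le_trans ?_ hN.le).frequently
  rw [mul_left_comm, mul_sum _ _ (B * B)]
  refine mul_le_mul_of_nonneg_left (sum_le_sum fun n _ => ?_) (by positivity)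
  have a1 := (b.t.bm Z Y n u hY hu).mul hu.conj
  have a2 := (b.t.bm Z R n v hR hv).mul hv.conj
  have a3 : ∀ᵐ x ∂Z.μ, ‖v (Z.Tz n x) * conj (v x)‖ ≤ B * B := by
    filter_upwards [hB, (@MeasurePreserving.quasiMeasurePreserving _ _ Z.ms Z.ms _ _ _
      (b.t.mp Z n)).ae hB] with x h1 h2
    rw [norm_mul, Complex.norm_conj]
    exact mul_le_mul h2 h1 (norm_nonneg _) ((norm_nonneg _).trans h1)
  have e : (fun y => u (Z.Tz n y) * v (Z.Tz n y) * conj (u y * v y)) =
      fun y => u (Z.Tz n y) * conj (u y) * (v (Z.Tz n y) * conj (v y)) := funext fun y => by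
    rw [map_mul, mul_mul_mul_comm]
  rw [← integral_const_mul, e]
  refine integral_mono_ae integrable_condExp.norm (integrable_condExp.norm.const_mul _) ?_
  filter_upwards [ind _ _ a1 a2, cp _ a1, ae_bdd_norm_condExp_of_ae_bdd_norm (m := C) a3]
    with x h1 h2 h3
  rw [h1, h2, norm_mul, mul_comm]
  exact mul_le_mul_of_nonneg_right h3 (norm_nonneg _)

end Prod

theorem prodS : ProdR := by
  classical
  intro b ka kb hf Z ι Y D S C hZ hC hY hD hDY hDC rwm cp ci
  have hK := (kb.fac Z C hZ hC).le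
  have hCK := kb.le Z C hZ hC
  have fs := fun S' => b.t.fsp Z ι C Y S' hC hY
  have key : ∀ g, BM Z.μ (KK Z C) g → Perp Z.μ C g → ∀ S' ⊆ S, Perp Z.μ (sup Y S' ⊔ C) g := by
    intro g hg h0 S'
    induction S' using Finset.induction_on with
    | empty => exact fun _ => by rwa [Fib27.sup_empty', bot_sup_eq]
    | insert j S' hj ih =>
      intro hS
      have hjS := hS (mem_insert_self _ _)
      have hS' := (subset_insert _ _).trans hS
      rw [Fib27.sup_insert', sup_assoc]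
      refine Fib27.perp_sup (hY j).le (fs S').le (hg.mono hK) fun a c ha hc => ?_
      have a0 := ha.mono (hY j).le
      have a1 := ha.ce (D j)
      have a2 := ha.sub (a1.mono (hDY j))
      have w := Prod.wm b ka Z (Y j) (D j) _ C hZ hC (hY j) (fs S') (cp j hjS)
        (fun f f' p q => b.c.grp C Y S {j} S' Z.μ hC.le (fun i => (hY i).le) ci
          (singleton_subset_iff.2 hjS) hS' (disjoint_singleton_left.2 hj) f f'
          (p.mono ((Fib27.le_sup' Y (mem_singleton_self j)).trans le_sup_left)) q) a2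
        (rwm j _ a2 ((Fib27.perp_sub_ce (hD j).le a0).ce (hD j).le (a2.mono (hY j).le))) hc
      have c0 := hc.mono (fs S').le
      have e1 := Fib27.perp_of_ce hK ((a2.mono (hY j).le).mul c0)
        ((kb.wm Z C hZ hC _ w.1).1 w) g hg
      have e2 := ih hS' _ ((a1.mono ((hDC j hjS).trans le_sup_right)).mul hc)
      simp only [sub_mul] at e1
      rw [integral_sub ((a0.mul c0).mul (hg.mono hK)).integrable
        (((a1.mono (hD j).le).mul c0).mul (hg.mono hK)).integrable] at e1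
      simp only [mul_comm (g _)] at e2 ⊢
      rwa [e2, sub_zero] at e1
  have c2 : CP (sup Y S ⊔ C) C (hull Z C) Z.μ := by
    refine hf.disj Z _ C C hZ (fs S) hC hC le_sup_right le_rfl (fun f h1 h2 => ?_)
      fun f _ => EventuallyEq.rfl
    have f0 := h1.mono (fs S).le
    refine (kb.wm Z C hZ hC f (f0.memLp 2)).2 (Perp.ce (fun k hk => ?_) hK f0)
    have k0 := hk.mono hK
    have e1 := key _ (hk.sub ((hk.ce C).mono hCK)) (Fib27.perp_sub_ce hC.le k0) S Subset.rfl f h1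
    have e2 := Fib27.perp_of_ce hC.le f0 h2 _ (hk.ce C)
    rw [Fib27.int_sub_mul k0 ((hk.ce C).mono hC.le) f0] at e1
    simp only [mul_comm (f _)] at e2 ⊢
    rwa [e2, sub_zero] at e1
  have c3 : ∀ i ∈ S, CP (Y i) C (hull Z C) Z.μ := fun i hi f h =>
    c2 f (h.mono ((Fib27.le_sup' Y hi).trans le_sup_left))
  refine ⟨fun f h => ?_, c2, fun i hi f h => (c3 i hi f h).trans (cp i hi f h)⟩
  filter_upwards [c2 _ ((BM.pr_sup h).mono le_sup_left), ci f h,
    (Finset.eventually_all S).2 fun i hi => c3 i hi (f i) (h i hi)] with x h1 h2 h3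
  rw [h1, h2]
  exact prod_congr rfl fun i hi => (h3 i hi).symm

end T3x

end

end PkProd
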