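import Pool.Agent.MP_154433_an.t3.Spec

/-! One map, part 6 (packed). -/

section PkCptA

/-! Averages of convolutions vanish when one function is orthogonal to the good factor. -/

set_option autoImplicit false
set_option linter.unusedVariables false

open MeasureTheory ProbabilityTheory Filter Topology Function Finset ComplexConjugate
open scoped BigOperators
open Fib27 (BM sup pr)

noncomputable section

namespace T3x

namespace CptA

section Gen

variable {Ω : Type} {m m0 : MeasurableSpace Ω} {μ : Measure Ω}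

lemma bm_prod {ι : Type} (S : Finset ι) {f : ι → Ω → ℂ} (h : ∀ i ∈ S, BM μ m (f i)) :
    BM μ m fun x => ∏ i ∈ S, f i x := Fib27.BM.pr h

lemma bm_sum {ι : Type} (S : Finset ι) {f : ι → Ω → ℂ} (h : ∀ i ∈ S, BM μ m (f i)) :
    BM μ m fun x => ∑ i ∈ S, f i x := by
  classical
  induction S using Finset.induction_on with
  | empty => simpa using Fib27.BM.const (κ := μ) (m := m) 0
  | insert j S hj ih =>
    simp only [Finset.sum_insert hj]
    exact (h j (mem_insert_self _ _)).add (ih fun k hk => h k (mem_insert_of_mem hk))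

lemma bm_wsum {ι : Type} (S : Finset ι) (w : ι → ℝ) {f : ι → Ω → ℂ}
    (h : ∀ i ∈ S, BM μ m (f i)) : BM μ m fun x => ∑ i ∈ S, w i • f i x :=
  bm_sum S fun i hi => by simpa only [Complex.real_smul] using (h i hi).cmul (w i)

variable [IsProbabilityMeasure μ]

lemma int_sq {f : Ω → ℂ} (hf : BM μ m0 f) : Integrable (fun x => ‖f x‖ ^ 2) μ :=
  (hf.memLp 2).integrable_norm_pow (by norm_num)

lemma int_wsum {ι : Type} (S : Finset ι) (w : ι → ℝ) {f : ι → Ω → ℂ}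
    (h : ∀ i ∈ S, BM μ m0 (f i)) {t : Ω → ℂ} (ht : BM μ m0 t) :
    ∫ x, (∑ i ∈ S, w i • f i x) * t x ∂μ = ∑ i ∈ S, (w i : ℂ) * ∫ x, f i x * t x ∂μ := by
  simp only [Finset.sum_mul, Complex.real_smul, mul_assoc]
  rw [integral_finsetSum _ fun i hi => (((h i hi).mul ht).cmul (w i)).integrable]
  exact Finset.sum_congr rfl fun i _ => integral_const_mul _ _

lemma sq_wsum {ι : Type} (S : Finset ι) (w : ι → ℝ) {f : ι → Ω → ℂ}
    (h : ∀ i ∈ S, BM μ m0 (f i)) :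
    ∫ x, ‖∑ i ∈ S, w i • f i x‖ ^ 2 ∂μ =
      ∑ i ∈ S, ∑ j ∈ S, w i * w j * (∫ x, f i x * conj (f j x) ∂μ).re := by
  have e1 : ((∫ x, ‖∑ i ∈ S, w i • f i x‖ ^ 2 ∂μ : ℝ) : ℂ) =
      ∫ x, (∑ i ∈ S, w i • f i x) * conj (∑ i ∈ S, w i • f i x) ∂μ := by
    rw [← integral_complex_ofReal]
    refine integral_congr_ae (Eventually.of_forall fun x => ?_)
    simp only [Complex.mul_conj, Complex.normSq_eq_norm_sq]
  rw [int_wsum S w h (bm_wsum S w h).conj] at e1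
  have e2 : ∀ i ∈ S, ∫ x, f i x * conj (∑ j ∈ S, w j • f j x) ∂μ =
      ∑ j ∈ S, (w j : ℂ) * ∫ x, f i x * conj (f j x) ∂μ := by
    intro i hi
    have := int_wsum S w (fun j hj => (h j hj).conj) (h i hi)
    simp only [mul_comm (f i _)]
    rw [← this]
    refine integral_congr_ae (Eventually.of_forall fun x => ?_)
    simp only [map_sum, Complex.real_smul, map_mul, Complex.conj_ofReal]
  rw [Finset.sum_congr rfl fun i hi => by rw [e2 i hi]] at e1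
  have e3 := congrArg Complex.re e1
  rw [Complex.ofReal_re] at e3
  rw [e3]
  simp only [Complex.re_sum, Finset.mul_sum, Complex.re_ofReal_mul, mul_assoc]

lemma cs {Φ A : Ω → ℂ} {K : ℝ} (hK : 0 ≤ K) (hΦ : ∀ᵐ x ∂μ, ‖Φ x‖ ≤ K) (hA : BM μ m0 A) :
    ‖∫ x, A x * Φ x ∂μ‖ ^ 2 ≤ K ^ 2 * ∫ x, ‖A x‖ ^ 2 ∂μ := by
  have h1 : ‖∫ x, A x * Φ x ∂μ‖ ≤ K * ∫ x, ‖A x‖ ∂μ := by
    rw [← integral_const_mul]
    refine norm_integral_le_of_norm_le (hA.integrable.norm.const_mul K) ?_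
    filter_upwards [hΦ] with x hx
    rw [norm_mul, mul_comm]
    exact mul_le_mul_of_nonneg_right hx (norm_nonneg _)
  have h2 : (∫ x, ‖A x‖ ∂μ) ^ 2 ≤ ∫ x, ‖A x‖ ^ 2 ∂μ := by
    set t := ∫ x, ‖A x‖ ∂μ with ht
    have h3 : ∫ x, (2 * t * ‖A x‖ - t ^ 2) ∂μ ≤ ∫ x, ‖A x‖ ^ 2 ∂μ :=
      integral_mono ((hA.integrable.norm.const_mul _).sub (integrable_const _)) (int_sq hA)
        fun x => by nlinarith [sq_nonneg (‖A x‖ - t)]
    rw [integral_sub (hA.integrable.norm.const_mul _) (integrable_const _), integral_const_mul,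
      integral_const, ← ht] at h3
    simp only [probReal_univ, smul_eq_mul, one_mul] at h3
    nlinarith
  calc _ ≤ (K * ∫ x, ‖A x‖ ∂μ) ^ 2 := pow_le_pow_left₀ (norm_nonneg _) h1 2
    _ = K ^ 2 * (∫ x, ‖A x‖ ∂μ) ^ 2 := mul_pow _ _ _
    _ ≤ _ := mul_le_mul_of_nonneg_left h2 (sq_nonneg _)

lemma sq_le_two {u v : Ω → ℂ} (hu : BM μ m0 u) (hv : BM μ m0 v) :
    ∫ x, ‖u x‖ ^ 2 ∂μ ≤ 2 * ∫ x, ‖u x - v x‖ ^ 2 ∂μ + 2 * ∫ x, ‖v x‖ ^ 2 ∂μ := by
  rw [← integral_const_mul, ← integral_const_mul,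
    ← integral_add ((int_sq (hu.sub hv)).const_mul _) ((int_sq hv).const_mul _)]
  refine integral_mono (int_sq hu) (((int_sq (hu.sub hv)).const_mul _).add
    ((int_sq hv).const_mul _)) fun x => ?_
  have h : ‖u x‖ ≤ ‖u x - v x‖ + ‖v x‖ := by simpa using norm_add_le (u x - v x) (v x)
  have h' := pow_le_pow_left₀ (norm_nonneg _) h 2
  show ‖u x‖ ^ 2 ≤ 2 * ‖u x - v x‖ ^ 2 + 2 * ‖v x‖ ^ 2
  nlinarith [sq_nonneg (‖u x - v x‖ - ‖v x‖)]

end Gen

lemma jensen {ι : Type} (S : Finset ι) (w : ι → ℝ) (hw : ∀ i, 0 ≤ w i) (h1 : ∑ i ∈ S, w i = 1)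
    (x y : ι → ι → ℝ) (hxy : ∀ i j, x i j ^ 2 ≤ y i j) :
    (∑ i ∈ S, ∑ j ∈ S, w i * w j * x i j) ^ 2 ≤ ∑ i ∈ S, ∑ j ∈ S, w i * w j * y i j := by
  set t := ∑ i ∈ S, ∑ j ∈ S, w i * w j * x i j with ht
  have h2 : ∑ i ∈ S, ∑ j ∈ S, w i * w j = 1 := by
    rw [← Finset.sum_mul_sum, h1, one_mul]
  have h3 : ∑ i ∈ S, ∑ j ∈ S, (2 * t * (w i * w j * x i j) - t ^ 2 * (w i * w j)) ≤
      ∑ i ∈ S, ∑ j ∈ S, w i * w j * y i j := by
    refine Finset.sum_le_sum fun i _ => Finset.sum_le_sum fun j _ => ?_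
    have h4 : 2 * t * x i j - t ^ 2 ≤ y i j := by nlinarith [sq_nonneg (x i j - t), hxy i j]
    have h5 := mul_le_mul_of_nonneg_left h4 (mul_nonneg (hw i) (hw j))
    linarith
  simp only [Finset.sum_sub_distrib, ← Finset.mul_sum] at h3
  simp only [← Finset.mul_sum] at h2 ht
  rw [h2, ← ht] at h3
  nlinarith

variable (F : Fd) {X Z : Sys} {C : MeasurableSpace X.X} {p : Bool → Z.X → X.X}

include F

lemma bmc {Y : Sys} {q : Z.X → Y.X} (hq : MeasurePreserving q Z.μ Y.μ) {f : Y.X → ℂ}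
    (hf : BM Y.μ Y.ms f) : BM Z.μ Z.ms fun z => f (q z) :=
  (F.a.bm_comp Y.ms Z.μ Y.μ q f hq hf).mono (F.a.pull_le Y.ms Z.μ Y.μ q hq le_rfl)

lemma bmT {f : X.X → ℂ} (hf : BM X.μ X.ms f) (n : ℤ) : BM X.μ X.ms fun x => f (X.Tz n x) :=
  F.t.bm X X.ms n f (F.t.top X) hf

lemma aeT {f g : X.X → ℂ} (h : f =ᵐ[X.μ] g) (n : ℤ) :
    (fun x => f (X.Tz n x)) =ᵐ[X.μ] fun x => g (X.Tz n x) :=
  (F.t.mp X n).quasiMeasurePreserving.ae_eq_comp h

omit F in
lemma intc {Y : Sys} {q : Z.X → Y.X} (hq : MeasurePreserving q Z.μ Y.μ) {f : Y.X → ℂ}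
    (hf : BM Y.μ Y.ms f) : ∫ z, f (q z) ∂Z.μ = ∫ y, f y ∂Y.μ := by
  rw [← integral_map hq.measurable.aemeasurable (by rw [hq.map_eq]; exact hf.1), hq.map_eq]

omit F in
lemma aec {Y : Sys} {q : Z.X → Y.X} (hq : MeasurePreserving q Z.μ Y.μ) {f g : Y.X → ℂ}
    (h : f =ᵐ[Y.μ] g) : (fun z => f (q z)) =ᵐ[Z.μ] fun z => g (q z) :=
  hq.quasiMeasurePreserving.ae_eq_comp h

omit F in
lemma cmle {Y : Sys} {q : Z.X → Y.X} (hq : MeasurePreserving q Z.μ Y.μ) : Y.ms.comap q ≤ Z.ms :=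
  hq.measurable.comap_le

omit F in
lemma bm_of {a : X.X → ℂ} (ha : Measurable[X.ms] a) {K : ℝ} (hK : ∀ x, ‖a x‖ ≤ K) : BM X.μ X.ms a :=
  ⟨ha.aestronglyMeasurable, _, Eventually.of_forall hK⟩

lemma aeP {P : X.X → Prop} (h : ∀ᵐ x ∂X.μ, P x) (n : ℤ) : ∀ᵐ x ∂X.μ, P (X.Tz n x) :=
  (F.t.mp X n).quasiMeasurePreserving.ae h

lemma invT {H : Z.X → ℂ} (hH : BM Z.μ (Inv Z) H) (n : ℤ) :
    (fun z => H (Z.Tz n z)) =ᵐ[Z.μ] H := by
  have h1 := (F.t.inv_iff Z H (hH.1.mono (F.t.finv Z).le)).1 hH.1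
  have h2 : ∀ n : ℤ, (fun z => H (Z.Tz (n + 1) z)) =ᵐ[Z.μ] fun z => H (Z.Tz n z) := by
    intro n
    have := aeT F h1 n
    simpa only [add_comm n 1, F.t.add, F.t.one] using this
  induction n using Int.induction_on with
  | zero => simp only [F.t.zero]; rfl
  | succ n ih => exact (h2 n).trans ih
  | pred n ih =>
    refine (h2 _).symm.trans ?_
    simpa only [sub_add_cancel] using ih

lemma embT {q : Z.X → X.X} (hq : Emb Z X q) {f : X.X → ℂ} (hf : BM X.μ X.ms f) (n : ℤ) :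
    (fun z => f (q (Z.Tz n z))) =ᵐ[Z.μ] fun z => f (X.Tz n (q z)) :=
  F.a.keq_fun X.ms Z.μ X.μ (q ∘ Z.Tz n) (X.Tz n ∘ q) f (hq.mp.comp (F.t.mp Z n))
    ((F.t.mp X n).comp hq.mp) (F.t.emb_z Z X q n hq) hf.1

lemma starT (hP : Pair X C Z p) {H : Z.X → ℂ} {g k : X.X → ℂ} (hH : BM Z.μ (Inv Z) H)
    (hg : BM X.μ X.ms g) (hk : BM X.μ X.ms k) (hS : Star p H g k) (n : ℤ) :
    Star p H (fun x => g (X.Tz n x)) fun x => k (X.Tz n x) := by
  have hH' : BM Z.μ Z.ms H := hH.mono (F.t.finv Z).le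
  have hb : BM Z.μ Z.ms fun z => H z * g (p true z) := hH'.mul (bmc F (hP.emb true).mp hg)
  refine (embT F (hP.emb false) hk n).symm.trans ((aeT F hS n).trans ?_)
  refine (F.t.ce Z _ n _ (F.t.fpull Z X _ _ (hP.emb false) (F.t.top X)) hb.integrable).symm.trans ?_
  refine condExp_congr_ae ?_
  filter_upwards [invT F hH n, embT F (hP.emb true) hg n] with z h1 h2
  rw [h1, h2]

lemma starC (hP : Pair X C Z p) {H : Z.X → ℂ} {g k : X.X → ℂ} (hH : BM Z.μ Z.ms H)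
    (hg : BM X.μ X.ms g) (hS : Star p H g k) :
    Star p (fun z => conj (H z)) (fun x => conj (g x)) fun x => conj (k x) := by
  have hb : BM Z.μ Z.ms fun z => H z * g (p true z) := hH.mul (bmc F (hP.emb true).mp hg)
  have h1 := Fib27.ce_conj (F.a.pull_le X.ms Z.μ X.μ _ (hP.emb false).mp le_rfl) hb
  simp only [map_mul] at h1
  refine EventuallyEq.trans ?_ h1.symm
  filter_upwards [hS] with z hz
  rw [hz]

lemma pairCE (hC : Fac X C) (hP : Pair X C Z p) {f : X.X → ℂ} (hf : BM X.μ X.ms f) :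
    (fun z => (X.μ[f | C]) (p false z)) =ᵐ[Z.μ]
      Z.μ[fun z => f (p true z) | pull Z.μ (p false) X.ms] := by
  have hid : pull X.μ id C = C := by
    rw [pull, MeasurableSpace.comap_id]
    exact sup_eq_left.2 hC.nl
  have hm := F.a.pull_le X.ms Z.μ X.μ _ (hP.emb false).mp le_rfl
  have hE : BM X.μ X.ms (X.μ[f | C]) := (hf.ce C).mono hC.le
  refine (Fib27.ce_eq_of_tests hm (bmc F (hP.emb true).mp hf)
    (F.a.bm_comp X.ms Z.μ X.μ _ _ (hP.emb false).mp hE) fun c hc => ?_).symm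
  obtain ⟨hc1, K, hK⟩ := hc
  obtain ⟨a, ha1, ha2, ha3⟩ := F.a.fact X.ms Z.μ (p false) c (max K 0)
    (cmle (hP.emb false).mp) (le_max_right _ _) hc1
    (hK.mono fun z hz => hz.trans (le_max_left _ _))
  have ha : BM X.μ X.ms a := bm_of ha1 ha2
  have hA : BM X.μ X.ms (X.μ[a | C]) := (ha.ce C).mono hC.le
  have h1 := hP.ind univ (fun b => cond b f a) (fun b _ => by cases b <;> assumption)
  simp only [Fintype.prod_bool, cond_true, cond_false, hid] at h1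
  have h2 := F.a.keq_fun C Z.μ X.μ (p true) (p false) (X.μ[f | C]) (hP.emb true).mp
    (hP.emb false).mp (hP.com true) (hf.ce C).1
  calc ∫ z, f (p true z) * c z ∂Z.μ = ∫ z, f (p true z) * a (p false z) ∂Z.μ := by
        refine integral_congr_ae ?_
        filter_upwards [ha3] with z hz
        rw [hz]
    _ = ∫ z, (X.μ[f | C]) (p true z) * (X.μ[a | C]) (p false z) ∂Z.μ := by
        rw [← integral_congr_ae h1,
          integral_condExp (F.a.pull_le C Z.μ X.μ (id ∘ p false) (hP.emb false).mp hC.le)]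
    _ = ∫ z, (X.μ[f | C]) (p false z) * (X.μ[a | C]) (p false z) ∂Z.μ := by
        refine integral_congr_ae ?_
        filter_upwards [h2] with z hz
        rw [hz]
    _ = ∫ x, (X.μ[f | C]) x * (X.μ[a | C]) x ∂X.μ := intc (hP.emb false).mp (hE.mul hA)
    _ = ∫ x, (X.μ[f | C]) x * a x ∂X.μ := Fib27.int_mul_ce hC.le (hf.ce C) ha
    _ = ∫ z, (X.μ[f | C]) (p false z) * a (p false z) ∂Z.μ :=
        (intc (hP.emb false).mp (hE.mul ha)).symm
    _ = _ := by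
        refine integral_congr_ae ?_
        filter_upwards [ha3] with z hz
        rw [hz]

lemma rpInt {J : Type} [Fintype J] {j0 : J} {q : Z.X → X.X} (hq : Emb Z X q) {W : Sys}
    {P : J → W.X → Z.X} (hW : IsRP (fun _ : J => Z) X X.ms (fun _ => q) j0 W P)
    (G : J → Z.X → ℂ) (u : J → X.X → ℂ) (hG : ∀ j, BM Z.μ Z.ms (G j))
    (hu : ∀ j, BM X.μ X.ms (u j))
    (h : ∀ j, (fun z => u j (q z)) =ᵐ[Z.μ] Z.μ[G j | pull Z.μ q X.ms]) :
    ∫ w, ∏ j, G j (P j w) ∂W.μ = ∫ x, ∏ j, u j x ∂X.μ := by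
  have hm : ∀ j, MeasurePreserving (q ∘ P j) W.μ X.μ := fun j => hq.mp.comp (hW.emb j).mp
  rw [← integral_condExp (F.a.pull_le X.ms W.μ X.μ _ (hm j0) le_rfl),
    integral_congr_ae (hW.ind univ G fun j _ => hG j),
    ← intc (hm j0) (bm_prod univ fun j _ => hu j)]
  refine integral_congr_ae ?_
  have h1 : ∀ j, ∀ᵐ w ∂W.μ, (Z.μ[G j | pull Z.μ q X.ms]) (P j w) = u j ((q ∘ P j0) w) := by
    intro j
    have h2 := (hW.emb j).mp.quasiMeasurePreserving.ae_eq_comp (h j)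
    have h3 := F.a.keq_fun X.ms W.μ X.μ _ _ (u j) (hm j) (hm j0) (hW.com j) (hu j).1
    exact h2.symm.trans h3
  filter_upwards [ae_all_iff.2 h1] with w hw
  exact Finset.prod_congr rfl fun j _ => hw j

lemma key (hC : Fac X C) (hP : Pair X C Z p) {J : Type} [Fintype J] (j0 : J) (H : J → Z.X → ℂ)
    (g k : J → X.X → ℂ) (h : ∀ j, BM Z.μ (Inv Z) (H j) ∧ BM X.μ X.ms (g j) ∧ BM X.μ X.ms (k j) ∧
      Star p (H j) (g j) (k j)) :
    ∃ K : ℝ, 0 ≤ K ∧ ∀ (N : ℕ), 1 ≤ N → ∀ (ρ : J → ℤ) (c : ℕ → ℕ → J → X.X → ℂ),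
      (∀ n n' j, BM X.μ X.ms (c n n' j)) →
      (∀ (n n' : ℕ) j, c n n' j =ᵐ[X.μ]
        X.μ[fun y => g j (X.Tz n y) * conj (g j (X.Tz n' y)) | C]) →
      ‖∫ x, ∏ j, k j (X.Tz (ρ j) x) ∂X.μ‖ ^ 2 ≤ K * ∑ n ∈ range N, ∑ n' ∈ range N,
        (N : ℝ)⁻¹ * (N : ℝ)⁻¹ * (∫ x, ∏ j, c n n' j (X.Tz (ρ j) x) ∂X.μ).re := by
  obtain ⟨W, P, hW⟩ := F.rp J (fun _ => Z) X X.ms (fun _ => p false) j0 (fun _ => hP.nice)
    (F.t.top X) (fun _ => (hP.emb false).mp) fun _ => F.t.emb_z Z X _ 1 (hP.emb false)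
  have hH : ∀ j, BM Z.μ Z.ms (H j) := fun j => (h j).1.mono (F.t.finv Z).le
  obtain ⟨-, K, hK⟩ : BM W.μ W.ms fun w => ∏ j, H j (P j w) :=
    bm_prod univ fun j _ => bmc F (hW.emb j).mp (hH j)
  have hΦ : BM W.μ W.ms fun w => ∏ j, H j (P j w) :=
    bm_prod univ fun j _ => bmc F (hW.emb j).mp (hH j)
  refine ⟨max K 0 ^ 2, sq_nonneg _, fun N hN ρ c hc hc' => ?_⟩
  have hgz : ∀ j (n : ℤ), BM Z.μ Z.ms fun z => g j (X.Tz n (X.Tz (ρ j) (p true z))) := fun j n =>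
    bmc F (hP.emb true).mp (bmT F (bmT F (h j).2.1 n) (ρ j))
  let Ψ : ℕ → W.X → ℂ := fun n w => ∏ j, g j (X.Tz n (X.Tz (ρ j) (p true (P j w))))
  have hΨ : ∀ n, BM W.μ W.ms (Ψ n) := fun n =>
    bm_prod univ fun j _ => bmc F (hW.emb j).mp (hgz j n)
  have e1 : ∀ n : ℕ, ∫ w, Ψ n w * ∏ j, H j (P j w) ∂W.μ = ∫ x, ∏ j, k j (X.Tz (ρ j) x) ∂X.μ := by
    intro n
    have h1 := rpInt F (hP.emb false) hW
      (fun j z => H j z * g j (X.Tz n (X.Tz (ρ j) (p true z))))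
      (fun j x => k j (X.Tz n (X.Tz (ρ j) x))) (fun j => (hH j).mul (hgz j n))
      (fun j => bmT F (bmT F (h j).2.2.1 n) (ρ j)) fun j =>
        starT F hP (h j).1 (bmT F (h j).2.1 n) (bmT F (h j).2.2.1 n)
          (starT F hP (h j).1 (h j).2.1 (h j).2.2.1 (h j).2.2.2 n) (ρ j)
    simp only [Finset.prod_mul_distrib] at h1
    simp only [Ψ, mul_comm _ (∏ j, H j (P j _))]
    rw [h1, ← intc (F.t.mp X n) (bm_prod univ fun j _ => bmT F (h j).2.2.1 (ρ j))]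
    simp only [← F.t.add, add_comm]
  have e2 : ∀ n n' : ℕ, ∫ w, Ψ n w * conj (Ψ n' w) ∂W.μ =
      ∫ x, ∏ j, c n n' j (X.Tz (ρ j) x) ∂X.μ := by
    intro n n'
    have hb : ∀ j, BM X.μ X.ms fun y => g j (X.Tz n y) * conj (g j (X.Tz n' y)) := fun j =>
      (bmT F (h j).2.1 n).mul (bmT F (h j).2.1 n').conj
    have h1 := rpInt F (hP.emb false) hW
      (fun j z => g j (X.Tz n (X.Tz (ρ j) (p true z))) *
        conj (g j (X.Tz n' (X.Tz (ρ j) (p true z)))))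
      (fun j x => c n n' j (X.Tz (ρ j) x)) (fun j => (hgz j n).mul (hgz j n').conj)
      (fun j => bmT F (hc n n' j) (ρ j)) fun j => by
        refine EventuallyEq.trans ?_ (pairCE F hC hP (bmT F (hb j) (ρ j)))
        exact aec (hP.emb false).mp
          ((aeT F (hc' n n' j) (ρ j)).trans (F.t.ce X C (ρ j) _ hC (hb j).integrable).symm)
    rw [← h1]
    simp only [Ψ, map_prod, Finset.prod_mul_distrib]
  have hN' : (N : ℂ) ≠ 0 := by exact_mod_cast (by omega : N ≠ 0)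
  have e3 : ∫ x, ∏ j, k j (X.Tz (ρ j) x) ∂X.μ =
      ∫ w, (∑ n ∈ range N, (N : ℝ)⁻¹ • Ψ n w) * ∏ j, H j (P j w) ∂W.μ := by
    rw [int_wsum (range N) (fun _ => (N : ℝ)⁻¹) (fun n _ => hΨ n) hΦ]
    simp only [e1, Finset.sum_const, Finset.card_range, nsmul_eq_mul]
    push_cast
    rw [← mul_assoc, mul_inv_cancel₀ hN', one_mul]
  rw [e3]
  refine (cs (le_max_right K 0) (hK.mono fun w hw => hw.trans (le_max_left _ _))
    (bm_wsum (range N) (fun _ => (N : ℝ)⁻¹) fun n _ => hΨ n)).trans (le_of_eq ?_)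
  rw [sq_wsum (range N) (fun _ => (N : ℝ)⁻¹) fun n _ => hΨ n]
  simp only [e2]

variable {ι : Type} [Fintype ι] [DecidableEq ι] (r : ι → ℤ)

omit [DecidableEq ι] in
lemma bm_avg {B : MeasurableSpace X.X} (hB : Fac X B) (ν : Wt) (M : ℕ) {f : ι → X.X → ℂ}
    (hf : ∀ i, BM X.μ B (f i)) : BM X.μ B (avg ν M X r f) :=
  bm_wsum (ν.sp M) (ν.w M) fun d _ => bm_prod univ fun i _ => F.t.bm X B _ _ hB (hf i)

omit [DecidableEq ι] in
lemma sq_avg (ν : Wt) (M : ℕ) {f : ι → X.X → ℂ} (hf : ∀ i, BM X.μ X.ms (f i)) :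
    ∫ x, ‖avg ν M X r f x‖ ^ 2 ∂X.μ = ∑ d ∈ ν.sp M, ∑ d' ∈ ν.sp M, ν.w M d * ν.w M d' *
      (∫ x, ∏ j : ι ⊕ ι, Sum.elim f (fun i y => conj (f i y)) j
        (X.Tz (Sum.elim (fun i => r i * d) (fun i => r i * d') j) x) ∂X.μ).re := by
  have := sq_wsum (μ := X.μ) (ν.sp M) (ν.w M) (f := fun d x => ∏ i, f i (X.Tz (r i * d) x))
    fun d _ => bm_prod univ fun i _ => bmT F (hf i) _
  simp only [Fintype.prod_sum_type, Sum.elim_inl, Sum.elim_inr, ← map_prod]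
  exact this

lemma drop (hC : Fac X C) (ν : Wt) (M : ℕ) {c : ι → X.X → ℂ} (hc : ∀ i, BM X.μ C (c i)) (i0 : ι)
    {G : X.X → ℂ} (hG : BM X.μ X.ms G) (h0 : c i0 = X.μ[G | C]) :
    ∫ x, ‖avg ν M X r c x‖ ^ 2 ∂X.μ ≤ ∫ x, ‖avg ν M X r (update c i0 G) x‖ ^ 2 ∂X.μ := by
  have hu : ∀ i, BM X.μ X.ms (update c i0 G i) := fun i => by
    rcases eq_or_ne i i0 with rfl | hi
    · rwa [update_self]
    · rw [update_of_ne hi]
      exact (hc i).mono hC.le
  have hv := bm_avg F r (F.t.top X) ν M hu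
  have h1 : X.μ[avg ν M X r (update c i0 G) | C] =ᵐ[X.μ] avg ν M X r c := by
    refine Fib27.ce_eq_of_tests hC.le hv (bm_avg F r hC ν M hc) fun t ht => ?_
    refine (int_wsum (ν.sp M) (ν.w M) (fun d _ => bm_prod univ fun i _ => bmT F (hu i) _)
      (ht.mono hC.le)).trans (Eq.trans ?_ (int_wsum (ν.sp M) (ν.w M)
        (fun d _ => bm_prod univ fun i _ => bmT F ((hc i).mono hC.le) _) (ht.mono hC.le)).symm)
    refine Finset.sum_congr rfl fun d _ => congrArg _ ?_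
    have hb : BM X.μ C fun x => (∏ i ∈ univ.erase i0, c i (X.Tz (r i * d) x)) * t x :=
      (bm_prod _ fun i _ => F.t.bm X C _ _ hC (hc i)).mul ht
    have e1 : ∀ x, (∏ i, update c i0 G i (X.Tz (r i * d) x)) * t x =
        G (X.Tz (r i0 * d) x) * ((∏ i ∈ univ.erase i0, c i (X.Tz (r i * d) x)) * t x) := by
      intro x
      rw [← Finset.mul_prod_erase univ _ (mem_univ i0), update_self, mul_assoc,
        Finset.prod_congr rfl fun i hi => by rw [update_of_ne (ne_of_mem_erase hi)]]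
    simp only [e1]
    rw [← Fib27.int_ce_mul hC.le (bmT F hG _) hb]
    refine integral_congr_ae ?_
    filter_upwards [F.t.ce X C (r i0 * d) G hC hG.integrable] with x hx
    rw [hx, ← Finset.mul_prod_erase univ _ (mem_univ i0), mul_assoc, h0]
  have h2 := (F.d.eqn C X.ms X.μ hC.le le_rfl _ (hv.memLp 2)).1
  refine le_trans (le_of_eq (integral_congr_ae ?_)) (h2.trans (le_of_eq (integral_congr_ae ?_)))
  · filter_upwards [h1] with x hx
    rw [hx]
  · filter_upwards [hv.ce_self le_rfl] with x hx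
    rw [hx]

lemma core {ν' ν'' : Wt} {B0 : MeasurableSpace X.X} (hB : B0 ≤ C) (hC : Fac X C)
    (hP : Pair X C Z p) (hGood : Good ν'' ν' X r C) (hG0 : G0 ν' X r B0) (H : ι → Z.X → ℂ)
    (g k : ι → X.X → ℂ) (i0 : ι)
    (h : ∀ i, BM Z.μ (Inv Z) (H i) ∧ BM X.μ X.ms (g i) ∧ BM X.μ X.ms (k i) ∧
      Star p (H i) (g i) (k i)) (hg1 : ∀ i, ∀ᵐ x ∂X.μ, ‖g i x‖ ≤ 1)
    (h0 : X.μ[g i0 | C] =ᵐ[X.μ] 0) :
    Tendsto (fun M => ∫ x, ‖avg ν'' M X r k x‖ ^ 2 ∂X.μ) atTop (𝓝 0) := by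
  obtain ⟨K, hK, hkey⟩ := key F hC hP (Sum.inl i0 : ι ⊕ ι) (Sum.elim H fun i z => conj (H i z))
    (Sum.elim g fun i y => conj (g i y)) (Sum.elim k fun i y => conj (k i y)) (by
      rintro (i | i)
      · exact h i
      · exact ⟨(h i).1.conj, (h i).2.1.conj, (h i).2.2.1.conj,
          starC F hP ((h i).1.mono (F.t.finv Z).le) (h i).2.1 (h i).2.2.2⟩)
  let G : ℕ → ℕ → ι → X.X → ℂ := fun n n' i y => g i (X.Tz n y) * conj (g i (X.Tz n' y))
  have hG : ∀ n n' i, BM X.μ X.ms (G n n' i) := fun n n' i =>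
    (bmT F (h i).2.1 n).mul (bmT F (h i).2.1 n').conj
  let c : ℕ → ℕ → ι → X.X → ℂ := fun n n' i => X.μ[G n n' i | C]
  have hc : ∀ n n' i, BM X.μ C (c n n' i) := fun n n' i => (hG n n' i).ce C
  have hc' : ∀ n n' i, BM X.μ X.ms (c n n' i) := fun n n' i => (hc n n' i).mono hC.le
  have hc1 : ∀ n n' i, ∀ᵐ x ∂X.μ, ‖c n n' i x‖ ≤ 1 := fun n n' i => by
    refine ae_bdd_norm_condExp_of_ae_bdd_norm ?_
    filter_upwards [aeP F (hg1 i) n, aeP F (hg1 i) n'] with x h1 h2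
    rw [norm_mul, Complex.norm_conj]
    exact mul_le_one₀ h1 (norm_nonneg _) h2
  have main : ∀ N M, 1 ≤ N → (∫ x, ‖avg ν'' M X r k x‖ ^ 2 ∂X.μ) ^ 2 ≤
      K * ∑ n ∈ range N, ∑ n' ∈ range N,
        (N : ℝ)⁻¹ * (N : ℝ)⁻¹ * ∫ x, ‖avg ν'' M X r (c n n') x‖ ^ 2 ∂X.μ := by
    intro N M hN
    rw [sq_avg F r ν'' M fun i => (h i).2.2.1]
    refine (jensen _ _ (ν''.nn M) (ν''.one M) _ _ fun d d' => le_trans
      ((sq_abs _).symm.trans_le (pow_le_pow_left₀ (abs_nonneg _) (Complex.abs_re_le_norm _) 2))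
      (hkey N hN (Sum.elim (fun i => r i * d) (fun i => r i * d'))
        (fun n n' => Sum.elim (c n n') fun i y => conj (c n n' i y)) ?_ ?_)).trans (le_of_eq ?_)
    · rintro n n' (i | i)
      · exact hc' n n' i
      · exact (hc' n n' i).conj
    · rintro n n' (i | i)
      · exact EventuallyEq.rfl
      · have := Fib27.ce_conj hC.le (hG n n' i)
        simp only [G, map_mul] at this
        exact this.symm
    · simp only [sq_avg F r ν'' M (hc' _ _), Finset.mul_sum]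
      simp only [Finset.sum_comm (s := ν''.sp M) (t := range N)]
      refine Finset.sum_congr rfl fun n _ => Finset.sum_congr rfl fun n' _ =>
        Finset.sum_congr rfl fun d _ => Finset.sum_congr rfl fun d' _ => by ring
  have hB0 : X.μ[g i0 | B0] =ᵐ[X.μ] 0 := by
    refine (condExp_condExp_of_le hB hC.le).symm.trans ((condExp_congr_ae h0).trans ?_)
    rw [condExp_zero]
  refine tendsto_order.2 ⟨fun a ha => Eventually.of_forall fun M =>
    ha.trans_le (integral_nonneg fun x => by positivity), fun ε hε => ?_⟩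
  have hδ : 0 < ε ^ 2 / (6 * K + 1) := by positivity
  obtain ⟨N, a, hN, ha, hs⟩ := hG0 (g i0) (h i0).2.1 (hg1 i0) hB0 i0 _ hδ
  have hev : ∀ n ∈ range N, ∀ n' ∈ range N, ∀ᶠ M in atTop,
      ∫ x, ‖avg ν'' M X r (c n n') x‖ ^ 2 ∂X.μ ≤ 4 * (ε ^ 2 / (6 * K + 1)) + 2 * a n n' := by
    intro n _ n' _
    filter_upwards [(tendsto_order.1 (hGood (c n n') (hc n n'))).2 _ hδ,
      hs n n' (c n n') _ (hc' n n') (hc1 n n') hδ] with M h1 h2
    have h3 := sq_le_two (bm_avg F r (F.t.top X) ν'' M (hc' n n'))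
      (bm_avg F r (F.t.top X) ν' M (hc' n n'))
    have h4 := (drop F r hC ν' M (hc n n') i0 (hG n n' i0) rfl).trans h2
    linarith
  filter_upwards [(Finset.eventually_all _).2 fun n hn => (Finset.eventually_all _).2 (hev n hn)]
    with M hM
  have hN' : (0 : ℝ) < N := by exact_mod_cast hN
  have h5 : ∑ n ∈ range N, ∑ n' ∈ range N,
      (N : ℝ)⁻¹ * (N : ℝ)⁻¹ * ∫ x, ‖avg ν'' M X r (c n n') x‖ ^ 2 ∂X.μ ≤
      6 * (ε ^ 2 / (6 * K + 1)) := by
    refine (Finset.sum_le_sum fun n hn => Finset.sum_le_sum fun n' hn' =>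
      mul_le_mul_of_nonneg_left (hM n hn n' hn') (by positivity)).trans ?_
    simp only [← Finset.mul_sum, Finset.sum_add_distrib, Finset.sum_const, Finset.card_range,
      nsmul_eq_mul]
    calc _ = (N : ℝ)⁻¹ * (N : ℝ)⁻¹ * (N * (N * (4 * (ε ^ 2 / (6 * K + 1)))) +
          2 * ∑ n ∈ range N, ∑ n' ∈ range N, a n n') := by ring
      _ ≤ (N : ℝ)⁻¹ * (N : ℝ)⁻¹ * (N * (N * (4 * (ε ^ 2 / (6 * K + 1)))) +
          2 * (ε ^ 2 / (6 * K + 1) * N ^ 2)) := by gcongr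
      _ = _ := by
        field_simp
        ring
  have h6 := (main N M hN).trans (mul_le_mul_of_nonneg_left h5 hK)
  have h7 : K * (6 * (ε ^ 2 / (6 * K + 1))) < ε ^ 2 := by
    have : ε ^ 2 = (6 * K + 1) * (ε ^ 2 / (6 * K + 1)) := by field_simp
    linarith
  exact lt_of_pow_lt_pow_left₀ 2 hε.le (h6.trans_lt h7)

end CptA

theorem cptA : CptAR := by
  intro F ν' ν'' X ι _ _ r B0 C Z p hX hB0 hC hB hP hGood hG0 H g k i0 h h0
  have hb : ∀ i, ∃ L : ℝ, 0 < L ∧ ∀ᵐ x ∂X.μ, ‖g i x‖ ≤ L := fun i => by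
    obtain ⟨L, hL⟩ := (h i).2.1.2
    exact ⟨max L 1, lt_max_of_lt_right one_pos, hL.mono fun x hx => hx.trans (le_max_left _ _)⟩
  choose L hL hLg using hb
  have hL' : ∀ i, (L i : ℂ) ≠ 0 := fun i => by exact_mod_cast (hL i).ne'
  refine CptA.core F r hB hC hP hGood hG0 (fun i z => (L i : ℂ) * H i z)
    (fun i x => (L i : ℂ)⁻¹ * g i x) k i0 (fun i => ⟨(h i).1.cmul _, (h i).2.1.cmul _,
      (h i).2.2.1, ?_⟩) (fun i => ?_) ?_
  · have e : (fun z => (L i : ℂ) * H i z * ((L i : ℂ)⁻¹ * g i (p true z))) =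
        fun z => H i z * g i (p true z) := by
      funext z
      have := hL' i
      field_simp
    unfold Star
    rw [e]
    exact (h i).2.2.2
  · filter_upwards [hLg i] with x hx
    rw [norm_mul, norm_inv, Complex.norm_real, Real.norm_of_nonneg (hL i).le,
      inv_mul_le_iff₀ (hL i), mul_one]
    exact hx
  · refine (Fib27.ce_cmul hC.le _ (h i0).2.1).trans ?_
    filter_upwards [h0] with x hx
    simp [hx]

end T3x

end

end PkCptA

section PkGf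

/-! Rows Gf, Cpt and Det: good factors. -/

set_option autoImplicit false
set_option linter.unusedVariables false
set_option linter.unusedSectionVars false

open MeasureTheory ProbabilityTheory Filter Topology Function Finset ComplexConjugate
open scoped BigOperators
open Fib27 (BM)

noncomputable section

namespace T3x

namespace GfL

section gen

variable {Ω Ω' : Type} {m m0 : MeasurableSpace Ω} {m0' : MeasurableSpace Ω'} {μ : Measure[m0] Ω}
  {μ' : Measure[m0'] Ω'}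

lemma bm_sum {κ : Type} (s : Finset κ) {a : κ → Ω → ℂ} (h : ∀ j ∈ s, BM μ m (a j)) :
    BM μ m fun x => ∑ j ∈ s, a j x := by
  classical
  induction s using Finset.induction_on with
  | empty => simpa using BM.const 0
  | insert j s hj ih =>
    simp only [sum_insert hj]
    exact (h j (mem_insert_self _ _)).add (ih fun k hk => h k (mem_insert_of_mem hk))

lemma bm_comp {p : Ω → Ω'} (hp : @MeasurePreserving _ _ m0 m0' p μ μ') {f : Ω' → ℂ}
    (h : BM μ' m0' f) : BM μ m0 fun x => f (p x) :=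
  ⟨h.1.comp_measurePreserving hp, h.2.imp fun _ hC => hp.quasiMeasurePreserving.ae hC⟩

lemma mpc {Ω'' : Type} {m0'' : MeasurableSpace Ω''} {μ'' : Measure[m0''] Ω''} {p : Ω → Ω'}
    {q : Ω' → Ω''} (hq : @MeasurePreserving _ _ m0' m0'' q μ' μ'')
    (hp : @MeasurePreserving _ _ m0 m0' p μ μ') : @MeasurePreserving _ _ m0 m0'' (q ∘ p) μ μ'' :=
  hq.comp hp

lemma int_comp {E : Type} [NormedAddCommGroup E] [NormedSpace ℝ E] {p : Ω → Ω'}
    (hp : @MeasurePreserving _ _ m0 m0' p μ μ') {f : Ω' → E} (h : AEStronglyMeasurable[m0'] f μ') :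
    ∫ x, f (p x) ∂μ = ∫ y, f y ∂μ' := by
  rw [← hp.map_eq] at h ⊢
  exact (integral_map hp.measurable.aemeasurable h).symm

lemma desc {p : Ω → Ω'} (hp : @MeasurePreserving _ _ m0 m0' p μ μ') {a b : Ω' → ℂ}
    (ha : BM μ' m0' a) (hb : BM μ' m0' b) (h : (fun x => a (p x)) =ᵐ[μ] fun x => b (p x)) :
    a =ᵐ[μ'] b :=
  (hp.measure_preimage (ha.1.nullMeasurableSet_eq_fun hb.1).compl).symm.trans h

variable [IsProbabilityMeasure μ]

lemma isq {a : Ω → ℂ} (h : BM μ m0 a) : Integrable (fun x => ‖a x‖ ^ 2) μ :=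
  (h.memLp ((2 : ℕ) : ENNReal)).integrable_norm_pow two_ne_zero

lemma n2_add {a b : Ω → ℂ} (ha : BM μ m0 a) (hb : BM μ m0 b) :
    ∫ x, ‖a x + b x‖ ^ 2 ∂μ ≤ 2 * ∫ x, ‖a x‖ ^ 2 ∂μ + 2 * ∫ x, ‖b x‖ ^ 2 ∂μ := by
  rw [← integral_const_mul, ← integral_const_mul,
    ← integral_add ((isq ha).const_mul 2) ((isq hb).const_mul 2)]
  refine integral_mono (isq (ha.add hb)) (((isq ha).const_mul 2).add ((isq hb).const_mul 2))
    fun x => ?_
  have h := pow_le_pow_left₀ (norm_nonneg _) (norm_add_le (a x) (b x)) 2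
  nlinarith [sq_nonneg (‖a x‖ - ‖b x‖)]

lemma n2_sub {a b : Ω → ℂ} (ha : BM μ m0 a) (hb : BM μ m0 b) :
    ∫ x, ‖a x - b x‖ ^ 2 ∂μ ≤ 2 * ∫ x, ‖a x‖ ^ 2 ∂μ + 2 * ∫ x, ‖b x‖ ^ 2 ∂μ := by
  simpa [sub_eq_add_neg] using n2_add ha (hb.cmul (-1))

/-- bounded functions that tend to zero in mean square -/
def Sm (μ : Measure[m0] Ω) (φ : ℕ → Ω → ℂ) : Prop :=
  Tendsto (fun M => ∫ x, ‖φ M x‖ ^ 2 ∂μ) atTop (𝓝 0)

lemma sm_of {φ a b : ℕ → Ω → ℂ} (ha : Sm μ a) (hb : Sm μ b) (h : ∀ M, ∫ x, ‖φ M x‖ ^ 2 ∂μ ≤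
    2 * ∫ x, ‖a M x‖ ^ 2 ∂μ + 2 * ∫ x, ‖b M x‖ ^ 2 ∂μ) : Sm μ φ :=
  squeeze_zero (fun _ => integral_nonneg fun _ => by positivity) h
    (by simpa using (ha.const_mul 2).add (hb.const_mul 2))

lemma sm_sum {κ : Type} (s : Finset κ) {a : κ → ℕ → Ω → ℂ} (h : ∀ j M, BM μ m0 (a j M))
    (h' : ∀ j, Sm μ (a j)) : Sm μ fun M x => ∑ j ∈ s, a j M x := by
  classical
  induction s using Finset.induction_on with
  | empty => simp [Sm]
  | insert j s hj ih =>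
    simp only [sum_insert hj]
    exact sm_of (h' j) ih fun M => n2_add (h j M) (bm_sum s fun k _ => h k M)

lemma sm_apx {φ : ℕ → Ω → ℂ} (h : ∀ ε : ℝ, 0 < ε → ∃ a b : ℕ → Ω → ℂ, Sm μ a ∧
    (∀ M, BM μ m0 (a M) ∧ BM μ m0 (b M) ∧ ∫ x, ‖b M x‖ ^ 2 ∂μ ≤ ε) ∧
    ∀ M x, φ M x = a M x + b M x) : Sm μ φ := by
  refine tendsto_order.2 ⟨fun c hc => Eventually.of_forall fun M =>
    hc.trans_le (integral_nonneg fun _ => by positivity), fun c hc => ?_⟩
  obtain ⟨a, b, h1, h2, h3⟩ := h (c / 4) (by positivity)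
  filter_upwards [(tendsto_order.1 h1).2 (c / 4) (by positivity)] with M hM
  simp only [h3]
  linarith [n2_add (h2 M).1 (h2 M).2.1, (h2 M).2.2]

end gen

variable {X : Sys} {ι : Type} [Fintype ι] [DecidableEq ι] {ν ν' : Wt} {r : ι → ℤ}
  {f : ι → X.X → ℂ}

omit [DecidableEq ι] in
lemma avg_eq (M : ℕ) (x : X.X) :
    avg ν M X r f x = ∑ d ∈ ν.sp M, (ν.w M d : ℂ) * ∏ i, f i (X.Tz (r i * d) x) := by
  simp only [avg, Wt.av, Complex.real_smul]

omit [DecidableEq ι] in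
lemma bm_avg (t : BasT) (hf : ∀ i, BM X.μ X.ms (f i)) (M : ℕ) : BM X.μ X.ms (avg ν M X r f) :=
  (bm_sum (ν.sp M) fun d _ => (BM.pr (S := univ) fun i _ =>
    bm_comp (t.mp X (r i * d)) (hf i)).cmul (ν.w M d : ℂ)).congr
    (Eventually.of_forall fun x => (avg_eq M x).symm)

lemma bm_upd (hf : ∀ i, BM X.μ X.ms (f i)) (i : ι) {h : X.X → ℂ} (hh : BM X.μ X.ms h) (j : ι) :
    BM X.μ X.ms (update f i h j) := by
  rcases eq_or_ne j i with rfl | e
  · rwa [update_self]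
  · rw [update_of_ne e]; exact hf j

lemma avg_upd (i : ι) (h : X.X → ℂ) (M : ℕ) (x : X.X) : avg ν M X r (update f i h) x =
    ∑ d ∈ ν.sp M, (ν.w M d : ℂ) *
      (h (X.Tz (r i * d) x) * ∏ j ∈ univ.erase i, f j (X.Tz (r j * d) x)) := by
  rw [avg_eq]
  refine sum_congr rfl fun d _ => ?_
  rw [← mul_prod_erase univ _ (mem_univ i), update_self]
  congr 2
  exact prod_congr rfl fun j hj => by rw [update_of_ne (ne_of_mem_erase hj)]

lemma avg_split (i : ι) {n : ℕ} (a : Fin n → X.X → ℂ) (M : ℕ) (x : X.X) :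
    avg ν M X r f x = ∑ j, avg ν M X r (update f i (a j)) x +
      avg ν M X r (update f i fun y => f i y - ∑ j, a j y) x := by
  conv_lhs => rw [← update_eq_self i f]
  simp only [avg_upd]
  rw [sum_comm, ← sum_add_distrib]
  refine sum_congr rfl fun d _ => ?_
  rw [← mul_sum, ← sum_mul]
  ring

lemma contr (t : BasT) (hf : ∀ i, BM X.μ X.ms (f i)) (i : ι) : ∃ K : ℝ, 0 < K ∧
    ∀ (ν : Wt) (M : ℕ) (h : X.X → ℂ), BM X.μ X.ms h →
      ∫ x, ‖avg ν M X r (update f i h) x‖ ^ 2 ∂X.μ ≤ K * ∫ x, ‖h x‖ ^ 2 ∂X.μ := by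
  choose C hC using fun j => (hf j).2
  obtain ⟨K, hK⟩ : ∃ K : ℝ, K = (∏ j ∈ univ.erase i, C j) ^ 2 + 1 := ⟨_, rfl⟩
  refine ⟨K, by rw [hK]; positivity, fun ν M h hh => ?_⟩
  have hi : ∀ d ∈ ν.sp M, Integrable (fun x => ν.w M d * (K * ‖h (X.Tz (r i * d) x)‖ ^ 2)) X.μ :=
    fun d _ => ((isq (bm_comp (t.mp X _) hh)).const_mul K).const_mul _
  refine (integral_mono_ae (isq (bm_avg t (bm_upd hf i hh) M)) (integrable_finsetSum _ hi)
    ?_).trans (le_of_eq ?_)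
  · filter_upwards [ae_all_iff.2 fun j => ae_all_iff.2 fun n : ℤ =>
      (t.mp X n).quasiMeasurePreserving.ae (hC j)] with x hx
    have cv : ConvexOn ℝ Set.univ fun z : ℂ => ‖z‖ ^ 2 :=
      convexOn_univ_norm.pow (fun _ _ => norm_nonneg _) 2
    have h1 := cv.map_sum_le (t := ν.sp M) (w := ν.w M) (p := fun d =>
      h (X.Tz (r i * d) x) * ∏ j ∈ univ.erase i, f j (X.Tz (r j * d) x))
      (fun d _ => ν.nn M d) (ν.one M) fun _ _ => Set.mem_univ _
    rw [avg_upd]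
    simp only [Complex.real_smul, smul_eq_mul] at h1
    refine h1.trans (sum_le_sum fun d _ => mul_le_mul_of_nonneg_left ?_ (ν.nn M d))
    rw [norm_mul, mul_pow, mul_comm, norm_prod, hK]
    refine mul_le_mul_of_nonneg_right (le_trans (pow_le_pow_left₀ (by positivity)
      (prod_le_prod (fun _ _ => norm_nonneg _) fun j _ => hx j _) 2) (by linarith)) (by positivity)
  · rw [integral_finsetSum _ hi, ← one_mul (K * _), ← ν.one M, sum_mul]
    refine sum_congr rfl fun d _ => ?_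
    rw [integral_const_mul, integral_const_mul,
      int_comp (f := fun y => ‖h y‖ ^ 2) (t.mp X _) (isq hh).1]

omit [DecidableEq ι] in
lemma avg_congr (t : BasT) {g : ι → X.X → ℂ} (h : ∀ i, f i =ᵐ[X.μ] g i) (M : ℕ) :
    avg ν M X r f =ᵐ[X.μ] avg ν M X r g := by
  filter_upwards [ae_all_iff.2 fun j => ae_all_iff.2 fun n : ℤ =>
    (t.mp X n).quasiMeasurePreserving.ae (h j)] with x hx
  simp only [avg_eq, hx]

lemma dense (t : BasT) {C : MeasurableSpace X.X} {T : Set (X.X → ℂ)} (hC : C ≤ X.ms)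
    (hT : ∀ φ ∈ T, BM X.μ X.ms φ)
    (h1 : ∀ g, BM X.μ C g → ∀ ε : ℝ, 0 < ε → ∃ (n : ℕ) (a : Fin n → X.X → ℂ), (∀ i, a i ∈ T) ∧
      ∫ x, ‖g x - ∑ i, a i x‖ ^ 2 ∂X.μ ≤ ε)
    (h2 : ∀ f : ι → X.X → ℂ, (∀ i, f i ∈ T) →
      Sm X.μ fun M x => avg ν M X r f x - avg ν' M X r f x) : Good ν ν' X r C := by
  have key : ∀ (S : Finset ι) (f : ι → X.X → ℂ), (∀ i ∈ S, BM X.μ C (f i)) → (∀ i ∉ S, f i ∈ T) →
      Sm X.μ fun M x => avg ν M X r f x - avg ν' M X r f x := by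
    intro S
    induction S using Finset.induction_on with
    | empty => exact fun f _ h => h2 f fun i => h i (notMem_empty i)
    | insert i S hi ih =>
      intro f k1 k2
      have hf : ∀ j, BM X.μ X.ms (f j) := fun j =>
        (em _).elim (fun h => (k1 j h).mono hC) fun h => hT _ (k2 j h)
      obtain ⟨K, hK, hc⟩ := contr (r := r) t hf i
      refine sm_apx fun ε hε => ?_
      obtain ⟨n, a, ha, hb⟩ := h1 (f i) (k1 i (mem_insert_self _ _)) (ε / (4 * K)) (by positivity)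
      have hd := (hf i).sub (bm_sum univ fun j _ => hT _ (ha j))
      have bm : ∀ j M, BM X.μ X.ms fun x => avg ν M X r (update f i (a j)) x -
          avg ν' M X r (update f i (a j)) x := fun j M =>
        (bm_avg t (bm_upd hf i (hT _ (ha j))) M).sub (bm_avg t (bm_upd hf i (hT _ (ha j))) M)
      refine ⟨_, fun M x => avg ν M X r (update f i fun y => f i y - ∑ j, a j y) x -
        avg ν' M X r (update f i fun y => f i y - ∑ j, a j y) x,
        sm_sum univ bm fun j => ih _ (fun k hk => ?_) fun k hk => ?_, fun M => ⟨bm_sum _ fun j _ =>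
          bm j M, (bm_avg t (bm_upd hf i hd) M).sub (bm_avg t (bm_upd hf i hd) M), ?_⟩,
        fun M x => ?_⟩
      · rw [update_of_ne (by rintro rfl; exact hi hk)]
        exact k1 k (mem_insert_of_mem hk)
      · rcases eq_or_ne k i with rfl | e
        · rw [update_self]; exact ha j
        · rw [update_of_ne e]; exact k2 k (by simp [e, hk])
      · have e1 := mul_le_mul_of_nonneg_left hb hK.le
        have e2 : K * (ε / (4 * K)) = ε / 4 := by field_simp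
        linarith [n2_sub (bm_avg (ν := ν) (r := r) t (bm_upd hf i hd) M)
          (bm_avg (ν := ν') (r := r) t (bm_upd hf i hd) M), hc ν M _ hd, hc ν' M _ hd]
      · rw [avg_split (ν := ν) i a, avg_split (ν := ν') i a, sum_sub_distrib]
        ring
  exact fun f hf => key univ f (fun i _ => hf i) fun i hi => absurd (mem_univ i) hi

end GfL

open GfL in
theorem gf : GfR := by
  rintro ⟨A, t, D, -⟩
  refine ⟨fun ν ν' X ι _ _ r C T hC hT h1 h2 => dense t hC.le hT h1 h2,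
    fun ν ν' X ι _ _ r 𝒞 hne hch h => ?_, fun ν ν' X X' e ι _ _ r he h hg f hf => ?_⟩
  · have hle := (t.fsSup X 𝒞 hne fun C hC => (h C hC).1).le
    refine dense t (T := {φ | ∃ C ∈ 𝒞, BM X.μ C φ}) hle
      (fun φ ⟨C, hC, hφ⟩ => hφ.mono (h C hC).1.le) (fun g hg ε hε => ?_) fun f hf => ?_
    · obtain ⟨C, hC, k⟩ := D.chain 𝒞 X.μ hne hch.directedOn (fun C hC => (h C hC).1.le) g
        ((hg.mono hle).memLp 2) ε hε
      refine ⟨1, fun _ => X.μ[g | C], fun _ => ⟨C, hC, hg.ce C⟩, le_trans (le_of_eq ?_)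
        (k C hC le_rfl)⟩
      refine integral_congr_ae ?_
      filter_upwards [BM.ce_self hle hg] with x hx
      rw [hx, Fin.sum_univ_one]
    · choose C hC hC' using hf
      have := hne.to_subtype
      obtain ⟨z, hz⟩ := hch.directedOn.directed_val.finite_le fun i => ⟨C i, hC i⟩
      exact (h z z.2).2 f fun i => (hC' i).mono (hz i)
  · have k : ∀ i, ∃ f' : X'.X → ℂ, BM X'.μ X'.ms f' ∧ f i =ᵐ[X.μ] fun x => f' (e x) := fun i => by
      obtain ⟨k1, C, hC⟩ := hf i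
      obtain ⟨f0, a1, a2, a3⟩ := A.rep X.ms X.μ (f i) (max C 0) (le_max_right _ _) k1
        (hC.mono fun _ h => h.trans (le_max_left _ _))
      obtain ⟨f', ⟨b1, C', b2⟩, b3⟩ := h f0 ⟨a1, _, a2⟩
      exact ⟨f', ⟨b1.aestronglyMeasurable, C', Eventually.of_forall b2⟩, by simpa only [b3]⟩
    choose f' k1 k2 using k
    have e1 : ∀ (ν : Wt) M, avg ν M X r f =ᵐ[X.μ] fun x => avg ν M X' r f' (e x) := fun ν M => by
      filter_upwards [avg_congr (ν := ν) (r := r) t k2 M, ae_all_iff.2 fun j =>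
        ae_all_iff.2 fun n : ℤ => A.keq_fun X'.ms X.μ X'.μ _ _ (f' j) (he.mp.comp (t.mp X n))
          ((t.mp X' n).comp he.mp) (t.emb_z X X' e n he) (k1 j).1] with x h1 h2
      rw [h1]
      simp only [avg_eq]
      exact sum_congr rfl fun d _ => congrArg _ (prod_congr rfl fun j _ => h2 j _)
    refine (hg f' k1).congr fun M => ?_
    rw [← int_comp he.mp (isq ((bm_avg t k1 M).sub (bm_avg t k1 M))).1]
    refine integral_congr_ae ?_
    filter_upwards [e1 ν M, e1 ν' M] with x h1 h2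
    rw [h1, h2]

open GfL in
theorem cpt : CptR := by
  intro F G hA ν ν' X ι _ _ r B0 C hX hB hC hBC hI hg h0
  obtain ⟨Z, p, hp⟩ : ∃ Z p, Pair X C Z p := F.rp Bool (fun _ => X) X C (fun _ => id) false
    (fun _ => hX) hC (fun _ => (F.t.emb_id X).mp) fun _ _ _ => EventuallyEq.rfl
  have mp : ∀ b, @MeasurePreserving _ _ Z.ms X.ms (p b) Z.μ X.μ := fun b => (hp.emb b).mp
  have hP := F.t.fpull Z X (p false) X.ms (hp.emb false) (F.t.top X)
  have b0 : ∀ c, BM X.μ X.ms c → BM Z.μ (pull Z.μ (p false) X.ms) fun z => c (p false z) :=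
    fun c hc => F.a.bm_comp X.ms Z.μ X.μ _ c (mp false) hc
  have sw : ∀ c, BM X.μ C c → (fun z => c (p true z)) =ᵐ[Z.μ] fun z => c (p false z) :=
    fun c hc => F.a.keq_fun C Z.μ X.μ _ _ c (mp true) (mp false) (hp.com true) hc.1
  refine G.dense ν ν' X ι r _ {k | BM X.μ X.ms k ∧ (BM X.μ C k ∨ ∃ H g, BM Z.μ (Inv Z) H ∧
    BM X.μ X.ms g ∧ Star p H g k ∧ X.μ[g | C] =ᵐ[X.μ] 0)} (F.kb.fac X C hX hC)
    (fun _ h => h.1) (fun k hk ε hε => ?_) fun f hf => ?_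
  · obtain ⟨n, H, g, k', h1, h2⟩ := F.kb.span X C Z p hX hC hp k hk ε hε
    have key : ∀ i, ∃ k1 k2 : X.X → ℂ, BM X.μ C k1 ∧ (BM X.μ X.ms k2 ∧ ∃ g', BM X.μ X.ms g' ∧
        Star p (H i) g' k2 ∧ X.μ[g' | C] =ᵐ[X.μ] 0) ∧ k' i =ᵐ[X.μ] fun x => k1 x + k2 x := by
      intro i
      obtain ⟨a1, a2, a3, a4⟩ := h1 i
      have aH := a1.mono (F.t.finv Z).le
      have hc := a2.ce C
      have hc' := hc.mono hC.le
      obtain ⟨k0, c1, c2⟩ := F.ka.star X C Z p hC hp _ _ aH (BM.const 1)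
      obtain ⟨k2, d1, d2⟩ := F.ka.star X C Z p hC hp _ _ aH (a2.sub hc')
      simp only [Star, mul_one] at c2
      have hk0 : BM X.μ C k0 := by
        refine (c1.of_aesm ((F.t.inv_iff X k0 c1.1).2 (desc (mp false) (bm_comp X.mp c1) c1
          ?_))).mono hI
        have e1 := F.a.keq_fun X.ms Z.μ X.μ _ _ k0 (mpc (mp false) Z.mp) (mpc X.mp (mp false))
          (hp.emb false).eqv c1.1
        have e2 := F.t.ce Z _ 1 (H i) hP aH.integrable
        simp only [F.t.one] at e2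
        filter_upwards [e1, Z.mp.quasiMeasurePreserving.ae c2, e2, c2, condExp_congr_ae
          (m := pull Z.μ (p false) X.ms) ((F.t.inv_iff Z _ aH.1).1 a1.1)] with z z1 z2 z3 z4 z5
        exact z1.symm.trans (z2.trans (z3.symm.trans (z5.trans z4.symm)))
      refine ⟨fun x => (X.μ[g i | C]) x * k0 x, k2, hc.mul hk0, ⟨d1, _, a2.sub hc', d2, ?_⟩,
        desc (mp false) a3 ((hc'.mul c1).add d1) ?_⟩
      · filter_upwards [condExp_sub a2.integrable hc'.integrable C, BM.ce_self hC.le hc]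
          with x x1 x2
        exact x1.trans (by rw [Pi.sub_apply, x2, sub_self]; rfl)
      · have e1 : (fun z => H i z * g i (p true z)) =ᵐ[Z.μ]
            (fun z => (X.μ[g i | C]) (p false z) * H i z) +
              fun z => H i z * (g i (p true z) - (X.μ[g i | C]) (p true z)) := by
          filter_upwards [sw _ hc] with z hz
          rw [Pi.add_apply, hz]
          ring
        filter_upwards [a4, condExp_congr_ae (m := pull Z.μ (p false) X.ms) e1, condExp_add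
          ((bm_comp (mp false) hc').mul aH).integrable
          (aH.mul (bm_comp (mp true) (a2.sub hc'))).integrable (pull Z.μ (p false) X.ms),
          Fib27.ce_mul hP.le (b0 _ hc') aH, c2, d2] with z z1 z2 z3 z4 z5 z6
        rw [z1, z2, z3, Pi.add_apply, z4, z5, z6]
    choose k1 k2 a1 a2 a3 using key
    refine ⟨n + n, Fin.append k1 k2, fun i => ?_, le_trans (le_of_eq (integral_congr_ae ?_)) h2⟩
    · refine Fin.addCases (fun j => ?_) (fun j => ?_) i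
      · rw [Fin.append_left]; exact ⟨(a1 j).mono hC.le, Or.inl (a1 j)⟩
      · rw [Fin.append_right]; exact ⟨(a2 j).1, Or.inr ⟨H j, (a2 j).2.imp fun _ h =>
          ⟨(h1 j).1, h⟩⟩⟩
    · filter_upwards [ae_all_iff.2 a3] with x hx
      simp only [Fin.sum_univ_add, Fin.append_left, Fin.append_right, hx, sum_add_distrib]
  · by_cases hall : ∀ i, BM X.μ C (f i)
    · exact hg f hall
    obtain ⟨i0, hi0⟩ := not_forall.1 hall
    have key : ∀ i, ∃ H g, (BM Z.μ (Inv Z) H ∧ BM X.μ X.ms g ∧ BM X.μ X.ms (f i) ∧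
        Star p H g (f i)) ∧ (¬ BM X.μ C (f i) → X.μ[g | C] =ᵐ[X.μ] 0) := fun i => by
      rcases (hf i).2 with h | ⟨H, g, a1, a2, a3, a4⟩
      · refine ⟨fun _ => 1, f i, ⟨BM.const 1, (hf i).1, (hf i).1, ?_⟩, fun h' => absurd h h'⟩
        simp only [Star, one_mul]
        exact ((condExp_congr_ae (sw _ h)).trans (BM.ce_self hP.le (b0 _ (hf i).1))).symm
      · exact ⟨H, g, ⟨a1, a2, (hf i).1, a3⟩, fun _ => a4⟩
    choose H g a1 a2 using key
    exact sm_of (hA ν' ν X ι r B0 C Z p hX hB hC hBC hp hg h0 H g f i0 a1 (a2 i0 hi0))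
      (hA ν' ν' X ι r B0 C Z p hX hB hC hBC hp (fun _ _ => by simp) h0 H g f i0 a1 (a2 i0 hi0))
      fun M => n2_sub (bm_avg F.t (fun i => (hf i).1) M) (bm_avg F.t (fun i => (hf i).1) M)

namespace GfL

lemma sq_trick {u v : ℕ → ℝ} (h0 : ∀ N, 0 ≤ u N) (h : ∀ δ : ℝ, 0 < δ → ∀ N, u N ≤ δ + v N / δ)
    (hv : Tendsto v atTop (𝓝 0)) : Tendsto u atTop (𝓝 0) := by
  refine tendsto_order.2 ⟨fun c hc => Eventually.of_forall fun N => hc.trans_le (h0 N),
    fun c hc => ?_⟩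
  filter_upwards [(tendsto_order.1 hv).2 (c / 2 * (c / 2)) (by positivity)] with N hN
  linarith [h (c / 2) (by positivity) N, (div_lt_iff₀ (by positivity : 0 < c / 2)).2 hN]

lemma le_sq {δ : ℝ} (hδ : 0 < δ) (t : ℝ) : t ≤ δ + t ^ 2 / δ := by
  rw [← sub_le_iff_le_add', le_div_iff₀ hδ]
  nlinarith [sq_nonneg (t - δ), sq_nonneg t]

/-- correlations in a weakly mixing system -/
lemma wmix (F : Fd) (X : Sys) (hE : Ergodic (Prod.map X.T X.T) (X.μ.prod X.μ)) {f g : X.X → ℂ}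
    (hf : BM X.μ X.ms f) (hg : BM X.μ X.ms g) (h0 : ∫ x, f x ∂X.μ = 0) :
    Tendsto (fun N : ℕ => (N : ℝ)⁻¹ * ∑ n ∈ range N, ‖∫ x, f (X.Tz n x) * g x ∂X.μ‖) atTop
      (𝓝 0) := by
  let Y : Sys := { X := X.X × X.X, μ := X.μ.prod X.μ, T := X.T.prodCongr X.T, mp := hE.1 }
  have hz : ∀ (n : ℕ) (z : Y.X), Y.Tz n z = (X.Tz n z.1, X.Tz n z.2) := fun n => by
    induction n with
    | zero => intro z; simp only [Nat.cast_zero, F.t.zero]; rfl
    | succ n ih => intro z; simp only [Nat.cast_succ, F.t.add, F.t.one, ih]; rfl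
  have sq : ∀ a, BM X.μ X.ms a → BM Y.μ Y.ms fun z => a z.1 * conj (a z.2) := fun a ha =>
    (bm_comp measurePreserving_fst ha).mul (bm_comp measurePreserving_snd ha.conj)
  have isq' : ∀ a : X.X → ℂ, ∫ z, a z.1 * conj (a z.2) ∂Y.μ = (‖∫ x, a x ∂X.μ‖ ^ 2 : ℝ) :=
    fun a => by
      rw [show Y.μ = X.μ.prod X.μ from rfl, integral_prod_mul a fun y => conj (a y),
        integral_conj, Complex.mul_conj']
      push_cast
      rfl
  have hI := (F.t.finv Y).le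
  have hc := (sq f hf).ce (Inv Y)
  obtain ⟨c, e1⟩ := hE.ae_eq_const_of_ae_eq_comp_ae (hc.mono hI).1
    ((F.t.inv_iff Y _ (hc.mono hI).1).1 hc.1)
  have e2 : c = 0 := by
    have := (integral_congr_ae e1).symm.trans (integral_condExp hI)
    rw [isq', h0] at this
    simpa using this
  have hA : ∀ N : ℕ, BM Y.μ Y.ms fun z => (N : ℂ)⁻¹ *
      ∑ n ∈ range N, f (Y.Tz n z).1 * conj (f (Y.Tz n z).2) := fun N =>
    (bm_sum (range N) fun (n : ℕ) _ => bm_comp (F.t.mp Y n) (sq f hf)).cmul _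
  have m1 : Tendsto (fun N : ℕ => ∫ z, ‖(N : ℂ)⁻¹ *
      ∑ n ∈ range N, f (Y.Tz n z).1 * conj (f (Y.Tz n z).2)‖ ∂Y.μ) atTop (𝓝 0) := by
    refine sq_trick (fun _ => integral_nonneg fun _ => norm_nonneg _) (fun δ hδ N => ?_)
      ((F.met Y _ ((sq f hf).memLp 2)).congr fun N => integral_congr_ae (e1.mono fun z h => by
        simp only [h, e2, const, sub_zero]; rfl))
    refine (integral_mono (hA N).integrable.norm ((integrable_const δ).add
      ((isq (hA N)).div_const δ)) fun z => le_sq hδ _).trans (le_of_eq ?_)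
    simp only [Pi.add_apply]
    rw [integral_add (integrable_const δ) ((isq (hA N)).div_const δ), integral_div,
      integral_const, probReal_univ, one_smul]
  obtain ⟨C, hC⟩ := (sq g hg).2
  have m2 : Tendsto (fun N : ℕ => (N : ℝ)⁻¹ *
      ∑ n ∈ range N, ‖∫ x, f (X.Tz n x) * g x ∂X.μ‖ ^ 2) atTop (𝓝 0) := by
    refine squeeze_zero (fun _ => by positivity) (fun N => ?_)
      (by simpa only [zero_mul] using m1.mul_const C)
    have e3 : (((N : ℝ)⁻¹ * ∑ n ∈ range N, ‖∫ x, f (X.Tz n x) * g x ∂X.μ‖ ^ 2 : ℝ) : ℂ) =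
        ∫ z, (N : ℂ)⁻¹ * (∑ n ∈ range N, f (Y.Tz n z).1 * conj (f (Y.Tz n z).2)) *
          (g z.1 * conj (g z.2)) ∂Y.μ := by
      simp only [mul_assoc, sum_mul]
      rw [integral_const_mul, integral_finsetSum _ fun n _ => by
        simpa only [mul_assoc] using
          ((bm_comp (F.t.mp Y n) (sq f hf)).mul (sq g hg)).integrable]
      rw [Complex.ofReal_mul, Complex.ofReal_sum, Complex.ofReal_inv, Complex.ofReal_natCast]
      refine congrArg _ (sum_congr rfl fun n _ => ?_)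
      rw [← isq' fun x => f (X.Tz n x) * g x]
      refine integral_congr_ae (Eventually.of_forall fun z => ?_)
      simp only [hz, map_mul]
      ring
    rw [← integral_mul_const]
    refine (le_abs_self _).trans ?_
    rw [← Real.norm_eq_abs, ← Complex.norm_real, e3]
    refine norm_integral_le_of_norm_le ((hA N).integrable.norm.mul_const C) (hC.mono fun z h => ?_)
    rw [norm_mul]
    exact mul_le_mul_of_nonneg_left h (norm_nonneg _)
  refine sq_trick (fun _ => by positivity) (fun δ hδ N => ?_) m2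
  refine (mul_le_mul_of_nonneg_left (sum_le_sum fun n _ => le_sq hδ _) (by positivity)).trans ?_
  rw [sum_add_distrib, sum_const, card_range, nsmul_eq_mul, ← sum_div, mul_add, mul_div_assoc,
    ← mul_assoc]
  exact add_le_add_left (mul_le_of_le_one_left hδ.le inv_mul_le_one) _

lemma ce_nul (A : BasA) (X : Sys) (f : X.X → ℂ) :
    X.μ[f | nul X.μ] =ᵐ[X.μ] fun _ => ∫ x, f x ∂X.μ := by
  simpa only [bot_sup_eq, condExp_bot] using A.ce ⊥ X.μ bot_le f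

lemma kc_nul (F : Fd) {X X' : Sys} {e : X.X → X'.X} (he : Emb X X' e)
    (hE : Ergodic (Prod.map X.T X.T) (X.μ.prod X.μ)) : KC X' (nul X'.μ) := by
  refine ⟨F.t.bot X', sup_le (iSup₂_le fun g ⟨⟨g1, C, g2⟩, g3⟩ => ?_) le_rfl⟩
  have hg : BM X'.μ X'.ms g := ⟨g1.aestronglyMeasurable, C, Eventually.of_forall g2⟩
  obtain ⟨c, hc⟩ : ∃ c, c = ∫ x, g x ∂X'.μ := ⟨_, rfl⟩
  have hd := hg.sub (BM.const c)
  have h0 : ∫ x, conj (g x - c) ∂X'.μ = 0 := by
    rw [integral_conj, integral_sub hg.integrable (integrable_const c), ← hc]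
    simp
  have h1 := g3 _ ⟨hd.conj.memLp 2, fun k hk => (wmix F X hE (bm_comp he.mp hd.conj)
    (bm_comp he.mp hk) ((int_comp he.mp hd.conj.1).trans h0)).congr fun N =>
      congrArg _ (sum_congr rfl fun n _ => ?_)⟩
  · have h2 := Fib27.eq_zero_of_int_conj hd (by
      have := Fib27.int_sub_mul hg (BM.const c) hd.conj
      rw [this, integral_const_mul, h0, mul_zero, sub_zero]
      simpa only [mul_comm] using h1)
    rintro _ ⟨s, hs, rfl⟩
    have h3 := (F.a.mem ⊥ X'.μ bot_le (g ⁻¹' s)).2 ⟨g1 hs, (fun _ => c) ⁻¹' s,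
      measurable_const hs, h2.mono fun x hx => by
        show (g x ∈ s) = (c ∈ s)
        rw [sub_eq_zero.1 hx]⟩
    rwa [bot_sup_eq] at h3
  · rw [integral_congr_ae ((ce_nul F.a X' _).mono fun x hx => congrArg norm hx), integral_const,
      probReal_univ, one_smul,
      ← int_comp he.mp ((bm_comp (F.t.mp X' n) hd.conj).mul hk).1]
    refine congrArg _ (integral_congr_ae ?_)
    filter_upwards [F.a.keq_fun X'.ms X.μ X'.μ _ _ _ (he.mp.comp (F.t.mp X n))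
      ((F.t.mp X' n).comp he.mp) (F.t.emb_z X X' e n he) hd.conj.1] with x hx
    exact congrArg (· * k (e x)) hx

end GfL

open GfL in
theorem det : DetR := by
  intro F G hC hT
  refine ⟨fun ν ν' ι _ _ r e1 e2 hr h0 hB X => ?_, fun ν ν' ι _ _ r e1 e2 hr h0 X hE => ?_⟩ <;>
    obtain ⟨X', e, hX, he, hf⟩ := F.nice0 X <;> refine G.down ν ν' X X' e ι r he hf ?_
  · obtain ⟨B0, b1, b2, b3, b4⟩ := hB X'
    exact hT ν ν' X' ι r _ e1 e2 hr h0 hX (F.h.kc X' B0 hX b1) (F.h.ind X' B0 _ hX b1 b3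
      (fun C c1 c2 c3 => hC ν ν' X' ι r B0 C hX b1 c1 c2 (b2.trans c2) c3 b4)
      fun 𝒞 c1 c2 c3 => G.chain ν ν' X' ι r 𝒞 c1 c2 fun C h => ⟨(c3 C h).1, (c3 C h).2.2⟩)
  · refine hT ν ν' X' ι r _ e1 e2 hr h0 hX (kc_nul F he hE) fun f hf => ?_
    have k : ∀ i, f i =ᵐ[X'.μ] fun _ => ∫ x, f i x ∂X'.μ := fun i =>
      (BM.ce_self (F.t.bot X').le (hf i)).symm.trans (ce_nul F.a X' _)
    refine tendsto_const_nhds.congr fun M => (integral_eq_zero_of_ae ?_).symm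
    filter_upwards [avg_congr (ν := ν) (r := r) F.t k M, avg_congr (ν := ν') (r := r) F.t k M]
      with x h1 h2
    rw [h1, h2, avg_eq, avg_eq, ← sum_mul, ← sum_mul, ← Complex.ofReal_sum, ← Complex.ofReal_sum,
      ν.one, ν'.one]
    simp

end T3x

end

end PkGf

section PkSat

/-! Saturated extensions exist (row Sat of note 154433_T3prime_h17). -/

set_option autoImplicit false
set_option linter.unusedVariables false
set_option warn.classDefReducibility false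

open MeasureTheory ProbabilityTheory Filter Topology Function Finset ComplexConjugate
open scoped BigOperators
open Fib27 (BM sup pr)

noncomputable section

namespace T3x

namespace Sat

variable {ν : Wt} {U : Ultrafilter ℕ} {ι : Type} [Fintype ι] [DecidableEq ι]

theorem pull_mono {Ω Ω' : Type} {B C : MeasurableSpace Ω'} {m0 : MeasurableSpace Ω}
    (μ : Measure Ω) (p : Ω → Ω') (h : B ≤ C) : pull μ p B ≤ pull μ p C :=
  sup_le_sup_right (MeasurableSpace.comap_mono h) _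

theorem P_le (F : Fd) {X : Sys} (L : Ln ν U X) (s : Slot) : L.P s ≤ L.W.ms :=
  F.a.pull_le X.ms L.W.μ X.μ (L.π s) (L.emb s).mp le_rfl

theorem OB_le (F : Fd) {X : Sys} (L : Ln ν U X) (B : MeasurableSpace X.X) (hB : Fac X B)
    (sl : ι → Slot) (q : ι) : L.OB B sl q ≤ L.W.ms :=
  sup_le (Fib27.sup_le' fun k _ => P_le F L _) (F.h.kc _ _ L.nice (F.lb.fac L B hB)).1.le

theorem comap_le {Ω Ω' : Type} {m0 : MeasurableSpace Ω} {m0' : MeasurableSpace Ω'}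
    {μ : Measure Ω} {μ' : Measure Ω'} {p : Ω → Ω'} (h : MeasurePreserving p μ μ') :
    m0'.comap p ≤ m0 := h.measurable.comap_le

theorem mae {Ω Ω' : Type} {m0 : MeasurableSpace Ω} {m0' : MeasurableSpace Ω'}
    {μ : Measure Ω} {μ' : Measure Ω'} {p : Ω → Ω'} (h : MeasurePreserving p μ μ') {P : Ω' → Prop}
    (hP : ∀ᵐ x ∂μ', P x) : ∀ᵐ x ∂μ, P (p x) := h.quasiMeasurePreserving.ae hP

theorem mcomp {Ω Ω' Ω'' : Type} {m0 : MeasurableSpace Ω} {m0' : MeasurableSpace Ω'}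
    {m0'' : MeasurableSpace Ω''} {μ : Measure Ω} {μ' : Measure Ω'} {μ'' : Measure Ω''}
    {p : Ω → Ω'} {q : Ω' → Ω''} (h : MeasurePreserving q μ' μ'') (h' : MeasurePreserving p μ μ') :
    MeasurePreserving (q ∘ p) μ μ'' := h.comp h'

theorem mint {Ω Ω' : Type} {m0 : MeasurableSpace Ω} {m0' : MeasurableSpace Ω'}
    {μ : Measure Ω} {μ' : Measure Ω'} {p : Ω → Ω'} (h : MeasurePreserving p μ μ') {g : Ω' → ℂ}
    (hg : BM μ' m0' g) : ∫ x, ‖g (p x)‖ ^ 2 ∂μ = ∫ y, ‖g y‖ ^ 2 ∂μ' := by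
  have m1 : AEStronglyMeasurable (fun y => ‖g y‖ ^ 2) (μ.map p) := by
    rw [h.map_eq]
    exact (continuous_pow 2).comp_aestronglyMeasurable hg.1.norm
  have m2 := integral_map h.measurable.aemeasurable m1
  rw [h.map_eq] at m2
  exact m2.symm

theorem pull_P (F : Fd) {X' X : Sys} (L' : Ln ν U X') (L : Ln ν U X) (p : X'.X → X.X)
    (Lp : L'.W.X → L.W.X) (s : Slot) (he : Emb X' X p) (hL : IsLift L' L p Lp) :
    pull L'.W.μ Lp (L.P s) ≤ L'.P s := by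
  have h1 : pull L'.W.μ Lp (L.P s) = pull L'.W.μ (L.π s ∘ Lp) X.ms :=
    F.a.pull_comp X.ms L'.W.μ L.W.μ Lp (L.π s) hL.emb.mp
  have h2 : pull L'.W.μ (L.π s ∘ Lp) X.ms = pull L'.W.μ (p ∘ L'.π s) X.ms :=
    F.a.keq_pull X.ms L'.W.μ _ _ (comap_le ((L.emb s).mp.comp hL.emb.mp))
      (comap_le (he.mp.comp (L'.emb s).mp)) (F.la.slot L' L p Lp s he hL)
  have h3 : pull L'.W.μ (L'.π s) (pull X'.μ p X.ms) = pull L'.W.μ (p ∘ L'.π s) X.ms :=
    F.a.pull_comp X.ms L'.W.μ X'.μ (L'.π s) p (L'.emb s).mp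
  rw [h1, h2, ← h3]
  exact pull_mono _ _ (F.a.pull_le X.ms X'.μ X.μ p he.mp le_rfl)

theorem ob (F : Fd) {X' X : Sys} (L' : Ln ν U X') (L : Ln ν U X) (B' : MeasurableSpace X'.X)
    (B : MeasurableSpace X.X) (p : X'.X → X.X) (Lp : L'.W.X → L.W.X) (sl : ι → Slot) (q : ι)
    (he : Emb X' X p) (hB : Fac X B) (hB' : Fac X' B') (hle : pull X'.μ p B ≤ B')
    (hL : IsLift L' L p Lp) : pull L'.W.μ Lp (L.OB B sl q) ≤ L'.OB B' sl q := by
  have h2 : pull L'.W.μ Lp (L.B2 B) ≤ L'.B2 B' :=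
    (F.h.fn L'.W L.W Lp (L.shp B) L'.nice L.nice hL.emb (F.lb.fac L B hB)).trans
      (F.h.mono L'.W _ _ (F.la.shp L' L p Lp B B' he hL hB hB' hle))
  unfold Ln.OB
  rw [F.a.pull_sup]
  refine sup_le (sup_le ?_ ?_) (h2.trans le_sup_right)
  · refine le_trans ?_ le_sup_left
    unfold Fib27.sup
    simp only [MeasurableSpace.comap_iSup]
    refine iSup₂_le fun k hk => le_trans ?_ (le_iSup₂_of_le k hk le_rfl)
    exact le_trans le_sup_left (pull_P F L' L p Lp (sl k) he hL)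
  · exact (le_trans le_sup_right h2).trans le_sup_right

/-- the energy of a function in one slot with respect to the other slots and the base -/
def en {X : Sys} (L : Ln ν U X) (B : MeasurableSpace X.X) (sl : ι → Slot) (q : ι)
    (g : X.X → ℂ) : ℝ :=
  ∫ w, ‖(L.W.μ[fun v => g (L.π (sl q) v) | L.OB B sl q]) w‖ ^ 2 ∂L.W.μ

theorem en_congr {X : Sys} (L : Ln ν U X) (B : MeasurableSpace X.X) (sl : ι → Slot) (q : ι)
    {g g' : X.X → ℂ} (h : g =ᵐ[X.μ] g') : en L B sl q g = en L B sl q g' := by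
  have h1 : (fun v => g (L.π (sl q) v)) =ᵐ[L.W.μ] fun v => g' (L.π (sl q) v) :=
    mae (L.emb (sl q)).mp h
  refine integral_congr_ae ?_
  filter_upwards [condExp_congr_ae (m := L.OB B sl q) h1] with w hw
  rw [hw]

theorem en_le {X : Sys} (L : Ln ν U X) (B : MeasurableSpace X.X) (sl : ι → Slot) (q : ι)
    {g : X.X → ℂ} {C : ℝ} (h : ∀ᵐ x ∂X.μ, ‖g x‖ ≤ C) : en L B sl q g ≤ C ^ 2 := by
  have h1 : ∀ᵐ v ∂L.W.μ, ‖g (L.π (sl q) v)‖ ≤ C :=
    mae (L.emb (sl q)).mp h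
  have h2 := ae_bdd_norm_condExp_of_ae_bdd_norm (m := L.OB B sl q) h1
  have h3 : en L B sl q g ≤ ∫ _w, C ^ 2 ∂L.W.μ := by
    refine integral_mono_of_nonneg (Eventually.of_forall fun w => by positivity)
      (integrable_const _) ?_
    filter_upwards [h2] with w hw
    exact pow_le_pow_left₀ (norm_nonneg _) hw 2
  simpa using h3

theorem bm_comp (F : Fd) {X' X : Sys} {p : X'.X → X.X} (hp : MeasurePreserving p X'.μ X.μ)
    {g : X.X → ℂ} (hg : BM X.μ X.ms g) : BM X'.μ X'.ms fun x => g (p x) :=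
  (F.a.bm_comp X.ms X'.μ X.μ p g hp hg).mono (F.a.pull_le X.ms X'.μ X.μ p hp le_rfl)

theorem key (F : Fd) {X' X : Sys} (L' : Ln ν U X') (L : Ln ν U X) (B' : MeasurableSpace X'.X)
    (B : MeasurableSpace X.X) (p : X'.X → X.X) (Lp : L'.W.X → L.W.X) (sl : ι → Slot) (q : ι)
    (he : Emb X' X p) (hB : Fac X B) (hB' : Fac X' B') (hle : pull X'.μ p B ≤ B')
    (hL : IsLift L' L p Lp) (g : X.X → ℂ) (hg : BM X.μ X.ms g) :
    en L B sl q g ≤ en L' B' sl q (fun x => g (p x)) ∧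
      (en L' B' sl q (fun x => g (p x)) ≤ en L B sl q g →
        L'.W.μ[fun w => g (L.π (sl q) (Lp w)) | L'.OB B' sl q] =ᵐ[L'.W.μ]
          L'.W.μ[fun w => g (L.π (sl q) (Lp w)) | pull L'.W.μ Lp (L.OB B sl q)]) := by
  have b1 : BM L.W.μ L.W.ms fun v => g (L.π (sl q) v) := bm_comp F (L.emb (sl q)).mp hg
  have b2 : BM L'.W.μ L'.W.ms fun w => g (L.π (sl q) (Lp w)) := bm_comp F hL.emb.mp b1
  have e1 := F.a.ce_comp (L.OB B sl q) L'.W.μ L.W.μ Lp (fun v => g (L.π (sl q) v)) hL.emb.mp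
    (OB_le F L B hB sl q) b1.integrable
  have e2 : (fun w => g (L.π (sl q) (Lp w))) =ᵐ[L'.W.μ] fun w => g (p (L'.π (sl q) w)) :=
    F.a.keq_fun X.ms L'.W.μ X.μ (L.π (sl q) ∘ Lp) (p ∘ L'.π (sl q)) g
      (mcomp (L.emb (sl q)).mp hL.emb.mp) (mcomp he.mp (L'.emb (sl q)).mp)
      (F.la.slot L' L p Lp (sl q) he hL) hg.1
  have e3 : en L B sl q g = ∫ w, ‖(L'.W.μ[fun w => g (L.π (sl q) (Lp w)) |
      pull L'.W.μ Lp (L.OB B sl q)]) w‖ ^ 2 ∂L'.W.μ := by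
    unfold en
    rw [← mint hL.emb.mp ((b1.ce (L.OB B sl q)).mono (OB_le F L B hB sl q))]
    refine integral_congr_ae ?_
    filter_upwards [e1] with w hw
    rw [hw]
  have e4 : en L' B' sl q (fun x => g (p x)) = ∫ w, ‖(L'.W.μ[fun w => g (L.π (sl q) (Lp w)) |
      L'.OB B' sl q]) w‖ ^ 2 ∂L'.W.μ := by
    refine integral_congr_ae ?_
    filter_upwards [condExp_congr_ae (m := L'.OB B' sl q) e2] with w hw
    rw [hw]
  rw [e3, e4]
  exact F.d.eqn _ _ L'.W.μ (ob F L' L B' B p Lp sl q he hB hB' hle hL) (OB_le F L' B' hB' sl q) _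
    (b2.memLp 2)

theorem en_mono (F : Fd) {X' X : Sys} (L' : Ln ν U X') (L : Ln ν U X) (B' : MeasurableSpace X'.X)
    (B : MeasurableSpace X.X) (p : X'.X → X.X) (sl : ι → Slot) (q : ι)
    (he : Emb X' X p) (hB : Fac X B) (hB' : Fac X' B') (hle : pull X'.μ p B ≤ B')
    (g : X.X → ℂ) (hg : BM X.μ X.ms g) : en L B sl q g ≤ en L' B' sl q (fun x => g (p x)) := by
  obtain ⟨Lp, hL⟩ := F.la.ex L' L p he
  exact (key F L' L B' B p Lp sl q he hB hB' hle hL g hg).1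

/-- the extension `Z` maximises every energy among the admissible extensions of `X` -/
def Mx (ν : Wt) (U : Ultrafilter ℕ) (sl : ι → Slot) (Z : Sys) (C : MeasurableSpace Z.X) (X : Sys)
    (B : MeasurableSpace X.X) (r : Z.X → X.X) : Prop :=
  ∀ (LZ : Ln ν U Z) (Y : Sys) (D : MeasurableSpace Y.X) (p : Y.X → X.X) (LY : Ln ν U Y),
    Adm Y D X B p → ∀ (q : ι) (f : X.X → ℂ), BM X.μ X.ms f →
    en LY D sl q (fun y => f (p y)) ≤ en LZ C sl q fun z => f (r z)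

theorem near (F : Fd) (A : SatA) (sl : ι → Slot) (X : Sys) (B : MeasurableSpace X.X)
    (hX : Nice X) (hB : KC X B) (q : ι) (f : X.X → ℂ) (hf : BM X.μ X.ms f) (ε : ℝ) (hε : 0 < ε) :
    ∃ (Y : Sys) (D : MeasurableSpace Y.X) (p : Y.X → X.X) (LY : Ln ν U Y), Adm Y D X B p ∧
      ∀ (Y' : Sys) (D' : MeasurableSpace Y'.X) (p' : Y'.X → X.X) (LY' : Ln ν U Y'),
        Adm Y' D' X B p' →
        en LY' D' sl q (fun y => f (p' y)) ≤ en LY D sl q (fun y => f (p y)) + ε := by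
  let S : Set ℝ := {e | ∃ (Y : Sys) (D : MeasurableSpace Y.X) (p : Y.X → X.X) (LY : Ln ν U Y),
    Adm Y D X B p ∧ e = en LY D sl q fun y => f (p y)}
  have hne : S.Nonempty := by
    obtain ⟨Z, C, r, e, h, -⟩ := A.amal X B Empty (fun k => k.elim) (fun k => k.elim)
      (fun k => k.elim) hX hB (fun k => k.elim)
    obtain ⟨LZ⟩ := F.line ν U Z h.nice
    exact ⟨_, Z, C, r, LZ, h, rfl⟩
  obtain ⟨_, C, hC⟩ := hf
  have hbd : BddAbove S := by
    refine ⟨C ^ 2, ?_⟩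
    rintro _ ⟨Y, D, p, LY, h, rfl⟩
    exact en_le LY D sl q (mae h.emb.mp hC)
  obtain ⟨_, ⟨Y, D, p, LY, h, rfl⟩, hlt⟩ :=
    exists_lt_of_lt_csSup hne (show sSup S - ε < sSup S by linarith)
  refine ⟨Y, D, p, LY, h, fun Y' D' p' LY' h' => ?_⟩
  have := le_csSup hbd (show _ ∈ S from ⟨Y', D', p', LY', h', rfl⟩)
  linarith

theorem step (F : Fd) (A : SatA) (ν : Wt) (U : Ultrafilter ℕ) (sl : ι → Slot) (X : Sys)
    (B : MeasurableSpace X.X) (hX : Nice X) (hB : KC X B) :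
    ∃ (Z : Sys) (C : MeasurableSpace Z.X) (r : Z.X → X.X), Adm Z C X B r ∧ Mx ν U sl Z C X B r := by
  have h := fun k : ι × {f : X.X → ℂ // BM X.μ X.ms f} × {ε : ℝ // 0 < ε} =>
    near (ν := ν) (U := U) F A sl X B hX hB k.1 k.2.1.1 k.2.1.2 k.2.2.1 k.2.2.2
  choose Y D p LY h1 h2 using h
  obtain ⟨Z, C, r, e, hZ, he⟩ := A.amal X B _ Y D p hX hB h1
  refine ⟨Z, C, r, hZ, fun LZ Y' D' p' LY' h' q f hf => ?_⟩
  refine le_of_forall_pos_le_add fun ε hε => ?_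
  let k : ι × {f : X.X → ℂ // BM X.μ X.ms f} × {ε : ℝ // 0 < ε} := (q, ⟨f, hf⟩, ⟨ε, hε⟩)
  have a1 := h2 k Y' D' p' LY' h'
  have a2 := en_mono F LZ (LY k) C (D k) (e k) sl q (he k).1 (h1 k).kc.1 hZ.kc.1 (he k).2.1
    (fun y => f (p k y)) (bm_comp F (h1 k).emb.mp hf)
  have a3 : (fun z => f (p k (e k z))) =ᵐ[Z.μ] fun z => f (r z) :=
    F.a.keq_fun X.ms Z.μ X.μ (p k ∘ e k) r f (mcomp (h1 k).emb.mp (he k).1.mp) hZ.emb.mp
      (he k).2.2 hf.1
  have a4 := en_congr LZ C sl q a3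
  simp only [k] at a1 a2 a4
  linarith

/-- an identity of conditional expectations passes to limits in the mean -/
theorem close (F : Fd) {Ω : Type} (A O : MeasurableSpace Ω) {m0 : MeasurableSpace Ω}
    (μ : Measure Ω) [IsProbabilityMeasure μ] (hA : A ≤ O) (hO : O ≤ m0) (h : Ω → ℂ)
    (hh : BM μ m0 h) (ap : ∀ ε : ℝ, 0 < ε → ∃ h', BM μ m0 h' ∧ μ[h' | O] =ᵐ[μ] μ[h' | A] ∧
      ∫ x, ‖h x - h' x‖ ^ 2 ∂μ ≤ ε) : μ[h | O] =ᵐ[μ] μ[h | A] := by
  have m : AEStronglyMeasurable[A] (μ[h | O]) μ := by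
    refine F.d.closed A μ (hA.trans hO) _ (((hh.ce O).mono hO).memLp 2) fun ε hε => ?_
    obtain ⟨h', b', e', l'⟩ := ap ε hε
    refine ⟨μ[h' | A], ((b'.ce A).mono (hA.trans hO)).memLp 2, (b'.ce A).1, le_trans ?_ l'⟩
    have c1 := (F.d.eqn O m0 μ hO le_rfl _ ((hh.sub b').memLp 2)).1
    have c2 : ∫ x, ‖(μ[fun x => h x - h' x | m0]) x‖ ^ 2 ∂μ = ∫ x, ‖h x - h' x‖ ^ 2 ∂μ := by
      refine integral_congr_ae ?_
      filter_upwards [Fib27.BM.ce_self le_rfl (hh.sub b')] with x hx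
      rw [hx]
    rw [← c2]
    refine le_trans (le_of_eq (integral_congr_ae ?_)) c1
    filter_upwards [Fib27.ce_sub hh b' O, e'] with x h1 h2
    rw [h1, h2]
  have t1 : μ[μ[h | O] | A] =ᵐ[μ] μ[h | A] := condExp_condExp_of_le hA hO
  have t2 : μ[μ[h | O] | A] =ᵐ[μ] μ[h | O] :=
    condExp_of_aestronglyMeasurable' (hA.trans hO) m integrable_condExp
  exact t2.symm.trans t1

/-- functions of the finite levels are dense in the limit -/
theorem dense (F : Fd) (X : ℕ → Sys) (p : ∀ k, (X (k + 1)).X → (X k).X) (Z : Sys)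
    (e : ∀ k, Z.X → (X k).X) (hp : ∀ k, Emb (X (k + 1)) (X k) (p k)) (he : ∀ k, Emb Z (X k) (e k))
    (hk : ∀ k, KEq Z.μ (X k).ms (p k ∘ e (k + 1)) (e k))
    (hg : Z.ms ≤ ⨆ k, pull Z.μ (e k) (X k).ms) (f : Z.X → ℂ) (hf : BM Z.μ Z.ms f) (ε : ℝ)
    (hε : 0 < ε) : ∃ (k : ℕ) (g : (X k).X → ℂ), BM (X k).μ (X k).ms g ∧
      ∫ z, ‖f z - g (e k z)‖ ^ 2 ∂Z.μ ≤ ε := by
  let c : ℕ → MeasurableSpace Z.X := fun k => pull Z.μ (e k) (X k).ms
  have hle : ∀ k, c k ≤ Z.ms := fun k => F.a.pull_le (X k).ms Z.μ (X k).μ (e k) (he k).mp le_rfl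
  have hm : Monotone c := by
    refine monotone_nat_of_le_succ fun k => ?_
    have h1 : pull Z.μ (p k ∘ e (k + 1)) (X k).ms = pull Z.μ (e k) (X k).ms :=
      F.a.keq_pull (X k).ms Z.μ _ _ (comap_le ((hp k).mp.comp (he (k + 1)).mp))
        (comap_le (he k).mp) (hk k)
    have h2 := F.a.pull_comp (X k).ms Z.μ (X (k + 1)).μ (e (k + 1)) (p k) (he (k + 1)).mp
    show pull Z.μ (e k) (X k).ms ≤ pull Z.μ (e (k + 1)) (X (k + 1)).ms
    rw [← h1, ← h2]
    exact pull_mono _ _ (F.a.pull_le (X k).ms (X (k + 1)).μ (X k).μ (p k) (hp k).mp le_rfl)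
  have hs : sSup (Set.range c) = Z.ms := le_antisymm (iSup_le hle) hg
  obtain ⟨_, ⟨k, rfl⟩, hC⟩ := F.d.chain (Set.range c) Z.μ (Set.range_nonempty c)
    (directedOn_range.2 hm.directed_le) (by rintro _ ⟨k, rfl⟩; exact hle k) f (hf.memLp 2) ε hε
  have h3 := hC (c k) ⟨k, rfl⟩ le_rfl
  rw [hs] at h3
  obtain ⟨m, C, hb⟩ := hf.ce (c k)
  obtain ⟨g, g1, g2, g3⟩ := F.a.fact (X k).ms Z.μ (e k) (Z.μ[f | c k]) (max C 0)
    (comap_le (he k).mp) (le_max_right _ _) m (hb.mono fun x hx => hx.trans (le_max_left _ _))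
  refine ⟨k, g, ⟨g1.aestronglyMeasurable, _, Eventually.of_forall g2⟩, le_trans (le_of_eq ?_) h3⟩
  refine integral_congr_ae ?_
  filter_upwards [Fib27.BM.ce_self le_rfl hf, g3] with z h1 h2
  rw [h1, h2]

theorem fin (F : Fd) (sl : ι → Slot) (X : ℕ → Sys) (B : ∀ k, MeasurableSpace (X k).X)
    (p : ∀ k, (X (k + 1)).X → (X k).X) (hn : ∀ k, Nice (X k)) (hB : ∀ k, KC (X k) (B k))
    (hp : ∀ k, Adm (X (k + 1)) (B (k + 1)) (X k) (B k) (p k))
    (hm : ∀ k, Mx ν U sl (X (k + 1)) (B (k + 1)) (X k) (B k) (p k)) (Z : Sys)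
    (C : MeasurableSpace Z.X) (e : ∀ k, Z.X → (X k).X) (he : ∀ k, Adm Z C (X k) (B k) (e k))
    (hk : ∀ k, KEq Z.μ (X k).ms (p k ∘ e (k + 1)) (e k))
    (hg : Z.ms ≤ ⨆ k, pull Z.μ (e k) (X k).ms) (LZ : Ln ν U Z) : SAT LZ C sl := by
  intro Y D r LY Lr hr hL q f hf
  have hC : Fac Z C := (he 0).kc.1
  have mp := mcomp (LZ.emb (sl q)).mp hL.emb.mp
  have b1 : BM LZ.W.μ LZ.W.ms fun v => f (LZ.π (sl q) v) := bm_comp F (LZ.emb (sl q)).mp hf
  refine EventuallyEq.trans ?_ (F.a.ce_comp (LZ.OB C sl q) LY.W.μ LZ.W.μ Lr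
    (fun v => f (LZ.π (sl q) v)) hL.emb.mp (OB_le F LZ C hC sl q) b1.integrable)
  refine close F _ _ LY.W.μ (ob F LY LZ D C r Lr sl q hr.emb hC hr.kc.1 hr.le hL)
    (OB_le F LY D hr.kc.1 sl q) _ (bm_comp F mp hf) fun ε hε => ?_
  obtain ⟨k, g, hg1, hg2⟩ := dense F X p Z e (fun k => (hp k).emb) (fun k => (he k).emb) hk hg f hf
    ε hε
  have b2 : BM Z.μ Z.ms fun z => g (e k z) := bm_comp F (he k).emb.mp hg1
  refine ⟨fun w => g (e k (LZ.π (sl q) (Lr w))), bm_comp F mp b2, ?_, le_trans (le_of_eq ?_) hg2⟩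
  · refine (key F LY LZ D C r Lr sl q hr.emb hC hr.kc.1 hr.le hL _ b2).2 ?_
    obtain ⟨L1⟩ := F.line ν U (X (k + 1)) (hn (k + 1))
    have a1 := hm k L1 Y D (e k ∘ r) LY (F.h.trans Y Z (X k) D C (B k) r (e k) (hB k).1 hr (he k))
      q g hg1
    have a2 := en_mono F LZ L1 C (B (k + 1)) (e (k + 1)) sl q (he (k + 1)).emb (hB (k + 1)).1 hC
      (he (k + 1)).le (fun y => g (p k y)) (bm_comp F (hp k).emb.mp hg1)
    have a3 : (fun z => g (p k (e (k + 1) z))) =ᵐ[Z.μ] fun z => g (e k z) :=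
      F.a.keq_fun (X k).ms Z.μ (X k).μ (p k ∘ e (k + 1)) (e k) g
        (mcomp (hp k).emb.mp (he (k + 1)).emb.mp) (he k).emb.mp (hk k) hg1.1
    exact (a1.trans a2).trans (le_of_eq (en_congr LZ C sl q a3))
  · exact mint mp (hf.sub b2)

/-- a nice system with a closed base -/
structure Ob where
  X : Sys
  B : MeasurableSpace X.X
  nice : Nice X
  kc : KC X B

end Sat

theorem sat : SatR := by
  intro F A ν U X B ι _ _ sl hX hB
  have h := fun o : Sat.Ob => Sat.step F A ν U sl o.X o.B o.nice o.kc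
  choose Z C r h1 h2 using h
  let s : ℕ → Sat.Ob := fun k =>
    Nat.rec ⟨X, B, hX, hB⟩ (fun _ o => ⟨Z o, C o, (h1 o).nice, (h1 o).kc⟩) k
  obtain ⟨Y, D, e, he, hk, hg⟩ := A.lim (fun k => (s k).X) (fun k => (s k).B) (fun k => r (s k))
    hX hB fun k => h1 (s k)
  obtain ⟨LY⟩ := F.line ν U Y (he 0).nice
  exact ⟨Y, D, e 0, LY, he 0, Sat.fin F sl (fun k => (s k).X) (fun k => (s k).B) (fun k => r (s k))
    (fun k => (s k).nice) (fun k => (s k).kc) (fun k => h1 (s k)) (fun k => h2 (s k)) Y D e he hk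
    hg LY⟩

end T3x

end

end PkSat

section PkSatA

/-! Row SatA: growth of the rest of a line, inheritance of failure, amalgamation, limits. -/

set_option autoImplicit false
set_option linter.unusedVariables false
set_option warn.classDefReducibility false

open MeasureTheory ProbabilityTheory Filter Topology Function Finset ComplexConjugate
open scoped BigOperators
open Fib27 (BM sup pr Oc Orow F23 LInd Mem)

noncomputable section

namespace T3x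

namespace SatAx

theorem pull_mono {Ω Ω' : Type} {B C : MeasurableSpace Ω'} {m0 : MeasurableSpace Ω}
    (μ : Measure Ω) (p : Ω → Ω') (h : B ≤ C) : pull μ p B ≤ pull μ p C :=
  sup_le_sup_right (MeasurableSpace.comap_mono h) _

theorem comap_le {Ω Ω' : Type} {B : MeasurableSpace Ω'} {m0 : MeasurableSpace Ω}
    {m0' : MeasurableSpace Ω'} {μ : Measure Ω} {μ' : Measure Ω'} {p : Ω → Ω'}
    (hp : MeasurePreserving p μ μ') (h : B ≤ m0') : B.comap p ≤ m0 :=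
  (MeasurableSpace.comap_mono h).trans hp.measurable.comap_le

theorem mpc {Ω Ω' Ω'' : Type} {m0 : MeasurableSpace Ω} {m0' : MeasurableSpace Ω'}
    {m0'' : MeasurableSpace Ω''} {μ : Measure Ω} {μ' : Measure Ω'} {μ'' : Measure Ω''}
    {p : Ω → Ω'} {q : Ω' → Ω''} (hq : MeasurePreserving q μ' μ'') (hp : MeasurePreserving p μ μ') :
    MeasurePreserving (q ∘ p) μ μ'' := hq.comp hp

theorem keq_mono {Ω Ω' : Type} {B C : MeasurableSpace Ω'} {m0 : MeasurableSpace Ω}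
    {μ : Measure Ω} {p p' : Ω → Ω'} (h : KEq μ C p p') (hB : B ≤ C) : KEq μ B p p' :=
  fun A hA => h A (hB A hA)

theorem int_comp {Ω Ω' : Type} {m0 : MeasurableSpace Ω} {m0' : MeasurableSpace Ω'}
    {μ : Measure Ω} {μ' : Measure Ω'} {p : Ω → Ω'} (hp : MeasurePreserving p μ μ') {f : Ω' → ℂ}
    (hf : BM μ' m0' f) : ∫ x, f (p x) ∂μ = ∫ y, f y ∂μ' := by
  have h1 : AEStronglyMeasurable f (μ.map p) := by rw [hp.map_eq]; exact hf.1
  rw [← hp.map_eq, integral_map hp.measurable.aemeasurable h1]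

theorem ae_comp {Ω Ω' : Type} {m0 : MeasurableSpace Ω} {m0' : MeasurableSpace Ω'}
    {μ : Measure Ω} {μ' : Measure Ω'} {p : Ω → Ω'} (hp : MeasurePreserving p μ μ') {f g : Ω' → ℂ}
    (h : f =ᵐ[μ'] g) : (fun x => f (p x)) =ᵐ[μ] fun x => g (p x) :=
  hp.quasiMeasurePreserving.ae_eq_comp h

theorem fact (a : BasA) {Ω Ω' : Type} {B : MeasurableSpace Ω'} {m0 : MeasurableSpace Ω}
    {m0' : MeasurableSpace Ω'} {μ : Measure Ω} {μ' : Measure Ω'} {p : Ω → Ω'}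
    (hp : MeasurePreserving p μ μ') (h : B ≤ m0') {f : Ω → ℂ} (hf : BM μ (pull μ p B) f) :
    ∃ f' : Ω' → ℂ, BM μ' B f' ∧ f =ᵐ[μ] fun x => f' (p x) := by
  obtain ⟨h1, C, hC⟩ := hf
  obtain ⟨f', h2, h3, h4⟩ := a.fact B μ p f (max C 0) (comap_le hp h) (le_max_right _ _) h1
    (hC.mono fun x hx => hx.trans (le_max_left _ _))
  exact ⟨f', ⟨h2.stronglyMeasurable.aestronglyMeasurable, _, Eventually.of_forall h3⟩, h4⟩

/-- conditional independence is pulled back -/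
theorem cp_pull (a : BasA) {Ω Ω' : Type} {Y D C : MeasurableSpace Ω'} {m0 : MeasurableSpace Ω}
    {m0' : MeasurableSpace Ω'} {μ : Measure Ω} {μ' : Measure Ω'} [IsProbabilityMeasure μ]
    [IsProbabilityMeasure μ'] {p : Ω → Ω'} (hp : MeasurePreserving p μ μ') (hY : Y ≤ m0')
    (hD : D ≤ m0') (hC : C ≤ m0') (h : CP Y D C μ') :
    CP (pull μ p Y) (pull μ p D) (pull μ p C) μ := by
  intro f hf
  obtain ⟨f', h1, h2⟩ := fact a hp hY hf
  have hi : Integrable f' μ' := (h1.mono hY).integrable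
  exact (condExp_congr_ae h2).trans ((a.ce_comp C μ μ' p f' hp hC hi).trans
    ((ae_comp hp (h f' h1)).trans ((a.ce_comp D μ μ' p f' hp hD hi).symm.trans
      (condExp_congr_ae h2).symm)))

/-- conditional independence from a join, tested on products -/
theorem cp_iSup (d : BasD) {Ω ι : Type} {Y D : MeasurableSpace Ω} {p : ι → MeasurableSpace Ω}
    {m0 : MeasurableSpace Ω} {μ : Measure Ω} [IsProbabilityMeasure μ] (hY : Y ≤ m0)
    (hp : ∀ i, p i ≤ m0) (hD : D ≤ Y) (hD' : D ≤ ⨆ i, p i)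
    (h : ∀ g, BM μ Y g → Fib27.Perp μ D g → ∀ (S : Finset ι) (f : ι → Ω → ℂ),
      (∀ i ∈ S, BM μ (p i) (f i)) → ∫ x, g x * pr f S x ∂μ = 0) : CP Y D (⨆ i, p i) μ := by
  intro f hf
  have hC : (⨆ i, p i) ≤ m0 := iSup_le hp
  have hg : BM μ Y fun x => f x - (μ[f | D]) x := hf.sub ((hf.ce D).mono hD)
  have h1 := d.iperp p μ hp _ (hg.mono hY).integrable
    (h _ hg (Fib27.perp_sub_ce (hD.trans hY) (hf.mono hY)))
  exact Fib27.ce_eq_of_perp hC (hf.mono hY) ((hf.ce D).mono hD')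
    (Fib27.perp_of_ce hC (hg.mono hY) h1)

theorem ob (fd : Fd) {ν : Wt} {U : Ultrafilter ℕ} {X' X : Sys} (L' : Ln ν U X') (L : Ln ν U X)
    (B' : MeasurableSpace X'.X) (B : MeasurableSpace X.X) (p : X'.X → X.X)
    (Lp : L'.W.X → L.W.X) {ι : Type} [Fintype ι] [DecidableEq ι] (sl : ι → Slot) (q : ι)
    (hB : Fac X B) (hB' : Fac X' B') (hp : Emb X' X p) (hle : pull X'.μ p B ≤ B')
    (hL : IsLift L' L p Lp) : pull L'.W.μ Lp (L.OB B sl q) ≤ L'.OB B' sl q ∧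
      pull L'.W.μ Lp (L.B2 B) ≤ L'.B2 B' := by
  have h2 : pull L'.W.μ Lp (L.B2 B) ≤ L'.B2 B' :=
    (fd.h.fn L'.W L.W Lp (L.shp B) L'.nice L.nice hL.emb (fd.lb.fac L B hB)).trans
      (fd.h.mono L'.W _ _ (fd.la.shp L' L p Lp B B' hp hL hB hB' hle))
  refine ⟨?_, h2⟩
  have h3 : ∀ s, pull L'.W.μ Lp (L.P s) ≤ L'.P s := fun s => by
    have e1 : pull L'.W.μ Lp (L.P s) = pull L'.W.μ (L.π s ∘ Lp) X.ms :=
      fd.a.pull_comp X.ms L'.W.μ L.W.μ Lp (L.π s) hL.emb.mp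
    have e2 : pull L'.W.μ (L.π s ∘ Lp) X.ms = pull L'.W.μ (p ∘ L'.π s) X.ms :=
      fd.a.keq_pull X.ms L'.W.μ _ _ (comap_le (mpc (L.emb s).mp hL.emb.mp) le_rfl)
        (comap_le (mpc hp.mp (L'.emb s).mp) le_rfl) (fd.la.slot L' L p Lp s hp hL)
    have e3 : pull L'.W.μ (L'.π s) (pull X'.μ p X.ms) = pull L'.W.μ (p ∘ L'.π s) X.ms :=
      fd.a.pull_comp X.ms L'.W.μ X'.μ (L'.π s) p (L'.emb s).mp
    rw [e1, e2, ← e3]
    exact pull_mono _ _ (fd.a.pull_le X.ms X'.μ X.μ p hp.mp le_rfl)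
  unfold Ln.OB
  rw [fd.a.pull_sup]
  refine sup_le ?_ (h2.trans le_sup_right)
  refine sup_le ?_ ((le_sup_right.trans h2).trans le_sup_right)
  refine le_trans ?_ le_sup_left
  unfold Fib27.sup
  simp only [MeasurableSpace.comap_iSup]
  exact iSup₂_mono fun k _ => le_sup_left.trans (h3 (sl k))

theorem fail (fd : Fd) {ν : Wt} {U : Ultrafilter ℕ} {X' X : Sys} (L' : Ln ν U X')
    (L : Ln ν U X) (B' : MeasurableSpace X'.X) (B : MeasurableSpace X.X) (p : X'.X → X.X)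
    {ι : Type} [Fintype ι] (sl : ι → Slot) (hX : Nice X) (hB : KC X B) (ad : Adm X' B' X B p)
    (h : IndOver L' B' (L'.shp B') sl univ) : IndOver L B (L.shp B) sl univ := by
  obtain ⟨Lp, hL⟩ := fd.la.ex L' L p ad.emb
  intro f hf
  have hS := fd.lb.fac L B hB.1
  have hS' := fd.lb.fac L' B' ad.kc.1
  have hF : BM L.W.μ L.W.ms fun w => ∏ i, f i (L.π (sl i) w) :=
    BM.pr (ρ := fun i w => f i (L.π (sl i) w)) fun i hi =>
      (fd.a.bm_comp X.ms L.W.μ X.μ _ _ (L.emb _).mp (hf i hi)).mono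
        (fd.a.pull_le X.ms L.W.μ X.μ _ (L.emb _).mp le_rfl)
  have hG : BM L.W.μ (L.shp B) fun w => ∏ i, (X.μ[f i | B]) (L.π (sl i) w) :=
    BM.pr (ρ := fun i w => (X.μ[f i | B]) (L.π (sl i) w)) fun i hi =>
      (fd.a.bm_comp B L.W.μ X.μ _ _ (L.emb _).mp ((hf i hi).ce B)).mono
        (fd.lb.slot L B _ hB.1)
  have hf' : ∀ i ∈ (univ : Finset ι), BM X'.μ X'.ms fun x => f i (p x) := fun i hi =>
    (fd.a.bm_comp X.ms X'.μ X.μ p _ ad.emb.mp (hf i hi)).mono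
      (fd.a.pull_le X.ms X'.μ X.μ p ad.emb.mp le_rfl)
  have k1 := h (fun i x => f i (p x)) hf'
  have sw : ∀ (g : X.X → ℂ) (s : Slot), BM X.μ X.ms g →
      (fun w => g (L.π s (Lp w))) =ᵐ[L'.W.μ] fun w => g (p (L'.π s w)) := fun g s hg =>
    fd.a.keq_fun X.ms L'.W.μ X.μ (L.π s ∘ Lp) (p ∘ L'.π s) g (mpc (L.emb s).mp hL.emb.mp)
      (mpc ad.emb.mp (L'.emb s).mp) (fd.la.slot L' L p Lp s ad.emb hL) hg.1
  have k2 : (fun w => ∏ i, f i (L.π (sl i) (Lp w))) =ᵐ[L'.W.μ]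
      fun w => ∏ i, f i (p (L'.π (sl i) w)) :=
    Fib27.pr_congr_ae (ρ := fun i w => f i (L.π (sl i) (Lp w)))
      (ρ' := fun i w => f i (p (L'.π (sl i) w))) fun i hi => sw _ _ (hf i hi)
  have k3 : (fun w => ∏ i, (X'.μ[fun x => f i (p x) | B']) (L'.π (sl i) w)) =ᵐ[L'.W.μ]
      fun w => ∏ i, (X.μ[f i | B]) (L.π (sl i) (Lp w)) :=
    Fib27.pr_congr_ae (ρ := fun i w => (X'.μ[fun x => f i (p x) | B']) (L'.π (sl i) w))
      (ρ' := fun i w => (X.μ[f i | B]) (L.π (sl i) (Lp w))) fun i hi => by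
        have e1 := (ad.cp _ (fd.a.bm_comp X.ms X'.μ X.μ p _ ad.emb.mp (hf i hi))).trans
          (fd.a.ce_comp B X'.μ X.μ p (f i) ad.emb.mp hB.1.le (hf i hi).integrable)
        exact (ae_comp (L'.emb _).mp e1).trans (sw _ _ (((hf i hi).ce B).mono hB.1.le)).symm
  have k4 := (condExp_congr_ae (m := L'.shp B') k2).trans (k1.trans k3)
  refine Fib27.ce_eq_of_tests hS.le hF hG fun c hc => ?_
  have hc' : BM L'.W.μ (L'.shp B') fun w => c (Lp w) :=
    (fd.a.bm_comp _ L'.W.μ L.W.μ Lp c hL.emb.mp hc).mono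
      (fd.la.shp L' L p Lp B B' ad.emb hL hB.1 ad.kc.1 ad.le)
  have hF' : BM L'.W.μ L'.W.ms fun w => ∏ i, f i (L.π (sl i) (Lp w)) :=
    (fd.a.bm_comp _ L'.W.μ L.W.μ Lp _ hL.emb.mp hF).mono
      (fd.a.pull_le _ L'.W.μ L.W.μ Lp hL.emb.mp le_rfl)
  rw [← int_comp hL.emb.mp (hF.mul (hc.mono hS.le)),
    ← int_comp hL.emb.mp ((hG.mul hc).mono hS.le), ← Fib27.int_ce_mul hS'.le hF' hc']
  refine integral_congr_ae ?_
  filter_upwards [k4] with w hw
  rw [hw]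

theorem amal0 (fd : Fd) (X : Sys) (B : MeasurableSpace X.X) (κ : Type) (Y : κ → Sys)
    (D : ∀ k, MeasurableSpace (Y k).X) (p : ∀ k, (Y k).X → X.X) (i0 : κ) (hX : Nice X)
    (hB : KC X B) (ad : ∀ k, Adm (Y k) (D k) X B (p k)) :
    ∃ (Z : Sys) (C : MeasurableSpace Z.X) (q : Z.X → X.X) (e : ∀ k, Z.X → (Y k).X),
      Adm Z C X B q ∧ ∀ k, Emb Z (Y k) (e k) ∧ pull Z.μ (e k) (D k) ≤ C ∧
        KEq Z.μ X.ms (p k ∘ e k) q := by
  obtain ⟨Z, e, rp⟩ := fd.rp κ Y X X.ms p i0 (fun k => (ad k).nice) (fd.t.top X)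
    (fun k => (ad k).emb.mp) fun k => fd.t.emb_z _ _ _ 1 (ad k).emb
  have hq : Emb Z X (p i0 ∘ e i0) := fd.t.emb_comp _ _ _ _ _ (rp.emb i0) (ad i0).emb
  have hf : ∀ k, Fac Z (pull Z.μ (e k) (D k)) := fun k =>
    fd.t.fpull _ _ _ _ (rp.emb k) (ad k).kc.1
  have hC : Fac Z (⨆ k, pull Z.μ (e k) (D k)) := by
    have := fd.t.fisup Z κ _ _ (hf i0) hf
    rwa [sup_of_le_right (le_iSup (fun k => pull Z.μ (e k) (D k)) i0)] at this
  have hb : ∀ k, pull Z.μ (e k) (pull (Y k).μ (p k) B) = pull Z.μ (p i0 ∘ e i0) B := fun k => by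
    rw [fd.a.pull_comp B Z.μ (Y k).μ (e k) (p k) (rp.emb k).mp]
    exact fd.a.keq_pull B Z.μ _ _ (comap_le (mpc (ad k).emb.mp (rp.emb k).mp) hB.1.le)
      (comap_le hq.mp hB.1.le) (keq_mono (rp.com k) hB.1.le)
  have hle : pull Z.μ (p i0 ∘ e i0) B ≤ ⨆ k, pull Z.μ (e k) (D k) := by
    rw [← hb i0]
    exact (pull_mono _ _ (ad i0).le).trans (le_iSup (fun k => pull Z.μ (e k) (D k)) i0)
  have hY : pull Z.μ (p i0 ∘ e i0) X.ms ≤ Z.ms := fd.a.pull_le X.ms Z.μ X.μ _ hq.mp le_rfl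
  refine ⟨Z, hull Z (⨆ k, pull Z.μ (e k) (D k)), p i0 ∘ e i0, e,
    fd.h.adm Z X _ B _ rp.nice hX hq hB hC hle ?_, fun k => ⟨rp.emb k,
      (le_iSup (fun k => pull Z.μ (e k) (D k)) k).trans (fd.h.le Z _), rp.com k⟩⟩
  refine cp_iSup fd.d hY (fun k => (hf k).le) (pull_mono _ _ hB.1.le) hle fun g hg hp S f hS => ?_
  have ex : ∀ k, ∃ f' : (Y k).X → ℂ, k ∈ S →
      BM (Y k).μ (D k) f' ∧ f k =ᵐ[Z.μ] fun x => f' (e k x) := fun k => by
    by_cases hk : k ∈ S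
    · obtain ⟨f', h1⟩ := fact fd.a (rp.emb k).mp (ad k).kc.1.le (hS k hk)
      exact ⟨f', fun _ => h1⟩
    · exact ⟨0, fun h => (hk h).elim⟩
  choose f' hf' using ex
  have k1 := rp.ind S f' fun k hk => (hf' k hk).1.mono (ad k).kc.1.le
  have k2 : pr f S =ᵐ[Z.μ] fun z => ∏ k ∈ S, f' k (e k z) :=
    Fib27.pr_congr_ae (ρ' := fun k z => f' k (e k z)) fun k hk => (hf' k hk).2
  have k3 : BM Z.μ (pull Z.μ (p i0 ∘ e i0) B)
      fun z => ∏ k ∈ S, ((Y k).μ[f' k | pull (Y k).μ (p k) X.ms]) (e k z) :=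
    BM.pr (ρ := fun k z => ((Y k).μ[f' k | pull (Y k).μ (p k) X.ms]) (e k z)) fun k hk => by
      have e1 := fd.c.cp_symm _ _ _ (Y k).μ (fd.a.pull_le X.ms (Y k).μ X.μ _ (ad k).emb.mp le_rfl)
        (ad k).kc.1.le (ad k).le (pull_mono _ _ hB.1.le) (ad k).cp _ (hf' k hk).1
      rw [← hb k]
      exact fd.a.bm_comp _ Z.μ (Y k).μ (e k) _ (rp.emb k).mp
        (((hf' k hk).1.ce _).congr e1.symm)
  have k4 : BM Z.μ Z.ms (pr f S) := BM.pr fun k hk => (hS k hk).mono (hf k).le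
  rw [← Fib27.int_mul_ce hY hg k4, ← hp _ k3]
  refine integral_congr_ae ?_
  filter_upwards [(condExp_congr_ae k2).trans k1] with z hz
  rw [hz]

theorem adm_id (fd : Fd) (X : Sys) (B : MeasurableSpace X.X) (hX : Nice X) (hB : KC X B) :
    Adm X B X B id := by
  have e : pull X.μ id B = B := by
    unfold pull
    rw [MeasurableSpace.comap_id, sup_of_le_left hB.1.nl]
  refine ⟨hX, fd.t.emb_id X, hB, e.le, fun f hf => ?_⟩
  rw [e]

theorem lim (fd : Fd) (X : ℕ → Sys) (B : ∀ k, MeasurableSpace (X k).X)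
    (p : ∀ k, (X (k + 1)).X → (X k).X) (hX : Nice (X 0)) (hB : KC (X 0) (B 0))
    (ad : ∀ k, Adm (X (k + 1)) (B (k + 1)) (X k) (B k) (p k)) :
    ∃ (Z : Sys) (C : MeasurableSpace Z.X) (e : ∀ k, Z.X → (X k).X),
      (∀ k, Adm Z C (X k) (B k) (e k)) ∧ (∀ k, KEq Z.μ (X k).ms (p k ∘ e (k + 1)) (e k)) ∧
      Z.ms ≤ ⨆ k, pull Z.μ (e k) (X k).ms := by
  have hN : ∀ k, Nice (X k) := fun k => by
    cases k with
    | zero => exact hX
    | succ k => exact (ad k).nice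
  have hK : ∀ k, KC (X k) (B k) := fun k => by
    cases k with
    | zero => exact hB
    | succ k => exact (ad k).kc
  obtain ⟨Z, e, hZ, he, hq, hg⟩ := fd.lim X p hN fun k => (ad k).emb
  have hf : ∀ k, Fac Z (pull Z.μ (e k) (B k)) := fun k => fd.t.fpull _ _ _ _ (he k) (hK k).1
  have hC : Fac Z (⨆ k, pull Z.μ (e k) (B k)) := by
    have := fd.t.fisup Z ℕ _ _ (hf 0) hf
    rwa [sup_of_le_right (le_iSup (fun k => pull Z.μ (e k) (B k)) 0)] at this
  have hb : ∀ k (A : MeasurableSpace (X k).X), A ≤ (X k).ms →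
      pull Z.μ (e (k + 1)) (pull (X (k + 1)).μ (p k) A) = pull Z.μ (e k) A := fun k A hA => by
    rw [fd.a.pull_comp A Z.μ (X (k + 1)).μ (e (k + 1)) (p k) (he _).mp]
    exact fd.a.keq_pull A Z.μ _ _ (comap_le (mpc (ad k).emb.mp (he _).mp) hA)
      (comap_le (he k).mp hA) (keq_mono (hq k) hA)
  have hpl : ∀ k, pull (X (k + 1)).μ (p k) (X k).ms ≤ (X (k + 1)).ms := fun k =>
    fd.a.pull_le _ _ (X k).μ _ (ad k).emb.mp le_rfl
  have mD : Monotone fun k => pull Z.μ (e k) (B k) := monotone_nat_of_le_succ fun k => by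
    rw [← hb k _ (hK k).1.le]
    exact pull_mono _ _ (ad k).le
  have mY : Monotone fun k => pull Z.μ (e k) (X k).ms := monotone_nat_of_le_succ fun k => by
    rw [← hb k _ le_rfl]
    exact pull_mono _ _ (hpl k)
  have st : ∀ k, CP (pull Z.μ (e k) (X k).ms) (pull Z.μ (e k) (B k))
      (pull Z.μ (e (k + 1)) (B (k + 1))) Z.μ := fun k => by
    have := cp_pull fd.a (he (k + 1)).mp (hpl k) ((ad k).le.trans (hK _).1.le) (hK _).1.le
      (ad k).cp
    rwa [hb k _ le_rfl, hb k _ (hK k).1.le] at this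
  have st2 : ∀ k j, k ≤ j → CP (pull Z.μ (e k) (X k).ms) (pull Z.μ (e k) (B k))
      (pull Z.μ (e j) (B j)) Z.μ := fun k j hj => by
    induction j, hj using Nat.le_induction with
    | base => exact fun f hf => EventuallyEq.rfl
    | succ j hj ih => exact fun f hf => (st j f (hf.mono (mY hj))).trans (ih f hf)
  refine ⟨Z, hull Z (⨆ k, pull Z.μ (e k) (B k)), e, fun k => fd.h.adm Z (X k) _ (B k) _ hZ (hN k)
    (he k) (hK k) hC (le_iSup (fun k => pull Z.μ (e k) (B k)) k) ?_, hq, hg⟩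
  have hY : pull Z.μ (e k) (X k).ms ≤ Z.ms := fd.a.pull_le _ Z.μ (X k).μ _ (he k).mp le_rfl
  refine cp_iSup fd.d hY (fun k => (hf k).le) (pull_mono _ _ (hK k).1.le)
    (le_iSup (fun k => pull Z.μ (e k) (B k)) k) fun g hg hp S f hS => ?_
  have h1 : k ≤ max k (S.sup id) := le_max_left _ _
  have h2 : BM Z.μ (pull Z.μ (e (max k (S.sup id))) (B (max k (S.sup id)))) (pr f S) :=
    BM.pr fun i hi => (hS i hi).mono (mD ((Finset.le_sup (f := id) hi).trans (le_max_right _ _)))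
  exact Fib27.perp_of_ce (hf _).le (hg.mono hY)
    ((st2 k _ h1 g hg).trans (hp.ce (hf k).le (hg.mono hY))) _ h2

end SatAx

theorem satA : SatAR := by
  intro fd
  refine ⟨fun L' L B' B p Lp ι _ _ sl q => SatAx.ob fd L' L B' B p Lp sl q,
    fun L' L B' B p ι _ sl => SatAx.fail fd L' L B' B p sl, ?_, SatAx.lim fd⟩
  intro X B κ Y D p hX hB ad
  rcases isEmpty_or_nonempty κ with h | ⟨⟨i0⟩⟩
  · exact ⟨X, B, id, fun k => h.elim k, SatAx.adm_id fd X B hX hB, fun k => h.elim k⟩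
  · exact SatAx.amal0 fd X B κ Y D p i0 hX hB ad

end T3x

end

end PkSatA
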