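import Pool.Agent.MP_154433_an.p5.U0
import Pool.Agent.MP_154433_an.p5.T6

/-! Uniform twisted averages, part 1 (packed). -/

section PkUPick

/-! Row Pick: measurable choice of a nearly best frequency. -/

set_option autoImplicit false
set_option linter.unusedVariables false

open MeasureTheory ProbabilityTheory Filter Topology Function

noncomputable section

namespace T5u

theorem pick : Pick := by
  classical
  intro Ω m φ η hη hm hc hb
  obtain ⟨q, hq⟩ := TopologicalSpace.exists_dense_seq ℝ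
  let p : Ω → ℕ → Prop := fun x n => ∀ k, ‖φ (q k) x‖ ^ 2 ≤ ‖φ (q n) x‖ ^ 2 + η
  have hex : ∀ x, ∃ n, p x n := by
    intro x
    obtain ⟨K, hK⟩ := hb x
    have hbd : BddAbove (Set.range fun k => ‖φ (q k) x‖ ^ 2) :=
      ⟨K ^ 2, by
        rintro _ ⟨k, rfl⟩
        exact pow_le_pow_left₀ (norm_nonneg _) (hK _) 2⟩
    obtain ⟨n, hn⟩ := exists_lt_of_lt_ciSup
      (show (⨆ k, ‖φ (q k) x‖ ^ 2) - η < ⨆ k, ‖φ (q k) x‖ ^ 2 by linarith)
    refine ⟨n, fun k => ?_⟩
    have := le_ciSup hbd k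
    linarith
  have hp : ∀ n, MeasurableSet {x | p x n} := by
    intro n
    have : {x | p x n} = ⋂ k, {x | ‖φ (q k) x‖ ^ 2 ≤ ‖φ (q n) x‖ ^ 2 + η} := by
      ext x; simp only [p, Set.mem_setOf_eq, Set.mem_iInter]
    rw [this]
    exact MeasurableSet.iInter fun k => measurableSet_le ((hm _).norm.pow_const 2)
      (((hm _).norm.pow_const 2).add_const η)
  refine ⟨fun x => q (Nat.find (hex x)), measurable_from_nat.comp (measurable_find hex hp), ?_⟩
  intro x t
  have hcl : IsClosed {t : ℝ | ‖φ t x‖ ^ 2 ≤ ‖φ (q (Nat.find (hex x))) x‖ ^ 2 + η} :=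
    isClosed_le ((hc x).norm.pow 2) continuous_const
  exact hq.induction_on t hcl (Nat.find_spec (hex x))

end T5u

end

end PkUPick

section PkUDrop

/-! A conditional expectation does not increase the best twisted average. -/

set_option autoImplicit false
set_option linter.unusedVariables false

open MeasureTheory ProbabilityTheory Filter Topology Function Finset ComplexConjugate
open scoped BigOperators
open Fib27 (BM)
open Pool.Agent.MP_154433_an

noncomputable section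

namespace T5u

open T3x T5x

namespace UDrop

lemma cont_ee : Continuous ee := by unfold ee; fun_prop

lemma norm_ee (t : ℝ) : ‖ee t‖ = 1 := Complex.norm_exp_ofReal_mul_I _

lemma bm_ee {Ω : Type} {m m0 : MeasurableSpace Ω} {μ : Measure Ω} {β : Ω → ℝ}
    (h : Measurable[m] β) (d : ℤ) : BM μ m fun x => ee ((d : ℝ) * β x) :=
  ⟨(cont_ee.measurable.comp (h.const_mul (d : ℝ))).stronglyMeasurable.aestronglyMeasurable, 1,
    ae_of_all _ fun x => (norm_ee _).le⟩

lemma bm_tav (F : Fd) (ν : Wt) {X : Sys} {B : MeasurableSpace X.X} (hB : Fac X B) {g : X.X → ℂ}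
    (hg : BM X.μ B g) (M : ℕ) {β : X.X → ℝ} (h : Measurable[B] β) :
    BM X.μ B fun x => tav ν X g M (β x) x :=
  CptA.bm_wsum (ν.sp M) (ν.w M) fun d _ => (F.t.bm X B d g hB hg).mul (bm_ee h d)

end UDrop

open UDrop in
theorem drop : DropR := by
  intro F hP ν X C G M b η hC hG hb hη
  have hc : BM X.μ C (X.μ[G | C]) := hG.ce C
  have mc : Measurable[C] (X.μ[G | C]) := stronglyMeasurable_condExp.measurable
  obtain ⟨β, mβ, hβ⟩ := hP X.X C (fun t x => tav ν X (X.μ[G | C]) M t x) η hη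
    (fun t => Finset.measurable_sum _ fun d _ => Measurable.const_smul
      ((mc.comp (measurable_iff_comap_le.2 (F.t.inv X C d hC).le)).mul_const _) (ν.w M d))
    (fun x => continuous_finsetSum _ fun d _ => Continuous.const_smul
      (continuous_const.mul (cont_ee.comp (continuous_const.mul continuous_id))) (ν.w M d))
    fun x => ⟨_, fun t => (norm_sum_le _ _).trans (le_of_eq (Finset.sum_congr rfl fun d _ => by
      rw [norm_smul, norm_mul, norm_ee]))⟩
  have mβ' : Measurable[X.ms] β := mβ.mono hC.le le_rfl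
  refine ⟨β, mβ', ?_⟩
  have hv := bm_tav F ν (F.t.top X) hG M mβ'
  have hw := bm_tav F ν hC hc M mβ
  have h1 : X.μ[fun x => tav ν X G M (β x) x | C] =ᵐ[X.μ] fun x => tav ν X (X.μ[G | C]) M (β x) x := by
    refine Fib27.ce_eq_of_tests hC.le hv hw fun t ht => ?_
    refine (CptA.int_wsum (ν.sp M) (ν.w M) (fun d _ => (CptA.bmT F hG d).mul (bm_ee mβ' d))
      (ht.mono hC.le)).trans (Eq.trans ?_ (CptA.int_wsum (ν.sp M) (ν.w M)
        (fun d _ => (CptA.bmT F (hc.mono hC.le) d).mul (bm_ee mβ' d)) (ht.mono hC.le)).symm)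
    refine Finset.sum_congr rfl fun d _ => congrArg _ ?_
    simp only [mul_assoc]
    rw [← Fib27.int_ce_mul hC.le (CptA.bmT F hG d) ((bm_ee mβ d).mul ht)]
    refine integral_congr_ae ?_
    filter_upwards [F.t.ce X C d G hC hG.integrable] with x hx
    rw [hx]
  have h2 := (F.d.eqn C X.ms X.μ hC.le le_rfl _ (hv.memLp 2)).1
  have h3 : ∫ x, ‖tav ν X (X.μ[G | C]) M (β x) x‖ ^ 2 ∂X.μ ≤ ∫ x, ‖tav ν X G M (β x) x‖ ^ 2 ∂X.μ := by
    refine le_trans (le_of_eq (integral_congr_ae ?_)) (h2.trans (le_of_eq (integral_congr_ae ?_)))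
    · filter_upwards [h1] with x hx
      rw [hx]
    · filter_upwards [hv.ce_self le_rfl] with x hx
      rw [hx]
  have i2 := CptA.int_sq (hw.mono hC.le)
  have h4 := integral_mono (CptA.int_sq (bm_tav F ν (F.t.top X) (hc.mono hC.le) M hb))
    (i2.add (integrable_const η)) fun x => hβ x (b x)
  simp only [Pi.add_apply] at h4
  rw [integral_add i2 (integrable_const η), integral_const, probReal_univ, one_smul] at h4
  linarith

end T5u

end

end PkUDrop

section PkUGf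

/-! Row UGf: closure properties of factors that are good for twisted averages. -/

set_option autoImplicit false
set_option linter.unusedVariables false

open MeasureTheory ProbabilityTheory Filter Topology Function Finset ComplexConjugate
open scoped BigOperators
open Fib27 (BM)
open Pool.Agent.MP_154433_an

noncomputable section

namespace T5u

open T3x T5x T3x.GfL

namespace UGfL

lemma norm_ee (t : ℝ) : ‖ee t‖ = 1 := Complex.norm_exp_ofReal_mul_I _

lemma cont_ee : Continuous ee := by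
  unfold ee
  fun_prop

variable {X : Sys} {ν ν' : Wt}

lemma tav_eq (g : X.X → ℂ) (M : ℕ) (t : ℝ) (x : X.X) :
    tav ν X g M t x = ∑ d ∈ ν.sp M, (ν.w M d : ℂ) * (g (X.Tz d x) * ee ((d : ℝ) * t)) := by
  simp only [tav, Wt.av, Complex.real_smul]

lemma bm_ee {b : X.X → ℝ} (hb : Measurable b) (c : ℝ) : BM X.μ X.ms fun x => ee (c * b x) :=
  ⟨(cont_ee.measurable.comp (hb.const_mul c)).aestronglyMeasurable, 1,
    Eventually.of_forall fun x => (norm_ee _).le⟩

lemma bm_tav (t : BasT) {g : X.X → ℂ} (hg : BM X.μ X.ms g) (M : ℕ) {b : X.X → ℝ}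
    (hb : Measurable b) : BM X.μ X.ms fun x => tav ν X g M (b x) x :=
  (bm_sum (ν.sp M) fun d _ => ((bm_comp (t.mp X d) hg).mul (bm_ee hb d)).cmul
    (ν.w M d : ℂ)).congr (Eventually.of_forall fun x => (tav_eq g M _ x).symm)

lemma contr (t : BasT) {h : X.X → ℂ} (hh : BM X.μ X.ms h) (M : ℕ) {b : X.X → ℝ}
    (hb : Measurable b) :
    ∫ x, ‖tav ν X h M (b x) x‖ ^ 2 ∂X.μ ≤ ∫ x, ‖h x‖ ^ 2 ∂X.μ := by
  have hi : ∀ d ∈ ν.sp M, Integrable (fun x => ν.w M d * ‖h (X.Tz d x)‖ ^ 2) X.μ :=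
    fun d _ => (isq (bm_comp (t.mp X _) hh)).const_mul _
  refine (integral_mono (isq (bm_tav t hh M hb)) (integrable_finsetSum _ hi)
    fun x => ?_).trans (le_of_eq ?_)
  · have cv : ConvexOn ℝ Set.univ fun z : ℂ => ‖z‖ ^ 2 :=
      convexOn_univ_norm.pow (fun _ _ => norm_nonneg _) 2
    have h1 := cv.map_sum_le (t := ν.sp M) (w := ν.w M) (p := fun d =>
      h (X.Tz d x) * ee ((d : ℝ) * b x))
      (fun d _ => ν.nn M d) (ν.one M) fun _ _ => Set.mem_univ _
    simp only [Complex.real_smul, smul_eq_mul, norm_mul, norm_ee, mul_one] at h1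
    simp only [tav_eq]
    exact h1
  · rw [integral_finsetSum _ hi, ← one_mul (∫ x, ‖h x‖ ^ 2 ∂X.μ), ← ν.one M, sum_mul]
    refine sum_congr rfl fun d _ => ?_
    rw [integral_const_mul, int_comp (f := fun y => ‖h y‖ ^ 2) (t.mp X _) (isq hh).1]

lemma tav_congr (t : BasT) {f g : X.X → ℂ} (h : f =ᵐ[X.μ] g) :
    ∀ᵐ x ∂X.μ, ∀ (ν : Wt) M s, tav ν X f M s x = tav ν X g M s x := by
  filter_upwards [ae_all_iff.2 fun n : ℤ => (t.mp X n).quasiMeasurePreserving.ae h] with x hx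
  intro ν M s
  simp only [tav_eq, hx]

lemma tav_add (f g : X.X → ℂ) (M : ℕ) (s : ℝ) (x : X.X) :
    tav ν X (fun y => f y + g y) M s x = tav ν X f M s x + tav ν X g M s x := by
  simp only [tav_eq, ← sum_add_distrib]
  exact sum_congr rfl fun d _ => by ring

lemma tav_split (g : X.X → ℂ) {n : ℕ} (a : Fin n → X.X → ℂ) (M : ℕ) (s : ℝ) (x : X.X) :
    tav ν X g M s x = ∑ j, tav ν X (a j) M s x +
      tav ν X (fun y => g y - ∑ j, a j y) M s x := by
  simp only [tav_eq]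
  rw [sum_comm, ← sum_add_distrib]
  refine sum_congr rfl fun d _ => ?_
  rw [← mul_sum, ← sum_mul]
  ring

lemma dense (t : BasT) {C : MeasurableSpace X.X} {T : Set (X.X → ℂ)} (hC : C ≤ X.ms)
    (hT : ∀ φ ∈ T, BM X.μ X.ms φ)
    (h1 : ∀ g, BM X.μ C g → ∀ ε : ℝ, 0 < ε → ∃ (n : ℕ) (a : Fin n → X.X → ℂ), (∀ i, a i ∈ T) ∧
      ∫ x, ‖g x - ∑ i, a i x‖ ^ 2 ∂X.μ ≤ ε)
    (h2 : ∀ f ∈ T, UV ν ν' X f) : UG ν ν' X C := by
  intro g hg b hb
  have hg' := hg.mono hC
  refine sm_apx (m0 := X.ms) (μ := X.μ)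
    (φ := fun M y => tav ν X g M (b M y) y - tav ν' X g M (b M y) y) fun ε hε => ?_
  obtain ⟨n, a, ha, hd'⟩ := h1 g hg (ε / 4) (by positivity)
  have hd := hg'.sub (bm_sum univ fun j _ => hT _ (ha j))
  have bm : ∀ j M, BM X.μ X.ms fun x => tav ν X (a j) M (b M x) x - tav ν' X (a j) M (b M x) x :=
    fun j M => (bm_tav t (hT _ (ha j)) M (hb M)).sub (bm_tav t (hT _ (ha j)) M (hb M))
  refine ⟨_, fun M x => tav ν X (fun y => g y - ∑ j, a j y) M (b M x) x -
    tav ν' X (fun y => g y - ∑ j, a j y) M (b M x) x,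
    sm_sum univ bm fun j => h2 _ (ha j) b hb, fun M => ⟨bm_sum _ fun j _ => bm j M,
      (bm_tav t hd M (hb M)).sub (bm_tav t hd M (hb M)), ?_⟩, fun M x => ?_⟩
  · linarith [n2_sub (bm_tav (ν := ν) t hd M (hb M)) (bm_tav (ν := ν') t hd M (hb M)),
      contr (ν := ν) t hd M (hb M), contr (ν := ν') t hd M (hb M)]
  · rw [tav_split (ν := ν) g a, tav_split (ν := ν') g a, sum_sub_distrib]
    ring

lemma meas_tav (t : BasT) {g : X.X → ℂ} (hg : Measurable g) (M : ℕ) (s : ℝ) :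
    Measurable (tav ν X g M s) := by
  have e : tav ν X g M s = fun x =>
      ∑ d ∈ ν.sp M, (ν.w M d : ℂ) * (g (X.Tz d x) * ee ((d : ℝ) * s)) := funext (tav_eq g M s)
  rw [e]
  exact Finset.measurable_sum _ fun d _ =>
    ((hg.comp (t.mp X d).measurable).mul_const _).const_mul _

lemma cont_tav (g : X.X → ℂ) (M : ℕ) (x : X.X) : Continuous fun s => tav ν X g M s x := by
  simp only [tav_eq]
  exact continuous_finsetSum _ fun d _ => continuous_const.mul
    (continuous_const.mul (cont_ee.comp (continuous_const.mul continuous_id)))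

lemma bd_tav (g : X.X → ℂ) (M : ℕ) (x : X.X) (s : ℝ) :
    ‖tav ν X g M s x‖ ≤ ∑ d ∈ ν.sp M, ‖(ν.w M d : ℂ)‖ * ‖g (X.Tz d x)‖ := by
  rw [tav_eq]
  refine (norm_sum_le _ _).trans (le_of_eq (sum_congr rfl fun d _ => ?_))
  rw [norm_mul, norm_mul, norm_ee, mul_one]

lemma down (A : BasA) (t : BasT) (P : Pick) {X' : Sys} {e : X.X → X'.X} (he : Emb X X' e)
    (h : ∀ f ∈ Bdd X.X, ∃ f' ∈ Bdd X'.X, ∀ x, f' (e x) = f x) (hg : UG ν ν' X' X'.ms) :
    UG ν ν' X X.ms := by
  rintro f ⟨k1, C, hC⟩ b hb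
  have hf : BM X.μ X.ms f := ⟨k1, C, hC⟩
  obtain ⟨f0, a1, a2, a3⟩ := A.rep X.ms X.μ f (max C 0) (le_max_right _ _) k1
    (hC.mono fun _ h => h.trans (le_max_left _ _))
  obtain ⟨f', ⟨b1, C', b2⟩, b3⟩ := h f0 ⟨a1, _, a2⟩
  have c1 : BM X'.μ X'.ms f' := ⟨b1.aestronglyMeasurable, C', Eventually.of_forall b2⟩
  have c2 : f =ᵐ[X.μ] fun x => f' (e x) := by simpa only [b3]
  have e1 : ∀ᵐ x ∂X.μ, ∀ (ν : Wt) M s, tav ν X f M s x = tav ν X' f' M s (e x) := by
    filter_upwards [tav_congr t c2, ae_all_iff.2 fun n : ℤ => A.keq_fun X'.ms X.μ X'.μ _ _ f'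
      (he.mp.comp (t.mp X n)) ((t.mp X' n).comp he.mp) (t.emb_z X X' e n he) c1.1] with x h1 h2
    intro ν M s
    rw [h1, tav_eq, tav_eq]
    exact sum_congr rfl fun d _ => congrArg _ (congrArg (· * _) (h2 d))
  have pk : ∀ M : ℕ, ∃ b' : X'.X → ℝ, Measurable b' ∧ ∀ y s,
      ‖tav ν X' f' M s y - tav ν' X' f' M s y‖ ^ 2 ≤
        ‖tav ν X' f' M (b' y) y - tav ν' X' f' M (b' y) y‖ ^ 2 + 1 / ((M : ℝ) + 1) := fun M =>
    P X'.X X'.ms (fun s y => tav ν X' f' M s y - tav ν' X' f' M s y) _ (by positivity)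
      (fun s => (meas_tav t b1 M s).sub (meas_tav t b1 M s))
      (fun y => (cont_tav f' M y).sub (cont_tav f' M y))
      fun y => ⟨_, fun s => (norm_sub_le _ _).trans
        (add_le_add (bd_tav f' M y s) (bd_tav f' M y s))⟩
  choose b' p1 p2 using pk
  refine squeeze_zero (fun _ => integral_nonneg fun _ => by positivity) (fun M => ?_)
    (by simpa only [add_zero] using
      (hg f' c1 b' p1).add (tendsto_one_div_add_atTop_nhds_zero_nat (𝕜 := ℝ)))
  have q := (bm_tav (ν := ν) t c1 M (p1 M)).sub (bm_tav (ν := ν') t c1 M (p1 M))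
  rw [← int_comp he.mp (isq q).1]
  have q' := isq (bm_comp he.mp q)
  refine (integral_mono_ae (isq ((bm_tav t hf M (hb M)).sub (bm_tav t hf M (hb M))))
    (q'.add (integrable_const (1 / ((M : ℝ) + 1)))) ?_).trans (le_of_eq ?_)
  · filter_upwards [e1] with x hx
    rw [hx, hx]
    exact p2 M _ _
  · simp only [Pi.add_apply]
    rw [integral_add q' (integrable_const _), integral_const, probReal_univ, one_smul]

end UGfL

open UGfL in
theorem ugf : UGfR := by
  rintro ⟨A, t, D, -⟩ P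
  refine ⟨fun ν ν' X C T hC hT h1 h2 => UGfL.dense t hC hT h1 h2,
    fun ν ν' X 𝒞 hne hch h => ?_, fun ν ν' X X' e he h hg => down A t P he h hg,
    fun ν ν' X f hf h1 h2 b hb => ?_, fun ν ν' X f f1 f2 k1 k2 e h1 h2 b hb => ?_⟩
  · have hle := (t.fsSup X 𝒞 hne fun C hC => (h C hC).1).le
    refine UGfL.dense t (T := {φ | ∃ C ∈ 𝒞, BM X.μ C φ}) hle
      (fun φ ⟨C, hC, hφ⟩ => hφ.mono (h C hC).1.le) (fun g hg ε hε => ?_)
      fun f ⟨C, hC, hφ⟩ => (h C hC).2 f hφ
    obtain ⟨C, hC, k⟩ := D.chain 𝒞 X.μ hne hch.directedOn (fun C hC => (h C hC).1.le) g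
      ((hg.mono hle).memLp 2) ε hε
    refine ⟨1, fun _ => X.μ[g | C], fun _ => ⟨C, hC, hg.ce C⟩, le_trans (le_of_eq ?_)
      (k C hC le_rfl)⟩
    refine integral_congr_ae ?_
    filter_upwards [BM.ce_self hle hg] with x hx
    rw [hx, Fin.sum_univ_one]
  · exact sm_of (μ := X.μ) (φ := fun M y => tav ν X f M (b M y) y - tav ν' X f M (b M y) y)
      (h1 b hb) (h2 b hb) fun M => n2_sub (bm_tav t hf M (hb M)) (bm_tav t hf M (hb M))
  · refine sm_of (μ := X.μ) (φ := fun M y => tav ν X f M (b M y) y - tav ν' X f M (b M y) y)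
      (h1 b hb) (h2 b hb) fun M => le_trans (le_of_eq (integral_congr_ae ?_))
        (n2_add ((bm_tav t k1 M (hb M)).sub (bm_tav t k1 M (hb M)))
          ((bm_tav t k2 M (hb M)).sub (bm_tav t k2 M (hb M))))
    filter_upwards [tav_congr t e] with x hx
    rw [hx, hx, tav_add, tav_add]
    congr 2
    ring

end T5u

end

end PkUGf

section PkUKey

/-! Row UKey: the Cauchy-Schwarz step with a twist. -/

set_option autoImplicit false
set_option linter.unusedVariables false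
set_option linter.unusedSectionVars false

open MeasureTheory ProbabilityTheory Filter Topology Function Finset ComplexConjugate
open scoped BigOperators
open Fib27 (BM)

noncomputable section

namespace T5u

open T3x T5x

namespace UKey

open CptA

theorem rpIntT (F : Fd) {X Z : Sys} {J : Type} [Fintype J] {j0 : J} {q : Z.X → X.X}
    (hq : Emb Z X q) {W : Sys} {P : J → W.X → Z.X}
    (hW : IsRP (fun _ : J => Z) X X.ms (fun _ => q) j0 W P)
    (G : J → Z.X → ℂ) (u : J → X.X → ℂ) (hG : ∀ j, BM Z.μ Z.ms (G j))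
    (hu : ∀ j, BM X.μ X.ms (u j))
    (h : ∀ j, (fun z => u j (q z)) =ᵐ[Z.μ] Z.μ[G j | pull Z.μ q X.ms]) {τ : X.X → ℂ}
    (hτ : BM X.μ X.ms τ) :
    ∫ w, τ (q (P j0 w)) * ∏ j, G j (P j w) ∂W.μ = ∫ x, τ x * ∏ j, u j x ∂X.μ := by
  have hm : ∀ j, MeasurePreserving (q ∘ P j) W.μ X.μ := fun j => hq.mp.comp (hW.emb j).mp
  have h0 := Fib27.int_mul_ce (F.a.pull_le X.ms W.μ X.μ _ (hm j0) le_rfl)
    (F.a.bm_comp X.ms W.μ X.μ _ τ (hm j0) hτ)
    (bm_prod (μ := W.μ) univ fun j _ => bmc F (hW.emb j).mp (hG j))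
  refine h0.symm.trans ?_
  rw [← intc (hm j0) (hτ.mul (bm_prod univ fun j _ => hu j))]
  refine integral_congr_ae ?_
  have h1 : ∀ j, ∀ᵐ w ∂W.μ, (Z.μ[G j | pull Z.μ q X.ms]) (P j w) = u j ((q ∘ P j0) w) := by
    intro j
    have h2 := (hW.emb j).mp.quasiMeasurePreserving.ae_eq_comp (h j)
    have h3 := F.a.keq_fun X.ms W.μ X.μ _ _ (u j) (hm j) (hm j0) (hW.com j) (hu j).1
    exact h2.symm.trans h3
  filter_upwards [ae_all_iff.2 h1, hW.ind univ G fun j _ => hG j] with w hw h2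
  rw [h2]
  exact congrArg _ (Finset.prod_congr rfl fun j _ => hw j)

end UKey

open CptA in
theorem key : KeyR := by
  intro F X Z C p hC hP H0 g0 k0 a1 a2 a3 a4
  let H : Bool → Z.X → ℂ := fun j => cond j H0 fun z => conj (H0 z)
  let g : Bool → X.X → ℂ := fun j => cond j g0 fun z => conj (g0 z)
  let k : Bool → X.X → ℂ := fun j => cond j k0 fun z => conj (k0 z)
  have h : ∀ j, BM Z.μ (T3x.Inv Z) (H j) ∧ BM X.μ X.ms (g j) ∧ BM X.μ X.ms (k j) ∧
      Star p (H j) (g j) (k j) := by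
    rintro (_ | _)
    · exact ⟨a1.conj, a2.conj, a3.conj, starC F hP (a1.mono (F.t.finv Z).le) a2 a4⟩
    · exact ⟨a1, a2, a3, a4⟩
  obtain ⟨W, P, hW⟩ := F.rp Bool (fun _ => Z) X X.ms (fun _ => p false) true (fun _ => hP.nice)
    (F.t.top X) (fun _ => (hP.emb false).mp) fun _ => F.t.emb_z Z X _ 1 (hP.emb false)
  have hH : ∀ j, BM Z.μ Z.ms (H j) := fun j => (h j).1.mono (F.t.finv Z).le
  have hΦ : BM W.μ W.ms fun w => ∏ j, H j (P j w) :=
    bm_prod univ fun j _ => bmc F (hW.emb j).mp (hH j)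
  obtain ⟨-, K, hK⟩ := id hΦ
  refine ⟨max K 0 ^ 2, sq_nonneg _, fun N hN d d' τ hτ => ?_⟩
  let ρ : Bool → ℤ := fun j => cond j d d'
  have hgz : ∀ j (n : ℤ), BM Z.μ Z.ms fun z => g j (X.Tz n (X.Tz (ρ j) (p true z))) := fun j n =>
    bmc F (hP.emb true).mp (bmT F (bmT F (h j).2.1 n) (ρ j))
  let Ψ : ℕ → W.X → ℂ := fun n w => τ (X.Tz n (p false (P true w))) *
    ∏ j, g j (X.Tz n (X.Tz (ρ j) (p true (P j w))))
  have hΨ : ∀ n, BM W.μ W.ms (Ψ n) := fun n =>
    (bmc F (hW.emb true).mp (bmc F (hP.emb false).mp (bmT F hτ n))).mul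
      (bm_prod univ fun j _ => bmc F (hW.emb j).mp (hgz j n))
  have e1 : ∀ n : ℕ, ∫ w, Ψ n w * ∏ j, H j (P j w) ∂W.μ =
      ∫ x, τ x * (k0 (X.Tz d x) * conj (k0 (X.Tz d' x))) ∂X.μ := by
    intro n
    have h1 := UKey.rpIntT F (hP.emb false) hW
      (fun j z => H j z * g j (X.Tz n (X.Tz (ρ j) (p true z))))
      (fun j x => k j (X.Tz n (X.Tz (ρ j) x))) (fun j => (hH j).mul (hgz j n))
      (fun j => bmT F (bmT F (h j).2.2.1 n) (ρ j)) (fun j =>
        starT F hP (h j).1 (bmT F (h j).2.1 n) (bmT F (h j).2.2.1 n)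
          (starT F hP (h j).1 (h j).2.1 (h j).2.2.1 (h j).2.2.2 n) (ρ j)) (bmT F hτ n)
    simp only [Finset.prod_mul_distrib] at h1
    rw [← intc (F.t.mp X n) (hτ.mul ((bmT F a3 d).mul (bmT F a3 d').conj))]
    refine Eq.trans (integral_congr_ae (Eventually.of_forall fun w => ?_)) (h1.trans ?_)
    · simp only [Ψ]
      ring
    · simp only [Fintype.prod_bool, k, ρ, cond_true, cond_false, ← F.t.add, add_comm]
  have e2 : ∀ n n' : ℕ, ∫ w, Ψ n w * conj (Ψ n' w) ∂W.μ =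
      ∫ x, τ (X.Tz n x) * conj (τ (X.Tz n' x)) *
        ((X.μ[fun y => g0 (X.Tz n y) * conj (g0 (X.Tz n' y)) | C]) (X.Tz d x) *
          conj ((X.μ[fun y => g0 (X.Tz n y) * conj (g0 (X.Tz n' y)) | C]) (X.Tz d' x))) ∂X.μ := by
    intro n n'
    have hb : ∀ j, BM X.μ X.ms fun y => g j (X.Tz n y) * conj (g j (X.Tz n' y)) := fun j =>
      (bmT F (h j).2.1 n).mul (bmT F (h j).2.1 n').conj
    have h1 := UKey.rpIntT F (hP.emb false) hW
      (fun j z => g j (X.Tz n (X.Tz (ρ j) (p true z))) *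
        conj (g j (X.Tz n' (X.Tz (ρ j) (p true z)))))
      (fun j x => (X.μ[fun y => g j (X.Tz n y) * conj (g j (X.Tz n' y)) | C]) (X.Tz (ρ j) x))
      (fun j => (hgz j n).mul (hgz j n').conj)
      (fun j => bmT F (((hb j).ce C).mono hC.le) (ρ j)) (fun j => by
        refine EventuallyEq.trans ?_ (pairCE F hC hP (bmT F (hb j) (ρ j)))
        exact aec (hP.emb false).mp (F.t.ce X C (ρ j) _ hC (hb j).integrable).symm)
      ((bmT F hτ n).mul (bmT F hτ n').conj)
    refine Eq.trans (integral_congr_ae (Eventually.of_forall fun w => ?_)) (h1.trans ?_)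
    · simp only [Ψ, map_mul, map_prod, Finset.prod_mul_distrib]
      ring
    · have h2 := aeT F (Fib27.ce_conj hC.le (hb true)) d'
      refine integral_congr_ae ?_
      filter_upwards [h2] with x hx
      simp only [g, cond_true, map_mul] at hx
      simp only [Fintype.prod_bool, g, ρ, cond_true, cond_false, hx]
  have hN' : (N : ℂ) ≠ 0 := by exact_mod_cast (by omega : N ≠ 0)
  have e3 : ∫ x, τ x * (k0 (X.Tz d x) * conj (k0 (X.Tz d' x))) ∂X.μ =
      ∫ w, (∑ n ∈ range N, (N : ℝ)⁻¹ • Ψ n w) * ∏ j, H j (P j w) ∂W.μ := by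
    rw [int_wsum (range N) (fun _ => (N : ℝ)⁻¹) (fun n _ => hΨ n) hΦ]
    simp only [e1, Finset.sum_const, Finset.card_range, nsmul_eq_mul]
    push_cast
    rw [← mul_assoc, mul_inv_cancel₀ hN', one_mul]
  rw [e3]
  refine (cs (le_max_right K 0) (hK.mono fun w hw => hw.trans (le_max_left _ _))
    (bm_wsum (range N) (fun _ => (N : ℝ)⁻¹) fun n _ => hΨ n)).trans (le_of_eq ?_)
  rw [sq_wsum (range N) (fun _ => (N : ℝ)⁻¹) fun n _ => hΨ n]
  simp only [e2]

end T5u

end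

end PkUKey

section PkUCptA

/-! Row UCptA: twisted averages of convolutions vanish. -/

set_option autoImplicit false
set_option linter.unusedVariables false
set_option linter.unusedSectionVars false

open MeasureTheory ProbabilityTheory Filter Topology Function Finset ComplexConjugate
open scoped BigOperators
open Fib27 (BM)

noncomputable section

namespace T5u

open T3x T5x

namespace UCptAx

open CptA

theorem ee_add (s t : ℝ) : ee (s + t) = ee s * ee t := by
  rw [ee, ee, ee, ← Complex.exp_add]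
  congr 1
  push_cast
  ring

theorem norm_ee (t : ℝ) : ‖ee t‖ = 1 := Complex.norm_exp_ofReal_mul_I _

theorem conj_ee (t : ℝ) : conj (ee t) = ee (-t) := by
  rw [ee, ee, ← Complex.exp_conj, map_mul, Complex.conj_ofReal, Complex.conj_I]
  congr 1
  push_cast
  ring

theorem cont_ee : Continuous ee := by
  unfold ee
  fun_prop

theorem ee_sub (d s t : ℝ) : ee (d * (s - t)) = ee (d * s) * conj (ee (d * t)) := by
  rw [conj_ee, ← ee_add]
  congr 1
  ring

theorem bm_ee {Ω : Type} {m m0 : MeasurableSpace Ω} {μ : Measure[m0] Ω} {b : Ω → ℝ}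
    (hb : Measurable[m] b) (d : ℝ) : BM μ m fun x => ee (d * b x) :=
  ⟨(cont_ee.measurable.comp (hb.const_mul d)).aestronglyMeasurable, 1,
    Eventually.of_forall fun _ => (norm_ee _).le⟩

variable {X : Sys} {ν ν' : Wt}

theorem tav_eq (g : X.X → ℂ) (M : ℕ) (t : ℝ) (x : X.X) :
    tav ν X g M t x = ∑ d ∈ ν.sp M, ν.w M d • (g (X.Tz d x) * ee ((d : ℝ) * t)) := rfl

theorem bm_tav (t : BasT) {B : MeasurableSpace X.X} (hB : Fac X B) {g : X.X → ℂ}
    (hg : BM X.μ B g) {b : X.X → ℝ} (hb : Measurable[B] b) (ν : Wt) (M : ℕ) :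
    BM X.μ B fun x => tav ν X g M (b x) x :=
  CptA.bm_wsum (ν.sp M) (ν.w M) fun d _ => (t.bm X B d g hB hg).mul (bm_ee hb d)

theorem bmt (t : BasT) {g : X.X → ℂ} (hg : BM X.μ X.ms g) {b : X.X → ℝ}
    (hb : Measurable[X.ms] b) (ν : Wt) (M : ℕ) : BM X.μ X.ms fun x => tav ν X g M (b x) x :=
  bm_tav t (t.top X) hg hb ν M

theorem msh (t : BasT) {b : X.X → ℝ} (hb : Measurable b) (n n' : ℤ) :
    Measurable fun x => b (X.Tz n x) - b (X.Tz n' x) :=
  (hb.comp (t.mp X n).measurable).sub (hb.comp (t.mp X n').measurable)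

theorem sq_tav (F : Fd) {X : Sys} (ν : Wt) (M : ℕ) {f : X.X → ℂ} (hf : BM X.μ X.ms f)
    {b : X.X → ℝ} (hb : Measurable[X.ms] b) :
    ∫ x, ‖tav ν X f M (b x) x‖ ^ 2 ∂X.μ = ∑ d ∈ ν.sp M, ∑ d' ∈ ν.sp M, ν.w M d * ν.w M d' *
      (∫ x, ee (d * b x) * conj (ee (d' * b x)) * (f (X.Tz d x) * conj (f (X.Tz d' x)))
        ∂X.μ).re := by
  have := sq_wsum (μ := X.μ) (ν.sp M) (ν.w M) (f := fun d x => f (X.Tz d x) * ee (d * b x))
    fun d _ => (bmT F hf d).mul (bm_ee hb d)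
  refine this.trans (sum_congr rfl fun d _ => sum_congr rfl fun d' _ => ?_)
  congr 3
  funext x
  rw [map_mul]
  ring

theorem core (F : Fd) (hk : KeyT) (hd : Drop) {ν' ν'' : Wt} {X Z : Sys}
    {B0 C : MeasurableSpace X.X} {p : Bool → Z.X → X.X} (hB : B0 ≤ C) (hC : Fac X C)
    (hP : Pair X C Z p) (hGood : UG ν'' ν' X C) (hG0 : TG0 ν' X B0) (H : Z.X → ℂ)
    (g k : X.X → ℂ) (a1 : BM Z.μ (T3x.Inv Z) H) (a2 : BM X.μ X.ms g) (a3 : BM X.μ X.ms k)
    (a4 : Star p H g k) (hg1 : ∀ᵐ x ∂X.μ, ‖g x‖ ≤ 1) (h0 : X.μ[g | C] =ᵐ[X.μ] 0) :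
    U0 ν'' X k := by
  intro b hb
  obtain ⟨K, hK, hkey⟩ := hk X Z C p hC hP H g k a1 a2 a3 a4
  let G : ℕ → ℕ → X.X → ℂ := fun n n' y => g (X.Tz n y) * conj (g (X.Tz n' y))
  have hG : ∀ n n', BM X.μ X.ms (G n n') := fun n n' => (bmT F a2 n).mul (bmT F a2 n').conj
  have hc : ∀ n n', BM X.μ C (X.μ[G n n' | C]) := fun n n' => (hG n n').ce C
  have hc' : ∀ n n', BM X.μ X.ms (X.μ[G n n' | C]) := fun n n' => (hc n n').mono hC.le
  let β : ℕ → ℕ → ℕ → X.X → ℝ := fun n n' M x => b M (X.Tz n x) - b M (X.Tz n' x)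
  have hβ : ∀ n n' M, Measurable[X.ms] (β n n' M) := fun n n' M =>
    (msh F.t (hb M) n n')
  have main : ∀ N M, 1 ≤ N → (∫ x, ‖tav ν'' X k M (b M x) x‖ ^ 2 ∂X.μ) ^ 2 ≤
      K * ∑ n ∈ range N, ∑ n' ∈ range N, (N : ℝ)⁻¹ * (N : ℝ)⁻¹ *
        ∫ x, ‖tav ν'' X (X.μ[G n n' | C]) M (β n n' M x) x‖ ^ 2 ∂X.μ := by
    intro N M hN
    rw [sq_tav F ν'' M a3 (hb M)]
    refine (jensen _ _ (ν''.nn M) (ν''.one M) _ _ fun d d' => le_trans
      ((sq_abs _).symm.trans_le (pow_le_pow_left₀ (abs_nonneg _) (Complex.abs_re_le_norm _) 2))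
      (hkey N hN d d' (fun x => ee (d * b M x) * conj (ee (d' * b M x)))
        ((bm_ee (hb M) d).mul (bm_ee (hb M) d').conj))).trans (le_of_eq ?_)
    simp only [sq_tav F ν'' M (hc' _ _) (hβ _ _ M), Finset.mul_sum]
    simp only [Finset.sum_comm (s := ν''.sp M) (t := range N)]
    refine Finset.sum_congr rfl fun n _ => Finset.sum_congr rfl fun n' _ =>
      Finset.sum_congr rfl fun d _ => Finset.sum_congr rfl fun d' _ => ?_
    have e : (fun x => ee (d * b M (X.Tz n x)) * conj (ee (d' * b M (X.Tz n x))) *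
        conj (ee (d * b M (X.Tz n' x)) * conj (ee (d' * b M (X.Tz n' x)))) *
        ((X.μ[G n n' | C]) (X.Tz d x) * conj ((X.μ[G n n' | C]) (X.Tz d' x)))) =
        fun x => ee (d * β n n' M x) * conj (ee (d' * β n n' M x)) *
          ((X.μ[G n n' | C]) (X.Tz d x) * conj ((X.μ[G n n' | C]) (X.Tz d' x))) := by
      funext x
      simp only [β, ee_sub, map_mul]
      ring
    rw [e]
    ring
  have hB0 : X.μ[g | B0] =ᵐ[X.μ] 0 := by
    refine (condExp_condExp_of_le hB hC.le).symm.trans ((condExp_congr_ae h0).trans ?_)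
    rw [condExp_zero]
  refine tendsto_order.2 ⟨fun a ha => Eventually.of_forall fun M =>
    ha.trans_le (integral_nonneg fun x => by positivity), fun ε hε => ?_⟩
  have hδ : 0 < ε ^ 2 / (8 * K + 1) := by positivity
  obtain ⟨N, a, hN, ha, hs⟩ := hG0 g a2 hg1 hB0 _ hδ
  have hev : ∀ n ∈ range N, ∀ n' ∈ range N, ∀ᶠ M in atTop,
      ∫ x, ‖tav ν'' X (X.μ[G n n' | C]) M (β n n' M x) x‖ ^ 2 ∂X.μ ≤
        6 * (ε ^ 2 / (8 * K + 1)) + 2 * a n n' := by
    intro n _ n' _
    filter_upwards [(tendsto_order.1 (hGood _ (hc n n') (β n n') (hβ n n'))).2 _ hδ,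
      hs n n' _ hδ] with M h1 h2
    have h3 := sq_le_two (bmt F.t (hc' n n') (hβ n n' M) ν'' M) (bmt F.t (hc' n n') (hβ n n' M) ν' M)
    obtain ⟨b', h4, h5⟩ := hd ν' X C (G n n') M (β n n' M) _ hC (hG n n') (hβ n n' M) hδ
    have h6 := h2 b' h4
    linarith
  filter_upwards [(Finset.eventually_all _).2 fun n hn => (Finset.eventually_all _).2 (hev n hn)]
    with M hM
  have hN' : (0 : ℝ) < N := by exact_mod_cast hN
  have h5 : ∑ n ∈ range N, ∑ n' ∈ range N, (N : ℝ)⁻¹ * (N : ℝ)⁻¹ *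
      ∫ x, ‖tav ν'' X (X.μ[G n n' | C]) M (β n n' M x) x‖ ^ 2 ∂X.μ ≤
      8 * (ε ^ 2 / (8 * K + 1)) := by
    refine (Finset.sum_le_sum fun n hn => Finset.sum_le_sum fun n' hn' =>
      mul_le_mul_of_nonneg_left (hM n hn n' hn') (by positivity)).trans ?_
    simp only [← Finset.mul_sum, Finset.sum_add_distrib, Finset.sum_const, Finset.card_range,
      nsmul_eq_mul]
    calc _ = (N : ℝ)⁻¹ * (N : ℝ)⁻¹ * (N * (N * (6 * (ε ^ 2 / (8 * K + 1)))) +
          2 * ∑ n ∈ range N, ∑ n' ∈ range N, a n n') := by ring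
      _ ≤ (N : ℝ)⁻¹ * (N : ℝ)⁻¹ * (N * (N * (6 * (ε ^ 2 / (8 * K + 1)))) +
          2 * (ε ^ 2 / (8 * K + 1) * N ^ 2)) := by gcongr
      _ = _ := by
        field_simp
        ring
  have h6 := (main N M hN).trans (mul_le_mul_of_nonneg_left h5 hK)
  have h7 : K * (8 * (ε ^ 2 / (8 * K + 1))) < ε ^ 2 := by
    have : ε ^ 2 = (8 * K + 1) * (ε ^ 2 / (8 * K + 1)) := by field_simp
    linarith
  exact lt_of_pow_lt_pow_left₀ 2 hε.le (h6.trans_lt h7)

end UCptAx

theorem ucptA : UCptAR := by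
  intro F hk hd ν' ν'' X B0 C Z p hX hB0 hC hB hP hGood hG0 H g k a1 a2 a3 a4 h0
  obtain ⟨L, hL, hLg⟩ : ∃ L : ℝ, 0 < L ∧ ∀ᵐ x ∂X.μ, ‖g x‖ ≤ L := by
    obtain ⟨L, hL⟩ := a2.2
    exact ⟨max L 1, lt_max_of_lt_right one_pos, hL.mono fun x hx => hx.trans (le_max_left _ _)⟩
  have hL' : (L : ℂ) ≠ 0 := by exact_mod_cast hL.ne'
  refine UCptAx.core F hk hd hB hC hP hGood hG0 (fun z => (L : ℂ) * H z)
    (fun x => (L : ℂ)⁻¹ * g x) k (a1.cmul _) (a2.cmul _) a3 ?_ ?_ ?_
  · have e : (fun z => (L : ℂ) * H z * ((L : ℂ)⁻¹ * g (p true z))) =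
        fun z => H z * g (p true z) := by
      funext z
      field_simp
    unfold T3x.Star
    rw [e]
    exact a4
  · filter_upwards [hLg] with x hx
    rw [norm_mul, norm_inv, Complex.norm_real, Real.norm_of_nonneg hL.le,
      inv_mul_le_iff₀ hL, mul_one]
    exact hx
  · refine (Fib27.ce_cmul hC.le _ a2).trans ?_
    filter_upwards [h0] with x hx
    simp [hx]

end T5u

end

end PkUCptA

section PkUCpt

/-! Row UCpt: the compact step for twisted averages. -/

set_option autoImplicit false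
set_option linter.unusedVariables false
set_option warn.classDefReducibility false

open MeasureTheory ProbabilityTheory Filter Topology Function Finset ComplexConjugate
open scoped BigOperators
open Fib27 (BM)
open Pool.Agent.MP_154433_an

noncomputable section

namespace T5u

open T3x T5x

open T3x.GfL in
theorem ucpt : UCptR := by
  intro F G hA ν ν' X B0 C hX hB hC hBC hI hg h0
  obtain ⟨Z, p, hp⟩ : ∃ Z p, Pair X C Z p := F.rp Bool (fun _ => X) X C (fun _ => id) false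
    (fun _ => hX) hC (fun _ => (F.t.emb_id X).mp) fun _ _ _ => EventuallyEq.rfl
  have mp : ∀ b, @MeasurePreserving _ _ Z.ms X.ms (p b) Z.μ X.μ := fun b => (hp.emb b).mp
  have hP := F.t.fpull Z X (p false) X.ms (hp.emb false) (F.t.top X)
  have b0 : ∀ c, BM X.μ X.ms c → BM Z.μ (pull Z.μ (p false) X.ms) fun z => c (p false z) :=
    fun c hc => F.a.bm_comp X.ms Z.μ X.μ _ c (mp false) hc
  have sw : ∀ c, BM X.μ C c → (fun z => c (p true z)) =ᵐ[Z.μ] fun z => c (p false z) :=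
    fun c hc => F.a.keq_fun C Z.μ X.μ _ _ c (mp true) (mp false) (hp.com true) hc.1
  refine G.dense ν ν' X _ {k | BM X.μ X.ms k ∧ (BM X.μ C k ∨ ∃ H g, BM Z.μ (T3x.Inv Z) H ∧
    BM X.μ X.ms g ∧ Star p H g k ∧ X.μ[g | C] =ᵐ[X.μ] 0)} (F.kb.fac X C hX hC).le
    (fun _ h => h.1) (fun k hk ε hε => ?_) fun f hf => ?_
  · obtain ⟨n, H, g, k', h1, h2⟩ := F.kb.span X C Z p hX hC hp k hk ε hε
    have key : ∀ i, ∃ k1 k2 : X.X → ℂ, BM X.μ C k1 ∧ (BM X.μ X.ms k2 ∧ ∃ g', BM X.μ X.ms g' ∧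
        Star p (H i) g' k2 ∧ X.μ[g' | C] =ᵐ[X.μ] 0) ∧ k' i =ᵐ[X.μ] fun x => k1 x + k2 x := by
      intro i
      obtain ⟨a1, a2, a3, a4⟩ := h1 i
      have aH := a1.mono (F.t.finv Z).le
      have hc := a2.ce C
      have hc' := hc.mono hC.le
      obtain ⟨k0, c1, c2⟩ := F.ka.star X C Z p hC hp _ _ aH (BM.const 1)
      obtain ⟨k2, d1, d2⟩ := F.ka.star X C Z p hC hp _ _ aH (a2.sub hc')
      simp only [T3x.Star, mul_one] at c2
      have hk0 : BM X.μ C k0 := by
        refine (c1.of_aesm ((F.t.inv_iff X k0 c1.1).2 (desc (mp false) (bm_comp X.mp c1) c1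
          ?_))).mono hI
        have e1 := F.a.keq_fun X.ms Z.μ X.μ _ _ k0 (mpc (mp false) Z.mp) (mpc X.mp (mp false))
          (hp.emb false).eqv c1.1
        have e2 := F.t.ce Z _ 1 (H i) hP aH.integrable
        simp only [F.t.one] at e2
        filter_upwards [e1, Z.mp.quasiMeasurePreserving.ae c2, e2, c2, condExp_congr_ae
          (m := pull Z.μ (p false) X.ms) ((F.t.inv_iff Z _ aH.1).1 a1.1)] with z z1 z2 z3 z4 z5
        exact z1.symm.trans (z2.trans (z3.symm.trans (z5.trans z4.symm)))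
      refine ⟨fun x => (X.μ[g i | C]) x * k0 x, k2, hc.mul hk0, ⟨d1, _, a2.sub hc', d2, ?_⟩,
        desc (mp false) a3 ((hc'.mul c1).add d1) ?_⟩
      · filter_upwards [condExp_sub a2.integrable hc'.integrable C, BM.ce_self hC.le hc]
          with x x1 x2
        exact x1.trans (by rw [Pi.sub_apply, x2, sub_self]; rfl)
      · have e1 : (fun z => H i z * g i (p true z)) =ᵐ[Z.μ]
            (fun z => (X.μ[g i | C]) (p false z) * H i z) +
              fun z => H i z * (g i (p true z) - (X.μ[g i | C]) (p true z)) := by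
          filter_upwards [sw _ hc] with z hz
          rw [Pi.add_apply, hz]
          ring
        filter_upwards [a4, condExp_congr_ae (m := pull Z.μ (p false) X.ms) e1, condExp_add
          ((bm_comp (mp false) hc').mul aH).integrable
          (aH.mul (bm_comp (mp true) (a2.sub hc'))).integrable (pull Z.μ (p false) X.ms),
          Fib27.ce_mul hP.le (b0 _ hc') aH, c2, d2] with z z1 z2 z3 z4 z5 z6
        rw [z1, z2, z3, Pi.add_apply, z4, z5, z6]
    choose k1 k2 a1 a2 a3 using key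
    refine ⟨n + n, Fin.append k1 k2, fun i => ?_, le_trans (le_of_eq (integral_congr_ae ?_)) h2⟩
    · refine Fin.addCases (fun j => ?_) (fun j => ?_) i
      · rw [Fin.append_left]; exact ⟨(a1 j).mono hC.le, Or.inl (a1 j)⟩
      · rw [Fin.append_right]; exact ⟨(a2 j).1, Or.inr ⟨H j, (a2 j).2.imp fun _ h =>
          ⟨(h1 j).1, h⟩⟩⟩
    · filter_upwards [ae_all_iff.2 a3] with x hx
      simp only [Fin.sum_univ_add, Fin.append_left, Fin.append_right, hx, sum_add_distrib]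
  · rcases hf.2 with h | ⟨H, g, a1, a2, a3, a4⟩
    · exact hg f h
    · exact G.zero ν ν' X f hf.1 (hA ν' ν X B0 C Z p hX hB hC hBC hp hg h0 H g f a1 a2 hf.1 a3 a4)
        (hA ν' ν' X B0 C Z p hX hB hC hBC hp (fun _ _ _ _ => by simp) h0 H g f a1 a2 hf.1 a3 a4)

end T5u

end

end PkUCpt

section PkUDet

/-! Row UDet: from the core theorem to all systems. -/

set_option autoImplicit false
set_option linter.unusedVariables false

open MeasureTheory ProbabilityTheory Filter Topology Function Finset ComplexConjugate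
open scoped BigOperators
open Fib27 (BM)
open Pool.Agent.MP_154433_an

noncomputable section

namespace T5u

open T3x T5x

theorem coreX (ν : Wt) (h : T5x.CoreF ν) : CoreX ν := by
  intro X B f hX hB hf h0 b hb
  have := h X B f (fun _ _ _ => 1) b hX hB hf h0 (fun _ _ => measurable_const)
    (fun _ _ _ => by simp) hb
  simpa only [one_mul, tav] using this

theorem udet : UDetR := by
  intro F G hC ν ν' c1 c2 hB X
  obtain ⟨X', e, hX, he, hf⟩ := F.nice0 X
  refine G.down ν ν' X X' e he hf fun g hg => ?_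
  obtain ⟨B0, b1, b2, b3, b4⟩ := hB X'
  have hK := F.h.kc X' B0 hX b1
  have hU : UG ν ν' X' (hull X' B0) := F.h.ind X' B0 _ hX b1 b3
    (fun C k1 k2 k3 => hC ν ν' X' B0 C hX b1 k1 k2 (b2.trans k2) k3 b4)
    fun 𝒞 k1 k2 k3 => G.chain ν ν' X' 𝒞 k1 k2 fun C h => ⟨(k3 C h).1, (k3 C h).2.2⟩
  have hle : hull X' B0 ≤ X'.ms := hK.1.le
  have hc := hg.ce (hull X' B0)
  have hc' := hc.mono hle
  have h0 : X'.μ[fun x => g x - (X'.μ[g | hull X' B0]) x | hull X' B0] =ᵐ[X'.μ] 0 := by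
    filter_upwards [condExp_sub hg.integrable hc'.integrable (hull X' B0), BM.ce_self hle hc]
      with x x1 x2
    exact x1.trans (by rw [Pi.sub_apply, x2, sub_self]; rfl)
  exact G.add ν ν' X' g _ _ hc' (hg.sub hc') (Eventually.of_forall fun x => by ring) (hU _ hc)
    (G.zero ν ν' X' _ (hg.sub hc') (c1 X' _ _ hX hK (hg.sub hc') h0)
      (c2 X' _ _ hX hK (hg.sub hc') h0))

end T5u

end

end PkUDet
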