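import Pool.Agent.MP_154433_an.p5.U0
import Pool.Agent.MP_154433_an.t3s.Basic
import Pool.Agent.MP_154433_an.t3.Met
import Pool.Agent.MP_154433_an.t3s.Good
import Pool.Agent.MP_154433_an.t3s.Prod
import Pool.Agent.MP_154433_an.t3s.Unif

/-! Uniform twisted averages, part 2 (packed). -/

section PkUConv

/-! Row UConv: signed sums along a flat sequence against differences of twisted averages. -/

set_option autoImplicit false
set_option linter.unusedVariables false
set_option warn.classDefReducibility false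

open MeasureTheory ProbabilityTheory Filter Topology Function Finset ComplexConjugate
open scoped BigOperators
open Fib27 (BM)
open Pool.Agent.MP_154433_an

noncomputable section

namespace T5u

open T3x T5x

namespace UConv

theorem norm_ee (t : ℝ) : ‖ee t‖ = 1 := Complex.norm_exp_ofReal_mul_I _

theorem cont_ee : Continuous ee := by
  unfold ee
  fun_prop

theorem av_le (ν : Wt) (M : ℕ) {φ : ℤ → ℂ} {K : ℝ} (h : ∀ d, ‖φ d‖ ≤ K) : ‖ν.av M φ‖ ≤ K := by
  refine (norm_sum_le _ _).trans ((sum_le_sum fun d _ => ?_).trans_eq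
    (show ∑ d ∈ ν.sp M, ν.w M d * K = K by rw [← sum_mul, ν.one, one_mul]))
  rw [norm_smul, Real.norm_of_nonneg (ν.nn M d)]
  exact mul_le_mul_of_nonneg_left (h d) (ν.nn M d)

theorem av_wt {a : ℕ → ℝ} (ha : ∀ n, 0 ≤ a n) {M : ℕ} (h : ∑ n ∈ range M, a n ≠ 0) (φ : ℤ → ℂ) :
    (wtOf a ha).av M φ = ∑ d ∈ range M, ((a d / ∑ n ∈ range M, a n : ℝ) : ℂ) * φ d := by
  simp only [Wt.av, wtOf, if_neg h]
  rw [sum_image fun x _ y _ e => Nat.cast_injective e]
  simp only [Int.toNat_natCast, Complex.real_smul]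

theorem est {a : ℕ → ℝ} (ha : ∀ n, 0 ≤ a n) {M : ℕ} (hM : 1 ≤ M) {ε K : ℝ} (e2 : ε ≤ 1 / 2)
    (hA : |∑ n ∈ range M, a n - M| ≤ ε * M) {φ : ℤ → ℂ} (h : ∀ d, ‖φ d‖ ≤ K) :
    ‖(wtOf a ha).av M φ - un.av M φ - (M : ℂ)⁻¹ * ∑ d ∈ range M, ((a d - 1 : ℝ) : ℂ) * φ d‖ ≤
      ε * K := by
  have m0 : (0 : ℝ) < M := by exact_mod_cast hM
  have A0 : 0 < ∑ n ∈ range M, a n := by
    have := (abs_le.1 hA).1
    nlinarith
  have K0 : 0 ≤ K := (norm_nonneg _).trans (h 0)
  have s1 : ∑ n ∈ range M, (1 : ℝ) = M := by simp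
  rw [un, av_wt ha A0.ne', av_wt _ (by rw [s1]; exact m0.ne'), s1, mul_sum, ← sum_sub_distrib,
    ← sum_sub_distrib]
  generalize hS : ∑ n ∈ range M, a n = A at *
  refine (norm_sum_le _ _).trans ((sum_le_sum (g := fun d => a d * (|A⁻¹ - (M : ℝ)⁻¹| * K))
    fun d _ => ?_).trans ?_)
  · rw [show ((a d / A : ℝ) : ℂ) * φ d - ((1 / M : ℝ) : ℂ) * φ d -
        (M : ℂ)⁻¹ * (((a d - 1 : ℝ) : ℂ) * φ d) = ((a d * (A⁻¹ - (M : ℝ)⁻¹) : ℝ) : ℂ) * φ d by
      push_cast; ring, norm_mul, Complex.norm_real, Real.norm_eq_abs, abs_mul, abs_of_nonneg (ha d),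
      mul_assoc]
    exact mul_le_mul_of_nonneg_left (mul_le_mul_of_nonneg_left (h d) (abs_nonneg _)) (ha d)
  · rw [← sum_mul, hS, ← mul_assoc]
    refine mul_le_mul_of_nonneg_right ?_ K0
    rw [← abs_of_pos A0, ← abs_mul, abs_of_pos A0,
      show A * (A⁻¹ - (M : ℝ)⁻¹) = -(A - M) / M by field_simp; ring, abs_div, abs_neg, abs_of_pos m0,
      div_le_iff₀ m0]
    exact hA

variable {X : Type} [MeasurableSpace X] {μ : Measure X} [IsProbabilityMeasure μ]

theorem near {u v : ℕ → X → ℂ} {K : ℝ} (hu : ∀ M, AEStronglyMeasurable (u M) μ)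
    (hv : ∀ M, AEStronglyMeasurable (v M) μ) (hK : ∀ M, ∀ᵐ x ∂μ, ‖u M x‖ ≤ K)
    (h : ∀ ε : ℝ, 0 < ε → ∀ᶠ M in atTop, ∀ᵐ x ∂μ, ‖u M x - v M x‖ ≤ ε) :
    Tendsto (fun M => ∫ x, ‖u M x‖ ∂μ - ∫ x, ‖v M x‖ ∂μ) atTop (𝓝 0) := by
  refine NormedAddGroup.tendsto_nhds_zero.2 fun ε hε => (h (ε / 2) (half_pos hε)).mono fun M e => ?_
  have i1 : Integrable (u M) μ := Integrable.of_bound (hu M) K (hK M)
  have i2 : Integrable (fun x => u M x - v M x) μ := Integrable.of_bound ((hu M).sub (hv M)) _ e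
  have i3 : Integrable (v M) μ := by simpa using i1.sub' i2
  rw [← integral_sub i1.norm i3.norm]
  refine lt_of_le_of_lt ((norm_integral_le_of_norm_le_const (C := ε / 2)
    (e.mono fun x hx => ?_)).trans_eq (by simp)) (half_lt_self hε)
  exact (abs_norm_sub_norm_le _ _).trans hx

theorem l12 {u : ℕ → X → ℂ} {K : ℝ} (hu : ∀ M, AEStronglyMeasurable (u M) μ)
    (hK : ∀ M, ∀ᵐ x ∂μ, ‖u M x‖ ≤ K) :
    Tendsto (fun M => ∫ x, ‖u M x‖ ∂μ) atTop (𝓝 0) ↔
      Tendsto (fun M => ∫ x, ‖u M x‖ ^ 2 ∂μ) atTop (𝓝 0) := by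
  have i1 : ∀ M, Integrable (fun x => ‖u M x‖) μ := fun M =>
    (Integrable.of_bound (hu M) K (hK M)).norm
  have i2 : ∀ M, Integrable (fun x => ‖u M x‖ ^ 2) μ := fun M =>
    Integrable.of_bound ((hu M).norm.pow 2) (K ^ 2) ((hK M).mono fun x hx => by
      rw [norm_pow, norm_norm]; exact pow_le_pow_left₀ (norm_nonneg _) hx 2)
  refine ⟨fun h => squeeze_zero (fun M => integral_nonneg fun x => sq_nonneg _) (fun M => ?_)
    (by simpa using h.const_mul K), fun h => ?_⟩
  · rw [← integral_const_mul]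
    exact integral_mono_ae (i2 M) ((i1 M).const_mul K) ((hK M).mono fun x hx => by
      beta_reduce; rw [sq]; exact mul_le_mul_of_nonneg_right hx (norm_nonneg _))
  · refine NormedAddGroup.tendsto_nhds_zero.2 fun ε hε =>
      (h.eventually (gt_mem_nhds (show 0 < ε / 2 * (ε / 2) by positivity))).mono fun M e => ?_
    have s0 := half_pos hε
    rw [Real.norm_of_nonneg (integral_nonneg fun x => norm_nonneg _)]
    have a : ∫ x, ‖u M x‖ ∂μ ≤ ∫ x, (ε / 2 + ‖u M x‖ ^ 2 / (ε / 2)) ∂μ :=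
      integral_mono (i1 M) ((integrable_const _).add ((i2 M).div_const _)) fun x => by
        beta_reduce
        rw [← sub_le_iff_le_add', le_div_iff₀ s0]
        nlinarith [sq_nonneg (‖u M x‖ - ε / 2), norm_nonneg (u M x)]
    rw [integral_add (integrable_const _) ((i2 M).div_const _)] at a
    simp only [integral_const, probReal_univ, one_smul, integral_div] at a
    have := (div_lt_iff₀ s0).2 e
    linarith

end UConv

open UConv in
theorem conv : ConvT := by
  intro a ha hF Y g ⟨hg, C, hC⟩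
  refine forall_congr' fun b => forall_congr' fun hb => ?_
  have mp : ∀ d : ℤ, MeasurePreserving (Y.Tz d) Y.μ Y.μ := fun d => T3S.Tz_mp Y.mp d
  have bd : ∀ᵐ y ∂Y.μ, ∀ (d : ℤ) (t : ℝ), ‖g (Y.Tz d y) * ee t‖ ≤ C :=
    (ae_all_iff.2 fun d : ℤ => (mp d).quasiMeasurePreserving.ae hC).mono fun y hy d t => by
      rw [norm_mul, norm_ee, mul_one]; exact hy d
  have ms : ∀ (M : ℕ) (d : ℤ) (c : ℝ),
      AEStronglyMeasurable (fun y => g (Y.Tz d y) * ee (c * b M y)) Y.μ := fun M d c =>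
    (hg.comp_measurePreserving (mp d)).mul
      (cont_ee.measurable.comp ((hb M).const_mul c)).aestronglyMeasurable
  have mt : ∀ (ν : Wt) (M : ℕ), AEStronglyMeasurable (fun y => tav ν Y g M (b M y) y) Y.μ :=
    fun ν M => Finset.aestronglyMeasurable_fun_sum _ fun d _ => (ms M d d).const_smul (ν.w M d)
  have hu := fun M => (mt (wtOf a ha) M).sub (mt un M)
  have hK : ∀ M, ∀ᵐ y ∂Y.μ, ‖tav (wtOf a ha) Y g M (b M y) y - tav un Y g M (b M y) y‖ ≤ C + C :=
    fun M => bd.mono fun y hy => (norm_sub_le _ _).trans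
      (add_le_add (av_le _ M fun d => hy d _) (av_le _ M fun d => hy d _))
  have key := near (μ := Y.μ) (v := fun M y => (M : ℂ)⁻¹ * sav a Y g M (b M y) y)
    (u := fun M y => tav (wtOf a ha) Y g M (b M y) y - tav un Y g M (b M y) y) hu
    (fun M => (Finset.aestronglyMeasurable_fun_sum (range M) fun d _ =>
      (ms M (d : ℤ) (d : ℝ)).const_mul ((a d - 1 : ℝ) : ℂ)).const_mul _) hK
    fun ε hε => by
      have c0 : 0 < |C| + 1 := by positivity
      filter_upwards [hF (min (1 / 2) (ε / (|C| + 1))) (by positivity), eventually_ge_atTop 1] with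
        M h1 h2
      have h3 := h1 0
      simp only [mul_zero, show ee 0 = 1 by simp [ee], mul_one] at h3
      rw [← Complex.ofReal_sum, Complex.norm_real, Real.norm_eq_abs, sum_sub_distrib] at h3
      simp only [sum_const, card_range, nsmul_eq_mul, mul_one] at h3
      refine bd.mono fun y hy => ?_
      have h4 := est ha h2 (min_le_left _ _) h3 (K := |C| + 1)
        (φ := fun d => g (Y.Tz d y) * ee ((d : ℝ) * b M y))
        fun d => (hy d _).trans (by linarith [le_abs_self C])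
      simp only [Int.cast_natCast] at h4
      exact h4.trans ((le_div_iff₀ c0).1 (min_le_right _ _))
  rw [← l12 (u := fun M y => tav (wtOf a ha) Y g M (b M y) y - tav un Y g M (b M y) y) hu hK]
  simp only [norm_mul, norm_inv, Complex.norm_natCast, integral_const_mul] at key
  exact ⟨fun h => by simpa using key.add h, fun h => by simpa using h.sub key⟩

end T5u

end

end PkUConv

section PkUErg

/-! Flat sequences give ergodic weights. -/

set_option autoImplicit false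
set_option linter.unusedVariables false
set_option warn.classDefReducibility false

open MeasureTheory ProbabilityTheory Filter Topology Function Finset ComplexConjugate
open scoped BigOperators
open Fib27 (BM)
open Pool.Agent.MP_154433_an

noncomputable section

namespace T5u

open T3x T5x

namespace UErg

theorem chi_eq {n : ℕ} (hn : n ≠ 0) (χ : AddChar (ZMod n) ℂ) :
    ∃ t : ℝ, ∀ d : ℕ, χ (d : ZMod n) = ee ((d : ℝ) * t) := by
  have : NeZero n := ⟨hn⟩
  refine ⟨Complex.arg (χ 1) / (2 * Real.pi), fun d => ?_⟩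
  have h1 : χ 1 = Complex.exp ((Complex.arg (χ 1) : ℂ) * Complex.I) := by
    have h := Complex.norm_mul_exp_arg_mul_I (χ 1)
    rw [χ.norm_apply] at h
    simpa using h.symm
  have h2 : χ (d : ZMod n) = χ 1 ^ d := by
    rw [← AddChar.map_nsmul_eq_pow, nsmul_one]
  have h3 : 2 * Real.pi * ((d : ℝ) * (Complex.arg (χ 1) / (2 * Real.pi))) =
      d * Complex.arg (χ 1) := by
    have := Real.pi_pos
    field_simp
  rw [h2, ee, h3, h1, ← Complex.exp_nat_mul, ← h1]
  congr 1
  push_cast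
  ring

theorem wt_one (M : ℕ) : T3S.Wt (fun _ => (1 : ℝ)) M = M := by simp [T3S.Wt]

theorem erg_one (h1 : T3S.ErgS) (h2 : T3S.NormS) : T3S.Erg (T3S.nb fun _ => 1) := by
  refine h1.1 _ ⟨fun M d => ?_, ?_⟩ (h2.2.2.2 _ (fun _ => zero_le_one) antitone_const ?_)
  · rw [T3S.nb, wt_one]
    positivity
  · filter_upwards [eventually_gt_atTop 0] with M hM
    have : (M : ℝ) ≠ 0 := by positivity
    simp [T3S.nb, wt_one, this]
  · exact tendsto_natCast_atTop_atTop.congr fun M => (wt_one M).symm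

theorem mix {a : ℕ → ℝ} (h : Fl a) :
    T3S.Mix fun M d => a d / M - T3S.nb (fun _ => 1) M d := by
  intro ε hε
  filter_upwards [h ε hε, eventually_gt_atTop 0] with M hM h0 χ
  obtain ⟨t, ht⟩ := chi_eq (show 2 * M ≠ 0 by omega) χ
  have hp : (0 : ℝ) < M := by positivity
  have e : ∑ d ∈ range M, ((a d / M - T3S.nb (fun _ => 1) M d : ℝ) : ℂ) * χ (d : ZMod (2 * M)) =
      (((M : ℝ)⁻¹ : ℝ) : ℂ) * ∑ d ∈ range M, ((a d - 1 : ℝ) : ℂ) * ee ((d : ℝ) * t) := by
    rw [mul_sum]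
    refine sum_congr rfl fun d _ => ?_
    rw [ht, T3S.nb, wt_one]
    push_cast
    ring
  rw [e, norm_mul, Complex.norm_real, Real.norm_of_nonneg (inv_nonneg.2 hp.le),
    inv_mul_le_iff₀ hp, mul_comm]
  exact hM t

theorem mass {a : ℕ → ℝ} (h : Fl a) :
    Tendsto (fun M : ℕ => (∑ d ∈ range M, a d) / M) atTop (𝓝 1) := by
  rw [Metric.tendsto_nhds]
  intro ε hε
  filter_upwards [h (ε / 2) (half_pos hε), eventually_gt_atTop 0] with M hM h0
  have hp : (0 : ℝ) < M := by positivity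
  have h1 := hM 0
  have e : ∑ d ∈ range M, ((a d - 1 : ℝ) : ℂ) * ee ((d : ℝ) * 0) =
      ((∑ d ∈ range M, a d - M : ℝ) : ℂ) := by
    simp [ee, sum_sub_distrib]
  rw [e, Complex.norm_real, Real.norm_eq_abs] at h1
  rw [Real.dist_eq, div_sub_one hp.ne', abs_div, abs_of_pos hp, div_lt_iff₀ hp]
  nlinarith

end UErg

theorem ergT : ErgTR := by
  intro h1 h2 a ha hf E _ _ _ V v hv
  have he : T3S.Erg fun M d => a d / M := h1.2 _ _ (UErg.erg_one h1 h2) (UErg.mix hf)
  have hm := UErg.mass hf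
  have h3 := (hm.inv₀ one_ne_zero).smul (he E V v hv)
  rw [smul_zero] at h3
  refine h3.congr' ?_
  filter_upwards [hm.eventually (lt_mem_nhds zero_lt_one), eventually_gt_atTop 0] with M hM h0
  have hp : (M : ℝ) ≠ 0 := by positivity
  have hA : ∑ d ∈ range M, a d ≠ 0 := fun e => by simp [e] at hM
  simp only [Wt.av, wtOf, if_neg hA]
  rw [sum_image fun x _ y _ e => Nat.cast_injective e, smul_sum]
  refine sum_congr rfl fun d _ => ?_
  rw [T3S.Bridge.pow_app, Complex.coe_smul, smul_smul, Int.toNat_natCast]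
  congr 1
  field_simp

end T5u

end

end PkUErg

section PkUErgL

/-! Ergodic weights on functions. -/

set_option autoImplicit false

open MeasureTheory ProbabilityTheory Filter Topology Function Finset ComplexConjugate
open scoped BigOperators

noncomputable section

namespace T5u

open T3x T3x.MetL

namespace UErgL

lemma l1_le {Ω : Type} [MeasurableSpace Ω] {μ : Measure Ω} [IsProbabilityMeasure μ]
    (v : Lp ℂ 2 μ) : ∫ x, ‖v x‖ ∂μ ≤ ‖v‖ := by
  rw [integral_norm_eq_lintegral_enorm (Lp.aestronglyMeasurable v),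
    ← eLpNorm_one_eq_lintegral_enorm, Lp.norm_def]
  exact ENNReal.toReal_mono (Lp.eLpNorm_ne_top v)
    (eLpNorm_le_eLpNorm_of_exponent_le one_le_two (Lp.aestronglyMeasurable v))

end UErgL

theorem ergL : ErgLR := by
  intro b ν hν Z F hF h0
  obtain ⟨C, hC⟩ := hF.2
  have hf : MemLp F 2 Z.μ := MemLp.of_bound hF.1 C hC
  have h := erg0 b hν Z 1 (hf.toLp F) fun g g2 gi => by
    simp_rw [b.t.one] at gi
    rw [← orth b Z hf g2 gi]
    refine integral_congr_ae ?_
    filter_upwards [hf.coeFn_toLp, h0] with x h1 h2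
    rw [h1, h2, Pi.zero_apply, sub_zero]
  refine squeeze_zero (fun M => integral_nonneg fun _ => norm_nonneg _) (fun M => ?_)
    (tendsto_zero_iff_norm_tendsto_zero.1 h)
  refine le_of_eq_of_le (integral_congr_ae ?_) (UErgL.l1_le _)
  filter_upwards [sum_coe b Z (ν.sp M) (fun d => ((ν.w M d : ℝ) : ℂ)) (fun d => 1 * d) hf]
    with x hx
  rw [hx]
  simp only [Wt.av, Complex.real_smul, one_mul]

end T5u

end

end PkUErgL

section PkUProd

/-! Row UProd: twisted averages vanish on products of asymptotic dual functions. -/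

set_option autoImplicit false
set_option linter.unusedVariables false
set_option warn.classDefReducibility false

open MeasureTheory ProbabilityTheory Filter Topology Function Finset ComplexConjugate
open scoped BigOperators
open Fib27 (BM)
open Pool.Agent.MP_154433_an

noncomputable section

namespace T5u

open T3x T5x

namespace UProd

open T3S (MB1)

theorem norm_ee (t : ℝ) : ‖ee t‖ = 1 := Complex.norm_exp_ofReal_mul_I _

theorem cont_ee : Continuous ee := by
  unfold ee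
  fun_prop

variable {a : ℕ → ℝ} {Y : Sys} {g g' : Y.X → ℂ} {N : ℕ} {b : Y.X → ℝ}

theorem meas (hg : MB1 g) (hb : Measurable b) : Measurable fun y => ‖sav a Y g N (b y) y‖ := by
  refine Measurable.norm (Finset.measurable_sum (range N) (f := fun (d : ℕ) y =>
    ((a d - 1 : ℝ) : ℂ) * (g (Y.Tz d y) * ee ((d : ℝ) * b y))) fun d _ => ?_)
  exact ((hg.tz Y.T d).1.mul (cont_ee.measurable.comp (hb.const_mul (d : ℝ)))).const_mul _

theorem sub_le (t : ℝ) (y : Y.X) : ‖sav a Y g N t y‖ ≤ ‖sav a Y g' N t y‖ +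
    ∑ d ∈ range N, |a d - 1| * ‖g (Y.Tz d y) - g' (Y.Tz d y)‖ := by
  have e : sav a Y g N t y = sav a Y g' N t y + ∑ d ∈ range N, ((a d - 1 : ℝ) : ℂ) *
      ((g (Y.Tz d y) - g' (Y.Tz d y)) * ee ((d : ℝ) * t)) := by
    simp only [sav, ← sum_add_distrib]
    exact sum_congr rfl fun d _ => by ring
  rw [e]
  refine (norm_add_le _ _).trans (add_le_add le_rfl ((norm_sum_le _ _).trans
    (sum_le_sum fun d _ => ?_)))
  rw [norm_mul, norm_mul, norm_ee, mul_one, Complex.norm_real, Real.norm_eq_abs]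

theorem intg (hg : MB1 g) (hb : Measurable b) (v : ℤ) :
    Integrable (fun y => ‖sav a Y g N (b (T3S.Tz Y.T v y)) (T3S.Tz Y.T v y)‖) Y.μ := by
  refine Integrable.of_bound ((meas hg hb).comp (T3S.Tz_meas Y.T v)).aestronglyMeasurable
    (∑ d ∈ range N, |a d - 1|) (Eventually.of_forall fun y => ?_)
  rw [norm_norm]
  refine (norm_sum_le _ _).trans (sum_le_sum fun d _ => ?_)
  rw [norm_mul, norm_mul, norm_ee, mul_one, Complex.norm_real, Real.norm_eq_abs]
  exact mul_le_of_le_one_right (abs_nonneg _) (hg.2 _)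

theorem small (hg : MB1 g) (hb : Measurable b) (hN : 1 ≤ N) {c : ℝ}
    (h : ∀ y, ∑ n ∈ range N, ‖sav a Y g N (b (T3S.Tz Y.T n y)) (T3S.Tz Y.T n y)‖ ≤ c * N) :
    ∫ y, ‖sav a Y g N (b y) y‖ ∂Y.μ ≤ c := by
  have h1 := integral_mono (μ := Y.μ)
    (integrable_finsetSum (range N) fun (n : ℕ) _ => intg (a := a) (N := N) hg hb n)
    (integrable_const (c * N)) h
  rw [integral_finsetSum _ fun (n : ℕ) _ => intg (a := a) (N := N) hg hb n, integral_const,
    probReal_univ, one_smul, sum_congr rfl fun (n : ℕ) _ => T3S.integral_Tz Y.mp n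
      (f := fun y => ‖sav a Y g N (b y) y‖) (meas hg hb).aestronglyMeasurable,
    sum_const, card_range, nsmul_eq_mul, mul_comm] at h1
  exact le_of_mul_le_mul_right h1 (by exact_mod_cast hN)

theorem close (hg : MB1 g) (hg' : MB1 g') (hb : Measurable b) :
    ∫ y, ‖sav a Y g N (b y) y‖ ∂Y.μ ≤ ∫ y, ‖sav a Y g' N (b y) y‖ ∂Y.μ +
      (∑ d ∈ range N, |a d - 1|) * ∫ y, ‖g y - g' y‖ ∂Y.μ := by
  have i0 : ∀ f : Y.X → ℂ, MB1 f → Integrable (fun y => ‖sav a Y f N (b y) y‖) Y.μ :=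
    fun f hf => by simpa only [T3S.Tz_zero] using intg (a := a) (N := N) hf hb 0
  have i2 : ∀ d : ℕ, Integrable (fun y => |a d - 1| * ‖g (Y.Tz d y) - g' (Y.Tz d y)‖) Y.μ :=
    fun d => (((hg.tz Y.T d).integrable Y.μ).sub ((hg'.tz Y.T d).integrable Y.μ)).norm.const_mul _
  refine (integral_mono (i0 g hg) ((i0 g' hg').add (integrable_finsetSum (range N) fun d _ => i2 d))
    fun y => sub_le (b y) y).trans ?_
  rw [integral_add' (i0 g' hg') (integrable_finsetSum (range N) fun d _ => i2 d),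
    integral_finsetSum _ fun d _ => i2 d, sum_mul]
  refine add_le_add le_rfl (sum_le_sum fun d _ => ?_)
  rw [integral_const_mul]
  exact mul_le_mul_of_nonneg_left (T3S.integral_Tz Y.mp d (f := fun y => ‖g y - g' y‖)
    (hg.1.sub hg'.1).norm.aestronglyMeasurable).le (abs_nonneg _)

theorem mass (ha : ∀ n, 0 ≤ a n) (hF : Fl a) :
    ∀ᶠ N : ℕ in atTop, ∑ d ∈ range N, |a d - 1| ≤ 3 * N := by
  filter_upwards [hF 1 one_pos] with N h
  have h0 := h 0
  simp only [mul_zero, ee, Complex.ofReal_zero, zero_mul, Complex.exp_zero, mul_one, one_mul] at h0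
  rw [← Complex.ofReal_sum, Complex.norm_real, Real.norm_eq_abs] at h0
  have h1 : ∑ d ∈ range N, |a d - 1| ≤ ∑ d ∈ range N, ((a d - 1) + 2) :=
    sum_le_sum fun d _ => abs_le.2 ⟨by linarith [ha d], by linarith⟩
  rw [sum_add_distrib, sum_const, card_range, nsmul_eq_mul] at h1
  linarith [le_abs_self (∑ d ∈ range N, (a d - 1))]

end UProd

theorem prodT : ProdT := by
  intro a ha hF hS Y ι _ D hD β hβ
  choose b hb hD using hD
  let e := Fintype.equivFin ι
  refine tendsto_order.2 ⟨fun c hc => Eventually.of_forall fun M =>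
    hc.trans_le (mul_nonneg (by positivity) (integral_nonneg fun x => norm_nonneg _)),
    fun c hc => ?_⟩
  have hε : 0 < c / 5 := by positivity
  filter_upwards [hS _ (b ∘ e.symm) (fun t => hb _) _ hε, UProd.mass ha hF, eventually_ge_atTop 1]
    with M h1 h2 h3
  have hJ : (0 : ℝ) < Fintype.card ι + 1 := by positivity
  have hM : (0 : ℝ) < M := by exact_mod_cast h3
  choose u hu1 hu2 using fun t => (hD t).2 (M ^ 2) (c / 5 / (Fintype.card ι + 1)) (div_pos hε hJ)
  have hu : ∀ i, T3S.MB1 (u i) := fun i => T3S.CX_MB1 (hu1 i)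
  have pu := T3S.MB1.prod univ fun i _ => hu i
  have pD := T3S.MB1.prod univ fun i _ => (hD i).1
  have h4 := UProd.small (a := a) pu (hβ M) h3 (c := c / 5 * M) fun x => by
    refine le_trans (le_of_eq (sum_congr rfl fun n _ => ?_))
      (h1 (fun t n => u (e.symm t) (T3S.Tz Y.T n x)) (fun n => β M (T3S.Tz Y.T n x))
        fun t => T3S.Prodr.orbit (hu1 _) x)
    refine congrArg _ (sum_congr rfl fun d _ => congrArg _ (congrArg (· * _) ?_))
    simp only [add_comm (n : ℤ), T3S.Tz_add]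
    exact (e.symm.prod_comp fun i => u i (T3S.Tz Y.T d (T3S.Tz Y.T n x))).symm
  have h5 := UProd.close (a := a) (N := M) pD pu (hβ M)
  have i1 : ∀ i, Integrable (fun x => ‖D i x - u i x‖) Y.μ :=
    fun i => (((hD i).1.integrable Y.μ).sub ((hu i).integrable Y.μ)).norm
  have h6 : ∫ y, ‖∏ i, D i y - ∏ i, u i y‖ ∂Y.μ ≤ c / 5 := by
    refine (integral_mono ((pD.integrable Y.μ).sub (pu.integrable Y.μ)).norm
      (integrable_finsetSum univ fun i _ => i1 i) fun y =>
        T3S.norm_prod_sub_le _ (fun i => (hD i).1.2 y) fun i => (hu i).2 y).trans ?_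
    rw [integral_finsetSum _ fun i _ => i1 i]
    refine (sum_le_sum fun i _ => hu2 i).trans ?_
    rw [sum_const, card_univ, nsmul_eq_mul, ← mul_div_assoc, div_le_iff₀ hJ]
    nlinarith
  have h7 := mul_le_mul h2 h6 (integral_nonneg fun y => norm_nonneg _) (by positivity)
  rw [inv_mul_lt_iff₀ hM]
  nlinarith [mul_pos hM hc]

end T5u

end

end PkUProd

section PkUGood

/-! Row UGood: twisted averages vanish on the structured factor. -/

set_option autoImplicit false
set_option linter.unusedVariables false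
set_option warn.classDefReducibility false

open MeasureTheory ProbabilityTheory Filter Topology Function Finset ComplexConjugate
open scoped BigOperators
open Fib27 (BM)
open Pool.Agent.MP_154433_an

noncomputable section

namespace T5u

open T3x T5x

namespace UGood

open T3S.GoodR

/-- a property that is linear and closed in the mean passes from an algebra to the generated
sigma-algebra -/
theorem slotA {X : Type} [m0 : MeasurableSpace X] {μ : Measure X} [IsProbabilityMeasure μ]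
    (P : (X → ℂ) → Prop)
    (hadd : ∀ g g', MB g → MB g' → P g → P g' → P fun x => g x + g' x)
    (hmul : ∀ (c : ℂ) g, P g → P fun x => c * g x)
    (hapx : ∀ g, MB g → (∀ ε : ℝ, 0 < ε → ∃ g', MB g' ∧ P g' ∧ ∫ x, ‖g x - g' x‖ ∂μ ≤ ε) → P g)
    (S : Set (X → ℝ)) (h1 : (1 : X → ℝ) ∈ S)
    (hm : ∀ φ ∈ S, ∀ φ' ∈ S, φ * φ' ∈ S) (hS : ∀ φ ∈ S, Measurable φ ∧ ∃ C : ℝ, ∀ x, |φ x| ≤ C)
    (hV : ∀ φ ∈ S, P fun x => (φ x : ℂ)) {g : X → ℂ} (hg : MB g)
    (hB : AEStronglyMeasurable[⨆ φ ∈ S, MeasurableSpace.comap φ inferInstance] g μ) : P g := by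
  have hsp : ∀ φ ∈ Submodule.span ℝ S, P fun x => (φ x : ℂ) := by
    intro φ hφ
    induction hφ using Submodule.span_induction with
    | mem x h => exact hV x h
    | zero =>
      have := hmul 0 _ (hV 1 h1)
      simpa using this
    | add f g hf hg ihf ihg =>
      have := hadd _ _ (MB.ofReal (SG.Dens.span_bdd hS hf))
        (MB.ofReal (SG.Dens.span_bdd hS hg)) ihf ihg
      simpa using this
    | smul c f hf ihf =>
      have := hmul (c : ℂ) _ ihf
      simpa using this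
  have hre : ∀ ψ : X → ℝ, (Measurable ψ ∧ ∃ C : ℝ, ∀ x, |ψ x| ≤ C) →
      AEStronglyMeasurable[⨆ φ ∈ S, MeasurableSpace.comap φ inferInstance] ψ μ →
      P fun x => (ψ x : ℂ) := by
    intro ψ hψ hψB
    refine hapx _ (MB.ofReal hψ) fun ε hε => ?_
    obtain ⟨C, hC⟩ := hψ.2
    obtain ⟨φ, hφ, hlt⟩ := SG.Dens.partB h1 hm hS μ ψ ⟨hψB, C, Eventually.of_forall hC⟩ ε hε
    refine ⟨fun x => (φ x : ℂ), MB.ofReal (SG.Dens.span_bdd hS hφ), hsp φ hφ, ?_⟩
    refine le_of_eq_of_le (integral_congr_ae (Eventually.of_forall fun x => ?_)) hlt.le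
    show ‖(ψ x : ℂ) - (φ x : ℂ)‖ = |ψ x - φ x|
    rw [← Complex.ofReal_sub, Complex.norm_real, Real.norm_eq_abs]
  obtain ⟨C, h0, hC⟩ := hg.2
  have b1 : Measurable (fun x => (g x).re) ∧ ∃ C : ℝ, ∀ x, |(g x).re| ≤ C :=
    ⟨Complex.measurable_re.comp hg.1, C, fun x => (Complex.abs_re_le_norm _).trans (hC x)⟩
  have b2 : Measurable (fun x => (g x).im) ∧ ∃ C : ℝ, ∀ x, |(g x).im| ≤ C :=
    ⟨Complex.measurable_im.comp hg.1, C, fun x => (Complex.abs_im_le_norm _).trans (hC x)⟩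
  have v1 := hre _ b1 (Complex.continuous_re.comp_aestronglyMeasurable hB)
  have v2 := hre _ b2 (Complex.continuous_im.comp_aestronglyMeasurable hB)
  have v3 := hadd _ _ (MB.ofReal b1) ((MB.const Complex.I).mul (MB.ofReal b2)) v1
    (hmul Complex.I _ v2)
  have e : g = fun x => ((g x).re : ℂ) + Complex.I * ((g x).im : ℂ) := funext fun x => by
    rw [mul_comm, Complex.re_add_im]
  rw [← e] at v3
  exact v3

theorem nee (t : ℝ) : ‖ee t‖ = 1 := Complex.norm_exp_ofReal_mul_I _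

theorem cee : Continuous ee := by
  unfold ee
  fun_prop

theorem mass {a : ℕ → ℝ} (ha : ∀ n, 0 ≤ a n) (h : Fl a) :
    ∀ᶠ N : ℕ in atTop, ∑ d ∈ range N, |a d - 1| ≤ 3 * N := by
  filter_upwards [h 1 one_pos] with N hN
  have h1 := hN 0
  have e0 : ee 0 = 1 := by simp [ee]
  simp only [mul_zero, e0, mul_one, one_mul] at h1
  rw [← Complex.ofReal_sum, Complex.norm_real, Real.norm_eq_abs] at h1
  have h2 : ∑ d ∈ range N, |a d - 1| ≤ ∑ d ∈ range N, ((a d - 1) + 2) :=
    sum_le_sum fun d _ => abs_le.2 ⟨by linarith [ha d], by linarith⟩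
  rw [sum_add_distrib, sum_const, card_range, nsmul_eq_mul] at h2
  linarith [(abs_le.1 h1).2]

/-- the twisted sum in the form of row Good -/
def O (a : ℕ → ℝ) (Y : Sys) (b : ℕ → Y.X → ℝ) (g : Y.X → ℂ) (N : ℕ) : Y.X → ℂ :=
  op Y.T (fun _ d => a d - 1) 1 (fun d x => ee ((d : ℝ) * b N x)) g N

theorem sav_eq (a : ℕ → ℝ) (Y : Sys) (b : ℕ → Y.X → ℝ) (g : Y.X → ℂ) (N : ℕ) (y : Y.X) :
    sav a Y g N (b N y) y = O a Y b g N y := by
  simp only [sav, O, op, one_mul]
  rfl

def PV (a : ℕ → ℝ) (Y : Sys) (b : ℕ → Y.X → ℝ) (g : Y.X → ℂ) : Prop :=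
  Tendsto (fun N : ℕ => (N : ℝ)⁻¹ * ∫ y, ‖O a Y b g N y‖ ∂Y.μ) atTop (𝓝 0)

variable {a : ℕ → ℝ} {Y : Sys} {b : ℕ → Y.X → ℝ}

theorem mR (hb : ∀ N, Measurable (b N)) (N d : ℕ) : Measurable fun x => ee ((d : ℝ) * b N x) :=
  cee.measurable.comp ((hb N).const_mul _)

theorem nn (g : Y.X → ℂ) (N : ℕ) : 0 ≤ (N : ℝ)⁻¹ * ∫ y, ‖O a Y b g N y‖ ∂Y.μ :=
  mul_nonneg (by positivity) (integral_nonneg fun _ => norm_nonneg _)

theorem iadd (hb : ∀ N, Measurable (b N)) {g g' : Y.X → ℂ} (hg : MB g) (hg' : MB g') (N : ℕ) :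
    (N : ℝ)⁻¹ * ∫ y, ‖O a Y b (fun x => g x + g' x) N y‖ ∂Y.μ ≤
      (N : ℝ)⁻¹ * ∫ y, ‖O a Y b g N y‖ ∂Y.μ + (N : ℝ)⁻¹ * ∫ y, ‖O a Y b g' N y‖ ∂Y.μ := by
  rw [← mul_add]
  exact mul_le_mul_of_nonneg_left
    (int_add zero_le_one (mR hb N) (fun d x => (nee _).le) hg hg' N) (by positivity)

theorem padd (hb : ∀ N, Measurable (b N)) (g g' : Y.X → ℂ) (hg : MB g) (hg' : MB g')
    (h : PV a Y b g) (h' : PV a Y b g') : PV a Y b fun x => g x + g' x := by
  have h3 := h.add h'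
  rw [add_zero] at h3
  exact squeeze_zero (nn _) (iadd hb hg hg') h3

theorem pmul (c : ℂ) (g : Y.X → ℂ) (h : PV a Y b g) : PV a Y b fun x => c * g x := by
  have h3 := h.const_mul ‖c‖
  rw [mul_zero] at h3
  refine h3.congr fun M => ?_
  simp only [O, op_mul, norm_mul, integral_const_mul]
  ring

theorem papx (ha : ∀ n, 0 ≤ a n) (hF : Fl a) (hb : ∀ N, Measurable (b N)) (g : Y.X → ℂ)
    (hg : MB g)
    (h : ∀ ε : ℝ, 0 < ε → ∃ g', MB g' ∧ PV a Y b g' ∧ ∫ x, ‖g x - g' x‖ ∂Y.μ ≤ ε) :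
    PV a Y b g := by
  refine tendsto_order.2 ⟨fun c hc => Eventually.of_forall fun M => hc.trans_le (nn _ _),
    fun c hc => ?_⟩
  obtain ⟨g', hg', hV, hε⟩ := h (c / 6) (by positivity)
  filter_upwards [mass ha hF, (tendsto_order.1 hV).2 (c / 2) (by positivity),
    eventually_ge_atTop 1] with M h1 h2 hM
  have e : g = fun x => g' x + (g x - g' x) := funext fun x => by ring
  have h3 := iadd (a := a) hb hg' (hg.sub hg') M
  rw [← e] at h3
  have h4 : ∫ y, ‖O a Y b (fun x => g x - g' x) M y‖ ∂Y.μ ≤ _ :=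
    op_int Y.mp zero_le_one (fun d x => (nee _).le) (hg.sub hg') M
  have m0 : (0 : ℝ) < M := by exact_mod_cast hM
  have h5 : (∑ d ∈ range M, |a d - 1|) * (1 * ∫ x, ‖g x - g' x‖ ∂Y.μ) ≤ 3 * M * (c / 6) := by
    rw [one_mul]
    exact mul_le_mul h1 hε (integral_nonneg fun x => norm_nonneg _) (by positivity)
  have h6 : (M : ℝ)⁻¹ * ∫ y, ‖O a Y b (fun x => g x - g' x) M y‖ ∂Y.μ ≤ c / 2 := by
    rw [inv_mul_le_iff₀ m0]
    linarith
  linarith

theorem pbase (h : ProdT) (ha : ∀ n, 0 ≤ a n) (hF : Fl a) (hs : TStr a)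
    (hb : ∀ N, Measurable (b N)) {φ : Y.X → ℝ} (hφ : Shape Y.μ Y.T 2 φ) :
    PV a Y b fun x => (φ x : ℂ) := by
  obtain ⟨a1, a2, ph, κ, _, D, a3, a4, a5, a6⟩ := hφ
  have h1 := h a ha hF hs Y κ D a5 b hb
  simp only [sav_eq] at h1
  have hD : MB fun y => ∏ t, D t y := by
    choose b' _ hb' using a5
    exact ⟨Finset.measurable_prod _ fun t _ => (hb' t).1.1, 1, zero_le_one,
      fun y => T3S.norm_prod_le_one _ fun t _ => (hb' t).1.2 y⟩
  refine squeeze_zero (nn _) (fun M => ?_) h1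
  refine mul_le_mul_of_nonneg_left ?_ (by positivity)
  refine integral_mono_of_nonneg (Eventually.of_forall fun x => norm_nonneg _)
    ((op_MB zero_le_one (mR hb M) (fun d x => (nee _).le) hD M).intn Y.μ) ?_
  filter_upwards [ae_all_iff.2 a4] with x hx
  have e : O a Y b (fun x => (φ x : ℂ)) M x = ph x * O a Y b (fun y => ∏ t, D t y) M x := by
    simp only [O, op, Finset.mul_sum, a6, hx]
    exact Finset.sum_congr rfl fun d _ => by ring
  rw [e, norm_mul]
  refine mul_le_of_le_one_left (norm_nonneg _) ?_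
  rw [Complex.norm_real, Real.norm_eq_abs]
  exact a3 x

end UGood

open UGood T3S.GoodR in
theorem goodT : GoodTR := by
  intro h a ha hF hs Y g hg b hb
  have hB : T3S.B0 Y.μ Y.T 2 ≤ Y.ms := iSup₂_le fun φ hφ =>
    (shape Y.mp 2 (Submonoid.subset_closure hφ)).1.comap_le
  obtain ⟨g', h1, h2, h3⟩ := rep _ hB (f := g) ⟨hg.1, hg.2⟩
  have hV : PV a Y b g' :=
    slotA (μ := Y.μ) (PV a Y b) (padd hb) pmul (papx ha hF hb)
      (Submonoid.closure (T3S.Gen Y.μ Y.T 2) : Set (Y.X → ℝ)) (one_mem _)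
      (fun φ hφ φ' hφ' => mul_mem hφ hφ')
      (fun φ hφ => ⟨(shape Y.mp 2 hφ).1, 1, (shape Y.mp 2 hφ).2.1⟩)
      (fun φ hφ => pbase h ha hF hs hb (shape Y.mp 2 hφ)) h1
      (h2.mono (iSup₂_le fun φ hφ => le_iSup₂_of_le φ (Submonoid.subset_closure hφ) le_rfl))
  have h4 : ∀ᵐ x ∂Y.μ, ∀ v : ℤ, g (T3S.Tz Y.T v x) = g' (T3S.Tz Y.T v x) :=
    ae_all_iff.2 fun v => (T3S.Tz_mp Y.mp v).quasiMeasurePreserving.ae h3
  refine hV.congr fun N => ?_
  congr 1
  refine integral_congr_ae ?_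
  filter_upwards [h4] with x hx
  rw [sav_eq]
  simp only [O, op, hx]

end T5u

end

end PkUGood

section PkUDw

/-! Row UDw: one van der Corput step removes the twist. -/

set_option autoImplicit false
set_option linter.unusedVariables false
set_option warn.classDefReducibility false

open MeasureTheory ProbabilityTheory Filter Topology Function Finset ComplexConjugate
open scoped BigOperators
open Pool.Agent.MP_154433_an

noncomputable section

namespace T5u

open T3x T5x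

namespace UDw

theorem norm_ee (t : ℝ) : ‖ee t‖ = 1 := Complex.norm_exp_ofReal_mul_I _

theorem wt_one (M : ℕ) : T3S.Wt (fun _ => 1) M = M := by simp [T3S.Wt]

theorem pw : T3S.PW (T3S.nb fun _ => 1) := by
  refine ⟨fun M d => ?_, ?_⟩
  · rw [T3S.nb, wt_one]
    positivity
  · filter_upwards [eventually_ge_atTop 1] with M hM
    have : (M : ℝ) ≠ 0 := by exact_mod_cast (by omega : M ≠ 0)
    simp only [T3S.nb, wt_one, sum_const, card_range, nsmul_eq_mul]
    field_simp

theorem tav_un (X : Sys) (G : X.X → ℂ) {M : ℕ} (hM : 1 ≤ M) (t : ℝ) (x : X.X) :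
    tav un X G M t x = ∑ d ∈ range M, ((T3S.nb (fun _ => 1) M d : ℝ) : ℂ) *
      (G (T3S.Tz X.T (d : ℤ) x) * ee ((d : ℝ) * t)) := by
  have h : ¬ (∑ n ∈ range M, (1 : ℝ)) = 0 := by
    simp only [sum_const, card_range, nsmul_eq_mul, mul_one, Nat.cast_eq_zero]
    omega
  simp only [tav, Wt.av, un, wtOf, if_neg h]
  rw [sum_image fun a _ b _ e => Nat.cast_injective e]
  refine sum_congr rfl fun d _ => ?_
  rw [Complex.real_smul, Int.cast_natCast]
  rfl

theorem ee_pair (a a' : ℝ) (d t : ℝ) :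
    ee ((d + a') * t) * conj (ee ((d + a) * t)) = ee ((a' - a) * t) := by
  rw [ee, ee, ee, ← Complex.exp_conj, ← Complex.exp_add, map_mul, Complex.conj_ofReal,
    Complex.conj_I]
  congr 1
  push_cast
  ring

theorem integral_expR {X : Type} [MeasurableSpace X] {μ : Measure X} {ι : Type} (s : Finset ι)
    {f : ι → X → ℝ} (h : ∀ i ∈ s, Integrable (f i) μ) :
    Integrable (fun x => 𝔼 i ∈ s, f i x) μ ∧
      ∫ x, 𝔼 i ∈ s, f i x ∂μ = 𝔼 i ∈ s, ∫ x, f i x ∂μ := by
  simp only [Finset.expect_eq_sum_div_card]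
  exact ⟨(integrable_finsetSum s h).div_const _, by rw [integral_div, integral_finsetSum s h]⟩

end UDw

open UDw in
theorem dw : DwR := by
  intro hN hV hG X G hG1 H hH s η hs hη
  have : Nonempty (Fin H) := ⟨⟨0, hH⟩⟩
  set w := T3S.nb fun _ => (1 : ℝ) with hw
  have hA : T3S.AsInv w := by
    refine hN.2.2.2 _ (fun _ => zero_le_one) antitone_const ?_
    rw [show T3S.Wt (fun _ => 1) = fun M : ℕ => (M : ℝ) from funext wt_one]
    exact tendsto_natCast_atTop_atTop
  let D : Fin H → Fin H → X.X → ℂ := fun h h' =>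
    T3S.ddX X.T (1 * (((h' : ℕ) : ℤ) - ((h : ℕ) : ℤ))) G
  let K : Fin H → Fin H → X.X → ℂ := fun h h' y => D h h' (T3S.Tz X.T ((h : ℕ) : ℤ) y)
  have hD : ∀ h h', T3S.MB1 (D h h') := fun h h' => hG1.ddX _ _
  have hK : ∀ h h', T3S.MB1 (K h h') := fun h h' => (hD h h').tz _ _
  let A : ℕ → Fin H → Fin H → X.X → ℂ := fun M h h' =>
    T3S.wavg X.T w (fun _ : Fin 1 => (1 : ℤ)) (fun _ => K h h') M
  have h2 : ∀ᶠ M in atTop, ∀ h h', ∫ x, ‖A M h h' x‖ ^ 2 ∂X.μ ≤
      T3S.QX X.μ X.T H 1 (Fin.tail fun _ : Fin 2 => (1 : ℤ)) (D h h') + s * η / 2 := by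
    refine eventually_all.2 fun h => eventually_all.2 fun h' => ?_
    filter_upwards [hG w pw hA X.X X.μ X.T X.mp H hH 0 (fun _ => 1) (fun _ => K h h')
      (fun _ => hK h h') (s * η / 2) (by positivity)] with M hM
    rw [pow_zero, pow_one, T3S.QX_tz X.mp H _ _ _ (hD h h')] at hM
    have e : (Fin.cons (1 : ℤ) (fun j : Fin 0 => (1 : ℤ) - 1) : Fin 1 → ℤ) =
        Fin.tail fun _ : Fin 2 => (1 : ℤ) := by
      funext i
      rw [Fin.eq_zero i]
      rfl
    exact hM.trans_eq (by rw [← e])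
  filter_upwards [h2, hV w pw hA H hH (η / 2) (by positivity), eventually_ge_atTop 1]
    with M h2 h1 hM b hb
  have hI : ∀ h h', Integrable (fun x => ‖A M h h' x‖ ^ 2) X.μ := fun h h' => by
    refine Integrable.of_bound ((T3S.wavg_meas X.T w _ (fun _ => (hK h h').1) M).norm.pow_const
      2).aestronglyMeasurable ((∑ d ∈ range M, |w M d|) ^ 2) (Eventually.of_forall fun x => ?_)
    rw [Real.norm_of_nonneg (sq_nonneg _)]
    exact pow_le_pow_left₀ (norm_nonneg _) (T3S.wavg_norm_le X.T w _ (fun _ => (hK h h').2) M x) 2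
  have hI1 := fun h => integral_expR (μ := X.μ) univ fun h' _ => hI h h'
  have hI2 := integral_expR (μ := X.μ) univ fun h _ => (hI1 h).1
  have hp : ∀ x, ‖tav un X G M (b x) x‖ ^ 2 ≤
      s + (𝔼 h : Fin H, 𝔼 h' : Fin H, ‖A M h h' x‖ ^ 2) / s + η / 2 := fun x => by
    rw [tav_un X G hM]
    refine (h1 (fun d => G (T3S.Tz X.T (d : ℤ) x) * ee ((d : ℝ) * b x)) fun d => ?_).trans ?_
    · rw [norm_mul, norm_ee, mul_one]
      exact hG1.2 _
    refine add_le_add_left ?_ _
    have e : s + (𝔼 h : Fin H, 𝔼 h' : Fin H, ‖A M h h' x‖ ^ 2) / s =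
        𝔼 h : Fin H, 𝔼 h' : Fin H, (s + ‖A M h h' x‖ ^ 2 / s) := by
      simp only [expect_add_distrib, expect_const univ_nonempty, expect_div]
    rw [e, T3S.re_exp]
    refine expect_le_expect fun h _ => ?_
    rw [T3S.re_exp]
    refine expect_le_expect fun h' _ => ?_
    have e2 : ∑ d ∈ range M, (w M d : ℂ) *
        (G (T3S.Tz X.T ((d + h' : ℕ) : ℤ) x) * ee (((d + h' : ℕ) : ℝ) * b x) *
          conj (G (T3S.Tz X.T ((d + h : ℕ) : ℤ) x) * ee (((d + h : ℕ) : ℝ) * b x))) =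
        A M h h' x * ee ((((h' : ℕ) : ℝ) - ((h : ℕ) : ℝ)) * b x) := by
      simp only [A, T3S.wavg, sum_mul]
      refine sum_congr rfl fun d _ => ?_
      rw [← ee_pair (h : ℕ) (h' : ℕ) d (b x)]
      simp only [Fin.prod_univ_one, K, D, T3S.ddX, ← T3S.Tz_add, map_mul]
      rw [show (1 : ℤ) * (((h' : ℕ) : ℤ) - ((h : ℕ) : ℤ)) + ((h : ℕ) : ℤ) + 1 * (d : ℤ) =
        ((d + h' : ℕ) : ℤ) by push_cast; ring,
        show ((h : ℕ) : ℤ) + 1 * (d : ℤ) = ((d + h : ℕ) : ℤ) by push_cast; ring]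
      rw [Nat.cast_add (R := ℝ), Nat.cast_add (R := ℝ)]
      ring
    rw [e2]
    refine (Complex.re_le_norm _).trans ?_
    rw [norm_mul, norm_ee, mul_one, ← sub_le_iff_le_add', le_div_iff₀ hs]
    nlinarith [sq_nonneg (‖A M h h' x‖ - s), norm_nonneg (A M h h' x)]
  have hc : Integrable (fun x => s + (𝔼 h : Fin H, 𝔼 h' : Fin H, ‖A M h h' x‖ ^ 2) / s) X.μ :=
    (integrable_const s).add (hI2.1.div_const s)
  refine (integral_mono_of_nonneg (Eventually.of_forall fun x => sq_nonneg _)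
    (hc.add (integrable_const (η / 2))) (Eventually.of_forall hp)).trans ?_
  have e3 : ∫ x, s + (𝔼 h : Fin H, 𝔼 h' : Fin H, ‖A M h h' x‖ ^ 2) / s + η / 2 ∂X.μ =
      s + (𝔼 h : Fin H, 𝔼 h' : Fin H, ∫ x, ‖A M h h' x‖ ^ 2 ∂X.μ) / s + η / 2 := by
    rw [integral_add hc (integrable_const _),
      integral_add (integrable_const s) (hI2.1.div_const s), integral_div, hI2.2]
    simp only [integral_const, probReal_univ, one_smul, fun h => (hI1 h).2]
  refine (le_of_eq e3).trans ?_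
  have h4 : (𝔼 h : Fin H, 𝔼 h' : Fin H, ∫ x, ‖A M h h' x‖ ^ 2 ∂X.μ) ≤
      T3S.QX X.μ X.T H 2 (fun _ => 1) G + s * η / 2 := by
    have e : T3S.QX X.μ X.T H 2 (fun _ => 1) G + s * η / 2 = 𝔼 h : Fin H, 𝔼 h' : Fin H,
        (T3S.QX X.μ X.T H 1 (Fin.tail fun _ : Fin 2 => (1 : ℤ)) (D h h') + s * η / 2) := by
      simp only [expect_add_distrib, expect_const univ_nonempty]
      rfl
    rw [e]
    exact expect_le_expect fun h _ => expect_le_expect fun h' _ => h2 h h'
  have h5 := div_le_div_of_nonneg_right h4 hs.le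
  rw [add_div, show s * η / 2 / s = η / 2 by field_simp] at h5
  linarith

end T5u

end

end PkUDw

section PkUUnif

/-! Row UUnif: the factor generated by dual functions controls the twisted averages. -/

set_option autoImplicit false
set_option linter.unusedVariables false
set_option warn.classDefReducibility false

open MeasureTheory ProbabilityTheory Filter Topology Function Finset ComplexConjugate
open scoped BigOperators
open Fib27 (BM)
open Pool.Agent.MP_154433_an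

noncomputable section

namespace T5u

open T3x T5x
open T3S (MB1 QX ddX)
open T3S.UnifAux (int_zero sum_eq)
open T3S.Bridge (exists_MB1 tz_congr)

theorem unifT : UnifTR := by
  intro h1 h2 h3 X g0 hg0 hb0 h00 ε hε
  obtain ⟨g, hg, e⟩ := exists_MB1 hg0.1 hb0
  have h0 := (condExp_congr_ae e).symm.trans h00
  obtain ⟨hF, hD⟩ := h1 2 X.X X.μ X.T X.mp
  have hs : 0 < ε / 2 := by positivity
  obtain ⟨H, hH, hQ⟩ := h2 X.X X.μ X.T X.mp 3 (fun _ => 1) g hg
    (fun D hD' => int_zero hF.1 hg hD'.1 (hD _ (fun _ => one_ne_zero) D hD') h0)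
    (ε / 2 * (ε / 2)) (by positivity)
  let q : ℕ → ℕ → ℝ := fun n n' => QX X.μ X.T H 2 (fun _ => 1) (ddX X.T ((n : ℤ) - (n' : ℤ)) g)
  have hq : QX X.μ X.T H 3 (fun _ => 1) g = 𝔼 h : Fin H, 𝔼 h' : Fin H, q h' h := by
    rw [QX]
    simp only [q, one_mul]
    rfl
  refine ⟨H, fun n n' => ε / 2 + q n n' / (ε / 2), hH, ?_, fun n n' η hη => ?_⟩
  · simp only [sum_add_distrib, sum_const, card_range, nsmul_eq_mul, ← sum_div]
    rw [sum_eq H hH q, ← hq]
    have h4 : QX X.μ X.T H 3 (fun _ => 1) g * H ^ 2 / (ε / 2) ≤ ε / 2 * H ^ 2 := by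
      rw [div_le_iff₀ hs]
      have := mul_le_mul_of_nonneg_right hQ (sq_nonneg (H : ℝ))
      linarith
    linarith
  · let F : X.X → ℂ := fun y => g (T3S.Tz X.T n y) * conj (g (T3S.Tz X.T n' y))
    have hFm : MB1 F := (hg.tz X.T n).mul (hg.tz X.T n').cj
    have hFe : F = fun y => ddX X.T ((n : ℤ) - (n' : ℤ)) g (T3S.Tz X.T n' y) := by
      funext y
      simp only [F, ddX, ← T3S.Tz_add, sub_add_cancel]
    have h5 : QX X.μ X.T H 2 (fun _ => 1) F = q n n' := by
      rw [hFe]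
      exact T3S.QX_tz X.mp H 2 _ n' (hg.ddX X.T _)
    have h6 : (fun y => g0 (X.Tz n y) * conj (g0 (X.Tz n' y))) =ᵐ[X.μ] F := by
      filter_upwards [tz_congr X e n, tz_congr X e n'] with y a b
      exact congrArg₂ (fun a b => a * conj b) a b
    filter_upwards [h3 X F hFm H hH (ε / 2) η hs hη] with M hM b hb
    refine le_of_eq_of_le (integral_congr_ae ?_) (h5 ▸ hM b hb)
    filter_upwards [ae_all_iff.2 fun d => tz_congr X h6 d] with x hx
    simp only [tav, hx]

end T5u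

end

end PkUUnif
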