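import Pool.Agent.MP_154433_an.p5.P3
import Pool.Agent.MP_154433_an.p5.T3
import Pool.Agent.MP_154433_an.p5.T4
import Pool.Agent.MP_154433_an.t3.HGX

/-! Twisted line, part 8 (packed). -/

section PkXLI

/-! Independence on one line with a twist slot. -/

set_option autoImplicit false
set_option linter.unusedVariables false
set_option warn.classDefReducibility false

open MeasureTheory ProbabilityTheory Filter Topology Function Finset ComplexConjugate
open scoped BigOperators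
open Fib27 (BM sup pr Oc Orow F23 LInd Mem)
open Pool.Agent.MP_154433_an.SG (Uni ufn)

noncomputable section

namespace T5x

open T3x

namespace XLIL

theorem zs_inj : Injective zs := fun a b h => (Prod.ext_iff.1 h).2

theorem swap {Ω : Type} (β : MeasurableSpace Ω) {m0 : MeasurableSpace Ω} (μ : Measure Ω)
    (f g : Ω → ℂ) (h : μ[fun x => g x * f x | β] =ᵐ[μ] fun x => (μ[g | β]) x * (μ[f | β]) x) :
    μ[fun x => f x * g x | β] =ᵐ[μ] fun x => (μ[f | β]) x * (μ[g | β]) x := by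
  simpa only [mul_comm] using h

end XLIL

open XLIL in
theorem liR : LIR := by
  intro F az ps ν U hU uw X B L hX hB
  have facS : Fac L.W (L.shp B) := F.lb.fac L B hB.1
  have kc2 : KC L.W (L.B2 B) := F.h.kc L.W _ L.nice facS
  have kcZ : KC L.W (AZ L B) := az.kc L B hB.1
  have leZ : L.B2 B ≤ AZ L B := az.b2 L B
  have facP : ∀ k, Fac L.W (L.P (zs k)) := fun k => F.t.fpull _ _ _ _ (L.emb _) (F.t.top _)
  have l := fun S : Finset Bool => GI.line F (ind2 F ν U hU uw.erg) (by norm_num) L hX hB zs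
    zs_inj (fun _ => one_ne_zero) S (by simpa using card_le_univ S)
  obtain ⟨hI, hc⟩ := l univ
  have hz := fun q => ps ν U hU uw X B L q hX hB
  have sl : ∀ q, pull L.W.μ (L.π (zs q)) B ≤ L.B2 B := fun q =>
    (F.lb.slot L B _ hB.1).trans (F.h.le _ _)
  have pz := fun q => (F.c.cp_iff (L.P (zs q)) (L.B2 B) (AZ L B) L.W.μ (facP q).le kcZ.1.le leZ).1
    fun f hf => (hz q f hf).trans (hc q (mem_univ q) f hf).symm
  have pp : ∀ f g : L.W.X → ℂ, BM L.W.μ (L.P (zs true)) f → BM L.W.μ (L.P (zs false)) g →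
      L.W.μ[fun x => f x * g x | L.B2 B] =ᵐ[L.W.μ]
        fun x => (L.W.μ[f | L.B2 B]) x * (L.W.μ[g | L.B2 B]) x := by
    intro f g hf hg
    have h := hI (fun b => bif b then f else g) fun b _ => by cases b; exacts [hg, hf]
    have e : pr (fun b => bif b then f else g) univ = fun x => f x * g x :=
      funext fun x => Fintype.prod_bool _
    rw [e] at h
    filter_upwards [h] with x hx
    exact hx.trans (Fintype.prod_bool _)
  have le3 : ∀ o, Pz L B o ≤ L.W.ms := by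
    rintro (_ | q)
    exacts [kcZ.1.le, (facP q).le]
  refine ⟨fun S => GI.ind_of F.a L hB.1.le zs S (l S).1 (l S).2,
    az.cl3 _ _ _ kc2.1.le le3 ?_,
    fun q => ⟨L.nice, L.emb _, kc2, sl q, hc q (mem_univ q)⟩,
    fun q => ⟨L.nice, L.emb _, kcZ, (sl q).trans leZ, hz q⟩⟩
  rintro (_ | _ | _) (_ | _ | _) hij f g hf hg
  · exact absurd rfl hij
  · exact swap _ _ f g (pz false g f hg hf)
  · exact swap _ _ f g (pz true g f hg hf)
  · exact pz false f g hf hg
  · exact absurd rfl hij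
  · exact swap _ _ f g (pp g f hg hf)
  · exact pz true f g hf hg
  · exact pp f g hf hg
  · exact absurd rfl hij

end T5x

end

end PkXLI

section PkXCol

/-! Lifts of independent admissible maps are independent over the hull of the internal base. -/

set_option autoImplicit false
set_option linter.unusedVariables false
set_option warn.classDefReducibility false

open MeasureTheory ProbabilityTheory Filter Topology Function Finset ComplexConjugate
open scoped BigOperators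
open Fib27 (BM sup pr Oc Orow F23 LInd Mem)

noncomputable section

namespace T5x

open T3x

theorem colR : ColR := by
  intro fd ν U W1 L2 B1 ι X B L p Bc S k1 kB ad li hI
  have b : Bas := ⟨fd.a, fd.t, fd.d, fd.c⟩
  have fS : Fac L2.W (L2.shp B1) := fd.lb.fac L2 B1 k1.1
  have k2 : ∀ i, KC (L i).W ((L i).B2 (B i)) := fun i =>
    fd.h.kc _ _ (L i).nice (fd.lb.fac (L i) (B i) (kB i).1)
  have kβ : KC L2.W (L2.B2 B1) := fd.h.kc _ _ L2.nice fS
  have colS : ∀ i, pull L2.W.μ (Bc i) ((L i).shp (B i)) ≤ L2.shp B1 := fun i =>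
    fd.la.shp L2 (L i) _ _ (B i) B1 (ad i).emb (li i) (kB i).1 k1.1 (ad i).le
  have colB : ∀ i, pull L2.W.μ (Bc i) ((L i).B2 (B i)) ≤ L2.B2 B1 := fun i =>
    (fd.h.fn L2.W (L i).W (Bc i) _ L2.nice (L i).nice (li i).emb
      (fd.lb.fac (L i) (B i) (kB i).1)).trans (fd.h.mono _ _ _ (colS i))
  have fY : ∀ j, Fac L2.W (pull L2.W.μ (Bc j) (L j).W.ms) :=
    fun j => fd.t.fpull _ _ _ _ (li j).emb (fd.t.top _)
  have fD : ∀ j, Fac L2.W (pull L2.W.μ (Bc j) ((L j).B2 (B j))) :=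
    fun j => fd.t.fpull _ _ _ _ (li j).emb (k2 j).1
  have DY : ∀ j, pull L2.W.μ (Bc j) ((L j).B2 (B j)) ≤ pull L2.W.μ (Bc j) (L j).W.ms :=
    fun j => GI.pull_mono _ _ (k2 j).1.le
  have I2 : CInd (L2.shp B1) (fun j => pull L2.W.μ (Bc j) (L j).W.ms) S L2.W.μ := by
    simp only [fun i => LfDAux.pull_top b fd.la fd.lb L2 (L i) (ad i).emb (li i)]
    exact LfDAux.cind_shp b fd.lb L2 k1.1
      (fun i => fd.t.fpull _ _ (p i) _ (ad i).emb (fd.t.top _)) hI
  obtain ⟨I3, c3⟩ := fd.c.grow (L2.shp B1) (fun j => pull L2.W.μ (Bc j) (L j).W.ms)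
    (fun j => pull L2.W.μ (Bc j) ((L j).B2 (B j))) S L2.W.μ fS.le (fun j => (fY j).le) DY I2
  have c4 : ∀ j ∈ S, CP (pull L2.W.μ (Bc j) (L j).W.ms) (pull L2.W.μ (Bc j) ((L j).B2 (B j)))
      (sup (fun j => pull L2.W.μ (Bc j) ((L j).B2 (B j))) S ⊔ L2.shp B1) L2.W.μ := by
    intro j hj f hf
    have b1 := fd.ld.base L2 (L j) (p j) (Bc j) (B j) B1 (ad j).emb (li j) (kB j).1 k1.1
      (ad j).le (ad j).cp
    have le : pull L2.W.μ (Bc j) ((L j).shp (B j)) ≤ pull L2.W.μ (Bc j) ((L j).B2 (B j)) :=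
      GI.pull_mono _ _ (fd.h.le _ _)
    have d := fd.c.drop _ _ _ (pull L2.W.μ (Bc j) ((L j).B2 (B j))) L2.W.μ (fY j).le fS.le
      (colS j) (le.trans (DY j)) (DY j) b1
    rw [sup_eq_left.2 le] at d
    exact (c3 j hj f hf).trans (d f hf)
  have e : hull L2.W (sup (fun j => pull L2.W.μ (Bc j) ((L j).B2 (B j))) S ⊔ L2.shp B1) =
      L2.B2 B1 :=
    le_antisymm (fd.h.min _ _ _ (sup_le (Fib27.sup_le' fun j _ => colB j) (fd.h.le _ _)) kβ)
      (fd.h.mono _ _ _ le_sup_right)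
  obtain ⟨r1, -, r3⟩ := fd.prod L2.W ι (fun j => pull L2.W.μ (Bc j) (L j).W.ms)
    (fun j => pull L2.W.μ (Bc j) ((L j).B2 (B j))) S _ L2.nice (fd.t.fsp _ _ _ _ S fS fD) fY fD DY
    (fun j hj => le_trans
      (Fib27.le_sup' (fun j => pull L2.W.μ (Bc j) ((L j).B2 (B j))) hj) le_sup_left)
    (fun j => fd.h.rwm _ _ _ _ L2.nice (L j).nice (li j).emb (k2 j)) c4 I3
  rw [e] at r1 r3
  exact ⟨r1, colB, r3⟩

end T5x

end

end PkXCol

section PkXGI

/-! Row XGI: independence in the two by two grid. -/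

set_option autoImplicit false

open MeasureTheory ProbabilityTheory Filter Topology Function Finset

noncomputable section

namespace T5x

open T3x

theorem giR5 : GIR5 := by
  intro fd hl hc c
  have k2 : KC c.W c.B2 := fd.h.kc _ _ c.L.nice (fd.lb.fac c.L c.B c.kc.1)
  have l1 : LI c.L c.B := hl c.ν c.U c.hU c.uw c.X c.B c.L c.nice c.kc
  have l2 : LI c.L2 c.B2 := hl c.ν c.U c.hU c.uw c.W c.B2 c.L2 c.L.nice k2
  obtain ⟨c1, c2, c3⟩ := hc c.L2 c.B2 (fun _ : Bool => c.X) (fun _ => c.B) (fun _ => c.L) c.π c.Bc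
    univ k2 (fun _ => c.kc) l1.adm2 c.lift
    (GI.cind_of fd.a c.L c.kc.1.le zs univ (l1.line univ) fun i _ => (l1.adm2 i).cp)
  exact
    { li := l1
      li2 := l2
      col := fun q j A hA =>
        (fd.la.slot c.L2 c.L _ _ (zs q) (c.L.emb _) (c.lift j) A hA).symm
      rows := GI.cind_of fd.a c.L2 k2.1.le zs univ (l2.line univ) fun i _ => (l2.adm2 i).cp
      cols := c1
      rowB := fun q => (l2.adm2 q).le
      colB := c2
      rowE := fun q g hg => GI.of_cp fd.a (c.L2.emb _).mp k2.1.le (l2.adm2 q).cp g hg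
      colE := fun j g hg => GI.of_cp fd.a (c.lift j).emb.mp k2.1.le (c3 j (mem_univ j)) g hg
      pz := fun q => (l1.admZ q).cp }

end T5x

end

end PkXGI

section PkXR2P

/-! Row XR2P: two columns and one row. -/

set_option autoImplicit false
set_option linter.unusedVariables false
set_option warn.classDefReducibility false

noncomputable section

namespace T5x

open T3x

namespace XR2PL

/-- three slots, two of them the point slots -/
def sl : Option Bool → Slot := fun o => o.elim (2, true) zs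

/-- a context with three slots and the same lines -/
def ctx (F : Fd) (c : Cx) : Ctx where
  ν := c.ν
  U := c.U
  hU := c.hU
  erg := c.uw.erg
  ι := Option Bool
  sl := sl
  inj := by decide
  ne := by decide
  three := le_of_eq rfl
  ind := ind2 F c.ν c.U c.hU c.uw.erg
  X := c.X
  B := c.B
  nice := c.nice
  kc := c.kc
  L := c.L
  L2 := c.L2
  Bc
    | none => (F.la.ex c.L2 c.L _ (c.L.emb (sl none))).choose
    | some j => c.Bc j
  lift
    | none => (F.la.ex c.L2 c.L _ (c.L.emb (sl none))).choose_spec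
    | some j => c.lift j

end XR2PL

theorem r2pR5 : R2PR5 := fun F c q j k h Y u hjk =>
  r2p F (XR2PL.ctx F c) (gi F _) (some q) (some j) (some k) h Y u fun e => hjk (Option.some.inj e)

end T5x

end

end PkXR2P

section PkXF2

/-! The conditional expectation on the rest of a saturated line keeps the point. -/

set_option autoImplicit false
set_option linter.unusedVariables false
set_option warn.classDefReducibility false

open MeasureTheory ProbabilityTheory Filter Topology Function Finset ComplexConjugate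
open scoped BigOperators
open Fib27 (BM sup pr Oc Orow F23 LInd Mem Perp)
open Pool.Agent.MP_154433_an.SG (Uni ufn)

noncomputable section

namespace T5x

open T3x

namespace XF2L

open T3x.F2 (fact intc desc)

variable (c : Cx)

/-- the other row, the twists and the base -/
def MM (q : Bool) : MeasurableSpace c.W2.X := OB c.L2 c.AZ q

def OO (q : Bool) : MeasurableSpace c.W.X := OB c.L c.B q

variable {c}

theorem embπ (k : Bool) : Emb c.W c.X (c.π k) := c.L.emb _

theorem embA (k : Bool) : Emb c.W2 c.W (c.A k) := c.L2.emb _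

theorem embB (k : Bool) : Emb c.W2 c.W (c.Bc k) := (c.lift k).emb

theorem facP (fd : Fd) (k : Bool) : Fac c.W (c.P k) :=
  fd.t.fpull _ _ _ _ (embπ k) (fd.t.top _)

theorem facS (fd : Fd) : Fac c.W (c.L.shp c.B) := fd.lb.fac c.L c.B c.kc.1

theorem kcZ (az : AzX) : KC c.W c.AZ := az.kc c.L c.B c.kc.1

theorem S_le_OO (az : AzX) (q : Bool) : c.L.shp c.B ≤ OO c q :=
  (az.shp c.L c.B).trans le_sup_right

theorem OO_le (az : AzX) (q : Bool) : OO c q ≤ c.W.ms := (az.facO c.L c.B q c.kc.1).le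

theorem MM_le (az : AzX) (q : Bool) : MM c q ≤ c.W2.ms := (az.facO c.L2 c.AZ q (kcZ az).1).le

theorem row_le_MM (fd : Fd) (az : AzX) (q : Bool) : pull c.W2.μ (c.A q) c.AZ ≤ MM c q :=
  ((fd.lb.slot c.L2 _ _ (kcZ az).1).trans (az.shp c.L2 c.AZ)).trans le_sup_right

theorem col_le_MM (az : AzX) (gi : c.GI) (q i : Bool) :
    pull c.W2.μ (c.Bc i) (OO c q) ≤ MM c q :=
  az.ob c.L2 c.L (c.π i) (c.Bc i) c.B c.AZ (embπ i) (c.lift i) c.kc.1 (kcZ az).1
    (gi.li.admZ i).le q

theorem bmπ (fd : Fd) (k : Bool) {f : c.X.X → ℂ} (hf : BM c.X.μ c.X.ms f) :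
    BM c.W.μ (c.P k) fun w => f (c.π k w) :=
  fd.a.bm_comp c.X.ms c.W.μ c.X.μ (c.π k) f (embπ k).mp hf

/-- saturation in the grid -/
theorem sg (fd : Fd) (az : AzX) (gi : c.GI) (sat : c.Sat) (q j : Bool) {a : c.W.X → ℂ}
    (ha : BM c.W.μ (c.P q) a) {w : c.W2.X → ℂ} (hw : BM c.W2.μ (MM c q) w) :
    ∫ x, a (c.Bc j x) * w x ∂c.W2.μ = ∫ x, (c.W.μ[a | OO c q]) (c.Bc j x) * w x ∂c.W2.μ := by
  obtain ⟨f, hf, haf⟩ := fact fd c.X.μ (embπ q).mp.measurable ha
  have h1 := sat c.W c.AZ (c.π j) c.L2 (c.Bc j) (gi.li.admZ j) (c.lift j) q f hf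
  have hq := (embB (c := c) j).mp.quasiMeasurePreserving
  have ha2 : BM c.W2.μ c.W2.ms fun x => a (c.Bc j x) :=
    (fd.a.bm_comp _ c.W2.μ c.W.μ (c.Bc j) a (embB j).mp (ha.mono (facP fd q).le)).mono
      (fd.t.fpull _ _ _ _ (embB j) (fd.t.top _)).le
  rw [← Fib27.int_ce_mul (MM_le az q) ha2 hw]
  refine integral_congr_ae ?_
  have h2 : c.W2.μ[fun x => a (c.Bc j x) | MM c q] =ᵐ[c.W2.μ]
      c.W2.μ[fun x => f (c.π q (c.Bc j x)) | MM c q] := condExp_congr_ae (hq.ae haf)
  have h3 : c.W.μ[a | OO c q] =ᵐ[c.W.μ] c.W.μ[fun w => f (c.π q w) | OO c q] :=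
    condExp_congr_ae haf
  filter_upwards [h2.trans h1, hq.ae h3] with x h4 h5
  rw [h4, h5]
  rfl

theorem sg' (fd : Fd) (az : AzX) (gi : c.GI) (sat : c.Sat) (q j : Bool)
    {e : c.W.X → ℂ} (he : BM c.W.μ (c.P q ⊔ c.L.shp c.B) e) {w : c.W2.X → ℂ}
    (hw : BM c.W2.μ (MM c q) w) :
    ∫ x, w x * e (c.Bc j x) ∂c.W2.μ = ∫ x, w x * (c.W.μ[e | OO c q]) (c.Bc j x) ∂c.W2.μ := by
  have hO := OO_le (c := c) az q
  have hP := (facP (c := c) fd q).le
  have hS := (facS (c := c) fd).le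
  have hSO : c.L.shp c.B ≤ OO c q := S_le_OO az q
  have hw' := hw.mono (MM_le az q)
  obtain ⟨w0, h0, h1⟩ := desc fd (embB j).mp hw'
  have he' := he.mono (sup_le hP hS)
  have hp : Perp c.W.μ (c.P q ⊔ c.L.shp c.B) fun y => w0 y - (c.W.μ[w0 | OO c q]) y := by
    refine Fib27.perp_sup hP hS (h0.sub ((h0.ce _).mono hO)) fun a b ha hb => ?_
    have ha' := ha.mono hP
    have hb' := hb.mono hS
    have e1 : ∫ y, w0 y * (c.W.μ[fun y => a y * b y | OO c q]) y ∂c.W.μ
        = ∫ y, w0 y * ((c.W.μ[a | OO c q]) y * b y) ∂c.W.μ :=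
      integral_congr_ae ((Fib27.ce_mul' hO ha' (hb.mono hSO)).mono fun y hy =>
        congrArg (w0 y * ·) hy)
    rw [Fib27.int_sub_mul h0 ((h0.ce _).mono hO) (ha'.mul hb'), sub_eq_zero,
      Fib27.int_ce_symm hO h0 (ha'.mul hb'), e1,
      ← h1 _ (ha'.mul hb'), ← h1 _ (((ha'.ce _).mono hO).mul hb')]
    have hb2 : BM c.W2.μ (MM c q) fun x => b (c.Bc j x) :=
      (fd.a.bm_comp _ c.W2.μ c.W.μ (c.Bc j) b (embB j).mp (hb.mono hSO)).mono
        (col_le_MM az gi q j)
    have := sg fd az gi sat q j ha (hw.mul hb2)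
    refine Eq.trans ?_ (this.trans ?_)
    · exact integral_congr_ae (Eventually.of_forall fun w => by ring)
    · exact integral_congr_ae (Eventually.of_forall fun w => by ring)
  have h2 := hp e he
  rw [Fib27.int_sub_mul h0 ((h0.ce _).mono hO) he', sub_eq_zero, Fib27.int_ce_symm hO h0 he'] at h2
  rw [h1 _ he', h1 _ ((he'.ce _).mono hO), h2]

theorem key (fd : Fd) (az : AzX) (gi : c.GI) (sat : c.Sat) (r2p : c.R2P) (q : Bool)
    {a h : c.W.X → ℂ} (ha : BM c.W.μ (c.P q) a)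
    (hh : h = fun w => (c.W.μ[a | OO c q]) w -
      (c.W.μ[c.W.μ[a | OO c q] | c.P q ⊔ c.L.shp c.B]) w) :
    Perp c.W.μ (OO c q) (c.W.μ[c.W.μ[h | OO c q] | c.P q]) := by
  have hO := OO_le (c := c) az q
  have hP := fun k => (facP (c := c) fd k).le
  have hS := (facS (c := c) fd).le
  have hD : c.P q ⊔ c.L.shp c.B ≤ c.W.ms := sup_le (hP q) hS
  have hKa : BM c.W.μ (OO c q) (c.W.μ[a | OO c q]) := ha.ce _
  have he : BM c.W.μ (c.P q ⊔ c.L.shp c.B) (c.W.μ[c.W.μ[a | OO c q] | c.P q ⊔ c.L.shp c.B]) :=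
    hKa.ce _
  have hhb : BM c.W.μ c.W.ms h := hh ▸ (hKa.mono hO).sub (he.mono hD)
  have hh0 : c.W.μ[h | c.P q ⊔ c.L.shp c.B] =ᵐ[c.W.μ] 0 :=
    Perp.ce (hh ▸ Fib27.perp_sub_ce hD (hKa.mono hO)) hD hhb
  have hKh : BM c.W.μ (OO c q) (c.W.μ[h | OO c q]) := hhb.ce _
  have hb : BM c.W.μ (c.P q) (c.W.μ[c.W.μ[h | OO c q] | c.P q]) := hKh.ce _
  obtain ⟨b0, hb0, hbb⟩ := fact fd c.X.μ (embπ q).mp.measurable hb
  have hZ := (kcZ (c := c) az).1.le
  have hOd : OO c q = c.P (!q) ⊔ c.AZ := rfl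
  refine (Fib27.perp_sup (hP (!q)) hZ (hb.mono (hP q)) ?_).mono hOd.le
  intro ρ ψ hρ hψ
  have hk : q ≠ !q := by cases q <;> simp
  generalize (!q) = k at hρ hk
  have hu : BM c.W.μ c.W.ms fun w => ρ w * ψ w := (hρ.mono (hP k)).mul (hψ.mono hZ)
  obtain ⟨f, hf, hρf⟩ := fact fd c.X.μ (embπ k).mp.measurable hρ
  have hfq := bmπ fd q hf
  have hY : BM c.W.μ (OO c q) (c.W.μ[fun w => f (c.π q w) | OO c q]) := hfq.ce _
  have hAq := (embA (c := c) q).mp
  have cB : ∀ (i : Bool) {v : c.W.X → ℂ}, BM c.W.μ (OO c q) v →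
      BM c.W2.μ (MM c q) fun x => v (c.Bc i x) := fun i v hv =>
    (fd.a.bm_comp _ c.W2.μ c.W.μ (c.Bc i) v (embB i).mp hv).mono (col_le_MM az gi q i)
  have cA : BM c.W2.μ (MM c q) fun x => ψ (c.A q x) :=
    (fd.a.bm_comp _ c.W2.μ c.W.μ (c.A q) ψ hAq hψ).mono (row_le_MM fd az q)
  have hcs := fd.ld.cs' c.L2 c.L (c.π q) (c.Bc q) (zs q) (embπ q) (c.lift q) _ b0
    (hKh.mono hO) hb0 hbb.symm
  have hA : pull c.W2.μ (c.A q) c.W.ms ≤ c.W2.ms := (fd.t.fpull _ _ _ _ (embA q) (fd.t.top _)).le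
  have s1 : ∫ w, (c.W.μ[c.W.μ[h | OO c q] | c.P q]) w * (ρ w * ψ w) ∂c.W.μ
      = ∫ x, (c.W.μ[h | OO c q]) (c.Bc q x) * (ρ (c.A q x) * ψ (c.A q x)) ∂c.W2.μ := by
    rw [← intc hAq ((hb.mono (hP q)).mul hu),
      ← Fib27.int_ce_mul hA ((cB q hKh).mono (MM_le az q))
        (fd.a.bm_comp _ c.W2.μ c.W.μ (c.A q) _ hAq hu)]
    refine integral_congr_ae ?_
    filter_upwards [hcs, hAq.quasiMeasurePreserving.ae hbb] with x h1 h2
    rw [h2]
    exact congrArg₂ _ h1.symm rfl
  have hcol := fd.a.keq_fun c.X.ms c.W2.μ c.X.μ (c.π k ∘ c.A q) (c.π q ∘ c.Bc k) f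
    ((embπ k).mp.comp hAq) ((embπ q).mp.comp (embB k).mp) (gi.col q k) hf.1
  have s2 : ∫ x, (c.W.μ[h | OO c q]) (c.Bc q x) * (ρ (c.A q x) * ψ (c.A q x)) ∂c.W2.μ =
      ∫ x, f (c.π q (c.Bc k x)) * ((c.W.μ[h | OO c q]) (c.Bc q x) * ψ (c.A q x)) ∂c.W2.μ := by
    refine integral_congr_ae ?_
    filter_upwards [hcol, hAq.quasiMeasurePreserving.ae hρf] with x h1 h2
    rw [h2]
    have h3 : f (c.π k (c.A q x)) = f (c.π q (c.Bc k x)) := h1
    rw [h3]
    ring
  have s3 := sg fd az gi sat q k hfq ((cB q hKh).mul cA)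
  have hw2 := (cB k hY).mul cA
  have s4 := sg' fd az gi sat q q he hw2
  have s5 := r2p q q k h _ _ hk hhb (hY.mono hO) (hψ.mono hZ) hh0
  have hKK : c.W.μ[h | OO c q] =ᵐ[c.W.μ] fun w => h w +
      ((c.W.μ[c.W.μ[a | OO c q] | c.P q ⊔ c.L.shp c.B]) w -
        (c.W.μ[c.W.μ[c.W.μ[a | OO c q] | c.P q ⊔ c.L.shp c.B] | OO c q]) w) := by
    subst hh
    filter_upwards [Fib27.ce_sub (hKa.mono hO) (he.mono hD) (OO c q), hKa.ce_self hO] with w h1 h2
    rw [h1, h2]
    ring
  have hM := MM_le (c := c) az q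
  have hBq : pull c.W2.μ (c.Bc q) c.W.ms ≤ c.W2.ms := (fd.t.fpull _ _ _ _ (embB q) (fd.t.top _)).le
  have cq : ∀ {v : c.W.X → ℂ}, BM c.W.μ c.W.ms v → BM c.W2.μ c.W2.ms fun x => v (c.Bc q x) :=
    fun hv => (fd.a.bm_comp _ c.W2.μ c.W.μ (c.Bc q) _ (embB q).mp hv).mono hBq
  have i1 := ((hw2.mono hM).mul (cq hhb)).integrable
  have i2 := ((hw2.mono hM).mul (cq (he.mono hD))).integrable
  have i3 := ((hw2.mono hM).mul (cq ((he.ce (OO c q)).mono hO))).integrable
  rw [s1, s2, s3]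
  have s6 := integral_add i1 (i2.sub i3)
  have s7 := integral_sub i2 i3
  rw [s4, sub_self] at s7
  have s8 : ∫ x, (c.W.μ[fun w => f (c.π q w) | OO c q]) (c.Bc k x) * ψ (c.A q x) *
      h (c.Bc q x) ∂c.W2.μ = 0 := by
    rw [← s5]
    exact integral_congr_ae (Eventually.of_forall fun w => by ring)
  simp only [Pi.sub_apply] at s6
  rw [s7, s8, add_zero] at s6
  rw [← s6]
  refine integral_congr_ae ?_
  filter_upwards [(embB q).mp.quasiMeasurePreserving.ae hKK] with x hx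
  rw [hx]
  ring

theorem main (fd : Fd) (az : AzX) (gi : c.GI) (sat : c.Sat) (r2p : c.R2P) (q : Bool)
    {a : c.W.X → ℂ} (ha : BM c.W.μ (c.P q) a) :
    BM c.W.μ (c.P q ⊔ c.B2) (c.W.μ[a | OO c q]) := by
  have hO := OO_le (c := c) az q
  have hP := (facP (c := c) fd q).le
  have hS := (facS (c := c) fd).le
  have hD : c.P q ⊔ c.L.shp c.B ≤ c.W.ms := sup_le hP hS
  have hKa : BM c.W.μ (OO c q) (c.W.μ[a | OO c q]) := ha.ce _
  have he : BM c.W.μ (c.P q ⊔ c.L.shp c.B) (c.W.μ[c.W.μ[a | OO c q] | c.P q ⊔ c.L.shp c.B]) :=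
    hKa.ce _
  obtain ⟨h, hh⟩ : ∃ h : c.W.X → ℂ, h = fun w => (c.W.μ[a | OO c q]) w -
      (c.W.μ[c.W.μ[a | OO c q] | c.P q ⊔ c.L.shp c.B]) w := ⟨_, rfl⟩
  have hhb : BM c.W.μ c.W.ms h := hh ▸ (hKa.mono hO).sub (he.mono hD)
  have hpD : Perp c.W.μ (c.P q ⊔ c.L.shp c.B) h := hh ▸ Fib27.perp_sub_ce hD (hKa.mono hO)
  have hk := key fd az gi sat r2p q ha hh
  have hKh : BM c.W.μ (OO c q) (c.W.μ[h | OO c q]) := hhb.ce _
  have hb : BM c.W.μ (c.P q) (c.W.μ[c.W.μ[h | OO c q] | c.P q]) := hKh.ce _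
  have hb0 : ∀ᵐ w ∂c.W.μ, (c.W.μ[c.W.μ[h | OO c q] | c.P q]) w = 0 := by
    refine Fib27.eq_zero_of_int_conj (hb.mono hP) ?_
    rw [Fib27.int_ce_mul hP (hKh.mono hO) hb.conj]
    have := congrArg (starRingEnd ℂ) (hk _ hKh.conj)
    rw [← integral_conj, map_zero] at this
    rw [← this]
    exact integral_congr_ae (Eventually.of_forall fun w => by simp [mul_comm])
  have hh0 : ∀ᵐ w ∂c.W.μ, h w = 0 := by
    refine Fib27.eq_zero_of_int_conj hhb ?_
    have h1 : ∫ w, h w * conj ((c.W.μ[a | OO c q]) w) ∂c.W.μ = 0 := by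
      have e1 : ∫ w, h w * (c.W.μ[fun w => conj (a w) | OO c q]) w ∂c.W.μ
          = ∫ w, h w * conj ((c.W.μ[a | OO c q]) w) ∂c.W.μ :=
        integral_congr_ae ((Fib27.ce_conj hO (ha.mono hP)).mono fun w hw =>
          congrArg (h w * ·) hw)
      rw [← e1,
        ← Fib27.int_ce_symm hO hhb (ha.mono hP).conj,
        ← Fib27.int_ce_mul hP (hKh.mono hO) ha.conj]
      exact integral_eq_zero_of_ae (hb0.mono fun w hw => by simp [hw])
    have h2 := hpD _ he.conj
    have h3 := integral_sub (hhb.mul (hKa.mono hO).conj).integrable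
      (hhb.mul (he.mono hD).conj).integrable
    rw [h1, h2, sub_self] at h3
    rw [← h3]
    refine integral_congr_ae (Eventually.of_forall fun w => ?_)
    have : conj (h w) = conj ((c.W.μ[a | OO c q]) w) -
        conj ((c.W.μ[c.W.μ[a | OO c q] | c.P q ⊔ c.L.shp c.B]) w) := by
      rw [hh, map_sub]
    simp only [this, mul_sub]
  have hS2 : c.L.shp c.B ≤ c.B2 := fd.h.le _ _
  refine (he.mono (sup_le_sup_left hS2 _)).congr ?_
  filter_upwards [hh0] with w hw
  rw [hh] at hw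
  exact (sub_eq_zero.mp hw).symm

end XF2L

theorem f2R5 : F2R5 := fun fd az c gi sat r2p q a ha => XF2L.main fd az gi sat r2p q ha

end T5x

end

end PkXF2

section PkXGxI

/-! Independence in the grid with three columns. -/

set_option autoImplicit false
set_option linter.unusedVariables false
set_option warn.classDefReducibility false

open MeasureTheory ProbabilityTheory Filter Topology Function Finset ComplexConjugate
open scoped BigOperators
open Fib27 (BM sup pr Oc Orow F23 LInd Mem)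

noncomputable section

namespace T5x

open T3x

namespace XGxIL

theorem one_ne (j : I3) : ({j} : Finset I3) ≠ univ := by
  intro h
  have h1 := congrArg Finset.card h
  rw [Finset.card_singleton, Finset.card_univ] at h1
  simp at h1

theorem col (fd : Fd) (g : Gx) (o : g.OK) (q : Bool) (j : I3) :
    KEq g.W2.μ (g.X j).ms (g.p j ∘ g.A q) (g.π j q ∘ g.Bc j) := fun A hA =>
  (fd.la.slot g.L2 (g.L j) _ _ (zs q) (o.adm j).emb (o.lift j) A hA).symm

theorem grow (fd : Fd) (g : Gx) (o : g.OK) (q : Bool) (j : I3) :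
    g.G (some q) j = pull g.W2.μ (g.A q) (g.P1 j) := by
  have m1 : MeasurePreserving (g.Bc j) g.W2.μ (g.W j).μ := (o.lift j).emb.mp
  have m2 : MeasurePreserving (g.A q) g.W2.μ g.W1.μ := (g.L2.emb (zs q)).mp
  have m3 : MeasurePreserving (g.π j q) (g.W j).μ (g.X j).μ := ((g.L j).emb (zs q)).mp
  have m4 : MeasurePreserving (g.p j) g.W1.μ (g.X j).μ := (o.adm j).emb.mp
  have e1 := fd.a.pull_comp (g.X j).ms g.W2.μ (g.W j).μ (g.Bc j) (g.π j q) m1
  have e2 := fd.a.pull_comp (g.X j).ms g.W2.μ g.W1.μ (g.A q) (g.p j) m2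
  have e3 := fd.a.keq_pull (g.X j).ms g.W2.μ _ _ (m4.comp m2).measurable.comap_le
    (m3.comp m1).measurable.comap_le (col fd g o q j)
  exact e1.trans (e3.symm.trans e2.symm)

end XGxIL

open XGxIL in
theorem gxiR : GxIR := by
  intro fd az li cs g o
  have a0 := o.adm none
  have l2 : LI g.L2 g.B1 := li g.ν g.U o.hU o.uw g.W1 g.B1 g.L2 a0.nice a0.kc
  have l1 : ∀ j, LI (g.L j) (g.B j) := fun j =>
    li g.ν g.U o.hU o.uw (g.X j) (g.B j) (g.L j) (o.nice j) (o.kc j)
  have c := fun S (hS : S ≠ univ) =>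
    cs g.L2 g.B1 g.X g.B g.L g.p g.Bc S a0.kc o.kc o.adm o.lift (o.ind S hS)
  exact
    { li := l1
      li2 := l2
      col := col fd g o
      grow := grow fd g o
      gz := fun j => az.lift g.L2 (g.L j) _ _ (g.B j) g.B1 (o.adm j).emb (o.lift j) (o.kc j).1
        a0.kc.1 (o.adm j).le
      cols := fun S hS => (c S hS).1
      rowB := fun q => (l2.adm2 q).le
      colB := fun j => (c _ (one_ne j)).2.1 j
      rowE := fun q f hf => GI.of_cp fd.a (g.L2.emb _).mp a0.kc.1.le (l2.adm2 q).cp f hf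
      colE := fun j f hf => GI.of_cp fd.a (o.lift j).emb.mp ((l1 j).adm2 true).kc.1.le
        ((c _ (one_ne j)).2.2 j (Finset.mem_singleton_self j)) f hf }

end T5x

end

end PkXGxI

section PkXF3

/-! Row F3 of the saturated grid: saturation moves the column operator along a row. -/

set_option autoImplicit false
set_option linter.unusedVariables false
set_option warn.classDefReducibility false

open MeasureTheory ProbabilityTheory Filter Topology Function Finset ComplexConjugate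
open scoped BigOperators
open Fib27 (BM sup pr Oc Orow F23 LInd Mem)

noncomputable section

namespace T5x

open T3x

namespace XF3L

variable (g : Gx)

/-- the base together with the column other than `j`, `j'` -/
def CC (j j' : I3) : MeasurableSpace g.W1.X := sup g.P1 ((univ.erase j).erase j') ⊔ g.B1

/-- the rest of the line over the enlarged base -/
def DD (q : Bool) (j j' : I3) : MeasurableSpace g.W2.X := OB g.L2 (hull g.W1 (CC g j j')) q

variable {g}

lemma DD_comm (q : Bool) (j j' : I3) : DD g q j j' = DD g q j' j := by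
  rw [DD, DD, CC, CC, Finset.erase_right_comm]

lemma facP (F : Fd) (o : g.OK) (k : I3) : Fac g.W1 (g.P1 k) :=
  F.t.fpull _ _ _ _ (o.adm k).emb (F.t.top _)

lemma facC (F : Fd) (o : g.OK) (j j' : I3) : Fac g.W1 (CC g j j') :=
  F.t.fsp _ _ _ _ _ (o.adm none).kc.1 (facP F o)

lemma facH (F : Fd) (o : g.OK) (j j' : I3) : Fac g.W1 (hull g.W1 (CC g j j')) :=
  (F.h.kc _ _ (o.adm none).nice (facC F o j j')).1

lemma cp (F : Fd) (o : g.OK) {j j' : I3} (hj : j ≠ j') :
    CP (pull g.W1.μ (g.p j) (g.X j).ms) (pull g.W1.μ (g.p j) (g.B j)) (CC g j j') g.W1.μ := by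
  intro f hf
  have hB := (o.adm j).kc.1
  have hfW : BM g.W1.μ g.W1.ms f := hf.mono (facP F o j).le
  have hne : ∀ i : I3, univ.erase i ≠ univ := fun i e => by
    have := e.symm ▸ mem_univ i
    simp at this
  have hsub : ({j} : Finset I3) ⊆ univ.erase j' := by simpa using hj
  have e2 := (o.adm j).cp f hf
  have hb : BM g.W1.μ g.B1 (g.W1.μ[f | pull g.W1.μ (g.p j) (g.B j)]) :=
    (hf.ce _).mono (o.adm j).le
  refine Fib27.ce_eq_of_tests (facC F o j j').le hfW (hb.mono le_sup_right) fun u hu => ?_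
  have hgW : BM g.W1.μ g.W1.ms u := hu.mono (facC F o j j').le
  have e3 := F.c.grp g.B1 g.P1 (univ.erase j') {j} ((univ.erase j).erase j') g.W1.μ hB.le
    (fun i => (facP F o i).le) (o.ind _ (hne j')) hsub
    (fun i hi => by simp only [mem_erase] at hi ⊢; exact ⟨hi.1, mem_univ _⟩)
    (by simp) f u (hf.mono (by
      rw [Fib27.sup_singleton']
      exact le_sup_left)) hu
  rw [← integral_condExp hB.le, integral_congr_ae e3, ← Fib27.int_mul_ce hB.le hb hgW]
  refine integral_congr_ae ?_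
  filter_upwards [e2] with w h1
  rw [h1]

lemma adm (F : Fd) (o : g.OK) {j j' : I3} (hj : j ≠ j') :
    Adm g.W1 (hull g.W1 (CC g j j')) (g.X j) (g.B j) (g.p j) :=
  F.h.adm _ _ _ _ _ (o.adm j).nice (o.nice j) (o.adm j).emb (o.kc j) (facC F o j j')
    ((o.adm j).le.trans le_sup_right) (cp F o hj)

lemma B1_le (F : Fd) (j j' : I3) : g.B1 ≤ hull g.W1 (CC g j j') :=
  le_sup_right.trans (F.h.le _ (CC g j j'))

lemma OcD (F : Fd) (az : AzX) (o : g.OK) (i : g.GI) (q : Bool) (k j j' : I3) :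
    Oc g.G (some q) k ⊔ g.β ≤ DD g q j j' := by
  have hz : AZ g.L2 g.B1 ≤ DD g q j j' :=
    (az.mono g.L2 _ _ (B1_le F j j')).trans le_sup_right
  refine sup_le (Fib27.sup_le' fun r hr => ?_) ((az.b2 g.L2 g.B1).trans hz)
  rcases r with _ | r
  · exact (i.gz k).trans hz
  · have e : r = !q := by
      have := ne_of_mem_erase hr
      cases r <;> cases q <;> simp_all
    rw [i.grow, e]
    exact (F3.pull_mono _ _ (facP F o k).le).trans le_sup_left

lemma GD (F : Fd) (az : AzX) (o : g.OK) (i : g.GI) (q : Bool) (j j' : I3) :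
    sup (g.G (some q)) ((univ.erase j).erase j') ≤ DD g q j j' := by
  refine Fib27.sup_le' fun k hk => ?_
  rw [i.grow]
  refine le_trans ?_ le_sup_right
  refine (F3.pull_mono _ _ ?_).trans
    ((F.lb.slot g.L2 _ _ (facH F o j j')).trans (az.shp g.L2 _))
  exact ((Fib27.le_sup' g.P1 hk).trans le_sup_left).trans (F.h.le _ (CC g j j'))

lemma DD_le (F : Fd) (az : AzX) (o : g.OK) (q : Bool) (j j' : I3) : DD g q j j' ≤ g.W2.ms :=
  (az.facO g.L2 _ q (facH F o j j')).le

lemma G_le (F : Fd) (az : AzX) (o : g.OK) (k j : I3) : g.G k j ≤ g.W2.ms :=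
  F.a.pull_le _ _ _ _ (o.lift j).emb.mp (az.facZ (g.L j) _ k (o.kc j).1).le

lemma pull_sup_le (F : Fd) (j : I3) (S : Finset I3) :
    pull g.W2.μ (g.Bc j) (sup (g.Pc j) S ⊔ g.B2 j) ≤
      sup (fun k => g.G k j) S ⊔ pull g.W2.μ (g.Bc j) (g.B2 j) := by
  induction S using Finset.induction_on with
  | empty => simp only [Fib27.sup_empty', bot_sup_eq, le_refl]
  | insert a S ha ih =>
    rw [Fib27.sup_insert', Fib27.sup_insert', sup_assoc, F.a.pull_sup, sup_assoc]
    exact sup_le_sup_left ih _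

lemma pull_OB (F : Fd) (az : AzX) (i : g.GI) (q : Bool) (j : I3) :
    pull g.W2.μ (g.Bc j) (OB (g.L j) (g.B j) q) ≤ Oc g.G (some q) j ⊔ g.β := by
  rw [← az.obe]
  exact (pull_sup_le F j (univ.erase (some q))).trans (sup_le_sup_left (i.colB j) _)

lemma sg0 (F : Fd) (az : AzX) (o : g.OK) (i : g.GI) (q : Bool) {j j' : I3} (hj : j ≠ j') :
    CP (g.G (some q) j) (Oc g.G (some q) j ⊔ g.β) (DD g q j j') g.W2.μ := by
  intro a ha
  have hπ : Emb (g.W j) (g.X j) (g.π j q) := (g.L j).emb _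
  have e : g.G (some q) j = pull g.W2.μ (g.π j q ∘ g.Bc j) (g.X j).ms :=
    F.a.pull_comp _ _ _ _ _ (o.lift j).emb.mp
  obtain ⟨f0, b0, e1⟩ := F3.fact F (hπ.mp.comp (o.lift j).emb.mp) (e ▸ ha)
  have hO := DD_le F az o q j j'
  have e2 := (condExp_congr_ae e1).trans
    (o.sat j g.W1 _ (g.p j) g.L2 (g.Bc j) (adm F o hj) (o.lift j) q f0 b0)
  have b1 : BM (g.W j).μ (g.W j).ms fun v => f0 (g.π j q v) :=
    (F.a.bm_comp _ _ _ _ _ hπ.mp b0).mono (F.a.pull_le _ _ _ _ hπ.mp le_rfl)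
  have b2 : BM g.W2.μ (Oc g.G (some q) j ⊔ g.β) (g.W2.μ[a | DD g q j j']) :=
    ((F.a.bm_comp _ _ _ _ _ (o.lift j).emb.mp (b1.ce _)).mono (pull_OB F az i q j)).congr e2.symm
  have h2 := OcD F az o i q j j j'
  exact ((condExp_condExp_of_le h2 hO).symm.trans (b2.ce_self (h2.trans hO))).symm

lemma half (F : Fd) (az : AzX) (o : g.OK) (i : g.GI) (q : Bool) (a : I3 → g.W2.X → ℂ)
    (ψ : g.W2.X → ℂ) (ha : ∀ k, BM g.W2.μ (g.G (some q) k) (a k)) (hψ : BM g.W2.μ g.β ψ)
    {j j' : I3} (hj : j ≠ j') :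
    ∫ x, ψ x * ((g.W2.μ[a j | Oc g.G (some q) j ⊔ g.β]) x * pr a (univ.erase j) x) ∂g.W2.μ =
      ∫ x, ψ x * ((g.W2.μ[a j | Oc g.G (some q) j ⊔ g.β]) x *
        (g.W2.μ[a j' | Oc g.G (some q) j' ⊔ g.β]) x *
        pr a ((univ.erase j).erase j') x) ∂g.W2.μ := by
  have b1 : BM g.W2.μ (DD g q j' j) fun x => ψ x * ((g.W2.μ[a j | Oc g.G (some q) j ⊔ g.β]) x *
      pr a ((univ.erase j).erase j') x) := by
    refine (hψ.mono (le_sup_right.trans (OcD F az o i q j j' j))).mul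
      ((((ha j).ce _).mono (OcD F az o i q j j' j)).mul ?_)
    rw [DD_comm]
    exact (BM.pr_sup fun k _ => ha k).mono (GD F az o i q j j')
  have e1 := Fib27.int_ce_mul (DD_le F az o q j' j) ((ha j').mono (G_le F az o _ j')) b1
  have e2 := sg0 F az o i q hj.symm (a j') (ha j')
  have hm : j' ∈ univ.erase j := by simpa using hj.symm
  calc _ = ∫ x, a j' x * (ψ x * ((g.W2.μ[a j | Oc g.G (some q) j ⊔ g.β]) x *
        pr a ((univ.erase j).erase j') x)) ∂g.W2.μ := by
        refine integral_congr_ae (Eventually.of_forall fun x => ?_)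
        simp only [Fib27.pr_erase a hm]
        ring
    _ = _ := by
        rw [← e1]
        refine integral_congr_ae ?_
        filter_upwards [e2] with x hx
        rw [hx]
        ring

end XF3L

open XF3L in
theorem f3R5 : F3R5 := by
  intro F az g o i q a ψ ha hψ j j'
  rcases eq_or_ne j j' with rfl | hj
  · rfl
  rw [half F az o i q a ψ ha hψ hj, half F az o i q a ψ ha hψ hj.symm, Finset.erase_right_comm]
  refine integral_congr_ae (Eventually.of_forall fun x => ?_)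
  beta_reduce
  ring

end T5x

end

end PkXF3

section PkXHG

/-! The saturated grid is a grid with a free row. -/

set_option autoImplicit false
set_option linter.unusedVariables false
set_option warn.classDefReducibility false

open MeasureTheory ProbabilityTheory Filter Topology Function Finset ComplexConjugate
open scoped BigOperators
open Fib27 (BM sup pr Oc Orow F23 LInd Mem)
open Pool.Agent.MP_154433_an.SG (Uni ufn)

noncomputable section

namespace T5x

open T3x

namespace XHGL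

variable (g : Gx)

theorem mB (o : g.OK) (j : I3) : MeasurePreserving (g.Bc j) g.W2.μ (g.W j).μ := (o.lift j).emb.mp

theorem Pc_le (az : AzX) (o : g.OK) (j k : I3) : g.Pc j k ≤ (g.W j).ms :=
  (az.facZ (g.L j) (g.B j) k (o.kc j).1).le

theorem B2_le (i : g.GI) (j : I3) : g.B2 j ≤ (g.W j).ms := ((i.li j).adm2 true).kc.1.le

theorem β_le (i : g.GI) : g.β ≤ g.W2.ms := (i.li2.adm2 true).kc.1.le

theorem row_le (F : Fd) (o : g.OK) (i : g.GI) (k j : I3) : g.G k j ≤ Pz g.L2 g.B1 k := by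
  rcases k with _ | q
  · exact i.gz j
  · rw [i.grow q j]
    exact HGr.pull_mono _ _
      (F.a.pull_le (g.X j).ms g.W1.μ (g.X j).μ (g.p j) (o.adm j).emb.mp le_rfl)

end XHGL

open XHGL in
theorem hg3R : HG3R := by
  intro F az h2 g o i h3
  refine ⟨fun q j f hf => ?_, ?_⟩
  · rw [← az.obe]
    exact HGr.qq F g.β (g.Pc j) (g.B2 j) _ g.W2.μ (g.W j).μ (g.Bc j) (mB g o j) (β_le g i)
      (Pc_le g az o j) (B2_le g i j) (i.colB j) (i.colE j) f hf
  refine ⟨fun k j => F.a.pull_le _ g.W2.μ (g.W j).μ (g.Bc j) (mB g o j) (Pc_le g az o j k),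
    β_le g i, fun S hS f hf => i.li2.cline S hS f fun k hk => (hf k hk).mono
      (Fib27.sup_le' fun j _ => row_le g F o i k j),
    fun S hS f hf => i.cols S hS f fun j hj => (hf j hj).mono
      (Fib27.sup_le' fun k _ => HGr.pull_mono _ _ (Pc_le g az o j k)), ?_, ?_⟩
  · rintro (_ | q) hq j a ha
    · exact absurd rfl hq
    refine HGr.f2g F g.β (g.Pc j) (g.B2 j) _ g.W2.μ (g.W j).μ (g.Bc j) (mB g o j) (β_le g i)
      (Pc_le g az o j) (B2_le g i j) (i.colB j) (i.colE j) (some q) (fun b hb => ?_) a ha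
    have e := h2 g.ν g.U o.hU o.uw (g.X j) (g.B j) (g.L j) (o.nice j) (o.kc j) (o.sat j) q b hb
    rw [← az.obe] at e
    exact e
  · rintro (_ | q) hq
    · exact absurd rfl hq
    exact h3 q

end T5x

end

end PkXHG

section PkXF4

/-! Failure of the core property gives a nonzero dual function of mean zero (row F4). -/

set_option autoImplicit false
set_option linter.unusedVariables false
set_option warn.classDefReducibility false

open MeasureTheory ProbabilityTheory Filter Topology Function Finset ComplexConjugate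
open scoped BigOperators
open Fib27 (BM sup pr Oc Orow F23 LInd Mem)

noncomputable section

namespace T5x

open T3x T3x.HGr

namespace XF4L

theorem perp {Ω : Type} (β : MeasurableSpace Ω) (G : I3 → I3 → MeasurableSpace Ω)
    {m0 : MeasurableSpace Ω} (μ : Measure Ω) [IsProbabilityMeasure μ] (h : HGz β G none μ)
    (X : HX3 β G μ) (q : Bool) (j i : I3) (hi : i ≠ j) (b : Ω → ℂ) (b1 : BM μ (G (some q) j) b)
    (z1 : μ[b | β] =ᵐ[μ] 0) (hn : ∀ u, DV β G (some q) j μ u → μ[u | β] =ᵐ[μ] 0 → u =ᵐ[μ] 0) :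
    Fib27.Perp μ (sup (fun i => G (some q) i ⊔ β) (univ.erase j))
      (μ[b | Oc G (some q) j ⊔ β]) := by
  have hβ := h.ble
  have hG : ∀ i, G (some q) i ⊔ β ≤ m0 := fun i => sup_le (h.le _ i) hβ
  have b2 := b1.mono (le_sup_left (b := β))
  have hOc : Oc G (some q) j ⊔ β ≤ m0 := (X.f23 q).le j
  refine Fib27.perp_pr hG ((b1.ce _).mono hOc) fun ρ hρ => ?_
  have ha := Fib27.bm_update hρ b2
  have t := (X.f23 q).f3 _ ha j i
  rw [update_self, Fib27.pr_update ρ (notMem_erase j univ)] at t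
  rw [t]
  generalize hA : update ρ j b = a at ha ⊢
  have aj : a j = b := by rw [← hA, update_self]
  have ha' := Fib27.bm_update ha ((X.f23 q).f2 i (a i) (ha i))
  generalize hA' : update a i (μ[a i | Oc G (some q) i ⊔ β]) = a' at ha'
  have ai : a' i = μ[a i | Oc G (some q) i ⊔ β] := by rw [← hA', update_self]
  have aj' : a' j = b := by rw [← hA', update_of_ne hi.symm, aj]
  have pi : pr a' (univ.erase i) = pr a (univ.erase i) := by
    rw [← hA', Fib27.pr_update a (notMem_erase i univ)]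
  have v : DV β G (some q) j μ (μ[pr a' (univ.erase j) | G (some q) j ⊔ β]) :=
    ⟨i, a', hi, ha', by rw [ai]; exact (ha i).ce _, EventuallyEq.rfl⟩
  have bp : BM μ m0 (pr a' (univ.erase j)) := Fib27.BM.pr fun k _ => (ha' k).mono (hG k)
  have bu := (bp.ce (G (some q) j ⊔ β)).mono (hG j)
  generalize hu : μ[pr a' (univ.erase j) | G (some q) j ⊔ β] = u at v bu
  have bE : BM μ β (μ[u | β]) := bu.ce β
  have u0 : (fun x => u x - (μ[u | β]) x) =ᵐ[μ] 0 := by
    refine hn _ (X.cen q j u v) ?_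
    filter_upwards [Fib27.ce_sub bu (bE.mono hβ) β, Fib27.BM.ce_self hβ bE] with x h1 h2
    rw [h1, h2, sub_self]
    rfl
  have s1 : ∫ x, (μ[a i | Oc G (some q) i ⊔ β]) x * pr a (univ.erase i) x ∂μ =
      ∫ x, b x * pr a' (univ.erase j) x ∂μ := by
    refine integral_congr_ae (Eventually.of_forall fun x => ?_)
    have p1 := Fib27.pr_erase a' (mem_univ i) x
    have p2 := Fib27.pr_erase a' (mem_univ j) x
    rw [ai, pi] at p1
    rw [aj'] at p2
    exact p1.symm.trans p2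
  rw [s1, ← Fib27.int_mul_ce (hG j) b2 bp, hu]
  have s2 : ∫ x, b x * u x ∂μ = ∫ x, b x * (μ[u | β]) x ∂μ := by
    refine integral_congr_ae ?_
    filter_upwards [u0] with x hx
    rw [sub_eq_zero.1 hx]
  rw [s2, ← Fib27.int_ce_mul hβ (b2.mono (hG j)) bE]
  refine integral_eq_zero_of_ae ?_
  filter_upwards [z1] with x hx
  rw [hx]
  simp

variable (c : Cx)

theorem mA (q : Bool) : MeasurePreserving (c.A q) c.W2.μ c.W.μ := (c.L2.emb (zs q)).mp

theorem mB (j : Bool) : MeasurePreserving (c.Bc j) c.W2.μ c.W.μ := (c.lift j).emb.mp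

theorem mπ (k : Bool) : MeasurePreserving (c.π k) c.W.μ c.X.μ := (c.L.emb (zs k)).mp

theorem P_le (F : Fd) (k : Bool) : c.P k ≤ c.W.ms :=
  F.a.pull_le c.X.ms c.W.μ c.X.μ (c.π k) (mπ c k) le_rfl

theorem vis (F : Fd) (az : AzX) (hf : c.Fail) : ∃ f : c.X.X → ℂ, BM c.X.μ c.X.ms f ∧
    c.X.μ[f | c.B] =ᵐ[c.X.μ] 0 ∧
    ¬ c.W.μ[fun w => f (c.π true w) | OB c.L c.B true] =ᵐ[c.W.μ] 0 := by
  by_contra hn
  push Not at hn
  refine hf fun f f' T hf hf' h0 hT => ?_
  have z2 := hn f hf h0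
  have hO := (az.facO c.L c.B true c.kc.1).le
  have hs : c.L.shp c.B ≤ OB c.L c.B true := (az.shp c.L c.B).trans le_sup_right
  have b1 : BM c.W.μ (OB c.L c.B true) fun w => f' (c.π false w) :=
    (F.a.bm_comp c.X.ms c.W.μ c.X.μ (c.π false) f' (mπ c false) hf').mono le_sup_left
  have b2 : BM c.W.μ (OB c.L c.B true) (c.L.hat T) :=
    (az.bm c.L T hT).mono (le_sup_left.trans ((az.leS c.L c.B).trans le_sup_right))
  have b3 := bmc F (mπ c true) hf
  have z3 : c.W.μ[fun w => f (c.π true w) * (f' (c.π false w) * c.L.hat T w) | OB c.L c.B true]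
      =ᵐ[c.W.μ] 0 := by
    filter_upwards [Fib27.ce_mul' hO b3 (b1.mul b2), z2] with w h1 h2
    rw [h1, h2]
    simp
  simp only [← mul_assoc] at z3
  refine (condExp_condExp_of_le hs hO).symm.trans ((condExp_congr_ae z3).trans ?_)
  rw [condExp_zero]

/-- the row and the column versions of a visible function are correlated -/
theorem corr (F : Fd) (h : c.GI) (j : Bool) (k : c.W.X → ℂ) (hk : BM c.W.μ c.W.ms k)
    (hz : ∫ x, k (c.Bc j x) * conj (k (c.A j x)) ∂c.W2.μ = 0) : c.W.μ[k | c.P j] =ᵐ[c.W.μ] 0 := by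
  have hP := P_le c F j
  obtain ⟨g0, g1, g2⟩ := fct F c.X.ms (mπ c j) le_rfl (hk.conj.ce (c.P j))
  have cs := F.ld.cs c.L2 c.L (c.π j) (c.Bc j) (zs j) (c.L.emb (zs j)) (c.lift j) _ g0 hk.conj
    g1 g2.symm
  have e1 : (fun x => g0 (c.π j (c.A j x))) =ᵐ[c.W2.μ] fun x => g0 (c.π j (c.Bc j x)) :=
    F.a.keq_fun c.X.ms c.W2.μ c.X.μ (c.π j ∘ c.A j) (c.π j ∘ c.Bc j) g0 ((mπ c j).comp (mA c j))
      ((mπ c j).comp (mB c j)) (h.col j j) g1.1
  have e2 := Fib27.int_mul_ce (F.a.pull_le c.W.ms c.W2.μ c.W.μ (c.Bc j) (mB c j) le_rfl)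
    (F.a.bm_comp c.W.ms c.W2.μ c.W.μ (c.Bc j) k (mB c j) hk) (bmc F (mA c j) hk.conj)
  have e3 : ∫ x, k (c.Bc j x) * g0 (c.π j (c.Bc j x)) ∂c.W2.μ = 0 := by
    rw [← hz, ← e2]
    refine integral_congr_ae ?_
    filter_upwards [cs, e1] with x h1 h2
    rw [← h2]
    exact congrArg _ h1.symm
  rw [mint (mB c j) (hk.mul (bmc F (mπ c j) g1))] at e3
  refine Fib27.eq_zero_of_int_conj ((hk.ce (c.P j)).mono hP) ?_
  rw [Fib27.int_ce_mul hP hk (hk.ce (c.P j)).conj, ← e3]
  refine integral_congr_ae ?_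
  filter_upwards [g2, Fib27.ce_conj hP hk] with w h1 h2
  rw [← h1, h2]

end XF4L

open XF4L in
theorem f4R : F4R := by
  intro F az hx c E gi ok gx qc hg hf
  obtain ⟨f, f1, f2, f3⟩ := vis c F az hf
  by_contra hn
  apply f3
  have mw : MeasurePreserving E.pw E.W1.μ c.W.μ := E.adm.emb.mp
  have mL : MeasurePreserving E.Lw E.L2.W.μ c.W2.μ := E.lift.emb.mp
  have mA' : MeasurePreserving (E.L2.π (zs true)) E.L2.W.μ E.W1.μ := (E.L2.emb _).mp
  have mB' : MeasurePreserving (c.Bc true ∘ E.Lw) E.L2.W.μ c.W.μ := (mB c true).comp mL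
  have b0 : BM c.W.μ c.W.ms fun w => f (c.π true w) := bmc F (mπ c true) f1
  have bP : BM c.W.μ (c.P true) fun w => f (c.π true w) :=
    F.a.bm_comp c.X.ms c.W.μ c.X.μ (c.π true) f (mπ c true) f1
  have b1 : BM E.L2.W.μ (E.gx.G (some true) (some true)) fun x => f (c.π true (c.Bc true (E.Lw x))) :=
    F.a.bm_comp (c.P true) E.L2.W.μ c.W.μ (c.Bc true ∘ E.Lw) _ mB' bP
  have z0 : c.W.μ[fun w => f (c.π true w) | c.B2] =ᵐ[c.W.μ] 0 := by
    have l := gi.li.line {true} (fun _ => f) fun _ _ => f1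
    simp only [Finset.prod_singleton] at l
    exact l.trans ((mπ c true).quasiMeasurePreserving.ae_eq_comp f2)
  have z1 : E.L2.W.μ[fun x => f (c.π true (c.Bc true (E.Lw x))) | E.gx.β] =ᵐ[E.L2.W.μ] 0 :=
    (gx.colE (some true) _ b0).trans (mB'.quasiMeasurePreserving.ae_eq_comp z0)
  have pp := perp E.gx.β E.gx.G E.gx.W2.μ hg (hx _ _ E.gx.W2.μ hg) true (some true) none (by simp) _ b1 z1
    fun u hu h0 => by_contra fun hne => hn ⟨true, u, hu, hne, h0⟩
  have hO := (az.facO c.L c.B true c.kc.1).le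
  have bk := b0.ce (OB c.L c.B true)
  generalize hk : c.W.μ[fun w => f (c.π true w) | OB c.L c.B true] = k at bk
  have hle : pull E.L2.W.μ (E.pw ∘ E.L2.π (zs true)) (OB c.L c.B true) ≤
      sup (fun i => E.gx.G (some true) i ⊔ E.gx.β) (univ.erase (some true)) := by
    have l : ∀ i : I3, i ≠ some true → pull E.L2.W.μ (E.L2.π (zs true)) (E.gx.P1 i) ≤
        sup (fun i => E.gx.G (some true) i ⊔ E.gx.β) (univ.erase (some true)) := fun i hi =>
      ((gx.grow true i).ge.trans le_sup_left).trans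
        (Fib27.le_sup' (fun i => E.gx.G (some true) i ⊔ E.gx.β) (mem_erase.2 ⟨hi, mem_univ i⟩))
    rw [← F.a.pull_comp _ E.L2.W.μ E.W1.μ _ E.pw mA', OB, F.a.pull_sup, F.a.pull_sup]
    refine sup_le (le_trans (pull_mono _ _ ?_) (l (some false) (by simp)))
      (le_trans (pull_mono _ _ E.az) (l none (by simp)))
    exact (F.a.pull_comp c.X.ms E.W1.μ c.W.μ E.pw (c.π false) mw).le
  have p0 := pp _ ((F.a.bm_comp _ E.L2.W.μ c.W.μ _ k (mw.comp mA') bk).conj.mono hle)
  have e1 : (fun x => k (c.A true (E.Lw x))) =ᵐ[E.L2.W.μ] fun x => k (E.pw (E.L2.π (zs true) x)) :=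
    F.a.keq_fun c.W.ms E.L2.W.μ c.W.μ (c.A true ∘ E.Lw) (E.pw ∘ E.L2.π (zs true)) k
      ((mA c true).comp mL) (mw.comp mA') (F.la.slot E.L2 c.L2 E.pw E.Lw _ E.adm.emb E.lift)
      (bk.mono hO).1
  have k0 := corr c F gi true k (bk.mono hO) (by
    rw [← p0, ← mint mL ((bmc F (mB c true) (bk.mono hO)).mul (bmc F (mA c true) (bk.mono hO)).conj)]
    refine integral_congr_ae ?_
    filter_upwards [qc true (some true) _ b0, e1] with x h1 h2
    rw [h2]
    refine congrArg₂ _ ?_ rfl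
    rw [← hk]
    exact h1.symm)
  refine Fib27.eq_zero_of_int_conj (bk.mono hO) ?_
  have s3 := Fib27.int_mul_ce hO bk b0.conj
  have s4 := Fib27.int_ce_mul (P_le c F true) (bk.mono hO) bP.conj
  have s5 : ∫ w, (c.W.μ[k | c.P true]) w * conj (f (c.π true w)) ∂c.W.μ = 0 := by
    refine integral_eq_zero_of_ae ?_
    filter_upwards [k0] with x hx
    rw [hx]
    simp
  rw [← s5, s4, ← s3]
  refine integral_congr_ae ?_
  filter_upwards [Fib27.ce_conj hO b0] with w hw
  rw [hw, hk]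

end T5x

end

end PkXF4

section PkXHX

/-! Row `HX3`: functions with coefficients in the base, centring of dual functions. -/

set_option autoImplicit false
set_option linter.unusedVariables false
set_option warn.classDefReducibility false

open MeasureTheory ProbabilityTheory Filter Topology Function Finset ComplexConjugate
open scoped BigOperators
open Fib27 (BM sup pr Oc Orow F23 LInd Mem)

noncomputable section

namespace T5x

open T3x

namespace XHX

theorem third (i j : Option Bool) (h : j ≠ i) :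
    ∃ k, k ≠ i ∧ k ≠ j ∧ univ.erase i = ({j, k} : Finset (Option Bool)) := by
  revert i j
  decide

theorem pair_ne (i k : Option Bool) : ({i, k} : Finset (Option Bool)) ≠ univ := by
  revert i k
  decide

end XHX

open HGXL XHX in
theorem hx3R : HX3R := by
  intro b Ω β G m0 μ _ H
  have oc : ∀ q j, Oc G q j ⊔ β ≤ m0 := fun q j => sup_le (Fib27.sup_le' fun k _ => H.le _ _) H.ble
  have gb : ∀ q j, G q j ⊔ β ≤ m0 := fun q j => sup_le (H.le q j) H.ble
  refine ⟨fun q => ⟨oc _, fun j a => ext2 (H.le _ j) (oc _ j) le_sup_right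
    (H.f2c _ (Option.some_ne_none q) j), fun a ha j j' => ?_⟩, ?_⟩
  · simpa only [L, one_mul] using ext3 (H.le (some q)) (oc (some q)) (fun _ => le_sup_right) j j'
      (fun a ψ h1 h2 => H.f3 _ (Option.some_ne_none q) a ψ h1 h2 j j') univ a (fun _ => 1) ha
      (fun k hk => absurd (mem_univ k) hk) (BM.const 1)
  rintro q i h ⟨j, a, hj, ha, hoc, e⟩
  obtain ⟨k, hki, hkj, hS⟩ := third i j hj
  have a0 : ∀ l, BM μ m0 (a l) := fun l => (ha l).mono (gb _ l)
  have cl : ∀ l, sup (fun q => G q l) univ ≤ m0 := fun l => Fib27.sup_le' fun _ _ => H.le _ _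
  have up : ∀ l (f : Ω → ℂ), BM μ (G (some q) l ⊔ β) f →
      BM μ (sup (fun l => sup (fun q => G q l) univ) {l} ⊔ β) f := fun l f hf =>
    hf.mono (sup_le_sup_right ((Fib27.le_sup' (fun q' => G q' l) (mem_univ (some q))).trans
      (Fib27.le_sup' (fun l => sup (fun q => G q l) univ) (mem_singleton_self l))) _)
  have ind : ∀ l l', l ≠ l' → ∀ f f', BM μ (G (some q) l ⊔ β) f → BM μ (G (some q) l' ⊔ β) f' →
      μ[fun x => f x * f' x | β] =ᵐ[μ] fun x => (μ[f | β]) x * (μ[f' | β]) x :=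
    fun l l' ne f f' hf hf' => b.c.grp β _ {l, l'} {l} {l'} μ H.ble cl (H.cols _ (pair_ne l l'))
      (by simp) (by simp) (disjoint_singleton.2 ne) f f' (up l f hf) (up l' f' hf')
  have mj : BM μ β (μ[a j | β]) := (a0 j).ce β
  have mk : BM μ β (μ[a k | β]) := (a0 k).ce β
  have ep : ∀ c : Option Bool → Ω → ℂ, pr c (univ.erase i) = fun x => c j x * c k x := fun c => by
    funext x
    rw [hS, pr, prod_pair hkj.symm]
  refine ⟨j, update a j fun x => a j x - (μ[a j | β]) x, hj, fun l => ?_, ?_, ?_⟩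
  · rcases eq_or_ne l j with rfl | ne
    · rw [update_self]; exact (ha l).sub (mj.mono le_sup_right)
    · rw [update_of_ne ne]; exact ha l
  · rw [update_self]; exact hoc.sub (mj.mono le_sup_right)
  rw [ep, update_self, update_of_ne hkj]
  rw [ep] at e
  have e1 : μ[h | β] =ᵐ[μ] fun x => (μ[a j | β]) x * (μ[a k | β]) x :=
    ((condExp_congr_ae e).trans (condExp_condExp_of_le le_sup_right (gb _ i))).trans
      (ind j k hkj.symm _ _ (ha j) (ha k))
  have e2 : μ[a k | G (some q) i ⊔ β] =ᵐ[μ] μ[a k | β] := by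
    refine Fib27.ae_eq_of_tests (gb _ i) ((a0 k).ce _) (mk.mono le_sup_right) fun c hc => ?_
    have c0 := hc.mono (gb _ i)
    rw [Fib27.int_ce_mul (gb _ i) (a0 k) hc, ← integral_condExp H.ble,
      integral_congr_ae (ind k i hki _ _ (ha k) hc), Fib27.int_ce_symm H.ble (a0 k) c0,
      ← Fib27.int_ce_mul H.ble (a0 k) (c0.ce β)]
  have e3 := Fib27.ce_sub ((a0 j).mul (a0 k)) ((mj.mono H.ble).mul (a0 k)) (G (some q) i ⊔ β)
  have e4 := Fib27.ce_mul (gb (some q) i) (mj.mono le_sup_right) (a0 k)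
  have e5 : (fun x => (a j x - (μ[a j | β]) x) * a k x) =
      fun x => a j x * a k x - (μ[a j | β]) x * a k x := funext fun x => sub_mul _ _ _
  rw [e5]
  filter_upwards [e, e1, e2, e3, e4] with x e e1 e2 e3 e4
  rw [e3, e4, e2, e1, e]

end T5x

end

end PkXHX
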