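import Pool.Agent.MP_154433_an.p6.All
import Pool.Agent.MP_154433_an.p5a.B
import Pool.Agent.MP_154433_an.p5.T2
import Pool.Agent.MP_154433_an.p5.T3
import Pool.Agent.MP_154433_an.p5.R1
import Pool.Agent.MP_154433_an.p5.R2
import Pool.Agent.MP_154433_an.p5.G1
import Pool.Agent.MP_154433_an.p5.G2
import Pool.Agent.MP_154433_an.p5.X1
import Pool.Agent.MP_154433_an.p5.X2
import Pool.Agent.MP_154433_an.p5.X3
import Pool.Agent.MP_154433_an.p5.U1
import Pool.Agent.MP_154433_an.p5.U2
import Pool.Agent.MP_154433_an.p5.U3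
import Pool.Agent.MP_154433_an.p5.U4

/-! Two commuting maps: assembly. -/

section PkFdX

set_option autoImplicit false

namespace T3x

theorem basX : Bas := bas_of basA basT basD basC

theorem fdX : Fd := fd_of basX met mix real nice0 limS rp line lfB lfA lfC lfD kfA kfB hf prodS

end T3x

end PkFdX

section PkRAll

/-! The items 0, 6, 7 and the passage to the finite level. -/

set_option autoImplicit false

namespace T5x

open T3x

theorem pairX (fd : Fd) : PairS := pairS fd (azR fd) (pair0 fd (azR fd))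

theorem coreFX (fd : Fd) (h : CoreS) (ν : Wt) (hν : UW ν) : CoreF ν := coreF fd (azR fd) h ν hν

theorem rudX : Rud := rud (covT (supT (tail mgf)))

theorem passX (fd : Fd) (rc : Rc) : Pass :=
  pass_of fd rc (pass1 fd rc (azR fd) (hz fd)) (pass2 fd rc (azR fd)) rudX

end T5x

end PkRAll

section PkSec5

/-! Section 5: all rows. -/

namespace T5g

theorem rows5 : Sec5A.Rows :=
  ⟨xR2a, xCm, xCtx, T3x.xPsc, xFf, xZv, xHt, xExh, xHatA, T3x.xHatB, xTyA, xTyB, xMixL, T3x.xDom,
    xPosB, xPsiA, xPsiB, xBunB, xRelC, xStpA, xFlat, xStpB, xAlgA, xAlgT, xAlgB, xAlgC⟩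

theorem sec5 : Sec5 := Sec5A.out rows5

end T5g

end PkSec5

section PkAsm

/-! The core theorem: two points and the twists are independent over the internal base. -/

set_option autoImplicit false

namespace T5x

open T3x

theorem s14 : Sec14 :=
  sec14_of fdX (rc basX) (sel basX (rc basX)) (apx basX (rc basX)) (satA fdX) (pairX fdX)
    (azR fdX) ggz azX thC liR colR giR5 r2pR5 f2R5 satR5 coreR exR okR gxiR f3R5 hg3R hx3R gsp1R5
    fullR5 repR5 gspUR5 f4R t5R5 clR flxR

theorem step5 : Step5 := fun c hs hf => by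
  obtain ⟨g, hg⟩ := s14.t5 c hs hf
  exact T5g.sec5 fdX (rc basX) (satA fdX) ind2 (pairX fdX) (azR fdX) s14.sat s14.flx
    (passX fdX (rc basX)) Pool.Agent.MP_154433_an.T4A.T5B.algS2 c g (s14.cl c hs) hg

theorem coreS : CoreS := s14.core step5

theorem coreAll (ν : Wt) (hν : UW ν) : CoreF ν := coreFX fdX coreS ν hν

end T5x

end PkAsm

section PkUAll

/-! Uniform twisted averages along the random set, from the core theorem. -/

set_option autoImplicit false

open Pool.Agent.MP_154433_an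

namespace T5u

open T3x T5x

theorem udetX (F : Fd) : UDet :=
  udet F (ugf F pick) (ucpt F (ugf F pick) (ucptA F (key F) (drop F pick)))

theorem mainU (F : Fd) (hZ : CovZ) (hC : ∀ ν, UW ν → CoreF ν) : MainU :=
  have b : Bas := ⟨F.a, F.t, F.d, F.c⟩
  mainU_of (fun ν h => coreX ν (hC ν h)) (udetX F) T3S.fac conv (ergT (T3S.erg T3S.vn) T3S.nrm)
    (tw0 b (ergL b)) atomT (goodT prodT)
    (unifT T3S.fac (T3S.zero T3S.nest T3S.link) (dw T3S.nrm T3S.vdc (T3S.gvn T3S.vdc))) sigT lay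
    (aeT (netT (netP (T3S.apx T3S.shift (T3S.dual T3S.gcs T3S.win)) hZ)) (ubT tailT))

end T5u

end PkUAll

section PkVAll

/-! Uniform twisted averages along the random set when the total weight beats the square of the
logarithm, from the core theorem. -/

set_option autoImplicit false

open Pool.Agent.MP_154433_an

namespace T5u

open T3x T5x

theorem mainV (F : Fd) (hZ : CovZ) (hC : ∀ ν, UW ν → CoreF ν) : MainV :=
  have b : Bas := ⟨F.a, F.t, F.d, F.c⟩
  mainV_of (sv_of (fun ν h => coreX ν (hC ν h)) (udetX F) T3S.fac conv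
      (ergT (T3S.erg T3S.vn) T3S.nrm) (tw0 b (ergL b)) atomT (goodT prodT)
      (unifT T3S.fac (T3S.zero T3S.nest T3S.link) (dw T3S.nrm T3S.vdc (T3S.gvn T3S.vdc)))
      atV.1.1 atV.1.2)
    rhoT (ubV tailT) (aeV (netT (netP (T3S.apx T3S.shift (T3S.dual T3S.gcs T3S.win)) hZ))) atV layA
    nearV (badV T3S.ub) grV

theorem uww6 (F : Fd) (hZ : CovZ) (hC : ∀ ν, UW ν → CoreF ν) (σ : ℕ → ℝ)
    (hσ : ∀ n, 0 ≤ σ n ∧ σ n ≤ 1) (ha : Antitone σ) (hg : T3S.Gr σ 2) : T6.AS σ T6.UWW :=
  as6 (mainV F hZ hC) σ hσ ha hg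

end T5u

end PkVAll

section PkUWWAllP

/-! Uniform twisted averages along the random set, without hypotheses. -/

set_option autoImplicit false

open Pool.Agent.MP_154433_an

namespace T5x

theorem uwwAll (σ : ℕ → ℝ) (hσ : ∀ n, 0 ≤ σ n ∧ σ n ≤ 1) (ha : Antitone σ) (hg : T3S.Gr σ 2) :
    T6.AS σ T6.UWW :=
  T5u.uww6 T3x.fdX (T3F.covZ (T3u.cyc T4S.invG)) coreAll σ hσ ha hg

end T5x

end PkUWWAllP

section PkFinP

set_option autoImplicit false

open MeasureTheory ProbabilityTheory Filter Topology Function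

namespace T6

open Pool.Agent.MP_154433_an hiding BM

/-- two commuting maps when the total weight beats the square of the logarithm -/
theorem mainL2 (σ : ℕ → ℝ) (hσ : ∀ n, 0 ≤ σ n ∧ σ n ≤ 1) (ha : Antitone σ) (hg : T3S.Gr σ 2) :
    ∀ (Ω : Type) [MeasurableSpace Ω] (P : Measure Ω) [IsProbabilityMeasure P]
      (E : ℕ → Set Ω), (∀ n, MeasurableSet (E n)) → iIndepSet E P →
      (∀ n, P (E n) = ENNReal.ofReal (σ n)) →
    ∀ᵐ ω ∂P, ∀ (X : Type) [MeasurableSpace X] (μ : Measure X) [IsProbabilityMeasure μ]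
      (T : Fin 2 → X ≃ᵐ X) (f : Fin 2 → X → ℝ),
      (∀ i, MeasurePreserving (⇑(T i)) μ μ) → (∀ i j, Function.Commute ⇑(T i) ⇑(T j)) →
      (∀ i, MemLp (f i) ⊤ μ) → T4S.Concl (fun m => ω ∈ E m) μ T f :=
  mainAll σ hσ ha hg (T5x.uwwAll σ hσ ha hg)

end T6

end PkFinP
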