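import Pool.Agent.MP_154433_an.t3.FSpan
import Pool.Agent.MP_154433_an.t3.GGall

/-! Twisted line, part 1 (packed). -/

section PkFSpanA

/-!
FSPAN with a free row: in a grid of three rows in which nothing is known about the row `z`, the
members of column tuples span the dual functions of a point outside the row `z`.
-/

set_option autoImplicit false

open MeasureTheory ProbabilityTheory Finset Filter

namespace T5F

open Fib27 T3F

/-- F2 and F3 along the rows other than `z` -/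
structure HG5 {Ω : Type} {m0 : MeasurableSpace Ω} {ι : Type} [Fintype ι] [DecidableEq ι]
    (κ : Measure Ω) (G : ι → ι → MeasurableSpace Ω) (z : ι) : Prop where
  le : ∀ q j, G q j ≤ m0
  rows : LInd κ (fun q => sup (G q) univ)
  cols : LInd κ (fun j => sup (fun q => G q j) univ)
  fr : ∀ q, q ≠ z → F23 κ (G q) (Oc G q)

variable {Ω ι : Type} [Fintype ι] [DecidableEq ι] {m0 : MeasurableSpace Ω} {κ : Measure Ω}
  {G : ι → ι → MeasurableSpace Ω} {z : ι}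

theorem HG5.oc_le (h : HG5 κ G z) (q j : ι) : Oc G q j ≤ m0 := sup_le' fun k _ => h.le k j

theorem HG5.or_le (h : HG5 κ G z) (q j : ι) : Orow G q j ≤ m0 := sup_le' fun k _ => h.le q k

variable [IsProbabilityMeasure κ]

section mult

open K Mult

theorem HG5.mult0 (hG : HG5 κ G z) {q0 q j0 j1 : ι} (h0 : q0 ≠ z) (hz : q ≠ z) (hq : q ≠ q0) (hj : j1 ≠ j0)
    {ρ ρ' : Ω → ℂ} (hρ : BM κ (sup (fun q' => G q' j0) ((univ.erase q0).erase q)) ρ)
    (hρ' : BM κ (sup (fun q' => G q' j0) ((univ.erase q0).erase q)) ρ')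
    {a1 : Ω → ℂ} (ha : BM κ (G q0 j1) a1) (ha' : BM κ (Oc G q0 j1) a1) :
    ∃ A : Ω → ℂ, BM κ (G q0 j1) A ∧ BM κ (Oc G q0 j1) A ∧
      ∀ a : ι → Ω → ℂ, (∀ j, BM κ (G q0 j) (a j)) → (∀ j, BM κ (Oc G q0 j) (a j)) →
        ∫ ω, Cop κ (G q0 j0) (G q j0) ρ ρ' (a j0) ω * a1 ω *
            pr a ((univ.erase j0).erase j1) ω ∂κ =
          ∫ ω, a j0 ω * A ω * pr a ((univ.erase j0).erase j1) ω ∂κ := by
  set S := (univ.erase q0).erase q with hS
  set T := (univ.erase j0).erase j1 with hT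
  have hS' : (univ.erase q).erase q0 = S := erase_right_comm
  have hrow : ∀ k, sup (G k) univ ≤ m0 := fun k => sp_le _ fun j _ => hG.le k j
  have hcol : ∀ j, sup (fun k => G k j) univ ≤ m0 := fun j => sp_le _ fun k _ => hG.le k j
  have hZ : ∀ j, sup (fun k => G k j) S ≤ sup (fun k => sup (G k) univ) S := fun j =>
    sp_le _ fun k hk => (le_sp (G k) (mem_univ j)).trans
      (le_sp (fun k => sup (G k) univ) hk)
  have hC : ∀ j, sup (fun k => G k j) S ≤ sup (fun k => G k j) univ := fun j =>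
    sp_le _ fun k _ => le_sp (fun k => G k j) (mem_univ k)
  have hJ : sup (fun j => sup (fun k => G k j) S) T ≤
      sup (fun j => sup (fun k => G k j) univ) T := sp_le _ fun j hj =>
    (hC j).trans (le_sp (fun j => sup (fun k => G k j) univ) hj)
  have o1 : ∀ j, Oc G q j = G q0 j ⊔ sup (fun k => G k j) S := fun j => sp_erase _ hq
  have o2 : ∀ j, Oc G q0 j = G q j ⊔ sup (fun k => G k j) S := fun j =>
    hS' ▸ sp_erase (fun k => G k j) hq.symm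
  have i0 := hG.rows {q0} S (by simp [hS]) ⟨q, by simp [hq], by simp [hS]⟩
  have iq := hG.rows {q} S (by simp [hS]) ⟨q0, by simp [hq.symm], by simp [hS]⟩
  have k0 := hG.cols {j0} T (by simp [hT]) ⟨j1, by simp [hj], by simp [hT]⟩
  have k1 := hG.cols {j1} T (by simp [hT]) ⟨j0, by simp [hj.symm], by simp [hT]⟩
  rw [sp_one] at i0 iq k0 k1
  obtain ⟨A, hA, e⟩ := multA (c0 := G q0 j0) (d0 := G q j0) (d1 := G q j1) (hrow q0) (hrow q)
    (sp_le _ fun k _ => hrow k) (hcol j0) (hcol j1) (le_sp _ (mem_univ _))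
    (le_sp _ (mem_univ _)) (le_sp _ (mem_univ _)) (le_sp _ (mem_univ _)) (hZ j0) (hZ j1)
    (sp_le (fun j => sup (fun k => G k j) S) (S := T) fun j _ => hZ j)
    (sup_le (le_sp (fun k => G k j0) (mem_univ q)) (hC j0))
    (le_sp (fun k => G k j1) (mem_univ q))
    (sup_le (le_sp (fun k => G k j1) (mem_univ q0)) (hC j1)) i0 iq
    (indep_of_indep_of_le_right k0 hJ) (indep_of_indep_of_le_right k1 hJ)
    (fun w hw => o1 j0 ▸ (hG.fr q hz).f2 j0 w hw) (fun w hw => o1 j1 ▸ (hG.fr q hz).f2 j1 w hw)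
    hρ hρ' ha (o2 j1 ▸ ha')
  refine ⟨κ[A | Oc G q0 j1], (hG.fr q0 h0).f2 j1 A hA, cond hA _, fun a h1 h2 => ?_⟩
  have e1 := e (pr a T) (a j0)
    (K.prod T a fun j _ => K.mono (h1 j) (le_sp _ (mem_univ j)))
    (K.prod T a fun j hj => K.mono (h2 j) (o2 j ▸ sup_le_sup (le_sp _ (mem_univ j))
      (le_sp (fun j => sup (fun k => G k j) S) hj))) (h1 j0) (o2 j0 ▸ h2 j0)
  have e2 := (hG.fr q0 h0).f3 (Function.update a j1 A) (fun k => by
    by_cases c : k = j1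
    · subst c
      simpa using hA
    · simpa [c] using h1 k) j0 j1
  have u0 : Function.update a j1 A j0 = a j0 := Function.update_of_ne hj.symm _ _
  have uT : ∀ x, ∏ k ∈ T, Function.update a j1 A k x = pr a T x := fun x =>
    prod_congr rfl fun k hk => by rw [Function.update_of_ne (ne_of_mem_erase hk)]
  have p0 : ∀ x, pr (Function.update a j1 A) (univ.erase j0) x = A x * pr a T x := fun x => by
    rw [pr, ← mul_prod_erase _ _ (show j1 ∈ univ.erase j0 by simp [hj]), Function.update_self,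
      uT]
  have p1 : ∀ x, pr (Function.update a j1 A) (univ.erase j1) x = a j0 x * pr a T x := fun x => by
    rw [pr, ← mul_prod_erase _ _ (show j0 ∈ univ.erase j1 by simp [hj.symm]), u0,
      erase_right_comm, uT]
  simp only [p0, p1, u0, Function.update_self] at e2
  rw [icongr (K.self ((hG.fr q0 h0).le j0) (h2 j0))] at e2
  rw [e1]
  exact (iring fun x => mul_assoc _ _ _).trans (e2.trans (iring fun x => by ring))

end mult

theorem HG5.gd_CG (h : HG5 κ G z) {q0 j0 q : ι} (h0 : q0 ≠ z) (hq : q ≠ q0) {ρ ρ' : ι → Ω → ℂ}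
    (hρ : ∀ k, BM κ (G k j0) (ρ k)) (hρ' : ∀ k, BM κ (G k j0) (ρ' k)) {a : Ω → ℂ}
    (ha : BM κ m0 a) : Gd κ G q0 j0 (CG κ G q0 j0 q ρ ρ' a) := by
  have h1 : BM κ m0 (pr ρ ((univ.erase q0).erase q)) := BM.pr fun k _ => (hρ k).mono (h.le k j0)
  have h2 : BM κ m0 (pr ρ' ((univ.erase q0).erase q)) := BM.pr fun k _ => (hρ' k).mono (h.le k j0)
  refine ⟨Cop_bm _ _ (h.le q j0) h1 h2 ha, ?_⟩
  refine dual_bm (h.le q0 j0) (h.oc_le q0 j0) ((h.fr q0 h0).f2 j0) (BM.mul ?_ ?_)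
  · exact (BM.pr_sup (p := fun k => G k j0) fun k _ => hρ' k).mono
      (sup_mono' _ (erase_subset _ _))
  · exact ((ha.mul h1).ce (G q j0)).mono
      (le_sup' (fun k => G k j0) (mem_erase.2 ⟨hq, mem_univ q⟩))

theorem HG5.mult (h : HG5 κ G z) {q0 j0 q j1 : ι} (h0 : q0 ≠ z) (hz : q ≠ z) (hq : q ≠ q0)
    (hj : j1 ≠ j0)
    {ρ ρ' : ι → Ω → ℂ} (hρ : ∀ k, BM κ (G k j0) (ρ k)) (hρ' : ∀ k, BM κ (G k j0) (ρ' k))
    {a1 : Ω → ℂ} (ha1 : Gd κ G q0 j1 a1) :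
    ∃ A, Gd κ G q0 j1 A ∧ ∀ (x : Ω → ℂ) (a : ι → Ω → ℂ), Gd κ G q0 j0 x →
      (∀ j, Gd κ G q0 j (a j)) → a j1 = a1 →
      ∫ ω, CG κ G q0 j0 q ρ ρ' x ω * pr a (univ.erase j0) ω ∂κ =
        ∫ ω, x ω * pr (Function.update a j1 A) (univ.erase j0) ω ∂κ := by
  obtain ⟨A, h1, h2, h3⟩ := h.mult0 h0 hz hq hj
    (BM.pr_sup (p := fun k => G k j0) fun k _ => hρ k)
    (BM.pr_sup (p := fun k => G k j0) fun k _ => hρ' k) ha1.1 ha1.2
  refine ⟨A, ⟨h1, h2⟩, fun x a hx ha e => ?_⟩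
  have h4 := h3 (Function.update a j0 x) (fun j => (gd_update ha hx j).1)
    (fun j => (gd_update ha hx j).2)
  rw [Function.update_self, pr_update _ (by simp)] at h4
  simp only [pr_erase _ (mem_erase.2 ⟨hj, mem_univ j1⟩), Function.update_self, e, ← mul_assoc]
  rw [pr_update _ (by simp)]
  exact h4

theorem HG5.cg_perp (h : HG5 κ G z) (hc : 3 ≤ Fintype.card ι) {q0 j0 q : ι} (h0 : q0 ≠ z)
    (hz : q ≠ z) (hq : q ≠ q0)
    {ρ ρ' : ι → Ω → ℂ} (hρ : ∀ k, BM κ (G k j0) (ρ k)) (hρ' : ∀ k, BM κ (G k j0) (ρ' k))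
    {y : Ω → ℂ} (hy : Gd κ G q0 j0 y) (hp : Perp κ (Orow G q0 j0) y) :
    Perp κ (Orow G q0 j0) (CG κ G q0 j0 q ρ ρ' y) := by
  obtain ⟨j1, hj1, -⟩ := exists_third hc j0 j0
  have hle := h.le q0 j0
  have g1 := h.gd_CG h0 hq hρ hρ' (hy.1.mono hle)
  refine perp_pr (h.le q0) (g1.1.mono hle) fun a ha => ?_
  rw [(h.fr q0 h0).all g1.1 g1.2 ha]
  set b : ι → Ω → ℂ := fun k => κ[a k | Oc G q0 k] with hb
  have gb : ∀ k, Gd κ G q0 k (b k) := fun k => ⟨(h.fr q0 h0).f2 k _ (ha k), (ha k).ce _⟩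
  obtain ⟨A, hA, eA⟩ := h.mult h0 hz hq hj1 hρ hρ' (gb j1)
  rw [eA y b hy gb rfl]
  exact hp _ (BM.pr_sup (p := G q0) fun k _ => (gd_update gb hA k).1)

/-- the commutator of two operators is orthogonal to the row -/
theorem HG5.comm_perp (h : HG5 κ G z) (hc : 3 ≤ Fintype.card ι) {q0 j0 q : ι} (h0 : q0 ≠ z)
    (hz : q ≠ z) (hq : q ≠ q0) {ρ ρ' τ τ' : ι → Ω → ℂ} (hρ : ∀ k, BM κ (G k j0) (ρ k))
    (hρ' : ∀ k, BM κ (G k j0) (ρ' k)) (hτ : ∀ k, BM κ (G k j0) (τ k))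
    (hτ' : ∀ k, BM κ (G k j0) (τ' k)) {c : Ω → ℂ} (hc1 : Gd κ G q0 j0 c) :
    Perp κ (Orow G q0 j0) (fun ω => CG κ G q0 j0 q ρ ρ' (CG κ G q0 j0 q τ τ' c) ω -
      CG κ G q0 j0 q τ τ' (CG κ G q0 j0 q ρ ρ' c) ω) := by
  obtain ⟨j1, hj1, -⟩ := exists_third hc j0 j0
  obtain ⟨j2, hj2, hj12⟩ := exists_third hc j0 j1
  have hle := h.le q0 j0
  have g1 := h.gd_CG h0 hq hρ hρ' (hc1.1.mono hle)
  have g2 := h.gd_CG h0 hq hτ hτ' (hc1.1.mono hle)
  have g3 := h.gd_CG h0 hq hρ hρ' (g2.1.mono hle)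
  have g4 := h.gd_CG h0 hq hτ hτ' (g1.1.mono hle)
  refine perp_pr (h.le q0) ((g3.1.sub g4.1).mono hle) fun a ha => ?_
  rw [(h.fr q0 h0).all (g3.1.sub g4.1) (g3.2.sub g4.2) ha]
  set b : ι → Ω → ℂ := fun k => κ[a k | Oc G q0 k] with hb
  have gb : ∀ k, Gd κ G q0 k (b k) := fun k => ⟨(h.fr q0 h0).f2 k _ (ha k), (ha k).ce _⟩
  obtain ⟨A, hA, eA⟩ := h.mult h0 hz hq hj1 hρ hρ' (gb j1)
  obtain ⟨B, hB, eB⟩ := h.mult h0 hz hq hj2 hτ hτ' (gb j2)
  rw [int_sub_mul (g3.1.mono hle) (g4.1.mono hle) (BM.pr fun k _ => (gb k).1.mono (h.le q0 k)),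
    eA _ b g2 gb rfl, eB _ _ hc1 (gd_update gb hA) (Function.update_of_ne hj12 _ _),
    eB _ b g1 gb rfl, eA _ _ hc1 (gd_update gb hB) (Function.update_of_ne hj12.symm _ _),
    Function.update_comm hj12, sub_self]

open Rank1 in
/-- the partner of `v` at the point `q` -/
lemma one5 {p : ι → MeasurableSpace Ω} (hle : ∀ j, p j ≤ m0) (hI : LInd κ p)
    (h3 : 3 ≤ Fintype.card ι) {i0 q : ι} (hq : q ≠ i0)
    (hf2 : ∀ a, BM κ (p q) a → BM κ (p q) (κ[a | sup p (univ.erase q)])) {v : Ω → ℂ}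
    (hv : BM κ (p i0) v) (hv' : BM κ (sup p (univ.erase i0)) v) (h0 : ¬ ∀ᵐ ω ∂κ, v ω = 0)
    (hE : ∀ ρ ρ' : ι → Ω → ℂ, (∀ k, BM κ (p k) (ρ k)) → (∀ k, BM κ (p k) (ρ' k)) →
      ∃ lam : ℂ, ∀ᵐ ω ∂κ, Cop κ (p i0) (p q) (pr ρ ((univ.erase i0).erase q))
        (pr ρ' ((univ.erase i0).erase q)) v ω = lam * v ω) :
    ∃ b η : Ω → ℂ, BM κ (p q) b ∧ BM κ (sup p ((univ.erase i0).erase q)) η ∧
      (∀ᵐ ω ∂κ, ‖b ω‖ = 1) ∧ (∀ᵐ ω ∂κ, v ω * b ω = η ω) ∧
      ∃ c : ℝ, 0 < c ∧ ∀ᵐ ω ∂κ, ‖v ω‖ = c := by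
  have le0 : ∀ S : Finset ι, sup p S ≤ m0 := fun S => sup_le' fun j _ => hle j
  have ind1 : ∀ {j q : ι} {T : Finset ι}, j ∉ T → q ∉ T → q ≠ j → Indep (p j) (sup p T) κ := by
    intro j q T hj hq h
    rw [← sup_singleton' p j]
    exact hI _ _ (disjoint_singleton_left.2 hj) ⟨q, by simpa using h, hq⟩
  set Z := (univ.erase i0).erase q with hZ
  have hi := hle i0
  have hp := hle q
  have hz := le0 Z
  have hv0 := hv.mono hi
  have iZ : i0 ∉ Z := by simp [hZ]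
  have qZ : q ∉ Z := by simp [hZ]
  have s1 : sup p (univ.erase i0) = p q ⊔ sup p Z := sup_erase' p (by simpa using hq)
  have s2 : sup p (univ.erase q) = p i0 ⊔ sup p Z := by
    rw [hZ, erase_right_comm]
    exact sup_erase' p (by simpa using hq.symm)
  obtain ⟨ρ, hρ, hb0⟩ : ∃ ρ : ι → Ω → ℂ, (∀ k, BM κ (p k) (ρ k)) ∧
      ¬ ∀ᵐ ω ∂κ, (κ[fun ω => v ω * pr ρ Z ω | p q]) ω = 0 := by
    by_contra h
    push Not at h
    refine h0 (Perp.eq_zero ?_ (le0 _) hv')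
    rw [s1]
    refine perp_sup_pr hp hle hv0 fun a ρ ha hρ => ?_
    rw [← perp_of_ce hp (hv0.mul ((BM.pr_sup fun k _ => hρ k).mono hz)) (h ρ hρ) a ha]
    exact integral_congr_ae (Eventually.of_forall fun ω => by ring)
  set b := κ[fun ω => v ω * pr ρ Z ω | p q] with hb
  have hρZ : BM κ (sup p Z) (pr ρ Z) := BM.pr_sup fun k _ => hρ k
  have hbq : BM κ (p q) b := (hv0.mul (hρZ.mono hz)).ce _
  have hb' : BM κ (p i0 ⊔ sup p Z) b := by
    rw [← s2]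
    refine dual_bm hp (le0 _) hf2 ?_
    rw [s2]
    exact (hv.mono le_sup_left).mul (hρZ.mono le_sup_right)
  have hb1 := hbq.mono hp
  have hN : ∫ ω, v ω * (starRingEnd ℂ) (v ω) ∂κ ≠ 0 := fun h => h0 (eq_zero_of_int_conj hv0 h)
  set N := ∫ ω, v ω * (starRingEnd ℂ) (v ω) ∂κ with hNd
  have hvb := hv0.conj.mul hb1
  set η : Ω → ℂ := fun ω => N⁻¹ * (κ[fun ω => (starRingEnd ℂ) (v ω) * b ω | sup p Z]) ω with hη
  have hηZ : BM κ (sup p Z) η := (hvb.ce _).cmul _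
  have I1 : Indep (p i0) (sup p Z) κ := ind1 iZ qZ hq
  have I2 : Indep (p q) (sup p Z) κ := ind1 qZ iZ hq.symm
  have I3 : Indep (p q) (p i0) κ := by
    have hc : 0 < Z.card := by
      rw [hZ, card_erase_of_mem (by simpa using hq), card_erase_of_mem (mem_univ _), card_univ]
      omega
    obtain ⟨k, hk⟩ := card_pos.1 hc
    rw [← sup_singleton' p i0]
    exact ind1 (q := k) (by simpa using hq) (by simpa using (mem_erase.1 (mem_erase.1 hk).2).1)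
      (mem_erase.1 hk).1
  have hvη : BM κ (p i0 ⊔ sup p Z) fun ω => v ω * η ω :=
    (hv.mono le_sup_left).mul (hηZ.mono le_sup_right)
  have key : ∀ᵐ ω ∂κ, b ω - v ω * η ω = 0 := by
    refine Perp.eq_zero (perp_sup_pr hi hle (hb1.sub (hvη.mono (sup_le hi hz)))
      fun a ρ' ha hρ' => ?_) (sup_le hi hz) (hb'.sub hvη)
    have hρZ' : BM κ (sup p Z) (pr ρ' Z) := BM.pr_sup fun k _ => hρ' k
    obtain ⟨lam, hl⟩ := hE ρ ρ' hρ hρ'
    have e1 : ∀ u : Ω → ℂ, BM κ (p i0) u →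
        ∫ ω, b ω * (u ω * pr ρ' Z ω) ∂κ = lam * ∫ ω, v ω * u ω ∂κ := fun u hu => by
      have := int_ce_mul hi ((hρZ'.mono hz).mul hb1) hu
      rw [← integral_const_mul]
      refine (integral_congr_ae (Eventually.of_forall fun ω => by ring)).trans
        (this.symm.trans (integral_congr_ae ?_))
      filter_upwards [hl] with ω hω
      rw [← mul_assoc, ← hω]
      rfl
    have e2 : ∫ ω, η ω * pr ρ' Z ω ∂κ = lam := by
      simp only [hη, mul_assoc]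
      rw [integral_const_mul, int_ce_mul hz hvb hρZ', inv_mul_eq_iff_eq_mul₀ hN, mul_comm N, hNd,
        ← e1 _ hv.conj]
      exact integral_congr_ae (Eventually.of_forall fun ω => by ring)
    rw [int_sub_mul hb1 (hvη.mono (sup_le hi hz)) ((ha.mono hi).mul (hρZ'.mono hz)), e1 a ha,
      sub_eq_zero, mul_comm, ← e2, ← int_mul_indep hi hz I1 (hv.mul ha) (hηZ.mul hρZ')]
    exact integral_congr_ae (Eventually.of_forall fun ω => by ring)
  have hz0 : ∫ ω, b ω * (starRingEnd ℂ) (b ω) ∂κ ≠ 0 := fun h => hb0 (eq_zero_of_int_conj hb1 h)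
  have ez : ∀ᵐ ω ∂κ, b ω * (starRingEnd ℂ) (b ω) =
      (v ω * (starRingEnd ℂ) (v ω)) * (η ω * (starRingEnd ℂ) (η ω)) := by
    filter_upwards [key] with ω hω
    rw [sub_eq_zero.1 hω, map_mul]
    ring
  obtain ⟨cx, hx0, hx⟩ := cst hi hz hp I1.symm I3 (hv.mul hv.conj) (hηZ.mul hηZ.conj)
    (hbq.mul hbq.conj) ez hz0
  obtain ⟨cy, hy0, hy⟩ := cst hz hi hp I1 I2 (hηZ.mul hηZ.conj) (hv.mul hv.conj)
    (hbq.mul hbq.conj) (ez.mono fun ω h => h.trans (mul_comm _ _)) hz0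
  have hs : 0 < Real.sqrt ‖cx * cy‖ := Real.sqrt_pos.2 (norm_pos_iff.2 (mul_ne_zero hx0 hy0))
  refine ⟨fun ω => ((Real.sqrt ‖cx * cy‖ : ℝ) : ℂ)⁻¹ * (starRingEnd ℂ) (b ω),
    fun ω => (((Real.sqrt ‖cx * cy‖ : ℝ) : ℂ)⁻¹ * cx) * (starRingEnd ℂ) (η ω), hbq.conj.cmul _,
    hηZ.conj.cmul _, ?_, ?_, _, Real.sqrt_pos.2 (norm_pos_iff.2 hx0), hx.mono fun ω => norm_of⟩
  · filter_upwards [ez, hx, hy] with ω a b c
    rw [b, c] at a
    rw [norm_mul, Complex.norm_conj, norm_of a, norm_inv, Complex.norm_real,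
      Real.norm_of_nonneg hs.le, inv_mul_cancel₀ hs.ne']
  · filter_upwards [key, hx] with ω a b
    rw [sub_eq_zero.1 a, map_mul, ← b]
    ring

end T5F

end PkFSpanA

section PkFSpanB

/-! FSPAN with a free row: the main statement. -/

set_option autoImplicit false

open MeasureTheory ProbabilityTheory Finset Filter

namespace T5F

open Fib27 T3F

variable {Ω ι : Type} [Fintype ι] [DecidableEq ι] {m0 : MeasurableSpace Ω} {κ : Measure Ω}
  {G : ι → ι → MeasurableSpace Ω} {z : ι}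

theorem erase_two (hc : Fintype.card ι = 3) {a b c : ι} (hab : b ≠ a) (hca : c ≠ a) (hcb : c ≠ b) :
    ((univ : Finset ι).erase a).erase b = {c} := by
  have h1 : (((univ : Finset ι).erase a).erase b).card = 1 := by
    rw [card_erase_of_mem (by simpa using hab), card_erase_of_mem (mem_univ _), card_univ, hc]
  obtain ⟨x, hx⟩ := card_eq_one.1 h1
  have h2 : c ∈ ((univ : Finset ι).erase a).erase b := by simp [hca, hcb]
  rw [hx] at h2 ⊢
  rw [mem_singleton.1 h2]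

variable [IsProbabilityMeasure κ]

/-- a function that is determined by its column and orthogonal to the functions of that kind that
are orthogonal to the row correlates with a member of a column tuple -/
theorem fspan5 (h : HG5 κ G z) (hc3 : Fintype.card ι = 3) {q0 j0 : ι} (h0 : q0 ≠ z) {f : Ω → ℂ}
    (hf : BM κ (G q0 j0) f) (hfc : BM κ (Oc G q0 j0) f)
    (hfr : ∀ y, Gd κ G q0 j0 y → Perp κ (Orow G q0 j0) y → ∫ ω, f ω * y ω ∂κ = 0)
    (hne : ¬ ∀ᵐ ω ∂κ, f ω = 0) : ∃ χ : ι → Ω → ℂ, Tup κ (fun k => G k j0) χ ∧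
      ∫ ω, f ω * (starRingEnd ℂ) (χ q0 ω) ∂κ ≠ 0 := by
  by_contra hcon0
  push Not at hcon0
  have hc : 3 ≤ Fintype.card ι := hc3.ge
  have hle := h.le q0 j0
  have hcol : ∀ k, G k j0 ≤ m0 := fun k => h.le k j0
  have hL : LInd κ (fun q => G q j0) := h.rows.mono fun q => le_sup' (G q) (mem_univ j0)
  obtain ⟨q1, hq1, hqz⟩ := exists_third hc q0 z
  obtain ⟨ρ1, hρ1, hne1⟩ : ∃ ρ : ι → Ω → ℂ, (∀ k, BM κ (G k j0) (ρ k)) ∧ ¬ ∀ᵐ ω ∂κ,
      (κ[fun ω => f ω * pr ρ ((univ.erase q0).erase q1) ω | G q1 j0]) ω = 0 := by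
    by_contra hcon
    push Not at hcon
    have hp := perp_sup_pr (p := fun k => G k j0) (S := (univ.erase q0).erase q1) (hcol q1) hcol
      (hf.mono hle) fun a ρ ha hρ => by
        have := perp_of_ce (hcol q1) ((hf.mono hle).mul (BM.pr fun k _ => (hρ k).mono (hcol k)))
          (hcon ρ hρ) a ha
        rw [← this]
        exact integral_congr_ae (Eventually.of_forall fun ω => by simp only; ring)
    rw [← sup_erase' (fun k => G k j0) (mem_erase.2 ⟨hq1, mem_univ q1⟩)] at hp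
    exact hne (hp.eq_zero (h.oc_le q0 j0) hfc)
  let T := {τ : (ι → Ω → ℂ) × (ι → Ω → ℂ) //
    (∀ k, BM κ (G k j0) (τ.1 k)) ∧ ∀ k, BM κ (G k j0) (τ.2 k)}
  let N1 := {χ : ι → Ω → ℂ // Tup κ (fun k => G k j0) χ}
  let N2 := {y : Ω → ℂ // Gd κ G q0 j0 y ∧ Perp κ (Orow G q0 j0) y}
  let w : N1 ⊕ N2 → Ω → ℂ := Sum.elim (fun n => n.1 q0) fun n => n.1
  have hw : ∀ n, BM κ (G q0 j0) (w n) := by
    rintro (n | n)
    · exact n.2.bm q0
    · exact n.2.1.1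
  have inv : ∀ (ρ ρ' : ι → Ω → ℂ), (∀ k, BM κ (G k j0) (ρ k)) → (∀ k, BM κ (G k j0) (ρ' k)) →
      ∀ a, BM κ (G q0 j0) a → (∀ n, ∫ ω, a ω * w n ω ∂κ = 0) →
      ∀ n, ∫ ω, CG κ G q0 j0 q1 ρ ρ' a ω * w n ω ∂κ = 0 := by
    intro ρ ρ' hρ hρ' a h1 h2 n
    refine (Cop_symm hle (hcol q1) (BM.pr fun k _ => (hρ k).mono (hcol k))
      (BM.pr fun k _ => (hρ' k).mono (hcol k)) h1 (hw n)).trans ?_
    rcases n with n | n
    · obtain ⟨lam, e⟩ := tup_eig n.2 hcol hL hq1 hρ' hρ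
      refine (Mult.icongr e a).trans ?_
      have : ∫ ω, lam * n.1 q0 ω * a ω ∂κ = lam * ∫ ω, a ω * n.1 q0 ω ∂κ := by
        rw [← integral_const_mul]
        exact Mult.iring fun ω => by ring
      rw [this]
      exact mul_eq_zero_of_right _ (h2 (Sum.inl n))
    · have := h2 (Sum.inr ⟨CG κ G q0 j0 q1 ρ' ρ n.1, h.gd_CG h0 hq1 hρ' hρ (n.2.1.1.mono hle),
        h.cg_perp hc h0 hqz hq1 hρ' hρ n.2.1 n.2.2⟩)
      rw [← this]
      exact Mult.iring fun ω => mul_comm _ _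
  obtain ⟨v, ⟨hv1, hv2, hv3⟩, hv0, hv⟩ := eig2 (T := T) (N := N1 ⊕ N2) (S := Unit) (m := G q0 j0)
    (fun _ => G q1 j0) (fun _ => Oc G q0 j0) w (fun τ => pr τ.1.1 ((univ.erase q0).erase q1))
    (fun τ => pr τ.1.2 ((univ.erase q0).erase q1))
    (fun a => BM κ (G q0 j0) a ∧ (∀ n, ∫ ω, a ω * w n ω ∂κ = 0) ∧
      ∀ _ : Unit, BM κ (Oc G q0 j0) a) hle
    (fun _ => hcol _) (fun _ => h.oc_le q0 j0)
    (fun _ => hL.pair hq1.symm h0.symm hqz.symm)
    (fun τ => BM.pr fun k _ => (τ.2.1 k).mono (hcol k))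
    (fun τ => BM.pr fun k _ => (τ.2.2 k).mono (hcol k)) (fun n => (hw n).mono hle)
    (fun a => Iff.rfl)
    (by
      rintro ⟨⟨ρ, ρ'⟩, hρ, hρ'⟩ a ⟨h1, h2, h3⟩
      have g := h.gd_CG h0 hq1 hρ hρ' (h1.mono hle)
      exact ⟨g.1, inv ρ ρ' hρ hρ' a h1 h2, fun _ => g.2⟩)
    (by
      rintro ⟨⟨ρ, ρ'⟩, hρ, hρ'⟩ ⟨⟨τ, τ'⟩, hτ, hτ'⟩ a ⟨h1, h2, h3⟩
      have g1 := h.gd_CG h0 hq1 hρ hρ' (h1.mono hle)
      have g2 := h.gd_CG h0 hq1 hτ hτ' (h1.mono hle)
      have g3 := h.gd_CG h0 hq1 hρ hρ' (g2.1.mono hle)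
      have g4 := h.gd_CG h0 hq1 hτ hτ' (g1.1.mono hle)
      have hp := h.comm_perp hc h0 hqz hq1 hρ hρ' hτ hτ' ⟨h1, h3 ()⟩
      let n : N1 ⊕ N2 := Sum.inr ⟨_, ⟨(g3.1.sub g4.1).conj, (g3.2.sub g4.2).conj⟩, perp_conj hp⟩
      have e3 := inv ρ ρ' hρ hρ' _ g2.1 (inv τ τ' hτ hτ' a h1 h2) n
      have e4 := inv τ τ' hτ hτ' _ g1.1 (inv ρ ρ' hρ hρ' a h1 h2) n
      have e5 := eq_zero_of_int_conj ((g3.1.sub g4.1).mono hle) (by
        refine (int_sub_mul (g3.1.mono hle) (g4.1.mono hle) ((hw n).mono hle)).trans ?_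
        rw [e3, e4, sub_self])
      filter_upwards [e5] with ω hω
      exact sub_eq_zero.1 hω)
    ⟨(ρ1, fun k ω => (starRingEnd ℂ) (ρ1 k ω)), hρ1, fun k => (hρ1 k).conj⟩ f
    (fun ω => pr_conj _ _ ω)
    ⟨hf, by
      rintro (n | n)
      · have := hcon0 _ (tup_conj n.2)
        simp only [Complex.conj_conj] at this
        exact this
      · exact hfr n.1 n.2.1 n.2.2, fun _ => hfc⟩ hne1
  obtain ⟨b, η, hb, hη, hb1, e, c, hc0, hvc⟩ := one5 (p := fun k => G k j0) hcol hL hc hq1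
    ((h.fr q1 hqz).f2 j0) hv1 (hv3 ()) hv0 fun ρ ρ' hρ hρ' => hv ⟨(ρ, ρ'), hρ, hρ'⟩
  have hZ := erase_two hc3 hq1 h0.symm hqz.symm
  rw [hZ, sup_singleton'] at hη
  have hcc : (c : ℂ) ≠ 0 := by exact_mod_cast hc0.ne'
  have hn : ∀ x : ℂ, ‖x‖ = c → ‖(c : ℂ)⁻¹ * x‖ = 1 := fun x hx => by
    rw [norm_mul, hx, norm_inv, Complex.norm_real, Real.norm_of_nonneg hc0.le,
      inv_mul_cancel₀ hc0.ne']
  let χ : ι → Ω → ℂ := fun k => if k = q0 then fun ω => (c : ℂ)⁻¹ * v ω else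
    if k = q1 then b else fun ω => (c : ℂ)⁻¹ * (starRingEnd ℂ) (η ω)
  have c0 : χ q0 = fun ω => (c : ℂ)⁻¹ * v ω := if_pos rfl
  have c1 : χ q1 = b := (if_neg hq1).trans (if_pos rfl)
  have c2 : χ z = fun ω => (c : ℂ)⁻¹ * (starRingEnd ℂ) (η ω) :=
    (if_neg h0.symm).trans (if_neg hqz.symm)
  have all : ∀ k, k = q0 ∨ k = q1 ∨ k = z := fun k => by
    by_cases a0 : k = q0
    · exact Or.inl a0
    by_cases a1 : k = q1
    · exact Or.inr (Or.inl a1)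
    have : k ∈ ((univ : Finset ι).erase q0).erase q1 := by simp [a0, a1]
    rw [hZ] at this
    exact Or.inr (Or.inr (mem_singleton.1 this))
  have hηc : ∀ᵐ ω ∂κ, ‖η ω‖ = c := by
    filter_upwards [e, hb1, hvc] with ω a1 a2 a3
    rw [← a1, norm_mul, a2, a3, mul_one]
  have hχ : Tup κ (fun k => G k j0) χ := by
    refine ⟨fun k => ?_, fun k => ?_, 1, ?_⟩
    · rcases all k with rfl | rfl | rfl
      · rw [c0]; exact (hv1.cmul _).1
      · rw [c1]; exact hb.1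
      · rw [c2]; exact (hη.conj.cmul _).1
    · rcases all k with rfl | rfl | rfl
      · rw [c0]; exact hvc.mono fun ω hω => hn _ hω
      · rw [c1]; exact hb1
      · rw [c2]; exact hηc.mono fun ω hω => hn _ (by rw [Complex.norm_conj, hω])
    · filter_upwards [e, hηc] with ω a1 a2
      rw [← mul_prod_erase _ _ (mem_univ q0), ← mul_prod_erase _ _
        (show q1 ∈ univ.erase q0 by simp [hq1]), hZ, prod_singleton, c0, c1, c2]
      have a3 : η ω * (starRingEnd ℂ) (η ω) = (c : ℂ) * c := by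
        rw [Complex.mul_conj, Complex.normSq_eq_norm_sq, a2]
        push_cast
        ring
      have a4 : (c : ℂ)⁻¹ * v ω * (b ω * ((c : ℂ)⁻¹ * (starRingEnd ℂ) (η ω))) =
          (c : ℂ)⁻¹ * (c : ℂ)⁻¹ * ((v ω * b ω) * (starRingEnd ℂ) (η ω)) := by ring
      rw [a4, a1, a3]
      field_simp
  have e2 : ∫ ω, v ω * (starRingEnd ℂ) (χ q0 ω) ∂κ = 0 := hv2 (Sum.inl ⟨_, tup_conj hχ⟩)
  simp only [c0, map_mul] at e2
  refine hv0 (eq_zero_of_int_conj (hv1.mono hle) ?_)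
  have e3 : ∫ ω, v ω * ((starRingEnd ℂ) (c : ℂ)⁻¹ * (starRingEnd ℂ) (v ω)) ∂κ =
      (starRingEnd ℂ) (c : ℂ)⁻¹ * ∫ ω, v ω * (starRingEnd ℂ) (v ω) ∂κ := by
    rw [← integral_const_mul]
    exact Mult.iring fun ω => by ring
  rw [e3] at e2
  exact (mul_eq_zero.1 e2).resolve_left (by simpa using hc0.ne')

/-- the dual function of a row product with one factor that is determined by its column is
determined by its column -/
theorem HG5.dual_gd (h : HG5 κ G z) {q0 j0 j1 : ι} (h0 : q0 ≠ z) (hj : j1 ≠ j0) {b : ι → Ω → ℂ}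
    (hb : ∀ k, BM κ (G q0 k) (b k)) (hb1 : BM κ (Oc G q0 j1) (b j1)) :
    Gd κ G q0 j0 (κ[pr b (univ.erase j0) | G q0 j0]) := by
  have hle := h.le q0 j0
  have hO := h.oc_le q0 j0
  have hp : BM κ m0 (pr b (univ.erase j0)) := BM.pr fun k _ => (hb k).mono (h.le q0 k)
  have hy := hp.ce (G q0 j0)
  refine ⟨hy, (hy.ce (Oc G q0 j0)).congr
    (ae_eq_of_tests hle ((h.fr q0 h0).f2 j0 _ hy) hy fun c hc => ?_)⟩
  rw [int_ce_symm hO (hy.mono hle) (hc.mono hle), int_ce_mul hle hp ((h.fr q0 h0).f2 j0 c hc),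
    int_ce_mul hle hp hc]
  have e := (h.fr q0 h0).move hj hc (hb j1) hb
  simp only [pr_erase b (mem_erase.2 ⟨hj, mem_univ j1⟩)]
  refine (Mult.iring fun ω => mul_comm _ _).trans (e.trans (integral_congr_ae ?_))
  filter_upwards [hb1.ce_self (h.oc_le q0 j1)] with ω hω
  rw [hω, mul_comm]

/-- FSPAN for dual functions -/
theorem fspanD (h : HG5 κ G z) (hc3 : Fintype.card ι = 3) {q0 j0 j1 : ι} (h0 : q0 ≠ z)
    (hj : j1 ≠ j0) {b : ι → Ω → ℂ} (hb : ∀ k, BM κ (G q0 k) (b k))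
    (hb1 : BM κ (Oc G q0 j1) (b j1)) {f : Ω → ℂ} (hf : f =ᵐ[κ] κ[pr b (univ.erase j0) | G q0 j0])
    (hne : ¬ f =ᵐ[κ] 0) :
    ∃ v, Mem κ (fun q => G q j0) q0 v ∧ ∫ x, f x * (starRingEnd ℂ) (v x) ∂κ ≠ 0 := by
  have hg := h.dual_gd h0 hj hb hb1
  have hp : BM κ m0 (pr b (univ.erase j0)) := BM.pr fun k _ => (hb k).mono (h.le q0 k)
  obtain ⟨χ, h1, h2⟩ := fspan5 h hc3 h0 (hg.1.congr hf.symm) (hg.2.congr hf.symm)
    (fun y hy hy' => by
      rw [Mult.icongr hf y, int_ce_mul (h.le q0 j0) hp hy.1,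
        ← hy' _ (BM.pr_sup (p := G q0) fun k _ => hb k)]
      exact Mult.iring fun ω => mul_comm _ _) hne
  exact ⟨χ q0, ⟨χ, h1, rfl⟩, h2⟩

end T5F

end PkFSpanB

section PkGGz

/-! From the global grid with a free row to the fibres and back. -/

set_option autoImplicit false
set_option linter.unusedVariables false
set_option warn.classDefReducibility false

open MeasureTheory ProbabilityTheory Filter Topology Function Finset ComplexConjugate
open scoped BigOperators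
open Fib27 (BM sup pr Oc Orow F23 LInd Mem)
open Pool.Agent.MP_154433_an.SG hiding PC

noncomputable section

namespace T5x

open T3x

/-- a grid over a base with F2 and F3 in the rows other than `z` -/
structure HGz {Ω ι : Type} [Fintype ι] [DecidableEq ι] (β : MeasurableSpace Ω)
    (G : ι → ι → MeasurableSpace Ω) (z : ι) {m0 : MeasurableSpace Ω} (μ : Measure Ω) : Prop where
  le : ∀ q j, G q j ≤ m0
  ble : β ≤ m0
  rows : CLine β (fun q => sup (G q) univ) μ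
  cols : CLine β (fun j => sup (fun q => G q j) univ) μ
  f2c : ∀ q, q ≠ z → ∀ j a, BM μ (G q j) a → BM μ (G q j ⊔ β) (μ[a | Oc G q j ⊔ β])
  f3 : ∀ q, q ≠ z → ∀ (a : ι → Ω → ℂ) (ψ : Ω → ℂ), (∀ k, BM μ (G q k) (a k)) → BM μ β ψ → ∀ j j',
    ∫ x, ψ x * ((μ[a j | Oc G q j ⊔ β]) x * pr a (univ.erase j) x) ∂μ =
      ∫ x, ψ x * ((μ[a j' | Oc G q j' ⊔ β]) x * pr a (univ.erase j') x) ∂μ

/-- `h` is the dual function at `(q, j)` of a row product with a factor that is determined by its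
column -/
def DV {Ω ι : Type} [Fintype ι] [DecidableEq ι] (β : MeasurableSpace Ω)
    (G : ι → ι → MeasurableSpace Ω) (q j : ι) {m0 : MeasurableSpace Ω} (μ : Measure Ω)
    (h : Ω → ℂ) : Prop :=
  ∃ (j1 : ι) (b : ι → Ω → ℂ), j1 ≠ j ∧ (∀ k, BM μ (G q k ⊔ β) (b k)) ∧
    BM μ (Oc G q j1 ⊔ β) (b j1) ∧ h =ᵐ[μ] μ[pr b (univ.erase j) | G q j ⊔ β]

def GGzS : Prop := ∀ {Ω ι : Type} [Fintype ι] [DecidableEq ι] (β : MeasurableSpace Ω)
  (G : ι → ι → MeasurableSpace Ω) (z q j : ι) {m0 : MeasurableSpace Ω} (μ : Measure Ω)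
  [IsProbabilityMeasure μ] (h : Ω → ℂ) (C : ℝ), HGz β G z μ → Fintype.card ι = 3 → q ≠ z →
  DV β G q j μ h → 0 ≤ C → (∀ᵐ x ∂μ, ‖h x‖ ≤ C) → ¬ h =ᵐ[μ] 0 →
  ∃ (v : ℕ → ι → Ω → ℂ) (v0 : ι → Ω → ℂ) (η : ℝ), (∀ i k, Lb (G k j) μ (v i k)) ∧
    (∀ k, Lb (G k j) μ (v0 k)) ∧ 0 < η ∧ η ≤ 1 / 100 ∧
    μ (DS β μ v v0 η ∩ {x | C * η < ‖(μ[fun y => h y * conj (v0 q y) | β]) x‖}) ≠ 0

namespace GGz

open T3x.GA T3x.GG3r

variable {Ω ι : Type} [Fintype ι] [DecidableEq ι]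

/-- the closed countable family -/
lemma fam (β : MeasurableSpace Ω) (G : ι → ι → MeasurableSpace Ω) (z q j j1 : ι)
    {m0 : MeasurableSpace Ω} (μ : Measure Ω) [IsProbabilityMeasure μ] (h : Ω → ℂ)
    (b : ι → Ω → ℂ) (hG : HGz β G z μ) (hh : BM μ (G q j ⊔ β) h)
    (hb : ∀ k, BM μ (G q k ⊔ β) (b k)) (hb1 : BM μ (Oc G q j1 ⊔ β) (b j1)) :
    ∃ S : Set ((ι × ι) × Set Ω), S.Countable ∧ S ⊆ ok G ∧ (∀ p, (p, Set.univ) ∈ S) ∧
      (BM μ (g S q j ⊔ β) h ∧ (∀ k, BM μ (g S q k ⊔ β) (b k)) ∧ BM μ (Oc (g S) q j1 ⊔ β) (b j1)) ∧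
      (∀ q j, IsPiSystem (at' S q j)) ∧ ∀ q j, q ≠ z → ∀ s ∈ at' S q j,
      AEStronglyMeasurable[F1 β q j S] (μ[s.indicator fun _ => (1 : ℂ) | Oc G q j ⊔ β]) μ ∧
      AEStronglyMeasurable[F2 β q j S] (μ[s.indicator fun _ => (1 : ℂ) | Oc G q j ⊔ β]) μ := by
  have mo : ∀ (Φ : Set ((ι × ι) × Set Ω) → MeasurableSpace Ω) (hΦ : Monotone Φ) (f : Ω → ℂ),
      ∀ S S', S ⊆ S' → AEStronglyMeasurable[Φ S] f μ → AEStronglyMeasurable[Φ S'] f μ :=
    fun Φ hΦ f S S' e e' => e'.mono (hΦ e)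
  have hall : ∃ S : Set ((ι × ι) × Set Ω), S.Countable ∧ S ⊆ ok G ∧
      ∀ k, AEStronglyMeasurable[F1 β q k S] (b k) μ := by
    choose S c o v using fun k => fnC (ok G) _ (F1_mono β q k) μ (le1 G β q k) (b k) (hb k).1
    exact ⟨⋃ k, S k, Set.countable_iUnion c, Set.iUnion_subset o,
      fun k => mo _ (F1_mono β q k) _ _ _ (Set.subset_iUnion S k) (v k)⟩
  obtain ⟨S0, c0, o0, u0, v1, v2, v3⟩ := both (ok := ok G)
    (Q := fun S => ∀ p : ι × ι, (p, Set.univ) ∈ S) (fun S S' e e' p => e (e' p))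
    (fun S S' e e' => ⟨mo _ (F1_mono β q j) h S S' e e'.1,
      fun k => mo _ (F1_mono β q k) _ S S' e (e'.2.1 k), mo _ (F2_mono β q j1) _ S S' e e'.2.2⟩)
    ⟨Set.range fun p : ι × ι => (p, Set.univ), Set.countable_range _, by
      rintro _ ⟨p, rfl⟩
      exact @MeasurableSet.univ _ (G p.1 p.2), fun p => ⟨p, rfl⟩⟩
    (both (mo _ (F1_mono β q j) h)
      (fun S S' e e' => ⟨fun k => mo _ (F1_mono β q k) _ S S' e (e'.1 k),
        mo _ (F2_mono β q j1) _ S S' e e'.2⟩)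
      (fnC (ok G) _ (F1_mono β q j) μ (le1 G β q j) h hh.1)
      (both (fun S S' e e' k => mo _ (F1_mono β q k) _ S S' e (e' k)) (mo _ (F2_mono β q j1) _)
        hall (fnC (ok G) _ (F2_mono β q j1) μ (le2 G β q j1) _ hb1.1)))
  let ec : (ι × ι) × Set Ω → Ω → ℂ := fun a =>
    μ[a.2.indicator fun _ => (1 : ℂ) | Oc G a.1.1 a.1.2 ⊔ β]
  let Pc : (ι × ι) × Set Ω → Set ((ι × ι) × Set Ω) → Prop := fun a S => a.1.1 ≠ z →
    AEStronglyMeasurable[F1 β a.1.1 a.1.2 S] (ec a) μ ∧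
      AEStronglyMeasurable[F2 β a.1.1 a.1.2 S] (ec a) μ
  have mc : ∀ a S S', S ⊆ S' → Pc a S → Pc a S' := fun a S S' e e' u =>
    ⟨mo _ (F1_mono β _ _) _ S S' e (e' u).1, mo _ (F2_mono β _ _) _ S S' e (e' u).2⟩
  obtain ⟨S, c, o, s0, cl⟩ := CntR.closure (ok G)
    (fun a a' S => (a'.1 = a.1 → (a.1, a.2 ∩ a'.2) ∈ S) ∧ Pc a S)
    (fun a a' S S' e e' => ⟨fun u => e (e'.1 u), mc a S S' e e'.2⟩)
    (fun a ha a' ha' => by
      have hi : BM μ (G a.1.1 a.1.2) (a.2.indicator fun _ => (1 : ℂ)) := BM.indicator ha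
      refine both (fun S S' e e' u => e (e' u)) (mc a) ?_ ?_
      · by_cases u : a'.1 = a.1
        · refine ⟨{(a.1, a.2 ∩ a'.2)}, Set.countable_singleton _, Set.singleton_subset_iff.2 ?_,
            fun _ => rfl⟩
          have h2 : MeasurableSet[G a.1.1 a.1.2] a'.2 := by rw [← u]; exact ha'
          exact MeasurableSet.inter (m := G a.1.1 a.1.2) ha h2
        · exact ⟨∅, Set.countable_empty, Set.empty_subset _, fun u' => absurd u' u⟩
      · by_cases u : a.1.1 = z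
        · exact ⟨∅, Set.countable_empty, Set.empty_subset _, fun u' => absurd u u'⟩
        · obtain ⟨S, s1, s2, s3⟩ := both (mo _ (F1_mono β _ _) _) (mo _ (F2_mono β _ _) _)
            (fnC (ok G) _ (F1_mono β _ _) μ (le1 G β _ _) _ (hG.f2c _ u _ _ hi).1)
            (fnC (ok G) _ (F2_mono β _ _) μ (le2 G β _ _) _ (hi.ce _).1)
          exact ⟨S, s1, s2, fun _ => s3⟩)
    S0 c0 o0
  exact ⟨S, c, o, fun p => s0 (u0 p), ⟨hh.of_aesm (v1.mono (F1_mono β q j s0)),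
    fun k => (hb k).of_aesm ((v2 k).mono (F1_mono β q k s0)),
    hb1.of_aesm (v3.mono (F2_mono β q j1 s0))⟩,
    fun q j s hs t ht _ => (cl _ hs _ ht).1 rfl, fun q j u s hs => (cl _ hs _ hs).2 u⟩

/-- a countable model over the same base -/
theorem ga (β : MeasurableSpace Ω) (G : ι → ι → MeasurableSpace Ω) (z q j : ι)
    {m0 : MeasurableSpace Ω} (μ : Measure Ω) [IsProbabilityMeasure μ] (h : Ω → ℂ)
    (hG : HGz β G z μ) (hV : DV β G q j μ h) :
    ∃ W : Ω → Cf ι, Measurable W ∧ (∀ q' j', (PC q' j').comap W ≤ G q' j') ∧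
      HGz β (fun q' j' => (PC q' j').comap W) z μ ∧
      DV β (fun q' j' => (PC q' j').comap W) q j μ h := by
  classical
  obtain ⟨j1, b, hj, hb, hb1, eh⟩ := hV
  have hp : BM μ m0 (pr b (univ.erase j)) :=
    BM.pr fun k _ => (hb k).mono (sup_le (hG.le q k) hG.ble)
  obtain ⟨S, c, o, u, v, pi, cl⟩ := fam β G z q j j1 μ h b hG ((hp.ce _).congr eh.symm) hb hb1
  have hle := g_le o
  have hc : ∀ p : ι × ι, ∃ f : ℕ → Set Ω, at' S p.1 p.2 = Set.range f := fun p =>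
    Set.Countable.exists_eq_range
      (c.preimage_of_injOn (f := fun A : Set Ω => ((p.1, p.2), A))
        fun _ _ _ _ e => (Prod.ext_iff.1 e).2) ⟨Set.univ, u _⟩
  choose f hf using hc
  let W : Ω → Cf ι := fun x p n => decide (x ∈ f p n)
  have hW : (fun q' j' => (PC q' j').comap W) = g S := by
    funext q' j'
    rw [PC, MeasurableSpace.comap_comp, g, hf (q', j'), ← comap_seq]
    rfl
  have h0 : ∀ q j, g S q j ≤ m0 := fun q j => (hle q j).trans (hG.le q j)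
  have hOc : ∀ q j, Oc G q j ⊔ β ≤ m0 := fun q j =>
    sup_le (Fib27.sup_le' fun k _ => hG.le k j) hG.ble
  have ec : ∀ q j a, q ≠ z → BM μ (g S q j) a →
      μ[a | Oc (g S) q j ⊔ β] =ᵐ[μ] μ[a | Oc G q j ⊔ β] :=
    fun q j a hq ha => keepE (h0 q j) (hOc q j) (sup_le_sup_right (oc_mono hle q j) β) (pi q j)
      (u _) rfl (fun s hs => (cl q j hq s hs).2) ha
  refine ⟨W, ?_, fun q' j' => ?_, ?_, ?_⟩
  · refine measurable_pi_iff.2 fun p => measurable_pi_iff.2 fun n => measurable_to_bool ?_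
    have : (fun x => W x p n) ⁻¹' {true} = f p n := by ext x; simp [W]
    rw [this]
    refine h0 p.1 p.2 _ (MeasurableSpace.measurableSet_generateFrom ?_)
    rw [hf p]
    exact ⟨n, rfl⟩
  · rw [congrFun (congrFun hW q') j']
    exact hle q' j'
  · rw [hW]
    refine ⟨h0, hG.ble, fun T hT a ha => hG.rows T hT a fun k hk =>
      (ha k hk).mono (Fib27.sup_mono'' subset_rfl fun i _ => hle k i),
      fun T hT a ha => hG.cols T hT a fun k hk =>
      (ha k hk).mono (Fib27.sup_mono'' subset_rfl fun i _ => hle i k),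
      fun q hq j a ha => ?_, fun q hq a ψ ha hψ j j' => ?_⟩
    · exact (keepD (h0 q j) (hOc q j) (sup_le (h0 q j) hG.ble) (pi q j) (u _) rfl
        (fun s hs => (cl q j hq s hs).1) ha).congr (ec q j a hq ha).symm
    · have e : ∀ j, ∫ x, ψ x * ((μ[a j | Oc (g S) q j ⊔ β]) x * pr a (univ.erase j) x) ∂μ =
          ∫ x, ψ x * ((μ[a j | Oc G q j ⊔ β]) x * pr a (univ.erase j) x) ∂μ := fun j =>
        integral_congr_ae ((ec q j _ hq (ha j)).mono fun x hx => by simp only [hx])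
      rw [e, e]
      exact hG.f3 q hq a ψ (fun k => (ha k).mono (hle q k)) hψ j j'
  · rw [hW]
    refine ⟨j1, b, hj, v.2.1, v.2.2, ?_⟩
    have l1 : g S q j ⊔ β ≤ G q j ⊔ β := sup_le_sup_right (hle q j) β
    have l2 : G q j ⊔ β ≤ m0 := sup_le (hG.le q j) hG.ble
    exact (v.1.ce_self (l1.trans l2)).symm.trans
      ((condExp_congr_ae eh).trans (condExp_condExp_of_le l1 l2))

lemma grid {z : ι} {X Zs : Type} [MeasurableSpace X]
    [MeasurableSpace Zs] (μ : Measure X) [IsProbabilityMeasure μ] {W : X → Cf ι} {Z : X → Zs}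
    (hW : Measurable W) (hZ : Measurable Z)
    (hG : HGz (cm Z) (fun q j => (PC q j).comap W) z μ) :
    ∀ᵐ y ∂μ.map Z, T5F.HG5 (condDistrib W Z μ y) (PC : ι → ι → MeasurableSpace (Cf ι)) z := by
  have ocl : ∀ q j : ι, Oc PC q j ≤ (inferInstance : MeasurableSpace (Cf ι)) := fun q j =>
    Fib27.sup_le' fun k _ => pc_le k j
  have oce : ∀ q j : ι, (Oc PC q j).comap W = Oc (fun q j => (PC q j).comap W) q j := fun q j =>
    comap_sup' _ _ _
  have a1 := gb fk (fun q : ι => sup (PC q) univ) μ W Z hW hZ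
    (fun q => Fib27.sup_le' fun k _ => pc_le q k) (fun q => cg_sup _ _ fun k => pc_cg q k)
    (by simpa only [comap_sup'] using hG.rows)
  have a2 := gb fk (fun j : ι => sup (fun q => PC q j) univ) μ W Z hW hZ
    (fun j => Fib27.sup_le' fun k _ => pc_le k j) (fun j => cg_sup _ _ fun k => pc_cg k j)
    (by simpa only [comap_sup'] using hG.cols)
  have a3 := fun (q : {q : ι // q ≠ z}) (j : ι) => g2 fk (PC q.1 j) (Oc PC q.1 j) μ W Z hW hZ
    (pc_le q.1 j) (ocl q.1 j) (pc_cg q.1 j) (cg_sup _ _ fun k => pc_cg k j)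
    (by rw [oce]; exact hG.f2c q.1 q.2 j)
  have a5 := fun q : {q : ι // q ≠ z} => g3 fk (PC q.1) (Oc PC q.1) μ W Z hW hZ (pc_le q.1)
    (ocl q.1) (pc_cg q.1) (fun j => cg_sup _ _ fun k => pc_cg k j)
    (by simp only [oce]; exact hG.f3 q.1 q.2)
  filter_upwards [a1, a2, ae_all_iff.2 fun q => ae_all_iff.2 fun j => a3 q j,
    ae_all_iff.2 a5] with y b1 b2 b3 b5
  exact ⟨pc_le, b1, b2, fun q hq => ⟨ocl q, b3 ⟨q, hq⟩, b5 ⟨q, hq⟩⟩⟩

/-- selection of labels in one fibre -/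
theorem gf {m0 : MeasurableSpace Ω} (κ : Measure Ω) [IsProbabilityMeasure κ]
    (p : ι → MeasurableSpace Ω) (hle : ∀ k, p k ≤ m0) (hc : 3 ≤ Fintype.card ι) (q : ι)
    (h : Ω → ℂ) (C : ℝ) (v : ℕ → ι → Ω → ℂ) (hhm : AEStronglyMeasurable h κ)
    (hw : ∃ w, Mem κ p q w ∧ ∫ x, h x * conj (w x) ∂κ ≠ 0) (hC : ∀ᵐ x ∂κ, ‖h x‖ ≤ C)
    (hv : ∀ i k, AEStronglyMeasurable (v i k) κ ∧ ∀ x, ‖v i k x‖ ≤ 1)
    (hden : ∀ χ : ι → Ω → ℂ, (∀ k, AEStronglyMeasurable[p k] (χ k) κ ∧ ∀ᵐ x ∂κ, ‖χ k x‖ ≤ 1) →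
      ∀ ε : ℝ, 0 < ε → ∃ i, ∀ k, ∫ x, ‖v i k x - χ k x‖ ^ 2 ∂κ ≤ ε) :
    ∃ i0 n : ℕ, C * (1 / (100 + n : ℝ)) < ‖∫ x, h x * conj (v i0 q x) ∂κ‖ ∧
      ∀ n' : ℕ, ∃ i, 1 - (1 / 4 : ℝ) ^ n' ≤ ‖∫ x, pr (v i) univ x ∂κ‖ ∧
        ∀ k, ∫ x, ‖v i k x - v i0 k x‖ ^ 2 ∂κ ≤ (1 / (100 + n : ℝ)) ^ 2 := by
  obtain ⟨w, ⟨χ, ⟨hm, h1, γ, hγ⟩, rfl⟩, ha⟩ := hw
  have hm0 : ∀ k, AEStronglyMeasurable (χ k) κ := fun k => (hm k).mono (hle k)
  have h1' : ∀ k, ∀ᵐ x ∂κ, ‖χ k x‖ ≤ 1 := fun k => (h1 k).mono fun x hx => hx.le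
  have hd := hden χ fun k => ⟨hm k, h1' k⟩
  have hdm : ∀ i k, AEStronglyMeasurable (fun x => v i k x - χ k x) κ :=
    fun i k => (hv i k).1.sub (hm0 k)
  have hdb : ∀ i k, ∀ᵐ x ∂κ, ‖v i k x - χ k x‖ ≤ 2 := fun i k => by
    filter_upwards [h1' k] with x hx
    have := norm_sub_le (v i k x) (χ k x)
    linarith [(hv i k).2 x]
  have hC0 : 0 ≤ C := by
    obtain ⟨x, hx⟩ := hC.exists
    exact (norm_nonneg _).trans hx
  have hγ1 : ‖γ‖ = 1 := by
    obtain ⟨x, hx, hx'⟩ := ((ae_all_iff.2 h1).and hγ).exists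
    rw [← hx', norm_prod]
    exact Finset.prod_eq_one fun k _ => hx k
  have hapos : 0 < ‖∫ x, h x * conj (χ q x) ∂κ‖ := norm_pos_iff.2 ha
  obtain ⟨n, hn⟩ := exists_nat_gt (2 * C / ‖∫ x, h x * conj (χ q x) ∂κ‖)
  have hN : (0 : ℝ) < 100 + n := by positivity
  obtain ⟨η, hη⟩ : ∃ η : ℝ, η = 1 / (100 + n : ℝ) := ⟨_, rfl⟩
  have hη0 : 0 < η := by rw [hη]; positivity
  have hCη : 2 * (C * η) < ‖∫ x, h x * conj (χ q x) ∂κ‖ := by
    rw [div_lt_iff₀ hapos] at hn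
    have : 2 * (C * η) = 2 * C / (100 + n) := by rw [hη]; ring
    rw [this, div_lt_iff₀ hN]
    nlinarith
  obtain ⟨i0, hi0⟩ := hd ((η / 2) ^ 2) (by positivity)
  have hcm : ∀ f : Ω → ℂ, AEStronglyMeasurable f κ → (∀ᵐ x ∂κ, ‖f x‖ ≤ 1) →
      Integrable (fun x => h x * conj (f x)) κ := fun f hf hb => by
    refine Integrable.of_bound (hhm.mul (Complex.continuous_conj.comp_aestronglyMeasurable hf))
      C ?_
    filter_upwards [hb, hC] with x hx hx'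
    rw [norm_mul, Complex.norm_conj]
    exact (mul_le_of_le_one_right (norm_nonneg _) hx).trans hx'
  refine ⟨i0, n, ?_, fun n' => ?_⟩
  · rw [← hη]
    have e1 := GF.l1_le (hdm i0 q) (hdb i0 q) (by positivity : 0 < η / 2) (hi0 q)
    have e2 : ‖∫ x, h x * conj (χ q x) ∂κ - ∫ x, h x * conj (v i0 q x) ∂κ‖ ≤
        ∫ x, C * ‖v i0 q x - χ q x‖ ∂κ := by
      rw [← integral_sub (hcm _ (hm0 q) (h1' q))
        (hcm _ (hv i0 q).1 (Eventually.of_forall (hv i0 q).2))]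
      refine norm_integral_le_of_norm_le ((GF.int1 (hdm i0 q) (hdb i0 q)).const_mul C) ?_
      filter_upwards [hC] with x hx
      rw [← mul_sub, ← map_sub, norm_mul, Complex.norm_conj, norm_sub_rev]
      exact mul_le_mul_of_nonneg_right hx (norm_nonneg _)
    rw [integral_const_mul] at e2
    have e3 := norm_sub_norm_le (∫ x, h x * conj (χ q x) ∂κ) (∫ x, h x * conj (v i0 q x) ∂κ)
    have e4 := mul_le_mul_of_nonneg_left e1 hC0
    have e5 : 0 ≤ C * η := mul_nonneg hC0 hη0.le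
    linarith
  · rw [← hη]
    have hK : (0 : ℝ) < Fintype.card ι := by
      have : 0 < Fintype.card ι := by omega
      exact_mod_cast this
    obtain ⟨δ, hδ⟩ : ∃ δ : ℝ, δ = min (η / 2) ((1 / 4) ^ n' / Fintype.card ι) := ⟨_, rfl⟩
    have hδ0 : 0 < δ := by rw [hδ]; positivity
    have hδ1 : δ ≤ η / 2 := by rw [hδ]; exact min_le_left _ _
    have hδ2 : Fintype.card ι * δ ≤ (1 / 4 : ℝ) ^ n' := by
      have : δ ≤ (1 / 4) ^ n' / Fintype.card ι := by rw [hδ]; exact min_le_right _ _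
      rwa [le_div_iff₀ hK, mul_comm] at this
    obtain ⟨i, hi⟩ := hd (δ ^ 2) (by positivity)
    refine ⟨i, ?_, fun k => ?_⟩
    · have hpi : Integrable (pr (v i) univ) κ := by
        refine Integrable.of_bound
          (Finset.aestronglyMeasurable_fun_prod univ fun k _ => (hv i k).1) 1
          (Eventually.of_forall fun x => ?_)
        show ‖∏ k, v i k x‖ ≤ 1
        rw [norm_prod]
        exact Finset.prod_le_one (fun k _ => norm_nonneg _) fun k _ => (hv i k).2 x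
      have e0 : ∫ x, (pr (v i) univ x - γ) ∂κ = ∫ x, pr (v i) univ x ∂κ - γ := by
        rw [integral_sub hpi (integrable_const _)]
        simp
      have e1 : ‖∫ x, (pr (v i) univ x - γ) ∂κ‖ ≤ ∫ x, ∑ k, ‖v i k x - χ k x‖ ∂κ := by
        refine norm_integral_le_of_norm_le
          (integrable_finsetSum _ fun k _ => GF.int1 (hdm i k) (hdb i k)) ?_
        filter_upwards [ae_all_iff.2 h1', hγ] with x hx hx'
        rw [← hx']
        exact GF.prod_sub _ _ (fun k => (hv i k).2 x) hx univ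
      rw [e0, integral_finsetSum _ fun k _ => GF.int1 (hdm i k) (hdb i k)] at e1
      have e2 : ∑ k, ∫ x, ‖v i k x - χ k x‖ ∂κ ≤ ∑ _k : ι, δ :=
        Finset.sum_le_sum fun k _ => GF.l1_le (hdm i k) (hdb i k) hδ0 (hi k)
      rw [Finset.sum_const, Finset.card_univ, nsmul_eq_mul] at e2
      have e3 := norm_sub_norm_le γ (∫ x, pr (v i) univ x ∂κ)
      rw [norm_sub_rev, hγ1] at e3
      linarith
    · have e1 : ∫ x, ‖v i k x - v i0 k x‖ ^ 2 ∂κ ≤
          ∫ x, (2 * ‖v i k x - χ k x‖ ^ 2 + 2 * ‖v i0 k x - χ k x‖ ^ 2) ∂κ := by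
        refine integral_mono_of_nonneg (Eventually.of_forall fun x => by positivity)
          (((GF.int2 (hdm i k) (hdb i k)).const_mul 2).add
            ((GF.int2 (hdm i0 k) (hdb i0 k)).const_mul 2)) (Eventually.of_forall fun x => ?_)
        have t1 : ‖v i k x - v i0 k x‖ ≤ ‖v i k x - χ k x‖ + ‖v i0 k x - χ k x‖ := by
          have := norm_sub_le (v i k x - χ k x) (v i0 k x - χ k x)
          rwa [sub_sub_sub_cancel_right] at this
        have t2 := pow_le_pow_left₀ (norm_nonneg _) t1 2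
        show ‖v i k x - v i0 k x‖ ^ 2 ≤
          2 * ‖v i k x - χ k x‖ ^ 2 + 2 * ‖v i0 k x - χ k x‖ ^ 2
        nlinarith [sq_nonneg (‖v i k x - χ k x‖ - ‖v i0 k x - χ k x‖)]
      rw [integral_add ((GF.int2 (hdm i k) (hdb i k)).const_mul 2)
        ((GF.int2 (hdm i0 k) (hdb i0 k)).const_mul 2), integral_const_mul,
        integral_const_mul] at e1
      have t3 := pow_le_pow_left₀ hδ0.le hδ1 2
      have t4 := hi k
      have t5 := hi0 k
      nlinarith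

lemma core {X Zs : Type} (β : MeasurableSpace X) [m0 : MeasurableSpace X] [MeasurableSpace Zs]
    (μ : Measure X) [IsProbabilityMeasure μ] {W : X → Cf ι} {Z : X → Zs} (hβ : β = cm Z)
    (hW : Measurable W) (hZ : Measurable Z) {z : ι}
    (hG : HGz β (fun q j => (PC q j).comap W) z μ) (hc : Fintype.card ι = 3) {q j : ι}
    (hq : q ≠ z) {h : X → ℂ} {C : ℝ} (hV : DV β (fun q j => (PC q j).comap W) q j μ h)
    (hC : 0 ≤ C) (hb : ∀ᵐ x ∂μ, ‖h x‖ ≤ C) (hne : ¬ h =ᵐ[μ] 0) :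
    ∃ (v : ℕ → ι → Cf ι → ℂ) (i0 n : ℕ),
      (∀ i k, Measurable[PC k j] (v i k) ∧ ∀ ω, ‖v i k ω‖ ≤ 1) ∧
      μ (DS β μ (fun i k x => v i k (W x)) (fun k x => v i0 k (W x)) (1 / (100 + n : ℝ)) ∩
        {x | C * (1 / (100 + n : ℝ)) < ‖(μ[fun y => h y * conj (v i0 q (W y)) | β]) x‖}) ≠ 0 := by
  subst hβ
  have hK := fk
  obtain ⟨v, hv, hd⟩ := lab ι j
  obtain ⟨j1, b, hj, hb0, hb1, eh⟩ := hV
  have mv : ∀ i k, Measurable (v i k) := fun i k => (hv i k).1.mono (pc_le k j) le_rfl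
  have ocl : Oc PC q j1 ≤ (inferInstance : MeasurableSpace (Cf ι)) :=
    Fib27.sup_le' fun k _ => pc_le k j1
  have hp : BM μ m0 (pr b (univ.erase j)) :=
    BM.pr fun k _ => (hb0 k).mono (sup_le (hG.le q k) hG.ble)
  have hh : BM μ ((PC q j).comap W ⊔ cm Z) h := (hp.ce _).congr eh.symm
  obtain ⟨g, mg, bg, sg, eg⟩ := hK.rep (PC q j) μ W Z h C (pc_le q j) hC hh.1 hb
  have hD : ∀ k, ∃ D : ℝ, 0 ≤ D ∧ ∀ᵐ x ∂μ, ‖b k x‖ ≤ D := fun k => by
    obtain ⟨D, hD⟩ := (hb0 k).2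
    exact ⟨max D 0, le_max_right _ _, hD.mono fun x hx => hx.trans (le_max_left _ _)⟩
  choose D hD0 hD1 using hD
  choose B mB bB sB eB using fun k =>
    hK.rep (PC q k) μ W Z (b k) (D k) (pc_le q k) (hD0 k) (hb0 k).1 (hD1 k)
  obtain ⟨g1, mg1, -, sg1, eg1⟩ := hK.rep (Oc PC q j1) μ W Z (b j1) (D j1) ocl (hD0 j1)
    (by rw [Oc, comap_sup']; exact hb1.1) (hD1 j1)
  have a1 := ae_of_ae_map hZ.aemeasurable (grid μ hW hZ hG)
  have a2 := ae_of_ae_map hZ.aemeasurable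
    ((hK.ae μ W Z hW hZ g1 (B j1) mg1 (mB j1)).1 (eg1.symm.trans (eB j1)))
  have a3 := ae_of_ae_map hZ.aemeasurable (hK.ce (PC q j) μ W Z hW hZ (pc_le q j) (pc_cg q j)
    (pr B (univ.erase j)) ⟨Finset.measurable_prod _ fun k _ => mB k, ∏ k ∈ univ.erase j, D k,
      fun y => by
        rw [pr, norm_prod]
        exact prod_le_prod (fun k _ => norm_nonneg _) fun k _ => bB k y⟩ g ⟨mg, C, bg⟩ sg (by
      refine (condExp_congr_ae ?_).trans (eh.symm.trans eg)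
      filter_upwards [ae_all_iff.2 eB] with x hx
      exact prod_congr rfl fun k _ => (hx k).symm))
  have bp : ∀ i ω, ‖pr (v i) univ ω‖ ≤ 1 := fun i ω => by
    rw [pr, norm_prod]
    exact prod_le_one (fun k _ => norm_nonneg _) fun k _ => (hv i k).2 ω
  have mp : ∀ i, Measurable (pr (v i) univ) := fun i => Finset.measurable_prod _ fun k _ => mv i k
  have a4 : ∀ i, μ[pr (fun k x => v i k (W x)) univ | cm Z] =ᵐ[μ]
      fun x => ∫ ω, pr (v i) univ ω ∂condDistrib W Z μ (Z x) := fun i =>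
    condExp_ae_eq_integral_condDistrib hZ hW.aemeasurable (mp i).stronglyMeasurable
      (Integrable.of_bound ((mp i).comp hW).aestronglyMeasurable 1
        (Eventually.of_forall fun x => bp i _))
  have a5 : ∀ i i' k, μ[fun y => ‖v i k (W y) - v i' k (W y)‖ ^ 2 | cm Z] =ᵐ[μ]
      fun x => ∫ ω, ‖v i k ω - v i' k ω‖ ^ 2 ∂condDistrib W Z μ (Z x) := fun i i' k => by
    have m : Measurable fun ω => ‖v i k ω - v i' k ω‖ ^ 2 :=
      ((mv i k).sub (mv i' k)).norm.pow_const 2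
    refine condExp_ae_eq_integral_condDistrib hZ hW.aemeasurable m.stronglyMeasurable
      (Integrable.of_bound (m.comp hW).aestronglyMeasurable (2 ^ 2)
        (Eventually.of_forall fun x => ?_))
    rw [norm_pow, norm_norm]
    refine pow_le_pow_left₀ (norm_nonneg _) ((norm_sub_le _ _).trans ?_) 2
    linarith [(hv i k).2 (W x), (hv i' k).2 (W x)]
  have a6 : ∀ i, μ[fun y => h y * conj (v i q (W y)) | cm Z] =ᵐ[μ]
      fun x => ∫ ω, g (Z x, ω) * conj (v i q ω) ∂condDistrib W Z μ (Z x) := fun i => by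
    refine (condExp_congr_ae ?_).trans (hK.int μ W Z hW hZ (fun p => g p * conj (v i q p.2))
      ⟨mg.mul (Complex.continuous_conj.measurable.comp ((mv i q).comp measurable_snd)), C,
        fun p => ?_⟩)
    · filter_upwards [eg] with x hx
      rw [hx]
    · rw [norm_mul, Complex.norm_conj]
      exact (mul_le_of_le_one_right (norm_nonneg _) ((hv i q).2 _)).trans (bg p)
  have a7 : μ[fun y => h y * conj (h y) | cm Z] =ᵐ[μ]
      fun x => ∫ ω, g (Z x, ω) * conj (g (Z x, ω)) ∂condDistrib W Z μ (Z x) := by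
    refine (condExp_congr_ae ?_).trans (hK.int μ W Z hW hZ (fun p => g p * conj (g p))
      ⟨mg.mul (Complex.continuous_conj.measurable.comp mg), C * C, fun p => ?_⟩)
    · filter_upwards [eg] with x hx
      rw [hx]
    · rw [norm_mul, Complex.norm_conj]
      exact mul_le_mul (bg p) (bg p) (norm_nonneg _) hC
  by_contra hcon
  push Not at hcon
  have a8 := ae_all_iff.2 fun i0 => ae_all_iff.2 fun n =>
    measure_eq_zero_iff_ae_notMem.1 (hcon v i0 n hv)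
  have h0 : BM μ m0 h := hh.mono (sup_le (hG.le q j) hG.ble)
  refine hne (Fib27.eq_zero_of_int_conj h0 ?_)
  rw [← integral_condExp hG.ble]
  refine integral_eq_zero_of_ae ?_
  filter_upwards [a1, a2, a3, ae_all_iff.2 a4, ae_all_iff.2 fun i => ae_all_iff.2 fun i' =>
    ae_all_iff.2 (a5 i i'), ae_all_iff.2 a6, a7, a8] with x b1 b2 b3 b4 b5 b6 b7 b8
  rw [b7]
  have bz : ∀ k, BM (condDistrib W Z μ (Z x)) (PC q k) fun ω => B k (Z x, ω) := fun k =>
    ⟨(sB k _).aestronglyMeasurable, D k, Eventually.of_forall fun ω => bB k _⟩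
  by_cases hz : (fun ω => g (Z x, ω)) =ᵐ[condDistrib W Z μ (Z x)] 0
  · refine integral_eq_zero_of_ae ?_
    filter_upwards [hz] with ω hω
    simp only [hω, Pi.zero_apply, zero_mul]
  · obtain ⟨i0, n, c1, c2⟩ := gf _ (fun k => PC k j) (fun k => pc_le k j) hc.ge q _ C v
      (mg.comp measurable_prodMk_left).aestronglyMeasurable
      (T5F.fspanD b1 hc hq hj bz ((bz j1).of_aesm ((sg1 _).aestronglyMeasurable.congr b2))
        b3.symm hz)
      (Eventually.of_forall fun ω => bg _)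
      (fun i k => ⟨(mv i k).aestronglyMeasurable, (hv i k).2⟩) (hd _)
    refine absurd ⟨?_, ?_⟩ (b8 i0 n)
    · refine Set.mem_iInter.2 fun n' => ?_
      obtain ⟨i, d1, d2⟩ := c2 n'
      refine Set.mem_iUnion.2 ⟨i, ?_, fun k => ?_⟩
      · rw [b4]; exact d1
      · rw [b5]; exact d2 k
    · rw [Set.mem_ofPred_eq, b6]; exact c1

end GGz

theorem ggz : GGzS := by
  intro Ω ι _ _ β G z q j m0 μ _ h C hG hc hq hV hC hb hne
  obtain ⟨W, hW, hle, hG', hV'⟩ := GGz.ga β G z q j μ h hG hV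
  obtain ⟨v, i0, n, hv, e⟩ := @GGz.core ι _ _ Ω Ω β m0 β μ _ W id
    MeasurableSpace.comap_id.symm hW (measurable_id'' hG.ble) z hG' hc q j hq h C hV' hC hb hne
  have lb : ∀ i k, Lb (G k j) μ fun x => v i k (W x) := fun i k =>
    ⟨((((hv i k).1.comp (@comap_measurable _ _ (PC k j) W)).mono (hle k j)
      le_rfl).stronglyMeasurable).aestronglyMeasurable, fun x => (hv i k).2 _⟩
  refine ⟨_, _, _, lb, lb i0, by positivity, ?_, e⟩
  exact one_div_le_one_div_of_le (by norm_num) (le_add_of_nonneg_right (Nat.cast_nonneg n))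

end T5x

end

end PkGGz
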