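import Pool.Agent.MP_154433_an.t3.Spec

/-! One map, part 1 (packed). -/

section PkSpecG

/-! Statements of the sub-rows of section 4 (the bundle of groups). -/

set_option autoImplicit false
set_option linter.unusedVariables false
set_option warn.classDefReducibility false

open MeasureTheory ProbabilityTheory Filter Topology Function Finset ComplexConjugate
open scoped BigOperators
open Fib27 (BM sup pr Oc Orow F23 LInd Mem)
open Pool.Agent.MP_154433_an.SG (Uni ufn)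

noncomputable section

namespace T3x

/-! ### calculus for the functions `ψ` -/

/-- factors of a context -/
structure CtxC (c : Ctx) : Prop where
  facB : Fac c.X c.B
  facS : Fac c.W (c.L.shp c.B)
  kc2 : KC c.W c.B2
  le2 : c.L.shp c.B ≤ c.B2
  kcβ : KC c.W2 c.β
  embπ : ∀ k, Emb c.W c.X (c.π k)
  embA : ∀ k, Emb c.W2 c.W (c.A k)
  embB : ∀ k, Emb c.W2 c.W (c.Bc k)
  facP : ∀ k, Fac c.W (c.P k)
  slot : ∀ k, pull c.W.μ (c.π k) c.B ≤ c.L.shp c.B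
  /-- preimages of sets of the base -/
  pre : ∀ k (A : Set c.X.X), MeasurableSet[c.B] A → MeasurableSet[c.L.shp c.B] (c.π k ⁻¹' A)
  nt : ∀ k (g : c.X.X → ℂ), MeasurableSet[c.L.shp c.B] (c.Nt k g)
  two : ∃ i1 i2 : c.ι, i1 ≠ i2 ∧ (c.sl i1).2 = (c.sl i2).2
  ce : c.GI → ∀ k (f : c.X.X → ℂ), BM c.X.μ c.X.ms f →
    c.W.μ[fun w => f (c.π k w) | c.B2] =ᵐ[c.W.μ] fun w => (c.X.μ[f | c.B]) (c.π k w)

/-- the group law and the shift -/
structure PsC (X : Sys) (B : MeasurableSpace X.X) {V : Type} [AddCommGroup V] (sg : AddAut V)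
    (ψ : V → X.X → ℂ) : Prop where
  bm : ∀ v, BM X.μ X.ms (ψ v)
  zero : ψ 0 =ᵐ[X.μ] fun _ => 1
  neg : ∀ v, ψ (-v) =ᵐ[X.μ] fun x => conj (ψ v x)
  sub : ∀ v v', ψ (v - v') =ᵐ[X.μ] fun x => ψ v x * conj (ψ v' x)
  sum : ∀ (κ : Type) (S : Finset κ) (v : κ → V),
    ψ (∑ k ∈ S, v k) =ᵐ[X.μ] fun x => ∏ k ∈ S, ψ (v k) x
  shz : ∀ (n : ℤ) v, ψ ((n • sg) v) =ᵐ[X.μ] fun x => ψ v (X.Tz n x)
  n0 : ∀ᵐ x ∂X.μ, x ∈ Th B X.μ (ψ 0)
  nsub : ∀ v v', ∀ᵐ x ∂X.μ, x ∈ Th B X.μ (ψ v) → x ∈ Th B X.μ (ψ v') → x ∈ Th B X.μ (ψ (v - v'))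
  nsh : ∀ (n : ℤ) v, ∀ᵐ x ∂X.μ, x ∈ Th B X.μ (ψ ((n • sg) v)) ↔ X.Tz n x ∈ Th B X.μ (ψ v)
  /-- the part of `ψ v` off the trivial set has mean zero -/
  off : ∀ v, X.μ[(Th B X.μ (ψ v))ᶜ.indicator (ψ v) | B] =ᵐ[X.μ] 0

/-- tuples of the functions `ψ` in the line -/
structure FfC (c : Ctx) {V : Type} [AddCommGroup V] (sg : AddAut V) (ψ : V → c.X.X → ℂ) :
    Prop where
  um1 : ∀ k a, Um (c.P k) c.W.μ fun w => ψ a (c.π k w)
  um2 : ∀ k a, Um (c.P k ⊔ c.B2) c.W.μ fun w => ψ a (c.π k w)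
  um3 : ∀ k a, Um c.W.ms c.W.μ fun w => ψ a (c.π k w)
  um : ∀ v, Um c.W.ms c.W.μ (c.FF ψ v)
  zero : c.FF ψ 0 =ᵐ[c.W.μ] fun _ => 1
  add : ∀ v v', c.FF ψ (v + v') =ᵐ[c.W.μ] fun w => c.FF ψ v w * c.FF ψ v' w
  sub : ∀ v v', c.FF ψ (v - v') =ᵐ[c.W.μ] fun w => c.FF ψ v w * conj (c.FF ψ v' w)
  single : ∀ k a, c.FF ψ (Pi.single k a) =ᵐ[c.W.μ] fun w => ψ a (c.π k w)
  shz : ∀ (n : ℤ) v, c.FF ψ (fun k => (n • sg) (v k)) =ᵐ[c.W.μ] fun w => c.FF ψ v (c.W.Tz n w)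
  tm : ∀ v, MeasurableSet[c.B2] (c.ΘV ψ v)
  t0 : ∀ᵐ w ∂c.W.μ, w ∈ c.ΘV ψ 0
  tadd : ∀ᵐ w ∂c.W.μ, ∀ v v', w ∈ c.ΘV ψ v → w ∈ c.ΘV ψ v' → w ∈ c.ΘV ψ (v + v')
  tsub : ∀ᵐ w ∂c.W.μ, ∀ v v', w ∈ c.ΘV ψ v → w ∈ c.ΘV ψ v' → w ∈ c.ΘV ψ (v - v')
  tsh : ∀ n : ℤ, ∀ᵐ w ∂c.W.μ, ∀ v,
    w ∈ c.ΘV ψ (fun k => (n • sg) (v k)) ↔ c.W.Tz n w ∈ c.ΘV ψ v
  um' : MeasurableSet[c.B2] (c.UU ψ)
  ush : ∀ n : ℤ, ∀ᵐ w ∂c.W.μ, w ∈ c.UU ψ ↔ c.W.Tz n w ∈ c.UU ψ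
  tsingle : c.GI → ∀ᵐ w ∂c.W.μ, ∀ k a, w ∈ c.ΘV ψ (Pi.single k a) ↔ w ∉ c.Nt k (ψ a)

structure GC : Prop where
  ctx : ∀ c : Ctx, CtxC c
  ps : ∀ (X : Sys) B (V : Type) [AddCommGroup V] (sg : AddAut V) (ψ : V → X.X → ℂ), Fac X B →
    Psi X B sg ψ → PsC X B sg ψ
  ff : ∀ (c : Ctx) (V : Type) [AddCommGroup V] [Countable V] (sg : AddAut V)
    (ψ : V → c.X.X → ℂ), Psi c.X c.B sg ψ → FfC c sg ψ

def CtxR : Prop := Fd → ∀ c : Ctx, CtxC c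
def PscR : Prop := Fd → Rc → ∀ (X : Sys) B (V : Type) [AddCommGroup V] (sg : AddAut V)
  (ψ : V → X.X → ℂ), Fac X B → Psi X B sg ψ → PsC X B sg ψ
def FfR : Prop := Fd → Rc → ∀ (c : Ctx) (V : Type) [AddCommGroup V] [Countable V] (sg : AddAut V)
  (ψ : V → c.X.X → ℂ), CtxC c → PsC c.X c.B sg ψ → Psi c.X c.B sg ψ → FfC c sg ψ

/-! ### calculus for partners and types -/

structure ZvC (c : Ctx) (𝒱 : Subgroup (Uni c.X.X)) (s : 𝒱 ≃* 𝒱) : Prop where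
  um : ∀ (g : c.ι → Uni c.X.X) k, Um (c.P k ⊔ c.B2) c.W.μ (c.up g k)
  umP : ∀ g : c.ι → Uni c.X.X, Um c.W.ms c.W.μ (pr (c.up g) univ)
  cnt : {g' : c.ι → Uni c.X.X | ∀ k, g' k ∈ 𝒱}.Countable
  tm : ∀ g : c.ι → Uni c.X.X, MeasurableSet[c.B2] (c.Θ (c.up g))
  meas : ∀ q g, MeasurableSet[c.B2] (c.ZV 𝒱 q g)
  sh : ∀ q (g : 𝒱), c.ZV 𝒱 q (s g).1 =ᵐ[c.W.μ] c.W.T ⁻¹' c.ZV 𝒱 q g.1
  one : ∀ q, ∀ᵐ w ∂c.W.μ, w ∈ c.ZV 𝒱 q 1
  mul : ∀ q g g', ∀ᵐ w ∂c.W.μ, w ∈ c.ZV 𝒱 q g → w ∈ c.ZV 𝒱 q g' → w ∈ c.ZV 𝒱 q (g * g')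
  inv : ∀ q g, ∀ᵐ w ∂c.W.μ, w ∈ c.ZV 𝒱 q g → w ∈ c.ZV 𝒱 q g⁻¹
  onn : c.GI → ∀ q g, ∀ᵐ w ∂c.W.μ, w ∈ c.ZV 𝒱 q g →
    ‖(c.X.μ[ufn g | c.B]) (c.π q w)‖ = 0 ∨ ‖(c.X.μ[ufn g | c.B]) (c.π q w)‖ = 1
  /-- nontriviality spreads over a tuple -/
  nt : c.GI → ∀ (g : c.ι → Uni c.X.X) j k, ∀ᵐ w ∂c.W.μ, w ∈ c.Θ (c.up g) →
    (w ∈ c.Nt j (ufn (g j)) ↔ w ∈ c.Nt k (ufn (g k)))

/-- the maps of the extension -/
structure HtC {c : Ctx} (H : c.Hat) : Prop where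
  embp : Emb H.X1 c.X H.p
  embe : ∀ a, Emb H.X1 c.W (H.e a ∘ H.p1)
  com : ∀ a, KEq H.X1.μ c.X.ms (c.π a.2 ∘ H.e a ∘ H.p1) H.p
  embL : Emb H.L1.W c.W H.Lp
  embπ : ∀ k, Emb H.L1.W H.X1 (H.π k)
  sq : ∀ k, KEq H.L1.W.μ c.X.ms (c.π k ∘ H.Lp) (H.p ∘ H.π k)
  fac1 : Fac H.X1 H.B1
  b2 : pull H.L1.W.μ H.Lp c.B2 ≤ H.L1.B2 H.B1
  ce : ∀ f : c.X.X → ℂ, BM c.X.μ c.X.ms f →
    H.X1.μ[fun x => f (H.p x) | H.B1] =ᵐ[H.X1.μ] fun x => (c.X.μ[f | c.B]) (H.p x)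
  /-- the second copy is the same in all slots -/
  frz : ∀ j k, KEq H.L1.W.μ H.Xh.ms (H.p2 ∘ H.π j) (H.p2 ∘ H.π k)
  frzT : KEq H.X1.μ H.Xh.ms (H.p2 ∘ H.X1.T) H.p2

structure ZC : Prop where
  zv : ∀ (c : Ctx) 𝒱 s, c.Exh 𝒱 s → ZvC c 𝒱 s
  ht : ∀ (c : Ctx) (H : c.Hat), HtC H

def ZvR : Prop := Fd → Rc → GC → ∀ (c : Ctx) 𝒱 s, c.Exh 𝒱 s → ZvC c 𝒱 s
def HtR : Prop := Fd → SatA → GC → ∀ (c : Ctx) (H : c.Hat), HtC H

/-! ### the extension -/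

def HatA : Prop := Fd → GC → ∀ (c : Ctx) (i0 : c.ι), c.GI → ∃ (Xh : Sys)
  (e : ℕ × c.ι → Xh.X → c.W.X) (Bh : MeasurableSpace Xh.X),
  IsRP (fun _ : ℕ × c.ι => c.W) c.X c.X.ms (fun a => c.π a.2) (0, i0) Xh e ∧
  Adm Xh Bh c.X c.B (c.π i0 ∘ e (0, i0)) ∧ ∀ a, pull Xh.μ (e a) c.B2 ≤ Bh

def HatB : Prop := Fd → ∀ (Xh : Sys) (Bh : MeasurableSpace Xh.X), Nice Xh → KC Xh Bh →
  ∃ (X1 : Sys) (p1 p2 : X1.X → Xh.X) (B1 : MeasurableSpace X1.X), Emb X1 Xh.frz p2 ∧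
    KEq X1.μ (Inv Xh) p1 p2 ∧ (∀ f g, BM Xh.μ Xh.ms f → BM Xh.μ Xh.ms g →
      ∫ x, f (p1 x) * g (p2 x) ∂X1.μ = ∫ y, (Xh.μ[f | Inv Xh]) y * (Xh.μ[g | Inv Xh]) y ∂Xh.μ) ∧
    Adm X1 B1 Xh Bh p1 ∧ pull X1.μ p2 Xh.ms ≤ B1

/-! ### types -/

def TyA : Prop := Fd → GC → ZC → ∀ (c : Ctx) (H : c.Hat) 𝒱 s, c.CL → c.Exh 𝒱 s →
  ∀ (g : c.ι → Uni c.X.X) (j k : c.ι), (∀ i, g i ∈ 𝒱) → ∀ᵐ w ∂H.L1.W.μ,
    H.Lp w ∈ c.Θ (c.up g) → H.τ 𝒱 (g j) (H.p1 (H.π j w)) = H.τ 𝒱 (g k) (H.p1 (H.π k w))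

/-- a set that no sample meets is not met by the line -/
def TyB : Prop := Fd → GC → ZC → ∀ (c : Ctx) (H : c.Hat) (q : c.ι) (D : Set c.W.X),
  MeasurableSet D → ∀ᵐ w ∂H.L1.W.μ, H.Lp w ∈ D → ∃ i : ℕ, H.e (i, q) (H.p1 (H.π q w)) ∈ D

/-- two slots with the same label are dominated by the product over the invariant factor -/
def MixL : Prop := Fd → ∀ (ν : Wt) (U : Ultrafilter ℕ) (X : Sys) (L : Ln ν U X) (s s' : Slot),
  (U : Filter ℕ) ≤ atTop → ERG ν → s ≠ s' → s.2 = s'.2 → ∀ A A' : Set X.X, MeasurableSet A →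
  MeasurableSet A' → L.W.μ.real (L.π s ⁻¹' A ∩ L.π s' ⁻¹' A') ≤ |((s'.1 - s.1 : ℤ) : ℝ)| *
    (∫ x, (X.μ[A.indicator fun _ => (1 : ℂ) | Inv X]) x *
      (X.μ[A'.indicator fun _ => (1 : ℂ) | Inv X]) x ∂X.μ).re

/-- domination on rectangles passes to the coincidence of types -/
def DomS : Prop := ∀ (Ω Ω' Y κ : Type) [MeasurableSpace Ω] [MeasurableSpace Ω']
  [MeasurableSpace Y] [Countable κ] (μ : Measure Ω) (μ' : Measure Ω') [IsProbabilityMeasure μ]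
  [IsProbabilityMeasure μ'] (a1 a2 : Ω → Y) (b1 b2 : Ω' → Y) (r : ℝ) (t t' : Y → κ → Prop)
  (S : Set Y), Measurable a1 → Measurable a2 → Measurable b1 → Measurable b2 →
  (∀ i, MeasurableSet {y | t y i}) → (∀ i, MeasurableSet {y | t' y i}) → MeasurableSet S →
  (∀ A A' : Set Y, MeasurableSet A → MeasurableSet A' →
    μ.real (a1 ⁻¹' A ∩ a2 ⁻¹' A') ≤ r * μ'.real (b1 ⁻¹' A ∩ b2 ⁻¹' A')) →
  μ' {x | b1 x ∈ S ∧ t (b1 x) = t' (b2 x)} = 0 → μ {x | a1 x ∈ S ∧ t (a1 x) = t' (a2 x)} = 0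

def PosB : Prop := Fd → GC → ZC → MixL → DomS → ∀ (c : Ctx) (H : c.Hat) 𝒱 s
  (g : c.ι → Uni c.X.X), c.GI → c.Exh 𝒱 s → H.Ty 𝒱 → (∀ k, g k ∈ 𝒱) → c.T5 g →
  ∃ j k, H.Pos 𝒱 g j k

/-! ### the functions `ψ` -/

def Ctx.Hat.HH {c : Ctx} (H : c.Hat) (𝒱 : Subgroup (Uni c.X.X)) (g0 : Uni c.X.X) (g : 𝒱) :
    Set H.X1.X :=
  {x | (∃ a, H.τ 𝒱 g0 (H.p2 x) a) ∧ ∀ a, H.τ 𝒱 g0 (H.p2 x) a → H.τ 𝒱 g.1 (H.p1 x) a}

open Classical in
def Ctx.Hat.psi {c : Ctx} (H : c.Hat) (𝒱 : Subgroup (Uni c.X.X)) (g0 : Uni c.X.X)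
    (v : 𝒱 →₀ ℤ) (x : H.X1.X) : ℂ :=
  v.prod fun g n => (if x ∈ H.HH 𝒱 g0 g then ufn g.1 (H.p x) else 1) ^ n

def PsiA : Prop := Fd → GC → ZC → ∀ (c : Ctx) (H : c.Hat) 𝒱 s (g0 : Uni c.X.X), c.Exh 𝒱 s →
  (∀ g, MeasurableSet[H.B1] (H.HH 𝒱 g0 g)) ∧ (∀ v, Um H.X1.ms H.X1.μ (H.psi 𝒱 g0 v)) ∧
  (∀ v v' x, H.psi 𝒱 g0 (v + v') x = H.psi 𝒱 g0 v x * H.psi 𝒱 g0 v' x) ∧
  ∀ v, H.psi 𝒱 g0 (Finsupp.domCongr s.toEquiv v) =ᵐ[H.X1.μ] fun x => H.psi 𝒱 g0 v (H.X1.T x)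

def PsiB : Prop := Fd → Rc → GC → ZC → PsiA → ∀ (c : Ctx) (H : c.Hat) 𝒱 s (g0 : Uni c.X.X),
  c.GI → c.Exh 𝒱 s → ∀ v, ∀ᵐ x ∂H.X1.μ, ‖(H.X1.μ[H.psi 𝒱 g0 v | H.B1]) x‖ = 0 ∨
    ‖(H.X1.μ[H.psi 𝒱 g0 v | H.B1]) x‖ = 1

def BunB : Prop := GC → ZC → BunR

/-! ### passing to the hull -/

/-- over `C` every function is determined on a set of `D` and has mean zero off it -/
def PQ (Y : Sys) (D : MeasurableSpace Y.X) {α : Type} (F : α → Y.X → ℂ) (R : α → Set Y.X)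
    (C : MeasurableSpace Y.X) : Prop :=
  ∀ a, ∃ S : Set Y.X, MeasurableSet[D] S ∧ Y.μ[F a | C] =ᵐ[Y.μ] S.indicator (F a) ∧
    Y.μ (S ∩ R a) = 0

def OnhK : Prop := Fd → ∀ (Y : Sys) (D C : MeasurableSpace Y.X) (α : Type) (F : α → Y.X → ℂ)
  (R : α → Set Y.X) (d : ℕ → α → α), Nice Y → Fac Y D → Fac Y C → D ≤ C →
  (∀ a, Um Y.ms Y.μ (F a)) → (∀ a, MeasurableSet[D] (R a)) →
  (∀ (n : ℕ) a, F (d n a) =ᵐ[Y.μ] fun y => F a (Y.Tz n y) * conj (F a y)) →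
  (∀ a, Tendsto (fun N : ℕ => (N : ℝ)⁻¹ * ∑ n ∈ range N, Y.μ.real (R a \ R (d n a)))
    atTop (𝓝 0)) → PQ Y D F R C → PQ Y D F R (KK Y C)

def OnhC : Prop := Fd → ∀ (Y : Sys) (D : MeasurableSpace Y.X) (α : Type) (F : α → Y.X → ℂ)
  (R : α → Set Y.X) (𝒞 : Set (MeasurableSpace Y.X)), Fac Y D → (∀ a, Um Y.ms Y.μ (F a)) →
  𝒞.Nonempty → IsChain (· ≤ ·) 𝒞 → (∀ C ∈ 𝒞, Fac Y C ∧ D ≤ C ∧ PQ Y D F R C) →
  PQ Y D F R (sSup 𝒞)

/-- decay along the integers -/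
def DecS : Prop := Fd → Rc → GC → ∀ (X : Sys) B (V : Type) [AddCommGroup V] (sg : AddAut V)
  (ψ : V → X.X → ℂ), Nice X → KC X B → Psi X B sg ψ → ∀ a, Tendsto (fun N : ℕ => (N : ℝ)⁻¹ *
    ∑ n ∈ range N, X.μ.real (Th B X.μ (ψ (((n : ℤ) • sg) a - a)) \ Th B X.μ (ψ a))) atTop (𝓝 0)

/-- exact relations -/
def RelA : Prop := Fd → Rc → GC → ∀ (c : Ctx) (V : Type) [AddCommGroup V] [Countable V]
  (sg : AddAut V) (ψ : V → c.X.X → ℂ), Psi c.X c.B sg ψ → ∀ v : c.ι → V,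
  (Th (c.L.shp c.B) c.W.μ (c.FF ψ v) =ᵐ[c.W.μ]
    c.L.hs fun l => Th c.B c.X.μ (ψ (∑ k, (rho (c.sl k) l • sg) (v k)))) ∧
  c.W.μ[c.FF ψ v | c.L.shp c.B] =ᵐ[c.W.μ]
    (Th (c.L.shp c.B) c.W.μ (c.FF ψ v)).indicator (c.FF ψ v)

def RelC : Prop := Fd → Rc → GC → ∀ (c : Ctx) (V : Type) [AddCommGroup V] [Countable V]
  (sg : AddAut V) (ψ : V → c.X.X → ℂ), Psi c.X c.B sg ψ → ∀ a a', Nl c.ν c.U c.X fun l =>
    Th c.B c.X.μ (ψ (((l.2.1 - l.2.2) • sg) a - a')) \ Th c.B c.X.μ (ψ a')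

def OnhB : Prop := GC → OnhK → OnhC → DecS → RelA → OnhR

/-! ### steps -/

def StpA : Prop := Fd → Rc → GC → ∀ (c : Ctx) (V : Type) [AddCommGroup V] [Countable V]
  (sg : AddAut V) (ψ : V → c.X.X → ℂ) (i1 i2 : c.ι), i1 ≠ i2 → c.GI → Psi c.X c.B sg ψ →
  (∀ a a' b b', (c.SV ψ i1 i2 a a' ∩ c.SV ψ i1 i2 b b' : Set c.W.X) ≤ᵐ[c.W.μ]
    c.SV ψ i1 i2 (a - b) (a' - b')) ∧ c.SV ψ i1 i2 0 0 =ᵐ[c.W.μ] c.UU ψ ∧
  (∀ a a', ∀ᵐ w ∂c.W.μ, w ∈ c.UU ψ → w ∉ c.Nt i1 (ψ a) → w ∉ c.Nt i2 (ψ a') →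
    w ∈ c.SV ψ i1 i2 a a') ∧
  (∀ (v : c.ι → V) (j k : c.ι), ∀ᵐ w ∂c.W.μ, w ∈ c.ΘV ψ v →
    (w ∈ c.Nt j (ψ (v j)) ↔ w ∈ c.Nt k (ψ (v k)))) ∧
  ∀ a a', c.SV ψ i1 i2 (sg a) (sg a') =ᵐ[c.W.μ] c.W.T ⁻¹' c.SV ψ i1 i2 a a'

/-- all rows and one column are tuples, hence all columns -/
def FlatM (c : Ctx) {V : Type} (ψ : V → c.X.X → ℂ) : Prop :=
  ∀ (m : c.ι → c.ι → V) (j0 j : c.ι), ∀ᵐ x ∂c.W2.μ, (∀ k, c.A k x ∈ c.ΘV ψ (m k)) →
    c.Bc j0 x ∈ c.ΘV ψ (fun k => m k j0) → c.Bc j x ∈ c.ΘV ψ fun k => m k j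

def FlatR : Prop := Fd → Rc → GC → ∀ (c : Ctx) (V : Type) [AddCommGroup V] [Countable V]
  (sg : AddAut V) (ψ : V → c.X.X → ℂ), c.GI → Psi c.X c.B sg ψ → FlatM c ψ

def StpB : Prop := Fd → GC → ∀ (c : Ctx) (V : Type) [AddCommGroup V] [Countable V]
  (sg : AddAut V) (ψ : V → c.X.X → ℂ) (i1 i2 : c.ι), i1 ≠ i2 → Psi c.X c.B sg ψ → FlatM c ψ →
  ∀ a b a' b', ∀ᵐ x ∂c.W2.μ, c.A i1 x ∈ c.SV ψ i1 i2 a b → c.A i2 x ∈ c.SV ψ i1 i2 a' b' →
    (c.Bc i1 x ∈ c.SV ψ i1 i2 a a' ↔ c.Bc i2 x ∈ c.SV ψ i1 i2 b b')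

/-! ### from the line to the finite level -/

/-- the internal sets, recentred at the first slot -/
def rec1 (c : Ctx) {V : Type} (A : V → V → Lab → Set c.X.X) (i1 : c.ι) (l : Lab) (a a' : V) :
    Set c.X.X := c.X.Tz (-rho (c.sl i1) l) ⁻¹' A a a' l

def stp (c : Ctx) (i1 i2 : c.ι) (l : Lab) : ℤ := rho (c.sl i2) l - rho (c.sl i1) l

/-- the sets `A` describe the steps -/
def Desc (c : Ctx) {V : Type} (ψ : V → c.X.X → ℂ) (i1 i2 : c.ι)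
    (A : V → V → Lab → Set c.X.X) : Prop :=
  (∀ a a' l, MeasurableSet (A a a' l)) ∧ ∀ a a', c.SV ψ i1 i2 a a' =ᵐ[c.W.μ] c.L.hs (A a a')

def AlgA : Prop := Fd → Rc → GC → ∀ (c : Ctx) (V : Type) [AddCommGroup V] [Countable V]
  (sg : AddAut V) (ψ : V → c.X.X → ℂ) (i1 i2 : c.ι) (A : V → V → Lab → Set c.X.X),
  c.Stp sg ψ i1 i2 → Desc c ψ i1 i2 A →
  (∀ a a' b b', Nl c.ν c.U c.X fun l =>
    (rec1 c A i1 l a a' ∩ rec1 c A i1 l b b') \ rec1 c A i1 l (a - b) (a' - b')) ∧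
  (∀ a a', Nl c.ν c.U c.X fun l => (rec1 c A i1 l 0 0 ∩ Th c.B c.X.μ (ψ a) ∩
    c.X.Tz (stp c i1 i2 l) ⁻¹' Th c.B c.X.μ (ψ a')) \ rec1 c A i1 l a a') ∧
  (∀ a a', Nl c.ν c.U c.X fun l => rec1 c A i1 l a a' ∩
    {y | ¬ (y ∈ Th c.B c.X.μ (ψ a) ↔ c.X.Tz (stp c i1 i2 l) y ∈ Th c.B c.X.μ (ψ a'))}) ∧
  ∀ a a', Nl c.ν c.U c.X fun l =>
    {y | ¬ (y ∈ rec1 c A i1 l (sg a) (sg a') ↔ c.X.T y ∈ rec1 c A i1 l a a')}

def AlgT : Prop := Fd → Rc → GC → ∀ (c : Ctx) (V : Type) [AddCommGroup V] [Countable V]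
  (sg : AddAut V) (ψ : V → c.X.X → ℂ) (i1 i2 : c.ι) (A : V → V → Lab → Set c.X.X),
  c.Stp sg ψ i1 i2 → Desc c ψ i1 i2 A → ∀ (a : V) (ε : ℝ), 0 < ε → ∃ F : Finset V,
  ∀ᶠ M in (c.U : Filter ℕ),
    (c.ν.av2 M fun l => c.X.μ.real (rec1 c A i1 l 0 0 \ ⋃ a' ∈ F, rec1 c A i1 l a a')) ≤ ε ∧
    (c.ν.av2 M fun l => c.X.μ.real (rec1 c A i1 l 0 0 \ ⋃ a' ∈ F, rec1 c A i1 l a' a)) ≤ ε

def AlgB : Prop := Fd → Rc → GC → ∀ (c : Ctx) (V : Type) [AddCommGroup V] [Countable V]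
  (sg : AddAut V) (ψ : V → c.X.X → ℂ) (i1 i2 : c.ι) (A : V → V → Lab → Set c.X.X),
  c.Stp sg ψ i1 i2 → Desc c ψ i1 i2 A → ∀ a b a' b', ∃ φ : Lab → ℝ,
  Tendsto (fun M => c.ν.av2 M φ) c.U (𝓝 0) ∧ ∀ l,
    Tendsto (fun M => c.ν.av2 M fun l' => c.X.μ.real {y | y ∈ rec1 c A i1 l' a b ∧
      y ∈ rec1 c A i1 l' ((stp c i1 i2 l • sg) a') ((stp c i1 i2 l • sg) b') ∧
      ¬ (y ∈ rec1 c A i1 l a a' ↔ c.X.Tz (stp c i1 i2 l') y ∈ rec1 c A i1 l b b')}) c.U (𝓝 (φ l))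

def AlgC : Prop := GC → AlgA → AlgT → AlgB → AlgIR

end T3x

end

end PkSpecG

section PkInd2

/-! Row Ind2: two slots are independent over the internal base. -/

set_option autoImplicit false
set_option linter.unusedVariables false
set_option warn.classDefReducibility false

open MeasureTheory ProbabilityTheory Filter Topology Function Finset ComplexConjugate
open scoped BigOperators
open Fib27 (BM sup pr Oc Orow F23 LInd Mem)

noncomputable section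

namespace T3x

namespace Ind2

theorem ae_comp {Ω Ω' : Type} {m : MeasurableSpace Ω} {m' : MeasurableSpace Ω'} {μ : Measure Ω}
    {μ' : Measure Ω'} {p : Ω → Ω'} (h : MeasurePreserving p μ μ') {f g : Ω' → ℂ}
    (e : f =ᵐ[μ'] g) : (fun x => f (p x)) =ᵐ[μ] fun x => g (p x) :=
  h.quasiMeasurePreserving.ae_eq_comp e

theorem int_comp {Ω Ω' : Type} {m : MeasurableSpace Ω} {m' : MeasurableSpace Ω'} {μ : Measure Ω}
    {μ' : Measure Ω'} {p : Ω → Ω'} (h : MeasurePreserving p μ μ') {f : Ω' → ℂ}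
    (hf : BM μ' m' f) : ∫ x, f (p x) ∂μ = ∫ y, f y ∂μ' := by
  rw [← h.map_eq, integral_map h.measurable.aemeasurable (by rw [h.map_eq]; exact hf.1)]

theorem bm_comp {Ω Ω' : Type} {m : MeasurableSpace Ω} {m' : MeasurableSpace Ω'} {μ : Measure Ω}
    {μ' : Measure Ω'} {p : Ω → Ω'} (h : MeasurePreserving p μ μ') {f : Ω' → ℂ}
    (hf : BM μ' m' f) : BM μ m fun x => f (p x) := by
  obtain ⟨h1, C, hC⟩ := hf
  exact ⟨h1.comp_measurePreserving h, C, h.quasiMeasurePreserving.ae hC⟩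

theorem rep (a : BasA) {Ω : Type} (B : MeasurableSpace Ω) {m0 : MeasurableSpace Ω} {μ : Measure Ω}
    {f : Ω → ℂ} (hf : BM μ B f) : ∃ f' ∈ @Bdd Ω B, f =ᵐ[μ] f' := by
  obtain ⟨h1, D, hD⟩ := hf
  obtain ⟨f', m, b, e⟩ := a.rep B μ f (max D 0) (le_max_right _ _) h1
    (hD.mono fun x hx => hx.trans (le_max_left _ _))
  exact ⟨f', ⟨m, _, b⟩, e⟩

theorem bdd_bm {Ω : Type} {B m0 : MeasurableSpace Ω} (μ : Measure Ω) {f : Ω → ℂ}
    (hf : f ∈ @Bdd Ω B) : BM μ B f := by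
  obtain ⟨m, D, b⟩ := hf
  exact ⟨m.stronglyMeasurable.aestronglyMeasurable, D, Eventually.of_forall b⟩

theorem fam_of (t : BasT) (X : Sys) {B : MeasurableSpace X.X} (hB : Fac X B) (n : Lab → ℤ)
    {g : X.X → ℂ} (hg : g ∈ @Bdd X.X B) :
    (fun z : Lab × X.X => g (X.Tz (n z.1) z.2)) ∈ FamS B := by
  obtain ⟨m, D, b⟩ := hg
  exact ⟨fun l => m.comp (Measurable.of_comap_le (t.inv X B (n l) hB).le), D, fun z => b _⟩

theorem fam_mul {Ω : Type} {B : MeasurableSpace Ω} {F G : Lab × Ω → ℂ} (hF : F ∈ FamS B)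
    (hG : G ∈ FamS B) : (fun s => F s * G s) ∈ FamS B := by
  obtain ⟨h1, C, hC⟩ := hF
  obtain ⟨h2, D, hD⟩ := hG
  refine ⟨fun l => (h1 l).mul (h2 l), C * D, fun s => ?_⟩
  rw [norm_mul]
  exact mul_le_mul (hC s) (hD s) (norm_nonneg _) ((norm_nonneg _).trans (hC s))

theorem fam_cj {Ω : Type} {B : MeasurableSpace Ω} {F : Lab × Ω → ℂ} (hF : F ∈ FamS B) :
    (fun s => conj (F s)) ∈ FamS B := by
  obtain ⟨h1, C, hC⟩ := hF
  exact ⟨fun l => Complex.continuous_conj.measurable.comp (h1 l), C, fun s => by simpa using hC s⟩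

theorem fam_mono {Ω : Type} {B B' : MeasurableSpace Ω} (h : B ≤ B') {F : Lab × Ω → ℂ}
    (hF : F ∈ FamS B) : F ∈ FamS B' := ⟨fun l => (hF.1 l).mono h le_rfl, hF.2⟩

/-- one slot -/
theorem one (fd : Fd) {ν : Wt} {U : Ultrafilter ℕ} {X : Sys} (L : Ln ν U X)
    (B : MeasurableSpace X.X) (hB : Fac X B) (s : Slot) (f : X.X → ℂ) (hf : BM X.μ X.ms f) :
    L.W.μ[fun w => f (L.π s w) | L.shp B] =ᵐ[L.W.μ] fun w => (X.μ[f | B]) (L.π s w) := by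
  obtain ⟨f', hf', e⟩ := rep fd.a X.ms hf
  obtain ⟨k, hk, e'⟩ := rep fd.a B (hf.ce B)
  have h := fd.lb.ce L B hB _ (fam_of fd.t X (fd.t.top X) (rho s) hf') _
    (fam_of fd.t X hB (rho s) hk) fun l =>
      ((fd.t.ce X B (rho s l) f' hB (bdd_bm X.μ hf').integrable).trans
        (ae_comp (fd.t.mp X (rho s l)) ((condExp_congr_ae e.symm).trans e'))).symm
  exact (condExp_congr_ae ((ae_comp (L.emb s).mp e).trans (L.slot s f' hf'))).trans (h.trans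
    ((L.slot s k ⟨hk.1.mono hB.le le_rfl, hk.2⟩).symm.trans (ae_comp (L.emb s).mp e').symm))

/-- the power of a system -/
def pw (t : BasT) (X : Sys) (m : ℤ) : Sys where
  X := X.X
  μ := X.μ
  T := { toEquiv := (X.T.toEquiv : Equiv.Perm X.X) ^ m
         measurable_toFun := (t.mp X m).measurable
         measurable_invFun := by
           have h := (t.mp X (-m)).measurable
           rw [Sys.Tz, zpow_neg] at h
           exact h }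
  mp := t.mp X m

theorem pw_Tz (t : BasT) (X : Sys) (m n : ℤ) : (pw t X m).Tz n = X.Tz (m * n) := by
  rw [Sys.Tz, Sys.Tz, zpow_mul]
  rfl

theorem pw_fac (t : BasT) (X : Sys) (m : ℤ) {B : MeasurableSpace X.X} (hB : Fac X B) :
    Fac (pw t X m) B :=
  ⟨hB.le, hB.nl, by rw [pw_Tz]; exact (t.inv X B _ hB).le, by rw [pw_Tz]; exact (t.inv X B _ hB).le⟩

theorem pw_pair (t : BasT) {X Z : Sys} (m : ℤ) {B : MeasurableSpace X.X} {p : Bool → Z.X → X.X}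
    (h : Pair X B Z p) : Pair (pw t X m) B (pw t Z m) p :=
  ⟨h.nice, fun i => ⟨(h.emb i).mp, t.emb_z Z X (p i) m (h.emb i)⟩, h.com, h.ind, h.gn⟩

theorem perp_l2 {Ω : Type} (I : MeasurableSpace Ω) {m0 : MeasurableSpace Ω} (μ : Measure Ω)
    [IsProbabilityMeasure μ] (hle : I ≤ m0) {Φ G : Ω → ℂ} (hb : BM μ m0 Φ) (hp : Fib27.Perp μ I Φ)
    (hG : MemLp G 2 μ) (hGm : AEStronglyMeasurable[I] G μ) : ∫ z, Φ z * G z ∂μ = 0 := by
  have z0 := hp.ce hle hb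
  have hI : Integrable (fun z => G z * Φ z) μ := hG.integrable_mul (hb.memLp 2)
  have e := condExp_bilin_of_aestronglyMeasurable_left (ContinuousLinearMap.mul ℝ ℂ) hGm hI
    hb.integrable
  simp only [mul_comm _ (G _)]
  rw [← integral_condExp hle]
  refine (integral_congr_ae e).trans (integral_eq_zero_of_ae ?_)
  filter_upwards [z0] with z hz
  simp [hz]

/-- orthogonality to the functions that are invariant under a power -/
theorem orth (fd : Fd) {X Z : Sys} {B : MeasurableSpace X.X} {p : Bool → Z.X → X.X} (hn : Nice X)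
    (hB : Fac X B) (hp : Pair X B Z p) {h k : X.X → ℂ} (hh : BM X.μ X.ms h) (hw : WM X B h)
    (hk : BM X.μ X.ms k) {m : ℤ} (hm : m ≠ 0) (G : Z.X → ℂ) (hG : MemLp G 2 Z.μ)
    (hi : (fun z => G (Z.Tz m z)) =ᵐ[Z.μ] G) :
    ∫ z, h (p false z) * k (p true z) * G z ∂Z.μ = 0 := by
  have w : WM (pw fd.t X m) B h := ⟨hw.1, fun g hg => by
    simp only [pw_Tz]
    exact fd.ka.mult X B hn hB h hw m hm g hg⟩
  have o := (fd.ka.wm_iff (pw fd.t X m) B (pw fd.t Z m) p (pw_fac fd.t X m hB) (pw_pair fd.t m hp)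
    h hw.1).1 w
  have hb : BM Z.μ Z.ms fun z => h (p false z) * k (p true z) :=
    (bm_comp (hp.emb false).mp hh).mul (bm_comp (hp.emb true).mp hk)
  refine @perp_l2 Z.X (Inv (pw fd.t Z m)) Z.ms Z.μ Z.pr (fd.t.finv (pw fd.t Z m)).le _ _ hb
    (fun c hc => ?_) hG
    ((fd.t.inv_iff (pw fd.t Z m) G hG.1).2 hi)
  exact (integral_congr_ae (Eventually.of_forall fun z => mul_right_comm _ _ _)).trans (o c k hc hk)

/-- integrals in the relative square -/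
theorem int_pair (fd : Fd) {X Z : Sys} {B : MeasurableSpace X.X} {p : Bool → Z.X → X.X}
    (hB : Fac X B) (hp : Pair X B Z p) {a b : X.X → ℂ} (ha : BM X.μ X.ms a) (hb : BM X.μ X.ms b) :
    ∫ z, a (p false z) * b (p true z) ∂Z.μ = ∫ x, (X.μ[a | B]) x * (X.μ[b | B]) x ∂X.μ := by
  have e : pull X.μ id B = B := by
    rw [pull, MeasurableSpace.comap_id]
    exact sup_eq_left.2 hB.nl
  have h := hp.ind univ (fun i => _root_.cond i b a) (by rintro (_ | _) _ <;> assumption)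
  simp only [Fintype.prod_bool, cond_true, cond_false, e] at h
  have hle := fd.a.pull_le B Z.μ X.μ (id ∘ p false) (hp.emb false).mp hB.le
  have k := fd.a.keq_fun B Z.μ X.μ (id ∘ p true) (id ∘ p false) (X.μ[b | B]) (hp.emb true).mp
    (hp.emb false).mp (hp.com true) (hb.ce B).1
  simp only [mul_comm (a _)]
  rw [← integral_condExp hle, integral_congr_ae h,
    ← int_comp (hp.emb false).mp (((ha.ce B).mul (hb.ce B)).mono hB.le)]
  refine integral_congr_ae ?_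
  filter_upwards [k] with z hz
  rw [mul_comm]
  exact congrArg _ hz

theorem av_le (ν : Wt) (M : ℕ) (φ : ℤ → ℂ) (c : ℝ) (h : ∀ d, ‖φ d‖ ≤ c) : ‖ν.av M φ‖ ≤ c := by
  refine (norm_sum_le_of_le _ (n := fun d => ν.w M d * c) fun d _ => ?_).trans ?_
  · rw [norm_smul, Real.norm_of_nonneg (ν.nn M d)]
    exact mul_le_mul_of_nonneg_left (h d) (ν.nn M d)
  · rw [← sum_mul, ν.one, one_mul]

def lab (b : Bool) (M : ℕ) (d d' : ℤ) : Lab := if b then (M, d, d') else (M, d', d)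

theorem av2_eq (ν : Wt) (M : ℕ) (b : Bool) (φ : Lab → ℂ) :
    ν.av2 M φ = ν.av M fun d' => ν.av M fun d => φ (lab b M d d') := by
  cases b
  · rfl
  · simp only [Wt.av2, Wt.av, lab, if_true, smul_sum]
    rw [sum_comm]
    exact sum_congr rfl fun d _ => sum_congr rfl fun d' _ => smul_comm _ _ _

/-- correlations along two different slots -/
theorem corr (t : BasT) (ν : Wt) (Z : Sys) {s s' : Slot} (hs : s ≠ s') (h0 : s.1 ≠ 0)
    {H G : Z.X → ℂ} (hH : BM Z.μ Z.ms H) (hG : BM Z.μ Z.ms G)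
    (hz : ∀ m : ℤ, m ≠ 0 →
      Tendsto (fun M => ∫ z, ‖ν.av M fun d => H (Z.Tz (m * d) z)‖ ^ 2 ∂Z.μ) atTop (𝓝 0)) :
    Tendsto (fun M => ν.av2 M fun l => ∫ z, H (Z.Tz (rho s l) z) * G (Z.Tz (rho s' l) z) ∂Z.μ)
      atTop (𝓝 0) := by
  have hT : ∀ (n : ℤ) {f}, BM Z.μ Z.ms f → BM Z.μ Z.ms fun z => f (Z.Tz n z) := fun n f hf =>
    bm_comp (t.mp Z n) hf
  obtain ⟨m, k, hm, e⟩ : ∃ (m : ℤ) (k : ℤ → ℤ), m ≠ 0 ∧ ∀ M d d',
      ∫ z, H (Z.Tz (rho s (lab s.2 M d d')) z) * G (Z.Tz (rho s' (lab s.2 M d d')) z) ∂Z.μ =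
        ∫ z, H (Z.Tz (m * d) z) * G (Z.Tz (k d') z) ∂Z.μ := by
    obtain ⟨r, b⟩ := s
    obtain ⟨r', b'⟩ := s'
    by_cases hb : b = b'
    · subst hb
      refine ⟨r - r', fun _ => 0, fun e => hs (by rw [sub_eq_zero.1 e]), fun M d d' => ?_⟩
      rw [← int_comp (t.mp Z (r' * d)) ((hT ((r - r') * d) hH).mul (hT 0 hG))]
      simp only [← t.add]
      cases b <;> simp [rho, lab, sub_mul]
    · refine ⟨r, fun d' => r' * d', h0, fun M d d' => ?_⟩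
      cases b <;> cases b' <;> simp [rho, lab] at hb ⊢
  obtain ⟨-, C, hC⟩ := id hG
  have l := ((hz m hm).sqrt).mul_const (max C 0)
  rw [Real.sqrt_zero, zero_mul] at l
  refine squeeze_zero_norm (fun M => ?_) l
  rw [av2_eq ν M s.2]
  refine av_le ν M _ _ fun d' => ?_
  simp only [e]
  have hA : MemLp (fun z => ν.av M fun d => H (Z.Tz (m * d) z)) 2 Z.μ :=
    memLp_finsetSum _ fun d _ => ((hT (m * d) hH).memLp 2).const_smul (ν.w M d)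
  have e2 : (ν.av M fun d => ∫ z, H (Z.Tz (m * d) z) * G (Z.Tz (k d') z) ∂Z.μ) =
      ∫ z, (ν.av M fun d => H (Z.Tz (m * d) z)) * G (Z.Tz (k d') z) ∂Z.μ := by
    simp only [Wt.av, sum_mul, smul_mul_assoc]
    refine Eq.trans ?_ (integral_finsetSum (f := fun d z => ν.w M d • (H (Z.Tz (m * d) z) *
      G (Z.Tz (k d') z))) _ fun d _ => ((hT _ hH).mul (hT _ hG)).integrable.smul (ν.w M d)).symm
    exact sum_congr rfl fun d _ => (integral_smul _ _).symm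
  rw [e2]
  have hI := (hA.integrable (by norm_num)).norm
  refine (norm_integral_le_of_norm_le (hI.mul_const (max C 0)) ?_).trans ?_
  · filter_upwards [(t.mp Z (k d')).quasiMeasurePreserving.ae hC] with z hz
    rw [norm_mul]
    exact mul_le_mul_of_nonneg_left (hz.trans (le_max_left _ _)) (norm_nonneg _)
  · rw [integral_mul_const]
    refine mul_le_mul_of_nonneg_right (Real.le_sqrt_of_sq_le ?_) (le_max_right _ _)
    have v := variance_nonneg (fun z => ‖ν.av M fun d => H (Z.Tz (m * d) z)‖) Z.μ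
    rw [variance_eq_sub hA.norm] at v
    exact sub_nonneg.1 v

theorem bm_sq {X Z : Sys} {B : MeasurableSpace X.X} {p : Bool → Z.X → X.X} (hp : Pair X B Z p)
    {f : X.X → ℂ} (hf : BM X.μ X.ms f) :
    BM Z.μ Z.ms fun z => f (p false z) * conj (f (p true z)) :=
  (bm_comp (hp.emb false).mp hf).mul (bm_comp (hp.emb true).mp hf.conj)

theorem emb_fun (fd : Fd) {X Z : Sys} {p : Z.X → X.X} (hp : Emb Z X p) (n : ℤ) {f : X.X → ℂ}
    (hf : BM X.μ X.ms f) : (fun z => f (p (Z.Tz n z))) =ᵐ[Z.μ] fun z => f (X.Tz n (p z)) :=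
  fd.a.keq_fun X.ms Z.μ X.μ (p ∘ Z.Tz n) (X.Tz n ∘ p) f (hp.mp.comp (fd.t.mp Z n))
    ((fd.t.mp X n).comp hp.mp) (fd.t.emb_z Z X p n hp) hf.1

theorem sq_int (fd : Fd) {X Z : Sys} {B : MeasurableSpace X.X} {p : Bool → Z.X → X.X}
    (hB : Fac X B) (hp : Pair X B Z p) {h g k : X.X → ℂ} (bh : BM X.μ X.ms h) (bg : BM X.μ X.ms g)
    (n n' : ℤ) (e : k =ᵐ[X.μ] X.μ[fun x => h (X.Tz n x) * g (X.Tz n' x) | B]) :
    ∫ x, k x * conj (k x) ∂X.μ =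
      ∫ z, h (p false (Z.Tz n z)) * conj (h (p true (Z.Tz n z))) *
        (g (p false (Z.Tz n' z)) * conj (g (p true (Z.Tz n' z)))) ∂Z.μ := by
  have b : BM X.μ X.ms fun x => h (X.Tz n x) * g (X.Tz n' x) :=
    (bm_comp (fd.t.mp X n) bh).mul (bm_comp (fd.t.mp X n') bg)
  refine Eq.trans (integral_congr_ae ?_) ((int_pair fd hB hp b b.conj).symm.trans
    (integral_congr_ae ?_))
  · filter_upwards [e, Fib27.ce_conj hB.le b] with x h1 h2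
    rw [h2, h1]
  · filter_upwards [emb_fun fd (hp.emb false) n bh, emb_fun fd (hp.emb true) n bh,
      emb_fun fd (hp.emb false) n' bg, emb_fun fd (hp.emb true) n' bg] with z h1 h2 h3 h4
    rw [h1, h2, h3, h4, map_mul]
    ring

theorem sq_lim (fd : Fd) {ν : Wt} (erg : ERG ν) {X : Sys} (B : MeasurableSpace X.X) (hn : Nice X)
    (hB : KC X B) {s s' : Slot} (hs : s ≠ s') (h0 : s.1 ≠ 0) {h g : X.X → ℂ} (bh : BM X.μ X.ms h)
    (bg : BM X.μ X.ms g) (hz : X.μ[h | B] =ᵐ[X.μ] 0) (k : Lab × X.X → ℂ)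
    (e : ∀ l, (fun x => k (l, x)) =ᵐ[X.μ]
      X.μ[fun x => h (X.Tz (rho s l) x) * g (X.Tz (rho s' l) x) | B]) :
    Tendsto (fun M => ν.av2 M fun l => ∫ x, k (l, x) * conj (k (l, x)) ∂X.μ) atTop (𝓝 0) := by
  obtain ⟨Z, p, hp⟩ : ∃ Z p, Pair X B Z p := fd.rp Bool (fun _ => X) X B (fun _ => id) false
    (fun _ => hn) hB.1 (fun _ => (fd.t.emb_id X).mp) fun _ A _ => by rw [id_comp, comp_id]
  have hw : WM X B h := (fd.kb.wm X B hn hB.1 h (bh.memLp 2)).2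
    (by rwa [le_antisymm hB.2 (fd.kb.le X B hn hB.1)])
  have l0 : ∀ m : ℤ, m ≠ 0 → Tendsto (fun M => ∫ z, ‖ν.av M fun d =>
      (fun z => h (p false z) * conj (h (p true z))) (Z.Tz (m * d) z)‖ ^ 2 ∂Z.μ) atTop (𝓝 0) :=
    fun m hm => (fd.mix ν erg).zero Z m (fun z => h (p false z) * conj (h (p true z)))
      ((bm_sq hp bh).memLp 2) fun G hG hi => orth fd hn hB.1 hp bh hw bh.conj hm G hG hi
  have l := corr fd.t ν Z hs h0 (bm_sq hp bh) (bm_sq hp bg) l0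
  have e3 : (fun l => ∫ x, k (l, x) * conj (k (l, x)) ∂X.μ) = _ :=
    funext fun l => sq_int fd hB.1 hp bh bg _ _ (e l)
  rw [e3]
  exact l

/-- a function of conditional mean zero in one of two slots -/
theorem key (fd : Fd) {ν : Wt} {U : Ultrafilter ℕ} (hU : (U : Filter ℕ) ≤ atTop) (erg : ERG ν)
    {X : Sys} (L : Ln ν U X) (B : MeasurableSpace X.X) (hn : Nice X) (hB : KC X B) {s s' : Slot}
    (hs : s ≠ s') (h0 : s.1 ≠ 0) {h g : X.X → ℂ} (hh : h ∈ @Bdd X.X X.ms) (hg : g ∈ @Bdd X.X X.ms)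
    (hz : X.μ[h | B] =ᵐ[X.μ] 0) :
    L.W.μ[fun w => h (L.π s w) * g (L.π s' w) | L.shp B] =ᵐ[L.W.μ] 0 := by
  have bh := bdd_bm X.μ hh
  have bg := bdd_bm X.μ hg
  have F1 := fam_of fd.t X (fd.t.top X) (rho s) hh
  have F2 := fam_of fd.t X (fd.t.top X) (rho s') hg
  obtain ⟨F', hF', e⟩ := fd.lb.cex X B hB.1 _ (fam_mul F1 F2)
  have e1 : (fun w => h (L.π s w) * g (L.π s' w)) =ᵐ[L.W.μ]
      L.hat fun z => h (X.Tz (rho s z.1) z.2) * g (X.Tz (rho s' z.1) z.2) := by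
    filter_upwards [L.slot s h hh, L.slot s' g hg] with w h1 h2
    rw [h1, h2, (L.ch w).mul _ F1 _ F2]
  have e2 := (condExp_congr_ae (m := L.shp B) e1).trans (fd.lb.ce L B hB.1 _ (fam_mul F1 F2) F' hF' e)
  have hm := fam_mono hB.1.le hF'
  have z0 := tendsto_nhds_unique (L.lim _ (fam_mul hm (fam_cj hm)))
    ((sq_lim fd erg B hn hB hs h0 bh bg hz F' e).mono_left hU)
  have bb := ((bm_comp (L.emb s).mp bh).mul (bm_comp (L.emb s').mp bg)).ce (L.shp B)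
  refine Fib27.eq_zero_of_int_conj (bb.mono (fd.lb.fac L B hB.1).le) ((integral_congr_ae ?_).trans z0)
  filter_upwards [e2] with w hw
  rw [hw, (L.ch w).mul _ hm _ (fam_cj hm), (L.ch w).cj _ hm]

end Ind2

open Ind2 in
theorem ind2 : Ind2R := by
  intro fd ν U hU erg X B L ι sl S hn hB hi h0 hc f hf
  classical
  have hle := (fd.lb.fac L B hB.1).le
  rcases (show S.card = 0 ∨ S.card = 1 ∨ S.card = 2 by omega) with h | h | h
  · rw [card_eq_zero.1 h]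
    simp only [prod_empty]
    rw [condExp_const hle]
  · obtain ⟨i, rfl⟩ := card_eq_one.1 h
    simp only [prod_singleton]
    exact one fd L B hB.1 _ _ (hf i (mem_singleton_self i))
  obtain ⟨i, j, hij, rfl⟩ := card_eq_two.1 h
  simp only [prod_pair hij]
  have mi : i ∈ ({i, j} : Finset ι) := by simp
  have mj : j ∈ ({i, j} : Finset ι) := by simp
  have bf := hf i mi
  have bg := hf j mj
  have be := (bf.ce B).mono hB.1.le
  obtain ⟨h', hh', eh⟩ := rep fd.a X.ms (bf.sub be)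
  obtain ⟨g', hg', eg⟩ := rep fd.a X.ms bg
  have k := key fd hU erg L B hn hB (fun e => hij (hi mi mj e)) (h0 i mi) hh' hg'
    ((condExp_congr_ae eh.symm).trans
      ((Fib27.perp_sub_ce hB.1.le bf).ce hB.1.le (bf.sub be)))
  have pi := (L.emb (sl i)).mp
  have pj := (L.emb (sl j)).mp
  have b1 := (fd.a.bm_comp B L.W.μ X.μ _ _ pi (bf.ce B)).mono (fd.lb.slot L B (sl i) hB.1)
  have k1 := Fib27.ce_mul hle b1 (bm_comp pj bg)
  have e : (fun w => f i (L.π (sl i) w) * f j (L.π (sl j) w)) =ᵐ[L.W.μ]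
      (fun w => (X.μ[f i | B]) (L.π (sl i) w) * f j (L.π (sl j) w)) +
        fun w => h' (L.π (sl i) w) * g' (L.π (sl j) w) := by
    filter_upwards [ae_comp pi eh, ae_comp pj eg] with w h1 h2
    rw [Pi.add_apply, ← h1, ← h2]
    ring
  filter_upwards [condExp_congr_ae (m := L.shp B) e, condExp_add
    ((b1.mono hle).mul (bm_comp pj bg)).integrable ((bm_comp pi (bdd_bm X.μ hh')).mul
      (bm_comp pj (bdd_bm X.μ hg'))).integrable (L.shp B), k, k1,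
    one fd L B hB.1 (sl j) _ bg] with w h1 h2 h3 h4 h5
  rw [h1, h2, Pi.add_apply, h3, h4, h5, Pi.zero_apply, add_zero]

end T3x

end

end PkInd2

section PkLfB

/-! Row LfB: internal functions on the limit system. -/

set_option autoImplicit false
set_option linter.unusedVariables false
set_option warn.classDefReducibility false

open MeasureTheory ProbabilityTheory Filter Topology Function Finset ComplexConjugate
open scoped BigOperators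
open Fib27 (BM)

noncomputable section

namespace T3x

namespace LfBx

section Alg

variable {Ω : Type} {B : MeasurableSpace Ω} {F G : Lab × Ω → ℂ}

theorem fam_const (B : MeasurableSpace Ω) (c : ℂ) : (fun _ => c) ∈ FamS B :=
  ⟨fun _ => measurable_const, ‖c‖, fun _ => le_rfl⟩

theorem fam_add (hF : F ∈ FamS B) (hG : G ∈ FamS B) : (fun s => F s + G s) ∈ FamS B := by
  obtain ⟨h1, C, hC⟩ := hF
  obtain ⟨h2, D, hD⟩ := hG
  exact ⟨fun l => (h1 l).add (h2 l), C + D,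
    fun s => (norm_add_le _ _).trans (add_le_add (hC s) (hD s))⟩

theorem fam_mul (hF : F ∈ FamS B) (hG : G ∈ FamS B) : (fun s => F s * G s) ∈ FamS B := by
  obtain ⟨h1, C, hC⟩ := hF
  obtain ⟨h2, D, hD⟩ := hG
  refine ⟨fun l => (h1 l).mul (h2 l), C * D, fun s => ?_⟩
  rw [norm_mul]
  exact mul_le_mul (hC s) (hD s) (norm_nonneg _) ((norm_nonneg _).trans (hC s))

theorem fam_map (hF : F ∈ FamS B) {φ : ℂ → ℂ} (hφ : Continuous φ) :
    (fun s => φ (F s)) ∈ FamS B := by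
  obtain ⟨h1, C, hC⟩ := hF
  obtain ⟨D, hD⟩ := (isCompact_closedBall (0 : ℂ) C).exists_bound_of_continuousOn hφ.continuousOn
  exact ⟨fun l => hφ.measurable.comp (h1 l), D, fun s => hD _ (by simpa using hC s)⟩

theorem fam_cmul (c : ℂ) (hF : F ∈ FamS B) : (fun s => c * F s) ∈ FamS B :=
  fam_mul (fam_const B c) hF

theorem fam_cj (hF : F ∈ FamS B) : (fun s => conj (F s)) ∈ FamS B :=
  fam_map hF Complex.continuous_conj

theorem fam_sub (hF : F ∈ FamS B) (hG : G ∈ FamS B) : (fun s => F s - G s) ∈ FamS B := by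
  have := fam_add hF (fam_cmul (-1) hG)
  simpa [sub_eq_add_neg] using this

theorem fam_nrm (hF : F ∈ FamS B) : (fun s => (‖F s‖ : ℂ)) ∈ FamS B :=
  fam_map hF (φ := fun z => (‖z‖ : ℂ)) (Complex.continuous_ofReal.comp continuous_norm)

theorem fam_mono {B' : MeasurableSpace Ω} (h : B ≤ B') (hF : F ∈ FamS B) : F ∈ FamS B' :=
  ⟨fun l => (hF.1 l).mono h le_rfl, hF.2⟩

variable {χ : (Lab × Ω → ℂ) → ℂ}

theorem ch_cmul (h : IsChar (FamS B) χ) (c : ℂ) (hF : F ∈ FamS B) :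
    χ (fun s => c * F s) = c * χ F := by
  have := h.mul _ (fam_const B c) _ hF
  rw [h.const] at this
  exact this

theorem ch_sub (h : IsChar (FamS B) χ) (hF : F ∈ FamS B) (hG : G ∈ FamS B) :
    χ (fun s => F s - G s) = χ F - χ G := by
  have h1 := h.add _ hF _ (fam_cmul (-1) hG)
  rw [ch_cmul h _ hG] at h1
  simpa [sub_eq_add_neg] using h1

theorem ch_pos (h : IsChar (FamS B) χ) {r : Lab × Ω → ℝ} (hr : ∀ s, 0 ≤ r s)
    (hF : (fun s => (r s : ℂ)) ∈ FamS B) : ∃ t : ℝ, 0 ≤ t ∧ χ (fun s => (r s : ℂ)) = t := by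
  have h1 := h.cj _ hF
  simp only [Complex.conj_ofReal] at h1
  obtain ⟨C, hC⟩ := hF.2
  have hC' : ∀ s, r s ≤ C := fun s => by
    have := hC s
    rw [Complex.norm_real, Real.norm_eq_abs] at this
    exact (le_abs_self _).trans this
  have h2 := h.bdd _ (fam_sub (fam_const B (C : ℂ)) hF) C fun s => by
    rw [← Complex.ofReal_sub, Complex.norm_real, Real.norm_eq_abs, abs_le]
    constructor <;> linarith [hr s, hC' s]
  rw [ch_sub h (fam_const B _) hF, h.const] at h2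
  have h3 := (Complex.re_le_norm _).trans h2
  simp only [Complex.sub_re, Complex.ofReal_re] at h3
  exact ⟨(χ fun s => (r s : ℂ)).re, by linarith, (Complex.conj_eq_iff_re.1 h1.symm).symm⟩

theorem ch_nrm (h : IsChar (FamS B) χ) (hF : F ∈ FamS B) :
    χ (fun s => (‖F s‖ : ℂ)) = (‖χ F‖ : ℂ) := by
  obtain ⟨t, ht, e⟩ := ch_pos h (fun s => norm_nonneg (F s)) (fam_nrm hF)
  have h1 := h.mul _ (fam_nrm hF) _ (fam_nrm hF)
  have h2 := h.mul _ hF _ (fam_cj hF)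
  have h3 : (fun s => (‖F s‖ : ℂ) * (‖F s‖ : ℂ)) = fun s => F s * conj (F s) := by
    funext s
    rw [Complex.mul_conj, Complex.normSq_eq_norm_sq]
    push_cast
    ring
  rw [h3, h2, h.cj _ hF, e, Complex.mul_conj, Complex.normSq_eq_norm_sq] at h1
  have h4 : ‖χ F‖ ^ 2 = t ^ 2 := by
    have : ((‖χ F‖ ^ 2 : ℝ) : ℂ) = ((t ^ 2 : ℝ) : ℂ) := by
      rw [h1]
      push_cast
      ring
    exact_mod_cast this
  rw [e, (pow_left_inj₀ (norm_nonneg _) ht two_ne_zero).1 h4]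

/-- radial retraction to the disc of radius `C` -/
def clip (C : ℝ) (z : ℂ) : ℂ := ((C / max C ‖z‖ : ℝ) : ℂ) * z

theorem max_eq (C : ℝ) (z : ℂ) : ((max C ‖z‖ : ℝ) : ℂ) =
    (1 / 2 : ℂ) * (((C : ℂ) + (‖z‖ : ℂ)) + (‖(C : ℂ) - (‖z‖ : ℂ)‖ : ℂ)) := by
  rw [← Complex.ofReal_sub, Complex.norm_real, Real.norm_eq_abs]
  have : max C ‖z‖ = (1 / 2 : ℝ) * ((C + ‖z‖) + |C - ‖z‖|) := by
    rcases le_total C ‖z‖ with h | h
    · rw [max_eq_right h, abs_of_nonpos (by linarith)]; ring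
    · rw [max_eq_left h, abs_of_nonneg (by linarith)]; ring
  rw [this]
  push_cast
  ring

theorem clip_cont {C : ℝ} (hC : 0 < C) : Continuous (clip C) := by
  refine Continuous.mul (Complex.continuous_ofReal.comp ?_) continuous_id
  exact continuous_const.div (continuous_const.max continuous_norm)
    fun z => (lt_max_of_lt_left hC).ne'

theorem clip_le {C : ℝ} (hC : 0 < C) (z : ℂ) : ‖clip C z‖ ≤ C := by
  have hm : 0 < max C ‖z‖ := lt_max_of_lt_left hC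
  rw [clip, norm_mul, Complex.norm_real, Real.norm_of_nonneg (div_pos hC hm).le,
    div_mul_eq_mul_div, div_le_iff₀ hm]
  exact mul_le_mul_of_nonneg_left (le_max_right _ _) hC.le

theorem clip_near {C : ℝ} (hC : 0 < C) (g z : ℂ) (hg : ‖g‖ ≤ C) :
    ‖g - clip C z‖ ≤ 2 * ‖g - z‖ := by
  rcases le_total ‖z‖ C with h | h
  · rw [clip, max_eq_left h, div_self hC.ne']
    simp only [Complex.ofReal_one, one_mul]
    linarith [norm_nonneg (g - z)]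
  · have hz : 0 < ‖z‖ := hC.trans_le h
    have h1 : ‖z - clip C z‖ = ‖z‖ - C := by
      have : z - clip C z = ((1 - C / ‖z‖ : ℝ) : ℂ) * z := by
        rw [clip, max_eq_right h]
        push_cast
        ring
      rw [this, norm_mul, Complex.norm_real,
        Real.norm_of_nonneg (sub_nonneg.2 ((div_le_one hz).2 h))]
      field_simp
    have h2 : ‖z‖ - ‖g‖ ≤ ‖g - z‖ := by
      rw [norm_sub_rev]
      exact norm_sub_norm_le _ _
    have h3 : ‖g - clip C z‖ ≤ ‖g - z‖ + ‖z - clip C z‖ := norm_sub_le_norm_sub_add_norm_sub _ _ _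
    linarith

theorem ch_clip (h : IsChar (FamS B) χ) {C : ℝ} (hC : 0 < C) (hF : F ∈ FamS B) :
    χ (fun s => clip C (F s)) = clip C (χ F) := by
  have hm : ∀ z : ℂ, ((max C ‖z‖ : ℝ) : ℂ) ≠ 0 := fun z => by
    exact_mod_cast (lt_max_of_lt_left hC).ne'
  have a1 := fam_add (fam_const B (C : ℂ)) (fam_nrm hF)
  have a2 := fam_sub (fam_const B (C : ℂ)) (fam_nrm hF)
  have a3 := fam_add a1 (fam_nrm a2)
  have h1 : χ (fun s => ((max C ‖F s‖ : ℝ) : ℂ)) = ((max C ‖χ F‖ : ℝ) : ℂ) := by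
    simp only [max_eq]
    rw [ch_cmul h _ a3, h.add _ a1 _ (fam_nrm a2), h.add _ (fam_const B _) _ (fam_nrm hF),
      ch_nrm h a2, ch_sub h (fam_const B _) (fam_nrm hF), h.const, ch_nrm h hF]
  have a4 : (fun s => ((max C ‖F s‖ : ℝ) : ℂ)) ∈ FamS B := by
    simp only [max_eq]
    exact fam_cmul _ a3
  have h2 := h.mul _ (fam_map hF (clip_cont hC)) _ a4
  have h3 : (fun s => clip C (F s) * ((max C ‖F s‖ : ℝ) : ℂ)) = fun s => (C : ℂ) * F s := by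
    funext s
    have := hm (F s)
    rw [clip, Complex.ofReal_div]
    field_simp
  rw [h3, ch_cmul h _ hF, h1] at h2
  have := hm (χ F)
  rw [clip, Complex.ofReal_div]
  field_simp
  exact h2.symm

end Alg

theorem gen_meas {S Ω : Type} {A : Set (S → ℂ)} (hat : (S → ℂ) → Ω → ℂ) {F : S → ℂ}
    (hF : F ∈ A) : Measurable[gen A hat] (hat F) :=
  measurable_iff_comap_le.2 (le_iSup₂_of_le (f := fun F (_ : F ∈ A) =>
    MeasurableSpace.comap (hat F) (inferInstance : MeasurableSpace ℂ)) F hF le_rfl)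

theorem gen_le {S Ω : Type} {A : Set (S → ℂ)} (hat : (S → ℂ) → Ω → ℂ) {m : MeasurableSpace Ω}
    (h : ∀ F ∈ A, Measurable[m] (hat F)) : gen A hat ≤ m :=
  iSup₂_le fun F hF => measurable_iff_comap_le.1 (h F hF)

theorem gen_image {S Ω : Type} (A : Set (S → ℂ)) (hat : (S → ℂ) → Ω → ℂ) :
    gen (hat '' A) id = gen A hat := by
  unfold gen
  rw [iSup_image]
  rfl

variable {ν : Wt} {U : Ultrafilter ℕ} {X : Sys}

theorem hat_meas (L : Ln ν U X) {F : Lab × X.X → ℂ} (hF : F ∈ FamS X.ms) :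
    Measurable[L.W.ms] (L.hat F) := by
  rw [L.gn]
  exact gen_meas _ hF

theorem hat_bdd (L : Ln ν U X) {F : Lab × X.X → ℂ} (hF : F ∈ FamS X.ms) :
    L.hat F ∈ @Bdd L.W.X L.W.ms := by
  obtain ⟨C, hC⟩ := hF.2
  exact ⟨hat_meas L hF, C, fun w => (L.ch w).bdd F hF C hC⟩

theorem hat_bm (L : Ln ν U X) {F : Lab × X.X → ℂ} (hF : F ∈ FamS X.ms) :
    BM L.W.μ L.W.ms (L.hat F) := by
  obtain ⟨h1, C, hC⟩ := hat_bdd L hF
  exact ⟨h1.aestronglyMeasurable, C, Eventually.of_forall hC⟩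

theorem int_zero (L : Ln ν U X) {F : Lab × X.X → ℂ} (hF : F ∈ FamS X.ms)
    (h : ∀ l, ∫ x, F (l, x) ∂X.μ = 0) : ∫ w, L.hat F w ∂L.W.μ = 0 := by
  have h1 := L.lim F hF
  simp only [h, Wt.av2, Wt.av, smul_zero, sum_const_zero] at h1
  exact tendsto_nhds_unique h1 tendsto_const_nhds

theorem shp_le (a : BasA) (L : Ln ν U X) {B : MeasurableSpace X.X} (h : B ≤ X.ms) :
    L.shp B ≤ L.W.ms :=
  sup_le (gen_le _ fun F hF => hat_meas L (fam_mono h hF)) (a.nul_le _)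

theorem hat_shp (L : Ln ν U X) {B : MeasurableSpace X.X} {F : Lab × X.X → ℂ} (hF : F ∈ FamS B) :
    Measurable[L.shp B] (L.hat F) := (gen_meas L.hat hF).mono le_sup_left le_rfl

theorem fam_tz (t : BasT) {B : MeasurableSpace X.X} (h : Fac X B) {F : Lab × X.X → ℂ}
    (hF : F ∈ FamS B) (n : Lab → ℤ) : (fun s : Lab × X.X => F (s.1, X.Tz (n s.1) s.2)) ∈ FamS B := by
  obtain ⟨h1, C, hC⟩ := hF
  refine ⟨fun l => ?_, C, fun s => hC _⟩
  have hm : Measurable[B, B] (X.Tz (n l)) := measurable_iff_comap_le.2 (t.inv X B (n l) h).le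
  exact (h1 l).comp hm

theorem fam_bm {B : MeasurableSpace X.X} {F : Lab × X.X → ℂ} (hF : F ∈ FamS B) (l : Lab) :
    BM X.μ B fun x => F (l, x) := by
  obtain ⟨h1, C, hC⟩ := hF
  exact ⟨(h1 l).stronglyMeasurable.aestronglyMeasurable, C, Eventually.of_forall fun x => hC _⟩

theorem cong (L : Ln ν U X) {F F' : Lab × X.X → ℂ} (hF : F ∈ FamS X.ms) (hF' : F' ∈ FamS X.ms)
    (h : ∀ l, (fun x => F (l, x)) =ᵐ[X.μ] fun x => F' (l, x)) : L.hat F =ᵐ[L.W.μ] L.hat F' := by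
  have hD := fam_sub hF hF'
  have h0 := int_zero L (fam_mul hD (fam_cj hD)) fun l => by
    refine integral_eq_zero_of_ae ?_
    filter_upwards [h l] with x hx
    simp [hx]
  have h1 : ∀ w, L.hat (fun s => (F s - F' s) * conj (F s - F' s)) w =
      (L.hat F w - L.hat F' w) * conj (L.hat F w - L.hat F' w) := fun w => by
    have e1 := (L.ch w).mul _ hD _ (fam_cj hD)
    have e2 := (L.ch w).cj _ hD
    have e3 := ch_sub (L.ch w) hF hF'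
    rw [e1, e2, e3]
  simp only [h1] at h0
  filter_upwards [Fib27.eq_zero_of_int_conj ((hat_bm L hF).sub (hat_bm L hF')) h0] with w hw
  exact sub_eq_zero.1 hw

theorem fac (b : Bas) (L : Ln ν U X) {B : MeasurableSpace X.X} (h : Fac X B) :
    Fac L.W (L.shp B) := by
  have hb := b.t.bot L.W
  have key : ∀ n : ℤ, (∀ F ∈ FamS X.ms, ∀ w, L.hat F (L.W.Tz n w) =
      L.hat (fun s => F (s.1, X.Tz n s.2)) w) → (L.shp B).comap (L.W.Tz n) ≤ L.shp B := by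
    intro n hn
    unfold Ln.shp
    rw [MeasurableSpace.comap_sup]
    refine sup_le_sup ?_ (b.t.inv L.W _ n hb).le
    refine MeasurableSpace.comap_le_iff_le_map.2 (gen_le _ fun F hF => ?_)
    have h1 : Measurable[gen (FamS B) L.hat] (L.hat fun s => F (s.1, X.Tz n s.2)) :=
      gen_meas _ (fam_tz b.t h hF fun _ => n)
    have h2 : (L.hat fun s => F (s.1, X.Tz n s.2)) = L.hat F ∘ L.W.Tz n :=
      funext fun w => (hn F (fam_mono h.le hF) w).symm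
    rw [h2] at h1
    exact h1
  refine ⟨shp_le b.a L h.le, le_sup_right, key 1 fun F hF w => ?_, key (-1) fun F hF w => ?_⟩
  · simp only [b.t.one]
    exact (L.eqv F hF w).symm
  · have h1 := L.eqv _ (fam_tz b.t (b.t.top X) hF fun _ => -1) (L.W.Tz (-1) w)
    have h2 : ∀ (Y : Sys) (y : Y.X), Y.Tz (-1) (Y.T y) = y := fun Y y => by
      rw [← b.t.one, ← b.t.add, neg_add_cancel, b.t.zero]
    have h3 : L.W.T (L.W.Tz (-1) w) = w := by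
      rw [← b.t.one, ← b.t.add, add_neg_cancel, b.t.zero]
    simp only [h2, h3] at h1
    exact h1

theorem ind_bdd {A : Set X.X} (hA : MeasurableSet[X.ms] A) :
    (A.indicator fun _ => (1 : ℂ)) ∈ @Bdd X.X X.ms := by
  refine ⟨measurable_const.indicator hA, 1, fun x => ?_⟩
  by_cases h : x ∈ A <;> simp [h]

theorem slot (b : Bas) (L : Ln ν U X) {B : MeasurableSpace X.X} (s : Slot) (h : Fac X B) :
    pull L.W.μ (L.π s) B ≤ L.shp B := by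
  refine sup_le ?_ le_sup_right
  rintro _ ⟨A, hA, rfl⟩
  have hg : gen (FamS B) L.hat ≤ L.W.ms := le_sup_left.trans (shp_le b.a L h.le)
  have hF0 : (fun z : Lab × X.X => A.indicator (fun _ => (1 : ℂ)) z.2) ∈ FamS B :=
    ⟨fun l => Measurable.indicator (m := B) measurable_const hA, 1, fun z => by
      by_cases h : z.2 ∈ A <;> simp [h]⟩
  have hF := fam_tz b.t h hF0 (rho s)
  have hπ : Measurable[L.W.ms, X.ms] (L.π s) :=
    @MeasurePreserving.measurable _ _ L.W.ms X.ms _ _ _ (L.emb s).mp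
  refine (b.a.mem _ L.W.μ hg _).2 ⟨hπ (h.le _ hA),
    _, gen_meas L.hat hF (measurableSet_singleton 1), ?_⟩
  filter_upwards [L.slot s _ (ind_bdd (h.le _ hA))] with w hw
  refine propext ?_
  change L.π s w ∈ A ↔ L.hat _ w = 1
  rw [← hw]
  by_cases h : L.π s w ∈ A <;> simp [h]

theorem tset (L : Ln ν U X) {B : MeasurableSpace X.X} (h : B ≤ X.ms) :
    (∀ φ ∈ L.hat '' FamS B, φ ∈ @Bdd L.W.X L.W.ms) ∧
    (∃ φ ∈ L.hat '' FamS B, φ =ᵐ[L.W.μ] fun _ => 1) ∧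
    (∀ φ ∈ L.hat '' FamS B, ∀ φ' ∈ L.hat '' FamS B, ∃ χ ∈ L.hat '' FamS B,
      χ =ᵐ[L.W.μ] fun x => φ x * φ' x) ∧
    (∀ φ ∈ L.hat '' FamS B, ∃ χ ∈ L.hat '' FamS B, χ =ᵐ[L.W.μ] fun x => conj (φ x)) := by
  refine ⟨?_, ⟨_, ⟨_, fam_const B 1, rfl⟩, Eventually.of_forall fun w => (L.ch w).const 1⟩, ?_, ?_⟩
  · rintro _ ⟨F, hF, rfl⟩
    exact hat_bdd L (fam_mono h hF)
  · rintro _ ⟨F, hF, rfl⟩ _ ⟨G, hG, rfl⟩
    exact ⟨_, ⟨_, fam_mul hF hG, rfl⟩, Eventually.of_forall fun w =>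
      (L.ch w).mul _ (fam_mono h hF) _ (fam_mono h hG)⟩
  · rintro _ ⟨F, hF, rfl⟩
    exact ⟨_, ⟨_, fam_cj hF, rfl⟩, Eventually.of_forall fun w => (L.ch w).cj _ (fam_mono h hF)⟩

theorem ce (b : Bas) (L : Ln ν U X) {B : MeasurableSpace X.X} (h : Fac X B)
    {F F' : Lab × X.X → ℂ} (hF : F ∈ FamS X.ms) (hF' : F' ∈ FamS B)
    (e : ∀ l, (fun x => F' (l, x)) =ᵐ[X.μ] X.μ[fun x => F (l, x) | B]) :
    L.W.μ[L.hat F | L.shp B] =ᵐ[L.W.μ] L.hat F' := by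
  obtain ⟨t1, t2, t3, t4⟩ := tset L h.le
  have hF'' := fam_mono h.le hF'
  have hg := (hat_bm L hF).sub (hat_bm L hF'')
  have h0 := b.d.perp L.W.μ _ t1 t2 t3 t4 _ hg.integrable (by
    rintro _ ⟨G, hG, rfl⟩
    have hG' := fam_mono h.le hG
    have h1 := int_zero L (fam_mul (fam_sub hF hF'') hG') fun l => by
      rw [Fib27.int_sub_mul (fam_bm hF l) (fam_bm hF'' l) (fam_bm hG' l),
        ← Fib27.int_ce_mul h.le (fam_bm hF l) (fam_bm hG l), sub_eq_zero]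
      refine integral_congr_ae ?_
      filter_upwards [e l] with x hx
      rw [hx]
    rw [← h1]
    refine integral_congr_ae (Eventually.of_forall fun w => ?_)
    have e1 := (L.ch w).mul _ (fam_sub hF hF'') _ hG'
    have e3 := ch_sub (L.ch w) hF hF''
    simp only at e1 e3 ⊢
    rw [e1, e3])
  rw [gen_image] at h0
  have hle := shp_le b.a L h.le
  refine Fib27.ce_eq_of_perp hle (hat_bm L hF) ((hat_bm L hF'').of_aesm
    (hat_shp L hF').stronglyMeasurable.aestronglyMeasurable) (Fib27.perp_of_ce hle hg h0)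

theorem cex (b : Bas) (X : Sys) {B : MeasurableSpace X.X} (h : Fac X B) {F : Lab × X.X → ℂ}
    (hF : F ∈ FamS X.ms) : ∃ F' ∈ FamS B,
    ∀ l, (fun x => F' (l, x)) =ᵐ[X.μ] X.μ[fun x => F (l, x) | B] := by
  obtain ⟨h1, C, hC⟩ := hF
  have hC' : ∀ z, ‖F z‖ ≤ max C 0 := fun z => (hC z).trans (le_max_left _ _)
  have : ∀ l : Lab, ∃ f' : X.X → ℂ, Measurable[B] f' ∧ (∀ x, ‖f' x‖ ≤ max C 0) ∧
      X.μ[fun x => F (l, x) | B] =ᵐ[X.μ] f' := fun l =>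
    b.a.rep B X.μ _ _ (le_max_right _ _) stronglyMeasurable_condExp.aestronglyMeasurable
      (ae_bdd_norm_condExp_of_ae_bdd_norm (Eventually.of_forall fun x => hC' _))
  choose f hf1 hf2 hf3 using this
  exact ⟨fun z => f z.1 z.2, ⟨hf1, _, fun z => hf2 _ _⟩, fun l => (hf3 l).symm⟩

theorem span_mem (L : Ln ν U X) {B : MeasurableSpace X.X} (h : B ≤ X.ms) {φ : L.W.X → ℂ}
    (hφ : φ ∈ Submodule.span ℂ (L.hat '' FamS B)) : φ ∈ L.hat '' FamS B := by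
  induction hφ using Submodule.span_induction with
  | mem x hx => exact hx
  | zero => exact ⟨_, fam_const B 0, funext fun w => (L.ch w).const 0⟩
  | add x y _ _ hx hy =>
    obtain ⟨F, hF, rfl⟩ := hx
    obtain ⟨G, hG, rfl⟩ := hy
    exact ⟨_, fam_add hF hG, funext fun w => (L.ch w).add _ (fam_mono h hF) _ (fam_mono h hG)⟩
  | smul c x _ hx =>
    obtain ⟨F, hF, rfl⟩ := hx
    exact ⟨_, fam_cmul c hF, funext fun w => ch_cmul (L.ch w) c (fam_mono h hF)⟩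

theorem apx (b : Bas) (L : Ln ν U X) {B : MeasurableSpace X.X} (h : Fac X B) (g : L.W.X → ℂ)
    (C ε : ℝ) (hC : 0 ≤ C) (hε : 0 < ε) (hg : AEStronglyMeasurable[L.shp B] g L.W.μ)
    (hb : ∀ᵐ w ∂L.W.μ, ‖g w‖ ≤ C) :
    ∃ F ∈ FamS B, (∀ z, ‖F z‖ ≤ C) ∧ ∫ w, ‖g w - L.hat F w‖ ^ 2 ∂L.W.μ ≤ ε := by
  rcases hC.eq_or_lt with rfl | hC
  · refine ⟨_, fam_const B 0, fun z => by simp, ?_⟩
    have : ∫ w, ‖g w - L.hat (fun _ => 0) w‖ ^ 2 ∂L.W.μ = 0 := by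
      refine integral_eq_zero_of_ae ?_
      filter_upwards [hb] with w hw
      have e := (L.ch w).const 0
      simp [e, norm_le_zero_iff.1 hw]
    rw [this]
    exact hε.le
  obtain ⟨t1, t2, t3, t4⟩ := tset L h.le
  have hg0 : BM L.W.μ L.W.ms g := ⟨hg.mono (shp_le b.a L h.le), C, hb⟩
  obtain ⟨φ, hφ, hi⟩ := b.d.apx L.W.μ _ t1 t2 t3 t4 g (hg0.memLp 2)
    (by rw [gen_image]; exact hg) (ε / 4) (by positivity)
  obtain ⟨F, hF, rfl⟩ := span_mem L h.le hφ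
  have hF' := fam_mono h.le hF
  refine ⟨_, fam_map hF (clip_cont hC), fun z => clip_le hC _, ?_⟩
  have hI : Integrable (fun w => ‖g w - L.hat F w‖ ^ 2) L.W.μ :=
    ((hg0.sub (hat_bm L hF')).memLp 2).integrable_norm_pow (by norm_num)
  calc _ ≤ ∫ w, 4 * ‖g w - L.hat F w‖ ^ 2 ∂L.W.μ := by
        refine integral_mono_of_nonneg (Eventually.of_forall fun w => by positivity)
          (hI.const_mul 4) ?_
        filter_upwards [hb] with w hw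
        have e := ch_clip (L.ch w) hC hF'
        rw [e]
        have := pow_le_pow_left₀ (norm_nonneg _) (clip_near hC _ (L.hat F w) hw) 2
        linarith [mul_pow 2 ‖g w - L.hat F w‖ 2]
    _ ≤ ε := by
        rw [integral_const_mul]
        linarith

theorem tz_inv (b : Bas) {A : Set X.X} (hA : X.T ⁻¹' A = A) (n : ℤ) (x : X.X) :
    X.Tz n x ∈ A ↔ x ∈ A := by
  have h1 : ∀ y, X.T y ∈ A ↔ y ∈ A := fun y => by
    rw [← Set.mem_preimage, hA]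
  induction n using Int.induction_on with
  | zero => rw [b.t.zero]
  | succ n ih =>
    rw [add_comm, b.t.add, b.t.one, h1]
    exact ih
  | pred n ih =>
    rw [← h1, ← b.t.one, ← b.t.add, show (1 : ℤ) + (-(n : ℤ) - 1) = -n by ring]
    exact ih

theorem inv (b : Bas) (L : Ln ν U X) (s s' : Slot) : KEq L.W.μ (Inv X) (L.π s) (L.π s') := by
  intro A hA
  obtain ⟨hA1, A', hA', e⟩ := (b.a.mem _ X.μ (MeasurableSpace.invariants_le X.T) A).1 hA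
  obtain ⟨m1, m2⟩ := MeasurableSpace.measurableSet_invariants.1 hA'
  have key : ∀ s : Slot, L.π s ⁻¹' A =ᵐ[L.W.μ]
      {w | L.hat (fun z => A'.indicator (fun _ => (1 : ℂ)) z.2) w = 1} := fun s => by
    have e1 := (L.emb s).mp.quasiMeasurePreserving.preimage_ae_eq e
    have e2 := L.slot s _ (ind_bdd m1)
    have e3 : (fun z : Lab × X.X => A'.indicator (fun _ => (1 : ℂ)) (X.Tz (rho s z.1) z.2)) =
        fun z => A'.indicator (fun _ => (1 : ℂ)) z.2 := by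
      funext z
      by_cases h : z.2 ∈ A'
      · simp [h, (tz_inv b m2 _ _).2 h]
      · simp [h, mt (tz_inv b m2 (rho s z.1) _).1 h]
    rw [e3] at e2
    refine e1.trans ?_
    filter_upwards [e2] with w hw
    refine propext ?_
    change L.π s w ∈ A' ↔ L.hat _ w = 1
    rw [← hw]
    by_cases h : L.π s w ∈ A' <;> simp [h]
  exact (key s).trans (key s').symm

end LfBx

theorem lfB : LfBR := fun b =>
  { congr := fun L F hF F' hF' h => LfBx.cong L hF hF' h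
    nrm := fun L F hF w => LfBx.ch_nrm (L.ch w) hF
    fac := fun L B h => LfBx.fac b L h
    top := fun L => le_antisymm (LfBx.shp_le b.a L le_rfl) (le_sup_left.trans_eq' L.gn.symm)
    mono := fun L B B' h => sup_le_sup_right
      (LfBx.gen_le _ fun F hF => LfBx.gen_meas _ (LfBx.fam_mono h hF)) _
    slot := fun L B s h => LfBx.slot b L s h
    ce := fun L B h F hF F' hF' e => LfBx.ce b L h hF hF' e
    cex := fun X B h F hF => LfBx.cex b X h hF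
    apx := fun L B h g C ε hC hε hg hb => LfBx.apx b L h g C ε hC hε hg hb
    inv := fun L s s' => LfBx.inv b L s s' }

end T3x

end

end PkLfB
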