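import Pool.Agent.MP_154433_an.t3.Spec

/-! One map, part 5 (packed). -/

section PkRep

/-! Row Rep: a member of a column tuple and of a row tuple is a function of the point. -/

set_option autoImplicit false
set_option linter.unusedVariables false
set_option warn.classDefReducibility false

open MeasureTheory ProbabilityTheory Filter Topology Function Finset ComplexConjugate
open scoped BigOperators
open Fib27 (BM sup pr Oc Orow F23 LInd Mem)
open Pool.Agent.MP_154433_an.SG (Uni ufn)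

noncomputable section

namespace T3x

namespace RepL

section Gen

variable {Ω Ω' : Type} {β : MeasurableSpace Ω} {B : MeasurableSpace Ω'} {m0 : MeasurableSpace Ω}
  {m0' : MeasurableSpace Ω'} {μ : Measure Ω} {μ' : Measure Ω'}

theorem um_bm {m : MeasurableSpace Ω} {m0 : MeasurableSpace Ω} {μ : Measure Ω} {f : Ω → ℂ}
    (h : Um m μ f) : BM μ m f := BM.of_uni h.1 h.2

theorem um_mono {m m' : MeasurableSpace Ω} {m0 : MeasurableSpace Ω} {μ : Measure Ω} {f : Ω → ℂ}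
    (h : Um m μ f) (hm : m ≤ m') : Um m' μ f := ⟨h.1.mono hm, h.2⟩

theorem um_mul {m : MeasurableSpace Ω} {m0 : MeasurableSpace Ω} {μ : Measure Ω} {f g : Ω → ℂ}
    (h : Um m μ f) (h' : Um m μ g) : Um m μ fun x => f x * g x := by
  refine ⟨h.1.mul h'.1, ?_⟩
  filter_upwards [h.2, h'.2] with x h1 h2
  rw [norm_mul, h1, h2, mul_one]

theorem um_cj {m : MeasurableSpace Ω} {m0 : MeasurableSpace Ω} {μ : Measure Ω} {f : Ω → ℂ}
    (h : Um m μ f) : Um m μ fun x => conj (f x) := by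
  refine ⟨(um_bm h).conj.1, ?_⟩
  filter_upwards [h.2] with x h1
  rw [Complex.norm_conj, h1]

theorem um_pr {ι : Type} {m : MeasurableSpace Ω} {m0 : MeasurableSpace Ω} {μ : Measure Ω}
    {f : ι → Ω → ℂ} (S : Finset ι) (h : ∀ i, Um m μ (f i)) : Um m μ (pr f S) := by
  refine ⟨(BM.pr fun i _ => um_bm (h i)).1, ?_⟩
  filter_upwards [(Finset.eventually_all S).2 fun i _ => (h i).2] with x hx
  unfold pr
  rw [norm_prod]
  exact Finset.prod_eq_one hx

theorem bm_of {m : MeasurableSpace Ω} {m0 : MeasurableSpace Ω} (μ : Measure Ω) {f : Ω → ℂ} {C : ℝ}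
    (h : Measurable[m] f) (hC : ∀ x, ‖f x‖ ≤ C) : BM μ m f :=
  ⟨h.stronglyMeasurable.aestronglyMeasurable, C, Eventually.of_forall hC⟩

theorem bm_sq {f g : Ω → ℂ} (hf : BM μ m0 f) (hg : BM μ m0 g) :
    BM μ m0 fun y => ((‖f y - g y‖ ^ 2 : ℝ) : ℂ) := by
  refine ((hf.sub hg).mul (hf.sub hg).conj).congr (Eventually.of_forall fun y => ?_)
  simp only [Complex.mul_conj, Complex.normSq_eq_norm_sq]

theorem int_sq [IsProbabilityMeasure μ] {f g : Ω → ℂ} (hf : BM μ m0 f) (hg : BM μ m0 g) :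
    Integrable (fun y => ‖f y - g y‖ ^ 2) μ := by
  have h := (bm_sq hf hg).integrable.re
  simpa only [RCLike.re_to_complex, Complex.ofReal_re] using h

/-- transfer of conditional distances along a map -/
theorem d2_comp [IsProbabilityMeasure μ] [IsProbabilityMeasure μ'] {p : Ω → Ω'}
    (hp : MeasurePreserving p μ μ')
    (hE : ∀ g, BM μ' m0' g → μ[fun x => g (p x) | β] =ᵐ[μ] fun x => (μ'[g | B]) (p x))
    {f g : Ω' → ℂ} (hf : BM μ' m0' f) (hg : BM μ' m0' g) {f' g' : Ω → ℂ}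
    (ef : f' =ᵐ[μ] fun x => f (p x)) (eg : g' =ᵐ[μ] fun x => g (p x)) :
    μ[fun y => ‖f' y - g' y‖ ^ 2 | β] =ᵐ[μ] fun x => (μ'[fun y => ‖f y - g y‖ ^ 2 | B]) (p x) := by
  have i1 := int_sq hf hg
  have i2 : Integrable (fun y => ‖f (p y) - g (p y)‖ ^ 2) μ := (hp.integrable_comp i1.1).2 i1
  have e0 : μ[fun y => ‖f' y - g' y‖ ^ 2 | β] =ᵐ[μ] μ[fun y => ‖f (p y) - g (p y)‖ ^ 2 | β] := by
    refine condExp_congr_ae ?_
    filter_upwards [ef, eg] with y h1 h2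
    rw [h1, h2]
  have h1 := Complex.ofRealCLM.comp_condExp_comm (m := β) i2
  have h2 := hp.quasiMeasurePreserving.ae (Complex.ofRealCLM.comp_condExp_comm (m := B) i1)
  have h3 := hE _ (bm_sq hf hg)
  filter_upwards [e0, h1, h2, h3] with x e0 h1 h2 h3
  rw [e0]
  apply Complex.ofReal_injective
  exact h1.trans (h3.trans h2.symm)

/-- two unimodular functions near the same function correlate -/
theorem re_ge [IsProbabilityMeasure μ] (hβ : β ≤ m0) {f g v : Ω → ℂ} (hf : Um m0 μ f)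
    (hg : Um m0 μ g) (hv : BM μ m0 v) : ∀ᵐ x ∂μ,
    1 - (μ[fun y => ‖f y - v y‖ ^ 2 | β]) x - (μ[fun y => ‖g y - v y‖ ^ 2 | β]) x ≤
      ((μ[fun y => f y * conj (g y) | β]) x).re := by
  have i1 := int_sq (um_bm hf) hv
  have i2 := int_sq (um_bm hg) hv
  have i3 := ((um_bm hf).mul (um_bm hg).conj).integrable
  have i0 : Integrable (fun _ : Ω => (1 : ℝ)) μ := integrable_const _
  have h1 := Complex.reCLM.comp_condExp_comm (m := β) i3
  have h2 := condExp_sub i0 i1 β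
  have h3 := condExp_sub (i0.sub i1) i2 β
  have h4 : μ[(fun _ : Ω => (1 : ℝ)) - (fun y => ‖f y - v y‖ ^ 2) - (fun y => ‖g y - v y‖ ^ 2) | β]
      ≤ᵐ[μ] μ[Complex.reCLM ∘ fun y => f y * conj (g y) | β] := by
    refine condExp_mono ((i0.sub i1).sub i2) (Complex.reCLM.integrable_comp i3) ?_
    filter_upwards [hf.2, hg.2] with y h1 h2
    have a1 : (f y).re ^ 2 + (f y).im ^ 2 = 1 := by
      have := Complex.sq_norm (f y)
      rw [h1, Complex.normSq_apply] at this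
      nlinarith
    have a2 : (g y).re ^ 2 + (g y).im ^ 2 = 1 := by
      have := Complex.sq_norm (g y)
      rw [h2, Complex.normSq_apply] at this
      nlinarith
    simp only [Pi.sub_apply, Function.comp_apply, Complex.reCLM_apply, Complex.sq_norm,
      Complex.normSq_apply, Complex.sub_re, Complex.sub_im, Complex.mul_re, Complex.conj_re,
      Complex.conj_im]
    nlinarith [sq_nonneg ((f y).re + (g y).re - 2 * (v y).re),
      sq_nonneg ((f y).im + (g y).im - 2 * (v y).im)]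
  filter_upwards [h1, h2, h3, h4] with x h1 h2 h3 h4
  rw [h3, ← h1] at h4
  simp only [Pi.sub_apply] at h4 h2
  rw [h2, condExp_const hβ] at h4
  exact h4

/-- the conditional probability of a set does not vanish on the set -/
theorem ce_ne [IsProbabilityMeasure μ] (hβ : β ≤ m0) {D : Set Ω} (hD : MeasurableSet D) :
    ∀ᵐ x ∂μ, x ∈ D → (μ[D.indicator fun _ => (1 : ℂ) | β]) x ≠ 0 := by
  set Z := {x | (μ[D.indicator fun _ => (1 : ℂ) | β]) x = 0} with hZ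
  have mZ : MeasurableSet[β] Z :=
    (stronglyMeasurable_condExp (m := β)).measurable (measurableSet_singleton 0)
  have h1 := setIntegral_condExp hβ (BM.indicator (κ := μ) hD).integrable mZ
  rw [setIntegral_eq_zero_of_forall_eq_zero (t := Z) fun x hx => hx, setIntegral_indicator hD,
    setIntegral_const] at h1
  have h2 : μ.real (Z ∩ D) = 0 := by simpa using h1.symm
  rw [measureReal_eq_zero_iff] at h2
  filter_upwards [measure_eq_zero_iff_ae_notMem.1 h2] with x hx h3 h4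
  exact hx ⟨h4, h3⟩

theorem pos_of {S T : Set Ω} (h : μ S ≠ 0) (hST : ∀ᵐ x ∂μ, x ∈ S → x ∈ T) : μ T ≠ 0 :=
  fun h0 => h (measure_mono_null_ae hST h0)

end Gen

variable (F : Fd) {c : Ctx} (hG : c.GI)

theorem mA (c : Ctx) (q : c.ι) : MeasurePreserving (c.A q) c.W2.μ c.W.μ := (c.L2.emb _).mp

theorem mB (c : Ctx) (j : c.ι) : MeasurePreserving (c.Bc j) c.W2.μ c.W.μ := (c.lift j).emb.mp

theorem mP (c : Ctx) (k : c.ι) : MeasurePreserving (c.π k) c.W.μ c.X.μ := (c.L.emb _).mp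

include F

theorem facB2 (c : Ctx) : Fac c.W c.B2 := (F.h.kc c.W _ c.L.nice (F.lb.fac c.L c.B c.kc.1)).1

theorem leβ (c : Ctx) : c.β ≤ c.W2.ms :=
  (F.h.kc c.W2 _ c.L2.nice (F.lb.fac c.L2 c.B2 (facB2 F c))).1.le

theorem leP (c : Ctx) (k : c.ι) : c.P k ≤ c.W.ms := F.a.pull_le _ _ _ _ (mP c k) le_rfl

theorem leG (c : Ctx) (q j : c.ι) : c.G q j ≤ c.W2.ms :=
  F.a.pull_le _ _ _ _ ((mP c j).comp (mA c q)) le_rfl

theorem tup_um {φ : c.ι → c.W.X → ℂ} (h : c.Tup1 φ) (k : c.ι) : Um c.W.ms c.W.μ (φ k) :=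
  um_mono (h k) (sup_le (leP F c k) (facB2 F c).le)

theorem um_comp {p : c.W2.X → c.W.X} (hp : MeasurePreserving p c.W2.μ c.W.μ) (k : c.ι)
    {φ : c.W.X → ℂ} (h : Um (c.P k ⊔ c.B2) c.W.μ φ) :
    Um (pull c.W2.μ p (c.P k ⊔ c.B2)) c.W2.μ fun x => φ (p x) :=
  ⟨(F.a.bm_comp _ _ _ p φ hp (um_bm h)).1, hp.quasiMeasurePreserving.ae h.2⟩

theorem bm_top {p : c.W2.X → c.W.X} (hp : MeasurePreserving p c.W2.μ c.W.μ) {φ : c.W.X → ℂ}
    (h : BM c.W.μ c.W.ms φ) : BM c.W2.μ c.W2.ms fun x => φ (p x) :=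
  (F.a.bm_comp _ _ _ p φ hp h).mono (F.a.pull_le _ _ _ _ hp le_rfl)

include hG

theorem G_eq (q j : c.ι) : c.G q j = pull c.W2.μ (c.Bc j) (c.P q) := by
  have h1 : pull c.W2.μ (c.Bc j) (c.P q) = pull c.W2.μ (c.π q ∘ c.Bc j) c.X.ms :=
    F.a.pull_comp _ _ _ _ _ (mB c j)
  rw [h1]
  exact F.a.keq_pull _ _ _ _ ((mP c j).comp (mA c q)).measurable.comap_le
    ((mP c q).comp (mB c j)).measurable.comap_le (hG.col q j)

theorem um_col {φ : c.ι → c.W.X → ℂ} (h : c.Tup1 φ) (k i : c.ι) :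
    Um (c.G k i ⊔ c.β) c.W2.μ fun x => φ k (c.Bc i x) := by
  refine um_mono (um_comp F (mB c i) k (h k)) ?_
  rw [F.a.pull_sup, G_eq F hG]
  exact sup_le_sup_left (hG.colB i) _

theorem um_row {φ : c.ι → c.W.X → ℂ} (h : c.Tup1 φ) (k i : c.ι) :
    Um (c.G k i ⊔ c.β) c.W2.μ fun x => φ i (c.A k x) := by
  refine um_mono (um_comp F (mA c k) i (h i)) ?_
  have h1 : pull c.W2.μ (c.A k) (c.P i) = c.G k i := F.a.pull_comp _ _ _ _ _ (mA c k)
  rw [F.a.pull_sup, h1]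
  exact sup_le_sup_left (hG.rowB k) _

theorem clG (k : c.ι) : CLine c.β (c.G k) c.W2.μ := by
  intro S hS f hf
  refine hG.cols S hS f fun i hi => (hf i hi).mono ?_
  rw [G_eq F hG]
  exact sup_le_sup_right (MeasurableSpace.comap_mono (leP F c k)) _

omit F in
theorem msA (q : c.ι) {D : Set c.W.X} (hD : MeasurableSet[c.B2] D) :
    MeasurableSet[c.β] (c.A q ⁻¹' D) :=
  (le_sup_left.trans (hG.rowB q) : c.B2.comap (c.A q) ≤ c.β) _ ⟨D, hD, rfl⟩

omit F in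
theorem msB (j : c.ι) {D : Set c.W.X} (hD : MeasurableSet[c.B2] D) :
    MeasurableSet[c.β] (c.Bc j ⁻¹' D) :=
  (le_sup_left.trans (hG.colB j) : c.B2.comap (c.Bc j) ≤ c.β) _ ⟨D, hD, rfl⟩

/-- a column member and a row member that correlate agree up to the base -/
theorem mat (R : Rc) (hF : c.Full c.Tup1) (j k : c.ι) {φ φ' : c.ι → c.W.X → ℂ} (h : c.Tup1 φ)
    (h' : c.Tup1 φ') {M : Set c.W2.X} (mM : MeasurableSet[c.β] M)
    (M1 : ∀ᵐ x ∂c.W2.μ, x ∈ M → c.Bc j x ∈ c.Θ φ) (M2 : ∀ᵐ x ∂c.W2.μ, x ∈ M → c.A k x ∈ c.Θ φ')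
    (hne : ∀ᵐ x ∂c.W2.μ, x ∈ M →
      (c.W2.μ[fun y => φ k (c.Bc j y) * conj (φ' j (c.A k y)) | c.β]) x ≠ 0) :
    ∀ᵐ x ∂c.W2.μ, x ∈ M → x ∈ Th c.β c.W2.μ fun y => φ k (c.Bc j y) * conj (φ' j (c.A k y)) := by
  have hβ := leβ F c
  have top : ∀ i, c.G k i ⊔ c.β ≤ c.W2.ms := fun i => sup_le (leG F c k i) hβ
  set T := Th c.β c.W2.μ fun y => φ k (c.Bc j y) * conj (φ' j (c.A k y)) with hT
  have mT : MeasurableSet[c.β] T := R.meas _ _ _
  suffices h0 : c.W2.μ (M \ T) = 0 by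
    filter_upwards [measure_eq_zero_iff_ae_notMem.1 h0] with x hx h1
    by_contra h2
    exact hx ⟨h1, h2⟩
  by_contra h0
  set a : c.ι → c.W2.X → ℂ := fun i x => φ' i (c.A k x) with ha
  have ua : ∀ i, Um (c.G k i ⊔ c.β) c.W2.μ (a i) := fun i => um_row F hG h' k i
  have ua' : ∀ i, Um c.W2.ms c.W2.μ (a i) := fun i => um_mono (ua i) (top i)
  have uR : Um c.W2.ms c.W2.μ (pr a univ) := um_pr _ ua'
  have uφ : Um c.W2.ms c.W2.μ fun y => φ k (c.Bc j y) := um_mono (um_col F hG h k j) (top j)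
  have MR : ∀ᵐ x ∂c.W2.μ, x ∈ M → x ∈ Th c.β c.W2.μ (pr a univ) := by
    filter_upwards [M2, hG.rowE k _ (um_bm (um_pr univ (tup_um F h')))] with x h1 h2 hx
    have h3 : ‖(c.W.μ[pr φ' univ | c.B2]) (c.A k x)‖ = 1 := h1 hx
    rw [← h2] at h3
    exact h3
  have loc := R.loc c.β c.W2.μ (fun y => φ k (c.Bc j y) * pr a (univ.erase j) y)
    (fun y => φ k (c.Bc j y) * conj (φ' j (c.A k y))) (c.W2.μ[pr a univ | c.β]) M hβ
    ((um_bm uφ).mul (um_bm (um_pr _ ua'))) ((um_bm uφ).mul (um_bm (ua' j)).conj)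
    ((um_bm uR).ce _) mM (by
      filter_upwards [MR, R.eq c.β c.W2.μ _ hβ uR, (ua' j).2] with x h1 h2 h3 hx
      rw [← h2 (h1 hx), Fib27.pr_erase a (mem_univ j)]
      have h4 : a j x * conj (a j x) = 1 := by
        rw [Complex.mul_conj, Complex.normSq_eq_norm_sq, h3]; simp
      show _ = a j x * pr a (univ.erase j) x * (φ k (c.Bc j x) * conj (a j x))
      linear_combination (-(φ k (c.Bc j x) * pr a (univ.erase j) x)) * h4)
  obtain ⟨E', Φ, mE, sE, pE, tΦ, eΦ, -, hΦ⟩ := hF k j φ (M \ T) a h (mM.diff mT)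
    (by filter_upwards [M1] with x h1 hx; exact h1 hx.1) (fun i => um_bm (ua i))
    (pos_of h0 (by
      filter_upwards [loc, MR, hne] with x h1 h2 h3 hx
      refine ⟨hx, ?_⟩
      show _ ≠ 0
      rw [h1 hx.1]
      refine mul_ne_zero (fun h4 => ?_) (h3 hx.1)
      have h5 : ‖(c.W2.μ[pr a univ | c.β]) x‖ = 1 := h2 hx.1
      rw [h4, norm_zero] at h5
      exact zero_ne_one h5))
  set χ : c.ι → c.W2.X → ℂ := fun i x => Φ i k (c.Bc i x) * conj (a i x) with hχ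
  have uc : ∀ i, Um (c.G k i ⊔ c.β) c.W2.μ fun x => Φ i k (c.Bc i x) :=
    fun i => um_col F hG (tΦ i) k i
  have eχ : pr χ univ = fun x => pr (fun i x => Φ i k (c.Bc i x)) univ x * conj (pr a univ x) := by
    funext x
    simp only [pr, hχ, prod_mul_distrib, map_prod]
  have cm := R.cm c.β (c.G k) c.W2.μ χ hβ (leG F c k) c.three (clG F hG k)
    (fun i => um_mul (uc i) (um_cj (ua i))) j
  have mu := R.mul c.β c.W2.μ _ _ hβ (um_pr univ fun i => um_mono (uc i) (top i)) (um_cj uR)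
  have ej : χ j = fun y => φ k (c.Bc j y) * conj (φ' j (c.A k y)) := by
    funext y
    simp only [hχ, ha, eΦ]
  rw [eχ, ej] at cm
  refine pE (measure_eq_zero_iff_ae_notMem.2 ?_)
  filter_upwards [cm, mu, hΦ k, MR, R.cj c.β c.W2.μ _ hβ uR, hne] with x h1 h2 h3 h4 h5 h6 hx
  have hx' := sE hx
  have h7 := h1 (h2 ⟨h3 hx, h5.mpr (h4 hx'.1)⟩) (h6 hx'.1) j
  rw [ej] at h7
  exact hx'.2 h7

omit hG in
/-- conditioning on the column -/
theorem col (j k : c.ι) {f1 f2 : c.W.X → ℂ} (b1 : BM c.W.μ c.W.ms f1) (b2 : BM c.W.μ c.W.ms f2)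
    {D D' : Set c.W.X} (mD : MeasurableSet D) (mD' : MeasurableSet D')
    (h : ∀ᵐ x ∂c.W2.μ, c.A k x ∈ D → c.Bc j x ∈ D' → f1 (c.Bc j x) = f2 (c.A k x)) :
    ∃ g : c.X.X → ℂ, Measurable g ∧
      ∀ᵐ x ∂c.W2.μ, c.A k x ∈ D → c.Bc j x ∈ D' → f1 (c.Bc j x) = g (c.π j (c.A k x)) := by
  have key : ∀ u, BM c.W.μ c.W.ms u → ∃ u0 : c.X.X → ℂ, Measurable u0 ∧
      c.W.μ[u | c.P j] =ᵐ[c.W.μ] (fun w => u0 (c.π j w)) ∧
      c.W2.μ[fun x => u (c.A k x) | pull c.W2.μ (c.Bc j) c.W.ms] =ᵐ[c.W2.μ]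
        fun x => u0 (c.π j (c.A k x)) := by
    intro u hu
    obtain ⟨h1, C, hC⟩ := hu.ce (c.P j)
    obtain ⟨u0, m0, b0, e0⟩ := F.a.fact c.X.ms c.W.μ (c.π j) _ (max C 0)
      (mP c j).measurable.comap_le (le_max_right _ _) h1
      (hC.mono fun x hx => hx.trans (le_max_left _ _))
    exact ⟨u0, m0, e0, F.ld.cs c.L2 c.L (c.π j) (c.Bc j) (c.sl k) (c.L.emb _) (c.lift j) u u0 hu
      (bm_of _ m0 b0) e0.symm⟩
  have i1 : BM c.W.μ c.W.ms (D.indicator fun _ => (1 : ℂ)) := BM.indicator mD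
  have i2 : BM c.W.μ c.W.ms (D'.indicator fun _ => (1 : ℂ)) := BM.indicator mD'
  obtain ⟨α, mα, eα, cα⟩ := key _ i1
  obtain ⟨γ, mγ, -, cγ⟩ := key _ (i1.mul b2)
  refine ⟨fun x => γ x / α x, mγ.div mα, ?_⟩
  have hY : pull c.W2.μ (c.Bc j) c.W.ms ≤ c.W2.ms := F.a.pull_le _ _ _ _ (mB c j) le_rfl
  have c1 := Fib27.ce_mul hY (F.a.bm_comp _ _ _ _ _ (mB c j) (i2.mul b1)) (bm_top F (mA c k) i1)
  have c2 := Fib27.ce_mul hY (F.a.bm_comp _ _ _ _ _ (mB c j) i2) (bm_top F (mA c k) (i1.mul b2))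
  have c3 : c.W2.μ[fun x => D'.indicator (fun _ => (1 : ℂ)) (c.Bc j x) * f1 (c.Bc j x) *
      D.indicator (fun _ => (1 : ℂ)) (c.A k x) | pull c.W2.μ (c.Bc j) c.W.ms] =ᵐ[c.W2.μ]
      c.W2.μ[fun x => D'.indicator (fun _ => (1 : ℂ)) (c.Bc j x) *
        (D.indicator (fun _ => (1 : ℂ)) (c.A k x) * f2 (c.A k x)) |
          pull c.W2.μ (c.Bc j) c.W.ms] := by
    refine condExp_congr_ae ?_
    filter_upwards [h] with x hx
    by_cases h1 : c.A k x ∈ D
    · by_cases h2 : c.Bc j x ∈ D'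
      · simp [h1, h2, hx h1 h2]
      · simp [h2]
    · simp [h1]
  have ne := (mA c k).quasiMeasurePreserving.ae ((ce_ne (leP F c j) mD).and eα)
  filter_upwards [c1, c2, c3, cα, cγ, ne] with x c1 c2 c3 cα cγ ne h1 h2
  have n1 : α (c.π j (c.A k x)) ≠ 0 := by
    have := ne.1 h1
    rwa [ne.2] at this
  rw [c1, c2, cα, cγ] at c3
  simp only [Set.indicator_of_mem h2, one_mul] at c3
  rw [eq_div_iff n1]
  exact c3

end RepL

open RepL in
theorem rep : RepR := by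
  intro F R Sel Apx c hG hF j k Φ E tΦ mE pE E1 E2
  have hβ := leβ F c
  have hB := (facB2 F c).le
  have top : ∀ i, c.G k i ⊔ c.β ≤ c.W2.ms := fun i => sup_le (leG F c k i) hβ
  have uc : ∀ i, Um (c.G k i ⊔ c.β) c.W2.μ fun x => Φ i k (c.Bc i x) :=
    fun i => um_col F hG (tΦ i) k i
  obtain ⟨v, v0, E', lv, l0, mE', sE, pE', hE'⟩ := Apx c.β (c.G k) c.W2.μ
    (fun i x => Φ i k (c.Bc i x)) E (1 / 100) hβ (leG F c k) uc mE pE E2 (by norm_num)
  have fa : ∀ i (z : c.W2.X → ℂ), Lb (c.G k i) c.W2.μ z → ∃ u : c.X.X → ℂ, Measurable u ∧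
      (∀ x, ‖u x‖ ≤ 1) ∧ z =ᵐ[c.W2.μ] fun x => u (c.π i (c.A k x)) := fun i z hz =>
    F.a.fact c.X.ms c.W2.μ (c.π i ∘ c.A k) z 1 ((mP c i).comp (mA c k)).measurable.comap_le
      zero_le_one hz.1 (Eventually.of_forall hz.2)
  choose u mu bu eu using fun n i => fa i _ (lv n i)
  choose u0 mu0 bu0 eu0 using fun i => fa i _ (l0 i)
  have lb : ∀ (i : c.ι) (z : c.X.X → ℂ), Measurable z → (∀ x, ‖z x‖ ≤ 1) →
      BM c.W.μ (c.P i) fun w => z (c.π i w) := fun i z mz bz =>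
    F.a.bm_comp c.X.ms c.W.μ c.X.μ (c.π i) z (mP c i) (bm_of _ mz bz)
  set w : ℕ → c.ι → c.W.X → ℂ := fun n i y => u n i (c.π i y) with hw
  set w0 : c.ι → c.W.X → ℂ := fun i y => u0 i (c.π i y) with hw0
  have bw : ∀ n i, BM c.W.μ c.W.ms (w n i) :=
    fun n i => (lb i _ (mu n i) (bu n i)).mono (leP F c i)
  have bw0 : ∀ i, BM c.W.μ c.W.ms (w0 i) := fun i => (lb i _ (mu0 i) (bu0 i)).mono (leP F c i)
  obtain ⟨φ, tφ, hφ⟩ := Sel c.B2 c.P c.W.μ w w0 (1 / 100) hB (leP F c) c.three hG.cline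
    (fun n i => ⟨(lb i _ (mu n i) (bu n i)).1, fun y => bu n i _⟩)
    (fun i => ⟨(lb i _ (mu0 i) (bu0 i)).1, fun y => bu0 i _⟩) (by norm_num) le_rfl
  have ds : ∀ᵐ x ∂c.W2.μ, x ∈ DS c.β c.W2.μ v v0 (1 / 100) →
      c.A k x ∈ DS c.B2 c.W.μ w w0 (1 / 100) := by
    have d1 : ∀ n, c.W2.μ[pr (v n) univ | c.β] =ᵐ[c.W2.μ]
        fun x => (c.W.μ[pr (w n) univ | c.B2]) (c.A k x) := fun n =>
      (condExp_congr_ae (Fib27.pr_congr_ae fun i _ => eu n i)).trans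
        (hG.rowE k _ (BM.pr fun i _ => bw n i))
    have d2 := fun n i => d2_comp (mA c k) (hG.rowE k) (bw n i) (bw0 i) (eu n i) (eu0 i)
    filter_upwards [ae_all_iff.2 d1, ae_all_iff.2 fun n => ae_all_iff.2 (d2 n)] with x h1 h2 hx
    simp only [DS, Set.mem_iInter, Set.mem_iUnion, Set.mem_ofPred_eq] at hx ⊢
    intro n
    obtain ⟨i, h3, h4⟩ := hx n
    exact ⟨i, h1 i ▸ h3, fun l => h2 i l ▸ h4 l⟩
  set r := c.W.μ[fun y => φ j y * conj (w0 j y) | c.B2] with hr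
  set s := c.W.μ[fun y => ‖φ j y - w0 j y‖ ^ 2 | c.B2] with hs
  set z : c.W.X → ℂ := fun y => u0 j (c.π k y) with hz
  have bz : BM c.W.μ c.W.ms z := (lb k _ (mu0 j) (bu0 j)).mono (leP F c k)
  set κ := c.W.μ[fun y => Φ j k y * conj (z y) | c.B2] with hκ
  set s' := c.W.μ[fun y => ‖Φ j k y - z y‖ ^ 2 | c.B2] with hs'
  have mr : Measurable[c.B2] r := stronglyMeasurable_condExp.measurable
  have ms : Measurable[c.B2] s := stronglyMeasurable_condExp.measurable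
  have mκ : Measurable[c.B2] κ := stronglyMeasurable_condExp.measurable
  have ms' : Measurable[c.B2] s' := stronglyMeasurable_condExp.measurable
  set D : Set c.W.X := c.Θ φ ∩ (r ⁻¹' {t | t.im = 0 ∧ 1 - 1 / 100 ≤ t.re} ∩
    s ⁻¹' Set.Iic ((1 / 100) ^ 2)) with hD
  set D' : Set c.W.X := c.Θ (Φ j) ∩ s' ⁻¹' Set.Iic ((1 / 100) ^ 2) with hD'
  have mD : MeasurableSet[c.B2] D := (R.meas _ _ _).inter
    ((mr ((measurableSet_eq_fun Complex.measurable_im measurable_const).inter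
      (measurableSet_le measurable_const Complex.measurable_re))).inter (ms measurableSet_Iic))
  have mD' : MeasurableSet[c.B2] D' := (R.meas _ _ _).inter (ms' measurableSet_Iic)
  have kq : ∀ y : c.X.X → ℂ, Measurable y →
      (fun x => y (c.π j (c.A k x))) =ᵐ[c.W2.μ] fun x => y (c.π k (c.Bc j x)) := fun y my =>
    F.a.keq_fun c.X.ms c.W2.μ c.X.μ _ _ y ((mP c j).comp (mA c k)) ((mP c k).comp (mB c j))
      (hG.col k j) my.aestronglyMeasurable
  have ez : v0 j =ᵐ[c.W2.μ] fun x => z (c.Bc j x) := (eu0 j).trans (kq _ (mu0 j))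
  have uΦ := tup_um F (tΦ j) k
  have uφ := tup_um F tφ j
  have s1 := d2_comp (mB c j) (hG.colE j) (um_bm uΦ) bz (EventuallyEq.refl _ _) ez
  have s2 := d2_comp (mA c k) (hG.rowE k) (um_bm uφ) (bw0 j) (EventuallyEq.refl _ _) (eu0 j)
  set M : Set c.W2.X := c.A k ⁻¹' D ∩ c.Bc j ⁻¹' D' with hM
  have mM : MeasurableSet[c.β] M := (msA hG k mD).inter (msB hG j mD')
  have EM : ∀ᵐ x ∂c.W2.μ, x ∈ E' → x ∈ M := by
    filter_upwards [hE', ds, (mA c k).quasiMeasurePreserving.ae hφ, E1, s1] with x h1 h2 h3 h4 h5 hx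
    obtain ⟨h6, h7⟩ := h3 (h2 (h1 hx).1)
    refine ⟨⟨h6, ⟨(h7 j).1, (h7 j).2.1⟩, (h7 j).2.2⟩, h4 (sE hx), ?_⟩
    exact h5.symm.trans_le ((h1 hx).2 j)
  have u1 : Um c.W2.ms c.W2.μ fun x => Φ j k (c.Bc j x) := um_mono (uc j) (top j)
  have u2 : Um c.W2.ms c.W2.μ fun x => φ j (c.A k x) := um_mono (um_row F hG tφ k j) (top j)
  have b0 : BM c.W2.μ c.W2.ms (v0 j) := (bm_top F (mB c j) bz).congr ez.symm
  have mt := mat F hG R hF j k (tΦ j) tφ mM (Eventually.of_forall fun x hx => hx.2.1)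
    (Eventually.of_forall fun x hx => hx.1.1) (by
      filter_upwards [re_ge hβ u1 u2 b0, s1, s2] with x h1 h2 h3 hx h4
      have h5 : s' (c.Bc j x) ≤ (1 / 100) ^ 2 := hx.2.2
      have h6 : s (c.A k x) ≤ (1 / 100) ^ 2 := hx.1.2.2
      rw [h2, h3, h4, Complex.zero_re] at h1
      linarith)
  set t := c.W2.μ[fun y => Φ j k (c.Bc j y) * conj (φ j (c.A k y)) | c.β] with ht
  have u3 := um_mul u1 (um_cj u2)
  have e1 : ∀ᵐ x ∂c.W2.μ, x ∈ M → Φ j k (c.Bc j x) = t x * φ j (c.A k x) ∧ ‖t x‖ = 1 := by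
    filter_upwards [mt, R.eq c.β c.W2.μ _ hβ u3, u2.2] with x h1 h2 h3 hx
    refine ⟨?_, h1 hx⟩
    have h4 : φ j (c.A k x) * conj (φ j (c.A k x)) = 1 := by
      rw [Complex.mul_conj, Complex.normSq_eq_norm_sq, h3]; simp
    have h5 : Φ j k (c.Bc j x) * conj (φ j (c.A k x)) = t x := h2 (h1 hx)
    linear_combination φ j (c.A k x) * h5 - Φ j k (c.Bc j x) * h4
  have loc := R.loc c.β c.W2.μ (fun y => Φ j k (c.Bc j y) * conj (z (c.Bc j y)))
    (fun y => φ j (c.A k y) * conj (w0 j (c.A k y))) t M hβ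
    (bm_top F (mB c j) ((um_bm uΦ).mul bz.conj)) (bm_top F (mA c k) ((um_bm uφ).mul (bw0 j).conj))
    ((um_bm u3).ce _) mM (by
      filter_upwards [e1, kq _ (mu0 j)] with x h1 h2 hx
      have h3 : w0 j (c.A k x) = z (c.Bc j x) := h2
      rw [(h1 hx).1, h3, mul_assoc])
  set ρ : c.W.X → ℂ := fun y => κ y / (‖κ y‖ : ℂ) with hρ
  have bρ : BM c.W.μ c.B2 ρ := by
    have mq : Measurable fun t : ℂ => t / (‖t‖ : ℂ) :=
      measurable_id.div (Complex.measurable_ofReal.comp measurable_norm)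
    refine bm_of (C := 1) _ (mq.comp mκ) fun y => ?_
    simp only [hρ, norm_div, Complex.norm_real, norm_norm]
    exact div_self_le_one _
  have e2 : ∀ᵐ x ∂c.W2.μ, x ∈ M → ρ (c.Bc j x) = t x := by
    filter_upwards [e1, loc, hG.colE j _ ((um_bm uΦ).mul bz.conj),
      hG.rowE k _ ((um_bm uφ).mul (bw0 j).conj)] with x h1 h2 h3 h4 hx
    have h5 : κ (c.Bc j x) = t x * r (c.A k x) := by
      have := h2 hx
      rw [h3, h4] at this
      exact this
    obtain ⟨h6, h7⟩ : (r (c.A k x)).im = 0 ∧ 1 - 1 / 100 ≤ (r (c.A k x)).re := hx.1.2.1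
    have h8 : r (c.A k x) = ((r (c.A k x)).re : ℂ) := Complex.ext (by simp) (by simp [h6])
    have h9 : 0 < (r (c.A k x)).re := by linarith
    have h10 : ‖κ (c.Bc j x)‖ = (r (c.A k x)).re := by
      rw [h5, norm_mul, (h1 hx).2, one_mul, h8, Complex.norm_real, Complex.ofReal_re,
        Real.norm_of_nonneg h9.le]
    show κ (c.Bc j x) / (‖κ (c.Bc j x)‖ : ℂ) = _
    rw [h10, h5, ← h8, mul_div_assoc, div_self, mul_one]
    intro h0
    rw [h0, Complex.zero_re] at h9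
    exact lt_irrefl _ h9
  have e3 : ∀ᵐ x ∂c.W2.μ, x ∈ M → Φ j k (c.Bc j x) * conj (ρ (c.Bc j x)) = φ j (c.A k x) := by
    filter_upwards [e1, e2] with x h1 h2 hx
    have h4 : t x * conj (t x) = 1 := by
      rw [Complex.mul_conj, Complex.normSq_eq_norm_sq, (h1 hx).2]; simp
    rw [h2 hx, (h1 hx).1]
    linear_combination φ j (c.A k x) * h4
  obtain ⟨g0, mg, eg⟩ := col F j k (f1 := fun y => Φ j k y * conj (ρ y))
    ((um_bm uΦ).mul (bρ.mono hB).conj) (um_bm uφ) (hB _ mD) (hB _ mD')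
    (e3.mono fun x hx h1 h2 => hx ⟨h1, h2⟩)
  classical
  set g1 : c.X.X → ℂ := fun x => if ‖g0 x‖ = 1 then g0 x else 1 with hg1
  have n1 : ∀ x, ‖g1 x‖ = 1 := fun x => by
    simp only [hg1]
    split_ifs with h
    · exact h
    · exact norm_one
  have m1 : Measurable g1 :=
    Measurable.ite (measurableSet_eq_fun mg.norm measurable_const) mg measurable_const
  let g : Uni c.X.X := ⟨fun x => ⟨g1 x, mem_sphere_zero_iff_norm.2 (n1 x)⟩, m1⟩
  refine ⟨E', g, mE', sE, pE', ?_⟩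
  have ug : Um c.W2.ms c.W2.μ fun x => g1 (c.π k (c.Bc j x)) :=
    ⟨(m1.comp ((mP c k).comp (mB c j)).measurable).aestronglyMeasurable,
      Eventually.of_forall fun x => n1 _⟩
  refine R.of c.β c.W2.μ _ (fun x => ρ (c.Bc j x)) E' hβ (um_mul u1 (um_cj ug))
    ((F.a.bm_comp _ _ _ _ _ (mB c j) bρ).mono (hG.colB j)) mE' ?_
  filter_upwards [EM, eg, e3, kq _ mg, u1.2, u2.2] with x h1 h2 h3 h4 h5 h6 hx
  have hx' := h1 hx
  have h7 : Φ j k (c.Bc j x) * conj (ρ (c.Bc j x)) = g0 (c.π k (c.Bc j x)) :=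
    (h2 hx'.1 hx'.2).trans h4
  have h8 : g1 (c.π k (c.Bc j x)) = g0 (c.π k (c.Bc j x)) := by
    simp only [hg1]
    rw [if_pos]
    rw [← h7, h3 hx', h6]
  have h9 : Φ j k (c.Bc j x) * conj (Φ j k (c.Bc j x)) = 1 := by
    rw [Complex.mul_conj, Complex.normSq_eq_norm_sq, h5]; simp
  show Φ j k (c.Bc j x) * conj (g1 (c.π k (c.Bc j x))) = _
  rw [h8, ← h7, map_mul, Complex.conj_conj]
  linear_combination ρ (c.Bc j x) * h9

end T3x

end

end PkRep

section PkGSpU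

/-! Rows `GSpU` and `T5`: column tuples made of functions of the points. -/

set_option autoImplicit false
set_option linter.unusedVariables false
set_option warn.classDefReducibility false

open MeasureTheory ProbabilityTheory Filter Topology Function Finset ComplexConjugate
open scoped BigOperators
open Fib27 (BM sup pr Oc Orow F23 LInd Mem)
open Pool.Agent.MP_154433_an.SG (Uni ufn)

noncomputable section

namespace T3x

namespace GSpURow

theorem um_comp {Ω Ω' : Type} {m0 : MeasurableSpace Ω} {m0' : MeasurableSpace Ω'} {μ : Measure Ω}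
    {μ' : Measure Ω'} {p : Ω → Ω'} (hp : MeasurePreserving p μ μ') {f : Ω' → ℂ}
    (hf : Um m0' μ' f) : Um m0 μ fun x => f (p x) :=
  ⟨hf.1.comp_quasiMeasurePreserving hp.quasiMeasurePreserving, hp.quasiMeasurePreserving.ae hf.2⟩

theorem um_bm {Ω : Type} {m m0 : MeasurableSpace Ω} {μ : Measure Ω} {f : Ω → ℂ}
    (hf : Um m μ f) : BM μ m f := BM.of_uni hf.1 hf.2

theorem um_mono {Ω : Type} {m m' m0 : MeasurableSpace Ω} {μ : Measure Ω} {f : Ω → ℂ}
    (hf : Um m μ f) (h : m ≤ m') : Um m' μ f := ⟨hf.1.mono h, hf.2⟩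

theorem um_ufn {Ω : Type} {m0 : MeasurableSpace Ω} (μ : Measure Ω) (g : Uni Ω) :
    Um m0 μ (ufn g) :=
  ⟨(Measurable.aestronglyMeasurable (show Measurable fun ω => (g.1 ω : ℂ) from g.2)),
    Eventually.of_forall fun ω => Circle.norm_coe (g.1 ω)⟩

theorem um_mul_conj {Ω : Type} {m m0 : MeasurableSpace Ω} {μ : Measure Ω} {f g : Ω → ℂ}
    (hf : Um m μ f) (hg : Um m μ g) : Um m μ fun x => f x * conj (g x) := by
  refine ⟨((um_bm hf).mul (um_bm hg).conj).1, ?_⟩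
  filter_upwards [hf.2, hg.2] with x h1 h2
  simp [h1, h2]

theorem meas_pull {Ω Ω' : Type} {B : MeasurableSpace Ω'} {m0 : MeasurableSpace Ω} (μ : Measure Ω)
    (p : Ω → Ω') {s : Set Ω'} (hs : MeasurableSet[B] s) :
    MeasurableSet[pull μ p B] (p ⁻¹' s) :=
  (le_sup_left : B.comap p ≤ pull μ p B) _ ⟨s, hs, rfl⟩

theorem meas_ne {Ω : Type} (β : MeasurableSpace Ω) {m0 : MeasurableSpace Ω} (μ : Measure Ω)
    (F : Ω → ℂ) : MeasurableSet[β] {x | (μ[F | β]) x ≠ 0} :=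
  ((stronglyMeasurable_condExp (m := β) (μ := μ) (f := F)).measurable
    (measurableSet_singleton 0)).compl

theorem ne_of_le {Ω : Type} {m0 : MeasurableSpace Ω} {μ : Measure Ω} {E E' : Set Ω}
    (h : μ E ≠ 0) (hle : ∀ᵐ x ∂μ, x ∈ E → x ∈ E') : μ E' ≠ 0 := fun h0 =>
  h (le_antisymm ((measure_mono_ae hle).trans h0.le) zero_le)

theorem unim {a g t : ℂ} (ha : ‖a‖ = 1) (h : a * conj g = t) : g = conj t * a := by
  have h1 : conj a * a = 1 := by
    rw [mul_comm, Complex.mul_conj, Complex.normSq_eq_norm_sq, ha]; simp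
  rw [← h, map_mul, Complex.conj_conj]
  linear_combination (-g) * h1

/-- a function that correlates with an element of a join correlates with a product -/
theorem corr {Ω ι : Type} (β : MeasurableSpace Ω) (p : ι → MeasurableSpace Ω) (S : Finset ι)
    {m0 : MeasurableSpace Ω} (μ : Measure Ω) [IsProbabilityMeasure μ] (hβ : β ≤ m0)
    (hp : ∀ i, p i ≤ m0) {F h : Ω → ℂ} {E : Set Ω} (hF : BM μ m0 F) (hh : BM μ (sup p S ⊔ β) h)
    (hE : MeasurableSet[β] E) (h0 : μ (E ∩ {x | (μ[fun y => h y * F y | β]) x ≠ 0}) ≠ 0) :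
    ∃ a : ι → Ω → ℂ, (∀ i, BM μ (p i) (a i)) ∧
      μ (E ∩ {x | (μ[fun y => F y * pr a S y | β]) x ≠ 0}) ≠ 0 := by
  by_contra hn
  push Not at hn
  have hle : sup p S ⊔ β ≤ m0 := sup_le (Fib27.sup_le' fun j _ => hp j) hβ
  have hI : BM μ β (E.indicator fun _ => (1 : ℂ)) := BM.indicator hE
  have hP : Fib27.Perp μ (β ⊔ sup p S) fun x => E.indicator (fun _ => (1 : ℂ)) x * F x := by
    refine Fib27.perp_sup_pr hβ hp ((hI.mono hβ).mul hF) fun b ρ hb hρ => ?_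
    have hz := measure_eq_zero_iff_ae_notMem.1 (hn ρ hρ)
    have hq : BM μ m0 fun y => F y * pr ρ S y := hF.mul (BM.pr fun k _ => (hρ k).mono (hp k))
    have e1 := Fib27.int_ce_mul hβ hq (hI.mul hb)
    have e2 : ∫ ω, (μ[fun y => F y * pr ρ S y | β]) ω *
        (E.indicator (fun _ => (1 : ℂ)) ω * b ω) ∂μ = 0 := by
      refine integral_eq_zero_of_ae ?_
      filter_upwards [hz] with x hx
      by_cases hxE : x ∈ E
      · have : (μ[fun y => F y * pr ρ S y | β]) x = 0 := by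
          by_contra h1
          exact hx ⟨hxE, h1⟩
        simp [this]
      · simp [hxE]
    rw [e2] at e1
    rw [e1]
    exact integral_congr_ae (Eventually.of_forall fun x => by ring)
  have hq : BM μ m0 fun y => h y * F y := (hh.mono hle).mul hF
  have ht : BM μ β (μ[fun y => h y * F y | β]) := hq.ce β
  have e0 := hP _ ((hh.mono (sup_comm _ _).le).mul (ht.conj.mono le_sup_left))
  have e1 := Fib27.int_ce_mul hβ hq (hI.mul ht.conj)
  have e2 := Fib27.eq_zero_of_int_conj ((hI.mul ht).mono hβ) (by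
    rw [← e0]
    refine Eq.trans ?_ (e1.trans (integral_congr_ae (Eventually.of_forall fun x => by ring)))
    refine integral_congr_ae (Eventually.of_forall fun x => ?_)
    by_cases hxE : x ∈ E <;> simp [hxE])
  refine h0 (measure_eq_zero_iff_ae_notMem.2 ?_)
  filter_upwards [e2] with x hx hm
  simp only [Set.indicator_of_mem hm.1, one_mul] at hx
  exact hm.2 hx

variable (c : Ctx)

theorem mpA (q : c.ι) : MeasurePreserving (c.A q) c.W2.μ c.W.μ := (c.L2.emb _).mp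

theorem mpB (j : c.ι) : MeasurePreserving (c.Bc j) c.W2.μ c.W.μ := (c.lift j).emb.mp

theorem mpP (k : c.ι) : MeasurePreserving (c.π k) c.W.μ c.X.μ := (c.L.emb _).mp

theorem um_up (g : c.ι → Uni c.X.X) (k : c.ι) : Um c.W.ms c.W.μ (c.up g k) :=
  um_comp (mpP c k) (um_ufn _ (g k))

theorem bm_pr_up (g : c.ι → Uni c.X.X) : BM c.W.μ c.W.ms (pr (c.up g) univ) :=
  BM.pr fun k _ => um_bm (um_up c g k)

variable {c}

theorem facB2 (fd : Fd) : Fac c.W c.B2 :=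
  (fd.h.kc _ _ c.L.nice (fd.lb.fac c.L c.B c.kc.1)).1

theorem ble (fd : Fd) : c.β ≤ c.W2.ms :=
  (fd.h.kc _ _ c.L2.nice (fd.lb.fac c.L2 c.B2 (facB2 fd))).1.le

theorem um_tup (fd : Fd) {φ : c.ι → c.W.X → ℂ} (h : c.Tup1 φ) (k : c.ι) :
    Um c.W.ms c.W.μ (φ k) :=
  um_mono (h k) (sup_le (fd.a.pull_le _ _ _ _ (mpP c k) le_rfl) (facB2 fd).le)

theorem measB (gi : c.GI) (j : c.ι) {Z : Set c.W.X} (hZ : MeasurableSet[c.B2] Z) :
    MeasurableSet[c.β] (c.Bc j ⁻¹' Z) := gi.colB j _ (meas_pull _ _ hZ)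

theorem measA (gi : c.GI) (q : c.ι) {Z : Set c.W.X} (hZ : MeasurableSet[c.B2] Z) :
    MeasurableSet[c.β] (c.A q ⁻¹' Z) := gi.rowB q _ (meas_pull _ _ hZ)

theorem swap (fd : Fd) (gi : c.GI) (q j : c.ι) (g : Uni c.X.X) :
    (fun x => ufn g (c.π j (c.A q x))) =ᵐ[c.W2.μ] fun x => ufn g (c.π q (c.Bc j x)) :=
  fd.a.keq_fun c.X.ms c.W2.μ c.X.μ (c.π j ∘ c.A q) (c.π q ∘ c.Bc j) (ufn g)
    ((mpP c j).comp (mpA c q)) ((mpP c q).comp (mpB c j)) (gi.col q j) (um_ufn _ g).1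

/-- the representation for all members of a column tuple at once -/
theorem rep_all (rep : Rep c) (j : c.ι) (Φ : c.ι → c.ι → c.W.X → ℂ) (E : Set c.W2.X)
    (hΦ : ∀ i, c.Tup1 (Φ i)) (hE : MeasurableSet[c.β] E) (h0 : c.W2.μ E ≠ 0)
    (h1 : E ≤ᵐ[c.W2.μ] c.Bc j ⁻¹' c.Θ (Φ j))
    (h2 : ∀ k, E ≤ᵐ[c.W2.μ] (Th c.β c.W2.μ fun x => ∏ i, Φ i k (c.Bc i x))) (S : Finset c.ι) :
    ∃ (E' : Set c.W2.X) (g : c.ι → Uni c.X.X), MeasurableSet[c.β] E' ∧ E' ⊆ E ∧ c.W2.μ E' ≠ 0 ∧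
      ∀ k ∈ S, E' ≤ᵐ[c.W2.μ]
        Th c.β c.W2.μ fun x => Φ j k (c.Bc j x) * conj (ufn (g k) (c.π k (c.Bc j x))) := by
  induction S using Finset.induction_on with
  | empty => exact ⟨E, fun _ => 1, hE, subset_rfl, h0, fun k hk => absurd hk (notMem_empty k)⟩
  | insert k S hk ih =>
    obtain ⟨E1, g, m1, s1, n1, t1⟩ := ih
    obtain ⟨E2, g2, m2, s2, n2, t2⟩ := rep j k Φ E1 hΦ m1 n1 (s1.eventuallyLE.trans h1)
      (s1.eventuallyLE.trans (h2 k))
    refine ⟨E2, update g k g2, m2, s2.trans s1, n2, fun l hl => ?_⟩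
    rcases eq_or_ne l k with rfl | hne
    · rw [update_self]; exact t2
    · rw [update_of_ne hne]
      exact s2.eventuallyLE.trans (t1 l ((mem_insert.1 hl).resolve_left hne))

end GSpURow

open GSpURow in
theorem gspU : GSpUR := by
  intro fd rc c gi hg gs fu rep q j h hv hne
  have hβ := hg.ble
  obtain ⟨φ, hφ, h0⟩ := gs q j h hv hne
  have uφ : ∀ k, Um c.W2.ms c.W2.μ fun x => φ k (c.Bc j x) := fun k =>
    um_comp (mpB c j) (um_tup fd hφ k)
  have mΘ : MeasurableSet[c.β] (c.Bc j ⁻¹' c.Θ φ) := measB gi j (rc.meas _ _ _)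
  have mE0 := mΘ.inter (meas_ne c.β c.W2.μ fun y => h y * φ q (c.Bc j y))
  obtain ⟨a, ha, h1⟩ := corr c.β (c.G q) (univ.erase j) c.W2.μ hβ (hg.le q) (um_bm (uφ q))
    hv.2.2 mE0 (by rwa [Set.inter_assoc, Set.inter_self])
  obtain ⟨E1, Φ, m1, s1, n1, hΦ, hj, t1, t2⟩ := fu q j φ _ a hφ mE0
    Set.inter_subset_left.eventuallyLE (fun i => (ha i).mono le_sup_left) h1
  obtain ⟨E, g, mE, sE, nE, tE⟩ := rep_all rep j Φ E1 hΦ m1 n1 (t1 j) t2 univ
  rw [hj] at tE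
  have ug : ∀ k, Um c.W2.ms c.W2.μ fun x => c.up g k (c.Bc j x) := fun k =>
    um_comp (mpB c j) (um_up c g k)
  have uu := fun k => um_mul_conj (uφ k) (ug k)
  set t : c.ι → c.W2.X → ℂ := fun k x =>
    conj ((c.W2.μ[fun x => φ k (c.Bc j x) * conj (c.up g k (c.Bc j x)) | c.β]) x) with ht
  have bt : ∀ k, BM c.W2.μ c.β (t k) := fun k => ((um_bm (uu k)).ce c.β).conj
  have key : ∀ k, ∀ᵐ x ∂c.W2.μ, x ∈ E →
      c.up g k (c.Bc j x) = t k x * φ k (c.Bc j x) ∧ ‖t k x‖ = 1 := by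
    intro k
    filter_upwards [tE k (mem_univ k), rc.eq c.β c.W2.μ _ hβ (uu k), (uφ k).2] with x a1 a2 a3 hx
    have a4 := a1 hx
    refine ⟨unim a3 (a2 a4), ?_⟩
    rw [ht]
    simp only [Complex.norm_conj]
    exact a4
  have hh : BM c.W2.μ c.W2.ms h := hv.1.mono (sup_le (hg.le q j) hβ)
  have l1 := rc.loc c.β c.W2.μ (fun y => h y * c.up g q (c.Bc j y)) (fun y => h y * φ q (c.Bc j y))
    (t q) E hβ (hh.mul (um_bm (ug q))) (hh.mul (um_bm (uφ q))) (bt q) mE (by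
      filter_upwards [key q] with x hx hE
      rw [(hx hE).1]; ring)
  have bφ : BM c.W.μ c.W.ms (pr φ univ) := BM.pr fun k _ => um_bm (um_tup fd hφ k)
  have l2 := rc.loc c.β c.W2.μ (fun y => pr (c.up g) univ (c.Bc j y))
    (fun y => pr φ univ (c.Bc j y)) (pr t univ) E hβ
    (BM.pr (ρ := fun k x => c.up g k (c.Bc j x)) fun k _ => um_bm (ug k))
    (BM.pr (ρ := fun k x => φ k (c.Bc j x)) fun k _ => um_bm (uφ k))
    (BM.pr fun k _ => bt k) mE (by
      filter_upwards [ae_all_iff.2 key] with x hx hE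
      simp only [pr, ← prod_mul_distrib]
      exact prod_congr rfl fun k _ => (hx k hE).1)
  refine ⟨c.up g, ⟨g, rfl⟩, ne_of_le nE ?_⟩
  filter_upwards [l1, l2, ae_all_iff.2 key, gi.colE j _ bφ, gi.colE j _ (bm_pr_up c g)] with
    x a1 a2 a3 a4 a5 hE
  have hx := s1 (sE hE)
  refine ⟨?_, ?_⟩
  · have b1 : ‖(c.W.μ[pr φ univ | c.B2]) (c.Bc j x)‖ = 1 := hx.1
    show ‖(c.W.μ[pr (c.up g) univ | c.B2]) (c.Bc j x)‖ = 1
    rw [← a5, a2 hE, a4, norm_mul, b1, mul_one]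
    simp only [pr, norm_prod]
    exact prod_eq_one fun k _ => (a3 k hE).2
  · show (c.W2.μ[fun y => h y * c.up g q (c.Bc j y) | c.β]) x ≠ 0
    rw [a1 hE]
    refine mul_ne_zero (fun hz => ?_) hx.2
    have := (a3 q hE).2
    rw [hz, norm_zero] at this
    exact zero_ne_one this

open GSpURow in
theorem t5 : T5R := by
  intro fd rc c gi gs fu
  have hβ : c.β ≤ c.W2.ms := ble fd
  refine ⟨?_, ?_⟩
  · intro q j k g h Z hq hZ hsub
    have mE : MeasurableSet[c.β]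
        ((c.Bc q ⁻¹' c.Θ (c.up g) ∩ c.A j ⁻¹' c.Θ (c.up h)) ∩ (c.A k ⁻¹' Z)ᶜ) :=
      ((measB gi q (rc.meas _ _ _)).inter (measA gi j (rc.meas _ _ _))).inter (measA gi k hZ).compl
    suffices hz : c.W2.μ ((c.Bc q ⁻¹' c.Θ (c.up g) ∩ c.A j ⁻¹' c.Θ (c.up h)) ∩
        (c.A k ⁻¹' Z)ᶜ) = 0 by
      filter_upwards [measure_eq_zero_iff_ae_notMem.1 hz] with x hx hm
      by_contra hn
      exact hx ⟨hm, hn⟩
    by_contra n0
    have ha : ∀ i, BM c.W2.μ (c.G j i ⊔ c.β) fun x => c.up h i (c.A j x) := fun i =>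
      (fd.a.bm_comp c.X.ms c.W2.μ c.X.μ (c.π i ∘ c.A j) (ufn (h i)) ((mpP c i).comp (mpA c j))
        (um_bm (um_ufn _ (h i)))).mono le_sup_left
    have e1 : (fun y => c.up g j (c.Bc q y) * pr (fun i x => c.up h i (c.A j x)) (univ.erase q) y)
        =ᵐ[c.W2.μ] fun y => pr (c.up h) univ (c.A j y) := by
      filter_upwards [swap fd gi j q (g j)] with y hy
      rw [Fib27.pr_erase (c.up h) (mem_univ q)]
      have : c.up h q (c.A j y) = c.up g j (c.Bc q y) := by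
        show ufn (h q) (c.π q (c.A j y)) = ufn (g j) (c.π j (c.Bc q y))
        rw [hq]; exact hy
      rw [this]; rfl
    obtain ⟨E1, Φ, m1, s1, n1, hΦ, hj, t1, t2⟩ := fu j q (c.up g) _
      (fun i x => c.up h i (c.A j x)) ⟨g, rfl⟩ mE
      (Set.inter_subset_left.trans Set.inter_subset_left).eventuallyLE ha (ne_of_le n0 (by
        filter_upwards [condExp_congr_ae (m := c.β) e1, gi.rowE j _ (bm_pr_up c h)] with
          x a1 a2 hx
        refine ⟨hx, ?_⟩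
        have b1 : ‖(c.W.μ[pr (c.up h) univ | c.B2]) (c.A j x)‖ = 1 := hx.1.2
        show (c.W2.μ[fun y => c.up g j (c.Bc q y) *
          pr (fun i x => c.up h i (c.A j x)) (univ.erase q) y | c.β]) x ≠ 0
        rw [a1, a2]
        intro hz
        rw [hz, norm_zero] at b1
        exact zero_ne_one b1))
    choose γ hγ using hΦ
    have hγ' : ∀ i, Φ i = c.up (update γ q g i) := by
      intro i
      rcases eq_or_ne i q with rfl | hne
      · rw [update_self]; exact hj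
      · rw [update_of_ne hne]; exact hγ i
    have e2 : (fun x => ∏ i, Φ i k (c.Bc i x)) =ᵐ[c.W2.μ]
        fun x => pr (c.up fun i => update γ q g i k) univ (c.A k x) := by
      filter_upwards [ae_all_iff.2 fun i => swap fd gi k i (update γ q g i k)] with x hx
      refine prod_congr rfl fun i _ => ?_
      rw [hγ' i]
      exact (hx i).symm
    have e3 := (mpA c k).quasiMeasurePreserving.ae
      (hsub (fun i => update γ q g i k) (by simp only [update_self]))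
    refine n1 (measure_eq_zero_iff_ae_notMem.2 ?_)
    filter_upwards [t2 k, condExp_congr_ae (m := c.β) e2, e3,
      gi.rowE k _ (bm_pr_up c fun i => update γ q g i k)] with x a1 a2 a3 a4 hx
    have b1 : ‖(c.W2.μ[fun x => ∏ i, Φ i k (c.Bc i x) | c.β]) x‖ = 1 := a1 hx
    rw [a2, a4] at b1
    exact (s1 hx).2 (a3 b1)
  · rintro ⟨j, h, hv, hne, hz⟩
    obtain ⟨_, ⟨g, rfl⟩, h0⟩ := gs j j h hv hne
    refine ⟨g, j, fun n0 => h0 (measure_eq_zero_iff_ae_notMem.2 ?_)⟩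
    have mp2 := (mpP c j).comp (mpB c j)
    have hG : c.G j j ≤ c.W2.ms := fd.a.pull_le _ _ _ _ ((mpP c j).comp (mpA c j)) le_rfl
    have hh : BM c.W2.μ c.W2.ms h := hv.1.mono (sup_le hG hβ)
    have b1 : BM c.W.μ c.B2 fun w => (c.X.μ[ufn (g j) | c.B]) (c.π j w) :=
      (fd.a.bm_comp c.B c.W.μ c.X.μ (c.π j) _ (mpP c j)
        ((um_bm (um_ufn c.X.μ (g j))).ce c.B)).mono
        ((fd.lb.slot c.L c.B (c.sl j) c.kc.1).trans (fd.h.le _ _))
    have b2 : BM c.W2.μ c.β fun x => (c.X.μ[ufn (g j) | c.B]) (c.π j (c.Bc j x)) :=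
      (fd.a.bm_comp c.B2 c.W2.μ c.W.μ (c.Bc j) _ (mpB c j) b1).mono (gi.colB j)
    have e1 := mp2.quasiMeasurePreserving.ae (rc.eq c.B c.X.μ _ c.kc.1.le (um_ufn _ (g j)))
    have e2 := (mpB c j).quasiMeasurePreserving.ae (measure_eq_zero_iff_ae_notMem.1 n0)
    have l1 := rc.loc c.β c.W2.μ (fun y => h y * c.up g j (c.Bc j y)) h _
      (c.Bc j ⁻¹' c.Θ (c.up g)) hβ (hh.mul (um_bm (um_comp (mpB c j) (um_up c g j)))) hh b2
      (measB gi j (rc.meas _ _ _)) (by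
        filter_upwards [e1, e2] with x a1 a2 hx
        have a3 : ‖(c.X.μ[ufn (g j) | c.B]) (c.π j (c.Bc j x))‖ = 1 := by
          by_contra hn
          exact a2 ⟨hx, hn⟩
        have a4 : c.up g j (c.Bc j x) = (c.X.μ[ufn (g j) | c.B]) (c.π j (c.Bc j x)) := a1 a3
        rw [a4, mul_comm])
    filter_upwards [l1, hz] with x a1 a2 hx
    refine hx.2 ?_
    rw [a1 hx.1, a2, Pi.zero_apply, mul_zero]

end T3x

end

end PkGSpU

section PkGSp1

/-! Row GSp1: the members of column tuples span. -/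

set_option autoImplicit false
set_option linter.unusedVariables false
set_option warn.classDefReducibility false

open MeasureTheory ProbabilityTheory Filter Topology Function Finset ComplexConjugate
open scoped BigOperators
open Fib27 (BM sup pr Oc Orow F23 LInd Mem)

noncomputable section

namespace T3x

namespace GSp1P

theorem bm_sq {Ω : Type} {m m0 : MeasurableSpace Ω} {μ : Measure Ω} {a b : Ω → ℂ}
    (ha : BM μ m a) (hb : BM μ m b) : BM μ m fun x => ((‖a x - b x‖ ^ 2 : ℝ) : ℂ) :=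
  ((ha.sub hb).mul (ha.sub hb).conj).congr (Eventually.of_forall fun x => by
    simp only [Complex.mul_conj, Complex.normSq_eq_norm_sq])

theorem int_of_bm {Ω : Type} {m0 : MeasurableSpace Ω} {μ : Measure Ω} [IsProbabilityMeasure μ]
    {r : Ω → ℝ} (hr : BM μ m0 fun x => (r x : ℂ)) : Integrable r μ := by
  simpa using hr.integrable.re

theorem est {Ω : Type} {β m0 : MeasurableSpace Ω} (μ : Measure Ω) [IsProbabilityMeasure μ]
    (hβ : β ≤ m0) {h a b : Ω → ℂ} {C η : ℝ} (hh : BM μ m0 h) (ha : BM μ m0 a) (hb : BM μ m0 b)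
    (hC0 : 0 ≤ C) (hη : 0 < η) (hC : ∀ᵐ x ∂μ, ‖h x‖ ≤ C) :
    ∀ᵐ x ∂μ, (μ[fun y => ‖a y - b y‖ ^ 2 | β]) x ≤ η ^ 2 →
      C * η < ‖(μ[fun y => h y * conj (b y) | β]) x‖ → (μ[fun y => h y * conj (a y) | β]) x ≠ 0 := by
  have hi : Integrable (fun y => ‖a y - b y‖ ^ 2) μ := int_of_bm (bm_sq ha hb)
  have hd : BM μ m0 fun y => h y * conj (b y) - h y * conj (a y) :=
    (hh.mul hb.conj).sub (hh.mul ha.conj)
  have h1 := norm_condExp_le (μ := μ) (m := β) fun y => h y * conj (b y) - h y * conj (a y)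
  have h2 : μ[fun y => ‖h y * conj (b y) - h y * conj (a y)‖ | β] ≤ᵐ[μ]
      μ[(fun _ => C * η / 2) + (C / (2 * η)) • fun y => ‖a y - b y‖ ^ 2 | β] := by
    refine condExp_mono hd.integrable.norm ((integrable_const _).add (hi.smul _)) ?_
    filter_upwards [hC] with y hy
    have e : ‖h y * conj (b y) - h y * conj (a y)‖ = ‖h y‖ * ‖a y - b y‖ := by
      rw [← mul_sub, ← map_sub, norm_mul, Complex.norm_conj, norm_sub_rev]
    simp only [Pi.add_apply, Pi.smul_apply, smul_eq_mul]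
    rw [e]
    have h3 : ‖a y - b y‖ ≤ η / 2 + ‖a y - b y‖ ^ 2 / (2 * η) := by
      rw [← sub_nonneg]
      have : η / 2 + ‖a y - b y‖ ^ 2 / (2 * η) - ‖a y - b y‖ = (η - ‖a y - b y‖) ^ 2 / (2 * η) := by
        field_simp; ring
      rw [this]; positivity
    calc ‖h y‖ * ‖a y - b y‖ ≤ C * (η / 2 + ‖a y - b y‖ ^ 2 / (2 * η)) :=
          mul_le_mul hy h3 (norm_nonneg _) hC0
      _ = _ := by ring
  have h3 := condExp_add (μ := μ) (integrable_const (C * η / 2)) (hi.smul (C / (2 * η))) β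
  have h4 := condExp_smul (μ := μ) (C / (2 * η)) (fun y => ‖a y - b y‖ ^ 2) β
  filter_upwards [h1, h2, h3, h4, Fib27.ce_sub (hh.mul hb.conj) (hh.mul ha.conj) β]
    with x h1 h2 h3 h4 h5 hx hlt h0
  rw [h5, h0, sub_zero] at h1
  rw [h3, Pi.add_apply, h4, condExp_const hβ, Pi.smul_apply, smul_eq_mul] at h2
  have h6 : C / (2 * η) * (μ[fun y => ‖a y - b y‖ ^ 2 | β]) x ≤ C / (2 * η) * η ^ 2 :=
    mul_le_mul_of_nonneg_left hx (by positivity)
  have h7 : C / (2 * η) * η ^ 2 = C * η / 2 := by field_simp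
  linarith

theorem ce_real {Ω Ω' : Type} {β m0 : MeasurableSpace Ω} {β' m0' : MeasurableSpace Ω'}
    {μ : Measure Ω} {μ' : Measure Ω'} [IsProbabilityMeasure μ] [IsProbabilityMeasure μ']
    {p : Ω → Ω'} (hp : MeasurePreserving p μ μ')
    (hE : ∀ g, BM μ' m0' g → μ[fun x => g (p x) | β] =ᵐ[μ] fun x => (μ'[g | β']) (p x))
    {r : Ω' → ℝ} (hr : BM μ' m0' fun x => (r x : ℂ)) :
    μ[fun x => r (p x) | β] =ᵐ[μ] fun x => (μ'[r | β']) (p x) := by
  have i1 := int_of_bm hr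
  have i2 : Integrable (fun x => r (p x)) μ := hp.integrable_comp_of_integrable i1
  filter_upwards [Complex.ofRealCLM.comp_condExp_comm (m := β) i2, hE _ hr,
    hp.quasiMeasurePreserving.ae (Complex.ofRealCLM.comp_condExp_comm (m := β') i1)]
    with x h1 h2 h3
  have : (((μ[fun x => r (p x) | β]) x : ℝ) : ℂ) = (((μ'[r | β']) (p x) : ℝ) : ℂ) :=
    h1.trans (h2.trans h3.symm)
  exact_mod_cast this

theorem Lb_bm {Ω : Type} {m m0 : MeasurableSpace Ω} {μ : Measure Ω} {v : Ω → ℂ}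
    (h : Lb m μ v) : BM μ m v := ⟨h.1, 1, Eventually.of_forall h.2⟩

theorem bm_up {Ω Ω' : Type} {m0 : MeasurableSpace Ω} {m0' : MeasurableSpace Ω'}
    {μ : Measure Ω} {μ' : Measure Ω'} {p : Ω → Ω'} (hp : MeasurePreserving p μ μ') {g : Ω' → ℂ}
    (hg : BM μ' m0' g) : BM μ m0 fun x => g (p x) := by
  obtain ⟨h1, C, hC⟩ := hg
  exact ⟨h1.comp_measurePreserving hp, C, hp.quasiMeasurePreserving.ae hC⟩

/-- transfer along a map that commutes with the conditional expectations -/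
theorem main {Ω Ω' ι : Type} [Fintype ι] [DecidableEq ι] {β m0 : MeasurableSpace Ω}
    {β' m0' : MeasurableSpace Ω'} {μ : Measure Ω} {μ' : Measure Ω'} [IsProbabilityMeasure μ]
    [IsProbabilityMeasure μ'] (rc : Rc) {p : Ω → Ω'} (hp : MeasurePreserving p μ μ')
    (hβ : β ≤ m0) (hβ' : β' ≤ m0')
    (hE : ∀ g, BM μ' m0' g → μ[fun x => g (p x) | β] =ᵐ[μ] fun x => (μ'[g | β']) (p x))
    {v : ℕ → ι → Ω → ℂ} {v0 : ι → Ω → ℂ} {w : ℕ → ι → Ω' → ℂ} {w0 φ : ι → Ω' → ℂ} {η C : ℝ}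
    {h : Ω → ℂ} (q : ι) (hw : ∀ i k, BM μ' m0' (w i k)) (hw0 : ∀ k, BM μ' m0' (w0 k))
    (hv : ∀ i k, v i k =ᵐ[μ] fun x => w i k (p x)) (hv0 : ∀ k, v0 k =ᵐ[μ] fun x => w0 k (p x))
    (hφ : ∀ k, Um m0' μ' (φ k)) (hh : BM μ m0 h) (hC0 : 0 ≤ C) (hη : 0 < η)
    (hC : ∀ᵐ x ∂μ, ‖h x‖ ≤ C)
    (hs : ∀ᵐ x ∂μ', x ∈ DS β' μ' w w0 η → x ∈ Th β' μ' (pr φ univ) ∧
      (μ'[fun y => ‖φ q y - w0 q y‖ ^ 2 | β']) x ≤ η ^ 2) :
    (DS β μ v v0 η ∩ {x | C * η < ‖(μ[fun y => h y * conj (v0 q y) | β]) x‖} : Set Ω) ≤ᵐ[μ]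
      (p ⁻¹' Th β' μ' (pr (fun k y => conj (φ k y)) univ) ∩
        {x | (μ[fun y => h y * conj (φ q (p y)) | β]) x ≠ 0} : Set Ω) := by
  have hφb : ∀ k, BM μ' m0' (φ k) := fun k => Fib27.BM.of_uni (hφ k).1 (hφ k).2
  have a1 : ∀ i, μ[pr (v i) univ | β] =ᵐ[μ] fun x => (μ'[pr (w i) univ | β']) (p x) := fun i =>
    (condExp_congr_ae (Fib27.pr_congr_ae (ρ' := fun k x => w i k (p x)) fun k _ => hv i k)).trans
      (hE (pr (w i) univ) (Fib27.BM.pr fun k _ => hw i k))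
  have a2 : ∀ i k, μ[fun y => ‖v i k y - v0 k y‖ ^ 2 | β] =ᵐ[μ]
      fun x => (μ'[fun y => ‖w i k y - w0 k y‖ ^ 2 | β']) (p x) := fun i k => by
    refine EventuallyEq.trans (condExp_congr_ae ?_) (ce_real hp hE (bm_sq (hw i k) (hw0 k)))
    filter_upwards [hv i k, hv0 k] with y h1 h2
    rw [h1, h2]
  have a3 := ce_real hp hE (bm_sq (hφb q) (hw0 q))
  have hU : Um m0' μ' (pr φ univ) := ⟨(Fib27.BM.pr fun k _ => hφb k).1, by
    filter_upwards [ae_all_iff.2 fun k => (hφ k).2] with y hy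
    simp [pr, hy]⟩
  have a4 := rc.cj β' μ' (pr φ univ) hβ' hU
  have e4 : (fun x => conj (pr φ univ x)) = pr (fun k y => conj (φ k y)) univ :=
    funext fun x => (Fib27.pr_conj φ univ x).symm
  rw [e4] at a4
  have a5 := est μ hβ hh (bm_up hp (hφb q)) (bm_up hp (hw0 q)) hC0 hη hC
  have a6 : μ[fun y => h y * conj (v0 q y) | β] =ᵐ[μ] μ[fun y => h y * conj (w0 q (p y)) | β] := by
    refine condExp_congr_ae ?_
    filter_upwards [hv0 q] with y h1
    rw [h1]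
  filter_upwards [ae_all_iff.2 a1, ae_all_iff.2 fun i => ae_all_iff.2 (a2 i), a3,
    hp.quasiMeasurePreserving.ae a4, a5, a6, hp.quasiMeasurePreserving.ae hs]
    with x a1 a2 a3 a4 a5 a6 hs hx
  obtain ⟨hx1, hx2⟩ := hx
  have hD : p x ∈ DS β' μ' w w0 η := by
    refine Set.mem_iInter.2 fun n => ?_
    obtain ⟨i, hi1, hi2⟩ := Set.mem_iUnion.1 (Set.mem_iInter.1 hx1 n)
    refine Set.mem_iUnion.2 ⟨i, ?_, fun k => ?_⟩
    · rw [← a1 i]; exact hi1
    · rw [← a2 i k]; exact hi2 k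
  obtain ⟨h1, h2⟩ := hs hD
  refine ⟨?_, a5 (by rw [a3]; exact h2) ?_⟩
  · exact (iff_of_eq a4).2 h1
  · rw [← a6]; exact hx2

end GSp1P

theorem gsp1 : GSp1R := by
  intro fd rc sel gg c gi hg q j h hV h0
  obtain ⟨C0, hC0⟩ := hV.1.2
  have hC : ∀ᵐ x ∂c.W2.μ, ‖h x‖ ≤ max C0 0 := hC0.mono fun x hx => hx.trans (le_max_left _ _)
  obtain ⟨v, v0, η, hv, hv0, hη, hη', hpos⟩ :=
    gg c.β c.G q j c.W2.μ h (max C0 0) hg c.three hV (le_max_right _ _) hC h0
  have eπ : ∀ k, Emb c.W c.X (c.π k) := fun k => c.L.emb (c.sl k)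
  have eA : ∀ k, Emb c.W2 c.W (c.A k) := fun k => c.L2.emb (c.sl k)
  have eB : Emb c.W2 c.W (c.Bc j) := (c.lift j).emb
  have hB2 : c.B2 ≤ c.W.ms := (fd.h.kc c.W _ c.L.nice (fd.lb.fac c.L c.B c.kc.1)).1.le
  have hP : ∀ k, c.P k ≤ c.W.ms := fun k =>
    fd.a.pull_le c.X.ms c.W.μ c.X.μ _ (eπ k).mp le_rfl
  have key : ∀ (k : c.ι) (u : c.W2.X → ℂ), Lb (c.G k j) c.W2.μ u →
      ∃ u' : c.W.X → ℂ, Lb (c.P k) c.W.μ u' ∧ u =ᵐ[c.W2.μ] fun x => u' (c.Bc j x) := by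
    intro k u hu
    have m1 := ((eπ j).mp.comp (eA k).mp).measurable.comap_le
    have m2 := ((eπ k).mp.comp eB.mp).measurable.comap_le
    have e : c.G k j = pull c.W2.μ (c.π k ∘ c.Bc j) c.X.ms :=
      fd.a.keq_pull c.X.ms c.W2.μ _ _ m1 m2 (gi.col k j)
    rw [e] at hu
    obtain ⟨f, hf1, hf2, hf3⟩ := fd.a.fact c.X.ms c.W2.μ (c.π k ∘ c.Bc j) u 1 m2 zero_le_one hu.1
      (Eventually.of_forall hu.2)
    exact ⟨fun y => f (c.π k y), ⟨(fd.a.bm_comp c.X.ms c.W.μ c.X.μ (c.π k) f (eπ k).mp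
      ⟨hf1.aestronglyMeasurable, 1, Eventually.of_forall hf2⟩).1, fun y => hf2 _⟩, hf3⟩
  choose w hw hw' using fun i k => key k (v i k) (hv i k)
  choose w0 hw0 hw0' using fun k => key k (v0 k) (hv0 k)
  obtain ⟨φ, hφ, hs⟩ := sel c.B2 c.P c.W.μ w w0 η hB2 hP c.three gi.cline hw hw0 hη hη'
  refine ⟨fun k y => conj (φ k y), fun k => ⟨(Fib27.BM.of_uni (hφ k).1 (hφ k).2).conj.1, ?_⟩,
    fun hz => hpos ?_⟩
  · filter_upwards [(hφ k).2] with y hy
    rwa [Complex.norm_conj]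
  · refine measure_mono_null_ae ?_ hz
    exact GSp1P.main rc eB.mp hg.ble hB2 (gi.colE j) q
      (fun i k => (GSp1P.Lb_bm (hw i k)).mono (hP k)) (fun k => (GSp1P.Lb_bm (hw0 k)).mono (hP k))
      hw' hw0' (fun k => ⟨(hφ k).1.mono (sup_le (hP k) hB2), (hφ k).2⟩)
      (hV.1.mono (sup_le (hg.le q j) hg.ble)) (le_max_right _ _) hη hC
      (hs.mono fun x hx hD => ⟨(hx hD).1, ((hx hD).2 q).2.2⟩)

end T3x

end

end PkGSp1

section PkFull

/-! Row Full: a column tuple that correlates with a row extends to all columns. -/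

set_option autoImplicit false
set_option linter.unusedVariables false
set_option warn.classDefReducibility false

open MeasureTheory ProbabilityTheory Filter Topology Function Finset ComplexConjugate
open scoped BigOperators
open Fib27 (BM sup pr Oc Orow)

noncomputable section

namespace T3x

namespace Fullx

theorem um_bm {Ω : Type} {m m0 : MeasurableSpace Ω} {μ : @Measure Ω m0} {φ : Ω → ℂ}
    (h : Um m μ φ) : BM μ m φ := BM.of_uni h.1 h.2

theorem um_pr {Ω ι : Type} {m m0 : MeasurableSpace Ω} {μ : @Measure Ω m0} {φ : ι → Ω → ℂ}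
    (S : Finset ι) (h : ∀ k ∈ S, Um m μ (φ k)) : Um m μ (pr φ S) := by
  refine ⟨(BM.pr fun k hk => um_bm (h k hk)).1, ?_⟩
  filter_upwards [(Finset.eventually_all S).2 fun k hk => (h k hk).2] with x hx
  rw [pr, norm_prod, Finset.prod_eq_one hx]

variable {c : Ctx}

theorem bc_mp (i : c.ι) : MeasurePreserving (c.Bc i) c.W2.μ c.W.μ := (c.lift i).emb.mp

theorem b2_le (f : Fd) : c.B2 ≤ c.W.ms :=
  (f.h.kc c.L.W _ c.L.nice (f.lb.fac c.L c.B c.kc.1)).1.le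

theorem p_le (f : Fd) (k : c.ι) : c.P k ≤ c.W.ms :=
  f.a.pull_le _ c.W.μ c.X.μ _ (c.L.emb (c.sl k)).mp le_rfl

theorem g_eq (f : Fd) (gi : c.GI) (k i : c.ι) : c.G k i = pull c.W2.μ (c.Bc i) (c.P k) := by
  have h1 : MeasurePreserving (c.π i ∘ c.A k) c.W2.μ c.X.μ :=
    (c.L.emb (c.sl i)).mp.comp (c.L2.emb (c.sl k)).mp
  have h2 : MeasurePreserving (c.π k ∘ c.Bc i) c.W2.μ c.X.μ :=
    (c.L.emb (c.sl k)).mp.comp (bc_mp i)
  have h3 := f.a.keq_pull _ c.W2.μ _ _ h1.measurable.comap_le h2.measurable.comap_le (gi.col k i)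
  exact h3.trans (f.a.pull_comp _ c.W2.μ c.W.μ _ _ (bc_mp i)).symm

theorem um_col (f : Fd) (gi : c.GI) {φ : c.ι → c.W.X → ℂ} (h : c.Tup1 φ) (k i : c.ι) :
    Um (c.G k i ⊔ c.β) c.W2.μ fun x => φ k (c.Bc i x) := by
  refine ⟨?_, (bc_mp i).quasiMeasurePreserving.ae (h k).2⟩
  have h1 := f.a.bm_comp _ c.W2.μ c.W.μ _ _ (bc_mp i) (um_bm (h k))
  rw [f.a.pull_sup, ← g_eq f gi] at h1
  exact (h1.mono (sup_le_sup_left (gi.colB i) _)).1

theorem th_meas (r : Rc) (gi : c.GI) (φ : c.ι → c.W.X → ℂ) (i : c.ι) :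
    MeasurableSet[c.β] (c.Bc i ⁻¹' c.Θ φ) :=
  (le_sup_left.trans (gi.colB i)) _ ⟨_, r.meas c.B2 c.W.μ _, rfl⟩

/-- on the event of a column tuple the product is a function of the base -/
theorem th_eq (f : Fd) (r : Rc) (gi : c.GI) {φ : c.ι → c.W.X → ℂ} (h : c.Tup1 φ) (i : c.ι) :
    ∃ κ, BM c.W2.μ c.β κ ∧ ∀ᵐ x ∂c.W2.μ, x ∈ c.Bc i ⁻¹' c.Θ φ →
      ∏ k, φ k (c.Bc i x) = κ x := by
  have hu : Um c.W.ms c.W.μ (pr φ univ) :=
    um_pr _ fun k _ => ⟨(h k).1.mono (sup_le (p_le f k) (b2_le f)), (h k).2⟩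
  refine ⟨fun x => (c.W.μ[pr φ univ | c.B2]) (c.Bc i x),
    (f.a.bm_comp _ c.W2.μ c.W.μ _ _ (bc_mp i) ((um_bm hu).ce c.B2)).mono (gi.colB i), ?_⟩
  exact (bc_mp i).quasiMeasurePreserving.ae (r.eq c.B2 c.W.μ _ (b2_le f) hu)

theorem oc_bm (f : Fd) (r : Rc) (gi : c.GI) {φ : c.ι → c.W.X → ℂ} (h : c.Tup1 φ) (q j : c.ι)
    {ψ : c.W2.X → ℂ} (hψ : BM c.W2.μ c.β ψ)
    (hs : ∀ᵐ x ∂c.W2.μ, ψ x ≠ 0 → x ∈ c.Bc j ⁻¹' c.Θ φ) :
    BM c.W2.μ (Oc c.G q j ⊔ c.β) fun x => ψ x * φ q (c.Bc j x) := by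
  obtain ⟨κ, hκ, e⟩ := th_eq f r gi h j
  have h1 : BM c.W2.μ (Oc c.G q j ⊔ c.β) (pr (fun k x => φ k (c.Bc j x)) (univ.erase q)) :=
    BM.pr fun k hk => (um_bm (um_col f gi h k j)).mono
      (sup_le_sup_right (Fib27.le_sup' (fun q' => c.G q' j) hk) _)
  have h2 := ((hψ.mul hκ).mono le_sup_right).mul h1.conj
  refine h2.congr ?_
  have h3 := (Finset.eventually_all (univ.erase q)).2 fun k _ => (um_col f gi h k j).2
  filter_upwards [e, hs, h3] with x e hs h3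
  by_cases h0 : ψ x = 0
  · simp [h0]
  have h4 : ‖pr (fun k x => φ k (c.Bc j x)) (univ.erase q) x‖ = 1 := by
    rw [pr, norm_prod, Finset.prod_eq_one h3]
  rw [← e (hs h0), ← Finset.mul_prod_erase _ _ (mem_univ q), mul_assoc, mul_assoc]
  change _ * (_ * (pr (fun k x => φ k (c.Bc j x)) (univ.erase q) x * _)) = _
  rw [Complex.mul_conj, Complex.normSq_eq_norm_sq, h4]
  simp

theorem step (f : Fd) (r : Rc) (gi : c.GI) (hg : HG c.β c.G c.W2.μ) (hx : HGX c.β c.G c.W2.μ)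
    {C : (c.ι → c.W.X → ℂ) → Prop} (hC : ∀ φ, C φ → c.Tup1 φ) (gs : c.GSp C) {q j i : c.ι}
    (hij : i ≠ j) {φ : c.ι → c.W.X → ℂ} (hφ : c.Tup1 φ) {E : Set c.W2.X}
    (hE : MeasurableSet[c.β] E) (hEΘ : E ≤ᵐ[c.W2.μ] c.Bc j ⁻¹' c.Θ φ) {a : c.ι → c.W2.X → ℂ}
    (ha : ∀ k, BM c.W2.μ (c.G q k ⊔ c.β) (a k)) (haj : a j = fun x => φ q (c.Bc j x))
    (hpos : c.W2.μ (E ∩ {x | (c.W2.μ[pr a univ | c.β]) x ≠ 0}) ≠ 0) :
    ∃ φ', C φ' ∧ c.W2.μ ((E ∩ c.Bc i ⁻¹' c.Θ φ') ∩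
      {x | (c.W2.μ[pr (update a i fun x => φ' q (c.Bc i x)) univ | c.β]) x ≠ 0}) ≠ 0 := by
  have hle : ∀ k, c.G q k ⊔ c.β ≤ c.W2.ms := fun k => sup_le (hg.le q k) hg.ble
  have hK : BM c.W2.μ c.β (c.W2.μ[pr a univ | c.β]) :=
    (BM.pr fun k _ => (ha k).mono (hle k)).ce c.β
  obtain ⟨ψ, hψ, hψE, hψK⟩ : ∃ ψ : c.W2.X → ℂ, BM c.W2.μ c.β ψ ∧ (∀ x, ψ x ≠ 0 → x ∈ E) ∧
      ∀ x ∈ E, ψ x = conj ((c.W2.μ[pr a univ | c.β]) x) := by
    refine ⟨_, (BM.indicator hE).mul hK.conj, fun x hx => ?_, fun x hx => by simp [hx]⟩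
    by_contra h
    simp [h] at hx
  have hb : ∀ k, BM c.W2.μ (c.G q k ⊔ c.β) (update a j (fun x => ψ x * a j x) k) := fun k => by
    by_cases hk : k = j
    · subst hk
      rw [update_self]
      exact (hψ.mono le_sup_right).mul (ha k)
    · rw [update_of_ne hk]
      exact ha k
  have hbj : BM c.W2.μ (Oc c.G q j ⊔ c.β) (update a j (fun x => ψ x * a j x) j) := by
    rw [update_self, haj]
    refine oc_bm f r gi hφ q j hψ ?_
    filter_upwards [hEΘ] with x hx h0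
    exact hx (hψE x h0)
  have hv := hx.dual q i j _ hij hb hbj
  have hP : BM c.W2.μ c.W2.ms (pr (update a j fun x => ψ x * a j x) (univ.erase i)) :=
    BM.pr fun k _ => (hb k).mono (hle k)
  have key : ∀ u, BM c.W2.μ (c.G q i ⊔ c.β) u → c.W2.μ[fun y =>
      (c.W2.μ[pr (update a j fun x => ψ x * a j x) (univ.erase i) | c.G q i ⊔ c.β]) y * u y | c.β]
      =ᵐ[c.W2.μ] fun x => ψ x * (c.W2.μ[pr (update a i u) univ | c.β]) x := by
    intro u hu
    have hQ : BM c.W2.μ c.W2.ms (pr (update a i u) univ) := BM.pr fun k _ => by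
      by_cases hk : k = i
      · subst hk
        rw [update_self]
        exact hu.mono (hle k)
      · rw [update_of_ne hk]
        exact (ha k).mono (hle k)
    have e1 := (condExp_congr_ae (m := c.β) (Fib27.ce_mul' (hle i) hP hu).symm).trans
      (condExp_condExp_of_le le_sup_right (hle i))
    have e2 : (fun y => pr (update a j fun x => ψ x * a j x) (univ.erase i) y * u y) =
        fun y => ψ y * pr (update a i u) univ y := by
      funext y
      have hj : j ∈ univ.erase i := mem_erase.2 ⟨hij.symm, mem_univ j⟩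
      rw [Fib27.pr_erase _ (mem_univ i), update_self, Fib27.pr_update _ (notMem_erase i _),
        Fib27.pr_erase a hj, Fib27.pr_erase _ hj, update_self,
        Fib27.pr_update _ (notMem_erase j _)]
      ring
    rw [e2] at e1
    exact e1.trans (Fib27.ce_mul hg.ble hψ hQ)
  have hne : ¬ (c.W2.μ[pr (update a j fun x => ψ x * a j x) (univ.erase i) | c.G q i ⊔ c.β])
      =ᵐ[c.W2.μ] 0 := by
    intro h0
    have e1 := key (a i) (ha i)
    rw [update_eq_self] at e1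
    have e2 : (fun y => (c.W2.μ[pr (update a j fun x => ψ x * a j x) (univ.erase i) |
        c.G q i ⊔ c.β]) y * a i y) =ᵐ[c.W2.μ] 0 := by
      filter_upwards [h0] with y hy
      simp [hy]
    have e3 := condExp_congr_ae (m := c.β) e2
    rw [condExp_zero] at e3
    refine hpos (measure_eq_zero_iff_ae_notMem.2 ?_)
    filter_upwards [e1.symm.trans e3] with x hx hm
    rw [hψK x hm.1] at hx
    have hz := hm.2
    simp only [Pi.zero_apply, mul_eq_zero, map_eq_zero, or_self] at hx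
    exact hz hx
  obtain ⟨φ', hφ', hp⟩ := gs q i _ hv hne
  refine ⟨φ', hφ', fun h0 => hp (measure_mono_null_ae ?_ h0)⟩
  filter_upwards [key _ (um_bm (um_col f gi (hC _ hφ') q i))] with x hx hm
  have h1 := hm.2
  simp only [Set.mem_ofPred_eq] at h1
  rw [hx] at h1
  exact ⟨⟨hψE x (left_ne_zero_of_mul h1), hm.1⟩, right_ne_zero_of_mul h1⟩

end Fullx

open Fullx in
theorem full : FullR := by
  intro f r hX c C gi hg hC gs q j φ E a hφ hE hEΘ ha hpos
  have hx := hX _ _ _ hg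
  have main : ∀ S : Finset c.ι, ∃ (E' : Set c.W2.X) (Φ : c.ι → c.ι → c.W.X → ℂ)
      (a' : c.ι → c.W2.X → ℂ), MeasurableSet[c.β] E' ∧ E' ⊆ E ∧ (∀ i, C (Φ i)) ∧ Φ j = φ ∧
      (∀ i, BM c.W2.μ (c.G q i ⊔ c.β) (a' i)) ∧
      (∀ i, i = j ∨ i ∈ S → E' ≤ᵐ[c.W2.μ] c.Bc i ⁻¹' c.Θ (Φ i) ∧
        a' i = fun x => Φ i q (c.Bc i x)) ∧
      c.W2.μ (E' ∩ {x | (c.W2.μ[pr a' univ | c.β]) x ≠ 0}) ≠ 0 := by
    intro S
    induction S using Finset.induction_on with
    | empty =>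
      refine ⟨E, fun _ => φ, update a j fun x => φ q (c.Bc j x), hE, subset_rfl, fun _ => hφ, rfl,
        fun i => ?_, fun i hi => ?_, ?_⟩
      · by_cases hk : i = j
        · subst hk
          rw [update_self]
          exact um_bm (um_col f gi (hC _ hφ) q i)
        · rw [update_of_ne hk]
          exact ha i
      · obtain rfl : i = j := by simpa using hi
        exact ⟨hEΘ, update_self _ _ _⟩
      · have e : pr (update a j fun x => φ q (c.Bc j x)) univ =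
            fun y => φ q (c.Bc j y) * pr a (univ.erase j) y := by
          funext y
          rw [Fib27.pr_erase _ (mem_univ j), update_self, Fib27.pr_update _ (notMem_erase j _)]
        rw [e]
        exact hpos
    | insert i S hi ih =>
      obtain ⟨E', Φ, a', h1, h2, h3, h4, h5, h6, h7⟩ := ih
      by_cases hij : i = j
      · refine ⟨E', Φ, a', h1, h2, h3, h4, h5, fun k hk => h6 k ?_, h7⟩
        rcases hk with hk | hk
        · exact Or.inl hk
        · rcases mem_insert.1 hk with hk | hk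
          · exact Or.inl (hk.trans hij)
          · exact Or.inr hk
      obtain ⟨φ', hφ', hp⟩ := step f r gi hg hx hC gs hij (hC _ (h3 j)) h1 (h6 j (Or.inl rfl)).1 h5
        (h6 j (Or.inl rfl)).2 h7
      refine ⟨_, update Φ i φ', _, h1.inter (th_meas r gi φ' i), Set.inter_subset_left.trans h2,
        fun k => ?_, ?_, fun k => ?_, fun k hk => ?_, hp⟩
      · by_cases hk : k = i
        · subst hk
          rwa [update_self]
        · rw [update_of_ne hk]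
          exact h3 k
      · rw [update_of_ne (Ne.symm hij), h4]
      · by_cases hk : k = i
        · subst hk
          rw [update_self]
          exact um_bm (um_col f gi (hC _ hφ') q k)
        · rw [update_of_ne hk]
          exact h5 k
      · by_cases hki : k = i
        · subst hki
          rw [update_self, update_self]
          exact ⟨Eventually.of_forall fun x hx => hx.2, rfl⟩
        · rw [update_of_ne hki, update_of_ne hki]
          have hk' : k = j ∨ k ∈ S := hk.imp id fun h => (mem_insert.1 h).resolve_left hki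
          exact ⟨(Set.inter_subset_left.eventuallyLE).trans (h6 k hk').1, (h6 k hk').2⟩
  obtain ⟨E', Φ, a', h1, h2, h3, h4, h5, h6, h7⟩ := main univ
  have h8 : ∀ i, E' ≤ᵐ[c.W2.μ] c.Bc i ⁻¹' c.Θ (Φ i) := fun i => (h6 i (Or.inr (mem_univ i))).1
  have h9 : pr a' univ = fun x => ∏ i, Φ i q (c.Bc i x) := by
    funext x
    exact Finset.prod_congr rfl fun i _ => by rw [(h6 i (Or.inr (mem_univ i))).2]
  rw [h9] at h7
  have hm : MeasurableSet[c.β] {x | (c.W2.μ[fun x => ∏ i, Φ i q (c.Bc i x) | c.β]) x ≠ 0} :=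
    (stronglyMeasurable_condExp.measurable (measurableSet_singleton (0 : ℂ))).compl
  refine ⟨_, Φ, h1.inter hm, Set.inter_subset_left.trans h2, h7, h3, h4,
    fun i => (Set.inter_subset_left.eventuallyLE).trans (h8 i), ?_⟩
  have hrow : ∀ k, sup (c.G k) univ ≤ c.W2.ms := fun k => Fib27.sup_le' fun i _ => hg.le k i
  have hR : ∀ k, Um (sup (c.G k) univ ⊔ c.β) c.W2.μ fun x => ∏ i, Φ i k (c.Bc i x) := fun k =>
    um_pr (φ := fun i x => Φ i k (c.Bc i x)) univ fun i hi =>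
      ⟨(um_col f gi (hC _ (h3 i)) k i).1.mono (sup_le_sup_right (Fib27.le_sup' (c.G k) hi) _),
        (um_col f gi (hC _ (h3 i)) k i).2⟩
  have hcm := r.cm c.β (fun k => sup (c.G k) univ) c.W2.μ
    (fun k x => ∏ i, Φ i k (c.Bc i x)) hg.ble hrow c.three hg.rows hR q
  choose κ hκ hκe using fun i => th_eq f r gi (hC _ (h3 i)) i
  have hof := r.of c.β c.W2.μ (pr (fun k x => ∏ i, Φ i k (c.Bc i x)) univ) (pr κ univ) E' hg.ble
    (um_pr _ fun k _ => ⟨(hR k).1.mono (sup_le (hrow k) hg.ble), (hR k).2⟩)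
    (BM.pr fun i _ => hκ i) h1 (by
      filter_upwards [ae_all_iff.2 hκe, ae_all_iff.2 h8] with x e1 e2 hx
      rw [pr, pr, Finset.prod_comm]
      exact Finset.prod_congr rfl fun i _ => e1 i (e2 i hx))
  intro k
  filter_upwards [hcm, hof] with x e1 e2 hx
  exact e1 (e2 hx.1) hx.2 k

end T3x

end

end PkFull
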