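import Pool.Agent.MP_154433_an.p5.U0
import Pool.Agent.MP_154433_an.t3s.Basic
import Pool.Agent.MP_154433_an.t3s.Net

/-! Uniform twisted averages, part 3 (packed). -/

section PkUSig

/-! Small atoms of the normalised weights, and the consequences of the growth condition. -/

set_option autoImplicit false
set_option linter.unusedVariables false

open MeasureTheory ProbabilityTheory Filter Topology Function Finset ComplexConjugate
open scoped BigOperators
open Fib27 (BM)
open Pool.Agent.MP_154433_an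

noncomputable section

namespace T5u

open T3x T5x

namespace USig

theorem half (a : ℕ → ℝ) (h : Fl a) :
    ∀ᶠ M : ℕ in atTop, (M : ℝ) / 2 ≤ ∑ n ∈ range M, a n := by
  filter_upwards [h (1 / 2) (by norm_num)] with M hM
  have h0 := hM 0
  have e : (∑ d ∈ range M, ((a d - 1 : ℝ) : ℂ) * ee ((d : ℝ) * 0)) =
      (((∑ n ∈ range M, a n) - M : ℝ) : ℂ) := by
    have e1 : ∀ d : ℕ, ee ((d : ℝ) * 0) = 1 := fun d => by simp [ee]
    simp only [e1, mul_one]
    rw [← Complex.ofReal_sum, sum_sub_distrib]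
    simp
  rw [e, Complex.norm_real, Real.norm_eq_abs] at h0
  have h1 := (abs_le.1 h0).1
  linarith

theorem lg (N : ℕ) (hN : 2 ≤ N) : Real.log ((N : ℝ) + 2) ≤ 2 * Real.log N := by
  have h2 : (2 : ℝ) ≤ N := by exact_mod_cast hN
  have h3 : (N : ℝ) + 2 ≤ (N : ℝ) ^ 2 := by nlinarith
  have h4 := Real.log_le_log (by linarith) h3
  rw [Real.log_pow] at h4
  exact_mod_cast h4

theorem key (σ : ℕ → ℝ) (hG : G1 σ) (ε : ℝ) (hε : 0 < ε) :
    ∀ᶠ N : ℕ in atTop, Real.log ((N : ℝ) + 2) ≤ ε * N * σ N := by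
  filter_upwards [hG.eventually_ge_atTop (2 / ε), eventually_ge_atTop 2] with N h1 h2
  have h3 : (2 : ℝ) ≤ N := by exact_mod_cast h2
  have h4 : 0 < Real.log N := Real.log_pos (by linarith)
  rw [div_le_div_iff₀ hε h4] at h1
  have h5 := lg N h2
  nlinarith

theorem pos (σ : ℕ → ℝ) (ha : Antitone σ) (hG : G1 σ) (n : ℕ) : 0 < σ n := by
  obtain ⟨N, h1, h2⟩ := ((key σ hG 1 one_pos).and (eventually_ge_atTop n)).exists
  have h0 : (0 : ℝ) ≤ N := Nat.cast_nonneg N
  have h3 : 0 < Real.log ((N : ℝ) + 2) := Real.log_pos (by linarith)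
  have h4 : 0 < σ N := by
    by_contra h
    have h5 : σ N ≤ 0 := not_lt.1 h
    nlinarith
  exact h4.trans_le (ha h2)

theorem wt_ge (σ : ℕ → ℝ) (ha : Antitone σ) (M : ℕ) : (M : ℝ) * σ M ≤ T3S.Wt σ M := by
  have h : ∑ k ∈ range M, σ M ≤ ∑ k ∈ range M, σ k :=
    sum_le_sum fun k hk => ha (mem_range.1 hk).le
  simpa [T3S.Wt] using h

theorem gr (σ : ℕ → ℝ) (ha : Antitone σ) (hG : G1 σ) : T3S.Gr σ 1 := by
  refine tendsto_atTop_mono (fun M => ?_) hG
  rw [pow_one]
  exact div_le_div_of_nonneg_right (wt_ge σ ha M) (Real.log_natCast_nonneg M)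

theorem wt_top (σ : ℕ → ℝ) (ha : Antitone σ) (hG : G1 σ) : Tendsto (T3S.Wt σ) atTop atTop := by
  have h1 : Tendsto (fun M : ℕ => Real.log M) atTop atTop :=
    Real.tendsto_log_atTop.comp tendsto_natCast_atTop_atTop
  have h2 := Tendsto.atTop_mul_atTop₀ (gr σ ha hG) h1
  refine h2.congr' ?_
  filter_upwards [h1.eventually_gt_atTop 0] with M hM
  rw [pow_one, div_mul_cancel₀ _ hM.ne']

end USig

theorem atomT : AtomT := by
  intro a ha hF hA hE hT
  refine ⟨hE, hT, fun _ => 0, fun M => M + 1, fun M d hd => ?_, fun ε hε => ?_⟩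
  · simp only [wtOf] at hd
    split_ifs at hd with h
    · rw [mem_singleton] at hd
      subst hd
      show (0 : ℤ) ≤ 0 ∧ (0 : ℤ) < 0 + ((M + 1 : ℕ) : ℤ)
      omega
    · obtain ⟨k, hk, rfl⟩ := mem_image.1 hd
      have := mem_range.1 hk
      show (0 : ℤ) ≤ (k : ℤ) ∧ (k : ℤ) < 0 + ((M + 1 : ℕ) : ℤ)
      omega
  · filter_upwards [USig.half a hF, hA (ε / 2) (by linarith), eventually_ge_atTop 1]
      with M h1 h2 h3 d hd
    have h4 : (1 : ℝ) ≤ M := by exact_mod_cast h3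
    have h5 : 0 < ∑ n ∈ range M, a n := by linarith
    simp only [wtOf, if_neg h5.ne'] at hd ⊢
    obtain ⟨k, hk, rfl⟩ := mem_image.1 hd
    have h6 := h2 k (mem_range.1 hk)
    have e : (((M + 1 : ℕ) : ℝ) + 1) = (M : ℝ) + 2 := by push_cast; ring
    rw [Int.toNat_natCast, e, div_mul_eq_mul_div, div_le_iff₀ h5]
    nlinarith

theorem sigT : SigT := by
  intro σ h01 ha hG
  have hp := USig.pos σ ha hG
  refine ⟨hp, USig.gr σ ha hG, USig.wt_top σ ha hG, fun p ε hε => ?_, fun ε hε => ?_,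
    fun ε hε => ?_⟩
  · filter_upwards [USig.key σ hG ε hε] with N h1 d hd
    have h0 : (0 : ℝ) ≤ N := Nat.cast_nonneg N
    have h2 : 0 ≤ Real.log ((N : ℝ) + 2) := Real.log_nonneg (by linarith)
    have h3 : T3S.ind p d ≤ 1 := by
      unfold T3S.ind
      split_ifs
      · exact le_rfl
      · exact zero_le_one
    have h4 : σ N ≤ σ d := ha hd.le
    have h5 : ε * N * σ N ≤ ε * N * σ d := mul_le_mul_of_nonneg_left h4 (by positivity)
    have h6 : T3S.ind p d * Real.log ((N : ℝ) + 2) ≤ Real.log ((N : ℝ) + 2) := by nlinarith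
    rw [iw, div_mul_eq_mul_div, div_le_iff₀ (hp d)]
    linarith
  · filter_upwards [USig.key σ hG ε hε] with N h1 d hd
    have h0 : (0 : ℝ) ≤ ε * N := by positivity
    have h2 := mul_le_mul_of_nonneg_left (h01 N).2 h0
    linarith
  · refine Eventually.of_forall fun N t => ?_
    simp only [sub_self, Complex.ofReal_zero, zero_mul, sum_const_zero, norm_zero]
    positivity

end T5u

end

end PkUSig

section PkULay

/-! Row ULay: from the importance weights to the normalised signed weights (Abel summation). -/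

set_option autoImplicit false
set_option linter.unusedVariables false
set_option warn.classDefReducibility false

open MeasureTheory ProbabilityTheory Filter Topology Function Finset ComplexConjugate
open scoped BigOperators
open Fib27 (BM)
open Pool.Agent.MP_154433_an

noncomputable section

namespace T5u

open T3x T5x

namespace ULay

theorem abel {R : Type} [CommRing R] (s v : ℕ → R) (M : ℕ) :
    ∑ d ∈ range M, s d * v d = s M * ∑ d ∈ range M, v d +
      ∑ k ∈ range M, (s k - s (k + 1)) * ∑ d ∈ range (k + 1), v d := by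
  induction M with
  | zero => simp
  | succ M ih =>
    rw [sum_range_succ, ih, sum_range_succ (fun k => (s k - s (k + 1)) * _), sum_range_succ v]
    ring

theorem nee (t : ℝ) : ‖ee t‖ = 1 := Complex.norm_exp_ofReal_mul_I _

theorem mee : Continuous ee := by
  unfold ee
  fun_prop

theorem bnd (a : ℕ → ℝ) (Y : Sys) {g : Y.X → ℂ} (hg : BM Y.μ Y.ms g) :
    ∃ K : ℝ, 0 ≤ K ∧ ∀ (k : ℕ) (b : Y.X → ℝ), Measurable b →
      Integrable (fun x => ‖sav a Y g k (b x) x‖) Y.μ ∧
      ∫ x, ‖sav a Y g k (b x) x‖ ∂Y.μ ≤ (∑ d ∈ range k, |a d - 1|) * K := by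
  obtain ⟨h1, C, hC⟩ := hg
  refine ⟨max C 0, le_max_right _ _, fun k b hb => ?_⟩
  have hmp : ∀ d : ℤ, MeasurePreserving (Y.Tz d) Y.μ Y.μ := fun d => T3S.Tz_mp Y.mp d
  have hm : AEStronglyMeasurable (fun x => sav a Y g k (b x) x) Y.μ := by
    unfold sav
    refine Finset.aestronglyMeasurable_fun_sum _ fun d _ => ?_
    exact aestronglyMeasurable_const.mul ((h1.comp_measurePreserving (hmp d)).mul
      (mee.measurable.comp (hb.const_mul _)).aestronglyMeasurable)
  have hae : ∀ᵐ x ∂Y.μ, ∀ d : ℕ, ‖g (Y.Tz d x)‖ ≤ C :=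
    ae_all_iff.2 fun d => (hmp d).quasiMeasurePreserving.ae hC
  have hle : ∀ᵐ x ∂Y.μ, ‖sav a Y g k (b x) x‖ ≤ (∑ d ∈ range k, |a d - 1|) * max C 0 := by
    filter_upwards [hae] with x hx
    rw [sum_mul]
    refine (norm_sum_le _ _).trans (sum_le_sum fun d _ => ?_)
    rw [norm_mul, norm_mul, nee, mul_one, Complex.norm_real, Real.norm_eq_abs]
    exact mul_le_mul_of_nonneg_left ((hx d).trans (le_max_left _ _)) (abs_nonneg _)
  have hi : Integrable (fun x => ‖sav a Y g k (b x) x‖) Y.μ := (Integrable.of_bound hm _ hle).norm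
  refine ⟨hi, (integral_mono_ae hi (integrable_const _) hle).trans ?_⟩
  simp

theorem unif (a : ℕ → ℝ) (Y : Sys) {g : Y.X → ℂ} (hg : BM Y.μ Y.ms g) (h : SV a Y g) {ε : ℝ}
    (hε : 0 < ε) : ∃ C : ℝ, 0 ≤ C ∧ ∀ (k : ℕ) (b : Y.X → ℝ), Measurable b →
      ∫ x, ‖sav a Y g k (b x) x‖ ∂Y.μ ≤ ε * k + C := by
  classical
  obtain ⟨K, hK, hb⟩ := bnd a Y hg
  have hch : ∀ k : ℕ, ∃ b0 : Y.X → ℝ, Measurable b0 ∧
      (∫ x, ‖sav a Y g k (b0 x) x‖ ∂Y.μ ≤ ε * k → ∀ b : Y.X → ℝ, Measurable b →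
        ∫ x, ‖sav a Y g k (b x) x‖ ∂Y.μ ≤ ε * k) := by
    intro k
    by_cases hk : ∀ b : Y.X → ℝ, Measurable b → ∫ x, ‖sav a Y g k (b x) x‖ ∂Y.μ ≤ ε * k
    · exact ⟨fun _ => 0, measurable_const, fun _ => hk⟩
    · push Not at hk
      obtain ⟨b0, h0, h1⟩ := hk
      exact ⟨b0, h0, fun h2 => absurd h2 (not_le.2 h1)⟩
  choose b0 hb0 hb1 using hch
  obtain ⟨k0, hk0⟩ := eventually_atTop.1 ((h b0 hb0).eventually (gt_mem_nhds hε))
  have hs0 : ∀ k : ℕ, 0 ≤ ∑ d ∈ range k, |a d - 1| := fun k => sum_nonneg fun _ _ => abs_nonneg _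
  refine ⟨(∑ d ∈ range (k0 + 1), |a d - 1|) * K, mul_nonneg (hs0 _) hK, fun k b hbm => ?_⟩
  rcases le_or_gt (k0 + 1) k with hk | hk
  · have hkp : (0 : ℝ) < k := Nat.cast_pos.2 (by omega)
    have h2 := hk0 k (by omega)
    rw [inv_mul_lt_iff₀ hkp] at h2
    have h3 := hb1 k (by linarith) b hbm
    have := mul_nonneg (hs0 (k0 + 1)) hK
    linarith
  · have h2 := (hb k b hbm).2
    have h3 : ∑ d ∈ range k, |a d - 1| ≤ ∑ d ∈ range (k0 + 1), |a d - 1| :=
      sum_le_sum_of_subset_of_nonneg (range_mono hk.le) fun _ _ _ => abs_nonneg _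
    have h4 := mul_le_mul_of_nonneg_right h3 hK
    have : 0 ≤ ε * k := by positivity
    linarith

end ULay

theorem lay : LayT := by
  intro σ p h0 hanti hW hS Y g b hg hb
  obtain ⟨K, hK, hi⟩ := ULay.bnd (iw σ p) Y hg
  have hd : ∀ k, 0 ≤ σ k - σ (k + 1) := fun k => sub_nonneg.2 (hanti (Nat.le_succ k))
  rw [Metric.tendsto_atTop]
  intro ε hε
  obtain ⟨C, hC, hu⟩ := ULay.unif (iw σ p) Y hg (hS Y g hg) (show 0 < ε / 4 by positivity)
  obtain ⟨M0, hM0⟩ := eventually_atTop.1 (hW.eventually_ge_atTop (4 * (C * σ 0) / ε + 1))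
  refine ⟨M0, fun M hM => ?_⟩
  have hW1 := hM0 M hM
  have hc0 : 0 ≤ C * σ 0 := mul_nonneg hC (h0 0).le
  have hWp : 0 < T3S.Wt σ M := lt_of_lt_of_le (by positivity) hW1
  rw [Real.dist_eq, sub_zero, abs_of_nonneg (integral_nonneg fun _ => norm_nonneg _)]
  have hpt : ∀ x, ‖∑ d ∈ range M, (T3S.yw σ p M d : ℂ) * (g (Y.Tz d x) * ee ((d : ℝ) * b M x))‖ ≤
      (T3S.Wt σ M)⁻¹ * (σ M * ‖sav (iw σ p) Y g M (b M x) x‖ +
        ∑ k ∈ range M, (σ k - σ (k + 1)) * ‖sav (iw σ p) Y g (k + 1) (b M x) x‖) := by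
    intro x
    have e1 : ∑ d ∈ range M, (T3S.yw σ p M d : ℂ) * (g (Y.Tz d x) * ee ((d : ℝ) * b M x)) =
        (((T3S.Wt σ M)⁻¹ : ℝ) : ℂ) * ∑ d ∈ range M, (σ d : ℂ) *
          (((iw σ p d - 1 : ℝ) : ℂ) * (g (Y.Tz d x) * ee ((d : ℝ) * b M x))) := by
      rw [mul_sum]
      refine sum_congr rfl fun d _ => ?_
      have : T3S.yw σ p M d = (T3S.Wt σ M)⁻¹ * (σ d * (iw σ p d - 1)) := by
        have := (h0 d).ne'
        unfold T3S.yw iw
        field_simp
      rw [this]
      push_cast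
      ring
    rw [e1, ULay.abel, norm_mul, Complex.norm_real, Real.norm_of_nonneg (inv_nonneg.2 hWp.le)]
    refine mul_le_mul_of_nonneg_left ((norm_add_le _ _).trans (add_le_add ?_ ?_))
      (inv_nonneg.2 hWp.le)
    · rw [norm_mul, Complex.norm_real, Real.norm_of_nonneg (h0 M).le]
      exact le_rfl
    · refine (norm_sum_le _ _).trans (sum_le_sum fun k _ => ?_)
      rw [norm_mul, ← Complex.ofReal_sub, Complex.norm_real, Real.norm_of_nonneg (hd k)]
      exact le_rfl
  have i1 : Integrable (fun x => σ M * ‖sav (iw σ p) Y g M (b M x) x‖) Y.μ :=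
    (hi M _ (hb M)).1.const_mul _
  have i2 : ∀ k ∈ range M, Integrable
      (fun x => (σ k - σ (k + 1)) * ‖sav (iw σ p) Y g (k + 1) (b M x) x‖) Y.μ :=
    fun k _ => (hi (k + 1) _ (hb M)).1.const_mul _
  have i3 := integrable_finsetSum _ i2
  have h1 := integral_mono_of_nonneg (μ := Y.μ) (Eventually.of_forall fun _ => norm_nonneg _)
    ((i1.add i3).const_mul (T3S.Wt σ M)⁻¹) (Eventually.of_forall hpt)
  refine lt_of_le_of_lt h1 ?_
  simp only [Pi.add_apply]
  rw [integral_const_mul, integral_add i1 i3, integral_finsetSum _ i2, integral_const_mul]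
  simp only [integral_const_mul]
  have h2 : σ M * ∫ x, ‖sav (iw σ p) Y g M (b M x) x‖ ∂Y.μ ≤ σ M * (ε / 4 * M + C) :=
    mul_le_mul_of_nonneg_left (hu M _ (hb M)) (h0 M).le
  have h3 : ∑ k ∈ range M, (σ k - σ (k + 1)) * ∫ x, ‖sav (iw σ p) Y g (k + 1) (b M x) x‖ ∂Y.μ ≤
      ∑ k ∈ range M, (σ k - σ (k + 1)) * (ε / 4 * ((k + 1 : ℕ) : ℝ) + C) :=
    sum_le_sum fun k _ => mul_le_mul_of_nonneg_left (hu (k + 1) _ (hb M)) (hd k)
  have h4 := ULay.abel σ (fun _ => (1 : ℝ)) M
  simp only [mul_one, sum_const, card_range, nsmul_eq_mul] at h4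
  have h5 : ∑ k ∈ range M, (σ k - σ (k + 1)) = σ 0 - σ M := sum_range_sub' σ M
  have h6 : ∑ k ∈ range M, (σ k - σ (k + 1)) * (ε / 4 * ((k + 1 : ℕ) : ℝ) + C) =
      ε / 4 * ∑ k ∈ range M, (σ k - σ (k + 1)) * ((k + 1 : ℕ) : ℝ) + C * (σ 0 - σ M) := by
    rw [← h5, mul_sum, mul_sum, ← sum_add_distrib]
    exact sum_congr rfl fun k _ => by ring
  have h7 : T3S.Wt σ M = σ M * M + ∑ k ∈ range M, (σ k - σ (k + 1)) * ((k + 1 : ℕ) : ℝ) := h4
  have h8 : 4 * (C * σ 0) / ε * ε = 4 * (C * σ 0) := div_mul_cancel₀ _ hε.ne'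
  have h9 := mul_le_mul_of_nonneg_right hW1 hε.le
  rw [inv_mul_lt_iff₀ hWp]
  have h10 : ε / 4 * T3S.Wt σ M = σ M * (ε / 4 * M) +
      ε / 4 * ∑ k ∈ range M, (σ k - σ (k + 1)) * ((k + 1 : ℕ) : ℝ) := by
    rw [h7]
    ring
  have h11 := mul_pos hWp hε
  nlinarith

end T5u

end

end PkULay

section PkUTail

/-! Bernstein tail with a variance proxy. -/

set_option autoImplicit false
set_option linter.unusedVariables false

open MeasureTheory ProbabilityTheory Filter Topology Function Finset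
open scoped BigOperators

noncomputable section

namespace T5u

theorem tailT : TailT := by
  intro σ hσ Ω _ P _ E hE hind hP c M V ε hc hV h0 h1
  let Y : ℕ → Ω → ℝ := fun k ω => ((E k).indicator (fun _ => (1 : ℝ)) ω - σ k) * c k
  have hY : iIndepFun Y P :=
    (hind.iIndepFun_indicator (β := ℝ)).comp (fun k x => (x - σ k) * c k)
      fun k => by fun_prop
  have hYm : ∀ k, Measurable (Y k) := fun k =>
    ((measurable_const.indicator (hE k)).sub_const _).mul_const _
  set t := ε / 2 with ht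
  have ht0 : 0 ≤ t := by positivity
  have hexp : ∀ k ω, Real.exp (t * Y k ω) = Real.exp (-(t * σ k * c k)) +
      (E k).indicator (fun _ => Real.exp (-(t * σ k * c k)) * (Real.exp (t * c k) - 1)) ω := by
    intro k ω
    by_cases h : ω ∈ E k
    · simp only [Y, Set.indicator_of_mem h]
      rw [mul_sub _ (Real.exp (t * c k)), ← Real.exp_add]
      ring_nf
    · simp only [Y, Set.indicator_of_notMem h]
      ring_nf
  have hint : ∀ k, Integrable (fun ω => Real.exp (t * Y k ω)) P := fun k => by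
    simp only [hexp]
    exact (integrable_const _).add ((integrable_const _).indicator (hE k))
  have hmgf : ∀ k, mgf (Y k) P t ≤ Real.exp (t ^ 2 * (σ k * c k ^ 2)) := by
    intro k
    have hr : P.real (E k) = σ k := by
      rw [Measure.real, hP, ENNReal.toReal_ofReal (hσ k).1]
    have e : mgf (Y k) P t = Real.exp (-(t * σ k * c k)) *
        (1 + σ k * (Real.exp (t * c k) - 1)) := by
      simp only [mgf, hexp]
      rw [integral_add (integrable_const _) ((integrable_const _).indicator (hE k)),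
        integral_indicator_const _ (hE k), hr]
      simp
      ring
    have habs : |t * c k| ≤ 1 := by
      rw [abs_mul, abs_of_nonneg ht0]
      have := hc k
      have := abs_nonneg (c k)
      nlinarith
    have h2 := (abs_le.1 (Real.abs_exp_sub_one_sub_id_le habs)).2
    rw [e]
    calc Real.exp (-(t * σ k * c k)) * (1 + σ k * (Real.exp (t * c k) - 1))
        ≤ Real.exp (-(t * σ k * c k)) * Real.exp (σ k * (Real.exp (t * c k) - 1)) := by
          refine mul_le_mul_of_nonneg_left ?_ (Real.exp_pos _).le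
          rw [add_comm]; exact Real.add_one_le_exp _
      _ ≤ _ := by
          rw [← Real.exp_add]
          refine Real.exp_le_exp.2 ?_
          have := mul_le_mul_of_nonneg_left h2 (hσ k).1
          nlinarith
  have hs := measure_ge_le_exp_mul_mgf (μ := P) (X := ∑ k ∈ range M, Y k) (ε * V) ht0
    (hY.integrable_exp_mul_sum hYm fun k _ => hint k)
  simp only [Finset.sum_apply] at hs
  refine hs.trans ?_
  rw [hY.mgf_sum hYm]
  have h4 : ∏ k ∈ range M, mgf (Y k) P t ≤ Real.exp (t ^ 2 * V) := by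
    refine le_trans ?_ (Real.exp_le_exp.2 (mul_le_mul_of_nonneg_left hV (sq_nonneg t)))
    rw [mul_sum, Real.exp_sum]
    exact prod_le_prod (fun k _ => mgf_nonneg) fun k _ => hmgf k
  refine (mul_le_mul_of_nonneg_left h4 (Real.exp_pos _).le).trans (le_of_eq ?_)
  rw [← Real.exp_add, ht]
  congr 1
  ring

end T5u

end

end PkUTail

section PkUUb

/-! The union bound for the importance weights over families of polynomial size. -/

set_option autoImplicit false
set_option linter.unusedVariables false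

open MeasureTheory ProbabilityTheory Filter Topology Function Finset ComplexConjugate
open scoped BigOperators
open Pool.Agent.MP_154433_an

noncomputable section

namespace T5u

namespace UUb

lemma log1 : ∀ᶠ M : ℕ in atTop, 1 ≤ Real.log M :=
  (Real.tendsto_log_atTop.comp tendsto_natCast_atTop_atTop).eventually_ge_atTop 1

/-- the rescaled coefficients -/
def cc (σ : ℕ → ℝ) (r : ℕ → ℝ) (N k : ℕ) : ℝ := if k < N then r k * (σ N / σ k) else 0

lemma cc_abs {σ r : ℕ → ℝ} (hσ : ∀ n, 0 < σ n ∧ σ n ≤ 1) (ha : Antitone σ) (hr : ∀ k, |r k| ≤ 1)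
    (N k : ℕ) : |cc σ r N k| ≤ 1 := by
  unfold cc
  split_ifs with h
  · rw [abs_mul, abs_of_pos (div_pos (hσ N).1 (hσ k).1)]
    exact mul_le_one₀ (hr k) (div_pos (hσ N).1 (hσ k).1).le ((div_le_one (hσ k).1).2 (ha h.le))
  · simp

lemma cc_var {σ r : ℕ → ℝ} (hσ : ∀ n, 0 < σ n ∧ σ n ≤ 1) (ha : Antitone σ) (hr : ∀ k, |r k| ≤ 1)
    (N : ℕ) : ∑ k ∈ range N, σ k * cc σ r N k ^ 2 ≤ N * σ N := by
  refine (sum_le_card_nsmul _ _ (σ N) fun k hk => ?_).trans (by simp)
  have hk := mem_range.1 hk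
  have h1 := cc_abs hσ ha hr N k
  have h2 : σ k * |cc σ r N k| ≤ σ N := by
    rw [cc, if_pos hk, abs_mul, abs_of_pos (div_pos (hσ N).1 (hσ k).1), mul_left_comm,
      mul_div_cancel₀ _ (hσ k).1.ne']
    exact mul_le_of_le_one_left (hσ N).1.le (hr k)
  rw [← sq_abs, sq, ← mul_assoc]
  exact (mul_le_of_le_one_right (mul_nonneg (hσ k).1.le (abs_nonneg _)) h1).trans h2

lemma one (hT : TailT) {Ω : Type} [MeasurableSpace Ω] {P : Measure Ω} [IsProbabilityMeasure P]
    {σ : ℕ → ℝ} (hσ : ∀ n, 0 < σ n ∧ σ n ≤ 1) (ha : Antitone σ) (hg : G1 σ) {E : ℕ → Set Ω}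
    (hE : ∀ n, MeasurableSet (E n)) (hind : iIndepSet E P)
    (hP : ∀ n, P (E n) = ENNReal.ofReal (σ n)) {C : ℝ} {S : ℕ → Finset (ℕ → ℂ)}
    (hb : ∀ M, ∀ c ∈ S M, T3S.B1 c)
    (hS : ∀ M, 1 ≤ M → ((S M).card : ℝ) ≤ Real.exp (C * (Real.log M + 1))) {ε : ℝ}
    (h0 : 0 < ε) (h1 : ε ≤ 1) (θ : ℂ) (hθ : ‖θ‖ = 1) :
    ∀ᵐ ω ∂P, ∀ᶠ M in atTop, ∀ c ∈ S M, ∑ k ∈ range M,
      (iw σ (fun m => ω ∈ E m) k - 1) * (θ * c k).re ≤ ε * M := by
  let B : ℕ → Set Ω := fun M => ⋃ c ∈ S M, {ω | ε * (M * σ M) ≤ ∑ k ∈ range M,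
      ((E k).indicator (fun _ => (1 : ℝ)) ω - σ k) * cc σ (fun k => (θ * c k).re) M k}
  have hB : ∀ᶠ M in atTop, P.real (B M) ≤ 1 / (M : ℝ) ^ 2 := by
    filter_upwards [hg.eventually_ge_atTop (4 * (|C| * 2 + 2) / ε ^ 2), eventually_ge_atTop 1,
      log1] with M hM hM1 hL
    have hM0 : (0 : ℝ) < M := by exact_mod_cast hM1
    have x2 : C * (Real.log M + 1) ≤ |C| * (2 * Real.log M) :=
      mul_le_mul (le_abs_self C) (by linarith) (by positivity) (abs_nonneg C)
    rw [div_le_div_iff₀ (by positivity) (by positivity)] at hM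
    refine (measureReal_biUnion_finset_le _ _).trans ?_
    have hr : ∀ c ∈ S M, ∀ k, |(θ * c k).re| ≤ 1 := fun c hc k =>
      (Complex.abs_re_le_norm _).trans (by rw [norm_mul, hθ, one_mul]; exact hb M c hc k)
    refine (sum_le_card_nsmul _ _ _ fun c hc => hT σ (fun n => ⟨(hσ n).1.le, (hσ n).2⟩) Ω P E hE
      hind hP _ M _ ε (cc_abs hσ ha (hr c hc) M) (cc_var hσ ha (hr c hc) M) h0.le h1).trans ?_
    rw [nsmul_eq_mul]
    refine (mul_le_mul_of_nonneg_right (hS M hM1) (Real.exp_pos _).le).trans ?_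
    rw [← Real.exp_add]
    refine (Real.exp_le_exp.2 (show _ ≤ -(2 * Real.log M) by linarith)).trans (le_of_eq ?_)
    rw [Real.exp_neg, two_mul, Real.exp_add, Real.exp_log hM0, one_div, sq]
  have hsum : Summable fun M => P.real (B M) := by
    refine Summable.of_norm_bounded_eventually_nat
      (Real.summable_one_div_nat_pow.2 one_lt_two) ?_
    filter_upwards [hB] with M hM
    rwa [Real.norm_eq_abs, abs_of_nonneg measureReal_nonneg]
  have hne : ∑' M, P (B M) ≠ ⊤ := by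
    have : ∀ M, P (B M) = ENNReal.ofReal (P.real (B M)) := fun M =>
      (ofReal_measureReal (measure_ne_top _ _)).symm
    simp only [this]
    rw [← ENNReal.ofReal_tsum_of_nonneg (fun _ => measureReal_nonneg) hsum]
    exact ENNReal.ofReal_ne_top
  filter_upwards [ae_eventually_notMem hne] with ω hω
  filter_upwards [hω] with M hM c hc
  simp only [B, Set.mem_iUnion, not_exists, Set.mem_ofPred_eq, not_le] at hM
  have h := (hM c hc).le
  have e : ∑ k ∈ range M, ((E k).indicator (fun _ => (1 : ℝ)) ω - σ k) *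
      cc σ (fun k => (θ * c k).re) M k =
      σ M * ∑ k ∈ range M, (iw σ (fun m => ω ∈ E m) k - 1) * (θ * c k).re := by
    rw [mul_sum]
    refine sum_congr rfl fun k hk => ?_
    have := (hσ k).1.ne'
    rw [cc, if_pos (mem_range.1 hk), iw]
    by_cases hk : ω ∈ E k
    · simp only [T3S.ind, hk, Set.indicator_of_mem, if_true]; field_simp
    · simp only [T3S.ind, hk, Set.indicator_of_notMem, if_false, not_false_eq_true]; field_simp
  rw [e] at h
  exact le_of_mul_le_mul_left (h.trans (le_of_eq (by ring))) (hσ M).1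

end UUb

theorem ubT : UbR := by
  intro hT σ hσ ha hg Ω _ P _ E hE hind hP C S hb hS ε hε
  have h0 : 0 < min (ε / 2) 1 := lt_min (half_pos hε) one_pos
  have h := UUb.one hT hσ ha hg hE hind hP hb hS h0 (min_le_right _ _)
  filter_upwards [h 1 (by simp), h (-1) (by simp), h Complex.I (by simp), h (-Complex.I) (by simp)]
    with ω a1 a2 a3 a4
  filter_upwards [a1, a2, a3, a4] with M b1 b2 b3 b4 c hc
  have key : ∀ θ : ℂ, ∑ k ∈ range M, (iw σ (fun m => ω ∈ E m) k - 1) * (θ * c k).re ≤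
      min (ε / 2) 1 * M →
      (θ * ∑ d ∈ range M, ((iw σ (fun m => ω ∈ E m) d - 1 : ℝ) : ℂ) * c d).re ≤ ε / 2 * M := by
    intro θ hθ
    refine le_trans (le_of_eq_of_le ?_ hθ)
      (mul_le_mul_of_nonneg_right (min_le_left _ _) (Nat.cast_nonneg M))
    rw [mul_sum, Complex.re_sum]
    refine sum_congr rfl fun k _ => ?_
    rw [mul_left_comm, Complex.re_ofReal_mul]
  have c1 := key _ (b1 c hc)
  have c2 := key _ (b2 c hc)
  have c3 := key _ (b3 c hc)
  have c4 := key _ (b4 c hc)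
  simp only [one_mul, neg_mul, Complex.neg_re, Complex.mul_re, Complex.I_re, Complex.I_im, zero_mul,
    zero_sub, neg_neg] at c1 c2 c3 c4
  refine (Complex.norm_le_abs_re_add_abs_im _).trans ?_
  have := abs_le.2 ⟨neg_le.1 c2, c1⟩
  have := abs_le.2 ⟨neg_le.1 c3, c4⟩
  linarith

end T5u

end

end PkUUb

section PkUNetP

/-! Row UNetP: a small family of sequences approximates all products of blocks. -/

set_option autoImplicit false
set_option linter.unusedVariables false

open Filter Topology Function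
open scoped BigOperators
open Pool.Agent.MP_154433_an Pool.Agent.MP_154433_an.T3S

noncomputable section

namespace T5u

theorem netP : NetPR := by
  classical
  intro h1 h2 J b hb ε hε
  obtain ⟨C0, hC, hC0⟩ : ∃ C0 : ℕ, 1 ≤ C0 ∧ ∀ t i, 2 * (((2 : ℕ) : ℤ) + |b t i|) ≤ C0 := by
    refine ⟨2 * (2 + ∑ p : Fin J × Fin 3, (b p.1 p.2).natAbs) + 1, by omega, fun t i => ?_⟩
    have := Finset.single_le_sum (f := fun p : Fin J × Fin 3 => (b p.1 p.2).natAbs)
      (fun _ _ => Nat.zero_le _) (Finset.mem_univ (t, i))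
    rw [Int.abs_eq_natAbs]
    simp only at this
    omega
  have hCr : (0 : ℝ) < C0 := by exact_mod_cast hC
  obtain ⟨C1, hC1, hV⟩ := h2 2 (((C0 : ℝ) ^ (2 + 1)) ^ 2 ^ (2 + 1)) (ε / (2 * (J + 1) * C0))
    (by positivity) (by positivity)
  have key : ∀ M : ℕ, ∃ S : Finset (ℕ → ℂ), (∀ c ∈ S, B1 c) ∧
      (1 ≤ M → (S.card : ℝ) ≤
        Real.exp ((1 + J * C1 * (Real.log C0 + 1) ^ 1) * (Real.log M + 1))) ∧
      (1 ≤ M → 24 * (J + 1) / ε ≤ (M : ℝ) →
        ∀ u : Fin J → ℤ → ℂ, (∀ t, u t ∈ CZ (b t) (M ^ 2)) →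
          ∃ c : ℕ → ℕ → ℂ, (∀ n < M, c n ∈ S) ∧ ∀ d < M,
            ∑ n ∈ Finset.range M, ‖∏ t, u t ((n : ℤ) + (d : ℤ)) - c n d‖ ≤ ε * M) := by
    intro M
    rcases Nat.eq_zero_or_pos M with rfl | hM
    · exact ⟨∅, by simp, fun h => absurd h (by omega), fun h => absurd h (by omega)⟩
    have : NeZero (C0 * M) := ⟨(Nat.mul_pos hC hM).ne'⟩
    obtain ⟨V, hV1, hV2, hV3⟩ := hV (C0 * M)
    have hMr : (0 : ℝ) < M := by exact_mod_cast hM
    refine ⟨((Finset.range M) ×ˢ Fintype.piFinset fun _ : Fin J => V).image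
      fun p d => ∏ t, p.2 t (((p.1 : ℤ) + (d : ℤ) : ℤ) : ZMod (C0 * M)), fun c hc => ?_,
      fun _ => ?_, fun _ hM1 u hu => ?_⟩
    · obtain ⟨p, hp, rfl⟩ := Finset.mem_image.1 hc
      exact fun d => norm_prod_le_one _ fun t _ =>
        hV1 _ (Fintype.mem_piFinset.1 (Finset.mem_product.1 hp).2 t) _
    · rw [LG, ZMod.card, ← pow_one (Real.log _ + 1)] at hV2
      have h3 := Net.card_le (J := J) hM hC le_rfl hC1 hV2
      rw [pow_one (Real.log M + 1)] at h3
      refine le_trans ?_ h3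
      have := Finset.card_image_le (s := (Finset.range M) ×ˢ Fintype.piFinset fun _ : Fin J => V)
        (f := fun p (d : ℕ) => ∏ t, p.2 t (((p.1 : ℤ) + (d : ℤ) : ℤ) : ZMod (C0 * M)))
      rw [Finset.card_product, Finset.card_range, Fintype.card_piFinset_const] at this
      exact_mod_cast this
    · choose w hw1 hw2 using fun t => h1 2 (by norm_num) (b t) 2 C0 M (M ^ 2) (hb t) (hC0 t)
        (Nat.one_le_pow _ _ hM) (u t) (hu t)
      choose v hv1 hv2 using fun t => hV3 (w t) (hw1 t)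
      have hδ : (4 * (((2 : ℕ) : ℝ) + 1) * M / (M ^ 2 : ℕ) : ℝ) ≤ ε / (2 * (J + 1)) := by
        rw [div_le_iff₀ hε] at hM1
        push_cast
        rw [div_le_div_iff₀ (by positivity) (by positivity)]
        nlinarith
      refine ⟨fun n d => ∏ t, v t (((n : ℤ) + (d : ℤ) : ℤ) : ZMod (C0 * M)), fun n hn => ?_,
        fun d hd => ?_⟩
      · exact Finset.mem_image_of_mem _ (Finset.mem_product.2
          (⟨Finset.mem_range.2 hn, Fintype.mem_piFinset.2 hv1⟩ : (n, v).1 ∈ _ ∧ (n, v).2 ∈ _))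
      have step : ∀ n ∈ Finset.range M,
          ‖∏ t, u t ((n : ℤ) + (d : ℤ)) - ∏ t, v t (((n : ℤ) + (d : ℤ) : ℤ) : ZMod (C0 * M))‖ ≤
          ∑ t, (ε / (2 * (J + 1)) + ‖w t (((n : ℤ) + (d : ℤ) : ℤ) : ZMod (C0 * M)) -
              v t (((n : ℤ) + (d : ℤ) : ℤ) : ZMod (C0 * M))‖) := by
        intro n hn
        refine (norm_prod_sub_le _ (fun t => CZ_B1 (hu t) _)
          fun t => hV1 _ (hv1 t) _).trans (Finset.sum_le_sum fun t _ => ?_)
        have e2 : |(n : ℤ) + (d : ℤ)| ≤ ((2 : ℕ) : ℤ) * M := by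
          have a1 : (n : ℤ) ≤ M := by exact_mod_cast (Finset.mem_range.1 hn).le
          have a2 : (d : ℤ) ≤ M := by exact_mod_cast hd.le
          rw [abs_of_nonneg (by positivity)]
          push_cast
          linarith
        exact (norm_sub_le_norm_sub_add_norm_sub _ _ _).trans
          (add_le_add ((hw2 t _ e2).trans hδ) le_rfl)
      refine (Finset.sum_le_sum step).trans ?_
      rw [Finset.sum_comm]
      have e3 : ∀ t ∈ (Finset.univ : Finset (Fin J)), ∑ n ∈ Finset.range M, (ε / (2 * (J + 1)) +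
          ‖w t (((n : ℤ) + (d : ℤ) : ℤ) : ZMod (C0 * M)) -
            v t (((n : ℤ) + (d : ℤ) : ℤ) : ZMod (C0 * M))‖) ≤ ε / (J + 1) * M := fun t _ => by
        rw [Finset.sum_add_distrib, Finset.sum_const, Finset.card_range, nsmul_eq_mul]
        have a1 := Net.sum_le (N := C0 * M) (M := M) (Nat.le_mul_of_pos_left M hC) (d : ℤ)
          (F := fun x => ‖w t x - v t x‖) fun x => norm_nonneg _
        have a2 := mul_le_mul_of_nonneg_left (hv2 t) (Nat.cast_nonneg (α := ℝ) (C0 * M))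
        have a3 : ((C0 * M : ℕ) : ℝ) * (ε / (2 * (J + 1) * C0)) = M * (ε / (2 * (J + 1))) := by
          push_cast
          field_simp
        have a4 : ε / (J + 1) * M = M * (ε / (2 * (J + 1))) + M * (ε / (2 * (J + 1))) := by
          field_simp
          ring
        rw [a4]
        exact add_le_add le_rfl (a1.trans (a2.trans a3.le))
      refine (Finset.sum_le_sum e3).trans ?_
      rw [Finset.sum_const, Finset.card_univ, Fintype.card_fin, nsmul_eq_mul, ← mul_assoc]
      refine mul_le_mul_of_nonneg_right ?_ hMr.le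
      rw [← mul_div_assoc, div_le_iff₀ (by positivity)]
      nlinarith
  choose S hS1 hS2 hS3 using key
  refine ⟨_, S, hS1, hS2, ?_⟩
  filter_upwards [eventually_ge_atTop 1,
    tendsto_natCast_atTop_atTop.eventually_ge_atTop (24 * ((J : ℝ) + 1) / ε)] with M a1 a2
  exact hS3 M a1 a2

end T5u

end

end PkUNetP

section PkUAe

/-! Row UAe: almost surely the importance weights do not see twisted structured sequences. -/

set_option autoImplicit false

open MeasureTheory ProbabilityTheory Filter Topology Function Finset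
open scoped BigOperators
open Pool.Agent.MP_154433_an

noncomputable section

namespace T5u

open T3x T5x

namespace UAe

lemma step (a : ℕ → ℝ) (N : ℕ) (U c : ℕ → ℕ → ℂ) (ε : ℝ) (hε : 0 ≤ ε)
    (h1 : ∀ n < N, ‖∑ d ∈ range N, (a d : ℂ) * c n d‖ ≤ ε * N)
    (h2 : ∀ d < N, ∑ n ∈ range N, ‖U n d - c n d‖ ≤ ε * N)
    (h3 : ∑ d ∈ range N, |a d| ≤ 3 * N) :
    ∑ n ∈ range N, ‖∑ d ∈ range N, (a d : ℂ) * U n d‖ ≤ 4 * ε * N * N := by
  have h4 : ∀ n ∈ range N, ‖∑ d ∈ range N, (a d : ℂ) * U n d‖ ≤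
      ε * N + ∑ d ∈ range N, |a d| * ‖U n d - c n d‖ := fun n hn => by
    have e : ∑ d ∈ range N, (a d : ℂ) * U n d =
        ∑ d ∈ range N, (a d : ℂ) * c n d + ∑ d ∈ range N, (a d : ℂ) * (U n d - c n d) := by
      rw [← sum_add_distrib]
      exact sum_congr rfl fun d _ => by ring
    rw [e]
    refine (norm_add_le _ _).trans (add_le_add (h1 n (mem_range.1 hn)) ?_)
    refine (norm_sum_le _ _).trans (sum_le_sum fun d _ => ?_)
    rw [norm_mul, Complex.norm_real, Real.norm_eq_abs]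
  refine (sum_le_sum h4).trans ?_
  rw [sum_add_distrib, sum_const, card_range, nsmul_eq_mul, sum_comm]
  have h5 : ∑ d ∈ range N, ∑ n ∈ range N, |a d| * ‖U n d - c n d‖ ≤
      ∑ d ∈ range N, |a d| * (ε * N) := sum_le_sum fun d hd => by
    rw [← mul_sum]
    exact mul_le_mul_of_nonneg_left (h2 d (mem_range.1 hd)) (abs_nonneg _)
  rw [← sum_mul] at h5
  have h6 := mul_le_mul_of_nonneg_right h3 (mul_nonneg hε (Nat.cast_nonneg (α := ℝ) N))
  linarith

lemma mass (a : ℕ → ℝ) (ha : ∀ d, 0 ≤ a d) (N : ℕ)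
    (h : ‖∑ d ∈ range N, ((a d - 1 : ℝ) : ℂ) * 1‖ ≤ 1 * N) :
    ∑ d ∈ range N, |a d - 1| ≤ 3 * N := by
  simp only [mul_one, one_mul] at h
  rw [← Complex.ofReal_sum, Complex.norm_real, Real.norm_eq_abs] at h
  have h1 : ∑ d ∈ range N, |a d - 1| ≤ ∑ d ∈ range N, ((a d - 1) + 2) :=
    sum_le_sum fun d _ => abs_le.2 ⟨by linarith [ha d], by linarith⟩
  rw [sum_add_distrib, sum_const, card_range, nsmul_eq_mul] at h1
  linarith [le_abs_self (∑ d ∈ range N, (a d - 1))]

lemma flat {a : ℕ → ℝ} (h : TStr a) : Fl a := by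
  intro ε hε
  filter_upwards [h 0 Fin.elim0 (fun t => t.elim0) ε hε, eventually_ge_atTop 1] with N hN h1 t
  have h2 := hN Fin.elim0 (fun _ => t) fun t => t.elim0
  simp only [univ_eq_empty, prod_empty, one_mul, sum_const, card_range, nsmul_eq_mul] at h2
  have h3 : (0 : ℝ) < N := by exact_mod_cast h1
  rw [mul_comm] at h2
  exact le_of_mul_le_mul_right h2 h3

end UAe

theorem aeT : AeR := by
  intro h1 h2 σ hσ ha hg Ω _ P _ E hE hind hP
  have hm := h2 σ hσ ha hg Ω P E hE hind hP 0 (fun _ => {fun _ => 1})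
    (fun M c hc x => by rw [mem_singleton.1 hc]; simp) (fun M _ => by simp) 1 one_pos
  have hs : ∀ᵐ ω ∂P, ∀ (J : ℕ) (b : Fin J → Fin 3 → ℤ) (j : ℕ), (∀ t i, b t i ≠ 0) →
      ∀ᶠ N : ℕ in atTop, ∀ (u : Fin J → ℤ → ℂ) (θ : ℕ → ℝ), (∀ t, u t ∈ T3S.CZ (b t) (N ^ 2)) →
        ∑ n ∈ range N, ‖∑ d ∈ range N, ((iw σ (fun m => ω ∈ E m) d - 1 : ℝ) : ℂ) *
          ((∏ t, u t ((n : ℤ) + (d : ℤ))) * ee ((d : ℝ) * θ n))‖ ≤
          4 * (1 / ((j : ℝ) + 1)) * N * N := by
    simp only [ae_all_iff]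
    intro J b j hb
    obtain ⟨C, S, s1, s2, s3⟩ := h1 J b hb (1 / ((j : ℝ) + 1)) (by positivity)
    have := h2 σ hσ ha hg Ω P E hE hind hP C S s1 s2 (1 / ((j : ℝ) + 1)) (by positivity)
    filter_upwards [this, hm] with ω k1 k2
    filter_upwards [k1, k2, s3] with N m1 m2 m3 u θ hu
    obtain ⟨c, c1, c2⟩ := m3 u θ hu
    refine UAe.step (fun d => iw σ (fun m => ω ∈ E m) d - 1) N _ c _ (by positivity)
      (fun n hn => m1 _ (c1 n hn)) c2 (UAe.mass _ (fun d => ?_) N (m2 _ (mem_singleton_self _)))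
    refine div_nonneg ?_ (hσ d).1.le
    unfold T3S.ind
    split_ifs <;> norm_num
  filter_upwards [hs] with ω hω
  have h3 : TStr (iw σ fun m => ω ∈ E m) := fun J b hb ε hε => by
    obtain ⟨j, hj⟩ := exists_nat_one_div_lt (by positivity : 0 < ε / 4)
    filter_upwards [hω J b j hb] with N hN u θ hu
    refine (hN u θ hu).trans ?_
    gcongr
    linarith
  exact ⟨h3, UAe.flat h3⟩

end T5u

end

end PkUAe

section PkVRho

/-! A decreasing positive sequence above `log n / n` whose sums are negligible against a given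
sequence of sums that beats the square of the logarithm. -/

set_option autoImplicit false

open Filter Topology Finset
open Pool.Agent.MP_154433_an

noncomputable section

namespace T5u

namespace VRho

/-- the basic sequence -/
def ll (n : ℕ) : ℝ := Real.log (n + 3) / (n + 3)

theorem three_le (n : ℕ) : Real.exp 1 ≤ (n : ℝ) + 3 := by
  have := Real.exp_one_lt_d9
  have : (0 : ℝ) ≤ n := n.cast_nonneg
  linarith

theorem ll_pos (n : ℕ) : 0 < ll n := by
  have : (0 : ℝ) ≤ n := n.cast_nonneg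
  exact div_pos (Real.log_pos (by linarith)) (by linarith)

theorem ll_anti : Antitone ll := fun m n h =>
  Real.log_div_self_antitoneOn (three_le m) (three_le n) (by simpa using h)

theorem ll_zero : Tendsto ll atTop (𝓝 0) :=
  Real.isLittleO_log_id_atTop.tendsto_div_nhds_zero.comp
    (tendsto_atTop_add_const_right _ 3 tendsto_natCast_atTop_atTop)

theorem ll_low {n : ℕ} (hn : 2 ≤ n) : 1 / 4 ≤ (n : ℝ) * ll n / Real.log n := by
  have h2 : (2 : ℝ) ≤ n := by exact_mod_cast hn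
  have h0 : 0 < Real.log n := Real.log_pos (by linarith)
  have h1 : Real.log n ≤ Real.log (n + 3) := Real.log_le_log (by linarith) (by linarith)
  rw [le_div_iff₀ h0, ll, ← mul_div_assoc, le_div_iff₀ (by linarith)]
  nlinarith

theorem ll_sum (M : ℕ) : ∑ d ∈ range M, ll d ≤ Real.log (M + 2) ^ 2 := by
  induction M with
  | zero => rw [sum_range_zero]; positivity
  | succ M ih =>
    have h0 : (0 : ℝ) ≤ M := M.cast_nonneg
    have h1 := Real.one_sub_inv_le_log_of_pos (x := ((M : ℝ) + 3) / (M + 2)) (by positivity)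
    rw [Real.log_div (by positivity) (by positivity), inv_div] at h1
    have h2 : 1 - ((M : ℝ) + 2) / (M + 3) = 1 / (M + 3) := by field_simp; ring
    have h3 : 0 ≤ Real.log (M + 2) := Real.log_nonneg (by linarith)
    have h4 : 0 ≤ Real.log (M + 3) := Real.log_nonneg (by linarith)
    have h5 : Real.log (M + 2) ≤ Real.log (M + 3) := Real.log_le_log (by linarith) (by linarith)
    have h6 : ll M ≤ Real.log (M + 3) * (Real.log (M + 3) - Real.log (M + 2)) := by
      rw [ll, div_eq_mul_one_div, ← h2]; exact mul_le_mul_of_nonneg_left h1 h4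
    rw [sum_range_succ, show ((M + 1 : ℕ) : ℝ) + 2 = M + 3 by push_cast; ring]
    nlinarith

theorem ll_sum' {M : ℕ} (hM : 2 ≤ M) : ∑ d ∈ range M, ll d ≤ 4 * Real.log M ^ 2 := by
  have h2 : (2 : ℝ) ≤ M := by exact_mod_cast hM
  have h1 : Real.log (M + 2) ≤ 2 * Real.log M := by
    rw [show 2 * Real.log M = Real.log ((M : ℝ) ^ 2) by simp]
    exact Real.log_le_log (by linarith) (by nlinarith)
  have h3 : 0 ≤ Real.log (M + 2) := Real.log_nonneg (by linarith)
  nlinarith [ll_sum M]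

/-- a monotone sequence that tends to infinity below the square root of a given one -/
theorem exists_J {u : ℕ → ℝ} (hu : Tendsto u atTop atTop) : ∃ J : ℕ → ℝ, Monotone J ∧
    (∀ n, 1 ≤ J n) ∧ Tendsto J atTop atTop ∧ ∀ n, J n ^ 2 ≤ max (u n) 1 := by
  let S : ℕ → Set ℝ := fun M => (fun m => max (u m) 1) '' Set.Ici M
  have ne : ∀ M, (S M).Nonempty := fun M => ⟨_, M, Set.mem_Ici.2 le_rfl, rfl⟩
  have lb : ∀ M, (1 : ℝ) ∈ lowerBounds (S M) := by
    rintro M _ ⟨m, -, rfl⟩; exact le_max_right _ _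
  have one : ∀ M, 1 ≤ sInf (S M) := fun M => le_csInf (ne M) (lb M)
  refine ⟨fun M => √(sInf (S M)), fun M N h => Real.sqrt_le_sqrt (csInf_le_csInf ⟨_, lb M⟩ (ne N)
    (Set.image_mono (Set.Ici_subset_Ici.2 h))), fun M => Real.one_le_sqrt.2 (one M),
    Real.tendsto_sqrt_atTop.comp (tendsto_atTop.2 fun b => ?_), fun M => ?_⟩
  · obtain ⟨N, hN⟩ := eventually_atTop.1 (hu.eventually_ge_atTop b)
    filter_upwards [eventually_ge_atTop N] with M hM
    refine le_csInf (ne M) ?_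
    rintro _ ⟨m, hm, rfl⟩
    exact (hN m (hM.trans hm)).trans (le_max_left _ _)
  · rw [Real.sq_sqrt (by linarith [one M])]
    exact csInf_le ⟨_, lb M⟩ ⟨M, Set.mem_Ici.2 le_rfl, rfl⟩

/-- running minimum -/
def rm (f : ℕ → ℝ) (n : ℕ) : ℝ := (range (n + 1)).inf' nonempty_range_add_one f

theorem rm_le (f : ℕ → ℝ) {m n : ℕ} (h : m ≤ n) : rm f n ≤ f m :=
  inf'_le f (mem_range.2 (by omega))

theorem rm_eq (f : ℕ → ℝ) (n : ℕ) : ∃ m ≤ n, rm f n = f m := by
  obtain ⟨m, hm, e⟩ := exists_mem_eq_inf' (nonempty_range_add_one (n := n)) f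
  exact ⟨m, by have := mem_range.1 hm; omega, e⟩

theorem rm_anti (f : ℕ → ℝ) : Antitone (rm f) := fun m n h => by
  obtain ⟨k, hk, e⟩ := rm_eq f m
  rw [e]; exact rm_le f (hk.trans h)

end VRho

open VRho in
theorem rhoT : RhoT := by
  intro σ _ hg
  obtain ⟨J, j1, j2, j3, j4⟩ := exists_J hg
  have pos : ∀ n, 0 < rm (fun m => J m * ll m) n := fun n => by
    obtain ⟨m, -, e⟩ := rm_eq (fun m => J m * ll m) n
    rw [e]; exact mul_pos (by linarith [j2 m]) (ll_pos m)
  refine ⟨rm fun m => J m * ll m, pos, rm_anti _, tendsto_atTop.2 fun b => ?_, ?_⟩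
  · obtain ⟨N, hN⟩ := eventually_atTop.1 (j3.eventually_ge_atTop (4 * |b|))
    have z : Tendsto (fun n => 4 * |b| * ll n) atTop (𝓝 0) := by
      simpa using ll_zero.const_mul (4 * |b|)
    filter_upwards [z.eventually_le_const (ll_pos N), eventually_ge_atTop 2] with n h1 h2
    have h3 : 4 * |b| * ll n ≤ rm (fun m => J m * ll m) n := by
      obtain ⟨m, hm, e⟩ := rm_eq (fun m => J m * ll m) n
      rw [e]
      rcases le_total N m with c | c
      · exact mul_le_mul (hN m c) (ll_anti hm) (ll_pos n).le (by linarith [j2 m])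
      · exact (h1.trans (ll_anti c)).trans (le_mul_of_one_le_left (ll_pos m).le (j2 m))
    have h4 : (2 : ℝ) ≤ n := by exact_mod_cast h2
    have h5 : 0 < Real.log n := Real.log_pos (by linarith)
    calc b ≤ 4 * |b| * (1 / 4) := by linarith [le_abs_self b]
      _ ≤ 4 * |b| * ((n : ℝ) * ll n / Real.log n) :=
        mul_le_mul_of_nonneg_left (ll_low h2) (by positivity)
      _ = (n : ℝ) * (4 * |b| * ll n) / Real.log n := by ring
      _ ≤ _ := div_le_div_of_nonneg_right (mul_le_mul_of_nonneg_left h3 (by linarith)) h5.le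
  · have z : Tendsto (fun M => 4 / J M) atTop (𝓝 0) := j3.const_div_atTop 4
    refine squeeze_zero' ?_ ?_ z
    · filter_upwards with M
      exact div_nonneg (sum_nonneg fun d _ => (pos d).le) (sum_nonneg fun d _ => ‹∀ n, 0 ≤ σ n› d)
    · filter_upwards [Tendsto.eventually_ge_atTop hg 1, eventually_ge_atTop 2] with M h1 h2
      have h4 : (2 : ℝ) ≤ M := by exact_mod_cast h2
      have h5 : 0 < Real.log M ^ 2 := pow_pos (Real.log_pos (by linarith)) 2
      have h6 := j4 M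
      rw [max_eq_left h1, le_div_iff₀ h5] at h6
      rw [le_div_iff₀ h5] at h1
      have h7 : 0 < J M := by linarith [j2 M]
      have h8 : T3S.Wt (rm fun m => J m * ll m) M ≤ J M * (4 * Real.log M ^ 2) := by
        refine le_trans ?_ (mul_le_mul_of_nonneg_left (ll_sum' h2) h7.le)
        rw [mul_sum]
        exact sum_le_sum fun d hd => (rm_le (fun m => J m * ll m) le_rfl).trans
          (mul_le_mul_of_nonneg_right (j1 (mem_range.1 hd).le) (ll_pos d).le)
      rw [div_le_div_iff₀ (by linarith) h7]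
      nlinarith [mul_le_mul_of_nonneg_right h8 h7.le]

end T5u

end

end PkVRho

section PkVUb

/-! The union bound for the truncated importance weights. -/

set_option autoImplicit false
set_option linter.unusedVariables false

open MeasureTheory ProbabilityTheory Filter Topology Function Finset ComplexConjugate
open scoped BigOperators
open Pool.Agent.MP_154433_an

noncomputable section

namespace T5u

namespace VUb

open Classical in
/-- the rescaled coefficients -/
def cc (σ ρ r : ℕ → ℝ) (N k : ℕ) : ℝ := if k < N ∧ ρ k ≤ σ k then r k * (ρ N / σ k) else 0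

lemma cc_abs {σ ρ r : ℕ → ℝ} (hρ : ∀ n, 0 < ρ n) (ha : Antitone ρ) (hr : ∀ k, |r k| ≤ 1)
    (N k : ℕ) : |cc σ ρ r N k| ≤ 1 := by
  unfold cc
  split_ifs with h
  · have h0 := (hρ k).trans_le h.2
    rw [abs_mul, abs_of_pos (div_pos (hρ N) h0)]
    exact mul_le_one₀ (hr k) (div_pos (hρ N) h0).le ((div_le_one h0).2 ((ha h.1.le).trans h.2))
  · simp

lemma cc_var {σ ρ r : ℕ → ℝ} (hσ : ∀ n, 0 ≤ σ n ∧ σ n ≤ 1) (hρ : ∀ n, 0 < ρ n) (ha : Antitone ρ)
    (hr : ∀ k, |r k| ≤ 1) (N : ℕ) : ∑ k ∈ range N, σ k * cc σ ρ r N k ^ 2 ≤ N * ρ N := by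
  refine (sum_le_card_nsmul _ _ (ρ N) fun k hk => ?_).trans (by simp)
  have h1 := cc_abs (σ := σ) hρ ha hr N k
  have h2 : σ k * |cc σ ρ r N k| ≤ ρ N := by
    unfold cc
    split_ifs with h
    · have h0 := (hρ k).trans_le h.2
      rw [abs_mul, abs_of_pos (div_pos (hρ N) h0), mul_left_comm, mul_div_cancel₀ _ h0.ne']
      exact mul_le_of_le_one_left (hρ N).le (hr k)
    · simpa using (hρ N).le
  rw [← sq_abs, sq, ← mul_assoc]
  exact (mul_le_of_le_one_right (mul_nonneg (hσ k).1 (abs_nonneg _)) h1).trans h2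

lemma one (hT : TailT) {Ω : Type} [MeasurableSpace Ω] {P : Measure Ω} [IsProbabilityMeasure P]
    {σ ρ : ℕ → ℝ} (hσ : ∀ n, 0 ≤ σ n ∧ σ n ≤ 1) (hρ : ∀ n, 0 < ρ n) (ha : Antitone ρ) (hg : G1 ρ)
    {E : ℕ → Set Ω}
    (hE : ∀ n, MeasurableSet (E n)) (hind : iIndepSet E P)
    (hP : ∀ n, P (E n) = ENNReal.ofReal (σ n)) {C : ℝ} {S : ℕ → Finset (ℕ → ℂ)}
    (hb : ∀ M, ∀ c ∈ S M, T3S.B1 c)
    (hS : ∀ M, 1 ≤ M → ((S M).card : ℝ) ≤ Real.exp (C * (Real.log M + 1))) {ε : ℝ}
    (h0 : 0 < ε) (h1 : ε ≤ 1) (θ : ℂ) (hθ : ‖θ‖ = 1) :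
    ∀ᵐ ω ∂P, ∀ᶠ M in atTop, ∀ c ∈ S M, ∑ k ∈ range M,
      (iv σ ρ (fun m => ω ∈ E m) k - 1) * (θ * c k).re ≤ ε * M := by
  let B : ℕ → Set Ω := fun M => ⋃ c ∈ S M, {ω | ε * (M * ρ M) ≤ ∑ k ∈ range M,
      ((E k).indicator (fun _ => (1 : ℝ)) ω - σ k) * cc σ ρ (fun k => (θ * c k).re) M k}
  have hB : ∀ᶠ M in atTop, P.real (B M) ≤ 1 / (M : ℝ) ^ 2 := by
    filter_upwards [hg.eventually_ge_atTop (4 * (|C| * 2 + 2) / ε ^ 2), eventually_ge_atTop 1,
      UUb.log1] with M hM hM1 hL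
    have hM0 : (0 : ℝ) < M := by exact_mod_cast hM1
    have x2 : C * (Real.log M + 1) ≤ |C| * (2 * Real.log M) :=
      mul_le_mul (le_abs_self C) (by linarith) (by positivity) (abs_nonneg C)
    rw [div_le_div_iff₀ (by positivity) (by positivity)] at hM
    refine (measureReal_biUnion_finset_le _ _).trans ?_
    have hr : ∀ c ∈ S M, ∀ k, |(θ * c k).re| ≤ 1 := fun c hc k =>
      (Complex.abs_re_le_norm _).trans (by rw [norm_mul, hθ, one_mul]; exact hb M c hc k)
    refine (sum_le_card_nsmul _ _ _ fun c hc => hT σ hσ Ω P E hE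
      hind hP _ M _ ε (cc_abs hρ ha (hr c hc) M) (cc_var hσ hρ ha (hr c hc) M) h0.le h1).trans ?_
    rw [nsmul_eq_mul]
    refine (mul_le_mul_of_nonneg_right (hS M hM1) (Real.exp_pos _).le).trans ?_
    rw [← Real.exp_add]
    refine (Real.exp_le_exp.2 (show _ ≤ -(2 * Real.log M) by linarith)).trans (le_of_eq ?_)
    rw [Real.exp_neg, two_mul, Real.exp_add, Real.exp_log hM0, one_div, sq]
  have hsum : Summable fun M => P.real (B M) := by
    refine Summable.of_norm_bounded_eventually_nat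
      (Real.summable_one_div_nat_pow.2 one_lt_two) ?_
    filter_upwards [hB] with M hM
    rwa [Real.norm_eq_abs, abs_of_nonneg measureReal_nonneg]
  have hne : ∑' M, P (B M) ≠ ⊤ := by
    have : ∀ M, P (B M) = ENNReal.ofReal (P.real (B M)) := fun M =>
      (ofReal_measureReal (measure_ne_top _ _)).symm
    simp only [this]
    rw [← ENNReal.ofReal_tsum_of_nonneg (fun _ => measureReal_nonneg) hsum]
    exact ENNReal.ofReal_ne_top
  filter_upwards [ae_eventually_notMem hne] with ω hω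
  filter_upwards [hω] with M hM c hc
  simp only [B, Set.mem_iUnion, not_exists, Set.mem_ofPred_eq, not_le] at hM
  have h := (hM c hc).le
  have e : ∑ k ∈ range M, ((E k).indicator (fun _ => (1 : ℝ)) ω - σ k) *
      cc σ ρ (fun k => (θ * c k).re) M k =
      ρ M * ∑ k ∈ range M, (iv σ ρ (fun m => ω ∈ E m) k - 1) * (θ * c k).re := by
    rw [mul_sum]
    refine sum_congr rfl fun k hk => ?_
    by_cases hg : ρ k ≤ σ k
    · have := ((hρ k).trans_le hg).ne'
      rw [cc, if_pos ⟨mem_range.1 hk, hg⟩, iv, if_pos hg]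
      by_cases hk : ω ∈ E k
      · simp only [T3S.ind, hk, Set.indicator_of_mem, if_true]; field_simp
      · simp only [T3S.ind, hk, Set.indicator_of_notMem, if_false, not_false_eq_true]; field_simp
    · rw [cc, if_neg fun a => hg a.2, iv, if_neg hg]
      simp
  rw [e] at h
  exact le_of_mul_le_mul_left (h.trans (le_of_eq (by ring))) (hρ M)

end VUb

theorem ubV : UbVR := by
  intro hT σ ρ hσ hρ ha hg Ω _ P _ E hE hind hP C S hb hS ε hε
  have h0 : 0 < min (ε / 2) 1 := lt_min (half_pos hε) one_pos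
  have h := VUb.one hT hσ hρ ha hg hE hind hP hb hS h0 (min_le_right _ _)
  filter_upwards [h 1 (by simp), h (-1) (by simp), h Complex.I (by simp), h (-Complex.I) (by simp)]
    with ω a1 a2 a3 a4
  filter_upwards [a1, a2, a3, a4] with M b1 b2 b3 b4 c hc
  have key : ∀ θ : ℂ, ∑ k ∈ range M, (iv σ ρ (fun m => ω ∈ E m) k - 1) * (θ * c k).re ≤
      min (ε / 2) 1 * M →
      (θ * ∑ d ∈ range M, ((iv σ ρ (fun m => ω ∈ E m) d - 1 : ℝ) : ℂ) * c d).re ≤ ε / 2 * M := by
    intro θ hθ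
    refine le_trans (le_of_eq_of_le ?_ hθ)
      (mul_le_mul_of_nonneg_right (min_le_left _ _) (Nat.cast_nonneg M))
    rw [mul_sum, Complex.re_sum]
    refine sum_congr rfl fun k _ => ?_
    rw [mul_left_comm, Complex.re_ofReal_mul]
  have c1 := key _ (b1 c hc)
  have c2 := key _ (b2 c hc)
  have c3 := key _ (b3 c hc)
  have c4 := key _ (b4 c hc)
  simp only [one_mul, neg_mul, Complex.neg_re, Complex.mul_re, Complex.I_re, Complex.I_im, zero_mul,
    zero_sub, neg_neg] at c1 c2 c3 c4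
  refine (Complex.norm_le_abs_re_add_abs_im _).trans ?_
  have := abs_le.2 ⟨neg_le.1 c2, c1⟩
  have := abs_le.2 ⟨neg_le.1 c3, c4⟩
  linarith

end T5u

end

end PkVUb

section PkVAe

/-! Almost surely the weights do not see twisted structured sequences. -/

set_option autoImplicit false

open MeasureTheory ProbabilityTheory Filter Topology Function Finset
open scoped BigOperators
open Pool.Agent.MP_154433_an

noncomputable section

namespace T5u

open T3x T5x

theorem aeV : AeVR := by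
  intro h1 Ω _ P a ha h2
  have hm := h2 0 (fun _ => {fun _ => 1})
    (fun M c hc x => by rw [mem_singleton.1 hc]; simp) (fun M _ => by simp) 1 one_pos
  have hs : ∀ᵐ ω ∂P, ∀ (J : ℕ) (b : Fin J → Fin 3 → ℤ) (j : ℕ), (∀ t i, b t i ≠ 0) →
      ∀ᶠ N : ℕ in atTop, ∀ (u : Fin J → ℤ → ℂ) (θ : ℕ → ℝ), (∀ t, u t ∈ T3S.CZ (b t) (N ^ 2)) →
        ∑ n ∈ range N, ‖∑ d ∈ range N, ((a ω d - 1 : ℝ) : ℂ) *
          ((∏ t, u t ((n : ℤ) + (d : ℤ))) * ee ((d : ℝ) * θ n))‖ ≤
          4 * (1 / ((j : ℝ) + 1)) * N * N := by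
    simp only [ae_all_iff]
    intro J b j hb
    obtain ⟨C, S, s1, s2, s3⟩ := h1 J b hb (1 / ((j : ℝ) + 1)) (by positivity)
    filter_upwards [h2 C S s1 s2 (1 / ((j : ℝ) + 1)) (by positivity), hm] with ω k1 k2
    filter_upwards [k1, k2, s3] with N m1 m2 m3 u θ hu
    obtain ⟨c, c1, c2⟩ := m3 u θ hu
    exact UAe.step (fun d => a ω d - 1) N _ c _ (by positivity)
      (fun n hn => m1 _ (c1 n hn)) c2 (UAe.mass _ (ha ω) N (m2 _ (mem_singleton_self _)))
  filter_upwards [hs] with ω hω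
  have h3 : TStr (a ω) := fun J b hb ε hε => by
    obtain ⟨j, hj⟩ := exists_nat_one_div_lt (by positivity : 0 < ε / 4)
    filter_upwards [hω J b j hb] with N hN u θ hu
    refine (hN u θ hu).trans ?_
    gcongr
    linarith
  exact ⟨h3, UAe.flat h3⟩

end T5u

end

end PkVAe

section PkVAt

/-! Small atoms of the importance weights, and consequences of the stronger growth condition. -/

set_option autoImplicit false
set_option linter.unusedVariables false

open Filter Topology Finset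
open Pool.Agent.MP_154433_an

noncomputable section

namespace T5u

namespace VAt

theorem lg1 (ε : ℝ) (hε : 0 < ε) : ∀ᶠ N : ℕ in atTop, Real.log ((N : ℝ) + 2) ≤ ε * N := by
  have h : Tendsto (fun N : ℕ => (N : ℝ) + 2) atTop atTop :=
    tendsto_atTop_add_const_right _ _ tendsto_natCast_atTop_atTop
  filter_upwards [h.eventually (Real.isLittleO_log_id_atTop.bound (half_pos hε)),
    eventually_ge_atTop 2] with N h1 h2
  have h3 : (2 : ℝ) ≤ N := by exact_mod_cast h2
  rw [id, Real.norm_of_nonneg (show (0 : ℝ) ≤ N + 2 by linarith)] at h1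
  have h4 := (le_abs_self _).trans h1
  nlinarith

theorem ind01 (p : ℕ → Prop) (d : ℕ) : 0 ≤ T3S.ind p d ∧ T3S.ind p d ≤ 1 := by
  unfold T3S.ind
  split_ifs <;> norm_num

end VAt

theorem atV : AtV := by
  refine ⟨⟨fun ε hε => ?_, fun ε hε => Eventually.of_forall fun N t => ?_⟩,
    fun σ ρ p hρ ha hG => ⟨fun d => ?_, fun ε hε => ?_⟩⟩
  · filter_upwards [VAt.lg1 ε hε] with N h d hd
    rwa [one_mul]
  · simp only [sub_self, Complex.ofReal_zero, zero_mul, sum_const_zero, norm_zero]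
    positivity
  · unfold iv
    split_ifs with h
    · exact div_nonneg (VAt.ind01 p d).1 ((hρ d).le.trans h)
    · exact zero_le_one
  · filter_upwards [VAt.lg1 ε hε, USig.key ρ hG ε hε] with N h0 h1 d hd
    unfold iv
    split_ifs with h
    · have hN : (0 : ℝ) ≤ N := Nat.cast_nonneg N
      have h2 : 0 ≤ Real.log ((N : ℝ) + 2) := Real.log_nonneg (by linarith)
      have h5 : ε * N * ρ N ≤ ε * N * σ d :=
        mul_le_mul_of_nonneg_left ((ha hd.le).trans h) (by positivity)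
      rw [div_mul_eq_mul_div, div_le_iff₀ ((hρ d).trans_le h)]
      nlinarith [(VAt.ind01 p d).2]
    · rwa [one_mul]

theorem grV : GrV := by
  intro σ hG
  have h1 : Tendsto (fun M : ℕ => Real.log M) atTop atTop :=
    Real.tendsto_log_atTop.comp tendsto_natCast_atTop_atTop
  have h2 : T3S.Gr σ 1 := by
    refine (Tendsto.atTop_mul_atTop₀ hG h1).congr' ?_
    filter_upwards [h1.eventually_gt_atTop 0] with M hM
    field_simp
  refine ⟨h2, (Tendsto.atTop_mul_atTop₀ h2 h1).congr' ?_⟩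
  filter_upwards [h1.eventually_gt_atTop 0] with M hM
  field_simp

end T5u

end

end PkVAt

section PkVLay

/-! Row VLay: Abel summation for a general sequence of weights; nearby signed weights. -/

set_option autoImplicit false
set_option linter.unusedVariables false
set_option warn.classDefReducibility false

open MeasureTheory ProbabilityTheory Filter Topology Function Finset ComplexConjugate
open scoped BigOperators
open Fib27 (BM)
open Pool.Agent.MP_154433_an

noncomputable section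

namespace T5u

open T3x T5x

namespace VLay

theorem bnd (Y : Sys) {g : Y.X → ℂ} (hg : BM Y.μ Y.ms g) :
    ∃ K : ℝ, ∀ (w : ℕ → ℝ) (k : ℕ) (b : Y.X → ℝ), Measurable b →
      Integrable (fun x => ‖∑ d ∈ range k, (w d : ℂ) * (g (Y.Tz d x) * ee ((d : ℝ) * b x))‖) Y.μ ∧
      ∫ x, ‖∑ d ∈ range k, (w d : ℂ) * (g (Y.Tz d x) * ee ((d : ℝ) * b x))‖ ∂Y.μ ≤
        (∑ d ∈ range k, |w d|) * K := by
  obtain ⟨h1, C, hC⟩ := hg
  refine ⟨C, fun w k b hb => ?_⟩
  have hmp : ∀ d : ℤ, MeasurePreserving (Y.Tz d) Y.μ Y.μ := fun d => T3S.Tz_mp Y.mp d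
  have hm : AEStronglyMeasurable
      (fun x => ∑ d ∈ range k, (w d : ℂ) * (g (Y.Tz d x) * ee ((d : ℝ) * b x))) Y.μ := by
    refine Finset.aestronglyMeasurable_fun_sum _ fun d _ => ?_
    exact aestronglyMeasurable_const.mul ((h1.comp_measurePreserving (hmp d)).mul
      (ULay.mee.measurable.comp (hb.const_mul _)).aestronglyMeasurable)
  have hae : ∀ᵐ x ∂Y.μ, ∀ d : ℕ, ‖g (Y.Tz d x)‖ ≤ C :=
    ae_all_iff.2 fun d => (hmp d).quasiMeasurePreserving.ae hC
  have hle : ∀ᵐ x ∂Y.μ, ‖∑ d ∈ range k, (w d : ℂ) * (g (Y.Tz d x) * ee ((d : ℝ) * b x))‖ ≤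
      (∑ d ∈ range k, |w d|) * C := by
    filter_upwards [hae] with x hx
    rw [sum_mul]
    refine (norm_sum_le _ _).trans (sum_le_sum fun d _ => ?_)
    rw [norm_mul, norm_mul, ULay.nee, mul_one, Complex.norm_real, Real.norm_eq_abs]
    exact mul_le_mul_of_nonneg_left (hx d) (abs_nonneg _)
  have hi := (Integrable.of_bound hm _ hle).norm
  refine ⟨hi, (integral_mono_ae hi (integrable_const _) hle).trans ?_⟩
  simp

end VLay

theorem layA : LayA := by
  intro σ a h0 hanti hW hS Y g b hg hb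
  obtain ⟨K, hK, hi⟩ := ULay.bnd a Y hg
  have hd : ∀ k, 0 ≤ σ k - σ (k + 1) := fun k => sub_nonneg.2 (hanti (Nat.le_succ k))
  rw [Metric.tendsto_atTop]
  intro ε hε
  obtain ⟨C, hC, hu⟩ := ULay.unif a Y hg (hS Y g hg) (show 0 < ε / 4 by positivity)
  obtain ⟨M0, hM0⟩ := eventually_atTop.1 (hW.eventually_ge_atTop (4 * (C * σ 0) / ε + 1))
  refine ⟨M0, fun M hM => ?_⟩
  have hW1 := hM0 M hM
  have hc0 : 0 ≤ C * σ 0 := mul_nonneg hC (h0 0)
  have hWp : 0 < T3S.Wt σ M := lt_of_lt_of_le (by positivity) hW1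
  rw [Real.dist_eq, sub_zero, abs_of_nonneg (integral_nonneg fun _ => norm_nonneg _)]
  have hpt : ∀ x, ‖∑ d ∈ range M, ((σ d * (a d - 1) / T3S.Wt σ M : ℝ) : ℂ) *
      (g (Y.Tz d x) * ee ((d : ℝ) * b M x))‖ ≤
      (T3S.Wt σ M)⁻¹ * (σ M * ‖sav a Y g M (b M x) x‖ +
        ∑ k ∈ range M, (σ k - σ (k + 1)) * ‖sav a Y g (k + 1) (b M x) x‖) := by
    intro x
    have e1 : ∑ d ∈ range M, ((σ d * (a d - 1) / T3S.Wt σ M : ℝ) : ℂ) *
          (g (Y.Tz d x) * ee ((d : ℝ) * b M x)) =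
        (((T3S.Wt σ M)⁻¹ : ℝ) : ℂ) * ∑ d ∈ range M, (σ d : ℂ) *
          (((a d - 1 : ℝ) : ℂ) * (g (Y.Tz d x) * ee ((d : ℝ) * b M x))) := by
      rw [mul_sum]
      refine sum_congr rfl fun d _ => ?_
      rw [div_eq_inv_mul]
      push_cast
      ring
    rw [e1, ULay.abel, norm_mul, Complex.norm_real, Real.norm_of_nonneg (inv_nonneg.2 hWp.le)]
    refine mul_le_mul_of_nonneg_left ((norm_add_le _ _).trans (add_le_add ?_ ?_))
      (inv_nonneg.2 hWp.le)
    · rw [norm_mul, Complex.norm_real, Real.norm_of_nonneg (h0 M)]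
      exact le_rfl
    · refine (norm_sum_le _ _).trans (sum_le_sum fun k _ => ?_)
      rw [norm_mul, ← Complex.ofReal_sub, Complex.norm_real, Real.norm_of_nonneg (hd k)]
      exact le_rfl
  have i1 : Integrable (fun x => σ M * ‖sav a Y g M (b M x) x‖) Y.μ :=
    (hi M _ (hb M)).1.const_mul _
  have i2 : ∀ k ∈ range M, Integrable
      (fun x => (σ k - σ (k + 1)) * ‖sav a Y g (k + 1) (b M x) x‖) Y.μ :=
    fun k _ => (hi (k + 1) _ (hb M)).1.const_mul _
  have i3 := integrable_finsetSum _ i2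
  have h1 := integral_mono_of_nonneg (μ := Y.μ) (Eventually.of_forall fun _ => norm_nonneg _)
    ((i1.add i3).const_mul (T3S.Wt σ M)⁻¹) (Eventually.of_forall hpt)
  refine lt_of_le_of_lt h1 ?_
  simp only [Pi.add_apply]
  rw [integral_const_mul, integral_add i1 i3, integral_finsetSum _ i2, integral_const_mul]
  simp only [integral_const_mul]
  have h2 : σ M * ∫ x, ‖sav a Y g M (b M x) x‖ ∂Y.μ ≤ σ M * (ε / 4 * M + C) :=
    mul_le_mul_of_nonneg_left (hu M _ (hb M)) (h0 M)
  have h3 : ∑ k ∈ range M, (σ k - σ (k + 1)) * ∫ x, ‖sav a Y g (k + 1) (b M x) x‖ ∂Y.μ ≤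
      ∑ k ∈ range M, (σ k - σ (k + 1)) * (ε / 4 * ((k + 1 : ℕ) : ℝ) + C) :=
    sum_le_sum fun k _ => mul_le_mul_of_nonneg_left (hu (k + 1) _ (hb M)) (hd k)
  have h4 := ULay.abel σ (fun _ => (1 : ℝ)) M
  simp only [mul_one, sum_const, card_range, nsmul_eq_mul] at h4
  have h5 : ∑ k ∈ range M, (σ k - σ (k + 1)) = σ 0 - σ M := sum_range_sub' σ M
  have h6 : ∑ k ∈ range M, (σ k - σ (k + 1)) * (ε / 4 * ((k + 1 : ℕ) : ℝ) + C) =
      ε / 4 * ∑ k ∈ range M, (σ k - σ (k + 1)) * ((k + 1 : ℕ) : ℝ) + C * (σ 0 - σ M) := by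
    rw [← h5, mul_sum, mul_sum, ← sum_add_distrib]
    exact sum_congr rfl fun k _ => by ring
  have h7 : T3S.Wt σ M = σ M * M + ∑ k ∈ range M, (σ k - σ (k + 1)) * ((k + 1 : ℕ) : ℝ) := h4
  have h8 : 4 * (C * σ 0) / ε * ε = 4 * (C * σ 0) := div_mul_cancel₀ _ hε.ne'
  have h9 := mul_le_mul_of_nonneg_right hW1 hε.le
  rw [inv_mul_lt_iff₀ hWp]
  have h10 : ε / 4 * T3S.Wt σ M = σ M * (ε / 4 * M) +
      ε / 4 * ∑ k ∈ range M, (σ k - σ (k + 1)) * ((k + 1 : ℕ) : ℝ) := by
    rw [h7]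
    ring
  have h11 := mul_pos hWp hε
  nlinarith

theorem nearV : NearV := by
  intro y y' hn h Y g b hg hb
  obtain ⟨K, hK⟩ := VLay.bnd Y hg
  have h1 := (h Y g b hg hb).add (hn.mul_const K)
  rw [zero_mul, add_zero] at h1
  refine squeeze_zero (fun M => integral_nonneg fun _ => norm_nonneg _) (fun M => ?_) h1
  have i1 := (hK (y' M) M _ (hb M)).1
  obtain ⟨i2, b2⟩ := hK (fun d => y M d - y' M d) M _ (hb M)
  refine le_trans ?_ (add_le_add le_rfl b2)
  rw [← integral_add i1 i2]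
  refine integral_mono (hK (y M) M _ (hb M)).1 (i1.add i2) fun x => ?_
  refine le_trans (le_of_eq ?_) (norm_add_le _ _)
  rw [← sum_add_distrib]
  refine congrArg _ (sum_congr rfl fun d _ => ?_)
  push_cast
  ring

end T5u

end

end PkVLay

section PkVBad

/-! The indices with a small probability do not matter. -/

set_option autoImplicit false

open MeasureTheory ProbabilityTheory Filter Topology Function Finset
open scoped BigOperators
open Pool.Agent.MP_154433_an

noncomputable section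

namespace T5u

namespace VBad

open Classical in
/-- indicator of the bad indices -/
def bd (σ ρ : ℕ → ℝ) (d : ℕ) : ℝ := if ρ d ≤ σ d then 0 else 1

lemma one {σ ρ : ℕ → ℝ} (hσ : ∀ n, 0 ≤ σ n) (hρ : ∀ n, 0 < ρ n) (p : ℕ → Prop) (M d : ℕ) :
    |T3S.yw σ p M d - σ d * (iv σ ρ p d - 1) / T3S.Wt σ M| ≤
      T3S.yw σ p M d * bd σ ρ d + 2 * (ρ d / T3S.Wt σ M) := by
  have hW : 0 ≤ T3S.Wt σ M := sum_nonneg fun n _ => hσ n
  have h1 := hρ d
  unfold iv bd T3S.yw
  split_ifs with h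
  · have h2 : σ d ≠ 0 := (h1.trans_le h).ne'
    rw [mul_sub, mul_div_cancel₀ _ h2, mul_one, sub_self, abs_zero, mul_zero, zero_add]
    positivity
  · rw [sub_self, mul_zero, zero_div, sub_zero, mul_one, abs_div, abs_of_nonneg hW, ← mul_div_assoc,
      ← add_div]
    refine div_le_div_of_nonneg_right (abs_le.2 ⟨?_, ?_⟩) hW
    · have : 0 ≤ T3S.ind p d := by unfold T3S.ind; split_ifs <;> norm_num
      linarith [not_le.1 h]
    · linarith

end VBad

open VBad

theorem badV : BadR := by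
  intro ub σ ρ hσ hρ hg _ hr Ω _ P _ E hE hi hP
  have h := fun j : ℕ => ub σ hσ Ω P E hE hi hP 1 le_rfl hg 0
    (fun _ => {fun d => (bd σ ρ d : ℂ)})
    (fun _ c hc d => by
      rw [mem_singleton.1 hc]
      by_cases h : ρ d ≤ σ d <;> simp [bd, h])
    (fun _ _ => by simp) (1 / ((j : ℝ) + 1)) Nat.one_div_pos_of_nat
  filter_upwards [ae_all_iff.2 h] with ω hω
  have h1 : Tendsto (fun M => ∑ d ∈ range M, T3S.yw σ (fun m => ω ∈ E m) M d * bd σ ρ d) atTop
      (𝓝 0) := by
    refine Metric.tendsto_nhds.2 fun ε hε => ?_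
    obtain ⟨j, hj⟩ := exists_nat_one_div_lt hε
    filter_upwards [hω j] with M hM
    have h2 := hM _ (mem_singleton_self _)
    rw [dist_zero_right, ← Complex.norm_real]
    push_cast
    exact h2.trans_lt hj
  have h2 := h1.add (hr.const_mul 2)
  rw [mul_zero, add_zero] at h2
  refine squeeze_zero (fun M => sum_nonneg fun _ _ => abs_nonneg _) (fun M => ?_) h2
  refine (sum_le_sum fun d _ => one (fun n => (hσ n).1) hρ _ M d).trans_eq ?_
  rw [sum_add_distrib, ← mul_sum, ← sum_div]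
  rfl

end T5u

end

end PkVBad
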